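import Pool.Agent.H.MP_cc3311_ag.D0

/-!
# MP_cc3311_ag, A1: the antiderivative
-/

set_option autoImplicit false

namespace SBr

open Polynomial

variable {K L : Type} [Field K] [Field L]

theorem Good.mono {n m : ℕ} (h : Good L n) (hm : m ≤ n) : Good L m := by
  intro i hi him
  exact h i hi (by omega)

/-- If the characteristic is larger than `n + 1` (or use `ringChar`). Proof: `ringChar.spec`,
`Nat.le_of_dvd`. -/
theorem good_of_ringChar {n : ℕ} (h : n + 1 < ringChar L) : Good L n := by
  intro i hi hin h0
  have h1 := (ringChar.spec L i).1 h0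
  have h2 := Nat.le_of_dvd (by omega) h1
  omega

theorem Good.up {n : ℕ} (h : Good K n) : Good (AlgebraicClosure K) n := by
  intro i hi hin h0
  apply h i hi hin
  have h1 : algebraMap K (AlgebraicClosure K) (i : K) = 0 := by
    rw [map_natCast]
    exact h0
  exact (map_eq_zero _).1 h1

theorem anti_coeff_zero (f : L[X]) : (anti f).coeff 0 = 0 := by
  unfold anti
  rw [Polynomial.sum_def, Polynomial.finsetSum_coeff]
  refine Finset.sum_eq_zero ?_
  intro i _
  rw [coeff_C_mul, coeff_X_pow, if_neg (by omega), mul_zero]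

theorem anti_coeff_succ (f : L[X]) (i : ℕ) : (anti f).coeff (i + 1) = f.coeff i / ((i : L) + 1) := by
  unfold anti
  rw [Polynomial.sum_def, Polynomial.finsetSum_coeff]
  rw [Finset.sum_eq_single i]
  · rw [coeff_C_mul, coeff_X_pow, if_pos rfl, mul_one]
  · intro j _ hj
    rw [coeff_C_mul, coeff_X_pow, if_neg (by omega), mul_zero]
  · intro hi
    rw [notMem_support_iff.1 hi]
    simp

theorem anti_map (σ : K →+* L) (f : K[X]) : (anti f).map σ = anti (f.map σ) := by
  ext k
  cases k with
  | zero => rw [coeff_map, anti_coeff_zero, anti_coeff_zero, map_zero]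
  | succ i =>
    rw [coeff_map, anti_coeff_succ, anti_coeff_succ, coeff_map, map_div₀, map_add, map_natCast,
      map_one]

theorem derivative_anti {f : L[X]} {n : ℕ} (h : Good L n) (hf : f.natDegree ≤ n) :
    derivative (anti f) = f := by
  ext k
  rw [coeff_derivative, anti_coeff_succ]
  by_cases hk : k ≤ n
  · have h1 := h (k + 1) (by omega) (by omega)
    rw [Nat.cast_add, Nat.cast_one] at h1
    exact div_mul_cancel₀ _ h1
  · rw [coeff_eq_zero_of_natDegree_lt (by omega)]
    simp

/-- A polynomial of degree at most `n + 1` is its constant term plus the antiderivative of its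
derivative. -/
theorem anti_derivative {G : L[X]} {n : ℕ} (h : Good L n) (hG : G.natDegree ≤ n + 1) :
    anti (derivative G) = G - C (G.coeff 0) := by
  ext k
  cases k with
  | zero => rw [anti_coeff_zero, coeff_sub, coeff_C_zero, sub_self]
  | succ i =>
    rw [anti_coeff_succ, coeff_sub, coeff_C_succ, sub_zero, coeff_derivative]
    by_cases hi : i ≤ n
    · have h1 := h (i + 1) (by omega) (by omega)
      rw [Nat.cast_add, Nat.cast_one] at h1
      exact mul_div_cancel_right₀ _ h1
    · rw [coeff_eq_zero_of_natDegree_lt (by omega)]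
      simp

theorem natDegree_anti {f : L[X]} {n : ℕ} (h : Good L n) (hf : f.natDegree = n) (h0 : f ≠ 0) :
    (anti f).natDegree = n + 1 := by
  have h1 := h (n + 1) (by omega) (by omega)
  rw [Nat.cast_add, Nat.cast_one] at h1
  apply natDegree_eq_of_le_of_coeff_ne_zero
  · rw [natDegree_le_iff_coeff_eq_zero]
    intro k hk
    obtain ⟨i, rfl⟩ : ∃ i, k = i + 1 := ⟨k - 1, by omega⟩
    rw [anti_coeff_succ, coeff_eq_zero_of_natDegree_lt (by omega), zero_div]
  · rw [anti_coeff_succ, ← hf]
    rw [← hf] at h1
    exact div_ne_zero (by rw [coeff_natDegree]; exact leadingCoeff_ne_zero.2 h0) h1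

theorem leadingCoeff_anti {f : L[X]} {n : ℕ} (h : Good L n) (hf : f.natDegree = n)
    (h0 : f.Monic) : (anti f).leadingCoeff = 1 / ((n : L) + 1) := by
  rw [leadingCoeff, natDegree_anti h hf h0.ne_zero, anti_coeff_succ, ← hf, coeff_natDegree, h0]

/-- Scalars. -/
theorem anti_C_mul (a : L) (f : L[X]) : anti (C a * f) = C a * anti f := by
  ext k
  cases k with
  | zero => rw [anti_coeff_zero, coeff_C_mul, anti_coeff_zero, mul_zero]
  | succ i => rw [anti_coeff_succ, coeff_C_mul, coeff_C_mul, anti_coeff_succ, mul_div_assoc]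

/-- Translation (up to a constant): `F (X + b)` is the antiderivative of `f (X + b)`. Proof:
`anti_derivative` for `(anti f).comp (X + C b)`. -/
theorem anti_comp {f : L[X]} {n : ℕ} (h : Good L n) (hf : f.natDegree ≤ n) (b : L) :
    anti (f.comp (X + C b)) = (anti f).comp (X + C b) - C ((anti f).eval b) := by
  have h1 : (anti f).natDegree ≤ n + 1 := by
    rw [natDegree_le_iff_coeff_eq_zero]
    intro k hk
    obtain ⟨i, rfl⟩ : ∃ i, k = i + 1 := ⟨k - 1, by omega⟩
    rw [anti_coeff_succ, coeff_eq_zero_of_natDegree_lt (by omega), zero_div]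
  have h2 : ((anti f).comp (X + C b)).natDegree ≤ n + 1 := by
    rw [natDegree_comp, natDegree_X_add_C, mul_one]
    exact h1
  have h3 := anti_derivative h h2
  rw [derivative_comp, derivative_anti h hf, derivative_add, derivative_X, derivative_C, add_zero,
    one_mul] at h3
  rw [h3, coeff_zero_eq_eval_zero, eval_comp, eval_add, eval_X, eval_C, zero_add]

end SBr
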