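import Pool.Agent.H.MP_cc3311_ag.A1

/-!
# MP_cc3311_ag, A2: descent along Frobenius

`K` finite, `Ω` the algebraic closure, `φ x = x ^ q`.
-/

set_option autoImplicit false

namespace SBr

open Polynomial

variable {K : Type} [Field K] [Fintype K]

/-- The Frobenius of the algebraic closure. -/
noncomputable def frob (K : Type) [Field K] [Fintype K] :
    AlgebraicClosure K →+* AlgebraicClosure K :=
  (FiniteField.frobeniusAlgHom K (AlgebraicClosure K)).toRingHom

theorem frob_apply (x : AlgebraicClosure K) : frob K x = x ^ Fintype.card K := rfl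

theorem frob_algebraMap (a : K) :
    frob K (algebraMap K (AlgebraicClosure K) a) = algebraMap K (AlgebraicClosure K) a := by
  rw [frob_apply, ← map_pow, FiniteField.pow_card]

/-- Fixed elements. Proof: `X ^ q - X` has at most `q` roots in the closure, and the `q` elements of
`K` are roots. -/
theorem mem_of_frob {x : AlgebraicClosure K} (h : frob K x = x) :
    ∃ a : K, algebraMap K (AlgebraicClosure K) a = x := by
  classical
  have hq : 1 < Fintype.card K := Fintype.one_lt_card
  rw [frob_apply] at h
  have h1 : (X ^ Fintype.card K - X : (AlgebraicClosure K)[X]) ≠ 0 :=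
    FiniteField.X_pow_card_sub_X_ne_zero _ hq
  have hsub : Finset.univ.image (algebraMap K (AlgebraicClosure K)) ⊆
      (X ^ Fintype.card K - X : (AlgebraicClosure K)[X]).roots.toFinset := by
    intro y hy
    rw [Finset.mem_image] at hy
    obtain ⟨a, -, rfl⟩ := hy
    rw [Multiset.mem_toFinset, mem_roots h1, IsRoot.def, eval_sub, eval_pow, eval_X,
      ← map_pow, FiniteField.pow_card, sub_self]
  have hcard : (X ^ Fintype.card K - X : (AlgebraicClosure K)[X]).roots.toFinset.card ≤
      (Finset.univ.image (algebraMap K (AlgebraicClosure K))).card := by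
    rw [Finset.card_image_of_injective _ (algebraMap K (AlgebraicClosure K)).injective,
      Finset.card_univ]
    refine (Multiset.toFinset_card_le _).trans ((card_roots' _).trans ?_)
    rw [FiniteField.X_pow_card_sub_X_natDegree_eq _ hq]
  have heq := Finset.eq_of_subset_of_card_le hsub hcard
  have hx : x ∈ (X ^ Fintype.card K - X : (AlgebraicClosure K)[X]).roots.toFinset := by
    rw [Multiset.mem_toFinset, mem_roots h1, IsRoot.def, eval_sub, eval_pow, eval_X, h, sub_self]
  rw [← heq, Finset.mem_image] at hx
  obtain ⟨a, -, ha⟩ := hx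
  exact ⟨a, ha⟩

theorem frob_injective : Function.Injective (frob K) := (frob K).injective

theorem map_frob_up (f : K[X]) : (up f).map (frob K) = up f := by
  ext i
  rw [up, coeff_map, coeff_map, frob_algebraMap]

/-- Fixed polynomials. -/
theorem up_of_map_frob {P : (AlgebraicClosure K)[X]} (h : P.map (frob K) = P) :
    ∃ g : K[X], up g = P := by
  have h1 : P ∈ lifts (algebraMap K (AlgebraicClosure K)) := by
    rw [lifts_iff_coeff_lifts]
    intro i
    have h2 : frob K (P.coeff i) = P.coeff i := by
      rw [← coeff_map, h]
    obtain ⟨a, ha⟩ := mem_of_frob h2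
    exact ⟨a, ha⟩
  obtain ⟨g, hg⟩ := (mem_lifts _).1 h1
  exact ⟨g, hg⟩

theorem up_injective : Function.Injective (up : K[X] → (AlgebraicClosure K)[X]) :=
  map_injective _ (algebraMap K (AlgebraicClosure K)).injective

theorem up_monic {f : K[X]} : (up f).Monic ↔ f.Monic := monic_map_iff

theorem up_natDegree (f : K[X]) : (up f).natDegree = f.natDegree := natDegree_map _

/-- `K` is perfect. Proof: `PerfectField.separable_iff_squarefree`, `Polynomial.separable_map`. -/
theorem up_squarefree {f : K[X]} : Squarefree (up f) ↔ Squarefree f := by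
  rw [← PerfectField.separable_iff_squarefree, ← PerfectField.separable_iff_squarefree]
  exact separable_map _

theorem A2_frob_surjective : Function.Surjective (frob K) := by
  intro x
  obtain ⟨y, hy⟩ := IsAlgClosed.exists_pow_nat_eq x (n := Fintype.card K) Fintype.card_pos
  exact ⟨y, hy⟩

theorem A2_isRoot_frob (P : (AlgebraicClosure K)[X]) (y : AlgebraicClosure K) :
    (P.map (frob K)).IsRoot (frob K y) ↔ P.IsRoot y := by
  rw [IsRoot.def, IsRoot.def, eval_map_apply, map_eq_zero_iff _ frob_injective]

/-- Frobenius maps blocks to blocks. Proof: `anti_map` (A1), roots of `E.map φ` are the images of the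
roots of `E` (`E` splits); for squarefreeness use separability or that the number of roots is the
degree. -/
theorem Block.frob {f : K[X]} {E : (AlgebraicClosure K)[X]} (h : Block (up f) E) :
    Block (up f) (E.map (SBr.frob K)) := by
  obtain ⟨h1, h2, h3, v, hv⟩ := h
  refine ⟨h1.map _, ?_, ?_, SBr.frob K v, ?_⟩
  · rw [natDegree_map]
    exact h2
  · rw [← PerfectField.separable_iff_squarefree] at h3 ⊢
    exact (separable_map _).2 h3
  · intro x
    obtain ⟨y, rfl⟩ := A2_frob_surjective x
    rw [A2_isRoot_frob, hv y]
    have h4 : (up f).IsRoot (SBr.frob K y) ↔ (up f).IsRoot y := by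
      rw [← A2_isRoot_frob (up f) y, map_frob_up]
    have h5 : (anti (up f)).eval (SBr.frob K y) = SBr.frob K ((anti (up f)).eval y) := by
      rw [← eval_map_apply, anti_map, map_frob_up]
    rw [h4, h5, frob_injective.eq_iff]

end SBr
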