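import Pool.Agent.H.MP_cc3311_ag.D0

/-!
# MP_cc3311_ag, A4: monic polynomials, square parts
-/

set_option autoImplicit false

namespace SBr

open Polynomial

variable (K : Type) [Field K] [Fintype K]

/-- The polynomials of degree less than `n` over a finite field form a finite set. -/
theorem A4_degreeLT_finite (n : ℕ) : ((degreeLT K n : Submodule K K[X]) : Set K[X]).Finite := by
  have : Finite (degreeLT K n) := Finite.of_equiv _ (degreeLTEquiv K n).toEquiv.symm
  exact Set.toFinite _

theorem monic_finite (n : ℕ) : {f : K[X] | f.Monic ∧ f.natDegree ≤ n}.Finite := by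
  refine (A4_degreeLT_finite K (n + 1)).subset ?_
  rintro f ⟨-, hf⟩
  rw [SetLike.mem_coe, mem_degreeLT]
  refine lt_of_le_of_lt degree_le_natDegree ?_
  exact_mod_cast Nat.lt_succ_of_le hf

/-- Bijection with `Fin n → K` (the coefficients). -/
theorem monic_ncard (n : ℕ) :
    {f : K[X] | f.Monic ∧ f.natDegree = n}.ncard = Fintype.card K ^ n := by
  classical
  have h1 : {f : K[X] | f.Monic ∧ f.natDegree = n}
      = (fun p : K[X] => X ^ n + p) '' ((degreeLT K n : Submodule K K[X]) : Set K[X]) := by
    ext f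
    simp only [Set.mem_ofPred_eq, Set.mem_image, SetLike.mem_coe, mem_degreeLT]
    constructor
    · rintro ⟨hm, hd⟩
      refine ⟨f - X ^ n, ?_, by ring⟩
      have hdeg : f.degree = n := by rw [degree_eq_natDegree hm.ne_zero, hd]
      have h2 := degree_sub_lt_left (p := f) (q := X ^ n) (by rw [hdeg, degree_X_pow]) hm.ne_zero
        (by rw [hm.leadingCoeff, leadingCoeff_X_pow])
      rwa [hdeg] at h2
    · rintro ⟨p, hp, rfl⟩
      refine ⟨monic_X_pow_add hp, ?_⟩
      have h3 : (X ^ n + p : K[X]).degree = ((n : ℕ) : WithBot ℕ) := by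
        rw [degree_add_eq_left_of_degree_lt (by rwa [degree_X_pow]), degree_X_pow]
      exact natDegree_eq_of_degree_eq_some h3
  rw [h1, Set.ncard_image_of_injective _ (add_right_injective (X ^ n : K[X]))]
  have h4 : ((degreeLT K n : Submodule K K[X]) : Set K[X]).ncard = Nat.card (degreeLT K n) := rfl
  rw [h4, Nat.card_congr (degreeLTEquiv K n).toEquiv, Nat.card_eq_fintype_card, Fintype.card_fun,
    Fintype.card_fin]

variable {K}

omit [Fintype K] in
/-- The statement of `exists_sq_mul` with a bound for the degree. -/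
theorem A4_exists (n : ℕ) : ∀ f : K[X], f.Monic → f.natDegree ≤ n →
    ∃ a b : K[X], a.Monic ∧ b.Monic ∧ Squarefree b ∧ f = a ^ 2 * b := by
  induction n with
  | zero =>
    intro f hf hd
    have h1 : f = 1 := (Monic.natDegree_eq_zero hf).mp (Nat.le_zero.mp hd)
    exact ⟨1, 1, monic_one, monic_one, squarefree_one, by rw [h1]; ring⟩
  | succ n ih =>
    intro f hf hd
    by_cases hs : Squarefree f
    · exact ⟨1, f, monic_one, hf, hs, by ring⟩
    · rw [Squarefree] at hs
      push Not at hs
      obtain ⟨x, hx, hu⟩ := hs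
      have hx0 : x ≠ 0 := by
        rintro rfl
        rw [zero_mul, zero_dvd_iff] at hx
        exact hf.ne_zero hx
      set y : K[X] := x * C x.leadingCoeff⁻¹ with hy
      have hym : y.Monic := monic_mul_leadingCoeff_inv hx0
      have hlc : x.leadingCoeff ≠ 0 := leadingCoeff_ne_zero.mpr hx0
      have hass : Associated x y := by
        rw [hy]
        exact associated_mul_unit_right _ _ (isUnit_C.mpr (inv_ne_zero hlc).isUnit)
      have hyf : y * y ∣ f := ((hass.mul_mul hass).dvd_iff_dvd_left).mp hx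
      obtain ⟨g, hg⟩ := hyf
      have hyy : (y * y).Monic := hym.mul hym
      have hgm : g.Monic := hyy.of_mul_monic_left (hg ▸ hf)
      have hyd : 0 < y.natDegree := by
        rw [Nat.pos_iff_ne_zero]
        intro h0
        have h1 : y = 1 := (Monic.natDegree_eq_zero hym).mp h0
        exact hu (hass.symm.isUnit (h1 ▸ isUnit_one))
      have hgd : g.natDegree ≤ n := by
        have h2 : f.natDegree = (y * y).natDegree + g.natDegree := by
          rw [hg]
          exact hyy.natDegree_mul hgm
        rw [hym.natDegree_mul hym] at h2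
        omega
      obtain ⟨a, b, ha, hb, hsq, hab⟩ := ih g hgm hgd
      refine ⟨y * a, b, hym.mul ha, hb, hsq, ?_⟩
      rw [hg, hab]
      ring

omit [Fintype K] in
/-- One divisibility in `sq_mul_unique`. -/
theorem A4_dvd {a b a' b' : K[X]} (ha' : a' ≠ 0)
    (hs' : Squarefree b') (h : a ^ 2 * b = a' ^ 2 * b') : a ∣ a' := by
  classical
  obtain ⟨u, u', hu, hu', hg⟩ := extract_gcd a a'
  set d := GCDMonoid.gcd a a' with hd
  have hd0 : d ≠ 0 := by
    intro h0
    rw [h0, zero_mul] at hu'
    exact ha' hu'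
  have hcop : IsCoprime u u' := (gcd_isUnit_iff u u').mp hg
  have h1 : u ^ 2 * b = u' ^ 2 * b' := by
    have h2 : d ^ 2 * (u ^ 2 * b) = d ^ 2 * (u' ^ 2 * b') := by
      calc d ^ 2 * (u ^ 2 * b) = (d * u) ^ 2 * b := by ring
        _ = a ^ 2 * b := by rw [← hu]
        _ = a' ^ 2 * b' := h
        _ = (d * u') ^ 2 * b' := by rw [← hu']
        _ = d ^ 2 * (u' ^ 2 * b') := by ring
    exact mul_left_cancel₀ (pow_ne_zero 2 hd0) h2
  have h3 : u ^ 2 ∣ b' := by
    have h4 : u ^ 2 ∣ u' ^ 2 * b' := ⟨b, h1.symm⟩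
    exact (hcop.pow (m := 2) (n := 2)).dvd_of_dvd_mul_left h4
  have h5 : IsUnit u := hs' u (by rwa [← sq])
  rw [hu, hu']
  exact mul_dvd_mul_left d (h5.dvd)

variable (K)

omit [Fintype K] in
/-- Every monic polynomial is `a ^ 2 * b` with `a`, `b` monic, `b` squarefree. Proof: strong
induction on the degree. -/
theorem exists_sq_mul {f : K[X]} (hf : f.Monic) :
    ∃ a b : K[X], a.Monic ∧ b.Monic ∧ Squarefree b ∧ f = a ^ 2 * b :=
  A4_exists f.natDegree f hf le_rfl

omit [Fintype K] in
/-- Uniqueness. Proof: for a prime `p`, `emultiplicity p (a ^ 2 * b) = 2 * emultiplicity p a +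
emultiplicity p b` with `emultiplicity p b ≤ 1`; so `a` and `a'` have the same multiplicities, hence
they are associated. Or: `a` divides `a'` and conversely by induction. -/
theorem sq_mul_unique {a b a' b' : K[X]} (ha : a.Monic) (hb : b.Monic) (hs : Squarefree b)
    (ha' : a'.Monic) (hb' : b'.Monic) (hs' : Squarefree b') (h : a ^ 2 * b = a' ^ 2 * b') :
    a = a' ∧ b = b' := by
  have h1 : a = a' := eq_of_monic_of_associated ha ha'
    (associated_of_dvd_dvd (A4_dvd ha'.ne_zero hs' h) (A4_dvd ha.ne_zero hs h.symm))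
  refine ⟨h1, ?_⟩
  rw [h1] at h
  exact mul_left_cancel₀ (pow_ne_zero 2 ha'.ne_zero) h

end SBr
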