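import Pool.Agent.H.MP_cc3311_ag.A4

/-!
# MP_cc3311_ag, A5: the number of squarefree monic polynomials
-/

set_option autoImplicit false

namespace SBr

open Polynomial

variable (K : Type) [Field K] [Fintype K]

theorem A5_monic_eq_finite (n : ℕ) : {f : K[X] | f.Monic ∧ f.natDegree = n}.Finite :=
  (monic_finite K n).subset fun _ hf => ⟨hf.1, hf.2.le⟩

/-- The pairs `(a, b)` with `deg (a ^ 2 b) = n`, `b` squarefree. -/
def A5_X (K : Type) [Field K] (n : ℕ) : Set (K[X] × K[X]) :=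
  {x | x.1.Monic ∧ x.2.Monic ∧ Squarefree x.2 ∧ 2 * x.1.natDegree + x.2.natDegree = n}

theorem A5_X_finite (n : ℕ) : (A5_X K n).Finite := by
  refine ((monic_finite K n).prod (monic_finite K n)).subset ?_
  rintro x ⟨h1, h2, -, h4⟩
  exact ⟨⟨h1, by omega⟩, ⟨h2, by omega⟩⟩

omit [Fintype K] in
theorem A5_deg {a b : K[X]} (ha : a.Monic) (hb : b.Monic) :
    (a ^ 2 * b).natDegree = 2 * a.natDegree + b.natDegree := by
  rw [(ha.pow 2).natDegree_mul hb, ha.natDegree_pow]

omit [Fintype K] in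
theorem A5_image (n : ℕ) : (fun x : K[X] × K[X] => x.1 ^ 2 * x.2) '' A5_X K n
    = {f : K[X] | f.Monic ∧ f.natDegree = n} := by
  ext f
  constructor
  · rintro ⟨x, ⟨h1, h2, -, h4⟩, rfl⟩
    exact ⟨(h1.pow 2).mul h2, by rw [A5_deg K h1 h2, h4]⟩
  · rintro ⟨hf, hd⟩
    obtain ⟨a, b, ha, hb, hs, hab⟩ := exists_sq_mul K hf
    refine ⟨(a, b), ⟨ha, hb, hs, ?_⟩, hab.symm⟩
    rw [← hd, hab, A5_deg K ha hb]

theorem A5_card (n : ℕ) : (A5_X K n).ncard = Fintype.card K ^ n := by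
  rw [← monic_ncard, ← A5_image K n]
  refine (Set.InjOn.ncard_image ?_).symm
  rintro x ⟨h1, h2, h3, -⟩ y ⟨h1', h2', h3', -⟩ hxy
  obtain ⟨e1, e2⟩ := sq_mul_unique K h1 h2 h3 h1' h2' h3' hxy
  exact Prod.ext e1 e2

/-- Counting the pairs `(a, b)` by `deg a = j`. -/
theorem sq_rec (n : ℕ) : Fintype.card K ^ n =
    ∑ j ∈ Finset.range (n / 2 + 1), Fintype.card K ^ j * (Sq K (n - 2 * j)).ncard := by
  classical
  have hX := A5_X_finite K n
  rw [← A5_card, Set.ncard_eq_toFinset_card _ hX]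
  rw [Finset.card_eq_sum_card_fiberwise (f := fun x : K[X] × K[X] => x.1.natDegree)
    (t := Finset.range (n / 2 + 1))]
  · refine Finset.sum_congr rfl fun j hj => ?_
    have hj2 : 2 * j ≤ n := by
      have := Finset.mem_range.1 hj
      omega
    rw [← monic_ncard K j, ← Set.ncard_prod, ← Set.ncard_coe_finset]
    congr 1
    ext x
    simp only [Finset.coe_filter, Set.Finite.mem_toFinset, Set.mem_ofPred_eq, Set.mem_prod, A5_X, Sq]
    constructor
    · rintro ⟨⟨h1, h2, h3, h4⟩, h5⟩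
      exact ⟨⟨h1, h5⟩, h2, by omega, h3⟩
    · rintro ⟨⟨h1, h5⟩, h2, h6, h3⟩
      exact ⟨⟨h1, h2, h3, by omega⟩, h5⟩
  · intro x hx
    have h1 := (Set.Finite.mem_toFinset hX).1 hx
    obtain ⟨-, -, -, h4⟩ := h1
    rw [Finset.mem_coe, Finset.mem_range]
    change x.1.natDegree < n / 2 + 1
    omega

theorem sq_zero : (Sq K 0).ncard = 1 := by
  have h := sq_rec K 0
  simp at h
  exact h.symm

theorem sq_one : (Sq K 1).ncard = Fintype.card K := by
  have h := sq_rec K 1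
  simp at h
  exact h.symm

theorem sq_two : ((Sq K 2).ncard : ℤ) = (Fintype.card K : ℤ) ^ 2 - Fintype.card K := by
  have h := sq_rec K 2
  have h0 := sq_zero K
  norm_num [Finset.sum_range_succ] at h
  rw [h0] at h
  have h1 : ((Fintype.card K ^ 2 : ℕ) : ℤ) = ((Sq K 2).ncard + Fintype.card K * 1 : ℕ) := by
    exact_mod_cast h
  push_cast at h1
  linarith

theorem sq_three : ((Sq K 3).ncard : ℤ) = (Fintype.card K : ℤ) ^ 3 - (Fintype.card K : ℤ) ^ 2 := by
  have h := sq_rec K 3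
  have h0 := sq_one K
  norm_num [Finset.sum_range_succ] at h
  rw [h0] at h
  have h1 : ((Fintype.card K ^ 3 : ℕ) : ℤ) = ((Sq K 3).ncard + Fintype.card K * Fintype.card K : ℕ) := by
    exact_mod_cast h
  push_cast at h1
  linarith

theorem sq_four : ((Sq K 4).ncard : ℤ) = (Fintype.card K : ℤ) ^ 4 - (Fintype.card K : ℤ) ^ 3 := by
  have h := sq_rec K 4
  have h0 := sq_zero K
  have h2 := sq_two K
  norm_num [Finset.sum_range_succ] at h
  rw [h0] at h
  have h1 : ((Fintype.card K ^ 4 : ℕ) : ℤ)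
      = ((Sq K 4).ncard + Fintype.card K * (Sq K 2).ncard + Fintype.card K ^ 2 * 1 : ℕ) := by
    exact_mod_cast h
  push_cast at h1
  rw [h2] at h1
  linear_combination -h1

theorem sq_five : ((Sq K 5).ncard : ℤ) = (Fintype.card K : ℤ) ^ 5 - (Fintype.card K : ℤ) ^ 4 := by
  have h := sq_rec K 5
  have h0 := sq_one K
  have h2 := sq_three K
  norm_num [Finset.sum_range_succ] at h
  rw [h0] at h
  have h1 : ((Fintype.card K ^ 5 : ℕ) : ℤ)
      = ((Sq K 5).ncard + Fintype.card K * (Sq K 3).ncard + Fintype.card K ^ 2 * Fintype.card K : ℕ) := by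
    exact_mod_cast h
  push_cast at h1
  rw [h2] at h1
  linear_combination -h1

end SBr
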