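import Pool.Agent.H.MP_cc3311_ag.A1

/-!
# MP_cc3311_ag, B1: blocks over an algebraically closed field
-/

set_option autoImplicit false

namespace SBr

open Polynomial

variable {L : Type} [Field L] [IsAlgClosed L]

theorem B1_dvd {E G : L[X]} (hs : Squarefree E) (hr : ∀ x, E.IsRoot x → G.IsRoot x) :
    E ∣ G := by
  by_cases hG : G = 0
  · rw [hG]
    exact dvd_zero _
  have hE : E ≠ 0 := hs.ne_zero
  refine (IsAlgClosed.splits E).dvd_of_roots_le_roots hE ?_
  have hnd : E.roots.Nodup := Polynomial.nodup_roots (PerfectField.separable_iff_squarefree.2 hs)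
  rw [Multiset.le_iff_subset hnd]
  intro x hx
  rw [Polynomial.mem_roots hE] at hx
  rw [Polynomial.mem_roots hG]
  exact hr x hx

/-- Monic squarefree polynomials with the same roots are equal. Proof: `IsAlgClosed.splits`,
`roots.Nodup` for squarefree polynomials, product of the `X - C x`. -/
theorem eq_of_roots {E E' : L[X]} (h : E.Monic) (h' : E'.Monic) (hs : Squarefree E)
    (hs' : Squarefree E') (hr : ∀ x, E.IsRoot x ↔ E'.IsRoot x) : E = E' := by
  exact Polynomial.eq_of_monic_of_associated h h'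
    (associated_of_dvd_dvd (B1_dvd hs fun x hx => (hr x).1 hx)
      (B1_dvd hs' fun x hx => (hr x).2 hx))

/-- A squarefree polynomial divides every polynomial which vanishes at its roots. -/
theorem dvd_of_roots {E G : L[X]} (hs : Squarefree E) (hr : ∀ x, E.IsRoot x → G.IsRoot x) :
    E ∣ G := by
  exact B1_dvd hs hr

theorem Block.eq_of_root {f E E' : L[X]} (h : Block f E) (h' : Block f E') {x : L}
    (hx : E.IsRoot x) (hx' : E'.IsRoot x) : E = E' := by
  obtain ⟨hm, hd, hs, v, hv⟩ := h
  obtain ⟨hm', hd', hs', v', hv'⟩ := h'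
  have h1 := ((hv x).1 hx).2
  have h2 := ((hv' x).1 hx').2
  have h3 : v = v' := h1.symm.trans h2
  subst h3
  exact eq_of_roots hm hm' hs hs' fun y => (hv y).trans (hv' y).symm

theorem Block.dvd {f E : L[X]} (h : Block f E) : E ∣ f := by
  obtain ⟨hm, hd, hs, v, hv⟩ := h
  exact dvd_of_roots hs fun x hx => ((hv x).1 hx).1

theorem Block.isCoprime {f E E' : L[X]} (h : Block f E) (h' : Block f E') (hne : E ≠ E') :
    IsCoprime E E' := by
  rw [Polynomial.isCoprime_iff_aeval_ne_zero_of_isAlgClosed L L]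
  intro x
  by_contra hcon
  push Not at hcon
  obtain ⟨h1, h2⟩ := hcon
  rw [Polynomial.coe_aeval_eq_eval] at h1 h2
  exact hne (h.eq_of_root h' h1 h2)

/-- At most two blocks in degree 5. Proof: three pairwise coprime divisors of degree at least 2. -/
theorem block_only {f E E' E'' : L[X]} (hf : f ≠ 0) (hd : f.natDegree ≤ 5) (h : Block f E)
    (h' : Block f E') (hne : E ≠ E') (h'' : Block f E'') : E'' = E ∨ E'' = E' := by
  by_contra hcon
  push Not at hcon
  obtain ⟨n1, n2⟩ := hcon
  have c1 := h.isCoprime h' hne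
  have c2 := h.isCoprime h'' (Ne.symm n1)
  have c3 := h'.isCoprime h'' (Ne.symm n2)
  have d1 : E * E' ∣ f := c1.mul_dvd h.dvd h'.dvd
  have d2 : E * E' * E'' ∣ f := (c2.mul_left c3).mul_dvd d1 h''.dvd
  have d3 := Polynomial.natDegree_le_of_dvd d2 hf
  rw [(h.1.mul h'.1).natDegree_mul h''.1, h.1.natDegree_mul h'.1] at d3
  have e1 := h.2.1
  have e2 := h'.2.1
  have e3 := h''.2.1
  omega

/-- Two blocks in degree `n`: `deg E + deg E' ≤ n`. -/
theorem Block.add_le {f E E' : L[X]} (hf : f ≠ 0) (h : Block f E) (h' : Block f E')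
    (hne : E ≠ E') : E.natDegree + E'.natDegree ≤ f.natDegree := by
  have c1 := h.isCoprime h' hne
  have d1 : E * E' ∣ f := c1.mul_dvd h.dvd h'.dvd
  have d3 := Polynomial.natDegree_le_of_dvd d1 hf
  rwa [h.1.natDegree_mul h'.1] at d3

/-- Existence of the block of two roots with the same value. Proof: product of `X - C z` over the
roots `z` of `f` with the same value. -/
theorem exists_block {f : L[X]} (hf : f ≠ 0) {x y : L} (hxy : x ≠ y) (hx : f.IsRoot x)
    (hy : f.IsRoot y) (h : (anti f).eval x = (anti f).eval y) :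
    ∃ E, Block f E ∧ E.IsRoot x ∧ E.IsRoot y := by
  classical
  set S : Finset L := f.roots.toFinset.filter fun z => (anti f).eval z = (anti f).eval x with hS
  have hmem : ∀ z : L, z ∈ S ↔ f.IsRoot z ∧ (anti f).eval z = (anti f).eval x := by
    intro z
    rw [hS, Finset.mem_filter, Multiset.mem_toFinset, Polynomial.mem_roots hf]
  have hroot : ∀ z : L, (∏ w ∈ S, (X - C w)).IsRoot z ↔ z ∈ S := by
    intro z
    rw [Polynomial.IsRoot.def, Polynomial.eval_prod, Finset.prod_eq_zero_iff]
    constructor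
    · rintro ⟨w, hw, hz⟩
      rw [Polynomial.eval_sub, Polynomial.eval_X, Polynomial.eval_C, sub_eq_zero] at hz
      rw [hz]
      exact hw
    · intro hz
      exact ⟨z, hz, by simp⟩
  have hxS : x ∈ S := (hmem x).2 ⟨hx, rfl⟩
  have hyS : y ∈ S := (hmem y).2 ⟨hy, h.symm⟩
  refine ⟨∏ w ∈ S, (X - C w), ⟨Polynomial.monic_prod_X_sub_C _ _, ?_, ?_,
    (anti f).eval x, fun z => (hroot z).trans (hmem z)⟩, (hroot x).2 hxS, (hroot y).2 hyS⟩
  · rw [Polynomial.natDegree_finset_prod_X_sub_C_eq_card]
    exact Finset.one_lt_card.2 ⟨x, hxS, y, hyS, hxy⟩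
  · refine Polynomial.Separable.squarefree ?_
    exact (Polynomial.separable_prod_X_sub_C_iff' (f := fun z : L => z)).2
      (fun a _ b _ hab => hab)

end SBr
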