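import Pool.Agent.H.MP_cc3311_ag.B1

/-!
# MP_cc3311_ag, B2b: blocks from factorisations `E ^ 2 * Q`
-/

set_option autoImplicit false

namespace SBr

open Polynomial

variable {L : Type} [Field L] [IsAlgClosed L]

/-- The converse.
PROOF. `G = E ^ 2 Q` satisfies `G' = (n + 1) f`, so `G = (n + 1) anti f + G(0)` (`anti_derivative`);
`v = - G(0) / (n + 1)`. `E` is squarefree because `E ∣ G' = (n + 1) f`. A root of `E` is a root of
`G` and of `G'`. Conversely if `f x = 0` and `(anti f) x = v` then `x` is a root of `G` and `G'`, so a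
double root of `G = E ^ 2 Q`; if `E x ≠ 0` then `x` is a double root of `Q`. -/
theorem block_of_Q {f E Q : L[X]} {n : ℕ} (hG : Good L n) (hsq : Squarefree f)
    (hE : E.Monic) (h2 : 2 ≤ E.natDegree) (hQ : Q.Monic)
    (hdeg : 2 * E.natDegree + Q.natDegree = n + 1) (hsQ : Squarefree Q)
    (hder : derivative (E ^ 2 * Q) = C ((n : L) + 1) * f) : Block f E := by
  have hn1 : ((n : L) + 1) ≠ 0 := by
    have := hG (n + 1) (by omega) le_rfl
    push_cast at this
    exact this
  have hunit : IsUnit (C ((n : L) + 1)) := isUnit_C.2 (isUnit_iff_ne_zero.2 hn1)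
  have hdG : (E ^ 2 * Q).natDegree ≤ n + 1 := by
    rw [(hE.pow 2).natDegree_mul hQ, hE.natDegree_pow]
    omega
  have hanti : C ((n : L) + 1) * anti f = E ^ 2 * Q - C ((E ^ 2 * Q).coeff 0) := by
    rw [← anti_C_mul, ← hder]
    exact anti_derivative hG hdG
  have hexp : derivative (E ^ 2 * Q) = E * (2 * derivative E * Q + E * derivative Q) := by
    rw [derivative_mul, derivative_sq, map_ofNat]
    ring
  have hEf : E ∣ f := by
    have h1 : E ∣ C ((n : L) + 1) * f := by
      rw [← hder, hexp]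
      exact dvd_mul_right _ _
    exact hunit.dvd_mul_left.1 h1
  have hval : ∀ x : L, (anti f).eval x = -(E ^ 2 * Q).coeff 0 / ((n : L) + 1) ↔
      (E ^ 2 * Q).eval x = 0 := by
    intro x
    have h1 : ((n : L) + 1) * (anti f).eval x =
        (E ^ 2 * Q).eval x - (E ^ 2 * Q).coeff 0 := by
      have h2 := congrArg (eval x) hanti
      rw [eval_mul, eval_C, eval_sub, eval_C] at h2
      exact h2
    rw [eq_div_iff hn1, mul_comm, h1]
    constructor
    · intro h2
      linear_combination h2
    · intro h2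
      rw [h2]
      ring
  refine ⟨hE, h2, hsq.squarefree_of_dvd hEf, -(E ^ 2 * Q).coeff 0 / ((n : L) + 1), fun x => ?_⟩
  rw [hval x]
  constructor
  · intro hx
    refine ⟨hx.dvd hEf, ?_⟩
    rw [eval_mul, eval_pow, hx.eq_zero]
    ring
  · rintro ⟨hfx, hGx⟩
    by_contra hcon
    have hEx : eval x E ≠ 0 := hcon
    have hQx : eval x Q = 0 := by
      rw [eval_mul, eval_pow] at hGx
      exact (mul_eq_zero.1 hGx).resolve_left (pow_ne_zero 2 hEx)
    have hQx' : eval x (derivative Q) = 0 := by
      have h3 : eval x (derivative (E ^ 2 * Q)) = 0 := by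
        rw [hder, eval_mul, hfx.eq_zero, mul_zero]
      rw [hexp, eval_mul, eval_add, eval_mul, hQx, mul_zero, zero_add, eval_mul] at h3
      exact (mul_eq_zero.1 ((mul_eq_zero.1 h3).resolve_left hEx)).resolve_left hEx
    have hcop : IsCoprime Q (derivative Q) := PerfectField.separable_iff_squarefree.2 hsQ
    rw [isCoprime_iff_aeval_ne_zero_of_isAlgClosed L L] at hcop
    rcases hcop x with h4 | h4
    · exact h4 (by rw [coe_aeval_eq_eval]; exact hQx)
    · exact h4 (by rw [coe_aeval_eq_eval]; exact hQx')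

/-- `E ^ 2 (Q - Q')` has derivative `0` and degree at most `n + 1`, so it is constant. -/
theorem Q_unique {f E Q Q' : L[X]} {n : ℕ} (hG : Good L n) (hE : E.Monic)
    (h2 : 2 ≤ E.natDegree) (hdeg : 2 * E.natDegree + Q.natDegree = n + 1)
    (hdeg' : 2 * E.natDegree + Q'.natDegree = n + 1)
    (hder : derivative (E ^ 2 * Q) = C ((n : L) + 1) * f)
    (hder' : derivative (E ^ 2 * Q') = C ((n : L) + 1) * f) : Q = Q' := by
  have hd : ∀ P : L[X], 2 * E.natDegree + P.natDegree = n + 1 →
      (E ^ 2 * P).natDegree ≤ n + 1 := by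
    intro P hP
    refine natDegree_mul_le.trans ?_
    rw [hE.natDegree_pow]
    omega
  have h1 : (E ^ 2 * (Q - Q')).natDegree ≤ n + 1 := by
    rw [mul_sub]
    exact (natDegree_sub_le _ _).trans (max_le (hd Q hdeg) (hd Q' hdeg'))
  have h3 : derivative (E ^ 2 * (Q - Q')) = 0 := by
    rw [mul_sub, derivative_sub, hder, hder', sub_self]
  have h4 := anti_derivative hG h1
  rw [h3] at h4
  have h5 : anti (0 : L[X]) = 0 := by
    unfold anti
    rw [Polynomial.sum_zero_index]
  rw [h5] at h4
  have h6 : E ^ 2 * (Q - Q') = C ((E ^ 2 * (Q - Q')).coeff 0) := (sub_eq_zero.1 h4.symm)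
  by_contra hne
  have hne' : Q - Q' ≠ 0 := sub_ne_zero.2 hne
  have h7 : (E ^ 2 * (Q - Q')).natDegree = 2 * E.natDegree + (Q - Q').natDegree := by
    rw [(hE.pow 2).natDegree_mul' hne', hE.natDegree_pow]
  rw [h6, natDegree_C] at h7
  omega

end SBr
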