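import Pool.Agent.H.MP_cc3311_ag.B1

/-!
# MP_cc3311_ag, B2a: the factorisation `E ^ 2 * Q` of a block
-/

set_option autoImplicit false

namespace SBr

open Polynomial

variable {L : Type} [Field L] [IsAlgClosed L]

/-- Let `E` be a block of the squarefree monic `f` of degree `n`. Then
`G = (n + 1) (anti f - v)` is `E ^ 2 * Q` with `Q` monic and squarefree.
PROOF. `G` is monic of degree `n + 1`, `G' = (n + 1) f`. Every root of `E` is a root of `G` and of
`G'`, so `E ∣ G`, `G = E S`, `G' = E' S + E S'`, `E ∣ E' S` and `E` is coprime to `E'`, so `E ∣ S`,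
`G = E ^ 2 Q`. If `(X - r) ^ 2 ∣ Q` then `G` and `G'` vanish at `r`, so `f r = 0` and
`(anti f) r = v`, `E r = 0`, `(X - r) ^ 4 ∣ G`, `(X - r) ^ 3 ∣ G' = (n + 1) f`: contradiction. -/
theorem Block.exists_Q {f E : L[X]} {n : ℕ} (hG : Good L n) (hf : f.Monic)
    (hd : f.natDegree = n) (hsq : Squarefree f) (h : Block f E) :
    ∃ Q : L[X], Q.Monic ∧ 2 * E.natDegree + Q.natDegree = n + 1 ∧ Squarefree Q ∧
      derivative (E ^ 2 * Q) = C ((n : L) + 1) * f := by
  have hEf : E ∣ f := h.dvd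
  obtain ⟨hEm, hE2, hEs, v, hv⟩ := h
  have hn1 : ((n : L) + 1) ≠ 0 := by
    have := hG (n + 1) (by omega) le_rfl
    push_cast at this
    exact this
  have hC : (C ((n : L) + 1) : L[X]) ≠ 0 := C_ne_zero.2 hn1
  have hder : derivative (anti f) = f := derivative_anti hG hd.le
  have hdeg : (anti f).natDegree = n + 1 := natDegree_anti hG hd hf.ne_zero
  have hlc : (anti f).leadingCoeff = 1 / ((n : L) + 1) := leadingCoeff_anti hG hd hf
  have hF0 : anti f ≠ 0 := by
    intro h0
    rw [h0, natDegree_zero] at hdeg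
    omega
  have hlt : (C v : L[X]).degree < (anti f).degree := by
    refine lt_of_le_of_lt degree_C_le ?_
    rw [degree_eq_natDegree hF0, hdeg]
    exact_mod_cast Nat.succ_pos n
  obtain ⟨G, hGdef⟩ : ∃ G : L[X], G = C ((n : L) + 1) * (anti f - C v) := ⟨_, rfl⟩
  have hGm : G.Monic := by
    rw [hGdef, Monic, leadingCoeff_mul, leadingCoeff_C, leadingCoeff_sub_of_degree_lt hlt, hlc]
    field_simp
  have hGd : G.natDegree = n + 1 := by
    rw [hGdef, natDegree_C_mul hn1, natDegree_sub_C, hdeg]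
  have hGder : derivative G = C ((n : L) + 1) * f := by
    rw [hGdef, derivative_C_mul, derivative_sub, derivative_C, sub_zero, hder]
  have hEG : E ∣ G := by
    refine dvd_of_roots hEs fun x hx => ?_
    rw [hGdef, IsRoot.def, eval_mul, eval_sub, eval_C, eval_C, ((hv x).1 hx).2, sub_self,
      mul_zero]
  obtain ⟨S, hS⟩ := hEG
  have hsep : IsCoprime E (derivative E) := PerfectField.separable_iff_squarefree.2 hEs
  have hES : E ∣ S := by
    refine hsep.dvd_of_dvd_mul_left ?_
    have h1 : derivative E * S = C ((n : L) + 1) * f - E * derivative S := by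
      rw [← hGder, hS, derivative_mul]
      ring
    rw [h1]
    exact dvd_sub (hEf.mul_left _) (dvd_mul_right _ _)
  obtain ⟨Q, hQ⟩ := hES
  have hGQ : G = E ^ 2 * Q := by rw [hS, hQ]; ring
  have hE2m : (E ^ 2).Monic := hEm.pow 2
  have hQm : Q.Monic := hE2m.of_mul_monic_left (hGQ ▸ hGm)
  refine ⟨Q, hQm, ?_, ?_, ?_⟩
  · rw [← hGd, hGQ, hE2m.natDegree_mul hQm, hEm.natDegree_pow]
  · refine PerfectField.separable_iff_squarefree.1 ?_
    rw [separable_def]
    rw [isCoprime_iff_aeval_ne_zero_of_isAlgClosed L L]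
    intro a
    by_contra hcon
    rw [not_or, not_not, not_not, coe_aeval_eq_eval] at hcon
    obtain ⟨h1, h2⟩ := hcon
    have hGa : G.eval a = 0 := by rw [hGQ, eval_mul, h1, mul_zero]
    have hGa' : (derivative G).eval a = 0 := by
      rw [hGQ, derivative_mul, eval_add, eval_mul, eval_mul, h1, h2, mul_zero, mul_zero, add_zero]
    have hfa : f.IsRoot a := by
      rw [hGder, eval_mul, eval_C] at hGa'
      exact (mul_eq_zero.1 hGa').resolve_left hn1
    have hFa : (anti f).eval a = v := by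
      rw [hGdef, eval_mul, eval_C, eval_sub, eval_C] at hGa
      exact sub_eq_zero.1 ((mul_eq_zero.1 hGa).resolve_left hn1)
    have hEa : E.IsRoot a := (hv a).2 ⟨hfa, hFa⟩
    obtain ⟨E1, hE1⟩ := dvd_iff_isRoot.2 hEa
    obtain ⟨Q1, hQ1⟩ := dvd_iff_isRoot.2 (show Q.IsRoot a from h1)
    have h3 : C ((n : L) + 1) * f = (X - C a) * (X - C a) *
        (3 * (E1 ^ 2 * Q1) + (X - C a) * derivative (E1 ^ 2 * Q1)) := by
      have e1 : G = (X - C a) ^ 3 * (E1 ^ 2 * Q1) := by rw [hGQ, hE1, hQ1]; ring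
      have e2 : (C (3 : L) : L[X]) = 3 := map_ofNat (C : L →+* L[X]) 3
      rw [← hGder, e1, derivative_mul, derivative_X_sub_C_pow, Nat.cast_ofNat, e2]
      ring
    have h4 : (X - C a) * (X - C a) ∣ f := by
      have h5 : (X - C a) * (X - C a) ∣ C ((n : L) + 1) * f := h3 ▸ dvd_mul_right _ _
      exact (IsUnit.dvd_mul_left (isUnit_C.2 (isUnit_iff_ne_zero.2 hn1))).1 h5
    exact not_isUnit_X_sub_C a (hsq _ h4)
  · rw [← hGQ, hGder]

/-- Blocks are small. -/
theorem Block.two_mul_le {f E : L[X]} {n : ℕ} (hG : Good L n) (hf : f.Monic)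
    (hd : f.natDegree = n) (hsq : Squarefree f) (h : Block f E) : 2 * E.natDegree ≤ n + 1 := by
  obtain ⟨Q, _, h1, _⟩ := h.exists_Q hG hf hd hsq
  omega

end SBr
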