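import Pool.Agent.H.MP_cc3311_ag.B2
import Pool.Agent.H.MP_cc3311_ag.A2
import Pool.Agent.H.MP_cc3311_ag.A4

/-!
# MP_cc3311_ag, B4b: finiteness
-/

set_option autoImplicit false

namespace SBr

open Polynomial


theorem Sq_finite (K : Type) [Field K] [Fintype K] (n : ℕ) : (Sq K n).Finite :=
  (monic_finite K n).subset fun _ hf => ⟨hf.1, hf.2.1.le⟩

/-- The blocks divide the polynomial, so their degrees are at most `n`. -/
theorem PP_finite (K : Type) [Field K] [Fintype K] (n : ℕ) : (PP K n).Finite := by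
  refine ((Sq_finite K n).prod (monic_finite K n)).subset ?_
  rintro ⟨f, E⟩ ⟨hf, hB⟩
  refine ⟨hf, up_monic.1 hB.1, ?_⟩
  have hf0 : up f ≠ 0 := (up_monic.2 hf.1).ne_zero
  have h := natDegree_le_of_dvd hB.dvd hf0
  rw [up_natDegree, up_natDegree] at h
  exact h.trans hf.2.1.le

end SBr
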