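import Pool.Agent.H.MP_cc3311_ag.B4a
import Pool.Agent.H.MP_cc3311_ag.B4b

/-!
# MP_cc3311_ag, B4: the counting formula
-/

set_option autoImplicit false

namespace SBr

open Polynomial


/-- THE FORMULA.
PROOF. Let `Bad` be the set of the `f` in `Sq K n` with a block over the closure; by `simply_iff`
`N K n = |Sq| - |Bad|`. The map `PP ∖ WW → Bad ∖ TT`, `(f, E) ↦ f`, is a bijection: injective because
the block is unique, surjective by `block_down`. So `|PP| - |WW| = |Bad| - |TT|`. -/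
theorem formula (K : Type) [Field K] [Fintype K] {n : ℕ} (hG : Good K n) :
    N K n + (PP K n).ncard + (TT K n).ncard = (Sq K n).ncard + (WW K n).ncard := by
  classical
  set Bad : Set K[X] :=
    {f | f ∈ Sq K n ∧ ∃ E : (AlgebraicClosure K)[X], Block (up f) E} with hBad
  have hSf := Sq_finite K n
  have hPf := PP_finite K n
  have hBS : Bad ⊆ Sq K n := fun f hf => hf.1
  have hBf : Bad.Finite := hSf.subset hBS
  have hN : {f : K[X] | f.Monic ∧ f.natDegree = n ∧ Simply (anti f)} = Sq K n \ Bad := by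
    ext f
    simp only [Set.mem_setOf_eq, Set.mem_diff, hBad, Sq]
    constructor
    · rintro ⟨hm, hd, hs⟩
      obtain ⟨h1, h2⟩ := (simply_iff hG hm hd).1 hs
      exact ⟨⟨hm, hd, h1⟩, fun h => h.2.elim fun E hE => h2 E hE⟩
    · rintro ⟨⟨hm, hd, h1⟩, h2⟩
      exact ⟨hm, hd, (simply_iff hG hm hd).2
        ⟨h1, fun E hE => h2 ⟨⟨hm, hd, h1⟩, E, hE⟩⟩⟩
  have h1 : N K n + Bad.ncard = (Sq K n).ncard := by
    unfold N
    rw [hN]
    exact Set.ncard_diff_add_ncard_of_subset hBS hSf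
  have hWP : WW K n ⊆ PP K n := fun x hx => ⟨hx.1.1, hx.2⟩
  have h2 : (PP K n \ WW K n).ncard + (WW K n).ncard = (PP K n).ncard :=
    Set.ncard_diff_add_ncard_of_subset hWP hPf
  have hTB : TT K n ⊆ Bad := fun f hf => ⟨hf.1, hf.2.elim fun E h => ⟨E, h.elim fun E' h' => h'.1⟩⟩
  have h3 : (Bad \ TT K n).ncard + (TT K n).ncard = Bad.ncard :=
    Set.ncard_diff_add_ncard_of_subset hTB hBf
  have huniq : ∀ f : K[X], f ∈ Sq K n → f ∉ TT K n →
      ∀ E E' : (AlgebraicClosure K)[X], Block (up f) E → Block (up f) E' → E = E' := by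
    intro f hf hT E E' hE hE'
    by_contra hne
    exact hT ⟨hf, E, E', hE, hE', hne⟩
  have himg : Prod.fst '' (PP K n \ WW K n) = Bad \ TT K n := by
    ext f
    constructor
    · rintro ⟨⟨g, E⟩, ⟨hP, hW⟩, rfl⟩
      refine ⟨⟨hP.1, up E, hP.2⟩, fun hT => hW ⟨hT, hP.2⟩⟩
    · rintro ⟨⟨hS, E, hE⟩, hT⟩
      obtain ⟨g, hg⟩ := block_down hE (fun E' hE' => huniq f hS hT E' E hE' hE)
      refine ⟨(f, g), ⟨⟨hS, ?_⟩, fun hW => hT hW.1⟩, rfl⟩
      change Block (up f) (up g)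
      rw [hg]
      exact hE
  have hinj : Set.InjOn (Prod.fst : K[X] × K[X] → K[X]) (PP K n \ WW K n) := by
    rintro ⟨f, E⟩ ⟨hP, hW⟩ ⟨f', E'⟩ ⟨hP', hW'⟩ hff
    obtain rfl : f = f' := hff
    have hT : f ∉ TT K n := fun hT => hW ⟨hT, hP.2⟩
    have h := huniq f hP.1 hT (up E) (up E') hP.2 hP'.2
    rw [up_injective h]
  have h4 : (PP K n \ WW K n).ncard = (Bad \ TT K n).ncard := by
    rw [← himg, Set.ncard_image_of_injOn hinj]
  omega

end SBr
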