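import Pool.Agent.H.MP_cc3311_ag.B2
import Pool.Agent.H.MP_cc3311_ag.A2
import Pool.Agent.H.MP_cc3311_ag.A4

/-!
# MP_cc3311_ag, B4a: simply branched antiderivatives and blocks
-/

set_option autoImplicit false

namespace SBr

open Polynomial

theorem B4a_aeval {K : Type} [Field K] (f : K[X]) (x : AlgebraicClosure K) :
    aeval x f = (up f).eval x := by
  rw [up, eval_map_algebraMap]

theorem B4a_aeval_anti {K : Type} [Field K] (f : K[X]) (x : AlgebraicClosure K) :
    aeval x (anti f) = (anti (up f)).eval x := by
  rw [B4a_aeval, up, anti_map]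
  rfl

theorem B4a_sqf {K : Type} [Field K] [Fintype K] (f : K[X]) :
    Squarefree f ↔ ∀ x : AlgebraicClosure K, aeval x f = 0 → aeval x (derivative f) ≠ 0 := by
  rw [← PerfectField.separable_iff_squarefree, Separable,
    Polynomial.isCoprime_iff_aeval_ne_zero_of_isAlgClosed K (AlgebraicClosure K)]
  refine forall_congr' fun x => ?_
  constructor
  · rintro (h | h) h0
    · exact absurd h0 h
    · exact h
  · intro h
    by_cases h0 : aeval x f = 0
    · exact Or.inr (h h0)
    · exact Or.inl h0

/-- Simply branched means squarefree derivative and no block.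
PROOF. `aeval x f = eval x (up f)`; the first clause of `Simply` says that `up f` and its derivative
have no common root, i.e. `up f` is squarefree, i.e. `f` is squarefree (`K` perfect; here use
`up_squarefree`); the second clause is the absence of a block (`exists_block`, and a block has two
different roots). -/
theorem simply_iff {K : Type} [Field K] [Fintype K] {f : K[X]} {n : ℕ} (hG : Good K n)
    (hf : f.Monic) (hd : f.natDegree = n) :
    Simply (anti f) ↔ Squarefree f ∧ ∀ E : (AlgebraicClosure K)[X], ¬ Block (up f) E := by
  classical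
  have hder : derivative (anti f) = f := derivative_anti hG hd.le
  have hup : (up f).Monic := up_monic.2 hf
  unfold Simply
  rw [hder, B4a_sqf]
  refine and_congr_right fun hs => ?_
  constructor
  · rintro h E ⟨h1, h2, h3, v, hv⟩
    -- two different roots
    have hsplit : E.Splits := IsAlgClosed.splits E
    have hcard : E.roots.card = E.natDegree := (splits_iff_card_roots.1 hsplit)
    have hnd : E.roots.Nodup := nodup_roots (PerfectField.separable_iff_squarefree.2 h3)
    have h4 : 1 < E.roots.toFinset.card := by
      rw [Multiset.toFinset_card_of_nodup hnd, hcard]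
      omega
    obtain ⟨x, hx, y, hy, hxy⟩ := Finset.one_lt_card.1 h4
    rw [Multiset.mem_toFinset, mem_roots h1.ne_zero] at hx hy
    obtain ⟨hx1, hx2⟩ := (hv x).1 hx
    obtain ⟨hy1, hy2⟩ := (hv y).1 hy
    apply hxy
    apply h x y
    · rw [B4a_aeval]
      exact hx1
    · rw [B4a_aeval]
      exact hy1
    · rw [B4a_aeval_anti, B4a_aeval_anti, hx2, hy2]
  · intro h x y hx hy hxy
    by_contra hne
    rw [B4a_aeval] at hx hy
    rw [B4a_aeval_anti, B4a_aeval_anti] at hxy
    obtain ⟨E, hE, -⟩ := exists_block hup.ne_zero hne hx hy hxy
    exact h E hE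

/-- If there is only one block it is defined over `K`. Proof: `Block.frob`, `up_of_map_frob`. -/
theorem block_down {K : Type} [Field K] [Fintype K] {f : K[X]}
    {E : (AlgebraicClosure K)[X]} (hE : Block (up f) E)
    (hu : ∀ E' : (AlgebraicClosure K)[X], Block (up f) E' → E' = E) :
    ∃ g : K[X], up g = E :=
  up_of_map_frob (hu _ hE.frob)

end SBr
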