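import Pool.Agent.H.MP_cc3311_ag.B5a

/-!
# MP_cc3311_ag, B5: pairs (polynomial, block) and pairs `(E, Q)`
-/

set_option autoImplicit false

namespace SBr

open Polynomial

variable (K : Type) [Field K] [Fintype K]

theorem B5_der {L : Type} [Field L] {G : L[X]} {n : ℕ} (h : ((n : L) + 1) ≠ 0) (hG : G.Monic)
    (hd : G.natDegree = n + 1) :
    (C (((n : L) + 1)⁻¹) * derivative G).Monic ∧
      (C (((n : L) + 1)⁻¹) * derivative G).natDegree = n ∧
      derivative G = C ((n : L) + 1) * (C (((n : L) + 1)⁻¹) * derivative G) := by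
  have hle : (C (((n : L) + 1)⁻¹) * derivative G).natDegree ≤ n := by
    refine (natDegree_C_mul_le _ _).trans ((natDegree_derivative_le _).trans ?_)
    omega
  have hc : (C (((n : L) + 1)⁻¹) * derivative G).coeff n = 1 := by
    have h1 : G.coeff (n + 1) = 1 := by
      have := hG.coeff_natDegree
      rwa [hd] at this
    rw [coeff_C_mul, coeff_derivative, h1, one_mul, inv_mul_cancel₀ h]
  refine ⟨monic_of_natDegree_le_of_coeff_eq_one n hle hc, ?_, ?_⟩
  · refine natDegree_eq_of_le_of_coeff_ne_zero hle ?_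
    rw [hc]
    exact one_ne_zero
  · rw [← mul_assoc, ← C_mul, mul_inv_cancel₀ h, C_1, one_mul]

theorem B5_RQ_finite (n j : ℕ) : (RQ K n j).Finite := by
  refine ((monic_finite (K := K) (n + 1)).prod (monic_finite (K := K) (n + 1))).subset ?_
  rintro ⟨E, Q⟩ ⟨h1, h2, h3, h4, _⟩
  have h1' : E.Monic := h1
  have h2' : E.natDegree = j := h2
  have h3' : Q.Monic := h3
  have h4' : 2 * j + Q.natDegree = n + 1 := h4
  refine ⟨⟨h1', ?_⟩, ⟨h3', ?_⟩⟩
  · change E.natDegree ≤ n + 1
    omega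
  · change Q.natDegree ≤ n + 1
    omega

theorem B5_map {n j : ℕ} (hG : Good K n) (hj : 2 ≤ j) {E Q : K[X]} (hx : (E, Q) ∈ RQ K n j) :
    (C (((n : K) + 1)⁻¹) * derivative (E ^ 2 * Q), E) ∈ PP K n ∧
      derivative (E ^ 2 * Q) =
        C ((n : K) + 1) * (C (((n : K) + 1)⁻¹) * derivative (E ^ 2 * Q)) := by
  have hn1 : (n : K) + 1 ≠ 0 := by
    have := hG (n + 1) (by omega) le_rfl
    push_cast at this
    exact this
  obtain ⟨h1, h2, h3, h4, h5, h6⟩ := hx
  have h1' : E.Monic := h1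
  have h2' : E.natDegree = j := h2
  have h3' : Q.Monic := h3
  have h4' : 2 * j + Q.natDegree = n + 1 := h4
  have h6' : Squarefree (derivative (E ^ 2 * Q)) := h6
  have hm : (E ^ 2 * Q).Monic := (h1'.pow 2).mul h3'
  have hd : (E ^ 2 * Q).natDegree = n + 1 := by
    rw [(h1'.pow 2).natDegree_mul h3', h1'.natDegree_pow, h2', h4']
  obtain ⟨k1, k2, k3⟩ := B5_der hn1 hm hd
  have hS : C (((n : K) + 1)⁻¹) * derivative (E ^ 2 * Q) ∈ Sq K n := by
    refine ⟨k1, k2, h6'.squarefree_of_dvd ?_⟩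
    exact ⟨C ((n : K) + 1), k3.trans (mul_comm _ _)⟩
  refine ⟨⟨hS, ?_⟩, k3⟩
  change Block (up (C (((n : K) + 1)⁻¹) * derivative (E ^ 2 * Q))) (up E)
  rw [block_iff_over K hG hS]
  refine ⟨by omega, Q, ?_, k3⟩
  rw [h2']
  exact ⟨h1, h2, h3, h4, h5, h6⟩

/-- `(f, E) ↦ (E, Q)` is a bijection from `PP K n` to the disjoint union of the `RQ K n j`.
The inverse is `(E, Q) ↦ (C (1 / (n + 1)) * derivative (E ^ 2 * Q), E)`. -/
theorem PP_ncard {n : ℕ} (hG : Good K n) :
    (PP K n).ncard = ∑ j ∈ Finset.Icc 2 ((n + 1) / 2), (RQ K n j).ncard := by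
  classical
  have hn1 : (n : K) + 1 ≠ 0 := by
    have := hG (n + 1) (by omega) le_rfl
    push_cast at this
    exact this
  set g : K[X] × K[X] → K[X] × K[X] :=
    fun x => (C (((n : K) + 1)⁻¹) * derivative (x.1 ^ 2 * x.2), x.1) with hg
  set S : Finset (K[X] × K[X]) := (Finset.Icc 2 ((n + 1) / 2)).biUnion
    fun j => (B5_RQ_finite K n j).toFinset with hS
  have hmem : ∀ x, x ∈ S ↔ ∃ j, (2 ≤ j ∧ j ≤ (n + 1) / 2) ∧ x ∈ RQ K n j := by
    intro x
    rw [hS, Finset.mem_biUnion]
    constructor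
    · rintro ⟨j, hj, hx⟩
      exact ⟨j, Finset.mem_Icc.1 hj, (Set.Finite.mem_toFinset _).1 hx⟩
    · rintro ⟨j, hj, hx⟩
      exact ⟨j, Finset.mem_Icc.2 hj, (Set.Finite.mem_toFinset _).2 hx⟩
  have hcard : S.card = ∑ j ∈ Finset.Icc 2 ((n + 1) / 2), (RQ K n j).ncard := by
    rw [hS, Finset.card_biUnion]
    · exact Finset.sum_congr rfl fun j _ => (Set.ncard_eq_toFinset_card _ _).symm
    · intro i _ j _ hij
      refine Finset.disjoint_left.2 fun x hx hx' => ?_
      rw [Set.Finite.mem_toFinset] at hx hx'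
      exact hij (hx.2.1.symm.trans hx'.2.1)
  have himg : (PP K n) = g '' (S : Set (K[X] × K[X])) := by
    ext ⟨f, E⟩
    constructor
    · rintro ⟨hf, hB⟩
      have hf' : f ∈ Sq K n := hf
      have hB' : Block (up f) (up E) := hB
      rw [block_iff_over K hG hf'] at hB'
      obtain ⟨h2, Q, hQ, hder⟩ := hB'
      refine ⟨(E, Q), ?_, ?_⟩
      · rw [Finset.mem_coe, hmem]
        refine ⟨E.natDegree, ⟨h2, ?_⟩, hQ⟩
        have h4 : 2 * E.natDegree + Q.natDegree = n + 1 := hQ.2.2.2.1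
        omega
      · change (C (((n : K) + 1)⁻¹) * derivative (E ^ 2 * Q), E) = (f, E)
        rw [hder, ← mul_assoc, ← C_mul, inv_mul_cancel₀ hn1, C_1, one_mul]
    · rintro ⟨⟨E', Q⟩, hx, he⟩
      rw [Finset.mem_coe, hmem] at hx
      obtain ⟨j, hj, hx⟩ := hx
      rw [← he]
      exact (B5_map K hG hj.1 hx).1
  have hinj : Set.InjOn g (S : Set (K[X] × K[X])) := by
    rintro ⟨E, Q⟩ hx ⟨E', Q'⟩ hx' he
    rw [Finset.mem_coe, hmem] at hx hx'
    obtain ⟨j, hj, hx⟩ := hx
    obtain ⟨j', hj', hx'⟩ := hx'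
    have he2 : E = E' := congrArg Prod.snd he
    subst he2
    have he1 : C (((n : K) + 1)⁻¹) * derivative (E ^ 2 * Q) =
        C (((n : K) + 1)⁻¹) * derivative (E ^ 2 * Q') := congrArg Prod.fst he
    have k3 := (B5_map K hG hj.1 hx).2
    have k3' := (B5_map K hG hj'.1 hx').2
    rw [← he1] at k3'
    have hd : 2 * E.natDegree + Q.natDegree = n + 1 := by
      have a : E.natDegree = j := hx.2.1
      have b : 2 * j + Q.natDegree = n + 1 := hx.2.2.2.1
      rw [a]
      exact b
    have hd' : 2 * E.natDegree + Q'.natDegree = n + 1 := by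
      have a : E.natDegree = j' := hx'.2.1
      have b : 2 * j' + Q'.natDegree = n + 1 := hx'.2.2.2.1
      rw [a]
      exact b
    set f : K[X] := C (((n : K) + 1)⁻¹) * derivative (E ^ 2 * Q) with hf
    have hup : ∀ R : K[X], derivative (E ^ 2 * R) = C ((n : K) + 1) * f →
        derivative ((up E) ^ 2 * up R) = C ((n : AlgebraicClosure K) + 1) * up f := by
      intro R hR
      have h := congrArg (Polynomial.map (algebraMap K (AlgebraicClosure K))) hR
      rw [← derivative_map, Polynomial.map_mul, Polynomial.map_pow, Polynomial.map_mul,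
        Polynomial.map_C, map_add, map_natCast, map_one] at h
      exact h
    have hQ : up Q = up Q' := by
      refine Q_unique (f := up f) (E := up E) (n := n) hG.up ?_ ?_ ?_ ?_ (hup Q k3) (hup Q' k3')
      · exact up_monic.2 hx.1
      · rw [up_natDegree]
        have a : E.natDegree = j := hx.2.1
        omega
      · rw [up_natDegree, up_natDegree]
        exact hd
      · rw [up_natDegree, up_natDegree]
        exact hd'
    rw [up_injective hQ]
  rw [himg, hinj.ncard_image, Set.ncard_coe_finset, hcard]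

end SBr
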