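import Pool.Agent.H.MP_cc3311_ag.B4

/-!
# MP_cc3311_ag, B5a: blocks over `K`
-/

set_option autoImplicit false

namespace SBr

open Polynomial

variable (K : Type) [Field K] [Fintype K]

theorem B5a_up_mul {K : Type} [Field K] (f g : K[X]) : up (f * g) = up f * up g :=
  Polynomial.map_mul _

theorem B5a_up_der {K : Type} [Field K] (E Q : K[X]) :
    up (derivative (E ^ 2 * Q)) = derivative (up E ^ 2 * up Q) := by
  unfold up
  rw [← derivative_map, Polynomial.map_mul, Polynomial.map_pow]

theorem B5a_up_C {K : Type} [Field K] (n : ℕ) (f : K[X]) :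
    up (C ((n : K) + 1) * f) = C ((n : AlgebraicClosure K) + 1) * up f := by
  unfold up
  rw [Polynomial.map_mul, map_C, map_add, map_natCast, map_one]

/-- Over `K`: the polynomial `Q` of a block defined over `K` is defined over `K`.
PROOF. `Block.exists_Q` over the closure; `Q.map frob` has the same properties, so `Q.map frob = Q`
by `Q_unique`; `up_of_map_frob`. -/
theorem block_iff_over {f E : K[X]} {n : ℕ} (hG : Good K n) (hf : f ∈ Sq K n) :
    Block (up f) (up E) ↔ 2 ≤ E.natDegree ∧ ∃ Q : K[X], (E, Q) ∈ RQ K n E.natDegree ∧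
      derivative (E ^ 2 * Q) = C ((n : K) + 1) * f := by
  obtain ⟨hfm, hfd, hfs⟩ := hf
  have hn1 : ((n : K) + 1) ≠ 0 := by
    have := hG (n + 1) (by omega) le_rfl
    push_cast at this
    exact this
  constructor
  · intro h
    have hE2 : 2 ≤ E.natDegree := by
      have := h.2.1
      rwa [up_natDegree] at this
    have hEm : E.Monic := up_monic.1 h.1
    obtain ⟨Q', hQm, hQd, hQs, hQder⟩ := h.exists_Q hG.up (up_monic.2 hfm)
      (by rw [up_natDegree]; exact hfd) (up_squarefree.2 hfs)
    have hder' : derivative (up E ^ 2 * Q'.map (frob K)) =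
        C ((n : AlgebraicClosure K) + 1) * up f := by
      have h1 := congrArg (Polynomial.map (frob K)) hQder
      rw [← derivative_map, Polynomial.map_mul, Polynomial.map_pow, map_frob_up,
        Polynomial.map_mul, map_C, map_frob_up, map_add, map_natCast, map_one] at h1
      exact h1
    have hQQ : Q'.map (frob K) = Q' := by
      refine (Q_unique hG.up h.1 h.2.1 hQd ?_ hQder hder').symm
      rw [natDegree_map]
      exact hQd
    obtain ⟨Q, rfl⟩ := up_of_map_frob hQQ
    have hder : derivative (E ^ 2 * Q) = C ((n : K) + 1) * f := by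
      apply up_injective
      rw [B5a_up_der, B5a_up_C]
      exact hQder
    refine ⟨hE2, Q, ⟨hEm, rfl, up_monic.1 hQm, ?_, up_squarefree.1 hQs, ?_⟩, hder⟩
    · rw [up_natDegree, up_natDegree] at hQd
      exact hQd
    · change Squarefree (derivative (E ^ 2 * Q))
      rw [hder]
      have hu : IsUnit (C ((n : K) + 1)) := isUnit_C.2 (isUnit_iff_ne_zero.2 hn1)
      intro x hx
      exact hfs x ((IsUnit.dvd_mul_left hu).1 hx)
  · rintro ⟨hE2, Q, ⟨h1, -, h3, h4, h5, -⟩, hder⟩
    refine block_of_Q hG.up (up_squarefree.2 hfs) (up_monic.2 h1) ?_ (up_monic.2 h3) ?_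
      (up_squarefree.2 h5) ?_
    · rw [up_natDegree]
      exact hE2
    · rw [up_natDegree, up_natDegree]
      exact h4
    · rw [← B5a_up_der, hder, B5a_up_C]

end SBr
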