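import Pool.Agent.H.MP_cc3311_ag.C0a

/-!
# MP_cc3311_ag, C0c: cubics
-/

set_option autoImplicit false

namespace SBr

open Polynomial

variable {L : Type} [Field L]

theorem C0c_iff {S : L[X]} (h0 : S ≠ 0) (r : L) :
    (X - C r) ^ 2 ∣ S ↔ S.IsRoot r ∧ (derivative S).IsRoot r := by
  rw [← one_lt_rootMultiplicity_iff_isRoot h0, ← le_rootMultiplicity_iff h0]
  exact Nat.succ_le_iff

/-- Cubics: not squarefree iff there is a double root (in the field itself).
PROOF. If `p * p ∣ S`, `p` not a unit, then `2 deg p ≤ 3`, so `deg p = 1`. -/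
theorem sqfree_cubic {S : L[X]} (hd : S.natDegree = 3) :
    ¬ Squarefree S ↔ ∃ r : L, S.IsRoot r ∧ (derivative S).IsRoot r := by
  have h0 : S ≠ 0 := fun h => by rw [h, natDegree_zero] at hd; omega
  constructor
  · intro h
    unfold Squarefree at h
    push Not at h
    obtain ⟨p, hp, hu⟩ := h
    have hp0 : p ≠ 0 := fun h => by
      rw [h, zero_mul, zero_dvd_iff] at hp
      exact h0 hp
    have h1 := natDegree_le_of_dvd hp h0
    rw [natDegree_mul hp0 hp0, hd] at h1
    have h2 : p.natDegree ≠ 0 := fun h => by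
      rw [natDegree_eq_zero] at h
      obtain ⟨c, rfl⟩ := h
      exact hu (isUnit_C.mpr (isUnit_iff_ne_zero.mpr fun h => hp0 (by rw [h, C_0])))
    have h3 : p.degree = 1 := by
      rw [degree_eq_natDegree hp0, show p.natDegree = 1 by omega, Nat.cast_one]
    obtain ⟨r, hr⟩ := exists_root_of_degree_eq_one h3
    refine ⟨r, (C0c_iff h0 r).1 ?_⟩
    have h4 := dvd_iff_isRoot.2 hr
    rw [pow_two]
    exact (mul_dvd_mul h4 h4).trans hp
  · rintro ⟨r, hr⟩ hs
    have h1 := (C0c_iff h0 r).2 hr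
    rw [pow_two] at h1
    exact not_isUnit_X_sub_C r (hs _ h1)

/-- A cubic has at most one double root. -/
theorem cubic_unique {S : L[X]} (hd : S.natDegree = 3) {r s : L} (hr : S.IsRoot r)
    (hr' : (derivative S).IsRoot r) (hs : S.IsRoot s) (hs' : (derivative S).IsRoot s) : r = s := by
  have h0 : S ≠ 0 := fun h => by rw [h, natDegree_zero] at hd; omega
  by_contra hne
  have h1 := (C0c_iff h0 r).2 ⟨hr, hr'⟩
  have h2 := (C0c_iff h0 s).2 ⟨hs, hs'⟩
  have h3 : IsCoprime ((X - C r) ^ 2) ((X - C s) ^ 2) :=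
    (isCoprime_X_sub_C_of_isUnit_sub (sub_ne_zero.2 hne).isUnit).pow
  have h4 := natDegree_le_of_dvd (h3.mul_dvd h1 h2) h0
  rw [natDegree_mul (pow_ne_zero _ (X_sub_C_ne_zero r)) (pow_ne_zero _ (X_sub_C_ne_zero s)),
    natDegree_pow, natDegree_pow, natDegree_X_sub_C, natDegree_X_sub_C, hd] at h4
  omega

end SBr
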