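import Pool.Agent.H.MP_cc3311_ag.A1

/-!
# MP_cc3311_ag, C0a: monic polynomials of small degree
-/

set_option autoImplicit false

namespace SBr

open Polynomial

variable {L : Type} [Field L]

/-- `(X - a) ^ 2 - H` -/
noncomputable def qd (a H : L) : L[X] := (X - C a) ^ 2 - C H

theorem C0a_monic (a : L) (n : ℕ) : ((X - C a) ^ n : L[X]).Monic := (monic_X_sub_C a).pow n

theorem C0a_natDegree (a : L) (n : ℕ) : ((X - C a) ^ n : L[X]).natDegree = n := by
  rw [natDegree_pow, natDegree_X_sub_C, mul_one]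

theorem C0a_degree (a : L) (n : ℕ) : ((X - C a) ^ n : L[X]).degree = n := by
  rw [degree_eq_natDegree (C0a_monic a n).ne_zero, C0a_natDegree]

theorem qd_monic (a H : L) : (qd a H).Monic := by
  unfold qd
  refine (C0a_monic a 2).sub_of_left ?_
  rw [C0a_degree]
  exact lt_of_le_of_lt degree_C_le (by norm_num)

theorem qd_natDegree (a H : L) : (qd a H).natDegree = 2 := by
  unfold qd
  rw [natDegree_sub_C, C0a_natDegree]

theorem qd_inj (h2 : (2 : L) ≠ 0) {a H a' H' : L} (h : qd a H = qd a' H') : a = a' ∧ H = H' := by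
  unfold qd at h
  have h0 := congrArg (eval a) h
  have h1 := congrArg (eval (a + 1)) h
  have h3 := congrArg (eval a') h
  simp only [eval_sub, eval_pow, eval_X, eval_C] at h0 h1 h3
  -- h0 : 0 - H = (a - a')^2 - H' ; h3 : (a' - a)^2 - H = 0 - H'
  have e1 : 2 * (a - a') = 0 := by linear_combination h0 - h1
  have e2 : a = a' := by
    rcases mul_eq_zero.mp e1 with h | h
    · exact absurd h h2
    · exact sub_eq_zero.mp h
  refine ⟨e2, ?_⟩
  rw [e2] at h0
  linear_combination -h0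

theorem C0a_quad {Q : L[X]} (hQ : Q.Monic) (hd : Q.natDegree = 2) :
    ∃ u w : L, Q = X ^ 2 + C u * X + C w := by
  refine ⟨Q.coeff 1, Q.coeff 0, ?_⟩
  have h := Q.as_sum_range_C_mul_X_pow
  have hc : Q.coeff 2 = 1 := by rw [← hd]; exact hQ
  rw [hd, Finset.sum_range_succ, Finset.sum_range_succ, Finset.sum_range_one, hc] at h
  rw [h]
  simp only [map_one, one_mul, pow_zero, mul_one, pow_one]
  simp
  ring

theorem C0a_cubic {Q : L[X]} (hQ : Q.Monic) (hd : Q.natDegree = 3) :
    ∃ t u w : L, Q = X ^ 3 + C t * X ^ 2 + C u * X + C w := by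
  refine ⟨Q.coeff 2, Q.coeff 1, Q.coeff 0, ?_⟩
  have h := Q.as_sum_range_C_mul_X_pow
  have hc : Q.coeff 3 = 1 := by rw [← hd]; exact hQ
  rw [hd, Finset.sum_range_succ, Finset.sum_range_succ, Finset.sum_range_succ,
    Finset.sum_range_one, hc] at h
  rw [map_one, one_mul, pow_zero, mul_one, pow_one] at h
  calc Q = C (Q.coeff 0) + C (Q.coeff 1) * X + C (Q.coeff 2) * X ^ 2 + X ^ 3 := h
    _ = _ := by ring

theorem exists_qd (h2 : (2 : L) ≠ 0) {E : L[X]} (hE : E.Monic) (hd : E.natDegree = 2) :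
    ∃ a H : L, E = qd a H := by
  obtain ⟨u, w, rfl⟩ := C0a_quad hE hd
  refine ⟨-(u / 2), (u / 2) ^ 2 - w, ?_⟩
  obtain ⟨v, hv⟩ : ∃ v : L, v = u / 2 := ⟨_, rfl⟩
  have hu : u = 2 * v := by rw [hv]; field_simp
  rw [← hv, hu, qd]
  simp only [map_mul, map_neg, map_sub, map_pow, map_ofNat]
  ring

theorem exists_shift2 (b : L) {Q : L[X]} (hQ : Q.Monic) (hd : Q.natDegree = 2) :
    ∃ u w : L, Q = (X - C b) ^ 2 + C u * (X - C b) + C w := by
  obtain ⟨u, w, rfl⟩ := C0a_quad hQ hd
  refine ⟨u + 2 * b, w + u * b + b ^ 2, ?_⟩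
  simp only [map_mul, map_add, map_pow, map_ofNat]
  ring

theorem shift2_inj {b u w u' w' : L} (h : (X - C b) ^ 2 + C u * (X - C b) + C w =
    (X - C b) ^ 2 + C u' * (X - C b) + C w') : u = u' ∧ w = w' := by
  have h0 := congrArg (eval b) h
  have h1 := congrArg (eval (b + 1)) h
  simp only [eval_add, eval_mul, eval_sub, eval_pow, eval_X, eval_C] at h0 h1
  have e1 : w = w' := by linear_combination h0
  refine ⟨?_, e1⟩
  linear_combination h1 - e1

theorem exists_shift3 (h3 : (3 : L) ≠ 0) {E : L[X]} (hE : E.Monic) (hd : E.natDegree = 3) :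
    ∃ b c d : L, E = (X - C b) ^ 3 + C c * (X - C b) + C d := by
  obtain ⟨t, u, w, rfl⟩ := C0a_cubic hE hd
  obtain ⟨v, hv⟩ : ∃ v : L, v = t / 3 := ⟨_, rfl⟩
  have ht : t = 3 * v := by rw [hv]; field_simp
  -- b = -v, X = (X - b) + b
  refine ⟨-v, u - 3 * v ^ 2, w - u * v + 2 * v ^ 3, ?_⟩
  rw [ht]
  simp only [map_mul, map_neg, map_sub, map_add, map_pow, map_ofNat]
  ring

theorem shift3_inj (h3 : (3 : L) ≠ 0) {b c d b' c' d' : L}
    (h : (X - C b) ^ 3 + C c * (X - C b) + C d = (X - C b') ^ 3 + C c' * (X - C b') + C d') :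
    b = b' ∧ c = c' ∧ d = d' := by
  have h0 := congrArg (fun p => coeff p 2) h
  have key : ∀ b c d : L, ((X - C b) ^ 3 + C c * (X - C b) + C d : L[X])
      = X ^ 3 + C (-(3 * b)) * X ^ 2 + C (3 * b ^ 2 + c) * X + C (-b ^ 3 - c * b + d) := by
    intro b c d
    simp only [map_mul, map_neg, map_sub, map_add, map_pow, map_ofNat]
    ring
  have c2 : ∀ t u w : L, (X ^ 3 + C t * X ^ 2 + C u * X + C w : L[X]).coeff 2 = t := by
    intro t u w
    simp [coeff_X, coeff_C]
  have e1 : 3 * (b - b') = 0 := by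
    simp only [key, c2] at h0
    linear_combination -h0
  have e2 : b = b' := by
    rcases mul_eq_zero.mp e1 with h | h
    · exact absurd h h3
    · exact sub_eq_zero.mp h
  refine ⟨e2, ?_⟩
  rw [e2] at h
  have h1 := congrArg (eval b') h
  have h2 := congrArg (eval (b' + 1)) h
  simp only [eval_add, eval_mul, eval_sub, eval_pow, eval_X, eval_C] at h1 h2
  have e3 : d = d' := by linear_combination h1
  exact ⟨by linear_combination h2 - e3, e3⟩

end SBr
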