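import Pool.Agent.H.MP_cc3311_ag.C0a

/-!
# MP_cc3311_ag, C0b: squarefreeness
-/

set_option autoImplicit false

namespace SBr

open Polynomial

variable {L : Type} [Field L]

theorem C0b_scal {a : L} (ha : a ≠ 0) (f : L[X]) : Squarefree (C a * f) ↔ Squarefree f := by
  constructor
  · intro h
    exact h.squarefree_of_dvd (Dvd.intro_left _ rfl)
  · intro h
    refine h.squarefree_of_dvd ⟨C a⁻¹, ?_⟩
    have h1 : C a * C a⁻¹ = (1 : L[X]) := by
      rw [← C_mul, mul_inv_cancel₀ ha, C_1]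
    calc f = (C a * C a⁻¹) * f := by rw [h1, one_mul]
      _ = C a * f * C a⁻¹ := by ring

theorem C0b_key (h2 : (2 : L) ≠ 0) (a b c : L) :
    C (4 * a) * (C a * X ^ 2 + C b * X + C c) =
      (C (2 * a) * X + C b) * (C (2 * a) * X + C b) - C (b ^ 2 - 4 * a * c) := by
  have _ := h2
  have h4 : C (4 : L) = (4 : L[X]) := map_ofNat C 4
  have h22 : C (2 : L) = (2 : L[X]) := map_ofNat C 2
  simp only [C_mul, C_sub, C_pow, h4, h22]
  ring

/-- Quadratics. Proof: separable iff the discriminant is not zero: `4 a (a X ^ 2 + b X + c) =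
(2 a X + b) ^ 2 - disc`; if `disc = 0` it is `a (X + b / 2a) ^ 2`. -/
theorem sqfree_quad (h2 : (2 : L) ≠ 0) {a b c : L} (ha : a ≠ 0) :
    Squarefree (C a * X ^ 2 + C b * X + C c) ↔ b ^ 2 - 4 * a * c ≠ 0 := by
  have h4 : (4 : L) ≠ 0 := by
    have h5 : (4 : L) = 2 * 2 := by norm_num
    rw [h5]
    exact mul_ne_zero h2 h2
  have h4a : (4 : L) * a ≠ 0 := mul_ne_zero h4 ha
  have h2a : (2 : L) * a ≠ 0 := mul_ne_zero h2 ha
  have hk := C0b_key h2 a b c
  constructor
  · intro h hd
    rw [hd, C_0, sub_zero] at hk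
    have h1 : Squarefree (C (4 * a) * (C a * X ^ 2 + C b * X + C c)) := (C0b_scal h4a _).2 h
    have h3 : IsUnit (C (2 * a) * X + C b) := h1 _ (by rw [hk])
    have h5 : (C (2 * a) * X + C b).natDegree = 1 := natDegree_linear h2a
    have h6 := natDegree_eq_zero_of_isUnit h3
    omega
  · intro hd
    apply Separable.squarefree
    have hder : derivative (C a * X ^ 2 + C b * X + C c) = C (2 * a) * X + C b := by
      simp only [derivative_add, derivative_mul, derivative_C, derivative_X_pow, derivative_X]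
      have h22 : C (2 : L) = (2 : L[X]) := map_ofNat C 2
      norm_num
      rw [h22]
      ring
    unfold Separable
    rw [hder]
    set D := b ^ 2 - 4 * a * c with hD
    refine ⟨-(C D⁻¹ * C (4 * a)), C D⁻¹ * (C (2 * a) * X + C b), ?_⟩
    have h1 : C D⁻¹ * C D = (1 : L[X]) := by
      rw [← C_mul, inv_mul_cancel₀ hd, C_1]
    calc -(C D⁻¹ * C (4 * a)) * (C a * X ^ 2 + C b * X + C c) +
          C D⁻¹ * (C (2 * a) * X + C b) * (C (2 * a) * X + C b)
        = -(C D⁻¹ * (C (4 * a) * (C a * X ^ 2 + C b * X + C c))) +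
          C D⁻¹ * ((C (2 * a) * X + C b) * (C (2 * a) * X + C b)) := by ring
      _ = -(C D⁻¹ * ((C (2 * a) * X + C b) * (C (2 * a) * X + C b) - C D)) +
          C D⁻¹ * ((C (2 * a) * X + C b) * (C (2 * a) * X + C b)) := by rw [hk]
      _ = C D⁻¹ * C D := by ring
      _ = 1 := h1

theorem sqfree_qd (h2 : (2 : L) ≠ 0) (a H : L) : Squarefree (qd a H) ↔ H ≠ 0 := by
  have h1 : qd a H = C 1 * X ^ 2 + C (-(2 * a)) * X + C (a ^ 2 - H) := by
    have h22 : C (2 : L) = (2 : L[X]) := map_ofNat C 2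
    unfold qd
    simp only [C_neg, C_mul, C_sub, C_pow, C_1, h22]
    ring
  rw [h1, sqfree_quad h2 one_ne_zero]
  have h3 : (-(2 * a)) ^ 2 - 4 * 1 * (a ^ 2 - H) = (2 * 2) * H := by ring
  rw [h3]
  constructor
  · intro h hH
    exact h (by rw [hH, mul_zero])
  · intro h
    exact mul_ne_zero (mul_ne_zero h2 h2) h

theorem C0b_comp (b : L) {f : L[X]} (h : Squarefree f) : Squarefree (f.comp (X - C b)) := by
  intro x hx
  obtain ⟨y, hy⟩ := hx
  have hid : (X - C b : L[X]).comp (X + C b) = X := by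
    simp
  have hid' : (X + C b : L[X]).comp (X - C b) = X := by
    simp
  have h1 : f = x.comp (X + C b) * x.comp (X + C b) * y.comp (X + C b) := by
    rw [← mul_comp, ← mul_comp, ← hy, comp_assoc, hid, comp_X]
  have h2 : IsUnit (x.comp (X + C b)) := h _ ⟨_, h1⟩
  have h3 : IsUnit ((x.comp (X + C b)).comp (X - C b)) := h2.map (compRingHom (X - C b))
  rw [comp_assoc, hid', comp_X] at h3
  exact h3

/-- Translations. -/
theorem sqfree_comp (b : L) (f : L[X]) : Squarefree (f.comp (X - C b)) ↔ Squarefree f := by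
  refine ⟨fun h => ?_, C0b_comp b⟩
  have h1 := C0b_comp (-b) h
  have h2 : (X - C b : L[X]).comp (X - C (-b)) = X := by
    simp
  rw [comp_assoc, h2, comp_X] at h1
  exact h1

/-- Nonzero constant factors. -/
theorem sqfree_C_mul {a : L} (ha : a ≠ 0) (f : L[X]) : Squarefree (C a * f) ↔ Squarefree f :=
  C0b_scal ha f

end SBr
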