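import Pool.Agent.H.MP_cc3311_ag.C0

/-!
# MP_cc3311_ag, C1: the sets `RQ` for `n = 3, 4`
-/

set_option autoImplicit false

namespace SBr

open Polynomial

variable (K : Type) [Field K] [Fintype K]

omit [Fintype K] in
theorem C1_ne {n : ℕ} (hG : Good K n) {m : ℕ} (h1 : 1 ≤ m) (h2 : m ≤ n + 1) : (m : K) ≠ 0 :=
  hG m h1 h2

omit [Fintype K] in
theorem C1_deriv_qd (b c : K) : derivative (qd b c) = 2 * (X - C b) := by
  simp only [qd, derivative_sub, derivative_pow, derivative_X, derivative_C, Nat.cast_ofNat,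
    map_ofNat, Nat.add_one_sub_one, pow_one, sub_zero, mul_one]

/-- `RQ K 3 2` is the set of the pairs `(qd b c, 1)` with `c ≠ 0`:
`(E ^ 2)' = 4 (X - b) ((X - b) ^ 2 - c)`. -/
theorem RQ32_iff (hG : Good K 3) (b c : K) : (qd b c, (1 : K[X])) ∈ RQ K 3 2 ↔ c ≠ 0 := by
  have h2 : (2 : K) ≠ 0 := by exact_mod_cast C1_ne K hG (m := 2) (by norm_num) (by norm_num)
  have h4 : (4 : K) ≠ 0 := by exact_mod_cast C1_ne K hG (m := 4) (by norm_num) (by norm_num)
  have hder : derivative (qd b c ^ 2 * 1) = C 4 * ((X - C b) * qd b c) := by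
    rw [mul_one, derivative_pow, C1_deriv_qd, map_ofNat]
    simp only [Nat.cast_ofNat, map_ofNat, Nat.add_one_sub_one, pow_one]
    ring
  have hsq : Squarefree (derivative (qd b c ^ 2 * 1)) ↔ c ≠ 0 := by
    rw [hder, sqfree_C_mul h4]
    constructor
    · intro h
      exact (sqfree_qd h2 b c).1 (h.squarefree_of_dvd (dvd_mul_left _ _))
    · intro hc
      rw [squarefree_mul_iff]
      refine ⟨IsCoprime.isRelPrime ⟨C c⁻¹ * (X - C b), -C c⁻¹, ?_⟩,
        (irreducible_X_sub_C b).squarefree, (sqfree_qd h2 b c).2 hc⟩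
      have : (C c⁻¹ * C c : K[X]) = 1 := by
        rw [← C_mul, inv_mul_cancel₀ hc, C_1]
      rw [qd]
      linear_combination this
  simp only [RQ, Set.mem_ofPred_eq]
  constructor
  · intro h
    exact hsq.1 h.2.2.2.2.2
  · intro hc
    exact ⟨qd_monic _ _, qd_natDegree _ _, monic_one, by rw [natDegree_one], squarefree_one,
      hsq.2 hc⟩

theorem RQ32_card (hG : Good K 3) :
    ((RQ K 3 2).ncard : ℤ) = (Fintype.card K : ℤ) * (Fintype.card K - 1) := by
  have h2 : (2 : K) ≠ 0 := by exact_mod_cast C1_ne K hG (m := 2) (by norm_num) (by norm_num)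
  have himg : RQ K 3 2 = (fun p : K × K => (qd p.1 p.2, (1 : K[X]))) '' (Set.univ ×ˢ {0}ᶜ) := by
    ext x
    constructor
    · intro hx
      obtain ⟨E, Q⟩ := x
      obtain ⟨b, c, rfl⟩ := exists_qd h2 hx.1 hx.2.1
      have hQ : Q = 1 := by
        have h1 : 2 * 2 + Q.natDegree = 3 + 1 := hx.2.2.2.1
        have h0 : Q.natDegree = 0 := by omega
        exact hx.2.2.1.natDegree_eq_zero.1 h0
      subst hQ
      refine ⟨(b, c), ⟨Set.mem_univ _, ?_⟩, rfl⟩
      exact (RQ32_iff K hG b c).1 hx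
    · rintro ⟨⟨b, c⟩, ⟨-, hc⟩, rfl⟩
      exact (RQ32_iff K hG b c).2 hc
  have hinj : Function.Injective (fun p : K × K => (qd p.1 p.2, (1 : K[X]))) := by
    intro p p' h
    have h' := qd_inj h2 (congrArg Prod.fst h)
    exact Prod.ext h'.1 h'.2
  rw [himg, Set.ncard_image_of_injective _ hinj, Set.ncard_prod, Set.ncard_univ,
    Nat.card_eq_fintype_card]
  have hc := Set.ncard_add_ncard_compl ({0} : Set K)
  rw [Set.ncard_singleton, Nat.card_eq_fintype_card] at hc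
  have hc' : ((({0} : Set K)ᶜ.ncard : ℕ) : ℤ) = Fintype.card K - 1 := by
    rw [← hc]
    push_cast
    ring
  push_cast
  rw [hc']

/-- `E = (X - b) ^ 2 - c`, `Q = X - b - r`: `(E ^ 2 Q)' = E (5 t ^ 2 - 4 r t - c)`, `t = X - b`.
Squarefree iff `c ≠ 0`, `4 r ^ 2 + 5 c ≠ 0` (discriminant) and no common root: a common root `t`
satisfies `t ^ 2 = c`, `r t = c`, so `r ^ 2 = c` (and conversely `t = r`). -/
theorem RQ42_iff (hG : Good K 4) (b c r : K) : (qd b c, X - C (b + r)) ∈ RQ K 4 2 ↔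
    c ≠ 0 ∧ 4 * r ^ 2 + 5 * c ≠ 0 ∧ r ^ 2 ≠ c := by
  have h2 : (2 : K) ≠ 0 := by exact_mod_cast C1_ne K hG (m := 2) (by norm_num) (by norm_num)
  have h4 : (4 : K) ≠ 0 := by exact_mod_cast C1_ne K hG (m := 4) (by norm_num) (by norm_num)
  have h5 : (5 : K) ≠ 0 := by exact_mod_cast C1_ne K hG (m := 5) (by norm_num) (by norm_num)
  have hC4 : (C (4 : K) : K[X]) = 4 := map_ofNat C 4
  have hC5 : (C (5 : K) : K[X]) = 5 := map_ofNat C 5
  set T : K[X] := (C 5 * X ^ 2 + C (-(4 * r)) * X + C (-c)).comp (X - C b) with hT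
  have hT' : T = 5 * (X - C b) ^ 2 - 4 * C r * (X - C b) - C c := by
    rw [hT]
    simp only [add_comp, mul_comp, C_comp, pow_comp, X_comp]
    rw [C_neg, C_neg, C_mul, hC4, hC5]
    ring
  have hder : derivative (qd b c ^ 2 * (X - C (b + r))) = qd b c * T := by
    rw [hT', derivative_mul, derivative_pow, C1_deriv_qd, derivative_X_sub_C, C_add]
    simp only [Nat.cast_ofNat, map_ofNat, Nat.add_one_sub_one, pow_one]
    rw [qd]
    ring
  have hTs : Squarefree T ↔ 4 * r ^ 2 + 5 * c ≠ 0 := by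
    rw [hT, sqfree_comp, sqfree_quad h2 h5]
    have : (-(4 * r)) ^ 2 - 4 * 5 * (-c) = 4 * (4 * r ^ 2 + 5 * c) := by ring
    rw [this]
    constructor
    · intro h h0
      exact h (by rw [h0, mul_zero])
    · intro h
      exact mul_ne_zero h4 h
  have hsq : Squarefree (derivative (qd b c ^ 2 * (X - C (b + r)))) ↔
      c ≠ 0 ∧ 4 * r ^ 2 + 5 * c ≠ 0 ∧ r ^ 2 ≠ c := by
    rw [hder]
    constructor
    · intro h
      refine ⟨(sqfree_qd h2 b c).1 (h.squarefree_of_dvd (dvd_mul_right _ _)),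
        hTs.1 (h.squarefree_of_dvd (dvd_mul_left _ _)), ?_⟩
      intro hrc
      apply not_isUnit_X_sub_C (b + r)
      apply h
      apply mul_dvd_mul
      · refine ⟨X - C b + C r, ?_⟩
        rw [qd, ← hrc, C_add, C_pow]
        ring
      · refine ⟨5 * (X - C b) + C r, ?_⟩
        rw [hT', ← hrc, C_add, C_pow]
        ring
    · rintro ⟨hc, hd, hrc⟩
      rw [squarefree_mul_iff]
      refine ⟨IsCoprime.isRelPrime ?_, (sqfree_qd h2 b c).2 hc, hTs.2 hd⟩
      -- `r ^ 2 E + (r t + c) (T - 5 E) / 4 = c (c - r ^ 2)`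
      set e : K := c * (c - r ^ 2) with he
      have he0 : e ≠ 0 := mul_ne_zero hc (sub_ne_zero.2 (Ne.symm hrc))
      refine ⟨C e⁻¹ * (C r ^ 2 - C (4⁻¹) * 5 * (C r * (X - C b) + C c)),
        C e⁻¹ * (C (4⁻¹) * (C r * (X - C b) + C c)), ?_⟩
      have k1 : (C e⁻¹ * C e : K[X]) = 1 := by rw [← C_mul, inv_mul_cancel₀ he0, C_1]
      have k2 : (C (4⁻¹ : K) * 4 : K[X]) = 1 := by
        rw [← hC4, ← C_mul, inv_mul_cancel₀ h4, C_1]
      have k3 : (C e : K[X]) = C c * (C c - C r ^ 2) := by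
        rw [he, C_mul, C_sub, C_pow]
      rw [hT', qd]
      rw [k3] at k1
      linear_combination k1 + C e⁻¹ * (C r * (X - C b) + C c) * (C c - C r * (X - C b)) * k2
  simp only [RQ, Set.mem_ofPred_eq]
  constructor
  · intro h
    exact hsq.1 h.2.2.2.2.2
  · intro hc
    exact ⟨qd_monic _ _, qd_natDegree _ _, monic_X_sub_C _, by rw [natDegree_X_sub_C],
      (irreducible_X_sub_C _).squarefree, hsq.2 hc⟩

/-- For `r = 0` there are `q - 1` values of `c`, for `r ≠ 0` there are `q - 3`. -/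
theorem C1_count (hG : Good K 4) :
    (({p : K × K | p.2 ≠ 0 ∧ 4 * p.1 ^ 2 + 5 * p.2 ≠ 0 ∧ p.1 ^ 2 ≠ p.2}.ncard : ℕ) : ℤ) =
    (Fintype.card K - 1) * (Fintype.card K - 2) := by
  have h3 : (3 : K) ≠ 0 := by exact_mod_cast C1_ne K hG (m := 3) (by norm_num) (by norm_num)
  have h4 : (4 : K) ≠ 0 := by exact_mod_cast C1_ne K hG (m := 4) (by norm_num) (by norm_num)
  have h5 : (5 : K) ≠ 0 := by exact_mod_cast C1_ne K hG (m := 5) (by norm_num) (by norm_num)
  have hB : {p : K × K | p.2 ≠ 0 ∧ 4 * p.1 ^ 2 + 5 * p.2 ≠ 0 ∧ p.1 ^ 2 ≠ p.2} =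
      (({0} : Set K) ×ˢ ({0} : Set K)ᶜ) ∪
      (fun p : K × K => (p.1, p.1 ^ 2 * p.2)) '' (({0} : Set K)ᶜ ×ˢ ({0, 1, -4 / 5} : Set K)ᶜ) := by
    ext ⟨r, c⟩
    constructor
    · rintro ⟨h0, h1, h2⟩
      by_cases hr : r = 0
      · left
        exact ⟨hr, h0⟩
      · right
        have hr2 : r ^ 2 ≠ 0 := pow_ne_zero 2 hr
        refine ⟨(r, c / r ^ 2), ⟨hr, ?_⟩, ?_⟩
        · simp only [Set.mem_compl_iff, Set.mem_insert_iff, Set.mem_singleton_iff, not_or]
          refine ⟨div_ne_zero h0 hr2, ?_, ?_⟩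
          · intro h
            rw [div_eq_one_iff_eq hr2] at h
            exact h2 h.symm
          · intro h
            rw [div_eq_div_iff hr2 h5] at h
            apply h1
            dsimp only
            linear_combination h
        · simp only [Prod.mk.injEq, true_and]
          field_simp
    · rintro (⟨h0, h1⟩ | ⟨⟨r', s⟩, ⟨h0, h1⟩, h2⟩)
      · simp only [Set.mem_singleton_iff] at h0
        simp only [Set.mem_compl_iff, Set.mem_singleton_iff] at h1
        subst h0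
        refine ⟨h1, ?_, ?_⟩
        · simpa using ⟨h5, h1⟩
        · simpa using Ne.symm h1
      · simp only [Prod.mk.injEq] at h2
        obtain ⟨rfl, rfl⟩ := h2
        simp only [Set.mem_compl_iff, Set.mem_insert_iff, Set.mem_singleton_iff, not_or] at h0 h1
        have hr2 : r' ^ 2 ≠ 0 := pow_ne_zero 2 h0
        refine ⟨mul_ne_zero hr2 h1.1, ?_, ?_⟩
        · intro h
          apply h1.2.2
          rw [eq_div_iff h5]
          apply mul_left_cancel₀ hr2
          dsimp only at h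
          linear_combination h
        · intro h
          apply h1.2.1
          apply mul_left_cancel₀ hr2
          dsimp only at h
          linear_combination -h
  have hdisj : Disjoint (({0} : Set K) ×ˢ ({0} : Set K)ᶜ)
      ((fun p : K × K => (p.1, p.1 ^ 2 * p.2)) ''
        (({0} : Set K)ᶜ ×ˢ ({0, 1, -4 / 5} : Set K)ᶜ)) := by
    rw [Set.disjoint_left]
    rintro ⟨r, c⟩ ⟨h0, -⟩ ⟨⟨r', s⟩, ⟨h1, -⟩, h2⟩
    simp only [Prod.mk.injEq] at h2
    obtain ⟨rfl, -⟩ := h2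
    exact h1 h0
  have hinj : Set.InjOn (fun p : K × K => (p.1, p.1 ^ 2 * p.2))
      (({0} : Set K)ᶜ ×ˢ ({0, 1, -4 / 5} : Set K)ᶜ) := by
    rintro ⟨r, c⟩ ⟨h0, -⟩ ⟨r', c'⟩ ⟨-, -⟩ h2
    simp only [Prod.mk.injEq] at h2
    obtain ⟨rfl, h3⟩ := h2
    have hr2 : r ^ 2 ≠ 0 := pow_ne_zero 2 h0
    rw [mul_left_cancel₀ hr2 h3]
  have hc1 := Set.ncard_add_ncard_compl ({0} : Set K)
  rw [Set.ncard_singleton, Nat.card_eq_fintype_card] at hc1
  have hc3 := Set.ncard_add_ncard_compl ({0, 1, -4 / 5} : Set K)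
  have h45 : (1 : K) ≠ -4 / 5 := by
    intro h
    rw [eq_div_iff h5] at h
    have : (3 : K) * 3 = 0 := by linear_combination h
    exact mul_ne_zero h3 h3 this
  have h45' : (0 : K) ≠ -4 / 5 := by
    intro h
    rw [eq_div_iff h5] at h
    apply h4
    linear_combination h
  rw [Set.ncard_insert_of_notMem (by
      simp only [Set.mem_insert_iff, Set.mem_singleton_iff, not_or]
      exact ⟨zero_ne_one, h45'⟩), Set.ncard_pair h45, Nat.card_eq_fintype_card] at hc3
  rw [hB, Set.ncard_union_eq hdisj, Set.ncard_prod, Set.ncard_singleton, hinj.ncard_image,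
    Set.ncard_prod]
  have hc1' : ((({0} : Set K)ᶜ.ncard : ℕ) : ℤ) = Fintype.card K - 1 := by
    rw [← hc1]
    push_cast
    ring
  have hc3' : ((({0, 1, -4 / 5} : Set K)ᶜ.ncard : ℕ) : ℤ) = Fintype.card K - 3 := by
    rw [← hc3]
    push_cast
    ring
  push_cast
  rw [hc1', hc3']
  ring

/-- For `r = 0` there are `q - 1` values of `c`, for `r ≠ 0` there are `q - 3`. -/
theorem RQ42_card (hG : Good K 4) : ((RQ K 4 2).ncard : ℤ) =
    (Fintype.card K : ℤ) * (Fintype.card K - 1) * (Fintype.card K - 2) := by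
  have h2 : (2 : K) ≠ 0 := by exact_mod_cast C1_ne K hG (m := 2) (by norm_num) (by norm_num)
  have himg : RQ K 4 2 = (fun p : K × (K × K) => (qd p.1 p.2.2, X - C (p.1 + p.2.1))) ''
      (Set.univ ×ˢ {p : K × K | p.2 ≠ 0 ∧ 4 * p.1 ^ 2 + 5 * p.2 ≠ 0 ∧ p.1 ^ 2 ≠ p.2}) := by
    ext x
    constructor
    · intro hx
      obtain ⟨E, Q⟩ := x
      obtain ⟨b, c, rfl⟩ := exists_qd h2 hx.1 hx.2.1
      have hQ : ∃ r, Q = X - C (b + r) := by
        have h1 : 2 * 2 + Q.natDegree = 4 + 1 := hx.2.2.2.1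
        have h0 : Q.natDegree = 1 := by omega
        have h3 := Monic.eq_X_add_C hx.2.2.1 h0
        refine ⟨-Q.coeff 0 - b, ?_⟩
        rw [add_sub_cancel, C_neg, sub_neg_eq_add]
        exact h3
      obtain ⟨r, rfl⟩ := hQ
      exact ⟨(b, (r, c)), ⟨Set.mem_univ _, (RQ42_iff K hG b c r).1 hx⟩, rfl⟩
    · rintro ⟨⟨b, r, c⟩, ⟨-, hc⟩, rfl⟩
      exact (RQ42_iff K hG b c r).2 hc
  have hinj : Function.Injective
      (fun p : K × (K × K) => (qd p.1 p.2.2, (X - C (p.1 + p.2.1) : K[X]))) := by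
    rintro ⟨b, r, c⟩ ⟨b', r', c'⟩ h
    have h' := qd_inj h2 (congrArg Prod.fst h)
    have h'' := congrArg Prod.snd h
    simp only [sub_right_inj, C_inj] at h''
    obtain ⟨h1, h3⟩ := h'
    dsimp only at h1 h3
    subst h1 h3
    rw [add_left_cancel h'']
  rw [himg, Set.ncard_image_of_injective _ hinj, Set.ncard_prod, Set.ncard_univ,
    Nat.card_eq_fintype_card]
  push_cast
  rw [C1_count K hG]
  ring

end SBr
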