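import Pool.Agent.H.MP_cc3311_ag.C0

/-!
# MP_cc3311_ag, C2: the set `RQ K 5 3`
-/

set_option autoImplicit false

namespace SBr

open Polynomial

variable (K : Type) [Field K] [Fintype K]

omit [Fintype K] in
theorem C2_ne {n : ℕ} (hG : Good K n) {m : ℕ} (h1 : 1 ≤ m) (h2 : m ≤ n + 1) : (m : K) ≠ 0 :=
  hG m h1 h2

omit [Fintype K] in
theorem C2_monic (b c d : K) : ((X - C b) ^ 3 + C c * (X - C b) + C d : K[X]).Monic ∧
    ((X - C b) ^ 3 + C c * (X - C b) + C d : K[X]).natDegree = 3 := by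
  have e : ((X - C b) ^ 3 + C c * (X - C b) + C d : K[X])
      = X ^ 3 + C (-(3 * b)) * X ^ 2 + C (3 * b ^ 2 + c) * X + C (-b ^ 3 - c * b + d) := by
    simp only [map_mul, map_neg, map_sub, map_add, map_pow, map_ofNat]
    ring
  rw [e]
  constructor
  · monicity!
  · compute_degree!

/-- `E = t ^ 3 + c t + d`, `t = X - b`: `(E ^ 2)' = 2 E (3 t ^ 2 + c)`. Squarefree iff `c ≠ 0` and `E`
squarefree, i.e. (`sqfree_cubic`) `4 c ^ 3 + 27 d ^ 2 ≠ 0`; then `E`, `E'` are coprime. -/
theorem RQ53_iff (hG : Good K 5) (b c d : K) :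
    ((X - C b) ^ 3 + C c * (X - C b) + C d, (1 : K[X])) ∈ RQ K 5 3 ↔
      c ≠ 0 ∧ 4 * c ^ 3 + 27 * d ^ 2 ≠ 0 := by
  have h2 : (2 : K) ≠ 0 := by exact_mod_cast C2_ne K hG (m := 2) (by norm_num) (by norm_num)
  have h3 : (3 : K) ≠ 0 := by exact_mod_cast C2_ne K hG (m := 3) (by norm_num) (by norm_num)
  have hC2 : (C (2 : K) : K[X]) = 2 := map_ofNat C 2
  have hC3 : (C (3 : K) : K[X]) = 3 := map_ofNat C 3
  set E : K[X] := (X - C b) ^ 3 + C c * (X - C b) + C d with hE
  set T : K[X] := (C 3 * X ^ 2 + C 0 * X + C c).comp (X - C b) with hT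
  have hT' : T = 3 * (X - C b) ^ 2 + C c := by
    rw [hT]
    simp only [add_comp, mul_comp, C_comp, pow_comp, X_comp]
    rw [hC3, C_0]
    ring
  have hder1 : derivative E = T := by
    rw [hT', hE]
    simp only [derivative_add, derivative_mul, derivative_pow, derivative_sub, derivative_X,
      derivative_C, Nat.cast_ofNat, map_ofNat, Nat.add_one_sub_one]
    ring
  have hder : derivative (E ^ 2 * 1) = C 2 * (E * T) := by
    rw [mul_one, derivative_pow, hder1]
    simp only [Nat.cast_ofNat, map_ofNat, Nat.add_one_sub_one, pow_one]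
    ring
  have hTs : Squarefree T ↔ c ≠ 0 := by
    rw [hT, sqfree_comp, sqfree_quad h2 h3]
    have e : (0 : K) ^ 2 - 4 * 3 * c = -(2 * 2 * 3) * c := by ring
    rw [e]
    have h0 : -(2 * 2 * 3 : K) ≠ 0 := neg_ne_zero.2 (mul_ne_zero (mul_ne_zero h2 h2) h3)
    constructor
    · intro h h1
      exact h (by rw [h1, mul_zero])
    · intro h
      exact mul_ne_zero h0 h
  have hsq : Squarefree (derivative (E ^ 2 * 1)) ↔ c ≠ 0 ∧ 4 * c ^ 3 + 27 * d ^ 2 ≠ 0 := by
    rw [hder, sqfree_C_mul h2]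
    constructor
    · intro h
      have hc : c ≠ 0 := hTs.1 (h.squarefree_of_dvd (dvd_mul_left _ _))
      refine ⟨hc, fun h0 => ?_⟩
      -- the common root
      obtain ⟨t, ht⟩ : ∃ t : K, t = -(3 * d) / (2 * c) := ⟨_, rfl⟩
      have h2c : 2 * c ≠ 0 := mul_ne_zero h2 hc
      have ht' : 2 * c * t + 3 * d = 0 := by
        rw [ht]
        field_simp
        ring
      have k1 : 3 * t ^ 2 + c = 0 := by
        have e : 4 * c ^ 2 * (3 * t ^ 2 + c) = 0 := by
          linear_combination (6 * c * t - 9 * d) * ht' + h0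
        rcases mul_eq_zero.1 e with h5 | h5
        · exact absurd h5 (mul_ne_zero (by
            have : (4 : K) = 2 * 2 := by norm_num
            rw [this]
            exact mul_ne_zero h2 h2) (pow_ne_zero 2 hc))
        · exact h5
      have k2 : t ^ 3 + c * t + d = 0 := by
        have e : 3 * (t ^ 3 + c * t + d) = 0 := by
          linear_combination t * k1 + ht'
        rcases mul_eq_zero.1 e with h5 | h5
        · exact absurd h5 h3
        · exact h5
      apply not_isUnit_X_sub_C (b + t)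
      apply h
      apply mul_dvd_mul
      · rw [dvd_iff_isRoot, IsRoot, hE]
        simp only [eval_add, eval_mul, eval_sub, eval_pow, eval_X, eval_C]
        linear_combination k2
      · rw [dvd_iff_isRoot, IsRoot, hT']
        simp only [eval_add, eval_mul, eval_sub, eval_pow, eval_X, eval_C, eval_ofNat]
        linear_combination k1
    · rintro ⟨hc, hd⟩
      have hcop : IsCoprime E T := by
        set e : K := 4 * c ^ 3 + 27 * d ^ 2 with he
        have k1 : (C e⁻¹ * C e : K[X]) = 1 := by rw [← C_mul, inv_mul_cancel₀ hd, C_1]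
        have k2 : (C e : K[X]) = 4 * C c ^ 3 + 27 * C d ^ 2 := by
          rw [he]
          simp only [map_mul, map_add, map_pow, map_ofNat]
        refine ⟨-(C e⁻¹ * (3 * (6 * C c * (X - C b) - 9 * C d))),
          C e⁻¹ * (4 * C c ^ 2 + (6 * C c * (X - C b) - 9 * C d) * (X - C b)), ?_⟩
        rw [hT', hE]
        rw [k2] at k1
        linear_combination k1
      rw [squarefree_mul_iff]
      refine ⟨hcop.isRelPrime, ?_, hTs.2 hc⟩
      apply Separable.squarefree
      unfold Separable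
      rw [hder1]
      exact hcop
  simp only [RQ, Set.mem_ofPred_eq]
  constructor
  · intro h
    exact hsq.1 h.2.2.2.2.2
  · intro hc
    exact ⟨(C2_monic K b c d).1, (C2_monic K b c d).2, monic_one, by rw [natDegree_one],
      squarefree_one, hsq.2 hc⟩

/-- The pairs `(c, d)` with `c ≠ 0`, `4 c ^ 3 + 27 d ^ 2 = 0` are the `(-3 a ^ 2, 2 a ^ 3)`, `a ≠ 0`
(`a = -3 d / (2 c)`). -/
theorem cusp_card (hG : Good K 5) :
    {x : K × K | x.1 ≠ 0 ∧ 4 * x.1 ^ 3 + 27 * x.2 ^ 2 = 0}.ncard = Fintype.card K - 1 := by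
  have h2 : (2 : K) ≠ 0 := by exact_mod_cast C2_ne K hG (m := 2) (by norm_num) (by norm_num)
  have h3 : (3 : K) ≠ 0 := by exact_mod_cast C2_ne K hG (m := 3) (by norm_num) (by norm_num)
  have himg : {x : K × K | x.1 ≠ 0 ∧ 4 * x.1 ^ 3 + 27 * x.2 ^ 2 = 0} =
      (fun a : K => (-(3 * a ^ 2), 2 * a ^ 3)) '' ({0}ᶜ : Set K) := by
    ext x
    obtain ⟨c, d⟩ := x
    simp only [Set.mem_ofPred_eq, Set.mem_image, Set.mem_compl_iff, Set.mem_singleton_iff,
      Prod.mk.injEq]
    constructor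
    · rintro ⟨hc, h0⟩
      have h2c : 2 * c ≠ 0 := mul_ne_zero h2 hc
      obtain ⟨a, ha⟩ : ∃ a : K, a = -(3 * d) / (2 * c) := ⟨_, rfl⟩
      have ha' : 2 * c * a + 3 * d = 0 := by
        rw [ha]
        field_simp
        ring
      have k1 : 3 * a ^ 2 + c = 0 := by
        have e : 4 * c ^ 2 * (3 * a ^ 2 + c) = 0 := by
          linear_combination (6 * c * a - 9 * d) * ha' + h0
        rcases mul_eq_zero.1 e with h5 | h5
        · exact absurd h5 (mul_ne_zero (by
            have : (4 : K) = 2 * 2 := by norm_num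
            rw [this]
            exact mul_ne_zero h2 h2) (pow_ne_zero 2 hc))
        · exact h5
      refine ⟨a, ?_, by linear_combination -k1, ?_⟩
      · intro h
        apply hc
        rw [h] at k1
        linear_combination k1
      · have e : 3 * (2 * a ^ 3 - d) = 0 := by
          linear_combination 2 * a * k1 - ha'
        rcases mul_eq_zero.1 e with h5 | h5
        · exact absurd h5 h3
        · exact sub_eq_zero.1 h5
    · rintro ⟨a, ha, rfl, rfl⟩
      exact ⟨neg_ne_zero.2 (mul_ne_zero h3 (pow_ne_zero 2 ha)), by ring⟩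
  have hinj : Set.InjOn (fun a : K => (-(3 * a ^ 2), 2 * a ^ 3)) ({0}ᶜ : Set K) := by
    intro a ha a' ha' h
    simp only [Prod.mk.injEq] at h
    obtain ⟨e1, e2⟩ := h
    have k1 : a ^ 2 = a' ^ 2 := by
      have : 3 * (a ^ 2 - a' ^ 2) = 0 := by linear_combination -e1
      rcases mul_eq_zero.1 this with h5 | h5
      · exact absurd h5 h3
      · exact sub_eq_zero.1 h5
    have k2 : a ^ 3 = a' ^ 3 := by
      have : 2 * (a ^ 3 - a' ^ 3) = 0 := by linear_combination e2
      rcases mul_eq_zero.1 this with h5 | h5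
      · exact absurd h5 h2
      · exact sub_eq_zero.1 h5
    have k3 : a ^ 2 * (a - a') = 0 := by
      linear_combination k2 - a' * k1
    rcases mul_eq_zero.1 k3 with h5 | h5
    · exact absurd h5 (pow_ne_zero 2 ha)
    · exact sub_eq_zero.1 h5
  rw [himg, Set.ncard_image_of_injOn hinj]
  have hc := Set.ncard_add_ncard_compl ({0} : Set K)
  rw [Set.ncard_singleton, Nat.card_eq_fintype_card] at hc
  omega

theorem RQ53_card (hG : Good K 5) : ((RQ K 5 3).ncard : ℤ) =
    (Fintype.card K : ℤ) * (Fintype.card K - 1) ^ 2 := by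
  have h3 : (3 : K) ≠ 0 := by exact_mod_cast C2_ne K hG (m := 3) (by norm_num) (by norm_num)
  set S : Set (K × K) := {x | x.1 ≠ 0 ∧ 4 * x.1 ^ 3 + 27 * x.2 ^ 2 ≠ 0} with hS
  have himg : RQ K 5 3 = (fun p : K × (K × K) =>
      ((X - C p.1) ^ 3 + C p.2.1 * (X - C p.1) + C p.2.2, (1 : K[X]))) '' (Set.univ ×ˢ S) := by
    ext x
    constructor
    · intro hx
      obtain ⟨E, Q⟩ := x
      obtain ⟨b, c, d, rfl⟩ := exists_shift3 h3 hx.1 hx.2.1
      have hQ : Q = 1 := by
        have h1 : 2 * 3 + Q.natDegree = 5 + 1 := hx.2.2.2.1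
        have h0 : Q.natDegree = 0 := by omega
        exact hx.2.2.1.natDegree_eq_zero.1 h0
      subst hQ
      exact ⟨(b, (c, d)), ⟨Set.mem_univ _, (RQ53_iff K hG b c d).1 hx⟩, rfl⟩
    · rintro ⟨⟨b, c, d⟩, ⟨-, hc⟩, rfl⟩
      exact (RQ53_iff K hG b c d).2 hc
  have hinj : Function.Injective (fun p : K × (K × K) =>
      ((X - C p.1) ^ 3 + C p.2.1 * (X - C p.1) + C p.2.2, (1 : K[X]))) := by
    intro p p' h
    obtain ⟨e1, e2, e3⟩ := shift3_inj h3 (congrArg Prod.fst h)
    exact Prod.ext e1 (Prod.ext e2 e3)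
  rw [himg, Set.ncard_image_of_injective _ hinj, Set.ncard_prod, Set.ncard_univ,
    Nat.card_eq_fintype_card]
  have hcus := cusp_card K hG
  have hall : ({x : K × K | x.1 ≠ 0} : Set (K × K)).ncard =
      (Fintype.card K - 1) * Fintype.card K := by
    have e : ({x : K × K | x.1 ≠ 0} : Set (K × K)) = ({0}ᶜ : Set K) ×ˢ Set.univ := by
      ext x
      simp
    rw [e, Set.ncard_prod, Set.ncard_univ, Nat.card_eq_fintype_card]
    have hc := Set.ncard_add_ncard_compl ({0} : Set K)
    rw [Set.ncard_singleton, Nat.card_eq_fintype_card] at hc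
    congr 1
    omega
  have hun : S ∪ {x : K × K | x.1 ≠ 0 ∧ 4 * x.1 ^ 3 + 27 * x.2 ^ 2 = 0} =
      {x : K × K | x.1 ≠ 0} := by
    ext x
    simp only [hS, Set.mem_union, Set.mem_ofPred_eq]
    tauto
  have hdis : Disjoint S {x : K × K | x.1 ≠ 0 ∧ 4 * x.1 ^ 3 + 27 * x.2 ^ 2 = 0} := by
    rw [Set.disjoint_left]
    intro x hx hx'
    exact hx.2 hx'.2
  have hsum := Set.ncard_union_eq hdis (Set.toFinite _) (Set.toFinite _)
  rw [hun, hall, hcus] at hsum
  have hpos : 1 ≤ Fintype.card K := Fintype.card_pos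
  zify [hpos] at hsum
  push_cast
  have e : (S.ncard : ℤ) = ((Fintype.card K : ℤ) - 1) * Fintype.card K -
      ((Fintype.card K : ℤ) - 1) := by linarith
  rw [e]
  ring

end SBr
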