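import Pool.Agent.H.MP_cc3311_ag.C0

/-!
# MP_cc3311_ag, C3: the set `RQ K 5 2`
-/

set_option autoImplicit false

namespace SBr

open Polynomial

/-- The cubic factor of `(E ^ 2 Q)'` for `E = X ^ 2 - c`, `Q = X ^ 2 + u X + w`. -/
noncomputable def T6 {K : Type} [Field K] (c u w : K) : K[X] :=
  C 6 * X ^ 3 + C (5 * u) * X ^ 2 + C (4 * w - 2 * c) * X - C (c * u)

/-- The parameters. -/
def GS (K : Type) [Field K] : Set (K × K × K) :=
  {x | x.1 ≠ 0 ∧ x.2.1 ^ 2 ≠ 4 * x.2.2 ∧ (x.1 + x.2.2) ^ 2 ≠ x.1 * x.2.1 ^ 2 ∧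
    Squarefree (T6 x.1 x.2.1 x.2.2)}

/-- The derivative of `(X ^ 2 - c) ^ 2 (X ^ 2 + u X + w)`. -/
theorem C3_deriv {K : Type} [Field K] (c u w : K) :
    derivative ((X ^ 2 - C c) ^ 2 * (X ^ 2 + C u * X + C w) : K[X]) =
      (X ^ 2 - C c) * T6 c u w := by
  unfold T6
  simp only [derivative_mul, derivative_pow, derivative_add, derivative_X,
    derivative_C, map_mul, map_sub, Nat.cast_ofNat, map_ofNat]
  ring

/-- The resultant identity. -/
theorem C3_res {K : Type} [Field K] (c u w : K) :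
    (C (u ^ 2) + C u * X - C (c + w)) * (X ^ 2 - C c) +
      (C (c + w) - C u * X) * (X ^ 2 + C u * X + C w) =
      (C ((c + w) ^ 2 - c * u ^ 2) : K[X]) := by
  simp only [map_mul, map_sub, map_add, map_pow]
  ring

theorem C3_coprime {K : Type} [Field K] (c u w : K) :
    IsCoprime (X ^ 2 - C c : K[X]) (X ^ 2 + C u * X + C w) ↔ (c + w) ^ 2 ≠ c * u ^ 2 := by
  constructor
  · intro h hR
    by_cases hu : u = 0
    · subst hu
      have hw : w = -c := by
        have : (c + w) ^ 2 = 0 := by rw [hR]; ring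
        have := pow_eq_zero_iff (two_ne_zero) |>.1 this
        linear_combination this
      subst hw
      have he : (X ^ 2 + C 0 * X + C (-c) : K[X]) = X ^ 2 - C c := by
        simp [sub_eq_add_neg]
      rw [he, isCoprime_self] at h
      have h1 := natDegree_eq_zero_of_isUnit h
      have h2 : (X ^ 2 - C c : K[X]).natDegree = 2 := natDegree_X_pow_sub_C
      omega
    · obtain ⟨p, q, hpq⟩ := h
      have h1 := congrArg (Polynomial.eval (-(c + w) / u)) hpq
      simp only [eval_add, eval_mul, eval_sub, eval_pow, eval_X, eval_C, eval_one] at h1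
      have e1 : (-(c + w) / u) ^ 2 - c = 0 := by
        field_simp
        linear_combination hR
      have e2 : (-(c + w) / u) ^ 2 + u * (-(c + w) / u) + w = 0 := by
        have : u * (-(c + w) / u) = -(c + w) := by field_simp
        rw [this]
        linear_combination e1
      rw [e1, e2] at h1
      simp at h1
  · intro hR
    have hR' : (c + w) ^ 2 - c * u ^ 2 ≠ 0 := sub_ne_zero.2 hR
    refine ⟨C (((c + w) ^ 2 - c * u ^ 2)⁻¹) * (C (u ^ 2) + C u * X - C (c + w)),
      C (((c + w) ^ 2 - c * u ^ 2)⁻¹) * (C (c + w) - C u * X), ?_⟩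
    have h := C3_res c u w
    calc _ = C (((c + w) ^ 2 - c * u ^ 2)⁻¹) *
        ((C (u ^ 2) + C u * X - C (c + w)) * (X ^ 2 - C c) +
          (C (c + w) - C u * X) * (X ^ 2 + C u * X + C w)) := by ring
      _ = 1 := by rw [h, ← C_mul, inv_mul_cancel₀ hR', C_1]

theorem C3_coprime' {K : Type} [Field K] (h2 : (2 : K) ≠ 0) {c : K} (hc : c ≠ 0) (u w : K) :
    IsCoprime (X ^ 2 - C c : K[X]) (T6 c u w) ↔ (c + w) ^ 2 ≠ c * u ^ 2 := by
  rw [← C3_coprime]
  have hT : T6 c u w = C (4 : K) * X * (X ^ 2 + C u * X + C w) +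
      (X ^ 2 - C c) * (C 2 * X + C u) := by
    unfold T6
    simp only [map_mul, map_sub, map_ofNat]
    ring
  rw [hT]
  have h4 : (4 : K) ≠ 0 := by
    have : (4 : K) = 2 * 2 := by norm_num
    rw [this]
    exact mul_ne_zero h2 h2
  have hX : IsCoprime (X ^ 2 - C c : K[X]) X := by
    refine ⟨C (-c⁻¹), C c⁻¹ * X, ?_⟩
    have : (C (-c⁻¹) : K[X]) * (X ^ 2 - C c) + C c⁻¹ * X * X = C (c⁻¹ * c) := by
      simp only [map_neg, map_mul]
      ring
    rw [this, inv_mul_cancel₀ hc, C_1]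
  have h4c : IsCoprime (X ^ 2 - C c : K[X]) (C 4) := by
    refine ⟨0, C (4 : K)⁻¹, ?_⟩
    rw [zero_mul, zero_add, ← C_mul, inv_mul_cancel₀ h4, C_1]
  rw [IsCoprime.add_mul_left_right_iff]
  constructor
  · intro h
    exact IsCoprime.of_mul_right_right h
  · intro h
    exact (h4c.mul_right hX).mul_right h

variable (K : Type) [Field K] [Fintype K]

/-- With `t = X - b`: `(E ^ 2 Q)' = E (2 E' Q + E Q') = (t ^ 2 - c) (T6 c u w)(t)`. Squarefree iff
both factors are and they are coprime; a common root `γ` of `E` and `2 E' Q + E Q'` satisfies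
`2 (2 γ) Q(γ) = 0`, so it is a common root of `E` and `Q`; the resultant of `X ^ 2 - c` and
`X ^ 2 + u X + w` is `(c + w) ^ 2 - c u ^ 2`. (If the resultant vanishes: for `u = 0`, `Q = E`; for
`u ≠ 0` the element `-(c + w) / u` is a common root. Conversely, if `E` and `Q` are not coprime and
have no common root in `K` then `E = Q`; or use the identity
`(c + w) ^ 2 - c u ^ 2 = (X^2 - c) (...) + (X^2 + u X + w) (...)`.) -/
theorem RQ52_iff (hG : Good K 5) (b c u w : K) :
    (qd b c, (X - C b) ^ 2 + C u * (X - C b) + C w) ∈ RQ K 5 2 ↔ (c, u, w) ∈ GS K := by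
  have h2 : (2 : K) ≠ 0 := by exact_mod_cast hG 2 (by norm_num) (by norm_num)
  have hE : qd b c = (X ^ 2 - C c : K[X]).comp (X - C b) := by
    simp [qd]
  have hQ : (X - C b) ^ 2 + C u * (X - C b) + C w =
      (X ^ 2 + C u * X + C w : K[X]).comp (X - C b) := by
    simp
  have hQm : (X ^ 2 + C u * X + C w : K[X]).Monic := by
    have : (X ^ 2 + C u * X + C w : K[X]) = X ^ (1 + 1) + (C u * X + C w) := by ring
    rw [this]
    exact monic_X_pow_add (by
      have := degree_linear_le (a := u) (b := w)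
      exact lt_of_le_of_lt this (by norm_num))
  have hQd : (X ^ 2 + C u * X + C w : K[X]).natDegree = 2 := by
    compute_degree!
  have hder : derivative (((X ^ 2 - C c : K[X]).comp (X - C b)) ^ 2 *
      ((X ^ 2 + C u * X + C w : K[X]).comp (X - C b))) =
      ((X ^ 2 - C c) * T6 c u w).comp (X - C b) := by
    rw [← C3_deriv, ← pow_comp, ← mul_comp, derivative_comp]
    simp
  have hsq1 : Squarefree (X ^ 2 - C c : K[X]) ↔ c ≠ 0 := by
    have := sqfree_qd h2 (0 : K) c
    simpa [qd] using this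
  have hsq2 : Squarefree (X ^ 2 + C u * X + C w : K[X]) ↔ u ^ 2 ≠ 4 * w := by
    have := sqfree_quad h2 (a := (1 : K)) (b := u) (c := w) one_ne_zero
    rw [C_1, one_mul, mul_one, sub_ne_zero] at this
    exact this
  rw [hE, hQ]
  unfold RQ GS
  simp only [Set.mem_ofPred_eq]
  rw [hder, sqfree_comp, sqfree_comp, squarefree_mul_iff, isRelPrime_iff_isCoprime, hsq1, hsq2]
  have hEm : ((X ^ 2 - C c : K[X]).comp (X - C b)).Monic := by rw [← hE]; exact qd_monic b c
  have hEd : ((X ^ 2 - C c : K[X]).comp (X - C b)).natDegree = 2 := by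
    rw [← hE]; exact qd_natDegree b c
  have hQm' : ((X ^ 2 + C u * X + C w : K[X]).comp (X - C b)).Monic := by
    exact hQm.comp_X_sub_C b
  have hQd' : ((X ^ 2 + C u * X + C w : K[X]).comp (X - C b)).natDegree = 2 := by
    rw [natDegree_comp, natDegree_X_sub_C, mul_one, hQd]
  constructor
  · rintro ⟨-, -, -, -, h5, h6, h7, h8⟩
    exact ⟨h7, h5, (C3_coprime' h2 h7 u w).1 h6, h8⟩
  · rintro ⟨h7, h5, h6, h8⟩
    exact ⟨hEm, hEd, hQm', by rw [hQd'], h5, (C3_coprime' h2 h7 u w).2 h6, h7, h8⟩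

/-- Translation in `b`. -/
theorem RQ52_card (hG : Good K 5) : (RQ K 5 2).ncard = Fintype.card K * (GS K).ncard := by
  have h2 : (2 : K) ≠ 0 := by exact_mod_cast hG 2 (by norm_num) (by norm_num)
  set F : K × (K × K × K) → K[X] × K[X] := fun x =>
    (qd x.1 x.2.1, (X - C x.1) ^ 2 + C x.2.2.1 * (X - C x.1) + C x.2.2.2) with hF
  have hinj : Function.Injective F := by
    rintro ⟨b, c, u, w⟩ ⟨b', c', u', w'⟩ h
    simp only [hF, Prod.mk.injEq] at h
    obtain ⟨h1, h3⟩ := h
    obtain ⟨rfl, rfl⟩ := qd_inj h2 h1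
    obtain ⟨rfl, rfl⟩ := shift2_inj h3
    rfl
  have himg : RQ K 5 2 = F '' (Set.univ ×ˢ GS K) := by
    ext ⟨E, Q⟩
    constructor
    · intro h
      have h' := h
      obtain ⟨h1, h3, h4, h5, -, -⟩ := h'
      simp only at h1 h3 h4 h5
      obtain ⟨b, c, rfl⟩ := exists_qd h2 h1 h3
      obtain ⟨u, w, rfl⟩ := exists_shift2 b h4 (by omega)
      exact ⟨(b, c, u, w), ⟨Set.mem_univ _, (RQ52_iff K hG b c u w).1 h⟩, rfl⟩
    · rintro ⟨⟨b, c, u, w⟩, ⟨-, h⟩, h3⟩
      rw [← h3]
      exact (RQ52_iff K hG b c u w).2 h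
  rw [himg, Set.ncard_image_of_injective _ hinj, Set.ncard_prod, Set.ncard_univ,
    Nat.card_eq_fintype_card]

end SBr
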