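import Pool.Agent.H.MP_cc3311_ag.C3

/-!
# MP_cc3311_ag, C4: the triples with a double root
-/

set_option autoImplicit false

namespace SBr

open Polynomial

variable (K : Type) [Field K] [Fintype K]

/-- A double root `r` of `T6 c u w`: `S'(r) = 0` gives `4 w - 2 c = - 18 r ^ 2 - 10 u r` and then
`S(r) = 0` is `u (5 r ^ 2 + c) = - 12 r ^ 3`. -/
theorem T6_double (c u w r : K) : ((T6 c u w).IsRoot r ∧ (derivative (T6 c u w)).IsRoot r) ↔
    4 * w - 2 * c = - 18 * r ^ 2 - 10 * u * r ∧ u * (5 * r ^ 2 + c) = - 12 * r ^ 3 := by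
  have e1 : (T6 c u w).eval r = 6 * r ^ 3 + 5 * u * r ^ 2 + (4 * w - 2 * c) * r - c * u := by
    unfold T6
    simp only [eval_add, eval_sub, eval_mul, eval_pow, eval_C, eval_X]
  have e2 : (derivative (T6 c u w)).eval r = 18 * r ^ 2 + 10 * u * r + (4 * w - 2 * c) := by
    unfold T6
    simp only [derivative_add, derivative_sub, derivative_mul, derivative_C, derivative_X_pow,
      derivative_X, eval_add, eval_sub, eval_mul, eval_pow, eval_C, eval_X, eval_zero, eval_one]
    push_cast
    ring
  rw [IsRoot.def, IsRoot.def, e1, e2]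
  constructor
  · rintro ⟨h1, h2⟩
    constructor
    · linear_combination h2
    · linear_combination (-1) * h1 + r * h2
  · rintro ⟨h1, h2⟩
    constructor
    · linear_combination r * h1 - h2
    · linear_combination h1

theorem T6_natDegree (hG : Good K 5) (c u w : K) : (T6 c u w).natDegree = 3 := by
  have h6 : (6 : K) ≠ 0 := by
    have := hG 6 (by norm_num) (by norm_num)
    exact_mod_cast this
  unfold T6
  rw [sub_eq_add_neg, ← C_neg]
  exact natDegree_cubic h6

/-- PROOF. By `sqfree_cubic`, `cubic_unique` every such triple has exactly one double root `r`. If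
`r = 0` then `u = 0`, `w = c / 2`: `q - 1` triples. If `r ≠ 0` then `u ≠ 0`,
`c = - 12 r ^ 3 / u - 5 r ^ 2` and `w` is determined by `(r, u)`; `c ≠ 0` iff `5 u ≠ - 12 r`:
`(q - 1) (q - 2)` triples. -/
theorem Xc_card (hG : Good K 5) :
    ({x : K × K × K | x.1 ≠ 0 ∧ ¬ Squarefree (T6 x.1 x.2.1 x.2.2)}.ncard : ℤ) =
      ((Fintype.card K : ℤ) - 1) ^ 2 := by
  classical
  have n2 : (2 : K) ≠ 0 := by
    have := hG 2 (by norm_num) (by norm_num)
    exact_mod_cast this
  have n5 : (5 : K) ≠ 0 := by
    have := hG 5 (by norm_num) (by norm_num)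
    exact_mod_cast this
  have n6 : (6 : K) ≠ 0 := by
    have := hG 6 (by norm_num) (by norm_num)
    exact_mod_cast this
  have n12 : (12 : K) ≠ 0 := by
    have h : (12 : K) = 2 * 6 := by norm_num
    rw [h]
    exact mul_ne_zero n2 n6
  have n4 : (4 : K) ≠ 0 := by
    have h : (4 : K) = 2 * 2 := by norm_num
    rw [h]
    exact mul_ne_zero n2 n2
  have key : ∀ c u w : K, ¬ Squarefree (T6 c u w) ↔ ∃ r : K,
      4 * w - 2 * c = - 18 * r ^ 2 - 10 * u * r ∧ u * (5 * r ^ 2 + c) = - 12 * r ^ 3 := by
    intro c u w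
    rw [sqfree_cubic (T6_natDegree K hG c u w)]
    exact exists_congr fun r => T6_double K c u w r
  let g : K × K → K × K × K := fun p =>
    if 12 * p.2 + 5 = 0 then (p.1, 0, p.1 / 2)
    else (- p.1 ^ 2 * (12 * p.2 + 5), p.1 / p.2,
      (2 * (- p.1 ^ 2 * (12 * p.2 + 5)) - 18 * p.1 ^ 2 - 10 * (p.1 / p.2) * p.1) / 4)
  have gpos : ∀ s t : K, 12 * t + 5 = 0 → g (s, t) = (s, 0, s / 2) := by
    intro s t h
    simp only [g, if_pos h]
  have gneg : ∀ s t : K, 12 * t + 5 ≠ 0 → g (s, t) = (- s ^ 2 * (12 * t + 5), s / t,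
      (2 * (- s ^ 2 * (12 * t + 5)) - 18 * s ^ 2 - 10 * (s / t) * s) / 4) := by
    intro s t h
    simp only [g, if_neg h]
  have hdbl : ∀ s t : K, s ≠ 0 → t ≠ 0 → 12 * t + 5 ≠ 0 →
      4 * ((2 * (- s ^ 2 * (12 * t + 5)) - 18 * s ^ 2 - 10 * (s / t) * s) / 4) -
        2 * (- s ^ 2 * (12 * t + 5)) = - 18 * s ^ 2 - 10 * (s / t) * s ∧
      (s / t) * (5 * s ^ 2 + (- s ^ 2 * (12 * t + 5))) = - 12 * s ^ 3 := by
    intro s t hs ht h
    constructor
    · field_simp
      ring
    · field_simp
      ring
  have himg : {x : K × K × K | x.1 ≠ 0 ∧ ¬ Squarefree (T6 x.1 x.2.1 x.2.2)} =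
      g '' (({0}ᶜ : Set K) ×ˢ ({0}ᶜ : Set K)) := by
    ext ⟨c, u, w⟩
    simp only [Set.mem_setOf_eq, Set.mem_image, Set.mem_prod, Set.mem_compl_iff,
      Set.mem_singleton_iff, Prod.exists]
    constructor
    · rintro ⟨hc, hsq⟩
      obtain ⟨r, h1, h2⟩ := (key c u w).1 hsq
      by_cases hr : r = 0
      · subst hr
        have hu : u = 0 := by
          have : u * c = 0 := by linear_combination h2
          rcases mul_eq_zero.1 this with h | h
          · exact h
          · exact absurd h hc
        refine ⟨c, - 5 / 12, ⟨hc, ?_⟩, ?_⟩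
        · exact div_ne_zero (neg_ne_zero.2 n5) n12
        · rw [gpos c _ (by field_simp; ring)]
          have hw : c / 2 = w := by
            rw [div_eq_iff n2]
            have : 2 * (2 * w - c) = 0 := by linear_combination h1
            rcases mul_eq_zero.1 this with h | h
            · exact absurd h n2
            · linear_combination (-1) * h
          rw [hu, hw]
      · have hu : u ≠ 0 := by
          rintro rfl
          have : 12 * r ^ 3 = 0 := by linear_combination h2
          rcases mul_eq_zero.1 this with h | h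
          · exact n12 h
          · exact hr (pow_eq_zero_iff (by norm_num) |>.1 h)
        have hcc : c = - r ^ 2 * (12 * (r / u) + 5) := by
          have : u * c = u * (- r ^ 2 * (12 * (r / u) + 5)) := by
            have e : u * (- r ^ 2 * (12 * (r / u) + 5)) = - 12 * r ^ 3 - 5 * r ^ 2 * u := by
              field_simp
              ring
            rw [e]
            linear_combination h2
          exact mul_left_cancel₀ hu this
        have hne : 12 * (r / u) + 5 ≠ 0 := by
          intro h
          rw [h, mul_zero] at hcc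
          exact hc hcc
        refine ⟨r, r / u, ⟨hr, div_ne_zero hr hu⟩, ?_⟩
        rw [gneg _ _ hne, ← hcc]
        have e2 : r / (r / u) = u := by
          field_simp
        rw [e2]
        have e3 : (2 * c - 18 * r ^ 2 - 10 * u * r) / 4 = w := by
          rw [div_eq_iff n4]
          linear_combination (-1) * h1
        rw [e3]
    · rintro ⟨s, t, ⟨hs, ht⟩, hg⟩
      by_cases h : 12 * t + 5 = 0
      · rw [gpos s t h] at hg
        obtain ⟨rfl, rfl, rfl⟩ : s = c ∧ 0 = u ∧ s / 2 = w := by
          simpa only [Prod.mk.injEq] using hg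
        refine ⟨hs, (key _ _ _).2 ⟨0, ?_, ?_⟩⟩
        · field_simp
          ring
        · ring
      · rw [gneg s t h] at hg
        simp only [Prod.mk.injEq] at hg
        obtain ⟨hc, hu, hw⟩ := hg
        refine ⟨?_, (key _ _ _).2 ⟨s, ?_⟩⟩
        · rw [← hc]
          exact mul_ne_zero (neg_ne_zero.2 (pow_ne_zero 2 hs)) h
        · have := hdbl s t hs ht h
          rw [hc, hu] at this
          rw [hc, hu] at hw
          rw [hw] at this
          exact this
  have hinj : Set.InjOn g (({0}ᶜ : Set K) ×ˢ ({0}ᶜ : Set K)) := by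
    rintro ⟨s, t⟩ hst ⟨s', t'⟩ hst' he
    simp only [Set.mem_prod, Set.mem_compl_iff, Set.mem_singleton_iff] at hst hst'
    obtain ⟨hs, ht⟩ := hst
    obtain ⟨hs', ht'⟩ := hst'
    by_cases h : 12 * t + 5 = 0
    · by_cases h' : 12 * t' + 5 = 0
      · rw [gpos s t h, gpos s' t' h'] at he
        simp only [Prod.mk.injEq] at he
        have htt : t = t' := by
          have : 12 * (t - t') = 0 := by linear_combination h - h'
          rcases mul_eq_zero.1 this with h1 | h1
          · exact absurd h1 n12
          · exact sub_eq_zero.1 h1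
        rw [he.1, htt]
      · rw [gpos s t h, gneg s' t' h'] at he
        simp only [Prod.mk.injEq] at he
        exact absurd he.2.1.symm (div_ne_zero hs' ht')
    · by_cases h' : 12 * t' + 5 = 0
      · rw [gneg s t h, gpos s' t' h'] at he
        simp only [Prod.mk.injEq] at he
        exact absurd he.2.1 (div_ne_zero hs ht)
      · rw [gneg s t h, gneg s' t' h'] at he
        simp only [Prod.mk.injEq] at he
        obtain ⟨hc, hu, hw⟩ := he
        have d1 := hdbl s t hs ht h
        have d2 := hdbl s' t' hs' ht' h'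
        rw [← hw, ← hc, ← hu] at d2
        have r1 := (T6_double K _ _ _ _).2 d1
        have r2 := (T6_double K _ _ _ _).2 d2
        have hss : s = s' := cubic_unique (T6_natDegree K hG _ _ _) r1.1 r1.2 r2.1 r2.2
        subst hss
        have htt : t = t' := by
          rw [div_eq_div_iff ht ht'] at hu
          exact (mul_left_cancel₀ hs hu).symm
        rw [htt]
  rw [himg, Set.ncard_image_of_injOn hinj, Set.ncard_prod]
  have hcompl : (({0}ᶜ : Set K).ncard : ℤ) = (Fintype.card K : ℤ) - 1 := by
    have h := Set.ncard_add_ncard_compl ({0} : Set K)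
    rw [Set.ncard_singleton, Nat.card_eq_fintype_card] at h
    omega
  push_cast
  rw [hcompl]
  ring

end SBr
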