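import Pool.Agent.H.MP_cc3311_ag.C3
import Pool.Agent.H.MP_cc3311_ag.C4

/-!
# MP_cc3311_ag, C5: the triples with `Q` a square
-/

set_option autoImplicit false

namespace SBr

open Polynomial

variable (K : Type) [Field K] [Fintype K]

omit [Fintype K] in
theorem C5_two (hG : Good K 5) : (2 : K) ≠ 0 := by
  have := hG 2 (by norm_num) (by norm_num)
  exact_mod_cast this

omit [Fintype K] in
theorem C5_three (hG : Good K 5) : (3 : K) ≠ 0 := by
  have := hG 3 (by norm_num) (by norm_num)
  exact_mod_cast this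

/-- For `w = r ^ 2`, `u = - 2 r`: `T6 = 2 (X - r) (3 X ^ 2 - 2 r X - c)`, squarefree iff `c ≠ r ^ 2`
(the value at `r`) and `r ^ 2 + 3 c ≠ 0` (the discriminant is `4 (r ^ 2 + 3 c)`). -/
theorem T6_square (hG : Good K 5) (c r : K) :
    Squarefree (T6 c (-2 * r) (r ^ 2)) ↔ c ≠ r ^ 2 ∧ r ^ 2 + 3 * c ≠ 0 := by
  have h2 := C5_two K hG
  have h3 := C5_three K hG
  have key : ¬ Squarefree (T6 c (-2 * r) (r ^ 2)) ↔ ∃ s : K,
      2 * (s - r) * (3 * s ^ 2 - 2 * r * s - c) = 0 ∧
      2 * (3 * s ^ 2 - 2 * r * s - c) + 2 * (s - r) * (6 * s - 2 * r) = 0 := by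
    rw [sqfree_cubic (T6_natDegree K hG _ _ _)]
    refine exists_congr fun s => ?_
    have e1 : (T6 c (-2 * r) (r ^ 2)).eval s = 2 * (s - r) * (3 * s ^ 2 - 2 * r * s - c) := by
      unfold T6
      simp only [eval_sub, eval_add, eval_mul, eval_C, eval_pow, eval_X]
      ring
    have e2 : (derivative (T6 c (-2 * r) (r ^ 2))).eval s =
        2 * (3 * s ^ 2 - 2 * r * s - c) + 2 * (s - r) * (6 * s - 2 * r) := by
      unfold T6
      simp only [derivative_add, derivative_sub, derivative_mul, derivative_C, derivative_X_pow,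
        derivative_X, eval_add, eval_sub, eval_mul, eval_pow, eval_C, eval_X, eval_zero, eval_one]
      push_cast
      ring
    rw [IsRoot.def, IsRoot.def, e1, e2]
  constructor
  · intro h
    constructor
    · rintro rfl
      refine (key.2 ⟨r, by ring, by ring⟩) h
    · intro hc
      refine (key.2 ⟨r / 3, ?_, ?_⟩) h
      · have : 3 * (r / 3) ^ 2 - 2 * r * (r / 3) - c = - (r ^ 2 + 3 * c) / 3 := by
          field_simp
          ring
        rw [this, hc]
        simp
      · have : 3 * (r / 3) ^ 2 - 2 * r * (r / 3) - c = - (r ^ 2 + 3 * c) / 3 := by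
          field_simp
          ring
        rw [this, hc]
        have h6 : 6 * (r / 3) - 2 * r = 0 := by
          field_simp
          ring
        rw [h6]
        simp
  · rintro ⟨h4, h5⟩
    by_contra h
    obtain ⟨s, h6, h7⟩ := key.1 h
    rcases mul_eq_zero.1 h6 with h8 | h8
    · have h9 : s = r := by
        rcases mul_eq_zero.1 h8 with h | h
        · exact (h2 h).elim
        · exact sub_eq_zero.1 h
      subst h9
      apply h4
      have h10 : 2 * (s ^ 2 - c) = 0 := by linear_combination h7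
      rcases mul_eq_zero.1 h10 with h | h
      · exact (h2 h).elim
      · exact (sub_eq_zero.1 h).symm
    · rw [h8, mul_zero, zero_add] at h7
      rcases mul_eq_zero.1 h7 with h9 | h9
      · have h9' : s = r := by
          rcases mul_eq_zero.1 h9 with h | h
          · exact (h2 h).elim
          · exact sub_eq_zero.1 h
        subst h9'
        apply h4
        linear_combination -h8
      · apply h5
        have h10 : 2 * (3 * s - r) = 0 := by linear_combination h9
        have h11 : r = 3 * s := by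
          rcases mul_eq_zero.1 h10 with h | h
          · exact (h2 h).elim
          · exact (sub_eq_zero.1 h).symm
        subst h11
        linear_combination -3 * h8

theorem C5_fibre (hG : Good K 5) [DecidableEq K] (r : K) :
    (((Finset.univ.filter fun c : K => c ≠ 0 ∧ c ≠ r ^ 2 ∧ r ^ 2 + 3 * c ≠ 0).card : ℕ) : ℤ) =
      if r = 0 then (Fintype.card K : ℤ) - 1 else (Fintype.card K : ℤ) - 3 := by
  have h2 := C5_two K hG
  have h3 := C5_three K hG
  have h1 : (Finset.univ.filter fun c : K => c ≠ 0 ∧ c ≠ r ^ 2 ∧ r ^ 2 + 3 * c ≠ 0) =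
      ({0, r ^ 2, - r ^ 2 / 3} : Finset K)ᶜ := by
    ext c
    rw [Finset.mem_filter, Finset.mem_compl, Finset.mem_insert, Finset.mem_insert,
      Finset.mem_singleton]
    have h4 : c = - r ^ 2 / 3 ↔ r ^ 2 + 3 * c = 0 := by
      rw [eq_div_iff h3]
      constructor
      · intro h; linear_combination h
      · intro h; linear_combination h
    rw [h4]
    simp only [Finset.mem_univ, true_and, not_or, ne_eq]
  rw [h1, Finset.card_compl]
  have hle : ({0, r ^ 2, - r ^ 2 / 3} : Finset K).card ≤ Fintype.card K := Finset.card_le_univ _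
  rw [Nat.cast_sub hle]
  split_ifs with hr
  · subst hr
    have : ({0, (0 : K) ^ 2, - (0 : K) ^ 2 / 3} : Finset K) = {0} := by
      ext c
      simp
    rw [this, Finset.card_singleton]
    simp
  · have hr2 : r ^ 2 ≠ 0 := pow_ne_zero 2 hr
    have a1 : r ^ 2 ≠ - r ^ 2 / 3 := by
      intro h
      rw [eq_div_iff h3] at h
      have : (2 * 2) * r ^ 2 = 0 := by linear_combination h
      rcases mul_eq_zero.1 this with h | h
      · exact (mul_ne_zero h2 h2) h
      · exact hr2 h
    have a2 : (0 : K) ≠ - r ^ 2 / 3 := by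
      intro h
      rw [eq_div_iff h3] at h
      apply hr2
      linear_combination h
    rw [Finset.card_insert_of_notMem, Finset.card_insert_of_notMem, Finset.card_singleton]
    · simp
    · simpa using a1
    · rw [Finset.mem_insert, Finset.mem_singleton, not_or]
      exact ⟨hr2.symm, a2⟩

/-- The triples are `(c, -2 r, r ^ 2)` with `c ≠ 0`, `c ≠ r ^ 2`, `r ^ 2 + 3 c ≠ 0`: `q - 1` for `r = 0`
and `q - 3` for every `r ≠ 0`. -/
theorem Xa_card (hG : Good K 5) :
    ({x : K × K × K | x.1 ≠ 0 ∧ x.2.1 ^ 2 = 4 * x.2.2 ∧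
      Squarefree (T6 x.1 x.2.1 x.2.2)}.ncard : ℤ) =
      ((Fintype.card K : ℤ) - 1) * (Fintype.card K - 2) := by
  classical
  have h2 := C5_two K hG
  let S : Finset (K × K) := Finset.univ.filter fun x => x.1 ≠ 0 ∧ x.1 ≠ x.2 ^ 2 ∧
    x.2 ^ 2 + 3 * x.1 ≠ 0
  let g : K × K → K × K × K := fun x => (x.1, -2 * x.2, x.2 ^ 2)
  have hg : Function.Injective g := by
    rintro ⟨c, r⟩ ⟨c', r'⟩ h
    simp only [g, Prod.mk.injEq] at h
    obtain ⟨h4, h5, -⟩ := h
    have h6 : 2 * (r - r') = 0 := by linear_combination -h5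
    rcases mul_eq_zero.1 h6 with h | h
    · exact (h2 h).elim
    · rw [h4, sub_eq_zero.1 h]
  have hset : {x : K × K × K | x.1 ≠ 0 ∧ x.2.1 ^ 2 = 4 * x.2.2 ∧
      Squarefree (T6 x.1 x.2.1 x.2.2)} = ((S.image g : Finset (K × K × K)) : Set (K × K × K)) := by
    ext ⟨c, u, w⟩
    rw [Set.mem_ofPred_eq, Finset.mem_coe, Finset.mem_image]
    constructor
    · rintro ⟨h4, h5, h6⟩
      have hu : u = -2 * (-u / 2) := by field_simp
      have hw : w = (-u / 2) ^ 2 := by
        have h5' : u ^ 2 = 4 * w := h5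
        have h44 : (4 : K) = 2 * 2 := by norm_num
        have h45 : (4 : K) ≠ 0 := by rw [h44]; exact mul_ne_zero h2 h2
        have : (-u / 2) ^ 2 = u ^ 2 / 4 := by
          rw [div_pow, h44]
          ring
        rw [this, h5', mul_div_cancel_left₀ _ h45]
      refine ⟨(c, -u / 2), ?_, ?_⟩
      · rw [Finset.mem_filter]
        refine ⟨Finset.mem_univ _, h4, ?_⟩
        have h6' : Squarefree (T6 c u w) := h6
        rw [hw] at h6'
        rw [hu] at h6'
        have h7 := (T6_square K hG c (-u / 2)).1 (by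
          have e : -2 * (-u / 2) = u := hu.symm
          rw [e] at h6' ⊢
          exact h6')
        exact h7
      · show (c, -2 * (-u / 2), (-u / 2) ^ 2) = (c, u, w)
        rw [← hu, ← hw]
    · rintro ⟨⟨c', r⟩, hS, h⟩
      rw [Finset.mem_filter] at hS
      simp only [g, Prod.mk.injEq] at h
      obtain ⟨rfl, rfl, rfl⟩ := h
      refine ⟨hS.2.1, by ring, (T6_square K hG c' r).2 hS.2.2⟩
  rw [hset, Set.ncard_coe_finset, Finset.card_image_of_injective _ hg]
  have hfib : S.card = ∑ r : K, (Finset.univ.filter fun c : K => c ≠ 0 ∧ c ≠ r ^ 2 ∧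
      r ^ 2 + 3 * c ≠ 0).card := by
    rw [Finset.card_eq_sum_card_fiberwise (f := Prod.snd) (t := Finset.univ)
      (fun _ _ => Finset.mem_coe.2 (Finset.mem_univ _))]
    refine Finset.sum_congr rfl fun r _ => ?_
    rw [← Finset.card_image_of_injective (Finset.univ.filter fun c : K => c ≠ 0 ∧ c ≠ r ^ 2 ∧
      r ^ 2 + 3 * c ≠ 0) (Prod.mk_left_injective r)]
    refine congrArg Finset.card ?_
    ext ⟨c, r'⟩
    simp only [S, Finset.mem_filter, Finset.mem_univ, true_and, Finset.mem_image,
      Prod.mk.injEq]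
    constructor
    · rintro ⟨h, rfl⟩
      exact ⟨c, h, rfl, rfl⟩
    · rintro ⟨c', h, rfl, rfl⟩
      exact ⟨h, rfl⟩
  rw [hfib]
  push_cast
  rw [Finset.sum_congr rfl fun r _ => C5_fibre K hG r, Finset.sum_ite, Finset.sum_const,
    Finset.sum_const]
  have e1 : (Finset.univ.filter fun r : K => r = 0) = {0} := by
    ext r; simp
  have e2 : (Finset.univ.filter fun r : K => ¬ r = 0) = ({0} : Finset K)ᶜ := by
    ext r; simp
  rw [e1, e2, Finset.card_compl, Finset.card_singleton]
  have hq : 1 ≤ Fintype.card K := Fintype.card_pos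
  simp only [nsmul_eq_mul]
  rw [Nat.cast_sub hq]
  push_cast
  ring

end SBr
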