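import Pool.Agent.H.MP_cc3311_ag.C3

/-!
# MP_cc3311_ag, C6: the triples for which `E` and `Q` have a common root
-/

set_option autoImplicit false

namespace SBr

open Polynomial

variable (K : Type) [Field K] [Fintype K]

omit [Fintype K] in
theorem C6_two (hG : Good K 5) : (2 : K) ≠ 0 := by
  exact_mod_cast hG 2 (by norm_num) (by norm_num)

omit [Fintype K] in
theorem C6_three (hG : Good K 5) : (3 : K) ≠ 0 := by
  exact_mod_cast hG 3 (by norm_num) (by norm_num)

omit [Fintype K] in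
theorem C6_five (hG : Good K 5) : (5 : K) ≠ 0 := by
  exact_mod_cast hG 5 (by norm_num) (by norm_num)

omit [Fintype K] in
theorem C6_six (hG : Good K 5) : (6 : K) ≠ 0 := by
  exact_mod_cast hG 6 (by norm_num) (by norm_num)

omit [Fintype K] in
/-- A linear factor times a quadratic polynomial. -/
theorem C6_mul (h2 : (2 : K) ≠ 0) {r a b c : K} (ha : a ≠ 0) :
    Squarefree ((X - C r) * (C a * X ^ 2 + C b * X + C c)) ↔
      a * r ^ 2 + b * r + c ≠ 0 ∧ b ^ 2 - 4 * a * c ≠ 0 := by
  rw [squarefree_mul_iff, sqfree_quad h2 ha]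
  have hirr : Irreducible (X - C r) := irreducible_X_sub_C r
  have hsq : Squarefree (X - C r : K[X]) := hirr.squarefree
  have hrel : IsRelPrime (X - C r) (C a * X ^ 2 + C b * X + C c) ↔
      a * r ^ 2 + b * r + c ≠ 0 := by
    rw [hirr.isRelPrime_iff_not_dvd, dvd_iff_isRoot]
    simp [IsRoot.def]
  rw [hrel]
  tauto

/-- For `c = g ^ 2`, `u = -(g + d)`, `w = g d`:
`T6 = (X - g) (6 X ^ 2 + (g - 5 d) X - g (g + d))`; the value of the second factor at `g` is
`6 g (g - d)` and its discriminant is `25 g ^ 2 + 14 g d + 25 d ^ 2`. -/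
theorem T6_common (hG : Good K 5) {g d : K} (hg : g ≠ 0) :
    Squarefree (T6 (g ^ 2) (-(g + d)) (g * d)) ↔
      g ≠ d ∧ 25 * g ^ 2 + 14 * g * d + 25 * d ^ 2 ≠ 0 := by
  have h6 : (6 : K) ≠ 0 := C6_six K hG
  have he : T6 (g ^ 2) (-(g + d)) (g * d) =
      (X - C g) * (C 6 * X ^ 2 + C (g - 5 * d) * X + C (-(g * (g + d)))) := by
    unfold T6
    simp only [map_mul, map_add, map_sub, map_neg, map_pow, map_ofNat]
    ring
  rw [he, C6_mul K (C6_two K hG) h6]
  have e1 : 6 * g ^ 2 + (g - 5 * d) * g + -(g * (g + d)) = 6 * g * (g - d) := by ring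
  have e2 : (g - 5 * d) ^ 2 - 4 * 6 * -(g * (g + d)) = 25 * g ^ 2 + 14 * g * d + 25 * d ^ 2 := by
    ring
  rw [e1, e2]
  have e3 : 6 * g * (g - d) ≠ 0 ↔ g ≠ d := by
    rw [mul_ne_zero_iff, sub_ne_zero]
    exact ⟨fun h => h.2, fun h => ⟨mul_ne_zero h6 hg, h⟩⟩
  rw [e3]

/-- For `u = 0`, `w = - c`: `T6 = 6 X (X ^ 2 - c)`. -/
theorem T6_zero (hG : Good K 5) {c : K} (hc : c ≠ 0) : Squarefree (T6 c 0 (-c)) := by
  have h6 : (6 : K) ≠ 0 := C6_six K hG
  have he : T6 c 0 (-c) = (X - C 0) * (C 6 * X ^ 2 + C 0 * X + C (-(6 * c))) := by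
    unfold T6
    simp only [map_mul, map_sub, map_neg, map_zero, map_ofNat, mul_zero, mul_neg]
    ring
  rw [he, C6_mul K (C6_two K hG) h6]
  constructor
  · rw [zero_pow two_ne_zero, mul_zero, mul_zero, zero_add, zero_add]
    exact neg_ne_zero.2 (mul_ne_zero h6 hc)
  · have : (0 : K) ^ 2 - 4 * 6 * -(6 * c) = 2 ^ 2 * 6 ^ 2 * c := by ring
    rw [this]
    exact mul_ne_zero (mul_ne_zero (pow_ne_zero _ (C6_two K hG)) (pow_ne_zero _ h6)) hc

/-- `25 r ^ 2 + 14 r + 25 = 0` iff `((50 r + 14) / 48) ^ 2 = -1`. -/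
theorem quad_card (hG : Good K 5) : {r : K | 25 * r ^ 2 + 14 * r + 25 = 0}.ncard = c2 K := by
  have h2 := C6_two K hG
  have h3 := C6_three K hG
  have h5 := C6_five K hG
  have h24 : (24 : K) ≠ 0 := by
    have : (24 : K) = 2 ^ 3 * 3 := by norm_num
    rw [this]
    exact mul_ne_zero (pow_ne_zero _ h2) h3
  have h25 : (25 : K) ≠ 0 := by
    have : (25 : K) = 5 ^ 2 := by norm_num
    rw [this]
    exact pow_ne_zero _ h5
  unfold c2
  refine Set.ncard_congr (fun r _ => (25 * r + 7) / 24) ?_ ?_ ?_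
  · intro r hr
    rw [Set.mem_setOf_eq] at hr ⊢
    field_simp
    linear_combination 25 * hr
  · intro r r' _ _ h
    field_simp at h
    have : 25 * (r - r') = 0 := by linear_combination h
    exact sub_eq_zero.1 ((mul_eq_zero.1 this).resolve_left h25)
  · intro x hx
    rw [Set.mem_setOf_eq] at hx
    refine ⟨(24 * x - 7) / 25, ?_, ?_⟩
    · rw [Set.mem_setOf_eq]
      field_simp
      linear_combination 576 * hx
    · field_simp
      ring

/-- PROOF. `u = 0`: `w = - c`, `q - 1` triples. `u ≠ 0`: put `g = -(c + w) / u`; then `g ^ 2 = c`,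
`g ^ 2 + u g + w = 0`; with `d = w / g` the triple is `(g ^ 2, -(g + d), g d)` and `(g, d)` is
determined by the triple; conditions `g ≠ 0`, `d ≠ - g`, `d ≠ g`, `25 g ^ 2 + 14 g d + 25 d ^ 2 ≠ 0`.
With `d = g r`: `(q - 1)` values of `g` and `q - 2 - c2 K` values of `r` (`25 r ^ 2 + 14 r + 25` is
`36` at `-1` and `64` at `1`). -/
theorem Xb_card (hG : Good K 5) :
    ({x : K × K × K | x.1 ≠ 0 ∧ (x.1 + x.2.2) ^ 2 = x.1 * x.2.1 ^ 2 ∧
      Squarefree (T6 x.1 x.2.1 x.2.2)}.ncard : ℤ) =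
      ((Fintype.card K : ℤ) - 1) * (Fintype.card K - 1 - c2 K) := by
  have h2 := C6_two K hG
  have h3 := C6_three K hG
  have h6 := C6_six K hG
  have h36 : (36 : K) ≠ 0 := by
    have : (36 : K) = 6 ^ 2 := by norm_num
    rw [this]
    exact pow_ne_zero _ h6
  have h64 : (64 : K) ≠ 0 := by
    have : (64 : K) = 2 ^ 6 := by norm_num
    rw [this]
    exact pow_ne_zero _ h2
  have hcard : Nat.card K = Fintype.card K := Nat.card_eq_fintype_card
  have hn0 : ({g : K | g ≠ 0}.ncard : ℤ) = (Fintype.card K : ℤ) - 1 := by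
    have h := Set.ncard_add_ncard_compl ({0} : Set K)
    rw [Set.ncard_singleton, hcard] at h
    have e : {g : K | g ≠ 0} = ({0} : Set K)ᶜ := by ext; simp
    rw [e, ← h]
    push_cast
    ring
  have hR : ({r : K | r ≠ -1 ∧ r ≠ 1 ∧ 25 * r ^ 2 + 14 * r + 25 ≠ 0}.ncard : ℤ) =
      (Fintype.card K : ℤ) - 2 - c2 K := by
    have h := Set.ncard_add_ncard_compl
      (({-1} ∪ {1}) ∪ {r : K | 25 * r ^ 2 + 14 * r + 25 = 0} : Set K)
    have hd1 : Disjoint (({-1} ∪ {1} : Set K)) {r : K | 25 * r ^ 2 + 14 * r + 25 = 0} := by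
      rw [Set.disjoint_left]
      rintro r (hr | hr) hr'
      · rw [Set.mem_singleton_iff] at hr
        rw [Set.mem_setOf_eq, hr] at hr'
        exact h36 (by linear_combination hr')
      · rw [Set.mem_singleton_iff] at hr
        rw [Set.mem_setOf_eq, hr] at hr'
        exact h64 (by linear_combination hr')
    have hd2 : Disjoint ({-1} : Set K) {1} := by
      rw [Set.disjoint_singleton]
      intro h
      exact h2 (by linear_combination -h)
    rw [Set.ncard_union_eq hd1 (Set.toFinite _) (Set.toFinite _),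
      Set.ncard_union_eq hd2 (Set.toFinite _) (Set.toFinite _), Set.ncard_singleton,
      Set.ncard_singleton, quad_card K hG, hcard] at h
    have e : {r : K | r ≠ -1 ∧ r ≠ 1 ∧ 25 * r ^ 2 + 14 * r + 25 ≠ 0} =
        (({-1} ∪ {1}) ∪ {r : K | 25 * r ^ 2 + 14 * r + 25 = 0} : Set K)ᶜ := by
      ext r
      simp only [Set.mem_setOf_eq, Set.mem_compl_iff, Set.mem_union, Set.mem_singleton_iff,
        not_or, ne_eq]
      tauto
    rw [e, ← h]
    push_cast
    ring
  have hA : {x : K × K × K | x.1 ≠ 0 ∧ (x.1 + x.2.2) ^ 2 = x.1 * x.2.1 ^ 2 ∧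
      Squarefree (T6 x.1 x.2.1 x.2.2)} =
      ((fun c : K => ((c, 0, -c) : K × K × K)) '' {g : K | g ≠ 0}) ∪
      ((fun y : K × K => ((y.1 ^ 2, -(y.1 + y.1 * y.2), y.1 * (y.1 * y.2)) : K × K × K)) ''
        ({g : K | g ≠ 0} ×ˢ {r : K | r ≠ -1 ∧ r ≠ 1 ∧ 25 * r ^ 2 + 14 * r + 25 ≠ 0})) := by
    ext ⟨c, u, w⟩
    simp only [Set.mem_setOf_eq, Set.mem_union, Set.mem_image, Set.mem_prod, Prod.mk.injEq,
      Prod.exists]
    constructor
    · rintro ⟨hc, hres, hsq⟩
      by_cases hu : u = 0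
      · left
        refine ⟨c, hc, rfl, hu.symm, ?_⟩
        have : (c + w) ^ 2 = 0 := by rw [hres, hu]; ring
        have := pow_eq_zero_iff two_ne_zero |>.1 this
        linear_combination -this
      · right
        obtain ⟨g, hg⟩ : ∃ g : K, u * g = -(c + w) := ⟨-(c + w) / u, by field_simp⟩
        have hgc : g ^ 2 = c := by
          have : u ^ 2 * (g ^ 2 - c) = 0 := by linear_combination (u * g - (c + w)) * hg + hres
          exact sub_eq_zero.1 ((mul_eq_zero.1 this).resolve_left (pow_ne_zero _ hu))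
        have hg0 : g ≠ 0 := by
          rintro rfl
          exact hc (by rw [← hgc]; ring)
        obtain ⟨r, hr⟩ : ∃ r : K, g ^ 2 * r = w := ⟨w / g ^ 2, by field_simp⟩
        have hu' : -(g + g * r) = u := by
          have : g * (-(g + g * r) - u) = 0 := by linear_combination -hr - hg - hgc
          exact sub_eq_zero.1 ((mul_eq_zero.1 this).resolve_left hg0)
        have hw' : g * (g * r) = w := by linear_combination hr
        have key := T6_common K hG (g := g) (d := g * r) hg0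
        rw [hgc, hu', hw'] at key
        obtain ⟨k1, k2⟩ := key.1 hsq
        refine ⟨g, r, ⟨hg0, ?_, ?_, ?_⟩, hgc, hu', hw'⟩
        · rintro rfl
          exact hu (by rw [← hu']; ring)
        · rintro rfl
          exact k1 (by ring)
        · intro h0
          exact k2 (by linear_combination g ^ 2 * h0 - 25 * hgc)
    · rintro (⟨c', hc', rfl, rfl, rfl⟩ | ⟨g, r, ⟨hg0, hr1, hr2, hr3⟩, rfl, rfl, rfl⟩)
      · exact ⟨hc', by ring, T6_zero K hG hc'⟩
      · refine ⟨pow_ne_zero _ hg0, by ring, ?_⟩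
        rw [T6_common K hG hg0]
        constructor
        · intro h
          have : g * (1 - r) = 0 := by linear_combination h
          rcases mul_eq_zero.1 this with h | h
          · exact hg0 h
          · exact hr2 (by linear_combination -h)
        · intro h
          have : g ^ 2 * (25 * r ^ 2 + 14 * r + 25) = 0 := by linear_combination h
          rcases mul_eq_zero.1 this with h | h
          · exact pow_ne_zero _ hg0 h
          · exact hr3 h
  have hdis : Disjoint ((fun c : K => ((c, 0, -c) : K × K × K)) '' {g : K | g ≠ 0})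
      ((fun y : K × K => ((y.1 ^ 2, -(y.1 + y.1 * y.2), y.1 * (y.1 * y.2)) : K × K × K)) ''
        ({g : K | g ≠ 0} ×ˢ {r : K | r ≠ -1 ∧ r ≠ 1 ∧ 25 * r ^ 2 + 14 * r + 25 ≠ 0})) := by
    rw [Set.disjoint_left]
    rintro x ⟨c, _, rfl⟩ ⟨⟨g, r⟩, ⟨hg, hr, _, _⟩, h⟩
    simp only [Prod.mk.injEq] at h
    have : g * (r + 1) = 0 := by linear_combination -h.2.1
    rcases mul_eq_zero.1 this with h | h
    · exact hg h
    · exact hr (by linear_combination h)
  have hi1 : Function.Injective (fun c : K => ((c, 0, -c) : K × K × K)) := by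
    intro a b h
    simp only [Prod.mk.injEq] at h
    exact h.1
  have hi2 : Set.InjOn
      (fun y : K × K => ((y.1 ^ 2, -(y.1 + y.1 * y.2), y.1 * (y.1 * y.2)) : K × K × K))
      ({g : K | g ≠ 0} ×ˢ {r : K | r ≠ -1 ∧ r ≠ 1 ∧ 25 * r ^ 2 + 14 * r + 25 ≠ 0}) := by
    rintro ⟨g, r⟩ ⟨hg, hr, _, _⟩ ⟨g', r'⟩ ⟨hg', _, _, _⟩ h
    simp only [Prod.mk.injEq] at h hg hr hg'
    obtain ⟨a1, a2, a3⟩ := h
    have hrr : g ^ 2 * (r - r') = 0 := by linear_combination a3 - r' * a1
    have hr' : r = r' :=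
      sub_eq_zero.1 ((mul_eq_zero.1 hrr).resolve_left (pow_ne_zero _ hg))
    have hgg : (r + 1) * (g - g') = 0 := by rw [← hr'] at a2; linear_combination -a2
    have hg'' : g = g' := by
      refine sub_eq_zero.1 ((mul_eq_zero.1 hgg).resolve_left ?_)
      intro h
      exact hr (by linear_combination h)
    rw [hr', hg'']
  rw [hA, Set.ncard_union_eq hdis (Set.toFinite _) (Set.toFinite _),
    Set.ncard_image_of_injective _ hi1, hi2.ncard_image, Set.ncard_prod]
  push_cast
  rw [hn0, hR]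
  ring

end SBr
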