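import Pool.Agent.H.MP_cc3311_ag.C4
import Pool.Agent.H.MP_cc3311_ag.C5
import Pool.Agent.H.MP_cc3311_ag.C6

/-!
# MP_cc3311_ag, C7: the number of elements of `RQ K 5 2`
-/

set_option autoImplicit false

namespace SBr

open Polynomial

variable (K : Type) [Field K] [Fintype K]

/-- The sets of C5 and C6 are disjoint: `u ^ 2 = 4 w` and `(c + w) ^ 2 = c u ^ 2` give `c = w`, so with
`r = - u / 2` we have `c = w = r ^ 2` and `T6` is not squarefree (`T6_square`). -/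
theorem Xab_disjoint (hG : Good K 5) (c u w : K) (h1 : u ^ 2 = 4 * w)
    (h2 : (c + w) ^ 2 = c * u ^ 2) : ¬ Squarefree (T6 c u w) := by
  have h20 : (2 : K) ≠ 0 := by
    have := hG 2 (by norm_num) (by norm_num)
    exact_mod_cast this
  have hcw : c = w := by
    have h3 : (c - w) ^ 2 = 0 := by
      rw [h1] at h2
      linear_combination h2
    have h4 : c - w = 0 := pow_eq_zero_iff (two_ne_zero) |>.1 h3
    exact sub_eq_zero.1 h4
  obtain ⟨r, hr⟩ : ∃ r : K, u = -2 * r := ⟨-u / 2, by field_simp⟩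
  have hw : w = r ^ 2 := by
    have h5 : (2 : K) ^ 2 * w = 2 ^ 2 * r ^ 2 := by
      rw [hr] at h1
      linear_combination -h1
    exact mul_left_cancel₀ (pow_ne_zero 2 h20) h5
  rw [hr, hw, T6_square K hG]
  intro h
  exact h.1 (hcw.trans hw)

theorem C7_total : ({x : K × K × K | x.1 ≠ 0}.ncard : ℤ) =
    ((Fintype.card K : ℤ) - 1) * (Fintype.card K : ℤ) ^ 2 := by
  classical
  have h1 : {x : K × K × K | x.1 ≠ 0} = ({c : K | c ≠ 0} ×ˢ (Set.univ : Set (K × K))) := by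
    ext x
    simp
  rw [h1, Set.ncard_prod, Set.ncard_univ, Nat.card_eq_fintype_card, Fintype.card_prod]
  have h2 : {c : K | c ≠ 0}.ncard = Fintype.card K - 1 := by
    have h3 : {c : K | c ≠ 0} = ({0} : Set K)ᶜ := by
      ext c
      simp
    rw [h3, Set.ncard_compl, Set.ncard_singleton, Nat.card_eq_fintype_card]
  have h4 : 1 ≤ Fintype.card K := Fintype.card_pos
  rw [h2]
  push_cast [Nat.cast_sub h4]
  ring

/-- PROOF. `{c ≠ 0}` has `(q - 1) q ^ 2` elements and is the disjoint union of `GS` and the sets of C4,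
C5, C6. -/
theorem GS_card (hG : Good K 5) : ((GS K).ncard : ℤ) = ((Fintype.card K : ℤ) - 1) *
    ((Fintype.card K : ℤ) ^ 2 - 3 * Fintype.card K + 4 + c2 K) := by
  classical
  set Xc : Set (K × K × K) := {x | x.1 ≠ 0 ∧ ¬ Squarefree (T6 x.1 x.2.1 x.2.2)} with hXc
  set Xa : Set (K × K × K) := {x | x.1 ≠ 0 ∧ x.2.1 ^ 2 = 4 * x.2.2 ∧
      Squarefree (T6 x.1 x.2.1 x.2.2)} with hXa
  set Xb : Set (K × K × K) := {x | x.1 ≠ 0 ∧ (x.1 + x.2.2) ^ 2 = x.1 * x.2.1 ^ 2 ∧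
      Squarefree (T6 x.1 x.2.1 x.2.2)} with hXb
  have hu : {x : K × K × K | x.1 ≠ 0} = ((GS K ∪ Xc) ∪ Xa) ∪ Xb := by
    ext x
    simp only [Set.mem_ofPred_eq, Set.mem_union, GS, hXc, hXa, hXb]
    constructor
    · intro h
      by_cases h1 : Squarefree (T6 x.1 x.2.1 x.2.2)
      · by_cases h2 : x.2.1 ^ 2 = 4 * x.2.2
        · exact Or.inl (Or.inr ⟨h, h2, h1⟩)
        · by_cases h3 : (x.1 + x.2.2) ^ 2 = x.1 * x.2.1 ^ 2
          · exact Or.inr ⟨h, h3, h1⟩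
          · exact Or.inl (Or.inl (Or.inl ⟨h, h2, h3, h1⟩))
      · exact Or.inl (Or.inl (Or.inr ⟨h, h1⟩))
    · rintro (((h | h) | h) | h)
      · exact h.1
      · exact h.1
      · exact h.1
      · exact h.1
  have d1 : Disjoint (GS K) Xc := by
    rw [Set.disjoint_left]
    intro x h1 h2
    exact h2.2 h1.2.2.2
  have d2 : Disjoint (GS K ∪ Xc) Xa := by
    rw [Set.disjoint_left]
    rintro x (h1 | h1) h2
    · exact h1.2.1 h2.2.1
    · exact h1.2 h2.2.2
  have d3 : Disjoint ((GS K ∪ Xc) ∪ Xa) Xb := by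
    rw [Set.disjoint_left]
    rintro x ((h1 | h1) | h1) h2
    · exact h1.2.2.1 h2.2.1
    · exact h1.2 h2.2.2
    · exact Xab_disjoint K hG x.1 x.2.1 x.2.2 h1.2.1 h2.2.1 h1.2.2
  have hN : {x : K × K × K | x.1 ≠ 0}.ncard = (GS K).ncard + Xc.ncard + Xa.ncard + Xb.ncard := by
    rw [hu, Set.ncard_union_eq d3, Set.ncard_union_eq d2, Set.ncard_union_eq d1]
  have hT := C7_total K
  rw [hN] at hT
  push_cast at hT
  have e1 : (Xc.ncard : ℤ) = ((Fintype.card K : ℤ) - 1) ^ 2 := Xc_card K hG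
  have e2 : (Xa.ncard : ℤ) = ((Fintype.card K : ℤ) - 1) * (Fintype.card K - 2) := Xa_card K hG
  have e3 : (Xb.ncard : ℤ) = ((Fintype.card K : ℤ) - 1) * (Fintype.card K - 1 - c2 K) :=
    Xb_card K hG
  rw [e1, e2, e3] at hT
  linear_combination hT

theorem RQ52_ncard (hG : Good K 5) : ((RQ K 5 2).ncard : ℤ) = (Fintype.card K : ℤ) *
    ((Fintype.card K : ℤ) - 1) *
    ((Fintype.card K : ℤ) ^ 2 - 3 * Fintype.card K + 4 + c2 K) := by
  rw [RQ52_card K hG, Nat.cast_mul, GS_card K hG]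
  ring

end SBr
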