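import Mathlib

/-!
# MP_cc3311_ag: simply branched antiderivatives, definitions
-/

set_option autoImplicit false

namespace SBr

open Polynomial

/-- The antiderivative of `f` with constant term `0`. -/
noncomputable def anti {K : Type} [Field K] (f : K[X]) : K[X] :=
  f.sum fun i a => C (a / ((i : K) + 1)) * X ^ (i + 1)

/-- The polynomial map `F` is simply branched: over the algebraic closure the roots of `F'` are
simple and `F` takes different values at different roots of `F'`. -/
def Simply {K : Type} [Field K] (F : K[X]) : Prop :=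
  (∀ x : AlgebraicClosure K, aeval x (derivative F) = 0 →
    aeval x (derivative (derivative F)) ≠ 0) ∧
  ∀ x y : AlgebraicClosure K, aeval x (derivative F) = 0 → aeval y (derivative F) = 0 →
    aeval x F = aeval y F → x = y

/-- The number of monic polynomials `f` of degree `n` over `K` of which the antiderivative is
simply branched. -/
noncomputable def N (K : Type) [Field K] (n : ℕ) : ℕ :=
  {f : K[X] | f.Monic ∧ f.natDegree = n ∧ Simply (anti f)}.ncard

/-- The characteristic is zero or larger than `n + 1`. -/
def Good (L : Type) [Field L] (n : ℕ) : Prop := ∀ i : ℕ, 1 ≤ i → i ≤ n + 1 → (i : L) ≠ 0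

/-- `E` is a block of `f`: it is monic of degree at least 2 with simple roots, and its roots are the
roots of `f` at which the antiderivative takes a certain value. -/
def Block {L : Type} [Field L] (f E : L[X]) : Prop :=
  E.Monic ∧ 2 ≤ E.natDegree ∧ Squarefree E ∧
    ∃ v : L, ∀ x : L, E.IsRoot x ↔ f.IsRoot x ∧ (anti f).eval x = v

/-- Extension of scalars to the algebraic closure. -/
noncomputable def up {K : Type} [Field K] (f : K[X]) : (AlgebraicClosure K)[X] :=
  f.map (algebraMap K (AlgebraicClosure K))

/-- Squarefree monic polynomials of degree `n`. -/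
def Sq (K : Type) [Field K] (n : ℕ) : Set K[X] := {f | f.Monic ∧ f.natDegree = n ∧ Squarefree f}

/-- Pairs (polynomial, block of it), both over `K`. -/
def PP (K : Type) [Field K] (n : ℕ) : Set (K[X] × K[X]) :=
  {x | x.1 ∈ Sq K n ∧ Block (up x.1) (up x.2)}

/-- Squarefree monic polynomials with two different blocks over the algebraic closure. -/
def TT (K : Type) [Field K] (n : ℕ) : Set K[X] :=
  {f | f ∈ Sq K n ∧ ∃ E E' : (AlgebraicClosure K)[X], Block (up f) E ∧ Block (up f) E' ∧ E ≠ E'}

/-- Pairs (polynomial with two different blocks, block of it over `K`). -/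
def WW (K : Type) [Field K] (n : ℕ) : Set (K[X] × K[X]) :=
  {x | x.1 ∈ TT K n ∧ Block (up x.1) (up x.2)}

/-- The pairs `(E, Q)` with `deg E = j` and `(E ^ 2 Q)'` squarefree, `deg (E ^ 2 Q) = n + 1`. -/
def RQ (K : Type) [Field K] (n j : ℕ) : Set (K[X] × K[X]) :=
  {x | x.1.Monic ∧ x.1.natDegree = j ∧ x.2.Monic ∧ 2 * j + x.2.natDegree = n + 1 ∧
    Squarefree x.2 ∧ Squarefree (derivative (x.1 ^ 2 * x.2))}

/-- The number of cube roots of 2. -/
noncomputable def c3 (K : Type) [Field K] : ℕ := {x : K | x ^ 3 = 2}.ncard

/-- `1 + χ(-1)`: the number of square roots of `-1`. -/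
noncomputable def c2 (K : Type) [Field K] : ℕ := {x : K | x ^ 2 = -1}.ncard

end SBr
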