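import Pool.Agent.H.MP_cc3311_ag.A2

/-!
# MP_cc3311_ag, E0: descent of parametrised families along Frobenius
-/

set_option autoImplicit false

namespace SBr

open Polynomial

/-- Abstract descent.
PROOF. If `x ∈ S` and `F x = u y` then `F (φ x) = ψ (F x) = ψ (u y) = u y = F x`, so `φ x = x` and
`x = ι k`. Conversely for `ι k ∈ S`: `ψ (F (ι k)) = F (φ (ι k)) = F (ι k)`, so `F (ι k) = u y`. This is a
bijection (`Set.ncard_congr`). -/
theorem descent {P PK Y YK : Type} (φ : P → P) (ι : PK → P) (ψ : Y → Y) (u : YK → Y)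
    (hι : Function.Injective ι) (h1 : ∀ x, φ x = x → ∃ k, ι k = x) (h1' : ∀ k, φ (ι k) = ι k)
    (hu : Function.Injective u) (h2 : ∀ y, ψ y = y → ∃ k, u k = y) (h2' : ∀ k, ψ (u k) = u k)
    (S : Set P) (F : P → Y) (hS : ∀ x ∈ S, φ x ∈ S) (hF : Set.InjOn F S)
    (he : ∀ x ∈ S, F (φ x) = ψ (F x)) :
    {y : YK | ∃ x ∈ S, F x = u y}.ncard = {k : PK | ι k ∈ S}.ncard := by
  have hfix : ∀ k, ι k ∈ S → ψ (F (ι k)) = F (ι k) := by
    intro k hk
    rw [← he _ hk, h1']
  symm
  refine Set.ncard_congr (fun k hk => Classical.choose (h2 (F (ι k)) (hfix k hk))) ?_ ?_ ?_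
  · intro k hk
    exact ⟨ι k, hk, (Classical.choose_spec (h2 (F (ι k)) (hfix k hk))).symm⟩
  · intro k k' hk hk' h
    have e1 := Classical.choose_spec (h2 (F (ι k)) (hfix k hk))
    have e2 := Classical.choose_spec (h2 (F (ι k')) (hfix k' hk'))
    have e3 : F (ι k) = F (ι k') := by
      rw [← e1, ← e2]
      exact congrArg u h
    exact hι (hF hk hk' e3)
  · rintro y ⟨x, hx, hxy⟩
    have e1 : φ x = x := by
      refine hF (hS x hx) hx ?_
      rw [he x hx, hxy, h2']
    obtain ⟨k, rfl⟩ := h1 x e1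
    refine ⟨k, hx, hu ?_⟩
    rw [← hxy]
    exact Classical.choose_spec (h2 (F (ι k)) (hfix k hx))

variable {K : Type} [Field K] [Fintype K]

/-- Two parameters, pairs of polynomials. -/
theorem descent22 (S : Set (AlgebraicClosure K × AlgebraicClosure K))
    (F : AlgebraicClosure K × AlgebraicClosure K →
      (AlgebraicClosure K)[X] × (AlgebraicClosure K)[X])
    (hS : ∀ x ∈ S, (frob K x.1, frob K x.2) ∈ S) (hF : Set.InjOn F S)
    (he : ∀ x ∈ S, F (frob K x.1, frob K x.2) =
      ((F x).1.map (frob K), (F x).2.map (frob K))) :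
    {y : K[X] × K[X] | ∃ x ∈ S, F x = (up y.1, up y.2)}.ncard =
      {k : K × K | (algebraMap K (AlgebraicClosure K) k.1,
        algebraMap K (AlgebraicClosure K) k.2) ∈ S}.ncard := by
  exact descent
    (fun x : AlgebraicClosure K × AlgebraicClosure K => (frob K x.1, frob K x.2))
    (fun k : K × K => (algebraMap K (AlgebraicClosure K) k.1, algebraMap K (AlgebraicClosure K) k.2))
    (fun y : (AlgebraicClosure K)[X] × (AlgebraicClosure K)[X] => (y.1.map (frob K), y.2.map (frob K)))
    (fun y : K[X] × K[X] => (up y.1, up y.2))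
    (by
      rintro ⟨a, b⟩ ⟨a', b'⟩ h
      rw [Prod.mk.injEq] at h
      exact Prod.ext ((algebraMap K (AlgebraicClosure K)).injective h.1)
        ((algebraMap K (AlgebraicClosure K)).injective h.2))
    (by
      rintro ⟨a, b⟩ h
      rw [Prod.mk.injEq] at h
      obtain ⟨a', ha⟩ := mem_of_frob h.1
      obtain ⟨b', hb⟩ := mem_of_frob h.2
      exact ⟨(a', b'), by rw [ha, hb]⟩)
    (by
      rintro ⟨a, b⟩
      rw [frob_algebraMap, frob_algebraMap])
    (by
      rintro ⟨a, b⟩ ⟨a', b'⟩ h
      rw [Prod.mk.injEq] at h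
      exact Prod.ext (up_injective h.1) (up_injective h.2))
    (by
      rintro ⟨a, b⟩ h
      rw [Prod.mk.injEq] at h
      obtain ⟨a', ha⟩ := up_of_map_frob h.1
      obtain ⟨b', hb⟩ := up_of_map_frob h.2
      exact ⟨(a', b'), by rw [ha, hb]⟩)
    (by
      rintro ⟨a, b⟩
      rw [map_frob_up, map_frob_up])
    S F hS hF he

/-- Two parameters, one polynomial. -/
theorem descent21 (S : Set (AlgebraicClosure K × AlgebraicClosure K))
    (F : AlgebraicClosure K × AlgebraicClosure K → (AlgebraicClosure K)[X])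
    (hS : ∀ x ∈ S, (frob K x.1, frob K x.2) ∈ S) (hF : Set.InjOn F S)
    (he : ∀ x ∈ S, F (frob K x.1, frob K x.2) = (F x).map (frob K)) :
    {y : K[X] | ∃ x ∈ S, F x = up y}.ncard =
      {k : K × K | (algebraMap K (AlgebraicClosure K) k.1,
        algebraMap K (AlgebraicClosure K) k.2) ∈ S}.ncard := by
  exact descent
    (fun x : AlgebraicClosure K × AlgebraicClosure K => (frob K x.1, frob K x.2))
    (fun k : K × K => (algebraMap K (AlgebraicClosure K) k.1, algebraMap K (AlgebraicClosure K) k.2))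
    (fun y : (AlgebraicClosure K)[X] => y.map (frob K))
    (fun y : K[X] => up y)
    (by
      rintro ⟨a, b⟩ ⟨a', b'⟩ h
      rw [Prod.mk.injEq] at h
      exact Prod.ext ((algebraMap K (AlgebraicClosure K)).injective h.1)
        ((algebraMap K (AlgebraicClosure K)).injective h.2))
    (by
      rintro ⟨a, b⟩ h
      rw [Prod.mk.injEq] at h
      obtain ⟨a', ha⟩ := mem_of_frob h.1
      obtain ⟨b', hb⟩ := mem_of_frob h.2
      exact ⟨(a', b'), by rw [ha, hb]⟩)
    (by
      rintro ⟨a, b⟩
      rw [frob_algebraMap, frob_algebraMap])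
    up_injective (fun y h => up_of_map_frob h) (fun k => map_frob_up k)
    S F hS hF he

/-- Three parameters, pairs of polynomials. -/
theorem descent32 (S : Set (AlgebraicClosure K × AlgebraicClosure K × AlgebraicClosure K))
    (F : AlgebraicClosure K × AlgebraicClosure K × AlgebraicClosure K →
      (AlgebraicClosure K)[X] × (AlgebraicClosure K)[X])
    (hS : ∀ x ∈ S, (frob K x.1, frob K x.2.1, frob K x.2.2) ∈ S) (hF : Set.InjOn F S)
    (he : ∀ x ∈ S, F (frob K x.1, frob K x.2.1, frob K x.2.2) =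
      ((F x).1.map (frob K), (F x).2.map (frob K))) :
    {y : K[X] × K[X] | ∃ x ∈ S, F x = (up y.1, up y.2)}.ncard =
      {k : K × K × K | (algebraMap K (AlgebraicClosure K) k.1,
        algebraMap K (AlgebraicClosure K) k.2.1,
        algebraMap K (AlgebraicClosure K) k.2.2) ∈ S}.ncard := by
  exact descent
    (fun x : AlgebraicClosure K × AlgebraicClosure K × AlgebraicClosure K =>
      (frob K x.1, frob K x.2.1, frob K x.2.2))
    (fun k : K × K × K => (algebraMap K (AlgebraicClosure K) k.1,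
      algebraMap K (AlgebraicClosure K) k.2.1, algebraMap K (AlgebraicClosure K) k.2.2))
    (fun y : (AlgebraicClosure K)[X] × (AlgebraicClosure K)[X] => (y.1.map (frob K), y.2.map (frob K)))
    (fun y : K[X] × K[X] => (up y.1, up y.2))
    (by
      rintro ⟨a, b, c⟩ ⟨a', b', c'⟩ h
      rw [Prod.mk.injEq, Prod.mk.injEq] at h
      exact Prod.ext ((algebraMap K (AlgebraicClosure K)).injective h.1)
        (Prod.ext ((algebraMap K (AlgebraicClosure K)).injective h.2.1)
          ((algebraMap K (AlgebraicClosure K)).injective h.2.2)))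
    (by
      rintro ⟨a, b, c⟩ h
      rw [Prod.mk.injEq, Prod.mk.injEq] at h
      obtain ⟨a', ha⟩ := mem_of_frob h.1
      obtain ⟨b', hb⟩ := mem_of_frob h.2.1
      obtain ⟨c', hc⟩ := mem_of_frob h.2.2
      exact ⟨(a', b', c'), by rw [ha, hb, hc]⟩)
    (by
      rintro ⟨a, b, c⟩
      rw [frob_algebraMap, frob_algebraMap, frob_algebraMap])
    (by
      rintro ⟨a, b⟩ ⟨a', b'⟩ h
      rw [Prod.mk.injEq] at h
      exact Prod.ext (up_injective h.1) (up_injective h.2))
    (by
      rintro ⟨a, b⟩ h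
      rw [Prod.mk.injEq] at h
      obtain ⟨a', ha⟩ := up_of_map_frob h.1
      obtain ⟨b', hb⟩ := up_of_map_frob h.2
      exact ⟨(a', b'), by rw [ha, hb]⟩)
    (by
      rintro ⟨a, b⟩
      rw [map_frob_up, map_frob_up])
    S F hS hF he

/-- Three parameters, one polynomial. -/
theorem descent31 (S : Set (AlgebraicClosure K × AlgebraicClosure K × AlgebraicClosure K))
    (F : AlgebraicClosure K × AlgebraicClosure K × AlgebraicClosure K → (AlgebraicClosure K)[X])
    (hS : ∀ x ∈ S, (frob K x.1, frob K x.2.1, frob K x.2.2) ∈ S) (hF : Set.InjOn F S)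
    (he : ∀ x ∈ S, F (frob K x.1, frob K x.2.1, frob K x.2.2) = (F x).map (frob K)) :
    {y : K[X] | ∃ x ∈ S, F x = up y}.ncard =
      {k : K × K × K | (algebraMap K (AlgebraicClosure K) k.1,
        algebraMap K (AlgebraicClosure K) k.2.1,
        algebraMap K (AlgebraicClosure K) k.2.2) ∈ S}.ncard := by
  exact descent
    (fun x : AlgebraicClosure K × AlgebraicClosure K × AlgebraicClosure K =>
      (frob K x.1, frob K x.2.1, frob K x.2.2))
    (fun k : K × K × K => (algebraMap K (AlgebraicClosure K) k.1,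
      algebraMap K (AlgebraicClosure K) k.2.1, algebraMap K (AlgebraicClosure K) k.2.2))
    (fun y : (AlgebraicClosure K)[X] => y.map (frob K))
    (fun y : K[X] => up y)
    (by
      rintro ⟨a, b, c⟩ ⟨a', b', c'⟩ h
      rw [Prod.mk.injEq, Prod.mk.injEq] at h
      exact Prod.ext ((algebraMap K (AlgebraicClosure K)).injective h.1)
        (Prod.ext ((algebraMap K (AlgebraicClosure K)).injective h.2.1)
          ((algebraMap K (AlgebraicClosure K)).injective h.2.2)))
    (by
      rintro ⟨a, b, c⟩ h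
      rw [Prod.mk.injEq, Prod.mk.injEq] at h
      obtain ⟨a', ha⟩ := mem_of_frob h.1
      obtain ⟨b', hb⟩ := mem_of_frob h.2.1
      obtain ⟨c', hc⟩ := mem_of_frob h.2.2
      exact ⟨(a', b', c'), by rw [ha, hb, hc]⟩)
    (by
      rintro ⟨a, b, c⟩
      rw [frob_algebraMap, frob_algebraMap, frob_algebraMap])
    up_injective (fun y h => up_of_map_frob h) (fun k => map_frob_up k)
    S F hS hF he

end SBr
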