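import Pool.Agent.H.MP_cc3311_ag.E1b

/-!
# MP_cc3311_ag, E1: two blocks in degree 4, classification
-/

set_option autoImplicit false

namespace SBr

open Polynomial

variable {L : Type} [Field L] [IsAlgClosed L]

theorem E1_key (hG : Good L 4) {f : L[X]} {m H n K : L} (hf : f.Monic) (hd : f.natDegree = 4)
    (hs : Squarefree f) (h : Block f (qd m H)) (he : f = qd m H * qd n K) :
    -H = 5 * ((m - n) ^ 2 - K) := by
  obtain ⟨Q, hQm, hQd, _, hder⟩ := h.exists_Q hG hf hd hs
  rw [qd_natDegree] at hQd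
  have hQ1 : Q.natDegree = 1 := by omega
  obtain ⟨r, hr⟩ : ∃ r : L, Q = X - C r := by
    refine ⟨-Q.coeff 0, ?_⟩
    have h1 := hQm.eq_X_add_C hQ1
    rw [C_neg, sub_neg_eq_add]
    exact h1
  have h0 : qd m H ≠ 0 := (qd_monic m H).ne_zero
  have h1 : qd m H * (C 4 * (X - C m) * (X - C r) + qd m H) = qd m H * (C 5 * qd n K) := by
    have e1 : derivative (qd m H ^ 2 * Q) =
        qd m H * (C 4 * (X - C m) * (X - C r) + qd m H) := by
      have e2 : derivative (qd m H) = C 2 * (X - C m) := by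
        unfold qd
        rw [derivative_sub, derivative_C, sub_zero, derivative_X_sub_C_pow]
        norm_num
      have e3 : (C (4 : L) : L[X]) = 4 := map_ofNat (C : L →+* L[X]) 4
      have e4 : (C (2 : L) : L[X]) = 2 := map_ofNat (C : L →+* L[X]) 2
      rw [derivative_mul, derivative_pow, e2, hr, derivative_X_sub_C, e3, e4]
      push_cast
      simp only [pow_one, map_ofNat]
      ring
    rw [← e1, hder, he]
    have e6 : (C (((4 : ℕ) : L) + 1) : L[X]) = C 5 := by
      norm_num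
    rw [e6]
    ring
  have h2 := mul_left_cancel₀ h0 h1
  have h3 := congrArg (eval m) h2
  unfold qd at h3
  simp only [eval_add, eval_sub, eval_mul, eval_pow, eval_X, eval_C] at h3
  linear_combination h3

/-- CLASSIFICATION.
PROOF. `Block.add_le` gives `deg E = deg E' = 2`, so `f = E * E'` (coprime divisors, monic, same
degree), `E = qd m H`, `E' = qd n K` (`exists_qd`). `Block.exists_Q`: `E ^ 2 Q` with `Q = X - C r` has
derivative `5 f = 5 E E'`, cancel `E`: `4 (X - m) (X - r) + (X - m) ^ 2 - H = 5 ((X - n) ^ 2 - K)`.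
Comparing coefficients (evaluate at `m`, `m + 1`, `m - 1`) with `y = X - m`, `δ = n - m`, `r = m + ρ`:
`-4 ρ = -10 δ` and `- H = 5 δ ^ 2 - 5 K`. Symmetrically `- K = 5 δ ^ 2 - 5 H`. So `6 (H - K) = 0`,
`H = K`, `4 H = 5 δ ^ 2`. Put `d = - δ / 2`, `b = (m + n) / 2`: then `m = b + d`, `n = b - d`,
`H = 5 d ^ 2`, and `d ≠ 0` because `E` is squarefree. -/
theorem cls4 (hG : Good L 4) {f E E' : L[X]} (hf : f.Monic) (hd : f.natDegree = 4)
    (hs : Squarefree f) (h : Block f E) (h' : Block f E') (hne : E ≠ E') :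
    ∃ b d : L, d ≠ 0 ∧ f = fD b d ∧ E = qd (b + d) (5 * d ^ 2) ∧ E' = qd (b - d) (5 * d ^ 2) := by
  have h2 : (2 : L) ≠ 0 := by simpa using hG 2 (by norm_num) (by norm_num)
  have h3 : (3 : L) ≠ 0 := by simpa using hG 3 (by norm_num) (by norm_num)
  have h4 : (4 : L) ≠ 0 := by
    have e : (4 : L) = 2 * 2 := by norm_num
    rw [e]
    exact mul_ne_zero h2 h2
  have h6 : (6 : L) ≠ 0 := by
    have e : (6 : L) = 2 * 3 := by norm_num
    rw [e]
    exact mul_ne_zero h2 h3
  have hle := Block.add_le hf.ne_zero h h' hne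
  have hE2 := h.2.1
  have hE2' := h'.2.1
  have hdE : E.natDegree = 2 := by omega
  have hdE' : E'.natDegree = 2 := by omega
  have hco := h.isCoprime h' hne
  have hdvd : E * E' ∣ f := hco.mul_dvd h.dvd h'.dvd
  have hprod : f = E * E' := by
    refine (Polynomial.eq_of_monic_of_dvd_of_natDegree_le (h.1.mul h'.1) hf hdvd ?_)
    rw [h.1.natDegree_mul h'.1]
    omega
  obtain ⟨m, H, rfl⟩ := exists_qd h2 h.1 hdE
  obtain ⟨n, K, rfl⟩ := exists_qd h2 h'.1 hdE'
  have k1 := E1_key hG hf hd hs h hprod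
  have k2 := E1_key hG hf hd hs h' (by rw [hprod, mul_comm])
  have hHK : H = K := by
    have e1 : 6 * (H - K) = 0 := by linear_combination k2 - k1
    rcases mul_eq_zero.1 e1 with h5 | h5
    · exact absurd h5 h6
    · exact sub_eq_zero.1 h5
  subst hHK
  obtain ⟨d, hd'⟩ : ∃ d : L, 2 * d = m - n := ⟨(m - n) / 2, by field_simp⟩
  obtain ⟨b, hb⟩ : ∃ b : L, b = m - d := ⟨_, rfl⟩
  have hm : m = b + d := by rw [hb]; ring
  have hn : n = b - d := by rw [hb]; linear_combination hd'
  have hH : H = 5 * d ^ 2 := by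
    have e1 : 4 * (H - 5 * d ^ 2) = 0 := by
      have e2 : (m - n) ^ 2 = 4 * d ^ 2 := by rw [← hd']; ring
      rw [e2] at k1
      linear_combination k1
    rcases mul_eq_zero.1 e1 with h5 | h5
    · exact absurd h5 h4
    · exact sub_eq_zero.1 h5
  subst hH
  subst hm
  subst hn
  refine ⟨b, d, ?_, hprod, rfl, rfl⟩
  intro hd0
  have e3 := (sqfree_qd h2 _ _).1 h.2.2.1
  apply e3
  rw [hd0]
  ring

end SBr
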