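import Pool.Agent.H.MP_cc3311_ag.C0
import Pool.Agent.H.MP_cc3311_ag.B2

/-!
# MP_cc3311_ag, E1a: the polynomials of degree 4 with two blocks
-/

set_option autoImplicit false

namespace SBr

open Polynomial

variable {L : Type} [Field L]

/-- The polynomials of degree 4 with two blocks. -/
noncomputable def fD (b d : L) : L[X] := qd (b + d) (5 * d ^ 2) * qd (b - d) (5 * d ^ 2)

/-- The same with `a = 4 d ^ 2`. -/
noncomputable def gD (b a : L) : L[X] :=
  (X - C b) ^ 4 - C (3 * a) * (X - C b) ^ 2 + C (a ^ 2)

theorem fD_eq (b d : L) : fD b d = gD b (4 * d ^ 2) := by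
  unfold fD gD qd
  simp only [map_add, map_sub, map_mul, map_pow, map_ofNat]
  ring

theorem fD_monic (b d : L) : (fD b d).Monic := (qd_monic _ _).mul (qd_monic _ _)

theorem fD_natDegree (b d : L) : (fD b d).natDegree = 4 := by
  unfold fD
  rw [(qd_monic _ _).natDegree_mul (qd_monic _ _), qd_natDegree, qd_natDegree]

theorem gD_map {M : Type} [Field M] (σ : L →+* M) (b a : L) :
    (gD b a).map σ = gD (σ b) (σ a) := by
  unfold gD
  simp only [Polynomial.map_add, Polynomial.map_sub, Polynomial.map_mul, Polynomial.map_pow,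
    Polynomial.map_ofNat, map_X, map_C, map_mul, map_pow, map_ofNat]

theorem qd_map {M : Type} [Field M] (σ : L →+* M) (b a : L) :
    (qd b a).map σ = qd (σ b) (σ a) := by
  unfold qd
  simp

theorem E1a_d2 (b a x : L) :
    (derivative (derivative (gD b a))).eval x = 12 * (x - b) ^ 2 - 6 * a := by
  unfold gD
  simp only [derivative_add, derivative_sub, derivative_mul, derivative_C, zero_mul, zero_add,
    add_zero, derivative_X_sub_C_pow, eval_sub, eval_mul, eval_pow, eval_X, eval_C,
    Nat.cast_ofNat]
  norm_num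
  ring

theorem E1a_d3 (b a x : L) :
    (derivative (derivative (derivative (gD b a)))).eval x = 24 * (x - b) := by
  unfold gD
  simp only [derivative_add, derivative_sub, derivative_mul, derivative_C, zero_mul, zero_add,
    add_zero, derivative_X_sub_C_pow, eval_sub, eval_mul, eval_pow, eval_X, eval_C,
    Nat.cast_ofNat]
  norm_num
  ring

/-- Compare the coefficients of `X ^ 3` (`- 4 b`) and, after cancelling `(X - b) ^ 4`, the rest. -/
theorem gD_inj (hG : Good L 4) {b a b' a' : L} (h : gD b a = gD b' a') : b = b' ∧ a = a' := by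
  have h2 : (2 : L) ≠ 0 := by simpa using hG 2 (by norm_num) (by norm_num)
  have h3 : (3 : L) ≠ 0 := by simpa using hG 3 (by norm_num) (by norm_num)
  have h24 : (24 : L) ≠ 0 := by
    have e : (24 : L) = 2 * 2 * 2 * 3 := by norm_num
    rw [e]
    exact mul_ne_zero (mul_ne_zero (mul_ne_zero h2 h2) h2) h3
  have h6 : (6 : L) ≠ 0 := by
    have e : (6 : L) = 2 * 3 := by norm_num
    rw [e]
    exact mul_ne_zero h2 h3
  have e3 := congrArg (fun f : L[X] => (derivative (derivative (derivative f))).eval b) h
  simp only [E1a_d3, sub_self, mul_zero] at e3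
  have hb : b = b' := by
    rcases mul_eq_zero.1 e3.symm with h4 | h4
    · exact absurd h4 h24
    · exact sub_eq_zero.1 h4
  subst hb
  have e2 := congrArg (fun f : L[X] => (derivative (derivative f)).eval b) h
  simp only [E1a_d2, sub_self] at e2
  refine ⟨rfl, ?_⟩
  have e4 : (6 : L) * (a - a') = 0 := by linear_combination -e2
  rcases mul_eq_zero.1 e4 with h4 | h4
  · exact absurd h4 h6
  · exact sub_eq_zero.1 h4

end SBr
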