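import Pool.Agent.H.MP_cc3311_ag.E1a

/-!
# MP_cc3311_ag, E1b: degree 4, the blocks
-/

set_option autoImplicit false

namespace SBr

open Polynomial

variable {L : Type} [Field L] [IsAlgClosed L]

omit [IsAlgClosed L] in
theorem E1b_two (hG : Good L 4) : (2 : L) ≠ 0 := by
  have := hG 2 (by norm_num) (by norm_num)
  exact_mod_cast this

omit [IsAlgClosed L] in
theorem E1b_five (hG : Good L 4) : (5 : L) ≠ 0 := by
  have := hG 5 (by norm_num) (by norm_num)
  exact_mod_cast this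

omit [IsAlgClosed L] in
theorem E1b_coprime (hG : Good L 4) {b d : L} (hd : d ≠ 0) :
    IsCoprime (qd (b + d) (5 * d ^ 2)) (qd (b - d) (5 * d ^ 2)) := by
  have h2 := E1b_two hG
  have hne : 16 * d ^ 3 ≠ 0 := by
    have e : (16 : L) = 2 * 2 * 2 * 2 := by norm_num
    rw [e]
    exact mul_ne_zero (mul_ne_zero (mul_ne_zero (mul_ne_zero h2 h2) h2) h2) (pow_ne_zero 3 hd)
  refine ⟨C (1 / (16 * d ^ 3)) * -(X - C b + C (2 * d)), C (1 / (16 * d ^ 3)) * (X - C b - C (2 * d)), ?_⟩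
  have h1 : C (1 / (16 * d ^ 3)) * -(X - C b + C (2 * d)) * qd (b + d) (5 * d ^ 2) +
      C (1 / (16 * d ^ 3)) * (X - C b - C (2 * d)) * qd (b - d) (5 * d ^ 2) =
      C (1 / (16 * d ^ 3) * (16 * d ^ 3)) := by
    rw [qd, qd]
    generalize 1 / (16 * d ^ 3) = c
    simp only [C_mul, C_add, C_sub, C_pow, map_ofNat]
    ring
  rw [h1, one_div, inv_mul_cancel₀ hne, C_1]

/-- The factors are squarefree and coprime: a common root `x` has `x - b = 0`
(subtract: `4 d (x - b) = 0`) and then `d ^ 2 = 5 d ^ 2`, `4 d ^ 2 = 0`. -/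
theorem fD_squarefree (hG : Good L 4) {b d : L} (hd : d ≠ 0) : Squarefree (fD b d) := by
  have h2 := E1b_two hG
  have h5 := E1b_five hG
  have h : 5 * d ^ 2 ≠ 0 := mul_ne_zero h5 (pow_ne_zero 2 hd)
  rw [fD, squarefree_mul_iff]
  exact ⟨(E1b_coprime hG hd).isRelPrime, (sqfree_qd h2 _ _).2 h, (sqfree_qd h2 _ _).2 h⟩

/-- `block_of_Q` with `E = qd (b + d) (5 d ^ 2)`, `Q = X - (b - 4 d)`: with `t = X - b`,
`E = t ^ 2 - 2 d t - 4 d ^ 2` and `(E ^ 2 (t + 4 d))' = E (4 (t - d) (t + 4 d) + E) =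
E (5 t ^ 2 + 10 d t - 20 d ^ 2) = 5 E (t ^ 2 + 2 d t - 4 d ^ 2)`. -/
theorem fD_block (hG : Good L 4) {b d : L} (hd : d ≠ 0) :
    Block (fD b d) (qd (b + d) (5 * d ^ 2)) := by
  refine block_of_Q (Q := X - C (b - 4 * d)) hG (fD_squarefree hG hd) (qd_monic _ _)
    (by rw [qd_natDegree]) (monic_X_sub_C _) (by rw [qd_natDegree, natDegree_X_sub_C])
    (irreducible_X_sub_C _).squarefree ?_
  have h9 : (C (((4 : ℕ) : L) + 1) : L[X]) = 5 := by
    have : (((4 : ℕ) : L) + 1) = ((5 : ℕ) : L) := by norm_num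
    rw [this, C_eq_natCast]
    norm_num
  rw [h9, fD, qd, qd]
  simp only [derivative_mul, derivative_pow, derivative_sub, derivative_X, derivative_C,
    Nat.cast_ofNat, map_ofNat, C_mul, C_add, C_sub, C_pow]
  norm_num
  ring

/-- Replace `d` by `-d` in `fD_block`. -/
theorem fD_block' (hG : Good L 4) {b d : L} (hd : d ≠ 0) :
    Block (fD b d) (qd (b - d) (5 * d ^ 2)) := by
  have h := fD_block hG (b := b) (d := -d) (neg_ne_zero.2 hd)
  have e : fD b (-d) = fD b d := by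
    rw [fD, fD, mul_comm]
    congr 2 <;> ring
  rw [e] at h
  have e2 : b + -d = b - d := by ring
  have e3 : 5 * (-d) ^ 2 = 5 * d ^ 2 := by ring
  rwa [e2, e3] at h

/-- Injectivity for the pairs. Proof: `gD_inj` gives `b = b'`, then `qd_inj`. -/
theorem fD_inj (hG : Good L 4) {b d b' d' : L} (h : fD b d = fD b' d')
    (h' : qd (b + d) (5 * d ^ 2) = qd (b' + d') (5 * d' ^ 2)) : b = b' ∧ d = d' := by
  rw [fD_eq, fD_eq] at h
  have hb := (gD_inj hG h).1
  have h1 := (qd_inj (E1b_two hG) h').1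
  refine ⟨hb, ?_⟩
  rw [hb] at h1
  exact add_left_cancel h1

/-- The two blocks are different. -/
theorem fD_ne (hG : Good L 4) {b d : L} (hd : d ≠ 0) :
    qd (b + d) (5 * d ^ 2) ≠ qd (b - d) (5 * d ^ 2) := by
  intro h
  have h2 := E1b_two hG
  have h1 := (qd_inj h2 h).1
  have h3 : 2 * d = 0 := by linear_combination h1
  rcases mul_eq_zero.1 h3 with h4 | h4
  · exact h2 h4
  · exact hd h4

/-- In degree at most 3 there are no two blocks. Proof: `Block.add_le`. -/
theorem no_two {n : ℕ} (hn : n ≤ 3) {f E E' : L[X]} (hf : f.Monic) (hd : f.natDegree = n)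
    (h : Block f E) (h' : Block f E') : E = E' := by
  by_contra hne
  have h1 := Block.add_le hf.ne_zero h h' hne
  have h2 := h.2.1
  have h3 := h'.2.1
  omega

end SBr
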