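import Pool.Agent.H.MP_cc3311_ag.E0
import Pool.Agent.H.MP_cc3311_ag.E1

/-!
# MP_cc3311_ag, E3: the numbers `|TT|`, `|WW|` for `n ≤ 4`
-/

set_option autoImplicit false

namespace SBr

open Polynomial

variable (K : Type) [Field K] [Fintype K]

/-- Proof: `no_two`. -/
theorem TT_small {n : ℕ} (hn : n ≤ 3) : TT K n = ∅ := by
  rw [Set.eq_empty_iff_forall_notMem]
  rintro f ⟨⟨hm, hd, _⟩, E, E', hE, hE', hne⟩
  exact hne (no_two hn (up_monic.2 hm) (by rw [up_natDegree]; exact hd) hE hE')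

theorem WW_small {n : ℕ} (hn : n ≤ 3) : WW K n = ∅ := by
  rw [Set.eq_empty_iff_forall_notMem]
  rintro x ⟨hx, _⟩
  rw [TT_small K hn] at hx
  exact hx

/-- The number of `(b, a)` with `a ≠ 0`. -/
theorem pair_card : ({x : K × K | x.2 ≠ 0}.ncard : ℤ) =
    (Fintype.card K : ℤ) * (Fintype.card K - 1) := by
  classical
  have h : {x : K × K | x.2 ≠ 0} = (Set.univ : Set K) ×ˢ ({0}ᶜ : Set K) := by
    ext ⟨a, b⟩
    simp
  rw [h, Set.ncard_prod, Set.ncard_univ, Nat.card_eq_fintype_card]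
  have h2 : (({0}ᶜ : Set K).ncard : ℤ) = Fintype.card K - 1 := by
    have h3 := Set.ncard_add_ncard_compl ({0} : Set K)
    rw [Set.ncard_singleton, Nat.card_eq_fintype_card] at h3
    omega
  push_cast
  rw [h2]

/-- Proof: `cls4`, `fD_block`, `fD_block'`, `fD_monic`, ..., `up_monic`, `up_natDegree`,
`up_squarefree`. -/
theorem WW4_eq (hG : Good K 4) : WW K 4 = {y : K[X] × K[X] |
    ∃ x ∈ {x : AlgebraicClosure K × AlgebraicClosure K | x.2 ≠ 0},
      (fD x.1 x.2, qd (x.1 + x.2) (5 * x.2 ^ 2)) = (up y.1, up y.2)} := by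
  have hG' : Good (AlgebraicClosure K) 4 := hG.up
  ext y
  constructor
  · rintro ⟨⟨⟨hm, hd, hs⟩, E, E', hE, hE', hne⟩, hB⟩
    have key : ∃ F : (AlgebraicClosure K)[X], Block (up y.1) F ∧ up y.2 ≠ F := by
      by_cases h : up y.2 = E
      · exact ⟨E', hE', by rw [h]; exact hne⟩
      · exact ⟨E, hE, h⟩
    obtain ⟨F, hF, hneF⟩ := key
    obtain ⟨b, d, hd0, h1, h2, _⟩ := cls4 hG' (up_monic.2 hm) (by rw [up_natDegree]; exact hd)
      (up_squarefree.2 hs) hB hF hneF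
    exact ⟨(b, d), hd0, by rw [h1, h2]⟩
  · rintro ⟨⟨b, d⟩, hd0, h⟩
    have hd1 : d ≠ 0 := hd0
    rw [Prod.mk.injEq] at h
    obtain ⟨h1, h2⟩ := h
    have h1' : fD b d = up y.1 := h1
    have h2' : qd (b + d) (5 * d ^ 2) = up y.2 := h2
    have hB := fD_block hG' (b := b) hd1
    have hB' := fD_block' hG' (b := b) hd1
    have hne := fD_ne hG' (b := b) hd1
    refine ⟨⟨⟨?_, ?_, ?_⟩, qd (b + d) (5 * d ^ 2), qd (b - d) (5 * d ^ 2), ?_, ?_, hne⟩, ?_⟩
    · rw [← up_monic, ← h1']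
      exact fD_monic b d
    · rw [← up_natDegree, ← h1']
      exact fD_natDegree b d
    · rw [← up_squarefree, ← h1']
      exact fD_squarefree hG' hd1
    · rw [← h1']
      exact hB
    · rw [← h1']
      exact hB'
    · rw [← h1', ← h2']
      exact hB

omit [Fintype K] in
theorem E3_set : {k : K × K | (algebraMap K (AlgebraicClosure K) k.1,
    algebraMap K (AlgebraicClosure K) k.2) ∈
      {x : AlgebraicClosure K × AlgebraicClosure K | x.2 ≠ 0}} = {x : K × K | x.2 ≠ 0} := by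
  ext ⟨a, b⟩
  simp

theorem E3_fD_map {L M : Type} [Field L] [Field M] (σ : L →+* M) (b d : L) :
    (fD b d).map σ = fD (σ b) (σ d) := by
  have h4 : σ 4 = 4 := map_ofNat σ 4
  rw [fD_eq, fD_eq, gD_map, map_mul, map_pow, h4]

/-- Proof: `descent22` with `fD_inj`, `qd_map`. -/
theorem WW4_card (hG : Good K 4) : ((WW K 4).ncard : ℤ) =
    (Fintype.card K : ℤ) * (Fintype.card K - 1) := by
  have hG' : Good (AlgebraicClosure K) 4 := hG.up
  rw [WW4_eq K hG, descent22 _ (fun x => (fD x.1 x.2, qd (x.1 + x.2) (5 * x.2 ^ 2))) ?_ ?_ ?_,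
    E3_set, pair_card]
  · rintro ⟨a, b⟩ h
    exact (_root_.map_ne_zero _).2 h
  · rintro ⟨a, b⟩ _ ⟨a', b'⟩ _ h
    have h' := (Prod.mk.injEq _ _ _ _ ▸ h :
      fD a b = fD a' b' ∧ qd (a + b) (5 * b ^ 2) = qd (a' + b') (5 * b' ^ 2))
    obtain ⟨e1, e2⟩ := fD_inj hG' h'.1 h'.2
    exact Prod.ext e1 e2
  · rintro ⟨a, b⟩ _
    rw [Prod.mk.injEq]
    refine ⟨(E3_fD_map (frob K) a b).symm, ?_⟩
    have h5 : frob K 5 = 5 := map_ofNat (frob K) 5
    rw [qd_map, map_mul, map_pow, map_add, h5]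

/-- Proof: as `WW4_eq`; every `a` of the closure is `4 d ^ 2`. -/
theorem TT4_eq (hG : Good K 4) : TT K 4 = {y : K[X] |
    ∃ x ∈ {x : AlgebraicClosure K × AlgebraicClosure K | x.2 ≠ 0}, gD x.1 x.2 = up y} := by
  have hG' : Good (AlgebraicClosure K) 4 := hG.up
  have h2 : (2 : AlgebraicClosure K) ≠ 0 := E1b_two hG'
  have h4 : (4 : AlgebraicClosure K) ≠ 0 := by
    have e : (4 : AlgebraicClosure K) = 2 * 2 := by norm_num
    rw [e]
    exact mul_ne_zero h2 h2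
  ext y
  constructor
  · rintro ⟨⟨hm, hd, hs⟩, E, E', hE, hE', hne⟩
    obtain ⟨b, d, hd0, h1, _, _⟩ := cls4 hG' (up_monic.2 hm) (by rw [up_natDegree]; exact hd)
      (up_squarefree.2 hs) hE hE' hne
    exact ⟨(b, 4 * d ^ 2), mul_ne_zero h4 (pow_ne_zero 2 hd0), by rw [h1, fD_eq]⟩
  · rintro ⟨⟨b, a⟩, ha, h⟩
    have ha' : a ≠ 0 := ha
    have h' : gD b a = up y := h
    obtain ⟨d, hd⟩ := IsAlgClosed.exists_pow_nat_eq (a / 4) (n := 2) (by norm_num)
    have hda : a = 4 * d ^ 2 := by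
      rw [hd]
      field_simp
    have hd1 : d ≠ 0 := by
      rintro rfl
      apply ha'
      rw [hda]
      ring
    have h1' : fD b d = up y := by rw [fD_eq, ← hda, h']
    refine ⟨⟨?_, ?_, ?_⟩, qd (b + d) (5 * d ^ 2), qd (b - d) (5 * d ^ 2), ?_, ?_,
      fD_ne hG' (b := b) hd1⟩
    · rw [← up_monic, ← h1']
      exact fD_monic b d
    · rw [← up_natDegree, ← h1']
      exact fD_natDegree b d
    · rw [← up_squarefree, ← h1']
      exact fD_squarefree hG' hd1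
    · rw [← h1']
      exact fD_block hG' hd1
    · rw [← h1']
      exact fD_block' hG' hd1

/-- Proof: `descent21` with `gD_inj`, `gD_map`. -/
theorem TT4_card (hG : Good K 4) : ((TT K 4).ncard : ℤ) =
    (Fintype.card K : ℤ) * (Fintype.card K - 1) := by
  have hG' : Good (AlgebraicClosure K) 4 := hG.up
  rw [TT4_eq K hG, descent21 _ (fun x => gD x.1 x.2) ?_ ?_ ?_, E3_set, pair_card]
  · rintro ⟨a, b⟩ h
    exact (_root_.map_ne_zero _).2 h
  · rintro ⟨a, b⟩ _ ⟨a', b'⟩ _ h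
    obtain ⟨e1, e2⟩ := gD_inj hG' h
    exact Prod.ext e1 e2
  · rintro ⟨a, b⟩ _
    exact (gD_map (frob K) a b).symm

end SBr
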