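import Pool.Agent.H.MP_cc3311_ag.C0
import Pool.Agent.H.MP_cc3311_ag.B2

/-!
# MP_cc3311_ag, F0: the polynomials of degree 5 with two blocks: definitions, simple facts
-/

set_option autoImplicit false

namespace SBr

open Polynomial

variable {L : Type} [Field L]

noncomputable def HA (s t : L) : L := s ^ 2 * (3 - t) * (1 + t) * (1 - 2 * t) ^ 2 / 3

/-- The block of type A. -/
noncomputable def EA (l s t : L) : L[X] := qd (l + (3 - t) * s) (HA s t)

/-- The polynomial of type A. Its blocks are `EA l s t` and `EA l s (1 - t)`. -/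
noncomputable def fA (l s t : L) : L[X] := (X - C l) * EA l s t * EA l s (1 - t)

/-- The polynomial of type A as a function of `e = t (1 - t)`. -/
noncomputable def gA (l s e : L) : L[X] :=
  (X - C l) * ((X - C l) ^ 4 - C (10 * s) * (X - C l) ^ 3 +
    C (8 / 3 * (13 + 4 * e + e ^ 2) * s ^ 2) * (X - C l) ^ 2 -
    C (8 * (6 + e) * (1 + e) * s ^ 3) * (X - C l) +
    C (16 / 9 * (6 + e) * (e ^ 3 + 6 * e + 2) * s ^ 4))

/-- The polynomial of type B. Its blocks are `qd l H` and `qd l K`. -/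
noncomputable def fB (l H K : L) : L[X] := (X - C l) * qd l H * qd l K

/-- The polynomial of type B as a function of `s = H + K`, `p = H K`. -/
noncomputable def gB (l s p : L) : L[X] :=
  (X - C l) * ((X - C l) ^ 4 - C s * (X - C l) ^ 2 + C p)

/-- The blocks of the third type. -/
noncomputable def R32 (b c : L) : L[X] := (X - C b) ^ 3 + C c * (X - C b)

noncomputable def S32 (b c : L) : L[X] := qd b (-c / 3)

/-- The polynomial of the third type. -/
noncomputable def f32 (b c : L) : L[X] := R32 b c * S32 b c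

def okA (t : L) : Prop := t ≠ 3 ∧ t ≠ -2 ∧ 2 * t ≠ 1 ∧ t ≠ -1 ∧ t ≠ 2 ∧ t ≠ 0 ∧ t ≠ 1 ∧
  t ^ 3 ≠ 2 ∧ (1 - t) ^ 3 ≠ 2

def okE (e : L) : Prop := e ≠ -6 ∧ 4 * e ≠ 1 ∧ e ≠ -2 ∧ e ≠ 0 ∧ e ^ 3 + 6 * e + 2 ≠ 0

def okB (H K : L) : Prop := H ≠ 0 ∧ K ≠ 0 ∧ H ≠ K ∧ H ≠ 3 * K ∧ K ≠ 3 * H

def okS (s p : L) : Prop := p ≠ 0 ∧ s ^ 2 ≠ 4 * p ∧ 3 * s ^ 2 ≠ 16 * p

theorem okA_symm {t : L} (h : okA t) : okA (1 - t) := by
  obtain ⟨h1, h2, h3, h4, h5, h6, h7, h8, h9⟩ := h
  refine ⟨fun h => h2 ?_, fun h => h1 ?_, fun h => h3 ?_, fun h => h5 ?_, fun h => h4 ?_,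
    fun h => h7 ?_, fun h => h6 ?_, h9, ?_⟩
  · linear_combination -h
  · linear_combination -h
  · linear_combination -h
  · linear_combination -h
  · linear_combination -h
  · linear_combination -h
  · linear_combination -h
  · rw [sub_sub_cancel]; exact h8

theorem okB_symm {H K : L} (h : okB H K) : okB K H := by
  obtain ⟨h1, h2, h3, h4, h5⟩ := h
  exact ⟨h2, h1, h3.symm, h5, h4⟩

/-- `(t - 3) (t + 2) = - (e + 6)`, `(2 t - 1) ^ 2 = 1 - 4 e`, `(t + 1) (t - 2) = - (e + 2)`,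
`(2 - t ^ 3) (2 - (1 - t) ^ 3) = e ^ 3 + 6 e + 2` for `e = t (1 - t)`. -/
theorem okA_iff (t : L) : okA t ↔ okE (t * (1 - t)) := by
  unfold okA okE
  have e1 : t * (1 - t) = -6 ↔ t = 3 ∨ t = -2 := by
    constructor
    · intro h
      have : (t - 3) * (t + 2) = 0 := by linear_combination -h
      rcases mul_eq_zero.1 this with h | h
      · left; linear_combination h
      · right; linear_combination h
    · rintro (h | h) <;> rw [h] <;> ring
  have e2 : 4 * (t * (1 - t)) = 1 ↔ 2 * t = 1 := by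
    constructor
    · intro h
      have : (2 * t - 1) ^ 2 = 0 := by linear_combination -h
      have := pow_eq_zero_iff (two_ne_zero) |>.1 this
      linear_combination this
    · intro h
      linear_combination (-(2 * t) + 1) * h
  have e3 : t * (1 - t) = -2 ↔ t = -1 ∨ t = 2 := by
    constructor
    · intro h
      have : (t + 1) * (t - 2) = 0 := by linear_combination -h
      rcases mul_eq_zero.1 this with h | h
      · left; linear_combination h
      · right; linear_combination h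
    · rintro (h | h) <;> rw [h] <;> ring
  have e4 : t * (1 - t) = 0 ↔ t = 0 ∨ t = 1 := by
    rw [mul_eq_zero, sub_eq_zero]
    constructor
    · rintro (h | h)
      · exact Or.inl h
      · exact Or.inr h.symm
    · rintro (h | h)
      · exact Or.inl h
      · exact Or.inr h.symm
  have e5 : (t * (1 - t)) ^ 3 + 6 * (t * (1 - t)) + 2 = 0 ↔ t ^ 3 = 2 ∨ (1 - t) ^ 3 = 2 := by
    have : (t * (1 - t)) ^ 3 + 6 * (t * (1 - t)) + 2 = (t ^ 3 - 2) * ((1 - t) ^ 3 - 2) := by ring
    rw [this, mul_eq_zero, sub_eq_zero, sub_eq_zero]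
  simp only [ne_eq, e1, e2, e3, e4, e5, not_or]
  constructor
  · rintro ⟨h1, h2, h3, h4, h5, h6, h7, h8, h9⟩
    exact ⟨⟨h1, h2⟩, h3, ⟨h4, h5⟩, ⟨h6, h7⟩, h8, h9⟩
  · rintro ⟨⟨h1, h2⟩, h3, ⟨h4, h5⟩, ⟨h6, h7⟩, h8, h9⟩
    exact ⟨h1, h2, h3, h4, h5, h6, h7, h8, h9⟩

/-- `(H - 3 K) (K - 3 H) = 16 H K - 3 (H + K) ^ 2`. -/
theorem okB_iff (H K : L) : okB H K ↔ okS (H + K) (H * K) := by
  unfold okB okS
  have e1 : (H + K) ^ 2 = 4 * (H * K) ↔ H = K := by
    constructor
    · intro h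
      have : (H - K) ^ 2 = 0 := by linear_combination h
      exact sub_eq_zero.1 (pow_eq_zero_iff two_ne_zero |>.1 this)
    · intro h; rw [h]; ring
  have e2 : 3 * (H + K) ^ 2 = 16 * (H * K) ↔ H = 3 * K ∨ K = 3 * H := by
    have : 3 * (H + K) ^ 2 - 16 * (H * K) = -((H - 3 * K) * (K - 3 * H)) := by ring
    rw [← sub_eq_zero, this, neg_eq_zero, mul_eq_zero, sub_eq_zero, sub_eq_zero]
  simp only [ne_eq, e1, e2, mul_eq_zero]
  tauto

theorem fA_eq_gA (h3 : (3 : L) ≠ 0) (l s t : L) : fA l s t = gA l s (t * (1 - t)) := by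
  obtain ⟨k, hk⟩ : ∃ k : L, 3 * k = 1 := ⟨3⁻¹, mul_inv_cancel₀ h3⟩
  have hk3 : (3 : L)⁻¹ = k := inv_eq_of_mul_eq_one_right hk
  have hk9 : (9 : L)⁻¹ = k ^ 2 :=
    inv_eq_of_mul_eq_one_right (by linear_combination (3 * k + 1) * hk)
  have hc : (3 : L[X]) * C k = 1 := by
    rw [← map_ofNat (C : L →+* L[X]) 3, ← C_mul, hk, C_1]
  unfold fA gA EA qd HA
  simp only [div_eq_mul_inv, hk3, hk9, map_mul, map_add, map_sub, map_pow, map_one, map_ofNat]
  generalize (C k : L[X]) = k at hc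
  generalize (C s : L[X]) = s
  generalize (C t : L[X]) = t
  generalize (C l : L[X]) = l
  obtain ⟨y, hy⟩ : ∃ y : L[X], y = X - l := ⟨_, rfl⟩
  have hX : (X : L[X]) = y + l := by rw [hy]; ring
  rw [hX]
  linear_combination (-(8*s^3*t^4*y^2 + s^4*t^4*y - 16*s^3*t^3*y^2 - 2*s^4*t^3*y - 2*s^2*t^2*y^3
    - 38*s^3*t^2*y^2 - 11*s^4*t^2*y + 2*s^2*t*y^3 + 46*s^3*t*y^2 + 12*s^4*t*y + 37*s^2*y^3
    - 12*s^3*y^2 + 36*s^4*y) + (-8*s^4*t^6*y + 24*s^4*t^5*y - 13*s^4*t^4*y - 14*s^4*t^3*y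
    + 243*s^4*t^2*y - 232*s^4*t*y - 60*s^4*y) * k) * hc

theorem fA_symm (l s t : L) : fA l s (1 - t) = fA l s t := by
  unfold fA
  rw [sub_sub_cancel]
  ring

theorem fB_eq_gB (l H K : L) : fB l H K = gB l (H + K) (H * K) := by
  unfold fB gB qd
  simp only [map_mul, map_add]
  ring

theorem fB_symm (l H K : L) : fB l K H = fB l H K := by
  unfold fB
  ring

theorem fA_monic (l s t : L) : (fA l s t).Monic := by
  unfold fA EA
  exact ((monic_X_sub_C l).mul (qd_monic _ _)).mul (qd_monic _ _)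

theorem fA_natDegree (l s t : L) : (fA l s t).natDegree = 5 := by
  unfold fA EA
  rw [((monic_X_sub_C l).mul (qd_monic _ _)).natDegree_mul (qd_monic _ _),
    (monic_X_sub_C l).natDegree_mul (qd_monic _ _), qd_natDegree, qd_natDegree,
    natDegree_X_sub_C]

theorem fB_monic (l H K : L) : (fB l H K).Monic := by
  unfold fB
  exact ((monic_X_sub_C l).mul (qd_monic _ _)).mul (qd_monic _ _)

theorem fB_natDegree (l H K : L) : (fB l H K).natDegree = 5 := by
  unfold fB
  rw [((monic_X_sub_C l).mul (qd_monic _ _)).natDegree_mul (qd_monic _ _),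
    (monic_X_sub_C l).natDegree_mul (qd_monic _ _), qd_natDegree, qd_natDegree,
    natDegree_X_sub_C]

theorem R32_eq (b c : L) : R32 b c = (X - C b) * qd b (-c) := by
  unfold R32 qd
  simp only [map_neg]
  ring

theorem R32_monic (b c : L) : (R32 b c).Monic := by
  rw [R32_eq]
  exact (monic_X_sub_C b).mul (qd_monic _ _)

theorem R32_natDegree (b c : L) : (R32 b c).natDegree = 3 := by
  rw [R32_eq, (monic_X_sub_C b).natDegree_mul (qd_monic _ _), qd_natDegree, natDegree_X_sub_C]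

theorem f32_monic (b c : L) : (f32 b c).Monic := by
  unfold f32 S32
  exact (R32_monic b c).mul (qd_monic _ _)

theorem f32_natDegree (b c : L) : (f32 b c).natDegree = 5 := by
  unfold f32 S32
  rw [(R32_monic b c).natDegree_mul (qd_monic _ _), qd_natDegree, R32_natDegree]

/-- Every `e` is `t (1 - t)` over an algebraically closed field. Proof: `IsAlgClosed.exists_pow_nat_eq`
or `IsAlgClosed.exists_eq_mul_self` for `(1 - 4 e)`, or `IsAlgClosed.exists_root`. -/
theorem exists_t [IsAlgClosed L] (e : L) : ∃ t : L, t * (1 - t) = e := by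
  obtain ⟨t, ht⟩ := IsAlgClosed.exists_root (X ^ 2 - X + C e : L[X]) (by
    intro h
    have h2 : (X ^ 2 - X + C e : L[X]).natDegree = 2 := by compute_degree!
    rw [natDegree_eq_of_degree_eq_some h] at h2
    exact absurd h2 (by norm_num))
  refine ⟨t, ?_⟩
  simp only [IsRoot.def, eval_add, eval_sub, eval_pow, eval_X, eval_C] at ht
  linear_combination -ht

/-- Every `(s, p)` is `(H + K, H K)`. -/
theorem exists_HK [IsAlgClosed L] (s p : L) : ∃ H K : L, H + K = s ∧ H * K = p := by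
  obtain ⟨t, ht⟩ := IsAlgClosed.exists_root (X ^ 2 - C s * X + C p : L[X]) (by
    intro h
    have h2 : (X ^ 2 - C s * X + C p : L[X]).natDegree = 2 := by compute_degree!
    rw [natDegree_eq_of_degree_eq_some h] at h2
    exact absurd h2 (by norm_num))
  refine ⟨t, s - t, by ring, ?_⟩
  simp only [IsRoot.def, eval_add, eval_sub, eval_mul, eval_pow, eval_X, eval_C] at ht
  linear_combination -ht

end SBr
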