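import Pool.Agent.H.MP_cc3311_ag.F0

/-!
# MP_cc3311_ag, F1b: the numbers of parameters of type B
-/

set_option autoImplicit false

namespace SBr

open Polynomial

variable (K : Type) [Field K] [Fintype K]

theorem F1b_sum (P : K → K → Prop) : {x : K × K | P x.1 x.2}.ncard = ∑ a : K, {b : K | P a b}.ncard := by
  classical
  simp only [Set.ncard_eq_toFinset_card', Set.toFinset_setOf, Finset.card_filter,
    Fintype.sum_prod_type]

theorem F1b_compl (S : Finset K) : ({b : K | b ∉ S}.ncard : ℤ) = (Fintype.card K : ℤ) - S.card := by
  classical
  have h : {b : K | b ∉ S} = ((Finset.univ \ S : Finset K) : Set K) := by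
    ext b; simp
  rw [h, Set.ncard_coe_finset, Finset.card_sdiff_of_subset (Finset.subset_univ S), Finset.card_univ,
    Nat.cast_sub]
  exact Finset.card_le_univ S

theorem okB_card (hG : Good K 5) : ({x : K × K | okB x.1 x.2}.ncard : ℤ) =
    ((Fintype.card K : ℤ) - 1) * (Fintype.card K - 4) := by
  classical
  have h2 : (2 : K) ≠ 0 := by simpa using hG 2 (by norm_num) (by norm_num)
  have h3 : (3 : K) ≠ 0 := by simpa using hG 3 (by norm_num) (by norm_num)
  rw [F1b_sum K (fun a b => okB a b)]
  have key : ∀ a : K, (({b : K | okB a b}.ncard : ℕ) : ℤ) = if a = 0 then 0 else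
      ((Fintype.card K : ℤ) - 4) := by
    intro a
    by_cases ha : a = 0
    · have : {b : K | okB a b} = ∅ := by
        ext b; simp [okB, ha]
      rw [this]; simp [ha]
    · have hset : {b : K | okB a b} = {b : K | b ∉ ({0, a, a / 3, 3 * a} : Finset K)} := by
        ext b
        simp only [okB, Set.mem_setOf_eq, Finset.mem_insert, Finset.mem_singleton, not_or]
        constructor
        · rintro ⟨_, hb, h1, h4, h5⟩
          exact ⟨hb, fun h => h1 h.symm, fun h => h4 (by rw [h]; field_simp), h5⟩
        · rintro ⟨hb, h1, h4, h5⟩
          exact ⟨ha, hb, fun h => h1 h.symm, fun h => h4 (by rw [h]; field_simp), h5⟩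
      have hcard : ({0, a, a / 3, 3 * a} : Finset K).card = 4 := by
        rw [Finset.card_insert_of_notMem, Finset.card_insert_of_notMem,
          Finset.card_insert_of_notMem, Finset.card_singleton]
        · simp only [Finset.mem_singleton]
          intro h
          rw [div_eq_iff h3] at h
          have : (2 : K) * 2 * 2 * a = 0 := by linear_combination -h
          simp [h2, ha] at this
        · simp only [Finset.mem_insert, Finset.mem_singleton, not_or]
          constructor
          · intro h
            rw [eq_div_iff h3] at h
            have : (2 : K) * a = 0 := by linear_combination h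
            simp [h2, ha] at this
          · intro h
            have : (2 : K) * a = 0 := by linear_combination -h
            simp [h2, ha] at this
        · simp only [Finset.mem_insert, Finset.mem_singleton, not_or]
          refine ⟨fun h => ha h.symm, fun h => ?_, fun h => ?_⟩
          · exact (div_ne_zero ha h3) h.symm
          · exact (mul_ne_zero h3 ha) h.symm
      rw [hset, F1b_compl, hcard]
      simp [ha]
  push_cast
  rw [Finset.sum_congr rfl (fun a _ => key a), Finset.sum_ite, Finset.sum_const_zero, zero_add,
    Finset.sum_const, nsmul_eq_mul]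
  congr 1
  have : (Finset.univ.filter (fun a : K => ¬ a = 0)) = Finset.univ \ {0} := by
    ext a; simp
  rw [this, Finset.card_sdiff_of_subset (Finset.subset_univ _), Finset.card_univ,
    Finset.card_singleton, Nat.cast_sub Fintype.card_pos]
  simp

/-- `s = 0`: `q - 1` values of `p`; `s ≠ 0`: `q - 3`. -/
theorem okS_card (hG : Good K 5) : ({x : K × K | okS x.1 x.2}.ncard : ℤ) =
    ((Fintype.card K : ℤ) - 1) * (Fintype.card K - 2) := by
  classical
  have h2 : (2 : K) ≠ 0 := by simpa using hG 2 (by norm_num) (by norm_num)
  have h3 : (3 : K) ≠ 0 := by simpa using hG 3 (by norm_num) (by norm_num)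
  have h4 : (4 : K) ≠ 0 := by simpa using hG 4 (by norm_num) (by norm_num)
  have h16 : (16 : K) ≠ 0 := by
    have : (16 : K) = 4 * 4 := by norm_num
    rw [this]; exact mul_ne_zero h4 h4
  rw [F1b_sum K (fun a b => okS a b)]
  have key : ∀ a : K, (({b : K | okS a b}.ncard : ℕ) : ℤ) = if a = 0 then
      ((Fintype.card K : ℤ) - 1) else ((Fintype.card K : ℤ) - 3) := by
    intro a
    by_cases ha : a = 0
    · have hset : {b : K | okS a b} = {b : K | b ∉ ({0} : Finset K)} := by
        ext b
        simp only [okS, ha, Set.mem_setOf_eq, Finset.mem_singleton]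
        constructor
        · exact fun h => h.1
        · intro h
          refine ⟨h, ?_, ?_⟩
          · intro h'
            have : (4 : K) * b = 0 := by linear_combination -h'
            simp [h4, h] at this
          · intro h'
            have : (16 : K) * b = 0 := by linear_combination -h'
            simp [h16, h] at this
      rw [hset, F1b_compl]
      simp [ha]
    · have hset : {b : K | okS a b} = {b : K | b ∉ ({0, a ^ 2 / 4, 3 * a ^ 2 / 16} : Finset K)} := by
        ext b
        simp only [okS, Set.mem_setOf_eq, Finset.mem_insert, Finset.mem_singleton, not_or]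
        constructor
        · rintro ⟨hb, h1, h5⟩
          refine ⟨hb, fun h => h1 ?_, fun h => h5 ?_⟩
          · rw [h]; field_simp
          · rw [h]; field_simp
        · rintro ⟨hb, h1, h5⟩
          refine ⟨hb, fun h => h1 ?_, fun h => h5 ?_⟩
          · rw [eq_div_iff h4]; linear_combination -h
          · rw [eq_div_iff h16]; linear_combination -h
      have hcard : ({0, a ^ 2 / 4, 3 * a ^ 2 / 16} : Finset K).card = 3 := by
        rw [Finset.card_insert_of_notMem, Finset.card_insert_of_notMem, Finset.card_singleton]
        · simp only [Finset.mem_singleton]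
          intro h
          rw [div_eq_div_iff h4 h16] at h
          have : (4 : K) * a ^ 2 = 0 := by linear_combination h
          simp [h4, ha] at this
        · simp only [Finset.mem_insert, Finset.mem_singleton, not_or]
          refine ⟨fun h => ?_, fun h => ?_⟩
          · exact (div_ne_zero (pow_ne_zero 2 ha) h4) h.symm
          · exact (div_ne_zero (mul_ne_zero h3 (pow_ne_zero 2 ha)) h16) h.symm
      rw [hset, F1b_compl, hcard]
      simp [ha]
  push_cast
  rw [Finset.sum_congr rfl (fun a _ => key a), Finset.sum_ite, Finset.sum_const,
    Finset.sum_const, nsmul_eq_mul, nsmul_eq_mul]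
  have h1 : (Finset.univ.filter (fun a : K => ¬ a = 0)) = Finset.univ \ {0} := by
    ext a; simp
  have h0 : (Finset.univ.filter (fun a : K => a = 0)) = {0} := by
    ext a; simp
  rw [h1, h0, Finset.card_sdiff_of_subset (Finset.subset_univ _), Finset.card_univ,
    Finset.card_singleton, Nat.cast_sub Fintype.card_pos]
  push_cast
  ring

end SBr
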