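import Pool.Agent.H.MP_cc3311_ag.F1a
import Pool.Agent.H.MP_cc3311_ag.F1b

/-!
# MP_cc3311_ag, F1: the numbers of parameters
-/

set_option autoImplicit false

namespace SBr

open Polynomial

variable (K : Type) [Field K] [Fintype K]

theorem F1_ne_card : ({s : K | s ≠ 0}.ncard : ℤ) = (Fintype.card K : ℤ) - 1 := by
  classical
  have h : {s : K | s ≠ 0} = {s : K | s ∉ ({0} : Finset K)} := by
    ext s; simp
  rw [h, F1b_compl]
  simp

theorem F1_prod (P : K → Prop) : ({x : K × K × K | x.2.1 ≠ 0 ∧ P x.2.2}.ncard : ℤ) =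
    (Fintype.card K : ℤ) * (Fintype.card K - 1) * ({t : K | P t}.ncard : ℤ) := by
  have h : {x : K × K × K | x.2.1 ≠ 0 ∧ P x.2.2} =
      (Set.univ : Set K) ×ˢ ({s : K | s ≠ 0} ×ˢ {t : K | P t}) := by
    ext ⟨a, b, c⟩
    simp
  rw [h, Set.ncard_prod, Set.ncard_prod, Set.ncard_univ, Nat.card_eq_fintype_card]
  push_cast
  rw [F1_ne_card]
  ring

theorem F1_prod' (P : K → K → Prop) : ({x : K × K × K | P x.2.1 x.2.2}.ncard : ℤ) =
    (Fintype.card K : ℤ) * ({t : K × K | P t.1 t.2}.ncard : ℤ) := by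
  have h : {x : K × K × K | P x.2.1 x.2.2} =
      (Set.univ : Set K) ×ˢ {t : K × K | P t.1 t.2} := by
    ext ⟨a, b, c⟩
    simp
  rw [h, Set.ncard_prod, Set.ncard_univ, Nat.card_eq_fintype_card]
  push_cast
  rfl

theorem parA_card (hG : Good K 5) : ({x : K × K × K | x.2.1 ≠ 0 ∧ okA x.2.2}.ncard : ℤ) =
    (Fintype.card K : ℤ) * (Fintype.card K - 1) * (Fintype.card K - 7 - 2 * c3 K) := by
  rw [F1_prod K okA, okA_card K hG]

theorem parE_card (hG : Good K 5) : ({x : K × K × K | x.2.1 ≠ 0 ∧ okE x.2.2}.ncard : ℤ) =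
    (Fintype.card K : ℤ) * (Fintype.card K - 1) * (Fintype.card K - 4 - c3 K) := by
  rw [F1_prod K okE, okE_card K hG]

theorem parB_card (hG : Good K 5) : ({x : K × K × K | okB x.2.1 x.2.2}.ncard : ℤ) =
    (Fintype.card K : ℤ) * (Fintype.card K - 1) * (Fintype.card K - 4) := by
  rw [F1_prod' K okB, okB_card K hG]
  ring

theorem parS_card (hG : Good K 5) : ({x : K × K × K | okS x.2.1 x.2.2}.ncard : ℤ) =
    (Fintype.card K : ℤ) * (Fintype.card K - 1) * (Fintype.card K - 2) := by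
  rw [F1_prod' K okS, okS_card K hG]
  ring

end SBr
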