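import Pool.Agent.H.MP_cc3311_ag.F0

/-!
# MP_cc3311_ag, F1a: the numbers of parameters of type A
-/

set_option autoImplicit false

namespace SBr

open Polynomial

variable (K : Type) [Field K] [Fintype K]

variable {K} in
theorem F1a_ne {L : Type} [Field L] (hG : Good L 5) :
    (2 : L) ≠ 0 ∧ (3 : L) ≠ 0 ∧ (5 : L) ≠ 0 := by
  refine ⟨?_, ?_, ?_⟩
  · have := hG 2 (by norm_num) (by norm_num)
    exact_mod_cast this
  · have := hG 3 (by norm_num) (by norm_num)
    exact_mod_cast this
  · have := hG 5 (by norm_num) (by norm_num)
    exact_mod_cast this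

/-- The seven values `3, -2, 1/2, -1, 2, 0, 1` are different, they are not cube roots of 2 nor `1 - x`
with `x` a cube root of 2, and `t ^ 3 = 2`, `(1 - t) ^ 3 = 2` cannot both hold (then `t ^ 2 = t + 1`,
`t ^ 3 = 2 t + 1`, `2 t = 1`, `1 = 6`). -/
theorem okA_card (hG : Good K 5) :
    ({t : K | okA t}.ncard : ℤ) = (Fintype.card K : ℤ) - 7 - 2 * c3 K := by
  classical
  obtain ⟨h2, h3, h5⟩ := F1a_ne hG
  have h4 : (4 : K) ≠ 0 := by
    have : (4 : K) = 2 * 2 := by norm_num
    rw [this]; exact mul_ne_zero h2 h2
  have h6 : (6 : K) ≠ 0 := by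
    have : (6 : K) = 2 * 3 := by norm_num
    rw [this]; exact mul_ne_zero h2 h3
  have h10 : (10 : K) ≠ 0 := by
    have : (10 : K) = 2 * 5 := by norm_num
    rw [this]; exact mul_ne_zero h2 h5
  have h15 : (15 : K) ≠ 0 := by
    have : (15 : K) = 3 * 5 := by norm_num
    rw [this]; exact mul_ne_zero h3 h5
  have h25 : (25 : K) ≠ 0 := by
    have : (25 : K) = 5 * 5 := by norm_num
    rw [this]; exact mul_ne_zero h5 h5
  -- the seven values
  set S : Finset K := {3, -2, 1 / 2, -1, 2, 0, 1} with hS
  set R1 : Set K := {t | t ^ 3 = 2} with hR1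
  set R2 : Set K := {t | (1 - t) ^ 3 = 2} with hR2
  have hcS : S.card = 7 := by
    rw [hS]
    rw [Finset.card_insert_of_notMem, Finset.card_insert_of_notMem, Finset.card_insert_of_notMem,
      Finset.card_insert_of_notMem, Finset.card_insert_of_notMem, Finset.card_insert_of_notMem,
      Finset.card_singleton]
    all_goals
      simp only [Finset.mem_insert, Finset.mem_singleton, not_or]
    · exact fun h => one_ne_zero h.symm
    · refine ⟨h2, fun h => one_ne_zero (α := K) ?_⟩
      linear_combination h
    · refine ⟨fun h => h3 ?_, fun h => one_ne_zero (α := K) ?_, fun h => h2 ?_⟩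
      · linear_combination -h
      · linear_combination -h
      · linear_combination -h
    · refine ⟨fun h => h3 ?_, fun h => h3 ?_, fun h => one_ne_zero (α := K) ?_,
        fun h => one_ne_zero (α := K) ?_⟩
      · field_simp at h
        linear_combination h
      · field_simp at h
        linear_combination -h
      · field_simp at h
        linear_combination h
      · field_simp at h
        linear_combination -h
    · refine ⟨fun h => h5 ?_, fun h => one_ne_zero (α := K) ?_, fun h => h4 ?_, fun h => h2 ?_,
        fun h => h3 ?_⟩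
      · field_simp at h
        linear_combination -h
      · linear_combination -h
      · linear_combination -h
      · linear_combination -h
      · linear_combination -h
    · refine ⟨fun h => h5 ?_, fun h => h5 ?_, fun h => h4 ?_, fun h => one_ne_zero (α := K) ?_,
        fun h => h3 ?_, fun h => h2 ?_⟩
      · linear_combination h
      · field_simp at h
        linear_combination h
      · linear_combination h
      · linear_combination h
      · linear_combination h
      · linear_combination h
  have hS1 : ∀ t ∈ S, t ^ 3 ≠ 2 := by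
    intro t ht h
    rw [hS] at ht
    simp only [Finset.mem_insert, Finset.mem_singleton] at ht
    rcases ht with rfl | rfl | rfl | rfl | rfl | rfl | rfl
    · exact h25 (by linear_combination h)
    · exact h10 (by linear_combination -h)
    · field_simp at h
      exact h15 (by linear_combination -h)
    · exact h3 (by linear_combination -h)
    · exact h6 (by linear_combination h)
    · exact h2 (by linear_combination -h)
    · exact one_ne_zero (α := K) (by linear_combination -h)
  have hSs : ∀ t ∈ S, 1 - t ∈ S := by
    intro t ht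
    rw [hS] at ht ⊢
    simp only [Finset.mem_insert, Finset.mem_singleton] at ht ⊢
    rcases ht with rfl | rfl | rfl | rfl | rfl | rfl | rfl
    · right; left; norm_num
    · left; norm_num
    · right; right; left; field_simp; norm_num
    · right; right; right; right; left; norm_num
    · right; right; right; left; norm_num
    · right; right; right; right; right; right; norm_num
    · right; right; right; right; right; left; norm_num
  have hS2 : ∀ t ∈ S, (1 - t) ^ 3 ≠ 2 := fun t ht => hS1 _ (hSs t ht)
  have h12 : ∀ t : K, t ^ 3 = 2 → (1 - t) ^ 3 ≠ 2 := by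
    intro t h1 h2'
    have e1 : 3 * (t ^ 2 - t - 1) = 0 := by linear_combination h2' + h1
    have e2 : t ^ 2 - t - 1 = 0 := by
      rcases mul_eq_zero.mp e1 with h | h
      · exact absurd h h3
      · exact h
    have e3 : 2 * t - 1 = 0 := by linear_combination h1 - (t + 1) * e2
    exact h5 (by linear_combination (2 * t - 1) * e3 - 4 * e2)
  have hcompl : {t : K | okA t} = ((S : Set K) ∪ (R1 ∪ R2))ᶜ := by
    ext t
    simp only [okA, Set.mem_setOf_eq, Set.mem_compl_iff, Set.mem_union, not_or, hR1, hR2, hS,
      Finset.coe_insert, Finset.coe_singleton, Set.mem_insert_iff, Set.mem_singleton_iff]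
    have : (2 * t ≠ 1) ↔ ¬ t = 1 / 2 := by
      rw [ne_eq, not_iff_not]
      constructor
      · intro h
        field_simp
        linear_combination h
      · rintro rfl
        field_simp
    rw [this]
    tauto
  have hc1 : R1.ncard = c3 K := rfl
  have hc2 : R2.ncard = c3 K := by
    have : R2 = (fun t : K => 1 - t) '' R1 := by
      ext t
      simp only [hR1, hR2, Set.mem_setOf_eq, Set.mem_image]
      constructor
      · intro h
        exact ⟨1 - t, h, by ring⟩
      · rintro ⟨x, hx, rfl⟩
        rw [← hx]; ring
    rw [this, Set.ncard_image_of_injective _ (fun a b h => by simpa using h), hc1]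
  have hd12 : Disjoint R1 R2 := by
    rw [Set.disjoint_left]
    exact fun t h1 h2' => h12 t h1 h2'
  have hdS : Disjoint (S : Set K) (R1 ∪ R2) := by
    rw [Set.disjoint_left]
    rintro t hS' (h | h)
    · exact hS1 t hS' h
    · exact hS2 t hS' h
  have hu : ((S : Set K) ∪ (R1 ∪ R2)).ncard = 7 + 2 * c3 K := by
    rw [Set.ncard_union_eq hdS (Set.toFinite _) (Set.toFinite _),
      Set.ncard_union_eq hd12 (Set.toFinite _) (Set.toFinite _), hc1, hc2, Set.ncard_coe_finset,
      hcS]
    ring
  have ht := Set.ncard_add_ncard_compl ((S : Set K) ∪ (R1 ∪ R2)) (Set.toFinite _) (Set.toFinite _)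
  rw [hu, Nat.card_eq_fintype_card] at ht
  rw [hcompl]
  have : (7 + 2 * (c3 K : ℤ)) + ((((S : Set K) ∪ (R1 ∪ R2))ᶜ).ncard : ℤ) = Fintype.card K := by
    exact_mod_cast ht
  linarith

/-- The roots of `e ^ 3 + 6 e + 2` correspond to the cube roots of 2: `x ↦ x - x ^ 2`, inverse
`e ↦ (2 + e) / (1 - e)`. -/
theorem root_card (hG : Good K 5) : {e : K | e ^ 3 + 6 * e + 2 = 0}.ncard = c3 K := by
  obtain ⟨h2, h3, h5⟩ := F1a_ne hG
  have h : {e : K | e ^ 3 + 6 * e + 2 = 0} = (fun x : K => x - x ^ 2) '' {x : K | x ^ 3 = 2} := by
    ext e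
    simp only [Set.mem_setOf_eq, Set.mem_image]
    constructor
    · intro he
      have h1e : (1 : K) - e ≠ 0 := by
        intro h1
        have : e = 1 := by linear_combination -h1
        subst this
        have h9 : (3 : K) * 3 = 0 := by linear_combination he
        exact (mul_ne_zero h3 h3) h9
      refine ⟨(2 + e) / (1 - e), ?_, ?_⟩
      · rw [div_pow, div_eq_iff (pow_ne_zero 3 h1e)]
        linear_combination 3 * he
      · field_simp
        linear_combination -he
    · rintro ⟨x, hx, rfl⟩
      linear_combination (-(x ^ 3) + 3 * x ^ 2 - 3 * x - 1) * hx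
  rw [h]
  refine Set.ncard_image_of_injOn ?_
  intro x hx y hy hxy
  simp only [Set.mem_setOf_eq] at hx hy hxy
  have hne : ∀ z : K, z ^ 3 = 2 → z ^ 2 - z + 1 ≠ 0 := by
    intro z hz h0
    exact h3 (by linear_combination (z + 1) * h0 - hz)
  have hinv : ∀ z : K, z ^ 3 = 2 → (2 + (z - z ^ 2)) / (1 - (z - z ^ 2)) = z := by
    intro z hz
    have : (1 : K) - (z - z ^ 2) ≠ 0 := by
      have := hne z hz
      intro h0
      exact this (by linear_combination h0)
    rw [div_eq_iff this]
    linear_combination -hz
  rw [← hinv x hx, ← hinv y hy, hxy]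

/-- `-6, 1/4, -2, 0` are different and not roots of `e ^ 3 + 6 e + 2` (values `-250`, `225/64`, `-18`,
`2`). -/
theorem okE_card (hG : Good K 5) :
    ({e : K | okE e}.ncard : ℤ) = (Fintype.card K : ℤ) - 4 - c3 K := by
  classical
  obtain ⟨h2, h3, h5⟩ := F1a_ne hG
  have h4 : (4 : K) ≠ 0 := by
    have : (4 : K) = 2 * 2 := by norm_num
    rw [this]; exact mul_ne_zero h2 h2
  have h6 : (6 : K) ≠ 0 := by
    have : (6 : K) = 2 * 3 := by norm_num
    rw [this]; exact mul_ne_zero h2 h3
  have h9 : (9 : K) ≠ 0 := by
    have : (9 : K) = 3 * 3 := by norm_num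
    rw [this]; exact mul_ne_zero h3 h3
  have h18 : (18 : K) ≠ 0 := by
    have : (18 : K) = 2 * 9 := by norm_num
    rw [this]; exact mul_ne_zero h2 h9
  have h25 : (25 : K) ≠ 0 := by
    have : (25 : K) = 5 * 5 := by norm_num
    rw [this]; exact mul_ne_zero h5 h5
  have h250 : (250 : K) ≠ 0 := by
    have : (250 : K) = 2 * (5 * 25) := by norm_num
    rw [this]; exact mul_ne_zero h2 (mul_ne_zero h5 h25)
  have h225 : (225 : K) ≠ 0 := by
    have : (225 : K) = 9 * 25 := by norm_num
    rw [this]; exact mul_ne_zero h9 h25
  set S : Finset K := {-6, 1 / 4, -2, 0} with hS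
  set R : Set K := {e | e ^ 3 + 6 * e + 2 = 0} with hR
  have hcS : S.card = 4 := by
    rw [hS]
    rw [Finset.card_insert_of_notMem, Finset.card_insert_of_notMem, Finset.card_insert_of_notMem,
      Finset.card_singleton]
    all_goals
      simp only [Finset.mem_insert, Finset.mem_singleton, not_or]
    · exact fun h => h2 (by linear_combination -h)
    · refine ⟨fun h => h9 ?_, fun h => one_ne_zero (α := K) ?_⟩
      · field_simp at h
        linear_combination h
      · field_simp at h
        linear_combination h
    · refine ⟨fun h => h25 ?_, fun h => h4 ?_, fun h => h6 ?_⟩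
      · field_simp at h
        linear_combination -h
      · linear_combination -h
      · linear_combination -h
  have hS1 : ∀ t ∈ S, t ^ 3 + 6 * t + 2 ≠ 0 := by
    intro t ht h
    rw [hS] at ht
    simp only [Finset.mem_insert, Finset.mem_singleton] at ht
    rcases ht with rfl | rfl | rfl | rfl
    · exact h250 (by linear_combination -h)
    · field_simp at h
      exact h225 (by linear_combination h)
    · exact h18 (by linear_combination -h)
    · exact h2 (by linear_combination h)
  have hcompl : {e : K | okE e} = ((S : Set K) ∪ R)ᶜ := by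
    ext t
    simp only [okE, Set.mem_setOf_eq, Set.mem_compl_iff, Set.mem_union, not_or, hR, hS,
      Finset.coe_insert, Finset.coe_singleton, Set.mem_insert_iff, Set.mem_singleton_iff]
    have : (4 * t ≠ 1) ↔ ¬ t = 1 / 4 := by
      rw [ne_eq, not_iff_not]
      constructor
      · intro h
        field_simp
        linear_combination h
      · rintro rfl
        field_simp
    rw [this]
    tauto
  have hdS : Disjoint (S : Set K) R := by
    rw [Set.disjoint_left]
    exact fun t hS' h => hS1 t hS' h
  have hu : ((S : Set K) ∪ R).ncard = 4 + c3 K := by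
    rw [Set.ncard_union_eq hdS (Set.toFinite _) (Set.toFinite _), hR, root_card K hG,
      Set.ncard_coe_finset, hcS]
  have ht := Set.ncard_add_ncard_compl ((S : Set K) ∪ R) (Set.toFinite _) (Set.toFinite _)
  rw [hu, Nat.card_eq_fintype_card] at ht
  rw [hcompl]
  have : (4 + (c3 K : ℤ)) + ((((S : Set K) ∪ R)ᶜ).ncard : ℤ) = Fintype.card K := by
    exact_mod_cast ht
  linarith

end SBr
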