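import Pool.Agent.H.MP_cc3311_ag.F2a

/-!
# MP_cc3311_ag, F2: type A, the blocks
-/

set_option autoImplicit false

namespace SBr

open Polynomial

variable {L : Type} [Field L] [IsAlgClosed L]

theorem F2_key {R : Type} [CommRing R] (y σ τ u : R) (hu : 3 * u = 1) :
    2 * (2 * (y - (3 - τ) * σ)) * ((y - 2 * τ * σ) ^ 2 + 4 * u * τ * (τ + 1) ^ 2 * (τ - 2) * σ ^ 2) +
      ((y - (3 - τ) * σ) ^ 2 - σ ^ 2 * (3 - τ) * (1 + τ) * (1 - 2 * τ) ^ 2 * u) *
        (2 * (y - 2 * τ * σ)) =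
      6 * y * ((y - (2 + τ) * σ) ^ 2 - σ ^ 2 * (2 + τ) * (2 - τ) * (2 * τ - 1) ^ 2 * u) := by
  linear_combination (σ ^ 2 * ((12 * τ ^ 2 - 36 * τ + 6) * y +
    12 * τ * (3 - τ) * (1 + τ) * σ)) * hu

/-- `block_of_Q` with `Q = y ^ 2 - 4 t s y + (4 / 3) t (t ^ 3 - 2) s ^ 2`, `y = X - l`, of which the
discriminant is `-(16 / 3) t (t + 1) ^ 2 (t - 2) s ^ 2`. -/
theorem fA_block (hG : Good L 5) {l s t : L} (hs : s ≠ 0) (ht : okA t) :
    Block (fA l s t) (EA l s t) := by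
  have h2 : (2 : L) ≠ 0 := by
    have := hG 2 (by norm_num) (by norm_num)
    exact_mod_cast this
  have h3 : (3 : L) ≠ 0 := by
    have := hG 3 (by norm_num) (by norm_num)
    exact_mod_cast this
  have h4 : (4 : L) ≠ 0 := by
    have := hG 4 (by norm_num) (by norm_num)
    exact_mod_cast this
  obtain ⟨k1, k2, k3, k4, k5, k6, k7, k8, k9⟩ := id ht
  have hEd : (EA l s t).natDegree = 2 := qd_natDegree _ _
  have hQ0 : -(4 / 3 * t * (t + 1) ^ 2 * (t - 2) * s ^ 2) ≠ 0 := by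
    have e1 : t + 1 ≠ 0 := fun h => k4 (by linear_combination h)
    have e2 : t - 2 ≠ 0 := fun h => k5 (by linear_combination h)
    exact neg_ne_zero.2 (mul_ne_zero (mul_ne_zero (mul_ne_zero (mul_ne_zero
      (div_ne_zero h4 h3) k6) (pow_ne_zero 2 e1)) e2) (pow_ne_zero 2 hs))
  refine block_of_Q (Q := qd (l + 2 * t * s) (-(4 / 3 * t * (t + 1) ^ 2 * (t - 2) * s ^ 2))) hG
    (fA_squarefree hG hs ht) (qd_monic _ _) (by rw [hEd]) (qd_monic _ _)
    (by rw [hEd, qd_natDegree]) ((sqfree_qd h2 _ _).2 hQ0) ?_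
  obtain ⟨u, hu⟩ : ∃ u : L[X], u = C (3⁻¹ : L) := ⟨_, rfl⟩
  have hC2 : (C 2 : L[X]) = 2 := map_ofNat C 2
  have hC3 : (C 3 : L[X]) = 3 := map_ofNat C 3
  have hC4 : (C 4 : L[X]) = 4 := map_ofNat C 4
  have hu3 : 3 * u = 1 := by
    rw [hu, ← hC3, ← C_mul, mul_inv_cancel₀ h3, C_1]
  have h6 : (C (((5 : ℕ) : L) + 1) : L[X]) = 6 := by
    have : (((5 : ℕ) : L) + 1) = 6 := by norm_num
    rw [this]; exact map_ofNat C 6
  have hE1 : EA l s t = ((X - C l) - (3 - C t) * C s) ^ 2 -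
      C s ^ 2 * (3 - C t) * (1 + C t) * (1 - 2 * C t) ^ 2 * u := by
    simp only [EA, qd, HA, div_eq_mul_inv, C_mul, C_add, C_sub, C_pow, C_1, hC2, hC3, ← hu]
    ring
  have hE2 : EA l s (1 - t) = ((X - C l) - (2 + C t) * C s) ^ 2 -
      C s ^ 2 * (2 + C t) * (2 - C t) * (2 * C t - 1) ^ 2 * u := by
    simp only [EA, qd, HA, div_eq_mul_inv, C_mul, C_add, C_sub, C_pow, C_1, hC2, hC3, ← hu]
    ring
  have hQ1 : qd (l + 2 * t * s) (-(4 / 3 * t * (t + 1) ^ 2 * (t - 2) * s ^ 2)) =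
      ((X - C l) - 2 * C t * C s) ^ 2 + 4 * u * C t * (C t + 1) ^ 2 * (C t - 2) * C s ^ 2 := by
    simp only [qd, div_eq_mul_inv, C_mul, C_add, C_sub, C_neg, C_pow, C_1, hC2, hC4, ← hu]
    ring
  have hE' : derivative (EA l s t) = 2 * ((X - C l) - (3 - C t) * C s) := by
    have e0 : EA l s t = (X - C (l + (3 - t) * s)) ^ 2 - C (HA s t) := rfl
    rw [e0, derivative_sub, derivative_C, sub_zero, derivative_X_sub_C_pow]
    simp only [C_mul, C_add, C_sub, hC3, Nat.cast_ofNat, hC2, Nat.add_one_sub_one, pow_one]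
    ring
  have hQ' : derivative (qd (l + 2 * t * s) (-(4 / 3 * t * (t + 1) ^ 2 * (t - 2) * s ^ 2))) =
      2 * ((X - C l) - 2 * C t * C s) := by
    rw [qd, derivative_sub, derivative_C, sub_zero, derivative_X_sub_C_pow]
    simp only [C_mul, C_add, C_sub, Nat.cast_ofNat, hC2, Nat.add_one_sub_one, pow_one]
    ring
  have hk := F2_key (X - C l) (C s) (C t) u hu3
  rw [h6, fA, derivative_mul, derivative_pow, hE', hQ', hE2, hQ1]
  simp only [Nat.cast_ofNat, hC2, Nat.add_one_sub_one, pow_one]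
  rw [hE1]
  linear_combination (((X - C l) - (3 - C t) * C s) ^ 2 -
      C s ^ 2 * (3 - C t) * (1 + C t) * (1 - 2 * C t) ^ 2 * u) * hk

theorem fA_block' (hG : Good L 5) {l s t : L} (hs : s ≠ 0) (ht : okA t) :
    Block (fA l s t) (EA l s (1 - t)) := by
  rw [← fA_symm l s t]
  exact fA_block hG hs (okA_symm ht)

end SBr
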