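import Pool.Agent.H.MP_cc3311_ag.F0

/-!
# MP_cc3311_ag, F2a: type A, squarefreeness
-/

set_option autoImplicit false

namespace SBr

open Polynomial

variable {L : Type} [Field L] [IsAlgClosed L]

theorem F2a_coprime {p q : L[X]} (h : ∀ x : L, eval x p = 0 → eval x q ≠ 0) : IsCoprime p q := by
  rw [Polynomial.isCoprime_iff_aeval_ne_zero_of_isAlgClosed L L]
  intro a
  by_cases h1 : eval a p = 0
  · right
    simpa [Polynomial.aeval_def] using h a h1
  · left
    simpa [Polynomial.aeval_def] using h1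

theorem F2a_eval_qd (x a H : L) : eval x (qd a H) = (x - a) ^ 2 - H := by
  simp [qd]

/-- `m ^ 2 - H = (4 / 3) (3 - t) (2 - t ^ 3) s ^ 2` with `m = (3 - t) s`, `H = HA s t`. -/
theorem EA_eval (h3 : (3 : L) ≠ 0) (l s t : L) :
    (EA l s t).eval l = 4 / 3 * (3 - t) * (2 - t ^ 3) * s ^ 2 := by
  rw [EA, F2a_eval_qd, HA]
  field_simp
  ring

theorem F2a_2 (hG : Good L 5) : (2 : L) ≠ 0 := by
  have := hG 2 (by norm_num) (by norm_num)
  exact_mod_cast this

theorem F2a_3 (hG : Good L 5) : (3 : L) ≠ 0 := by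
  have := hG 3 (by norm_num) (by norm_num)
  exact_mod_cast this

theorem HA_ne (hG : Good L 5) {s t : L} (hs : s ≠ 0) (ht : okA t) : HA s t ≠ 0 := by
  have h3 := F2a_3 hG
  obtain ⟨t1, t2, t3, t4, t5, t6, t7, t8, t9⟩ := ht
  rw [HA]
  refine div_ne_zero (mul_ne_zero (mul_ne_zero (mul_ne_zero (pow_ne_zero 2 hs) ?_) ?_)
    (pow_ne_zero 2 ?_)) h3
  · exact sub_ne_zero.2 (Ne.symm t1)
  · intro h
    exact t4 (by linear_combination h)
  · exact sub_ne_zero.2 (Ne.symm t3)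

/-- The resultant of `qd a H` and `qd b K` is `((a - b) ^ 2 - H - K) ^ 2 - 4 H K`; if it is not zero the
polynomials are coprime. PROOF. Otherwise there is a common root `x` (a nonconstant common divisor has
a root); `u = x - a`, `v = x - b` satisfy `u ^ 2 = H`, `v ^ 2 = K`, `(u - v) ^ 2 = (a - b) ^ 2`, so
`(a - b) ^ 2 - H - K = - 2 u v`, and the square of this is `4 H K`. -/
theorem qd_coprime {a H b K : L} (h : ((a - b) ^ 2 - H - K) ^ 2 - 4 * H * K ≠ 0) :
    IsCoprime (qd a H) (qd b K) := by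
  refine F2a_coprime fun x h1 h2 => h ?_
  rw [F2a_eval_qd] at h1 h2
  have e1 : H = (x - a) ^ 2 := by linear_combination -h1
  have e2 : K = (x - b) ^ 2 := by linear_combination -h2
  rw [e1, e2]
  ring

/-- `qd_coprime`; the resultant is `(16 / 9) (t + 1) (t - 2) (2 t - 1) ^ 4 s ^ 4`. -/
theorem EA_coprime (hG : Good L 5) {l s t : L} (hs : s ≠ 0) (ht : okA t) :
    IsCoprime (EA l s t) (EA l s (1 - t)) := by
  have h3 := F2a_3 hG
  have h2 := F2a_2 hG
  obtain ⟨t1, t2, t3, t4, t5, t6, t7, t8, t9⟩ := ht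
  refine qd_coprime ?_
  have e : ((l + (3 - t) * s - (l + (3 - (1 - t)) * s)) ^ 2 - HA s t - HA s (1 - t)) ^ 2 -
      4 * HA s t * HA s (1 - t) =
      2 ^ 4 / 3 ^ 2 * (t + 1) * (t - 2) * (2 * t - 1) ^ 4 * s ^ 4 := by
    rw [HA, HA]
    field_simp
    ring
  rw [e]
  refine mul_ne_zero (mul_ne_zero (mul_ne_zero (mul_ne_zero (div_ne_zero (pow_ne_zero _ h2)
    (pow_ne_zero _ h3)) ?_) ?_) (pow_ne_zero _ ?_)) (pow_ne_zero _ hs)
  · intro h
    exact t4 (by linear_combination h)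
  · exact sub_ne_zero.2 t5
  · exact sub_ne_zero.2 t3

theorem F2a_root (hG : Good L 5) {l s t : L} (hs : s ≠ 0) (ht : okA t) :
    IsCoprime (X - C l) (EA l s t) := by
  have h3 := F2a_3 hG
  have h2 := F2a_2 hG
  refine F2a_coprime fun x hx => ?_
  rw [eval_sub, eval_X, eval_C, sub_eq_zero] at hx
  rw [hx, EA_eval h3]
  obtain ⟨t1, t2, t3, t4, t5, t6, t7, t8, t9⟩ := ht
  have h4 : (4 : L) ≠ 0 := by
    have h5 : (4 : L) = 2 * 2 := by norm_num
    rw [h5]
    exact mul_ne_zero h2 h2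
  exact mul_ne_zero (mul_ne_zero (mul_ne_zero (div_ne_zero h4 h3) (sub_ne_zero.2 (Ne.symm t1)))
    (sub_ne_zero.2 (Ne.symm t8))) (pow_ne_zero _ hs)

theorem fA_squarefree (hG : Good L 5) {l s t : L} (hs : s ≠ 0) (ht : okA t) :
    Squarefree (fA l s t) := by
  have h2 := F2a_2 hG
  have ht' := okA_symm ht
  have c1 := F2a_root hG (l := l) hs ht
  have c2 := F2a_root hG (l := l) hs ht'
  have c3 := EA_coprime hG (l := l) hs ht
  have s1 : Squarefree (EA l s t) := (sqfree_qd h2 _ _).2 (HA_ne hG hs ht)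
  have s2 : Squarefree (EA l s (1 - t)) := (sqfree_qd h2 _ _).2 (HA_ne hG hs ht')
  have s0 : Squarefree (X - C l : L[X]) := (irreducible_X_sub_C l).squarefree
  rw [fA, squarefree_mul_iff, squarefree_mul_iff]
  exact ⟨(IsCoprime.mul_left c2 c3).isRelPrime, ⟨c1.isRelPrime, s0, s1⟩, s2⟩

/-- Different centres. -/
theorem EA_ne (hG : Good L 5) {l s t : L} (hs : s ≠ 0) (ht : okA t) :
    EA l s t ≠ EA l s (1 - t) := by
  intro h
  have h1 := (qd_inj (F2a_2 hG) h).1
  have h2 : (1 - 2 * t) * s = 0 := by linear_combination h1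
  rcases mul_eq_zero.1 h2 with h3 | h3
  · exact ht.2.2.1 (by linear_combination -h3)
  · exact hs h3

end SBr
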