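import Pool.Agent.H.MP_cc3311_ag.F0

/-!
# MP_cc3311_ag, F3b: the third type
-/

set_option autoImplicit false

namespace SBr

open Polynomial

variable {L : Type} [Field L] [IsAlgClosed L]

omit [IsAlgClosed L] in
theorem F3b_ne2 (hG : Good L 5) : (2 : L) ≠ 0 := by
  have := hG 2 (by norm_num) (by norm_num); exact_mod_cast this

omit [IsAlgClosed L] in
theorem F3b_ne3 (hG : Good L 5) : (3 : L) ≠ 0 := by
  have := hG 3 (by norm_num) (by norm_num); exact_mod_cast this

omit [IsAlgClosed L] in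
theorem F3b_ne5 (hG : Good L 5) : (5 : L) ≠ 0 := by
  have := hG 5 (by norm_num) (by norm_num); exact_mod_cast this

omit [IsAlgClosed L] in
theorem F3b_R32 (b c : L) : R32 b c = (X - C b) * qd b (-c) := by
  simp only [R32, qd, map_neg]; ring

omit [IsAlgClosed L] in
theorem F3b_cop1 {b c : L} (hc : c ≠ 0) : IsCoprime (X - C b) (qd b (-c)) := by
  refine ⟨- C (1 / c) * (X - C b), C (1 / c), ?_⟩
  have h : (C (1 / c) : L[X]) * C c = 1 := by rw [← C_mul]; simp [hc]
  simp only [qd, map_neg]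
  linear_combination h

omit [IsAlgClosed L] in
theorem F3b_cop2 {b s t : L} (hst : s ≠ t) : IsCoprime (qd b s) (qd b t) := by
  have h0 : t - s ≠ 0 := sub_ne_zero.2 (Ne.symm hst)
  refine ⟨C (1 / (t - s)), - C (1 / (t - s)), ?_⟩
  have h : (C (1 / (t - s)) : L[X]) * C (t - s) = 1 := by rw [← C_mul]; simp [h0]
  rw [C_sub] at h
  simp only [qd]
  linear_combination h

/-- `R32` and `S32` have the roots `b`, `b ± √(-c)` and `b ± √(-c / 3)`. -/
theorem f32_squarefree (hG : Good L 5) {b c : L} (hc : c ≠ 0) : Squarefree (f32 b c) := by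
  have h2 := F3b_ne2 hG
  have h3 := F3b_ne3 hG
  have e1 : Squarefree (X - C b : L[X]) := (irreducible_X_sub_C b).squarefree
  have e2 : Squarefree (qd b (-c)) := (sqfree_qd h2 b (-c)).2 (neg_ne_zero.2 hc)
  have e3 : Squarefree (qd b (-c / 3)) :=
    (sqfree_qd h2 b (-c / 3)).2 (div_ne_zero (neg_ne_zero.2 hc) h3)
  have c1 : IsCoprime (X - C b) (qd b (-c)) := F3b_cop1 hc
  have c2 : IsCoprime (X - C b) (qd b (-c / 3)) := by
    have := F3b_cop1 (b := b) (c := c / 3) (div_ne_zero hc h3)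
    rwa [← neg_div] at this
  have c3 : IsCoprime (qd b (-c)) (qd b (-c / 3)) := by
    apply F3b_cop2
    intro h
    have h' : -c * 3 = -c := by rw [eq_div_iff h3] at h; exact h
    have h'' : c * 2 = 0 := by linear_combination -h'
    rcases mul_eq_zero.1 h'' with h4 | h4
    · exact hc h4
    · exact h2 h4
  rw [f32, F3b_R32, S32]
  rw [squarefree_mul_iff]
  refine ⟨(IsCoprime.mul_left c2 c3).isRelPrime, ?_, e3⟩
  rw [squarefree_mul_iff]
  exact ⟨c1.isRelPrime, e1, e2⟩

/-- `block_of_Q` with `Q = 1`: `(R32 ^ 2)' = 6 f32`. -/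
theorem f32_block (hG : Good L 5) {b c : L} (hc : c ≠ 0) : Block (f32 b c) (R32 b c) := by
  have h3 := F3b_ne3 hG
  refine block_of_Q (Q := 1) hG (f32_squarefree hG hc) (R32_monic b c)
    (by rw [R32_natDegree]; norm_num) monic_one (by rw [R32_natDegree]; simp) squarefree_one ?_
  have hC : (C (c / 3) : L[X]) * C 3 = C c := by rw [← C_mul]; congr 1; field_simp
  have hC3 : (C 3 : L[X]) = 3 := map_ofNat C 3
  have h6 : (C (((5 : ℕ) : L) + 1) : L[X]) = 6 := by
    have : (((5 : ℕ) : L) + 1) = 6 := by norm_num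
    rw [this]; exact map_ofNat C 6
  rw [h6]
  rw [hC3] at hC
  simp only [f32, R32, S32, qd, mul_one, derivative_pow, derivative_add, derivative_mul,
    derivative_sub, derivative_X, derivative_C, sub_zero, neg_div, map_neg]
  simp only [Nat.cast_ofNat, map_ofNat, Nat.add_one_sub_one, pow_one, zero_mul, mul_one, zero_add]
  linear_combination (-2 : L[X]) * ((X - C b) ^ 3 + C c * (X - C b)) * hC

/-- `block_of_Q` with `Q = y ^ 2 + 4 c / 3`, `y = X - b`. -/
theorem f32_block' (hG : Good L 5) {b c : L} (hc : c ≠ 0) : Block (f32 b c) (S32 b c) := by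
  have h2 := F3b_ne2 hG
  have h3 := F3b_ne3 hG
  have h4 : (4 : L) ≠ 0 := by
    have : (4 : L) = 2 * 2 := by norm_num
    rw [this]; exact mul_ne_zero h2 h2
  have hnd : (S32 b c).natDegree = 2 := qd_natDegree _ _
  refine block_of_Q (Q := qd b (-(4 * (c / 3)))) hG (f32_squarefree hG hc) (qd_monic _ _)
    (by rw [hnd]) (qd_monic _ _) (by rw [hnd, qd_natDegree])
    ((sqfree_qd h2 _ _).2 (neg_ne_zero.2 (mul_ne_zero h4 (div_ne_zero hc h3)))) ?_
  have hC : (C (c / 3) : L[X]) * C 3 = C c := by rw [← C_mul]; congr 1; field_simp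
  have hC3 : (C 3 : L[X]) = 3 := map_ofNat C 3
  have hC4 : (C 4 : L[X]) = 4 := map_ofNat C 4
  have h6 : (C (((5 : ℕ) : L) + 1) : L[X]) = 6 := by
    have : (((5 : ℕ) : L) + 1) = 6 := by norm_num
    rw [this]; exact map_ofNat C 6
  rw [h6]
  rw [hC3] at hC
  simp only [f32, R32, S32, qd, derivative_pow, derivative_mul, derivative_sub, derivative_X,
    derivative_C, sub_zero, neg_div, map_neg, map_mul, hC4, mul_zero, neg_zero]
  rw [← hC]
  have h40 : derivative (4 : L[X]) = 0 := by rw [← hC4, derivative_C]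
  simp only [Nat.cast_ofNat, map_ofNat, Nat.add_one_sub_one, pow_one, zero_mul, mul_one, zero_add,
    h40]
  ring

theorem F3b_expand (h3 : (3 : L) ≠ 0) (b c : L) : f32 b c =
    C 1 * X ^ 5 + C (-5 * b) * X ^ 4 + C (10 * b ^ 2 + 4 * (c / 3)) * X ^ 3 +
      C (-10 * b ^ 3 - 12 * b * (c / 3)) * X ^ 2 +
      C (5 * b ^ 4 + 12 * b ^ 2 * (c / 3) + 3 * (c / 3) ^ 2) * X +
      C (-b ^ 5 - 4 * b ^ 3 * (c / 3) - 3 * b * (c / 3) ^ 2) := by
  have hC : (C (c / 3) : L[X]) * 3 = C c := by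
    have : (3 : L[X]) = C 3 := (map_ofNat C 3).symm
    rw [this, ← C_mul]; congr 1; field_simp
  simp only [f32, R32, S32, qd, neg_div, map_neg, map_add, map_sub, map_mul, map_pow, map_one,
    map_ofNat]
  rw [← hC]
  ring

theorem f32_inj (hG : Good L 5) {b c b' c' : L} (h : f32 b c = f32 b' c') : b = b' ∧ c = c' := by
  have h2 := F3b_ne2 hG
  have h3 := F3b_ne3 hG
  have h5 := F3b_ne5 hG
  rw [F3b_expand h3, F3b_expand h3] at h
  have e4 := congrArg (fun p : L[X] => p.coeff 4) h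
  have e3 := congrArg (fun p : L[X] => p.coeff 3) h
  simp only [coeff_add, coeff_C_mul, coeff_X_pow, coeff_X, coeff_C] at e4 e3
  norm_num at e4 e3
  have hb : b = b' := by
    rcases e4 with e | e
    · exact e
    · exact absurd e h5
  refine ⟨hb, ?_⟩
  subst hb
  have h4 : (4 : L) ≠ 0 := by
    have : (4 : L) = 2 * 2 := by norm_num
    rw [this]; exact mul_ne_zero h2 h2
  have e5 : 4 * (c / 3) = 4 * (c' / 3) := by linear_combination e3
  have e6 : c / 3 = c' / 3 := mul_left_cancel₀ h4 e5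
  rwa [div_left_inj' h3] at e6

end SBr
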