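import Pool.Agent.H.MP_cc3311_ag.F0

/-!
# MP_cc3311_ag, F3a: type B
-/

set_option autoImplicit false

namespace SBr

open Polynomial

variable {L : Type} [Field L] [IsAlgClosed L]

omit [IsAlgClosed L] in
theorem F3a_two (hG : Good L 5) : (2 : L) ≠ 0 := by
  have := hG 2 (by norm_num) (by norm_num)
  exact_mod_cast this

omit [IsAlgClosed L] in
theorem F3a_coprime (l : L) {H K : L} (h : H ≠ K) : IsCoprime (qd l H) (qd l K) := by
  have hne : K - H ≠ 0 := sub_ne_zero.2 (Ne.symm h)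
  refine ⟨C (1 / (K - H)), -C (1 / (K - H)), ?_⟩
  have h1 : C (1 / (K - H)) * qd l H + -C (1 / (K - H)) * qd l K = C (1 / (K - H) * (K - H)) := by
    rw [qd, qd, C_mul, C_sub]
    ring
  rw [h1, one_div, inv_mul_cancel₀ hne, C_1]

omit [IsAlgClosed L] in
theorem F3a_coprime' (l : L) {H : L} (h : H ≠ 0) : IsCoprime (X - C l) (qd l H) := by
  refine ⟨C (1 / H) * (X - C l), -C (1 / H), ?_⟩
  have h1 : C (1 / H) * (X - C l) * (X - C l) + -C (1 / H) * qd l H = C (1 / H * H) := by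
    rw [qd, C_mul]
    ring
  rw [h1, one_div, inv_mul_cancel₀ h, C_1]

omit [IsAlgClosed L] in
theorem fB_squarefree (hG : Good L 5) {l H K : L} (h : okB H K) : Squarefree (fB l H K) := by
  have h2 := F3a_two hG
  obtain ⟨h1, h3, h4, -, -⟩ := h
  rw [fB, squarefree_mul_iff, squarefree_mul_iff]
  refine ⟨?_, ⟨(F3a_coprime' l h1).isRelPrime, (irreducible_X_sub_C l).squarefree,
    (sqfree_qd h2 l H).2 h1⟩, (sqfree_qd h2 l K).2 h3⟩
  exact ((F3a_coprime' l h3).mul_left (F3a_coprime l h4)).isRelPrime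

/-- `block_of_Q` with `Q = y ^ 2 + (H - 3 K) / 2`, `y = X - l`. -/
theorem fB_block (hG : Good L 5) {l H K : L} (h : okB H K) : Block (fB l H K) (qd l H) := by
  have h2 := F3a_two hG
  have hsq := fB_squarefree (l := l) hG h
  obtain ⟨h1, h3, h4, h5, h6⟩ := h
  have hc : (3 * K - H) / 2 ≠ 0 := by
    intro h0
    rw [div_eq_zero_iff] at h0
    rcases h0 with h0 | h0
    · exact h5 (sub_eq_zero.1 h0).symm
    · exact h2 h0
  refine block_of_Q (Q := qd l ((3 * K - H) / 2)) hG hsq (qd_monic l H)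
    (by rw [qd_natDegree]) (qd_monic _ _) (by rw [qd_natDegree, qd_natDegree])
    ((sqfree_qd h2 _ _).2 hc) ?_
  have h7 : (C ((3 * K - H) / 2) : L[X]) * 2 = 3 * C K - C H := by
    have h8 : ((3 * K - H) / 2) * 2 = 3 * K - H := div_mul_cancel₀ _ h2
    calc (C ((3 * K - H) / 2) : L[X]) * 2 = C ((3 * K - H) / 2) * C 2 := by
          rw [map_ofNat]
      _ = C (3 * K - H) := by rw [← C_mul, h8]
      _ = 3 * C K - C H := by rw [C_sub, C_mul, map_ofNat]
  have h9 : (C (((5 : ℕ) : L) + 1) : L[X]) = 6 := by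
    have : (((5 : ℕ) : L) + 1) = ((6 : ℕ) : L) := by norm_num
    rw [this, C_eq_natCast]
    norm_num
  rw [h9, fB, qd, qd, qd]
  simp only [derivative_mul, derivative_pow, derivative_sub, derivative_X, derivative_C, Nat.cast_ofNat,
    map_ofNat]
  norm_num
  linear_combination (-2 * (X - C l) * ((X - C l) ^ 2 - C H)) * h7

theorem fB_block' (hG : Good L 5) {l H K : L} (h : okB H K) : Block (fB l H K) (qd l K) := by
  rw [← fB_symm l H K]
  exact fB_block hG (okB_symm h)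

omit [IsAlgClosed L] in
theorem F3a_expand (l s p : L) : gB l s p = X ^ 5 + C (-5 * l) * X ^ 4 + C (10 * l ^ 2 - s) * X ^ 3 +
    C (-10 * l ^ 3 + 3 * s * l) * X ^ 2 + C (5 * l ^ 4 - 3 * s * l ^ 2 + p) * X +
    C (-l ^ 5 + s * l ^ 3 - p * l) := by
  rw [gB]
  simp only [C_mul, C_add, C_sub, C_neg, C_pow, map_ofNat]
  ring

omit [IsAlgClosed L] in
theorem F3a_coeff (a b c d e : L) :
    (X ^ 5 + C a * X ^ 4 + C b * X ^ 3 + C c * X ^ 2 + C d * X + C e : L[X]).coeff 4 = a ∧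
    (X ^ 5 + C a * X ^ 4 + C b * X ^ 3 + C c * X ^ 2 + C d * X + C e : L[X]).coeff 3 = b ∧
    (X ^ 5 + C a * X ^ 4 + C b * X ^ 3 + C c * X ^ 2 + C d * X + C e : L[X]).coeff 1 = d := by
  refine ⟨?_, ?_, ?_⟩ <;> simp [coeff_X_pow, coeff_C]

/-- Coefficient of `X ^ 4`: `- 5 l`; then cancel and compare. -/
theorem gB_inj (hG : Good L 5) {l s p l' s' p' : L} (h : gB l s p = gB l' s' p') :
    l = l' ∧ s = s' ∧ p = p' := by
  have h5 : (5 : L) ≠ 0 := by
    have := hG 5 (by norm_num) (by norm_num)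
    exact_mod_cast this
  rw [F3a_expand, F3a_expand] at h
  have c4 := congrArg (fun q => coeff q 4) h
  have c3 := congrArg (fun q => coeff q 3) h
  have c1 := congrArg (fun q => coeff q 1) h
  simp only [(F3a_coeff _ _ _ _ _).1] at c4
  simp only [(F3a_coeff _ _ _ _ _).2.1] at c3
  simp only [(F3a_coeff _ _ _ _ _).2.2] at c1
  have hl : l = l' := mul_left_cancel₀ (neg_ne_zero.2 h5) c4
  subst hl
  have hs : s = s' := by linear_combination -c3
  subst hs
  exact ⟨rfl, rfl, by linear_combination c1⟩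

theorem fB_inj (hG : Good L 5) {l H K l' H' K' : L} (h : fB l H K = fB l' H' K')
    (h' : qd l H = qd l' H') : l = l' ∧ H = H' ∧ K = K' := by
  rw [fB_eq_gB, fB_eq_gB] at h
  obtain ⟨h1, h2, -⟩ := gB_inj hG h
  obtain ⟨-, h4⟩ := qd_inj (F3a_two hG) h'
  subst h4
  exact ⟨h1, rfl, add_left_cancel h2⟩

end SBr
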