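import Pool.Agent.H.MP_cc3311_ag.F0

/-!
# MP_cc3311_ag, F4: classification in degree 5, blocks of degree 3 and 2
-/

set_option autoImplicit false

namespace SBr

open Polynomial

variable {L : Type} [Field L] [IsAlgClosed L]

/-- The degrees. Proof: `Block.add_le`, `2 ≤ natDegree`. -/
theorem deg5 {f E E' : L[X]} (hf : f.Monic) (hd : f.natDegree = 5)
    (h : Block f E) (h' : Block f E') (hne : E ≠ E') :
    (E.natDegree = 3 ∧ E'.natDegree = 2) ∨ (E.natDegree = 2 ∧ E'.natDegree = 3) ∨
      (E.natDegree = 2 ∧ E'.natDegree = 2) := by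
  have h1 := Block.add_le hf.ne_zero h h' hne
  have h2 := h.2.1
  have h3 := h'.2.1
  omega

omit [IsAlgClosed L] in
/-- The equation of `Block.exists_Q` after cancelling `E`. -/
theorem F4_cancel {E E' Q : L[X]} (hE : E ≠ 0)
    (hQ : derivative (E ^ 2 * Q) = C (((5 : ℕ) : L) + 1) * (E * E')) :
    2 * derivative E * Q + E * derivative Q = 6 * E' := by
  apply mul_left_cancel₀ hE
  have e1 : derivative (E ^ 2 * Q) = E * (2 * derivative E * Q + E * derivative Q) := by
    rw [derivative_mul, derivative_pow]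
    simp only [Nat.cast_ofNat, Nat.add_one_sub_one, pow_one, map_ofNat]
    ring
  have e2 : (C (((5 : ℕ) : L) + 1) : L[X]) = 6 := by
    have : (((5 : ℕ) : L) + 1) = 6 := by norm_num
    rw [this, map_ofNat]
  rw [← e1, hQ, e2]
  ring

/-- CLASSIFICATION, degrees 3 and 2.
PROOF. `f = E * E'` (`Block.isCoprime`, `Block.dvd`, monic of the same degree). `Block.exists_Q` for `E`
gives `Q` monic of degree 0, `Q = 1`: `2 E (derivative E) = 6 E E'`, so `derivative E = 3 E'`; with
`E = y ^ 3 + c y + d`, `y = X - b` (`exists_shift3`) this is `E' = y ^ 2 + c / 3 = qd b (-c / 3)`.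
`Block.exists_Q` for `E'` gives `Q = y ^ 2 + u y + w` (`exists_shift2`) with
`4 y Q + (y ^ 2 + c / 3) (2 y + u) = 6 E` (cancel `E'`); coefficients: `5 u = 0`, `4 w + 2 c / 3 = 6 c`,
`c u / 3 = 6 d`, so `u = 0`, `d = 0`. `c ≠ 0` because `E'` is squarefree. -/
theorem cls32 (hG : Good L 5) {f E E' : L[X]} (hf : f.Monic) (hd : f.natDegree = 5)
    (hs : Squarefree f) (h : Block f E) (h' : Block f E') (h3 : E.natDegree = 3)
    (h2 : E'.natDegree = 2) : ∃ b c : L, c ≠ 0 ∧ E = R32 b c ∧ E' = S32 b c ∧ f = f32 b c := by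
  have n2 : (2 : L) ≠ 0 := by
    have := hG 2 (by norm_num) (by norm_num)
    exact_mod_cast this
  have n3 : (3 : L) ≠ 0 := by
    have := hG 3 (by norm_num) (by norm_num)
    exact_mod_cast this
  have n5 : (5 : L) ≠ 0 := by
    have := hG 5 (by norm_num) (by norm_num)
    exact_mod_cast this
  have n6 : (6 : L) ≠ 0 := by
    have := hG 6 (by norm_num) (by norm_num)
    exact_mod_cast this
  have hne : E ≠ E' := by
    rintro rfl
    omega
  have hE : E.Monic := h.1
  have hE' : E'.Monic := h'.1
  obtain ⟨g, hg⟩ : E * E' ∣ f := (h.isCoprime h' hne).mul_dvd h.dvd h'.dvd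
  have hEE : (E * E').Monic := hE.mul hE'
  have hgm : g.Monic := by
    rw [hg] at hf
    exact Monic.of_mul_monic_left hEE hf
  have hgd : g.natDegree = 0 := by
    have h1 : (E * E' * g).natDegree = (E * E').natDegree + g.natDegree :=
      hEE.natDegree_mul hgm
    rw [← hg, hd, hE.natDegree_mul hE', h2, h3] at h1
    omega
  have hg1 : g = 1 := hgm.natDegree_eq_zero.1 hgd
  rw [hg1, mul_one] at hg
  -- the block of degree 3
  obtain ⟨Q, hQm, hQd, hQs, hQ⟩ := h.exists_Q hG hf hd hs
  rw [h3] at hQd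
  have hQ1 : Q = 1 := hQm.natDegree_eq_zero.1 (by omega)
  rw [hQ1, hg] at hQ
  have k1 := F4_cancel hE.ne_zero hQ
  -- the block of degree 2
  obtain ⟨P, hPm, hPd, hPs, hP⟩ := h'.exists_Q hG hf hd hs
  rw [h2] at hPd
  rw [hg, mul_comm E E'] at hP
  have k2 := F4_cancel hE'.ne_zero hP
  obtain ⟨b, c, d, hbcd⟩ := exists_shift3 n3 hE h3
  obtain ⟨u, w, hPu⟩ := exists_shift2 b hPm (by omega)
  have hE'' : E' = qd b (-c / 3) := by
    have e6 : (6 : L[X]) ≠ 0 := by
      rw [← map_ofNat (C : L →+* L[X]) 6]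
      exact C_ne_zero.2 n6
    have e2 : (2 : L[X]) ≠ 0 := by
      rw [← map_ofNat (C : L →+* L[X]) 2]
      exact C_ne_zero.2 n2
    apply mul_left_cancel₀ e6
    rw [← k1, hbcd, qd]
    have e7 : (C c : L[X]) = - 3 * C (-c / 3) := by
      have : (-3 : L[X]) = C (-3) := by
        rw [C_neg, map_ofNat]
      rw [this, ← C_mul]
      congr 1
      field_simp
    rw [e7]
    simp only [derivative_add, derivative_mul, derivative_pow, derivative_sub, derivative_X,
      derivative_C, Nat.cast_ofNat, Nat.add_one_sub_one, sub_zero, mul_one, derivative_one,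
      mul_zero, add_zero, map_ofNat, derivative_neg, derivative_ofNat, neg_zero, zero_mul,
      zero_add]
    ring
  have ev : ∀ y : L, 4 * y * (y ^ 2 + u * y + w) + (y ^ 2 + c / 3) * (2 * y + u) =
      6 * (y ^ 3 + c * y + d) := by
    intro y
    have := congrArg (eval (b + y)) k2
    rw [hE'', hPu, hbcd] at this
    simp only [qd, derivative_sub, derivative_add, derivative_mul, derivative_pow, derivative_X,
      derivative_C, eval_add, eval_sub, eval_mul, eval_pow, eval_X, eval_C, eval_ofNat,
      Nat.cast_ofNat, map_ofNat, Nat.add_one_sub_one, pow_one, sub_zero,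
      add_zero, mul_one, zero_mul, zero_add] at this
    linear_combination this
  have c0 := ev 0
  have c1 := ev 1
  have c2 := ev (-1)
  have hu : u = 0 := by
    have : 2 * (5 * u) = 0 := by
      linear_combination c1 + c2 - 2 * c0
    rcases mul_eq_zero.1 this with h0 | h0
    · exact absurd h0 n2
    · exact (mul_eq_zero.1 h0).resolve_left n5
  have hd0 : d = 0 := by
    have : 6 * d = 0 := by
      rw [hu] at c0
      linear_combination -c0
    exact (mul_eq_zero.1 this).resolve_left n6
  have hER : E = R32 b c := by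
    rw [hbcd, hd0, R32]
    simp
  refine ⟨b, c, ?_, hER, hE'', ?_⟩
  · rintro rfl
    have hsq : Squarefree E' := h'.2.2.1
    rw [hE'', qd] at hsq
    have : ¬ Squarefree ((X - C b) ^ 2 - C (-0 / 3) : L[X]) := by
      intro hsq
      have hdv : (X - C b) * (X - C b) ∣ ((X - C b) ^ 2 - C (-0 / 3) : L[X]) := by
        simp [sq]
      have := hsq _ hdv
      exact (not_isUnit_X_sub_C b) this
    exact this hsq
  · rw [hg, f32, hER, S32, hE'']

end SBr
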