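import Pool.Agent.H.MP_cc3311_ag.C0b
import Pool.Agent.H.MP_cc3311_ag.C0c
import Pool.Agent.H.MP_cc3311_ag.F0

/-!
# MP_cc3311_ag, F5: classification in degree 5, two blocks of degree 2: the equations
-/

set_option autoImplicit false

namespace SBr

open Polynomial

variable {L : Type} [Field L] [IsAlgClosed L]

/-- The polynomial is `(X - l) E E'`. -/
theorem exists_l {f E E' : L[X]} (hf : f.Monic) (hd : f.natDegree = 5)
    (h : Block f E) (h' : Block f E') (hne : E ≠ E') (h2 : E.natDegree = 2)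
    (h2' : E'.natDegree = 2) : ∃ l : L, f = (X - C l) * E * E' := by
  obtain ⟨g, hg⟩ : E * E' ∣ f := (h.isCoprime h' hne).mul_dvd h.dvd h'.dvd
  have hE : E.Monic := h.1
  have hE' : E'.Monic := h'.1
  have hEE : (E * E').Monic := hE.mul hE'
  have hgm : g.Monic := by
    rw [hg] at hf
    exact Monic.of_mul_monic_left hEE hf
  have hgd : g.natDegree = 1 := by
    have h1 : (E * E' * g).natDegree = (E * E').natDegree + g.natDegree :=
      hEE.natDegree_mul hgm
    rw [← hg, hd, hE.natDegree_mul hE', h2, h2'] at h1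
    omega
  refine ⟨-g.coeff 0, ?_⟩
  have hgX := hgm.eq_X_add_C hgd
  have : X - C (-g.coeff 0) = g := by
    rw [C_neg, sub_neg_eq_add]
    exact hgX.symm
  rw [this, hg]
  ring

/-- THE EQUATIONS OF A BLOCK.
PROOF. `Block.exists_Q` gives `Q = y ^ 2 + u y + w`, `y = X - l` (`exists_shift2`), with
`2 E' Q + E Q' = 6 (X - l) E2` (cancel `E`), i.e.
`4 (y - m) (y ^ 2 + u y + w) + ((y - m) ^ 2 - H) (2 y + u) = 6 y ((y - n) ^ 2 - K)`.
Coefficients: `y ^ 2`: `5 u = 8 m - 12 n`; `y`: `4 w = 6 n ^ 2 - 6 K + 6 m u - 2 m ^ 2 + 2 H`;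
`1`: `- 4 m w + u (m ^ 2 - H) = 0`. Eliminating `w`, `u` gives the first equation; `Q` is squarefree, so
`u ^ 2 ≠ 4 w`. (Evaluate at `y = 0, 1, -1, 2` or compare coefficients.) -/
theorem block_eqs (hG : Good L 5) {l m H n K : L}
    (hs : Squarefree ((X - C l) * qd (l + m) H * qd (l + n) K))
    (h : Block ((X - C l) * qd (l + m) H * qd (l + n) K) (qd (l + m) H)) :
    5 * m * ((m - n) ^ 2 - K) + (3 * m - 2 * n) * H = 0 ∧
    ∃ u : L, 5 * u = 8 * m - 12 * n ∧
      u ^ 2 ≠ 6 * n ^ 2 - 6 * K + 6 * m * u - 2 * m ^ 2 + 2 * H := by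
  have h2 : (2 : L) ≠ 0 := by
    have := hG 2 (by norm_num) (by norm_num)
    exact_mod_cast this
  have h6 : (6 : L) ≠ 0 := by
    have := hG 6 (by norm_num) (by norm_num)
    exact_mod_cast this
  have hfm : ((X - C l) * qd (l + m) H * qd (l + n) K).Monic :=
    ((monic_X_sub_C l).mul (qd_monic _ _)).mul (qd_monic _ _)
  have hfd : ((X - C l) * qd (l + m) H * qd (l + n) K).natDegree = 5 := by
    rw [((monic_X_sub_C l).mul (qd_monic _ _)).natDegree_mul (qd_monic _ _),
      (monic_X_sub_C l).natDegree_mul (qd_monic _ _), natDegree_X_sub_C, qd_natDegree,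
      qd_natDegree]
  obtain ⟨Q, hQm, hQd, hQs, hQ⟩ := h.exists_Q hG hfm hfd hs
  rw [qd_natDegree] at hQd
  obtain ⟨u, w, rfl⟩ := exists_shift2 l hQm (by omega)
  have hE0 : qd (l + m) H ≠ 0 := (qd_monic _ _).ne_zero
  have key : 2 * derivative (qd (l + m) H) * ((X - C l) ^ 2 + C u * (X - C l) + C w) +
      qd (l + m) H * derivative ((X - C l) ^ 2 + C u * (X - C l) + C w) =
      6 * (X - C l) * qd (l + n) K := by
    apply mul_left_cancel₀ hE0
    have e1 : derivative (qd (l + m) H ^ 2 * ((X - C l) ^ 2 + C u * (X - C l) + C w)) =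
        qd (l + m) H * (2 * derivative (qd (l + m) H) *
          ((X - C l) ^ 2 + C u * (X - C l) + C w) +
          qd (l + m) H * derivative ((X - C l) ^ 2 + C u * (X - C l) + C w)) := by
      rw [derivative_mul, derivative_pow]
      simp only [Nat.cast_ofNat, Nat.add_one_sub_one, pow_one, map_ofNat]
      ring
    rw [← e1, hQ]
    have e2 : (C (((5 : ℕ) : L) + 1) : L[X]) = 6 := by
      have : (((5 : ℕ) : L) + 1) = 6 := by norm_num
      rw [this, map_ofNat]
    rw [e2]
    ring
  have ev : ∀ y : L, 4 * (y - m) * (y ^ 2 + u * y + w) + ((y - m) ^ 2 - H) * (2 * y + u) =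
      6 * y * ((y - n) ^ 2 - K) := by
    intro y
    have := congrArg (eval (l + y)) key
    simp only [qd, derivative_sub, derivative_add, derivative_mul, derivative_pow, derivative_X,
      derivative_C, eval_add, eval_sub, eval_mul, eval_pow, eval_X, eval_C, eval_ofNat,
      Nat.cast_ofNat, map_ofNat, Nat.add_one_sub_one, pow_one, sub_zero,
      add_zero, mul_one, zero_mul, zero_add] at this
    linear_combination this
  have c0 := ev 0
  have c1 := ev 1
  have c2 := ev (-1)
  have k2 : 5 * u = 8 * m - 12 * n := by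
    apply mul_left_cancel₀ h2
    linear_combination c1 + c2 - 2 * c0
  have k1 : 4 * w = 6 * n ^ 2 - 6 * K + 6 * m * u - 2 * m ^ 2 + 2 * H := by
    apply mul_left_cancel₀ h2
    linear_combination c1 - c2
  refine ⟨?_, u, k2, ?_⟩
  · apply mul_left_cancel₀ h6
    linear_combination (-5 : L) * c0 - 5 * m * k1 + (m ^ 2 - H - 6 * m ^ 2) * k2
  · intro hu
    have hq : (X - C l) ^ 2 + C u * (X - C l) + C w = qd (l - u / 2) (u ^ 2 / 4 - w) := by
      have e3 : (C (l - u / 2) : L[X]) = C l - C (u / 2) := by rw [C_sub]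
      have e4 : (C u : L[X]) = 2 * C (u / 2) := by
        rw [← map_ofNat (C : L →+* L[X]) 2, ← C_mul]
        congr 1
        field_simp
      have e5 : (C (u ^ 2 / 4 - w) : L[X]) = C (u / 2) ^ 2 - C w := by
        rw [C_sub, ← C_pow]
        congr 2
        rw [div_pow]
        norm_num
      rw [qd, e3, e4, e5]
      ring
    rw [hq, sqfree_qd h2] at hQs
    apply hQs
    have h4 : (4 : L) ≠ 0 := by
      have : (4 : L) = 2 * 2 := by norm_num
      rw [this]
      exact mul_ne_zero h2 h2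
    rw [sub_eq_zero, div_eq_iff h4, hu, ← k1]
    ring

end SBr
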