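import Pool.Agent.H.MP_cc3311_ag.F6a
import Pool.Agent.H.MP_cc3311_ag.F2a

/-!
# MP_cc3311_ag, F6: classification in degree 5
-/

set_option autoImplicit false

namespace SBr

open Polynomial

variable {L : Type} [Field L] [IsAlgClosed L]

theorem F6_num {L : Type} [Field L] (hG : Good L 5) :
    (2 : L) ≠ 0 ∧ (3 : L) ≠ 0 ∧ (5 : L) ≠ 0 := by
  refine ⟨?_, ?_, ?_⟩
  · have := hG 2 (by norm_num) (by norm_num); exact_mod_cast this
  · have := hG 3 (by norm_num) (by norm_num); exact_mod_cast this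
  · have := hG 5 (by norm_num) (by norm_num); exact_mod_cast this

/-- `t = 0` is impossible. -/
theorem F6_t0 {L : Type} [Field L] (hG : Good L 5) {s t u : L}
    (h5 : 5 * u = 8 * ((3 - t) * s) - 12 * ((2 + t) * s))
    (hu : u ^ 2 ≠ 6 * ((2 + t) * s) ^ 2 - 6 * HA s (1 - t) + 6 * ((3 - t) * s) * u -
      2 * ((3 - t) * s) ^ 2 + 2 * HA s t) : t ≠ 0 := by
  obtain ⟨n2, n3, n5⟩ := F6_num hG
  rintro rfl
  have hu0 : u = 0 := by
    have : 5 * u = 0 := by rw [h5]; ring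
    rcases mul_eq_zero.1 this with h | h
    · exact absurd h n5
    · exact h
  apply hu
  rw [hu0]
  unfold HA
  field_simp
  ring

/-- `l` is not a root of a factor. -/
theorem F6_root {L : Type} [Field L] {l : L} {E E' : L[X]}
    (hs : Squarefree ((X - C l) * E * E')) : E.eval l ≠ 0 ∧ E'.eval l ≠ 0 := by
  constructor
  · intro h0
    have hd : (X - C l) ∣ E := dvd_iff_isRoot.2 h0
    obtain ⟨g, hg⟩ := hd
    have := hs (X - C l) ⟨g * E', by rw [hg]; ring⟩
    exact not_isUnit_X_sub_C l this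
  · intro h0
    have hd : (X - C l) ∣ E' := dvd_iff_isRoot.2 h0
    obtain ⟨g, hg⟩ := hd
    have := hs (X - C l) ⟨g * E, by rw [hg]; ring⟩
    exact not_isUnit_X_sub_C l this

/-- Two blocks of degree 2. PROOF. `exists_qd`, `exists_l`, `block_eqs` for both blocks (the second
after `mul_comm`), `solveA`, `solveB`. Then the conditions: `H ≠ 0`, `K ≠ 0` (blocks are squarefree)
give `t ≠ 3, -1, 1/2, -2, 2`; `u ^ 2 ≠ 4 w` gives `t ≠ 0` (for `t = 0`: `m = 3 s`, `n = 2 s`,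
`H = s ^ 2`, `K = (4 / 3) s ^ 2`, `u = 0`, `4 w = 0`), by symmetry `t ≠ 1`; `l` is not a root of `E`,
`E'` because `f` is squarefree: `t ^ 3 ≠ 2`, `(1 - t) ^ 3 ≠ 2`
(`m ^ 2 - H = (4 / 3) (3 - t) (2 - t ^ 3) s ^ 2`). For `m = n = 0`: `H ≠ K` because the blocks are
different, `u = 0`, `4 w = 2 H - 6 K ≠ 0` is `H ≠ 3 K`. -/
theorem cls22 (hG : Good L 5) {f E E' : L[X]} (hf : f.Monic) (hd : f.natDegree = 5)
    (hs : Squarefree f) (h : Block f E) (h' : Block f E') (hne : E ≠ E')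
    (h2 : E.natDegree = 2) (h2' : E'.natDegree = 2) :
    (∃ l s t : L, s ≠ 0 ∧ okA t ∧ E = EA l s t ∧ E' = EA l s (1 - t) ∧ f = fA l s t) ∨
    (∃ l H K : L, okB H K ∧ E = qd l H ∧ E' = qd l K ∧ f = fB l H K) := by
  obtain ⟨n2, n3, n5⟩ := F6_num hG
  obtain ⟨l, hl⟩ := exists_l hf hd h h' hne h2 h2'
  obtain ⟨a, H, hE⟩ := exists_qd n2 h.1 h2
  obtain ⟨b, K, hE'⟩ := exists_qd n2 h'.1 h2'
  obtain ⟨m, rfl⟩ : ∃ m : L, a = l + m := ⟨a - l, by ring⟩
  obtain ⟨n, rfl⟩ : ∃ n : L, b = l + n := ⟨b - l, by ring⟩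
  have sqE : Squarefree E := h.2.2.1
  have sqE' : Squarefree E' := h'.2.2.1
  subst hE
  subst hE'
  subst hl
  have hH : H ≠ 0 := (sqfree_qd n2 _ _).1 sqE
  have hK : K ≠ 0 := (sqfree_qd n2 _ _).1 sqE'
  obtain ⟨e1, u, hu5, hu⟩ := block_eqs hG hs h
  have hcomm : (X - C l) * qd (l + m) H * qd (l + n) K
      = (X - C l) * qd (l + n) K * qd (l + m) H := by ring
  have hs' := hs
  have h'' := h'
  rw [hcomm] at hs' h''
  obtain ⟨e2, u', hu5', hu'⟩ := block_eqs hG hs' h''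
  by_cases hmn : m + n = 0
  · right
    obtain ⟨rfl, rfl⟩ := solveB hG e1 e2 hmn
    have hu0 : u = 0 := by
      have : 5 * u = 0 := by rw [hu5]; ring
      rcases mul_eq_zero.1 this with h | h
      · exact absurd h n5
      · exact h
    have hu0' : u' = 0 := by
      have : 5 * u' = 0 := by rw [hu5']; ring
      rcases mul_eq_zero.1 this with h | h
      · exact absurd h n5
      · exact h
    refine ⟨l, H, K, ⟨hH, hK, ?_, ?_, ?_⟩, by rw [add_zero], by rw [add_zero], ?_⟩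
    · rintro rfl; exact hne rfl
    · rintro rfl; apply hu; rw [hu0]; ring
    · rintro rfl; apply hu'; rw [hu0']; ring
    · unfold fB; rw [add_zero]
  · left
    obtain ⟨s, t, hs0, rfl, rfl, rfl, rfl⟩ := solveA hG e1 e2 hmn
    have hEA : qd (l + (3 - t) * s) (HA s t) = EA l s t := rfl
    have hEA' : qd (l + (2 + t) * s) (HA s (1 - t)) = EA l s (1 - t) := by
      unfold EA
      congr 1
      ring
    have hr := F6_root hs
    refine ⟨l, s, t, hs0, ?_, hEA, hEA', ?_⟩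
    · refine ⟨?_, ?_, ?_, ?_, ?_, ?_, ?_, ?_, ?_⟩
      · rintro rfl; apply hH; unfold HA; ring
      · rintro rfl; apply hK; unfold HA; ring
      · intro h1; apply hH; unfold HA; rw [h1]; ring
      · rintro rfl; apply hH; unfold HA; ring
      · rintro rfl; apply hK; unfold HA; ring
      · exact F6_t0 hG hu5 hu
      · have hx : (1 - t) ≠ 0 := by
          refine F6_t0 hG (s := s) (u := u') ?_ ?_
          · rw [hu5']; ring
          · have e : (1 : L) - (1 - t) = t := by ring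
            rw [e]
            intro hc
            apply hu'
            rw [hc]
            ring
        intro h1; apply hx; rw [h1]; ring
      · intro h3
        apply hr.1
        rw [hEA, EA_eval n3, h3]; ring
      · intro h3
        apply hr.2
        rw [hEA', EA_eval n3, h3]; ring
    · unfold fA
      rw [hEA, hEA']

/-- All together. -/
theorem cls5 (hG : Good L 5) {f E E' : L[X]} (hf : f.Monic) (hd : f.natDegree = 5)
    (hs : Squarefree f) (h : Block f E) (h' : Block f E') (hne : E ≠ E') :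
    (∃ l s t : L, s ≠ 0 ∧ okA t ∧ E = EA l s t ∧ f = fA l s t) ∨
    (∃ l H K : L, okB H K ∧ E = qd l H ∧ f = fB l H K) ∨
    (∃ b c : L, c ≠ 0 ∧ E = R32 b c ∧ f = f32 b c) ∨
    (∃ b c : L, c ≠ 0 ∧ E = S32 b c ∧ f = f32 b c) := by
  rcases deg5 hf hd h h' hne with ⟨h3, h2⟩ | ⟨h2, h3⟩ | ⟨h2, h2'⟩
  · obtain ⟨b, c, hc, e1, e2, e3⟩ := cls32 hG hf hd hs h h' h3 h2
    exact Or.inr (Or.inr (Or.inl ⟨b, c, hc, e1, e3⟩))
  · obtain ⟨b, c, hc, e1, e2, e3⟩ := cls32 hG hf hd hs h' h h3 h2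
    exact Or.inr (Or.inr (Or.inr ⟨b, c, hc, e2, e3⟩))
  · rcases cls22 hG hf hd hs h h' hne h2 h2' with ⟨l, s, t, a1, a2, a3, a4, a5⟩ |
      ⟨l, H, K, a1, a2, a3, a4⟩
    · exact Or.inl ⟨l, s, t, a1, a2, a3, a5⟩
    · exact Or.inr (Or.inl ⟨l, H, K, a1, a2, a4⟩)

end SBr
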