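import Pool.Agent.H.MP_cc3311_ag.F4
import Pool.Agent.H.MP_cc3311_ag.F5

/-!
# MP_cc3311_ag, F6a: solution of the equations
-/

set_option autoImplicit false

namespace SBr

open Polynomial

variable {L : Type} [Field L] [IsAlgClosed L]

/-- The two equations, `m + n ≠ 0`. With `5 s = m + n`, `m = (3 - t) s`, `n = (2 + t) s`
(`t = 3 - m / s`). PROOF. `det = - 6 (m + n) ^ 2`:
`3 (m + n) ^ 2 H = 5 m (m - n) ^ 2 (4 n - m)`, and the same with the roles exchanged. -/
theorem solveA {m n H K : L} (hG : Good L 5)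
    (h1 : 5 * m * ((m - n) ^ 2 - K) + (3 * m - 2 * n) * H = 0)
    (h2 : 5 * n * ((n - m) ^ 2 - H) + (3 * n - 2 * m) * K = 0) (hmn : m + n ≠ 0) :
    ∃ s t : L, s ≠ 0 ∧ m = (3 - t) * s ∧ n = (2 + t) * s ∧ H = HA s t ∧ K = HA s (1 - t) := by
  have h2' : (2 : L) ≠ 0 := by
    have := hG 2 (by norm_num) (by norm_num)
    exact_mod_cast this
  have h3' : (3 : L) ≠ 0 := by
    have := hG 3 (by norm_num) (by norm_num)
    exact_mod_cast this
  have h5' : (5 : L) ≠ 0 := by
    have := hG 5 (by norm_num) (by norm_num)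
    exact_mod_cast this
  have e1 : 3 * (m + n) ^ 2 * H = 5 * m * (m - n) ^ 2 * (4 * n - m) := by
    apply mul_left_cancel₀ h2'
    linear_combination (-(3 * n - 2 * m)) * h1 - 5 * m * h2
  have e2 : 3 * (m + n) ^ 2 * K = 5 * n * (m - n) ^ 2 * (4 * m - n) := by
    apply mul_left_cancel₀ h2'
    linear_combination (-(3 * m - 2 * n)) * h2 - 5 * n * h1
  obtain ⟨s, hs⟩ : ∃ s : L, m + n = 5 * s := ⟨(m + n) / 5, by field_simp⟩
  have hs0 : s ≠ 0 := by
    rintro rfl
    exact hmn (by rw [hs, mul_zero])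
  obtain ⟨t, ht⟩ : ∃ t : L, m = (3 - t) * s := ⟨3 - m / s, by field_simp; ring⟩
  have hn : n = (2 + t) * s := by linear_combination hs - ht
  subst ht
  subst hn
  have h6 : 3 * s ^ 2 * 25 ≠ 0 := by
    have : (25 : L) = 5 ^ 2 := by norm_num
    rw [this]
    exact mul_ne_zero (mul_ne_zero h3' (pow_ne_zero _ hs0)) (pow_ne_zero _ h5')
  have hA : ∀ t' : L, HA s t' * 3 = s ^ 2 * (3 - t') * (1 + t') * (1 - 2 * t') ^ 2 := by
    intro t'
    unfold HA
    exact div_mul_cancel₀ _ h3'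
  refine ⟨s, t, hs0, rfl, rfl, ?_, ?_⟩
  · apply mul_left_cancel₀ h6
    linear_combination e1 - 25 * s ^ 2 * hA t
  · apply mul_left_cancel₀ h6
    linear_combination e2 - 25 * s ^ 2 * hA (1 - t)

/-- `m + n = 0`: adding gives `m ^ 3 = 0`. -/
theorem solveB {m n H K : L} (hG : Good L 5)
    (h1 : 5 * m * ((m - n) ^ 2 - K) + (3 * m - 2 * n) * H = 0)
    (h2 : 5 * n * ((n - m) ^ 2 - H) + (3 * n - 2 * m) * K = 0) (hmn : m + n = 0) :
    m = 0 ∧ n = 0 := by
  have h2' : (2 : L) ≠ 0 := by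
    have := hG 2 (by norm_num) (by norm_num)
    exact_mod_cast this
  have h5' : (5 : L) ≠ 0 := by
    have := hG 5 (by norm_num) (by norm_num)
    exact_mod_cast this
  have hn : n = -m := by linear_combination hmn
  subst hn
  have h40 : (2 : L) ^ 3 * 5 ≠ 0 := mul_ne_zero (pow_ne_zero _ h2') h5'
  have hm : m ^ 3 = 0 := by
    apply mul_left_cancel₀ h40
    linear_combination h1 - h2
  have hm0 : m = 0 := by
    simpa using hm
  subst hm0
  simp

end SBr
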