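import Pool.Agent.H.MP_cc3311_ag.F2
import Pool.Agent.H.MP_cc3311_ag.F3

/-!
# MP_cc3311_ag, F7: uniqueness of the parameters, the types are disjoint
-/

set_option autoImplicit false

namespace SBr

open Polynomial

variable {L : Type} [Field L] [IsAlgClosed L]

/-- The blocks of `fA l s t` are `EA l s t` and `EA l s (1 - t)`. Proof: `block_only`, `EA_ne`. -/
theorem fA_blocks (hG : Good L 5) {l s t : L} (hs : s ≠ 0) (ht : okA t) {E : L[X]}
    (h : Block (fA l s t) E) : E = EA l s t ∨ E = EA l s (1 - t) :=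
  block_only (fA_monic l s t).ne_zero (fA_natDegree l s t).le (fA_block hG hs ht)
    (fA_block' hG hs ht) (EA_ne hG hs ht) h

theorem F7_five (hG : Good L 5) : (5 : L) ≠ 0 := by
  have h := hG 5 (by norm_num) (by norm_num)
  simpa using h

theorem F7_two (hG : Good L 5) : (2 : L) ≠ 0 := by
  have h := hG 2 (by norm_num) (by norm_num)
  simpa using h

theorem F7_three (hG : Good L 5) : (3 : L) ≠ 0 := by
  have h := hG 3 (by norm_num) (by norm_num)
  simpa using h

/-- PROOF. The other blocks are equal (`fA_blocks`, `EA_ne`), so `l = l'` (cancel `E E'`); compare the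
centres of the blocks (`qd_inj`): `(3 - t) s = (3 - t') s'`, `(2 + t) s = (2 + t') s'`; add them. -/
theorem fA_inj (hG : Good L 5) {l s t l' s' t' : L} (hs : s ≠ 0) (ht : okA t) (hs' : s' ≠ 0)
    (ht' : okA t') (h : fA l s t = fA l' s' t') (h' : EA l s t = EA l' s' t') :
    l = l' ∧ s = s' ∧ t = t' := by
  have hb : Block (fA l s t) (EA l' s' (1 - t')) := by
    rw [h]
    exact fA_block' hG hs' ht'
  have h2 : EA l' s' (1 - t') = EA l s (1 - t) := by
    rcases fA_blocks hG hs ht hb with h1 | h1
    · exfalso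
      exact EA_ne hG hs' ht' (by rw [← h', ← h1])
    · exact h1
  have hl : l = l' := by
    unfold fA at h
    rw [h2, h', mul_assoc, mul_assoc] at h
    have hne : EA l' s' t' * EA l s (1 - t) ≠ 0 := by
      unfold EA
      exact mul_ne_zero (qd_monic _ _).ne_zero (qd_monic _ _).ne_zero
    have h3 := mul_right_cancel₀ hne h
    have h4 : (C l : L[X]) = C l' := by linear_combination -h3
    exact C_injective h4
  subst hl
  unfold EA at h' h2
  obtain ⟨h3, -⟩ := qd_inj (F7_two hG) h'
  obtain ⟨h4, -⟩ := qd_inj (F7_two hG) h2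
  have h5 : 5 * (s - s') = 0 := by linear_combination h3 - h4
  have h6 : s = s' := by
    rcases mul_eq_zero.1 h5 with h6 | h6
    · exact absurd h6 (F7_five hG)
    · exact sub_eq_zero.1 h6
  subst h6
  refine ⟨rfl, rfl, ?_⟩
  have h7 : s * (t - t') = 0 := by linear_combination -h3
  rcases mul_eq_zero.1 h7 with h8 | h8
  · exact absurd h8 hs
  · exact sub_eq_zero.1 h8

/-- PROOF. `exists_t`, `fA_eq_gA`, `okA_iff`; by `fA_blocks` the block `EA l' s' t'` is `EA l s t` or
`EA l s (1 - t)`; `fA_inj` (and `fA_symm`). -/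
theorem gA_inj (hG : Good L 5) {l s e l' s' e' : L} (hs : s ≠ 0) (he : okE e) (hs' : s' ≠ 0)
    (he' : okE e') (h : gA l s e = gA l' s' e') : l = l' ∧ s = s' ∧ e = e' := by
  obtain ⟨t, rfl⟩ := exists_t e
  obtain ⟨t', rfl⟩ := exists_t e'
  have ht : okA t := (okA_iff t).2 he
  have ht' : okA t' := (okA_iff t').2 he'
  rw [← fA_eq_gA (F7_three hG), ← fA_eq_gA (F7_three hG)] at h
  have hb : Block (fA l s t) (EA l' s' t') := by
    rw [h]
    exact fA_block hG hs' ht'
  rcases fA_blocks hG hs ht hb with h1 | h1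
  · obtain ⟨h2, h3, h4⟩ := fA_inj hG hs ht hs' ht' h h1.symm
    exact ⟨h2, h3, by rw [h4]⟩
  · rw [← fA_symm] at h
    obtain ⟨h2, h3, h4⟩ := fA_inj hG hs (okA_symm ht) hs' ht' h h1.symm
    exact ⟨h2, h3, by rw [← h4]; ring⟩

/-- Type A and type B are disjoint. PROOF. The blocks `qd l' H`, `qd l' K` (different) of `f` are
`EA l s t` and `EA l s (1 - t)` in some order; both have centre `l'`, so `(3 - t) s = (2 + t) s`,
`2 t = 1`. -/
theorem AB_disjoint (hG : Good L 5) {l s t l' H K : L} (hs : s ≠ 0) (ht : okA t)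
    (h : okB H K) : fA l s t ≠ fB l' H K := by
  intro he
  have h1 : Block (fA l s t) (qd l' H) := by
    rw [he]
    exact fB_block hG h
  have h2 : Block (fA l s t) (qd l' K) := by
    rw [he]
    exact fB_block' hG h
  have hHK : qd l' H ≠ qd l' K := fun h3 => h.2.2.1 (qd_inj (F7_two hG) h3).2
  have key : ∀ {A B : L}, qd l' A = EA l s t → qd l' B = EA l s (1 - t) → False := by
    intro A B hA hB
    unfold EA at hA hB
    have h3 := (qd_inj (F7_two hG) hA).1
    have h4 := (qd_inj (F7_two hG) hB).1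
    have h5 : s * (2 * t - 1) = 0 := by linear_combination h3 - h4
    rcases mul_eq_zero.1 h5 with h6 | h6
    · exact hs h6
    · exact ht.2.2.1 (sub_eq_zero.1 h6)
  rcases fA_blocks hG hs ht h1 with h3 | h3 <;> rcases fA_blocks hG hs ht h2 with h4 | h4
  · exact hHK (h3.trans h4.symm)
  · exact key h3 h4
  · exact key h4 h3
  · exact hHK (h3.trans h4.symm)

/-- The blocks of type A have degree 2. -/
theorem A32_disjoint (hG : Good L 5) {l s t b c : L} (hs : s ≠ 0) (ht : okA t) (hc : c ≠ 0) :
    fA l s t ≠ f32 b c := by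
  intro he
  have h1 : Block (fA l s t) (R32 b c) := by
    rw [he]
    exact f32_block hG hc
  have h2 := R32_natDegree b c
  rcases fA_blocks hG hs ht h1 with h3 | h3
  · rw [h3] at h2
    unfold EA at h2
    rw [qd_natDegree] at h2
    exact absurd h2 (by norm_num)
  · rw [h3] at h2
    unfold EA at h2
    rw [qd_natDegree] at h2
    exact absurd h2 (by norm_num)

theorem B32_disjoint (hG : Good L 5) {l H K b c : L} (h : okB H K) (hc : c ≠ 0) :
    fB l H K ≠ f32 b c := by
  intro he
  have h1 : Block (fB l H K) (R32 b c) := by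
    rw [he]
    exact f32_block hG hc
  have h2 := R32_natDegree b c
  have hHK : qd l H ≠ qd l K := fun h3 => h.2.2.1 (qd_inj (F7_two hG) h3).2
  rcases block_only (fB_monic l H K).ne_zero (fB_natDegree l H K).le (fB_block hG h)
    (fB_block' hG h) hHK h1 with h3 | h3
  · rw [h3, qd_natDegree] at h2
    exact absurd h2 (by norm_num)
  · rw [h3, qd_natDegree] at h2
    exact absurd h2 (by norm_num)

end SBr
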