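import Pool.Agent.H.MP_cc3311_ag.F8a

/-!
# MP_cc3311_ag, F8c: the set `TT K 5`
-/

set_option autoImplicit false

namespace SBr

open Polynomial

variable (K : Type) [Field K] [Fintype K]

theorem F8c_two {L : Type} [Field L] (hG : Good L 5) : (2 : L) ≠ 0 := by
  have := hG 2 (by norm_num) (by norm_num)
  exact_mod_cast this

theorem F8c_three {L : Type} [Field L] (hG : Good L 5) : (3 : L) ≠ 0 := by
  have := hG 3 (by norm_num) (by norm_num)
  exact_mod_cast this

/-- A polynomial which becomes a squarefree monic polynomial of degree 5. -/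
theorem F8c_sq {f : K[X]} (h1 : (up f).Monic) (h2 : (up f).natDegree = 5)
    (h3 : Squarefree (up f)) : f ∈ Sq K 5 :=
  ⟨up_monic.1 h1, by rw [← up_natDegree]; exact h2, up_squarefree.1 h3⟩

/-- As `WW5_eq`, with `fA_eq_gA`, `okA_iff`, `exists_t`, `fB_eq_gB`, `okB_iff`, `exists_HK`. -/
theorem TT5_eq (hG : Good K 5) : TT K 5 = (TA K ∪ TB K) ∪ TR K := by
  have hG' : Good (AlgebraicClosure K) 5 := hG.up
  have h2' := F8c_two hG'
  have h3' := F8c_three hG'
  ext f
  constructor
  · rintro ⟨⟨hf1, hf2, hf3⟩, E, E', hE, hE', hne⟩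
    have g1 : (up f).Monic := up_monic.2 hf1
    have g2 : (up f).natDegree = 5 := by rw [up_natDegree]; exact hf2
    have g3 : Squarefree (up f) := up_squarefree.2 hf3
    rcases cls5 hG' g1 g2 g3 hE hE' hne with ⟨l, s, t, hs, ht, -, h⟩ | ⟨l, H, K', hB, -, h⟩ |
      ⟨b, c, hc, -, h⟩ | ⟨b, c, hc, -, h⟩
    · left; left
      refine ⟨(l, s, t * (1 - t)), ⟨hs, (okA_iff t).1 ht⟩, ?_⟩
      rw [h, fA_eq_gA h3']
    · left; right
      refine ⟨(l, H + K', H * K'), (okB_iff H K').1 hB, ?_⟩
      rw [h, fB_eq_gB]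
    · right
      exact ⟨(b, c), hc, h.symm⟩
    · right
      exact ⟨(b, c), hc, h.symm⟩
  · rintro ((⟨⟨l, s, e⟩, ⟨hs, he⟩, h⟩ | ⟨⟨l, s, p⟩, hS, h⟩) | ⟨⟨b, c⟩, hc, h⟩)
    · simp only at hs he h
      obtain ⟨t, rfl⟩ := exists_t e
      have ht : okA t := (okA_iff t).2 he
      rw [← fA_eq_gA h3'] at h
      refine ⟨F8c_sq K (by rw [← h]; exact fA_monic _ _ _) (by rw [← h]; exact fA_natDegree _ _ _)
        (by rw [← h]; exact fA_squarefree hG' hs ht), EA l s t, EA l s (1 - t), ?_, ?_,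
        EA_ne hG' hs ht⟩
      · rw [← h]; exact fA_block hG' hs ht
      · rw [← h]; exact fA_block' hG' hs ht
    · simp only [Set.mem_setOf_eq] at hS h
      obtain ⟨H, K', rfl, rfl⟩ := exists_HK s p
      have hB : okB H K' := (okB_iff H K').2 hS
      rw [← fB_eq_gB] at h
      refine ⟨F8c_sq K (by rw [← h]; exact fB_monic _ _ _) (by rw [← h]; exact fB_natDegree _ _ _)
        (by rw [← h]; exact fB_squarefree hG' hB), qd l H, qd l K', ?_, ?_, ?_⟩
      · rw [← h]; exact fB_block hG' hB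
      · rw [← h]; exact fB_block' hG' hB
      · intro hq
        exact hB.2.2.1 (qd_inj h2' hq).2
    · simp only [Set.mem_setOf_eq] at hc h
      refine ⟨F8c_sq K (by rw [← h]; exact f32_monic _ _) (by rw [← h]; exact f32_natDegree _ _)
        (by rw [← h]; exact f32_squarefree hG' hc), R32 b c, S32 b c, ?_, ?_, ?_⟩
      · rw [← h]; exact f32_block hG' hc
      · rw [← h]; exact f32_block' hG' hc
      · intro hq
        have := congrArg natDegree hq
        rw [R32_natDegree, S32, qd_natDegree] at this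
        exact absurd this (by norm_num)

end SBr
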