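import Pool.Agent.H.MP_cc3311_ag.F8a

/-!
# MP_cc3311_ag, F8d: the parts are disjoint
-/

set_option autoImplicit false

namespace SBr

open Polynomial

variable (K : Type) [Field K] [Fintype K]

theorem F8d_three {L : Type} [Field L] (hG : Good L 5) : (3 : L) ≠ 0 := by
  have := hG 3 (by norm_num) (by norm_num)
  exact_mod_cast this

/-- Type A as a function of `e`. -/
theorem F8d_gA {L : Type} [Field L] [IsAlgClosed L] (hG : Good L 5) {l s e : L} (he : okE e) :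
    ∃ t : L, okA t ∧ gA l s e = fA l s t := by
  obtain ⟨t, rfl⟩ := exists_t e
  exact ⟨t, (okA_iff t).2 he, (fA_eq_gA (F8d_three hG) l s t).symm⟩

/-- Type B as a function of `s`, `p`. -/
theorem F8d_gB {L : Type} [Field L] [IsAlgClosed L] {l s p : L} (h : okS s p) :
    ∃ H K : L, okB H K ∧ gB l s p = fB l H K := by
  obtain ⟨H, K, rfl, rfl⟩ := exists_HK s p
  exact ⟨H, K, (okB_iff H K).2 h, (fB_eq_gB l H K).symm⟩

theorem WW5_disj (hG : Good K 5) : Disjoint (WA K) (WB K) ∧ Disjoint (WR K) (WS K) ∧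
    Disjoint (WA K ∪ WB K) (WR K ∪ WS K) := by
  have hG' : Good (AlgebraicClosure K) 5 := hG.up
  refine ⟨?_, ?_, ?_⟩
  · rw [Set.disjoint_left]
    rintro y ⟨⟨l, s, t⟩, ⟨hs, ht⟩, hy⟩ ⟨⟨l', H, J⟩, hB, hy'⟩
    have h := hy.trans hy'.symm
    rw [Prod.mk.injEq] at h
    exact AB_disjoint hG' hs ht hB h.1
  · rw [Set.disjoint_left]
    rintro y ⟨⟨b, c⟩, hc, hy⟩ ⟨⟨b', c'⟩, hc', hy'⟩
    have h := hy.trans hy'.symm
    rw [Prod.mk.injEq] at h
    have h3 := R32_natDegree b c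
    have h2 : (S32 b' c').natDegree = 2 := qd_natDegree _ _
    have h4 : R32 b c = S32 b' c' := h.2
    rw [h4, h2] at h3
    omega
  · rw [Set.disjoint_left]
    rintro y (⟨⟨l, s, t⟩, ⟨hs, ht⟩, hy⟩ | ⟨⟨l, H, J⟩, hB, hy⟩)
      (⟨⟨b, c⟩, hc, hy'⟩ | ⟨⟨b, c⟩, hc, hy'⟩)
    all_goals
      have h := hy.trans hy'.symm
      rw [Prod.mk.injEq] at h
      first
        | exact A32_disjoint hG' hs ht hc h.1
        | exact B32_disjoint hG' hB hc h.1

theorem TT5_disj (hG : Good K 5) : Disjoint (TA K) (TB K) ∧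
    Disjoint (TA K ∪ TB K) (TR K) := by
  have hG' : Good (AlgebraicClosure K) 5 := hG.up
  refine ⟨?_, ?_⟩
  · rw [Set.disjoint_left]
    rintro y ⟨⟨l, s, e⟩, ⟨hs, he⟩, hy⟩ ⟨⟨l', s', p⟩, hB, hy'⟩
    obtain ⟨t, ht, h1⟩ := F8d_gA hG' (l := l) (s := s) he
    obtain ⟨H, J, hB', h2⟩ := F8d_gB (l := l') hB
    have h : gA l s e = gB l' s' p := hy.trans hy'.symm
    rw [h1, h2] at h
    exact AB_disjoint hG' hs ht hB' h
  · rw [Set.disjoint_left]
    rintro y (⟨⟨l, s, e⟩, ⟨hs, he⟩, hy⟩ | ⟨⟨l, s, p⟩, hB, hy⟩) ⟨⟨b, c⟩, hc, hy'⟩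
    · obtain ⟨t, ht, h1⟩ := F8d_gA hG' (l := l) (s := s) he
      have h : gA l s e = f32 b c := hy.trans hy'.symm
      rw [h1] at h
      exact A32_disjoint hG' hs ht hc h
    · obtain ⟨H, J, hB', h2⟩ := F8d_gB (l := l) hB
      have h : gB l s p = f32 b c := hy.trans hy'.symm
      rw [h2] at h
      exact B32_disjoint hG' hB' hc h

end SBr
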