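import Pool.Agent.H.MP_cc3311_ag.F6
import Pool.Agent.H.MP_cc3311_ag.F7
import Pool.Agent.H.MP_cc3311_ag.E0

/-!
# MP_cc3311_ag, F8a: the parts of `WW K 5` and `TT K 5`
-/

set_option autoImplicit false

namespace SBr

open Polynomial

variable (K : Type) [Field K] [Fintype K]

/-- Pairs of type A. -/
def WA : Set (K[X] × K[X]) := {y | ∃ x ∈ {x : AlgebraicClosure K × AlgebraicClosure K ×
  AlgebraicClosure K | x.2.1 ≠ 0 ∧ okA x.2.2},
    (fA x.1 x.2.1 x.2.2, EA x.1 x.2.1 x.2.2) = (up y.1, up y.2)}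

/-- Pairs of type B. -/
def WB : Set (K[X] × K[X]) := {y | ∃ x ∈ {x : AlgebraicClosure K × AlgebraicClosure K ×
  AlgebraicClosure K | okB x.2.1 x.2.2},
    (fB x.1 x.2.1 x.2.2, qd x.1 x.2.1) = (up y.1, up y.2)}

/-- Pairs of the third type, the block has degree 3. -/
def WR : Set (K[X] × K[X]) := {y | ∃ x ∈ {x : AlgebraicClosure K × AlgebraicClosure K | x.2 ≠ 0},
    (f32 x.1 x.2, R32 x.1 x.2) = (up y.1, up y.2)}

/-- Pairs of the third type, the block has degree 2. -/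
def WS : Set (K[X] × K[X]) := {y | ∃ x ∈ {x : AlgebraicClosure K × AlgebraicClosure K | x.2 ≠ 0},
    (f32 x.1 x.2, S32 x.1 x.2) = (up y.1, up y.2)}

def TA : Set K[X] := {y | ∃ x ∈ {x : AlgebraicClosure K × AlgebraicClosure K ×
  AlgebraicClosure K | x.2.1 ≠ 0 ∧ okE x.2.2}, gA x.1 x.2.1 x.2.2 = up y}

def TB : Set K[X] := {y | ∃ x ∈ {x : AlgebraicClosure K × AlgebraicClosure K ×
  AlgebraicClosure K | okS x.2.1 x.2.2}, gB x.1 x.2.1 x.2.2 = up y}

def TR : Set K[X] := {y | ∃ x ∈ {x : AlgebraicClosure K × AlgebraicClosure K | x.2 ≠ 0},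
    f32 x.1 x.2 = up y}

end SBr
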