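import Pool.Agent.H.MP_cc3311_ag.F8a

/-!
# MP_cc3311_ag, F8b: the set `WW K 5`
-/

set_option autoImplicit false

namespace SBr

open Polynomial

variable (K : Type) [Field K] [Fintype K]

/-- A polynomial with two different blocks, one of them the given one. -/
theorem F8b_mem {g : (AlgebraicClosure K)[X]} {E E' : (AlgebraicClosure K)[X]}
    {y : K[X] × K[X]} (h1 : g = up y.1) (h2 : E = up y.2) (hm : g.Monic) (hd : g.natDegree = 5)
    (hs : Squarefree g) (hE : Block g E) (hE' : Block g E') (hne : E ≠ E') : y ∈ WW K 5 := by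
  subst h1
  subst h2
  exact ⟨⟨⟨up_monic.1 hm, by rw [← up_natDegree]; exact hd, up_squarefree.1 hs⟩,
    up y.2, E', hE, hE', hne⟩, hE⟩

/-- Proof: `cls5`; conversely `fA_monic`, `fA_natDegree`, `fA_squarefree`, `fA_block`, `fA_block'`,
`EA_ne`, and so on, with `up_monic`, `up_natDegree`, `up_squarefree`. -/
theorem WW5_eq (hG : Good K 5) : WW K 5 = (WA K ∪ WB K) ∪ (WR K ∪ WS K) := by
  have hG' : Good (AlgebraicClosure K) 5 := hG.up
  have h2' : (2 : AlgebraicClosure K) ≠ 0 := by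
    have := hG' 2 (by norm_num) (by norm_num)
    exact_mod_cast this
  ext y
  constructor
  · rintro ⟨⟨⟨hf1, hf2, hf3⟩, E, E', hE, hE', hne⟩, hB⟩
    have g1 : (up y.1).Monic := up_monic.2 hf1
    have g2 : (up y.1).natDegree = 5 := by rw [up_natDegree]; exact hf2
    have g3 : Squarefree (up y.1) := up_squarefree.2 hf3
    obtain ⟨E'', hE'', hne''⟩ : ∃ E'' : (AlgebraicClosure K)[X], Block (up y.1) E'' ∧
        up y.2 ≠ E'' := by
      by_cases h : up y.2 = E
      · exact ⟨E', hE', by rw [h]; exact hne⟩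
      · exact ⟨E, hE, h⟩
    rcases cls5 hG' g1 g2 g3 hB hE'' hne'' with ⟨l, s, t, hs, ht, e1, e2⟩ |
      ⟨l, H, K', hB', e1, e2⟩ | ⟨b, c, hc, e1, e2⟩ | ⟨b, c, hc, e1, e2⟩
    · left; left
      exact ⟨(l, s, t), ⟨hs, ht⟩, by rw [e1, e2]⟩
    · left; right
      exact ⟨(l, H, K'), hB', by rw [e1, e2]⟩
    · right; left
      exact ⟨(b, c), hc, by rw [e1, e2]⟩
    · right; right
      exact ⟨(b, c), hc, by rw [e1, e2]⟩
  · rintro ((⟨⟨l, s, t⟩, ⟨hs, ht⟩, h⟩ | ⟨⟨l, H, K'⟩, hB, h⟩) | (⟨⟨b, c⟩, hc, h⟩ | ⟨⟨b, c⟩, hc, h⟩))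
    · simp only at hs ht h
      obtain ⟨e1, e2⟩ := Prod.mk.inj h
      exact F8b_mem K e1 e2 (fA_monic _ _ _) (fA_natDegree _ _ _) (fA_squarefree hG' hs ht)
        (fA_block hG' hs ht) (fA_block' hG' hs ht) (EA_ne hG' hs ht)
    · simp only at hB h
      obtain ⟨e1, e2⟩ := Prod.mk.inj h
      exact F8b_mem K e1 e2 (fB_monic _ _ _) (fB_natDegree _ _ _) (fB_squarefree hG' hB)
        (fB_block hG' hB) (fB_block' hG' hB) (fun h3 => hB.2.2.1 (qd_inj h2' h3).2)
    · simp only at hc h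
      obtain ⟨e1, e2⟩ := Prod.mk.inj h
      refine F8b_mem K e1 e2 (f32_monic _ _) (f32_natDegree _ _) (f32_squarefree hG' hc)
        (f32_block hG' hc) (f32_block' hG' hc) ?_
      intro h3
      have h4 := R32_natDegree b c
      rw [h3, S32, qd_natDegree] at h4
      exact absurd h4 (by norm_num)
    · simp only at hc h
      obtain ⟨e1, e2⟩ := Prod.mk.inj h
      refine F8b_mem K e1 e2 (f32_monic _ _) (f32_natDegree _ _) (f32_squarefree hG' hc)
        (f32_block' hG' hc) (f32_block hG' hc) ?_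
      intro h3
      have h4 := R32_natDegree b c
      rw [← h3, S32, qd_natDegree] at h4
      exact absurd h4 (by norm_num)

end SBr
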