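import Pool.Agent.H.MP_cc3311_ag.F0

/-!
# MP_cc3311_ag, F9a: maps
-/

set_option autoImplicit false

namespace SBr

open Polynomial

theorem F9a_ne {K L : Type} [Field K] [Field L] (σ : K →+* L) {x y : L} {a b : K}
    (hx : x = σ a) (hy : y = σ b) : x ≠ y ↔ a ≠ b := by
  rw [hx, hy, Ne, Ne, σ.injective.eq_iff]

theorem map_okA {K L : Type} [Field K] [Field L] (σ : K →+* L) (t : K) :
    okA (σ t) ↔ okA t := by
  unfold okA
  rw [F9a_ne σ (x := σ t) (y := 3) (a := t) (b := 3) rfl (by simp [map_ofNat]),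
    F9a_ne σ (x := σ t) (y := -2) (a := t) (b := -2) rfl (by simp [map_ofNat]),
    F9a_ne σ (x := 2 * σ t) (y := 1) (a := 2 * t) (b := 1) (by simp [map_ofNat]) (by simp [map_ofNat]),
    F9a_ne σ (x := σ t) (y := -1) (a := t) (b := -1) rfl (by simp [map_ofNat]),
    F9a_ne σ (x := σ t) (y := 2) (a := t) (b := 2) rfl (by simp [map_ofNat]),
    F9a_ne σ (x := σ t) (y := 0) (a := t) (b := 0) rfl (by simp [map_ofNat]),
    F9a_ne σ (x := σ t) (y := 1) (a := t) (b := 1) rfl (by simp [map_ofNat]),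
    F9a_ne σ (x := (σ t) ^ 3) (y := 2) (a := t ^ 3) (b := 2) (by simp [map_ofNat]) (by simp [map_ofNat]),
    F9a_ne σ (x := (1 - σ t) ^ 3) (y := 2) (a := (1 - t) ^ 3) (b := 2) (by simp [map_ofNat]) (by simp [map_ofNat])]

theorem map_okE {K L : Type} [Field K] [Field L] (σ : K →+* L) (t : K) :
    okE (σ t) ↔ okE t := by
  unfold okE
  rw [F9a_ne σ (x := σ t) (y := -6) (a := t) (b := -6) rfl (by simp [map_ofNat]),
    F9a_ne σ (x := 4 * σ t) (y := 1) (a := 4 * t) (b := 1) (by simp [map_ofNat]) (by simp [map_ofNat]),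
    F9a_ne σ (x := σ t) (y := -2) (a := t) (b := -2) rfl (by simp [map_ofNat]),
    F9a_ne σ (x := σ t) (y := 0) (a := t) (b := 0) rfl (by simp [map_ofNat]),
    F9a_ne σ (x := (σ t) ^ 3 + 6 * σ t + 2) (y := 0) (a := t ^ 3 + 6 * t + 2) (b := 0)
      (by simp [map_ofNat]) (by simp [map_ofNat])]

theorem map_okB {K L : Type} [Field K] [Field L] (σ : K →+* L) (s t : K) :
    okB (σ s) (σ t) ↔ okB s t := by
  unfold okB
  rw [F9a_ne σ (x := σ s) (y := 0) (a := s) (b := 0) rfl (by simp [map_ofNat]),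
    F9a_ne σ (x := σ t) (y := 0) (a := t) (b := 0) rfl (by simp [map_ofNat]),
    F9a_ne σ (x := σ s) (y := σ t) (a := s) (b := t) rfl rfl,
    F9a_ne σ (x := σ s) (y := 3 * σ t) (a := s) (b := 3 * t) rfl (by simp [map_ofNat]),
    F9a_ne σ (x := σ t) (y := 3 * σ s) (a := t) (b := 3 * s) rfl (by simp [map_ofNat])]

theorem map_okS {K L : Type} [Field K] [Field L] (σ : K →+* L) (s t : K) :
    okS (σ s) (σ t) ↔ okS s t := by
  unfold okS
  rw [F9a_ne σ (x := σ t) (y := 0) (a := t) (b := 0) rfl (by simp [map_ofNat]),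
    F9a_ne σ (x := (σ s) ^ 2) (y := 4 * σ t) (a := s ^ 2) (b := 4 * t) (by simp [map_ofNat]) (by simp [map_ofNat]),
    F9a_ne σ (x := 3 * (σ s) ^ 2) (y := 16 * σ t) (a := 3 * s ^ 2) (b := 16 * t)
      (by simp [map_ofNat]) (by simp [map_ofNat])]

theorem F9a_qd {K L : Type} [Field K] [Field L] (σ : K →+* L) (a H : K) :
    (qd a H).map σ = qd (σ a) (σ H) := by
  unfold qd
  simp [map_ofNat]

theorem F9a_HA {K L : Type} [Field K] [Field L] (σ : K →+* L) (s t : K) :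
    σ (HA s t) = HA (σ s) (σ t) := by
  unfold HA
  simp [map_ofNat]

theorem F9a_EA {K L : Type} [Field K] [Field L] (σ : K →+* L) (l s t : K) :
    (EA l s t).map σ = EA (σ l) (σ s) (σ t) := by
  unfold EA
  rw [F9a_qd, F9a_HA]
  simp [map_ofNat]

theorem map_fA {K L : Type} [Field K] [Field L] (σ : K →+* L) (l s t : K) :
    (fA l s t).map σ = fA (σ l) (σ s) (σ t) ∧ (EA l s t).map σ = EA (σ l) (σ s) (σ t) := by
  refine ⟨?_, F9a_EA σ l s t⟩
  unfold fA
  rw [Polynomial.map_mul, Polynomial.map_mul, F9a_EA, F9a_EA]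
  simp [map_ofNat]

theorem map_gA {K L : Type} [Field K] [Field L] (σ : K →+* L) (l s e : K) :
    (gA l s e).map σ = gA (σ l) (σ s) (σ e) := by
  unfold gA
  simp [map_ofNat]

theorem map_fB {K L : Type} [Field K] [Field L] (σ : K →+* L) (l s t : K) :
    (fB l s t).map σ = fB (σ l) (σ s) (σ t) ∧ (qd l s).map σ = qd (σ l) (σ s) := by
  refine ⟨?_, F9a_qd σ l s⟩
  unfold fB
  rw [Polynomial.map_mul, Polynomial.map_mul, F9a_qd, F9a_qd]
  simp [map_ofNat]

theorem map_gB {K L : Type} [Field K] [Field L] (σ : K →+* L) (l s e : K) :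
    (gB l s e).map σ = gB (σ l) (σ s) (σ e) := by
  unfold gB
  simp [map_ofNat]

theorem map_f32 {K L : Type} [Field K] [Field L] (σ : K →+* L) (b c : K) :
    (f32 b c).map σ = f32 (σ b) (σ c) ∧ (R32 b c).map σ = R32 (σ b) (σ c) ∧
      (S32 b c).map σ = S32 (σ b) (σ c) := by
  have h1 : (R32 b c).map σ = R32 (σ b) (σ c) := by
    unfold R32
    simp [map_ofNat]
  have h2 : (S32 b c).map σ = S32 (σ b) (σ c) := by
    unfold S32
    rw [F9a_qd]
    simp [map_ofNat]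
  refine ⟨?_, h1, h2⟩
  unfold f32
  rw [Polynomial.map_mul, h1, h2]

end SBr
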