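import Pool.Agent.H.MP_cc3311_ag.F8a
import Pool.Agent.H.MP_cc3311_ag.F9a
import Pool.Agent.H.MP_cc3311_ag.F1

/-!
# MP_cc3311_ag, F9b: the parts of `WW K 5`

All by `descent32`, `descent22`. The predicates `okA`, ... are equivalences under the injection
`K → closure` (`map_okA` and so on) and stable under Frobenius.
-/

set_option autoImplicit false

namespace SBr

open Polynomial

variable (K : Type) [Field K] [Fintype K]

theorem F9b_num {L : Type} [Field L] (hG : Good L 5) :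
    (2 : L) ≠ 0 ∧ (3 : L) ≠ 0 := by
  refine ⟨?_, ?_⟩
  · have := hG 2 (by norm_num) (by norm_num); exact_mod_cast this
  · have := hG 3 (by norm_num) (by norm_num); exact_mod_cast this

theorem F9b_card : ({k : K × K | k.2 ≠ 0}.ncard : ℤ) =
    (Fintype.card K : ℤ) * (Fintype.card K - 1) := by
  classical
  have h1 : {k : K × K | k.2 ≠ 0} = (Set.univ : Set K) ×ˢ ({0}ᶜ : Set K) := by
    ext ⟨a, b⟩
    simp only [Set.mem_setOf_eq, Set.mem_prod, Set.mem_univ, true_and, Set.mem_compl_iff,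
      Set.mem_singleton_iff, ne_eq]
  have hcompl : (({0}ᶜ : Set K).ncard : ℤ) = (Fintype.card K : ℤ) - 1 := by
    have h := Set.ncard_add_ncard_compl ({0} : Set K)
    rw [Set.ncard_singleton, Nat.card_eq_fintype_card] at h
    omega
  rw [h1, Set.ncard_prod, Set.ncard_univ, Nat.card_eq_fintype_card]
  push_cast
  rw [hcompl]

theorem WA_card (hG : Good K 5) : ((WA K).ncard : ℤ) =
    (Fintype.card K : ℤ) * (Fintype.card K - 1) * (Fintype.card K - 7 - 2 * c3 K) := by
  have hGu := hG.up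
  have hset : {k : K × K × K | (algebraMap K (AlgebraicClosure K) k.1,
        algebraMap K (AlgebraicClosure K) k.2.1,
        algebraMap K (AlgebraicClosure K) k.2.2) ∈ {x : AlgebraicClosure K × AlgebraicClosure K ×
          AlgebraicClosure K | x.2.1 ≠ 0 ∧ okA x.2.2}} = {x : K × K × K | x.2.1 ≠ 0 ∧ okA x.2.2} := by
    ext k
    simp only [Set.mem_setOf_eq]
    rw [map_okA, _root_.map_ne_zero]
  have hd := descent32 (K := K) {x : AlgebraicClosure K × AlgebraicClosure K ×
    AlgebraicClosure K | x.2.1 ≠ 0 ∧ okA x.2.2}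
    (fun x => (fA x.1 x.2.1 x.2.2, EA x.1 x.2.1 x.2.2)) ?_ ?_ ?_
  · rw [hset] at hd
    rw [← parA_card K hG, ← hd]
    rfl
  · rintro x ⟨h1, h2⟩
    exact ⟨(_root_.map_ne_zero (frob K)).2 h1, (map_okA (frob K) x.2.2).2 h2⟩
  · rintro ⟨l, s, t⟩ ⟨h1, h2⟩ ⟨l', s', t'⟩ ⟨h1', h2'⟩ he
    obtain ⟨e1, e2⟩ := Prod.mk.inj he
    obtain ⟨r1, r2, r3⟩ := fA_inj hGu h1 h2 h1' h2' e1 e2
    simp only at r1 r2 r3
    rw [r1, r2, r3]
  · rintro ⟨l, s, t⟩ -
    have h := map_fA (frob K) l s t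
    exact (Prod.ext h.1 h.2).symm

theorem WB_card (hG : Good K 5) : ((WB K).ncard : ℤ) =
    (Fintype.card K : ℤ) * (Fintype.card K - 1) * (Fintype.card K - 4) := by
  have hGu := hG.up
  have hset : {k : K × K × K | (algebraMap K (AlgebraicClosure K) k.1,
        algebraMap K (AlgebraicClosure K) k.2.1,
        algebraMap K (AlgebraicClosure K) k.2.2) ∈ {x : AlgebraicClosure K × AlgebraicClosure K ×
          AlgebraicClosure K | okB x.2.1 x.2.2}} = {x : K × K × K | okB x.2.1 x.2.2} := by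
    ext k
    simp only [Set.mem_setOf_eq]
    rw [map_okB]
  have hd := descent32 (K := K) {x : AlgebraicClosure K × AlgebraicClosure K ×
    AlgebraicClosure K | okB x.2.1 x.2.2}
    (fun x => (fB x.1 x.2.1 x.2.2, qd x.1 x.2.1)) ?_ ?_ ?_
  · rw [hset] at hd
    rw [← parB_card K hG, ← hd]
    rfl
  · rintro x h
    exact (map_okB (frob K) x.2.1 x.2.2).2 h
  · rintro ⟨l, s, t⟩ - ⟨l', s', t'⟩ - he
    obtain ⟨e1, e2⟩ := Prod.mk.inj he
    simp only at e1 e2
    obtain ⟨r1, r2⟩ := qd_inj (F9b_num hGu).1 e2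
    subst r1
    subst r2
    unfold fB at e1
    have hne : (X - C l) * qd l s ≠ 0 := ((monic_X_sub_C l).mul (qd_monic l s)).ne_zero
    have e3 := mul_left_cancel₀ hne e1
    obtain ⟨-, r3⟩ := qd_inj (F9b_num hGu).1 e3
    rw [r3]
  · rintro ⟨l, s, t⟩ -
    have h := map_fB (frob K) l s t
    exact (Prod.ext h.1 h.2).symm

theorem WR_card (hG : Good K 5) : ((WR K).ncard : ℤ) =
    (Fintype.card K : ℤ) * (Fintype.card K - 1) := by
  have hGu := hG.up
  have hset : {k : K × K | (algebraMap K (AlgebraicClosure K) k.1,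
        algebraMap K (AlgebraicClosure K) k.2) ∈ {x : AlgebraicClosure K × AlgebraicClosure K |
          x.2 ≠ 0}} = {k : K × K | k.2 ≠ 0} := by
    ext k
    simp only [Set.mem_setOf_eq]
    rw [_root_.map_ne_zero]
  have hd := descent22 (K := K) {x : AlgebraicClosure K × AlgebraicClosure K | x.2 ≠ 0}
    (fun x => (f32 x.1 x.2, R32 x.1 x.2)) ?_ ?_ ?_
  · rw [hset] at hd
    rw [← F9b_card K, ← hd]
    rfl
  · rintro x h
    exact (_root_.map_ne_zero (frob K)).2 h
  · rintro ⟨b, c⟩ - ⟨b', c'⟩ - he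
    obtain ⟨-, e2⟩ := Prod.mk.inj he
    simp only at e2
    unfold R32 at e2
    have e3 : (X - C b) ^ 3 + C c * (X - C b) + C 0 =
        (X - C b') ^ 3 + C c' * (X - C b') + C 0 := by rw [e2]
    obtain ⟨r1, r2, -⟩ := shift3_inj (F9b_num hGu).2 e3
    rw [r1, r2]
  · rintro ⟨b, c⟩ -
    have h := map_f32 (frob K) b c
    exact (Prod.ext h.1 h.2.1).symm

theorem WS_card (hG : Good K 5) : ((WS K).ncard : ℤ) =
    (Fintype.card K : ℤ) * (Fintype.card K - 1) := by
  have hGu := hG.up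
  have hset : {k : K × K | (algebraMap K (AlgebraicClosure K) k.1,
        algebraMap K (AlgebraicClosure K) k.2) ∈ {x : AlgebraicClosure K × AlgebraicClosure K |
          x.2 ≠ 0}} = {k : K × K | k.2 ≠ 0} := by
    ext k
    simp only [Set.mem_setOf_eq]
    rw [_root_.map_ne_zero]
  have hd := descent22 (K := K) {x : AlgebraicClosure K × AlgebraicClosure K | x.2 ≠ 0}
    (fun x => (f32 x.1 x.2, S32 x.1 x.2)) ?_ ?_ ?_
  · rw [hset] at hd
    rw [← F9b_card K, ← hd]
    rfl
  · rintro x h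
    exact (_root_.map_ne_zero (frob K)).2 h
  · rintro ⟨b, c⟩ - ⟨b', c'⟩ - he
    obtain ⟨-, e2⟩ := Prod.mk.inj he
    simp only at e2
    unfold S32 at e2
    obtain ⟨r1, r2⟩ := qd_inj (F9b_num hGu).1 e2
    have r3 : c = c' := by
      have := (div_left_inj' (F9b_num hGu).2).1 r2
      exact neg_inj.1 this
    rw [r1, r3]
  · rintro ⟨b, c⟩ -
    have h := map_f32 (frob K) b c
    exact (Prod.ext h.1 h.2.2).symm

end SBr
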