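import Pool.Agent.H.MP_cc3311_ag.F8a
import Pool.Agent.H.MP_cc3311_ag.F9a
import Pool.Agent.H.MP_cc3311_ag.F1

/-!
# MP_cc3311_ag, F9c: the parts of `TT K 5`

All by `descent31`, `descent21`. The predicates `okE`, ... are equivalences under the injection
`K → closure` (`map_okE` and so on) and stable under Frobenius.
-/

set_option autoImplicit false

namespace SBr

open Polynomial

variable (K : Type) [Field K] [Fintype K]

theorem TA_card (hG : Good K 5) : ((TA K).ncard : ℤ) =
    (Fintype.card K : ℤ) * (Fintype.card K - 1) * (Fintype.card K - 4 - c3 K) := by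
  have hG' : Good (AlgebraicClosure K) 5 := hG.up
  have h : (TA K).ncard = {k : K × K × K | (algebraMap K (AlgebraicClosure K) k.1,
      algebraMap K (AlgebraicClosure K) k.2.1, algebraMap K (AlgebraicClosure K) k.2.2) ∈
        {x : AlgebraicClosure K × AlgebraicClosure K × AlgebraicClosure K |
          x.2.1 ≠ 0 ∧ okE x.2.2}}.ncard := by
    refine descent31 _ (fun x => gA x.1 x.2.1 x.2.2) ?_ ?_ ?_
    · rintro ⟨a, b, c⟩ ⟨h1, h2⟩
      exact ⟨(_root_.map_ne_zero _).2 h1, (map_okE (frob K) c).2 h2⟩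
    · rintro ⟨a, b, c⟩ ⟨h1, h2⟩ ⟨a', b', c'⟩ ⟨h1', h2'⟩ he
      obtain ⟨e1, e2, e3⟩ := gA_inj hG' h1 h2 h1' h2' he
      exact Prod.ext e1 (Prod.ext e2 e3)
    · rintro ⟨a, b, c⟩ -
      exact (map_gA (frob K) a b c).symm
  have hset : {k : K × K × K | (algebraMap K (AlgebraicClosure K) k.1,
      algebraMap K (AlgebraicClosure K) k.2.1, algebraMap K (AlgebraicClosure K) k.2.2) ∈
        {x : AlgebraicClosure K × AlgebraicClosure K × AlgebraicClosure K |
          x.2.1 ≠ 0 ∧ okE x.2.2}} = {x : K × K × K | x.2.1 ≠ 0 ∧ okE x.2.2} := by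
    ext ⟨a, b, c⟩
    simp only [Set.mem_setOf_eq, map_okE, ne_eq, map_eq_zero]
  rw [h, hset, parE_card K hG]

theorem TB_card (hG : Good K 5) : ((TB K).ncard : ℤ) =
    (Fintype.card K : ℤ) * (Fintype.card K - 1) * (Fintype.card K - 2) := by
  have hG' : Good (AlgebraicClosure K) 5 := hG.up
  have h : (TB K).ncard = {k : K × K × K | (algebraMap K (AlgebraicClosure K) k.1,
      algebraMap K (AlgebraicClosure K) k.2.1, algebraMap K (AlgebraicClosure K) k.2.2) ∈
        {x : AlgebraicClosure K × AlgebraicClosure K × AlgebraicClosure K |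
          okS x.2.1 x.2.2}}.ncard := by
    refine descent31 _ (fun x => gB x.1 x.2.1 x.2.2) ?_ ?_ ?_
    · rintro ⟨a, b, c⟩ h1
      exact (map_okS (frob K) b c).2 h1
    · rintro ⟨a, b, c⟩ h1 ⟨a', b', c'⟩ h1' he
      obtain ⟨e1, e2, e3⟩ := gB_inj hG' he
      exact Prod.ext e1 (Prod.ext e2 e3)
    · rintro ⟨a, b, c⟩ -
      exact (map_gB (frob K) a b c).symm
  have hset : {k : K × K × K | (algebraMap K (AlgebraicClosure K) k.1,
      algebraMap K (AlgebraicClosure K) k.2.1, algebraMap K (AlgebraicClosure K) k.2.2) ∈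
        {x : AlgebraicClosure K × AlgebraicClosure K × AlgebraicClosure K |
          okS x.2.1 x.2.2}} = {x : K × K × K | okS x.2.1 x.2.2} := by
    ext ⟨a, b, c⟩
    simp only [Set.mem_setOf_eq, map_okS]
  rw [h, hset, parS_card K hG]

theorem TR_card (hG : Good K 5) : ((TR K).ncard : ℤ) =
    (Fintype.card K : ℤ) * (Fintype.card K - 1) := by
  classical
  have hG' : Good (AlgebraicClosure K) 5 := hG.up
  have h : (TR K).ncard = {k : K × K | (algebraMap K (AlgebraicClosure K) k.1,
      algebraMap K (AlgebraicClosure K) k.2) ∈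
        {x : AlgebraicClosure K × AlgebraicClosure K | x.2 ≠ 0}}.ncard := by
    refine descent21 _ (fun x => f32 x.1 x.2) ?_ ?_ ?_
    · rintro ⟨a, b⟩ h1
      exact (_root_.map_ne_zero _).2 h1
    · rintro ⟨a, b⟩ h1 ⟨a', b'⟩ h1' he
      obtain ⟨e1, e2⟩ := f32_inj hG' he
      exact Prod.ext e1 e2
    · rintro ⟨a, b⟩ -
      exact (map_f32 (frob K) a b).1.symm
  have hset : {k : K × K | (algebraMap K (AlgebraicClosure K) k.1,
      algebraMap K (AlgebraicClosure K) k.2) ∈
        {x : AlgebraicClosure K × AlgebraicClosure K | x.2 ≠ 0}} =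
      (Set.univ : Set K) ×ˢ ({0}ᶜ : Set K) := by
    ext ⟨a, b⟩
    simp only [Set.mem_setOf_eq, ne_eq, map_eq_zero, Set.mem_prod, Set.mem_univ, true_and,
      Set.mem_compl_iff, Set.mem_singleton_iff]
  have h1 : (({0}ᶜ : Set K).ncard : ℤ) = (Fintype.card K : ℤ) - 1 := by
    have h2 := Set.ncard_add_ncard_compl ({0} : Set K)
    rw [Set.ncard_singleton, Nat.card_eq_fintype_card] at h2
    rw [← h2]
    push_cast
    ring
  rw [h, hset, Set.ncard_prod, Set.ncard_univ, Nat.card_eq_fintype_card]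
  push_cast
  rw [h1]

end SBr
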