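import Pool.Agent.H.MP_cc3311_ag.F9
import Pool.Agent.H.MP_cc3311_ag.A5
import Pool.Agent.H.MP_cc3311_ag.E3
import Pool.Agent.H.MP_cc3311_ag.B5
import Pool.Agent.H.MP_cc3311_ag.C1
import Pool.Agent.H.MP_cc3311_ag.C2
import Pool.Agent.H.MP_cc3311_ag.C7

/-!
# MP_cc3311_ag, G0: the numbers `N K n` for `n ≤ 5`
-/

set_option autoImplicit false

namespace SBr

open Polynomial

variable (K : Type) [Field K] [Fintype K]

theorem WW5_card (hG : Good K 5) : ((WW K 5).ncard : ℤ) =
    (Fintype.card K : ℤ) * (Fintype.card K - 1) * (2 * Fintype.card K - 9 - 2 * c3 K) := by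
  have hfin : (WW K 5).Finite := (PP_finite K 5).subset fun x hx => ⟨hx.1.1, hx.2⟩
  obtain ⟨d1, d2, d3⟩ := WW5_disj K hG
  have e := WW5_eq K hG
  rw [e] at hfin ⊢
  have f1 := hfin.subset Set.subset_union_left
  have f2 := hfin.subset Set.subset_union_right
  rw [Set.ncard_union_eq d3 f1 f2,
    Set.ncard_union_eq d1 (f1.subset Set.subset_union_left) (f1.subset Set.subset_union_right),
    Set.ncard_union_eq d2 (f2.subset Set.subset_union_left) (f2.subset Set.subset_union_right)]
  push_cast
  rw [WA_card K hG, WB_card K hG, WR_card K hG, WS_card K hG]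
  ring

theorem TT5_card (hG : Good K 5) : ((TT K 5).ncard : ℤ) =
    (Fintype.card K : ℤ) * (Fintype.card K - 1) * (2 * Fintype.card K - 5 - c3 K) := by
  have hfin : (TT K 5).Finite := (Sq_finite K 5).subset fun x hx => hx.1
  obtain ⟨d1, d2⟩ := TT5_disj K hG
  have e := TT5_eq K hG
  rw [e] at hfin ⊢
  have f1 := hfin.subset Set.subset_union_left
  have f2 := hfin.subset Set.subset_union_right
  rw [Set.ncard_union_eq d2 f1 f2,
    Set.ncard_union_eq d1 (f1.subset Set.subset_union_left) (f1.subset Set.subset_union_right)]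
  push_cast
  rw [TA_card K hG, TB_card K hG, TR_card K hG]
  ring

theorem N_one (hG : Good K 1) : (N K 1 : ℤ) = Fintype.card K := by
  have h := formula K hG
  rw [PP_ncard K hG, TT_small K (by norm_num), WW_small K (by norm_num), sq_one K] at h
  simp only [Set.ncard_empty, add_zero] at h
  rw [show (1 + 1) / 2 = 1 by norm_num, show Finset.Icc 2 1 = (∅ : Finset ℕ) by decide,
    Finset.sum_empty, add_zero] at h
  rw [h]

theorem N_two (hG : Good K 2) : (N K 2 : ℤ) =
    (Fintype.card K : ℤ) * (Fintype.card K - 1) := by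
  have h := formula K hG
  rw [PP_ncard K hG, TT_small K (by norm_num), WW_small K (by norm_num)] at h
  simp only [Set.ncard_empty, add_zero] at h
  rw [show (2 + 1) / 2 = 1 by norm_num, show Finset.Icc 2 1 = (∅ : Finset ℕ) by decide,
    Finset.sum_empty, add_zero] at h
  rw [h, sq_two K]
  ring

theorem N_three (hG : Good K 3) : (N K 3 : ℤ) =
    (Fintype.card K : ℤ) * ((Fintype.card K : ℤ) - 1) ^ 2 := by
  have h := formula K hG
  rw [PP_ncard K hG, TT_small K (by norm_num), WW_small K (by norm_num)] at h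
  simp only [Set.ncard_empty, add_zero] at h
  rw [show (3 + 1) / 2 = 2 by norm_num, Finset.Icc_self, Finset.sum_singleton] at h
  have h' := congrArg (Nat.cast : ℕ → ℤ) h
  push_cast at h'
  rw [RQ32_card K hG, sq_three K] at h'
  linear_combination h'

theorem N_four (hG : Good K 4) : (N K 4 : ℤ) =
    (Fintype.card K : ℤ) * (Fintype.card K - 1) *
      ((Fintype.card K : ℤ) ^ 2 - Fintype.card K + 2) := by
  have h := formula K hG
  rw [PP_ncard K hG, show (4 + 1) / 2 = 2 by norm_num, Finset.Icc_self,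
    Finset.sum_singleton] at h
  have h' := congrArg (Nat.cast : ℕ → ℤ) h
  push_cast at h'
  rw [RQ42_card K hG, sq_four K, TT4_card K hG, WW4_card K hG] at h'
  linear_combination h'

theorem N_five (hG : Good K 5) : (N K 5 : ℤ) =
    (Fintype.card K : ℤ) * (Fintype.card K - 1) *
      ((Fintype.card K : ℤ) ^ 3 - (Fintype.card K : ℤ) ^ 2 + 2 * Fintype.card K - 7
        - c2 K - c3 K) := by
  have h := formula K hG
  rw [PP_ncard K hG, show (5 + 1) / 2 = 3 by norm_num,
    show Finset.Icc 2 3 = ({2, 3} : Finset ℕ) by decide,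
    Finset.sum_pair (by norm_num)] at h
  have h' := congrArg (Nat.cast : ℕ → ℤ) h
  push_cast at h'
  rw [RQ52_ncard K hG, RQ53_card K hG, sq_five K, TT5_card K hG, WW5_card K hG] at h'
  linear_combination h'

end SBr
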