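import Mathlib

/-!
# MP_cc3311_ag, La: homogeneous systems with no nontrivial zero, integrality

`n` homogeneous polynomials `P i` of degree `d` in `n` variables over an algebraically closed field
whose only common zero is the origin.
-/

set_option autoImplicit false

namespace SBr

open MvPolynomial

variable {L : Type} [Field L] {n : ℕ}

/-- Nullstellensatz: `MvPolynomial.vanishingIdeal_zeroLocus_eq_radical`. The zero locus of the ideal
of the `P i` is contained in `{0}`, `X i` vanishes there, so a power of `X i` is in the ideal; take a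
common exponent (`Ideal.mul_mem_left`, `pow_add`). -/
theorem La_pow_mem [IsAlgClosed L] (P : Fin n → MvPolynomial (Fin n) L)
    (hzero : ∀ x : Fin n → L, (∀ i, eval x (P i) = 0) → x = 0) (d : ℕ) :
    ∃ M : ℕ, d ≤ M ∧ 1 ≤ M ∧ ∀ i, (X i : MvPolynomial (Fin n) L) ^ M ∈ Ideal.span (Set.range P) := by
  have h : ∀ i : Fin n, ∃ e : ℕ, (X i : MvPolynomial (Fin n) L) ^ e ∈ Ideal.span (Set.range P) := by
    intro i
    have h1 : (X i : MvPolynomial (Fin n) L) ∈ (Ideal.span (Set.range P)).radical := by
      rw [← vanishingIdeal_zeroLocus_eq_radical (K := L), mem_vanishingIdeal_iff]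
      intro x hx
      have h0 : x = 0 := by
        apply hzero
        intro j
        have := hx (P j) (Ideal.subset_span ⟨j, rfl⟩)
        rwa [MvPolynomial.aeval_eq_eval] at this
      simp [h0]
    exact h1
  choose e he using h
  refine ⟨d + 1 + ∑ i, e i, by omega, by omega, fun i => ?_⟩
  have h2 : e i ≤ ∑ j, e j := Finset.single_le_sum (fun j _ => Nat.zero_le (e j)) (Finset.mem_univ i)
  have h3 : d + 1 + ∑ j, e j = (d + 1 + (∑ j, e j - e i)) + e i := by omega
  rw [h3, pow_add]
  exact Ideal.mul_mem_left _ _ (he i)

/-- the component of degree `M` of a multiple of a homogeneous polynomial of degree `d` -/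
theorem La_comp_mul {P g : MvPolynomial (Fin n) L} {d M : ℕ} (hP : P.IsHomogeneous d)
    (hM : d ≤ M) : homogeneousComponent M (g * P) = homogeneousComponent (M - d) g * P := by
  conv_lhs => rw [← sum_homogeneousComponent g]
  rw [Finset.sum_mul, map_sum]
  have h1 : ∀ i ∈ Finset.range (g.totalDegree + 1),
      homogeneousComponent M (homogeneousComponent i g * P)
        = if i = M - d then homogeneousComponent (M - d) g * P else 0 := by
    intro i _
    have h2 : (homogeneousComponent i g * P).IsHomogeneous (i + d) :=
      (homogeneousComponent_isHomogeneous i g).mul hP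
    rw [homogeneousComponent_of_mem h2]
    by_cases h : i = M - d
    · subst h
      rw [if_pos rfl, if_pos (by omega)]
    · rw [if_neg h, if_neg (by omega)]
  rw [Finset.sum_congr rfl h1, Finset.sum_ite_eq']
  split_ifs with h
  · rfl
  · rw [homogeneousComponent_eq_zero, zero_mul]
    rw [Finset.mem_range] at h
    omega

/-- Degree control. Proof: write `X i ^ M = ∑ g j * P j` and take the homogeneous component of degree
`M` (the component of degree `M` of `g j * P j` is the component of degree `M - d` of `g j` times
`P j`). -/
theorem La_coeffs (P : Fin n → MvPolynomial (Fin n) L) {d M : ℕ}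
    (hP : ∀ i, (P i).IsHomogeneous d) (hM : d ≤ M) (i : Fin n)
    (h : (X i : MvPolynomial (Fin n) L) ^ M ∈ Ideal.span (Set.range P)) :
    ∃ g : Fin n → MvPolynomial (Fin n) L, (∀ j, (g j).IsHomogeneous (M - d)) ∧
      (X i : MvPolynomial (Fin n) L) ^ M = ∑ j, g j * P j := by
  rw [Ideal.mem_span_range_iff_exists_fun] at h
  obtain ⟨c, hc⟩ := h
  refine ⟨fun j => homogeneousComponent (M - d) (c j),
    fun j => homogeneousComponent_isHomogeneous _ _, ?_⟩
  have hX : ((X i : MvPolynomial (Fin n) L) ^ M).IsHomogeneous M := by
    have := (isHomogeneous_X L i).pow M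
    rwa [one_mul] at this
  rw [← homogeneousComponent_eq_self hX, ← hc, map_sum]
  exact Finset.sum_congr rfl fun j _ => La_comp_mul (hP j) hM

end SBr
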