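import Pool.Agent.H.MP_cc3311_ag.La

/-!
# MP_cc3311_ag, Lb: the polynomial ring is finite over the subring generated by the `P i`
-/

set_option autoImplicit false

namespace SBr

open MvPolynomial

variable {L : Type} [Field L] {n : ℕ}

/-- a criterion for a finite ring homomorphism -/
theorem Lb_crit {A B : Type} [CommRing A] [CommRing B] (φ : A →+* B) (S : Finset B)
    (h : ∀ N : AddSubmonoid B, (∀ b ∈ S, b ∈ N) → (∀ a, ∀ b ∈ N, φ a * b ∈ N) → ∀ b, b ∈ N) :
    φ.Finite := by
  let _ : Algebra A B := φ.toAlgebra
  refine ⟨⟨S, ?_⟩⟩
  rw [eq_top_iff]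
  intro b _
  exact h (Submodule.span A (S : Set B)).toAddSubmonoid (fun b hb => Submodule.subset_span hb)
    (fun a b hb => by
      have := Submodule.smul_mem (Submodule.span A (S : Set B)) a hb
      rwa [Algebra.smul_def] at this) b

/-- PROOF. Take `M` from `La_pow_mem`, and let `B` be the finite set of the monomials with all
exponents less than `M`. Claim: every `p` of total degree at most `m` is in the span of `B` over the
image of `aeval P`. Induction on `m`; it is enough to treat a monomial `x ^ β` of degree `m`. If an
exponent `β i` is at least `M`, then `x ^ β = X i ^ M * x ^ β' = ∑ j, P j * (g j * x ^ β')`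
(`La_coeffs`), where `g j * x ^ β'` has total degree at most `m - d < m`. -/
theorem Lb_finite [IsAlgClosed L] (P : Fin n → MvPolynomial (Fin n) L) {d : ℕ} (hd : 1 ≤ d)
    (hP : ∀ i, (P i).IsHomogeneous d)
    (hzero : ∀ x : Fin n → L, (∀ i, eval x (P i) = 0) → x = 0) :
    (aeval P : MvPolynomial (Fin n) L →ₐ[L] MvPolynomial (Fin n) L).toRingHom.Finite := by
  classical
  obtain ⟨M, hdM, hM1, hM⟩ := La_pow_mem P hzero d
  choose g hg1 hg2 using fun i => La_coeffs P hP hdM i (hM i)
  have hpos : 0 < M := hM1
  let S : Finset (MvPolynomial (Fin n) L) := Finset.univ.image fun f : Fin n → Fin M =>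
    monomial (Finsupp.equivFunOnFinite.symm fun i => (f i : ℕ)) (1 : L)
  refine Lb_crit _ S fun N hS hN => ?_
  have hφC : ∀ (c : L) (b : MvPolynomial (Fin n) L), b ∈ N → C c * b ∈ N := by
    intro c b hb
    have := hN (C c) b hb
    have h1 : (aeval P : MvPolynomial (Fin n) L →ₐ[L] MvPolynomial (Fin n) L).toRingHom (C c) =
        C c := by
      show aeval P (C c) = C c
      rw [aeval_C]
      rfl
    rwa [h1] at this
  have hφX : ∀ (j : Fin n) (b : MvPolynomial (Fin n) L), b ∈ N → P j * b ∈ N := by
    intro j b hb
    have := hN (X j) b hb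
    have h1 : (aeval P : MvPolynomial (Fin n) L →ₐ[L] MvPolynomial (Fin n) L).toRingHom (X j) =
        P j := by
      show aeval P (X j) = P j
      rw [aeval_X]
    rwa [h1] at this
  have claim : ∀ m : ℕ, ∀ p : MvPolynomial (Fin n) L, p.totalDegree ≤ m → p ∈ N := by
    intro m
    induction m using Nat.strong_induction_on with
    | _ m ih =>
      intro p hp
      rw [p.as_sum]
      refine AddSubmonoid.sum_mem _ fun s hs => ?_
      have hsd : (s.sum fun _ e => e) ≤ m := (le_totalDegree hs).trans hp
      have hmono : (monomial s (coeff s p) : MvPolynomial (Fin n) L) =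
          C (coeff s p) * monomial s 1 := by
        rw [C_mul_monomial, mul_one]
      rw [hmono]
      apply hφC
      by_cases hall : ∀ i, s i < M
      · apply hS
        rw [Finset.mem_image]
        refine ⟨fun i => ⟨s i, hall i⟩, Finset.mem_univ _, ?_⟩
        have h0 : (Finsupp.equivFunOnFinite.symm fun i => s i : Fin n →₀ ℕ) = s := by
          ext i
          rfl
        exact congrArg (fun t => (monomial t (1 : L) : MvPolynomial (Fin n) L)) h0
      · push Not at hall
        obtain ⟨i, hi⟩ := hall
        have hle : Finsupp.single i M ≤ s := by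
          rw [Finsupp.single_le_iff]
          exact hi
        obtain ⟨s', hs'⟩ : ∃ s', s = Finsupp.single i M + s' :=
          ⟨s - Finsupp.single i M, (add_tsub_cancel_of_le hle).symm⟩
        have h1 : (monomial s (1 : L) : MvPolynomial (Fin n) L) =
            X i ^ M * monomial s' 1 := by
          rw [X_pow_eq_monomial, monomial_mul, one_mul, ← hs']
        rw [h1, hg2 i, Finset.sum_mul]
        refine AddSubmonoid.sum_mem _ fun j _ => ?_
        have h2 : g i j * P j * monomial s' 1 = P j * (g i j * monomial s' 1) := by ring
        rw [h2]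
        apply hφX
        have hsum : (s.sum fun _ e => e) = M + (s'.sum fun _ e => e) := by
          rw [hs', Finsupp.sum_add_index' (fun _ => rfl) (fun _ _ _ => rfl),
            Finsupp.sum_single_index rfl]
        have hdeg : (g i j * monomial s' 1).totalDegree ≤ (M - d) + (s'.sum fun _ e => e) := by
          refine (totalDegree_mul _ _).trans (add_le_add ((hg1 i j).totalDegree_le) ?_)
          exact (totalDegree_monomial_le _ _)
        exact ih (m - 1) (by omega) _ (hdeg.trans (by omega))
  intro b
  exact claim b.totalDegree b le_rfl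

end SBr
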