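import Mathlib

/-!
# MP_cc3311_ag, Lc2: a polynomial relation of bounded degree
-/

set_option autoImplicit false

namespace SBr

open MvPolynomial

variable {L : Type} [Field L] {n : ℕ}

/-- Exponents as finitely supported functions. -/
noncomputable def Lc2_ex {D : ℕ} (a : Fin n → Fin D) : Fin n →₀ ℕ :=
  Finsupp.equivFunOnFinite.symm fun i => (a i : ℕ)

theorem Lc2_ex_inj {D : ℕ} : Function.Injective (Lc2_ex : (Fin n → Fin D) → (Fin n →₀ ℕ)) := by
  intro a b h
  funext i
  have := DFunLike.congr_fun h i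
  simpa [Lc2_ex, Fin.ext_iff] using this

theorem Lc2_deg (P : Fin n → MvPolynomial (Fin n) L) {d : ℕ}
    (hP : ∀ i, (P i).totalDegree ≤ d) (y : MvPolynomial (Fin n) L) (hy : y.totalDegree ≤ 1)
    {D : ℕ} (j : Fin D) (a : Fin n → Fin D) :
    (y ^ (j : ℕ) * ∏ i, P i ^ (a i : ℕ)).totalDegree < (n * d + 1) * D := by
  have hD : 0 < D := j.pos
  have h1 : (y ^ (j : ℕ)).totalDegree ≤ D - 1 := by
    refine (totalDegree_pow _ _).trans ?_
    have := j.2
    calc (j : ℕ) * y.totalDegree ≤ (j : ℕ) * 1 := Nat.mul_le_mul_left _ hy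
      _ ≤ D - 1 := by omega
  have h2 : (∏ i, P i ^ (a i : ℕ)).totalDegree ≤ n * ((D - 1) * d) := by
    refine (totalDegree_finsetProd _ _).trans ?_
    calc ∑ i, (P i ^ (a i : ℕ)).totalDegree ≤ ∑ _i : Fin n, (D - 1) * d := by
          refine Finset.sum_le_sum fun i _ => (totalDegree_pow _ _).trans ?_
          exact Nat.mul_le_mul (by have := (a i).2; omega) (hP i)
      _ = n * ((D - 1) * d) := by simp
  have h3 : (y ^ (j : ℕ) * ∏ i, P i ^ (a i : ℕ)).totalDegree ≤ (D - 1) + n * ((D - 1) * d) :=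
    (totalDegree_mul _ _).trans (Nat.add_le_add h1 h2)
  refine lt_of_le_of_lt h3 ?_
  obtain ⟨E, rfl⟩ : ∃ E, D = E + 1 := ⟨D - 1, by omega⟩
  simp only [Nat.add_sub_cancel]
  nlinarith [Nat.zero_le (n * d)]

theorem Lc2_zero (q : MvPolynomial (Fin n) L) {E : ℕ} (h : q.totalDegree < E)
    (h0 : ∀ b : Fin n → Fin E, q.coeff (Lc2_ex b) = 0) : q = 0 := by
  by_contra hq
  obtain ⟨b, hb⟩ := MvPolynomial.ne_zero_iff.1 hq
  have hs : b ∈ q.support := MvPolynomial.mem_support_iff.2 hb
  have hle : ∀ i, b i < E := by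
    intro i
    refine lt_of_le_of_lt ?_ h
    refine le_trans ?_ (MvPolynomial.le_totalDegree hs)
    rw [Finsupp.sum]
    by_cases hi : i ∈ b.support
    · exact Finset.single_le_sum (f := fun i => b i) (fun _ _ => Nat.zero_le _) hi
    · rw [Finsupp.notMem_support_iff.1 hi]; exact Nat.zero_le _
  apply hb
  have := h0 fun i => ⟨b i, hle i⟩
  convert this
  ext i
  simp [Lc2_ex]

/-- A relation of bounded degree by counting.
PROOF. `D = (n d + 1) ^ n + 1`. Consider the linear map which sends a family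
`c : Fin D × (Fin n → Fin D) → L` to the polynomial `∑ c (j, α) y ^ j P ^ α`, then to its coefficients
at the exponents `β` with all `β i < (n d + 1) D`. Every element in the image of the first map has
total degree at most `(n d + 1) (D - 1)`, so it is determined by these coefficients. The source has
dimension `D ^ (n + 1)`, the target `((n d + 1) D) ^ n < D ^ (n + 1)`, so there is a nonzero `c` in the
kernel. Take `p = ∑ C (∑ c (j, α) T ^ α) X ^ j`. -/
theorem Lc_relation (P : Fin n → MvPolynomial (Fin n) L) {d : ℕ}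
    (hP : ∀ i, (P i).totalDegree ≤ d) (y : MvPolynomial (Fin n) L) (hy : y.totalDegree ≤ 1) :
    ∃ p : Polynomial (MvPolynomial (Fin n) L), p ≠ 0 ∧ p.natDegree ≤ (n * d + 1) ^ n ∧
      p.eval₂ (aeval P : MvPolynomial (Fin n) L →ₐ[L] MvPolynomial (Fin n) L).toRingHom y = 0 := by
  classical
  set D : ℕ := (n * d + 1) ^ n + 1 with hD
  set E : ℕ := (n * d + 1) * D with hE
  let Q : Fin D × (Fin n → Fin D) → MvPolynomial (Fin n) L :=
    fun x => y ^ (x.1 : ℕ) * ∏ i, P i ^ (x.2 i : ℕ)
  let F : (Fin D × (Fin n → Fin D) → L) →ₗ[L] MvPolynomial (Fin n) L :=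
    Fintype.linearCombination L Q
  let G : (Fin D × (Fin n → Fin D) → L) →ₗ[L] ((Fin n → Fin E) → L) :=
    LinearMap.pi fun b => (MvPolynomial.lcoeff L (Lc2_ex b)).comp F
  have hlt : Module.finrank L ((Fin n → Fin E) → L) <
      Module.finrank L (Fin D × (Fin n → Fin D) → L) := by
    rw [Module.finrank_fintype_fun_eq_card, Module.finrank_fintype_fun_eq_card]
    simp only [Fintype.card_pi, Fintype.card_prod, Fintype.card_fin, Finset.prod_const,
      Finset.card_univ]
    rw [hE, mul_pow]
    have : 0 < D ^ n := Nat.pow_pos (by omega)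
    exact Nat.mul_lt_mul_of_pos_right (by omega) this
  obtain ⟨c, hc, hc0⟩ := (Submodule.ne_bot_iff _).1 (LinearMap.ker_ne_bot_of_finrank_lt hlt)
  have hF : F c = 0 := by
    refine Lc2_zero (E := E) (F c) ?_ fun b => ?_
    · have : F c = ∑ x, c x • Q x := by simp [F, Fintype.linearCombination_apply]
      rw [this]
      refine lt_of_le_of_lt (totalDegree_finsetSum _ _) ?_
      rw [Finset.sup_lt_iff]
      · intro x _
        exact lt_of_le_of_lt (totalDegree_smul_le _ _) (Lc2_deg P hP y hy x.1 x.2)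
      · simp only [bot_eq_zero, hE, hD]
        positivity
    · have h2 : G c = 0 := LinearMap.mem_ker.1 hc
      exact congrFun h2 b
  let A : Fin D → MvPolynomial (Fin n) L := fun j => ∑ a : Fin n → Fin D,
    monomial (Lc2_ex a) (c (j, a))
  refine ⟨∑ j : Fin D, Polynomial.monomial (j : ℕ) (A j), ?_, ?_, ?_⟩
  · obtain ⟨⟨j0, a0⟩, h0⟩ := Function.ne_iff.1 hc0
    intro hp
    apply h0
    have h1 := congrArg (fun p => (Polynomial.coeff p (j0 : ℕ)).coeff (Lc2_ex a0)) hp
    simp only [Polynomial.finsetSum_coeff, Polynomial.coeff_monomial, Polynomial.coeff_zero,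
      coeff_zero] at h1
    rw [Finset.sum_eq_single j0 (fun b _ hb => if_neg fun h => hb (Fin.ext h)) (by simp),
      if_pos rfl] at h1
    simp only [A, coeff_sum, coeff_monomial] at h1
    rw [Finset.sum_eq_single a0 (fun b _ hb => if_neg fun h => hb (Lc2_ex_inj h)) (by simp),
      if_pos rfl] at h1
    simpa using h1
  · refine Polynomial.natDegree_sum_le_of_forall_le _ _ fun j _ => ?_
    refine (Polynomial.natDegree_monomial_le _).trans ?_
    have := j.2
    omega
  · rw [Polynomial.eval₂_finsetSum]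
    rw [← hF]
    have : F c = ∑ x, c x • Q x := by simp [F, Fintype.linearCombination_apply]
    rw [this, Fintype.sum_prod_type]
    refine Finset.sum_congr rfl fun j _ => ?_
    rw [Polynomial.eval₂_monomial]
    simp only [A, AlgHom.toRingHom_eq_coe, map_sum, Finset.sum_mul]
    refine Finset.sum_congr rfl fun a _ => ?_
    simp only [RingHom.coe_coe, aeval_monomial, Q, Algebra.smul_def]
    rw [Finsupp.prod_fintype _ _ (by simp)]
    simp only [Lc2_ex, Finsupp.equivFunOnFinite_symm_apply_apply]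
    ring

end SBr
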