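import Mathlib

/-!
# MP_cc3311_ag, Lc3: separation by a linear form
-/

set_option autoImplicit false

namespace SBr

open MvPolynomial

variable {L : Type} [Field L] {n : ℕ}

/-- The difference polynomial in `t`. -/
noncomputable def Lc3_p (z : (Fin n → L) × (Fin n → L)) : Polynomial L :=
  ∑ i : Fin n, Polynomial.C (z.1 i - z.2 i) * Polynomial.X ^ (i : ℕ)

theorem Lc3_p_ne {x x' : Fin n → L} (h : x ≠ x') : Lc3_p (x, x') ≠ 0 := by
  intro h0
  apply h
  funext j
  have h1 := congrArg (fun p : Polynomial L => p.coeff (j : ℕ)) h0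
  simp only [Lc3_p, Polynomial.finsetSum_coeff, Polynomial.coeff_C_mul, Polynomial.coeff_X_pow,
    Polynomial.coeff_zero] at h1
  rw [Finset.sum_eq_single j] at h1
  · simpa [sub_eq_zero] using h1
  · intro b _ hb
    rw [if_neg, mul_zero]
    intro hh
    exact hb (Fin.ext hh.symm)
  · intro hj
    exact absurd (Finset.mem_univ j) hj

/-- Separation of points by a linear form `∑ t ^ i X i`. Proof: for different `x`, `x'` in `s` the
polynomial `∑ (x i - x' i) t ^ i` in `t` is not zero; choose `t` which is not a root of these finitely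
many polynomials. -/
theorem Lc_separate [Infinite L] (s : Finset (Fin n → L)) :
    ∃ y : MvPolynomial (Fin n) L, y.totalDegree ≤ 1 ∧
      Set.InjOn (fun x : Fin n → L => eval x y) (s : Set (Fin n → L)) := by
  classical
  have hP : (∏ z ∈ s.offDiag, Lc3_p z) ≠ 0 := by
    rw [Finset.prod_ne_zero_iff]
    rintro ⟨x, x'⟩ hz
    exact Lc3_p_ne (Finset.mem_offDiag.mp hz).2.2
  obtain ⟨t, ht⟩ : ∃ t : L, t ∉ (∏ z ∈ s.offDiag, Lc3_p z).roots.toFinset :=
    Infinite.exists_notMem_finset _
  refine ⟨∑ i : Fin n, C (t ^ (i : ℕ)) * X i, ?_, ?_⟩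
  · refine totalDegree_finsetSum_le ?_
    intro i _
    refine (totalDegree_mul _ _).trans ?_
    rw [totalDegree_C, totalDegree_X, zero_add]
  · intro x hx x' hx' he
    by_contra hne
    apply ht
    rw [Multiset.mem_toFinset, Polynomial.mem_roots hP, Polynomial.IsRoot.def,
      Polynomial.eval_prod]
    refine Finset.prod_eq_zero (i := (x, x')) (Finset.mem_offDiag.mpr ⟨hx, hx', hne⟩) ?_
    have h1 : ∑ i : Fin n, t ^ (i : ℕ) * x i = ∑ i : Fin n, t ^ (i : ℕ) * x' i := by
      simpa using he
    simp only [Lc3_p, Polynomial.eval_finsetSum, Polynomial.eval_mul, Polynomial.eval_C,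
      Polynomial.eval_pow, Polynomial.eval_X]
    rw [← sub_eq_zero, ← Finset.sum_sub_distrib] at h1
    rw [← h1]
    refine Finset.sum_congr rfl fun i _ => ?_
    ring

end SBr
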