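import Mathlib

/-!
# MP_cc3311_ag, Lc1: algebraic independence
-/

set_option autoImplicit false

namespace SBr

open MvPolynomial

variable {L : Type} [Field L] {n : ℕ}

/-- `n` elements over which the polynomial ring in `n` variables is integral are algebraically
independent. PROOF. Transcendence degree: the variables are a transcendence basis with `n` elements;
the whole ring is algebraic over `Algebra.adjoin L (range P)`, so `range P` contains a transcendence
basis (`exists_isTranscendenceBasis_subset` or similar), which has `n` elements too, so it is `range P`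
and `P` is injective. -/
theorem Lc_indep (P : Fin n → MvPolynomial (Fin n) L)
    (hfin : (aeval P : MvPolynomial (Fin n) L →ₐ[L] MvPolynomial (Fin n) L).toRingHom.Finite) :
    Function.Injective (aeval P : MvPolynomial (Fin n) L →ₐ[L] MvPolynomial (Fin n) L) := by
  have hint : Algebra.IsAlgebraic (Algebra.adjoin L (Set.range P)) (MvPolynomial (Fin n) L) := by
    refine ⟨fun x => ?_⟩
    have h1 : (aeval P : MvPolynomial (Fin n) L →ₐ[L] MvPolynomial (Fin n) L).toRingHom.IsIntegralElem x :=
      hfin.to_isIntegral x
    obtain ⟨q, hq, hx⟩ := h1
    have hmem : ∀ y : MvPolynomial (Fin n) L, aeval P y ∈ Algebra.adjoin L (Set.range P) := by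
      intro y
      rw [Algebra.adjoin_range_eq_range_aeval]
      exact ⟨y, rfl⟩
    let φ : MvPolynomial (Fin n) L →+* Algebra.adjoin L (Set.range P) :=
      ((aeval P : MvPolynomial (Fin n) L →ₐ[L] MvPolynomial (Fin n) L).toRingHom).codRestrict
        (Algebra.adjoin L (Set.range P)).toSubring (fun y => hmem y)
    refine IsIntegral.isAlgebraic ⟨q.map φ, hq.map φ, ?_⟩
    rw [Polynomial.eval₂_map]
    exact hx
  have h := Algebra.IsAlgebraic.isTranscendenceBasis_of_le_trdeg_of_finite (R := L) P (by
    rw [MvPolynomial.trdeg_of_isDomain]; simp)
  exact h.1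

end SBr
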