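import Pool.Agent.H.MP_cc3311_ag.Lb
import Pool.Agent.H.MP_cc3311_ag.Lc

/-!
# MP_cc3311_ag, Lf: the bound for the number of solutions
-/

set_option autoImplicit false

namespace SBr

open MvPolynomial

variable {L : Type} [Field L] {n : ℕ}

/-- A monic relation of degree at most that of any nonzero relation. -/
theorem Lf_monic {T S : Type} [CommRing T] [IsDomain T] [IsIntegrallyClosed T] [CommRing S]
    [IsDomain S] (φ : T →+* S) (hφ : Function.Injective φ) (hint : φ.IsIntegral) (y : S)
    (p : Polynomial T) (hp : p ≠ 0) (hroot : p.eval₂ φ y = 0) :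
    ∃ μ : Polynomial T, μ.Monic ∧ μ.natDegree ≤ p.natDegree ∧ μ.eval₂ φ y = 0 := by
  let _ : Algebra T S := φ.toAlgebra
  have : Module.IsTorsionFree T S := by
    rw [Module.isTorsionFree_iff_algebraMap_injective]
    exact hφ
  have hy : IsIntegral T y := hint y
  have hdvd : minpoly T y ∣ p := minpoly.isIntegrallyClosed_dvd hy hroot
  exact ⟨minpoly T y, minpoly.monic hy, Polynomial.natDegree_le_of_dvd hdvd hp,
    minpoly.aeval T y⟩

/-- PROOF. Let `φ = aeval P`, `T = R = MvPolynomial (Fin n) L`, and regard `R` as an algebra over `T`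
by `φ` (`RingHom.toAlgebra`). It is integral (`Lb_finite`) and torsion free (`Lc_indep`), `T` is
integrally closed (it is a unique factorisation domain). Take `y` from `Lc_separate` for `s`. By
`minpoly.isIntegrallyClosed_dvd` the minimal polynomial `μ` of `y` over `T` divides the `p` of
`Lc_relation`, so it is monic of degree at most `(n d + 1) ^ n`. Map its coefficients by `eval v`: for
`x ∈ s` the value `eval x y` is a root, because `eval x ∘ φ = eval v` on `T`. The roots `eval x y` are
different. -/
theorem bezout [IsAlgClosed L] (P : Fin n → MvPolynomial (Fin n) L) {d : ℕ} (hd : 1 ≤ d)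
    (hP : ∀ i, (P i).IsHomogeneous d)
    (hzero : ∀ x : Fin n → L, (∀ i, eval x (P i) = 0) → x = 0) (v : Fin n → L)
    (s : Finset (Fin n → L)) (hs : ∀ x ∈ s, ∀ i, eval x (P i) = v i) :
    s.card ≤ (n * d + 1) ^ n := by
  classical
  have hfin := Lb_finite P hd hP hzero
  have hinj := Lc_indep P hfin
  have : Infinite L := IsAlgClosed.instInfinite
  obtain ⟨y, hy, hys⟩ := Lc_separate s
  obtain ⟨p, hp0, hpd, hpr⟩ := Lc_relation P (fun i => (hP i).totalDegree_le) y hy
  obtain ⟨μ, hμ, hμd, hμr⟩ := Lf_monic
    (aeval P : MvPolynomial (Fin n) L →ₐ[L] MvPolynomial (Fin n) L).toRingHom hinj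
    hfin.to_isIntegral y p hp0 hpr
  set ν : Polynomial L := μ.map (eval v) with hν
  have hνm : ν.Monic := hμ.map _
  have hroot : ∀ x ∈ s, ν.IsRoot (eval x y) := by
    intro x hx
    have h1 : (eval x).comp
        (aeval P : MvPolynomial (Fin n) L →ₐ[L] MvPolynomial (Fin n) L).toRingHom = eval v := by
      apply MvPolynomial.ringHom_ext
      · intro a
        simp
      · intro i
        simp [hs x hx i]
    have h2 : eval x (μ.eval₂
        (aeval P : MvPolynomial (Fin n) L →ₐ[L] MvPolynomial (Fin n) L).toRingHom y) = 0 := by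
      rw [hμr, map_zero]
    rw [Polynomial.hom_eval₂, h1] at h2
    rw [Polynomial.IsRoot, hν, Polynomial.eval_map]
    exact h2
  have hcard : (s.image fun x => eval x y).card = s.card :=
    Finset.card_image_of_injOn hys
  rw [← hcard]
  calc (s.image fun x => eval x y).card ≤ ν.roots.toFinset.card := by
        apply Finset.card_le_card
        intro z hz
        obtain ⟨x, hx, rfl⟩ := Finset.mem_image.1 hz
        rw [Multiset.mem_toFinset, Polynomial.mem_roots hνm.ne_zero]
        exact hroot x hx
    _ ≤ Multiset.card ν.roots := Multiset.toFinset_card_le _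
    _ ≤ ν.natDegree := Polynomial.card_roots' _
    _ ≤ μ.natDegree := Polynomial.natDegree_map_le
    _ ≤ (n * d + 1) ^ n := hμd.trans hpd

end SBr
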