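import Pool.Agent.H.MP_cc3311_ag.D0

/-!
# MP_cc3311_ag, M0: critical values, definitions
-/

set_option autoImplicit false

namespace SBr

open Polynomial

/-- Multiplicity in a multiset. -/
noncomputable def cnt {α : Type} (v : α) (s : Multiset α) : ℕ := by
  classical exact s.count v

/-- Number of different elements of a multiset. -/
noncomputable def nd {α : Type} (s : Multiset α) : ℕ := {v | v ∈ s}.ncard

/-- The critical values of the antiderivative, with multiplicities. -/
noncomputable def cvO {L : Type} [Field L] (f : L[X]) : Multiset L :=
  f.roots.map fun x => (anti f).eval x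

/-- The critical values of the antiderivative in the algebraic closure. -/
noncomputable def cv {K : Type} [Field K] (f : K[X]) : Multiset (AlgebraicClosure K) := cvO (up f)

/-- Monic polynomials of degree `n`. -/
def Mo (K : Type) [Field K] (n : ℕ) : Set K[X] := {f | f.Monic ∧ f.natDegree = n}

/-- The monic polynomials of degree `n` with at most `n - k` different critical values. -/
def Tl (K : Type) [Field K] (n k : ℕ) : Set K[X] := {f | f ∈ Mo K n ∧ nd (cv f) + k ≤ n}

/-- Cubes of linear polynomials. -/
def cub (L : Type) [Field L] : Set L[X] := {D | ∃ a : L, D = (X - C a) ^ 3}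

/-- Squares of squarefree monic polynomials of degree 2. -/
def squ (L : Type) [Field L] : Set L[X] :=
  {D | ∃ E : L[X], E.Monic ∧ E.natDegree = 2 ∧ Squarefree E ∧ D = E ^ 2}

/-- The minimal structures of excess two. -/
def Ds (L : Type) [Field L] : Set L[X] := cub L ∪ squ L

/-- The constants. -/
def bF (n : ℕ) : ℕ := (n * (n + 1) + 1) ^ n

def cT (n : ℕ) : ℕ := bF n * (n + 1) ^ (n + 1)

end SBr
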