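import Pool.Agent.H.MP_cc3311_ag.A1
import Pool.Agent.H.MP_cc3311_ag.M0

/-!
# MP_cc3311_ag, Lg: the critical values as homogeneous polynomials of the critical points
-/

set_option autoImplicit false

namespace SBr

variable {L : Type} [Field L]

/-- The `i`-th critical value as a polynomial in the critical points `X 0, ..., X (n - 1)`. -/
noncomputable def PF (L : Type) [Field L] (n : ℕ) (i : Fin n) : MvPolynomial (Fin n) L :=
  ∑ k ∈ Finset.range (n + 1), MvPolynomial.C (1 / ((k : L) + 1)) *
    (∏ j : Fin n, (Polynomial.X - Polynomial.C (MvPolynomial.X j : MvPolynomial (Fin n) L))).coeff k *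
      MvPolynomial.X i ^ (k + 1)

theorem PF_eval {n : ℕ} (x : Fin n → L) (i : Fin n) : MvPolynomial.eval x (PF L n i) =
    (anti (∏ j : Fin n, (Polynomial.X - Polynomial.C (x j)))).eval (x i) := by
  have hmap : (∏ j : Fin n, (Polynomial.X -
      Polynomial.C (MvPolynomial.X j : MvPolynomial (Fin n) L))).map (MvPolynomial.eval x) =
      ∏ j : Fin n, (Polynomial.X - Polynomial.C (x j)) := by
    rw [Polynomial.map_prod]
    refine Finset.prod_congr rfl fun j _ => ?_
    rw [Polynomial.map_sub, Polynomial.map_X, Polynomial.map_C, MvPolynomial.eval_X]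
  have hdeg : (∏ j : Fin n, (Polynomial.X - Polynomial.C (x j))).natDegree < n + 1 := by
    have h1 := Polynomial.natDegree_prod_le (Finset.univ : Finset (Fin n))
      (fun j => (Polynomial.X - Polynomial.C (x j) : Polynomial L))
    have h2 : ∑ j : Fin n, (Polynomial.X - Polynomial.C (x j) : Polynomial L).natDegree = n := by
      simp only [Polynomial.natDegree_X_sub_C, Finset.sum_const, Finset.card_univ,
        Fintype.card_fin, smul_eq_mul, mul_one]
    have h3 : (∏ j : Fin n, (Polynomial.X - Polynomial.C (x j))).natDegree ≤
        ∑ j : Fin n, (Polynomial.X - Polynomial.C (x j) : Polynomial L).natDegree := h1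
    omega
  set f : Polynomial L := ∏ j : Fin n, (Polynomial.X - Polynomial.C (x j)) with hf
  unfold anti PF
  rw [Polynomial.sum_over_range' f (fun k => by rw [zero_div, Polynomial.C_0, zero_mul]) (n + 1)
    hdeg, Polynomial.eval_finsetSum, map_sum]
  refine Finset.sum_congr rfl fun k _ => ?_
  rw [map_mul, map_mul, map_pow, MvPolynomial.eval_C, MvPolynomial.eval_X, Polynomial.eval_mul,
    Polynomial.eval_C, Polynomial.eval_pow, Polynomial.eval_X]
  have h4 : MvPolynomial.eval x ((∏ j : Fin n, (Polynomial.X -
      Polynomial.C (MvPolynomial.X j : MvPolynomial (Fin n) L))).coeff k) = f.coeff k := by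
    rw [← hmap, Polynomial.coeff_map]
  rw [h4]
  ring

theorem Lg_zero {σ : Type} (d : ℕ) : (0 : MvPolynomial σ L).IsHomogeneous d :=
  MvPolynomial.isHomogeneous_zero σ L d

theorem Lg_coeff {n : ℕ} (s : Finset (Fin n)) : ∀ k : ℕ,
    (s.card < k → (∏ j ∈ s, (Polynomial.X -
      Polynomial.C (MvPolynomial.X j : MvPolynomial (Fin n) L))).coeff k = 0) ∧
    (k ≤ s.card → ((∏ j ∈ s, (Polynomial.X -
      Polynomial.C (MvPolynomial.X j : MvPolynomial (Fin n) L))).coeff k).IsHomogeneous
        (s.card - k)) := by
  classical
  refine Finset.induction_on s ?_ ?_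
  · intro k
    constructor
    · intro hk
      rw [Finset.card_empty] at hk
      rw [Finset.prod_empty, Polynomial.coeff_one, if_neg (by omega)]
    · intro hk
      rw [Finset.card_empty] at hk
      obtain rfl : k = 0 := by omega
      rw [Finset.prod_empty, Polynomial.coeff_one, if_pos rfl]
      exact MvPolynomial.isHomogeneous_one _ _
  · intro a s ha ih k
    rw [Finset.prod_insert ha, Finset.card_insert_of_notMem ha]
    set P := ∏ j ∈ s, (Polynomial.X -
      Polynomial.C (MvPolynomial.X j : MvPolynomial (Fin n) L)) with hP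
    rcases k with _ | k
    · have e0 : ((Polynomial.X - Polynomial.C (MvPolynomial.X a : MvPolynomial (Fin n) L)) *
          P).coeff 0 = -(MvPolynomial.X a * P.coeff 0) := by
        rw [sub_mul, Polynomial.coeff_sub, Polynomial.coeff_X_mul_zero, Polynomial.coeff_C_mul,
          zero_sub]
      rw [e0]
      constructor
      · intro h
        omega
      · intro _
        have h1 := (MvPolynomial.isHomogeneous_X L a).mul ((ih 0).2 (Nat.zero_le _))
        have h2 : 1 + (s.card - 0) = s.card + 1 - 0 := by omega
        rw [← h2]
        exact h1.neg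
    · have e1 : ((Polynomial.X - Polynomial.C (MvPolynomial.X a : MvPolynomial (Fin n) L)) *
          P).coeff (k + 1) = P.coeff k - MvPolynomial.X a * P.coeff (k + 1) := by
        rw [sub_mul, Polynomial.coeff_sub, Polynomial.coeff_X_mul, Polynomial.coeff_C_mul]
      rw [e1]
      constructor
      · intro h
        rw [(ih k).1 (by omega), (ih (k + 1)).1 (by omega), mul_zero, sub_zero]
      · intro h
        have h3 : s.card + 1 - (k + 1) = s.card - k := by omega
        rw [h3]
        refine MvPolynomial.IsHomogeneous.sub ((ih k).2 (by omega)) ?_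
        by_cases h4 : k + 1 ≤ s.card
        · have h5 := (MvPolynomial.isHomogeneous_X L a).mul ((ih (k + 1)).2 h4)
          have h6 : 1 + (s.card - (k + 1)) = s.card - k := by omega
          rw [← h6]
          exact h5
        · rw [(ih (k + 1)).1 (by omega), mul_zero]
          exact Lg_zero _

/-- The coefficient of degree `k` is (up to sign) the elementary symmetric polynomial of degree
`n - k` (`Multiset.prod_X_sub_X_eq_sum_esymm` and similar), or prove by induction on a finset `s` that
the coefficient of degree `k` of `∏ j ∈ s, (X - C (X j))` is homogeneous of degree `s.card - k` for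
`k ≤ s.card`. -/
theorem PF_homog {n : ℕ} (i : Fin n) : (PF L n i).IsHomogeneous (n + 1) := by
  unfold PF
  refine MvPolynomial.IsHomogeneous.sum _ _ _ fun k hk => ?_
  have hk' : k ≤ n := by
    have := Finset.mem_range.1 hk
    omega
  have h1 := (Lg_coeff (L := L) (Finset.univ : Finset (Fin n)) k).2
    (by rw [Finset.card_univ, Fintype.card_fin]; exact hk')
  rw [Finset.card_univ, Fintype.card_fin] at h1
  have h2 := ((MvPolynomial.isHomogeneous_C (Fin n) (1 / ((k : L) + 1))).mul h1).mul
    ((MvPolynomial.isHomogeneous_X L i).pow (k + 1))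
  have h3 : 0 + (n - k) + 1 * (k + 1) = n + 1 := by omega
  rw [← h3]
  exact h2

end SBr
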