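import Pool.Agent.H.MP_cc3311_ag.Lg

/-!
# MP_cc3311_ag, Lg2: only trivial zeros
-/

set_option autoImplicit false

namespace SBr

open Polynomial

variable {L : Type} [Field L]

/-- PROOF. Let `f = ∏ (X - C (x j))`, `F = anti f`; all roots of `f` are roots of `F`. If `a` is a root of
`f` of multiplicity `m`, then `F a = 0` and `F' = f` give multiplicity at least `m + 1` in `F`
(characteristic). Summing: `n + (number of different roots of f) ≤ n + 1`, so all `x j` are equal to
one `a`, `f = (X - a) ^ n`, `F` is divisible by `(X - a) ^ (n + 1)`, so `F = (X - a) ^ (n + 1) / (n + 1)`;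
`F 0 = 0` gives `a = 0`. -/
theorem PF_zero {n : ℕ} (hG : Good L n) (x : Fin n → L)
    (h : ∀ i, MvPolynomial.eval x (PF L n i) = 0) : x = 0 := by
  classical
  set f : L[X] := ∏ j : Fin n, (X - C (x j)) with hf
  have hmon : f.Monic := monic_prod_of_monic _ _ fun j _ => monic_X_sub_C (x j)
  have hf0 : f ≠ 0 := hmon.ne_zero
  have hdeg : f.natDegree = n := by
    rw [hf, natDegree_prod_of_monic _ _ fun j _ => monic_X_sub_C (x j)]
    simp
  have hFdeg : (anti f).natDegree = n + 1 := natDegree_anti hG hdeg hf0
  have hF0 : anti f ≠ 0 := by
    intro h0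
    rw [h0] at hFdeg
    simp at hFdeg
  have hder : derivative (anti f) = f := derivative_anti hG hdeg.le
  have hroots : f.roots = Finset.univ.val.map x := by
    rw [hf]
    have := Polynomial.roots_multiset_prod_X_sub_C (Finset.univ.val.map x : Multiset L)
    rw [Multiset.map_map] at this
    exact this
  have hcard : Multiset.card f.roots = n := by rw [hroots]; simp
  have hev : ∀ i, (anti f).IsRoot (x i) := fun i => by
    have := h i
    rw [PF_eval] at this
    exact this
  have hev' : ∀ b ∈ f.roots, (anti f).IsRoot b := by
    intro b hb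
    rw [hroots, Multiset.mem_map] at hb
    obtain ⟨i, -, rfl⟩ := hb
    exact hev i
  have h0root : (anti f).IsRoot 0 := by
    show (anti f).eval 0 = 0
    rw [← coeff_zero_eq_eval_zero]
    exact anti_coeff_zero f
  have hmult : ∀ b, (anti f).IsRoot b → f.rootMultiplicity b + 1 ≤ (anti f).rootMultiplicity b := by
    intro b hb
    have hpos : 0 < (anti f).rootMultiplicity b := (rootMultiplicity_pos hF0).2 hb
    have hle : (anti f).rootMultiplicity b ≤ n + 1 := by
      rw [← count_roots, ← hFdeg]
      exact (Multiset.count_le_card _ _).trans (card_roots' _)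
    have hne : (((anti f).rootMultiplicity b : ℕ) : L) ≠ 0 := hG _ hpos hle
    have := derivative_rootMultiplicity_of_root_of_mem_nonZeroDivisors hb
      (mem_nonZeroDivisors_of_ne_zero hne)
    rw [hder] at this
    omega
  set S : Finset L := insert 0 f.roots.toFinset with hS
  have hle : f.roots + S.val ≤ (anti f).roots := by
    rw [Multiset.le_iff_count]
    intro b
    rw [Multiset.count_add, count_roots, count_roots]
    by_cases hb : b ∈ S
    · have h1 : S.val.count b = 1 := Multiset.count_eq_one_of_mem S.nodup hb
      rw [h1]
      apply hmult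
      rw [hS, Finset.mem_insert] at hb
      rcases hb with rfl | hb
      · exact h0root
      · exact hev' b (Multiset.mem_toFinset.1 hb)
    · have h1 : S.val.count b = 0 := Multiset.count_eq_zero_of_notMem hb
      have h2 : f.rootMultiplicity b = 0 := by
        rw [← count_roots]
        apply Multiset.count_eq_zero_of_notMem
        intro hb'
        exact hb (Finset.mem_insert_of_mem (Multiset.mem_toFinset.2 hb'))
      rw [h1, h2]
      exact Nat.zero_le _
  have hc := Multiset.card_le_card hle
  rw [Multiset.card_add, hcard] at hc
  have hc2 := card_roots' (anti f)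
  have hS1 : S.card ≤ 1 := by
    have : Multiset.card S.val = S.card := rfl
    omega
  funext i
  have hi : x i ∈ S := by
    apply Finset.mem_insert_of_mem
    rw [Multiset.mem_toFinset, hroots, Multiset.mem_map]
    exact ⟨i, Finset.mem_univ_val i, rfl⟩
  exact Finset.card_le_one.1 hS1 _ hi _ (Finset.mem_insert_self _ _)

end SBr
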