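import Pool.Agent.H.MP_cc3311_ag.Lf
import Pool.Agent.H.MP_cc3311_ag.Lg2

/-!
# MP_cc3311_ag, Lh: the number of polynomials with given critical values
-/

set_option autoImplicit false

namespace SBr

open Polynomial

variable {L : Type} [Field L] [IsAlgClosed L]

/-- An ordering of `s` compatible with a given ordering of the multiset of values. Proof: lists,
`Multiset.map_eq_map`... for instance: take any `x0 : Fin n → L` with multiset `s`; `g ∘ x0` and `v` have
the same multiset, so `v = g ∘ x0 ∘ σ` for a permutation `σ` (`Multiset.map_univ_eq_iff`,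
`List.Perm`, ...). -/
theorem Lh_order {α β : Type} {n : ℕ} (s : Multiset α) (g : α → β) (v : Fin n → β)
    (h : s.map g = Finset.univ.val.map v) :
    ∃ x : Fin n → α, Finset.univ.val.map x = s ∧ ∀ i, g (x i) = v i := by
  induction n generalizing s with
  | zero =>
    refine ⟨fun i => i.elim0, ?_, fun i => i.elim0⟩
    have h0 : s.map g = 0 := by
      rw [h]
      rfl
    rw [Multiset.map_eq_zero] at h0
    rw [h0]
    rfl
  | succ n ih =>
    have hv : (Finset.univ.val.map v : Multiset β)
        = v 0 ::ₘ Finset.univ.val.map (fun i : Fin n => v i.succ) := by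
      rw [Fin.univ_succ, Finset.cons_val, Multiset.map_cons, Finset.map_val, Multiset.map_map]
      rfl
    rw [hv] at h
    have hmem : v 0 ∈ s.map g := by
      rw [h]
      exact Multiset.mem_cons_self _ _
    obtain ⟨a, ha, hga⟩ := Multiset.mem_map.1 hmem
    obtain ⟨t, rfl⟩ := Multiset.exists_cons_of_mem ha
    rw [Multiset.map_cons, hga, Multiset.cons_inj_right] at h
    obtain ⟨x, hx, hgx⟩ := ih t (fun i => v i.succ) h
    refine ⟨Fin.cons a x, ?_, ?_⟩
    · rw [Fin.univ_succ, Finset.cons_val, Multiset.map_cons, Finset.map_val, Multiset.map_map]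
      rw [Fin.cons_zero, ← hx]
      congr 1
    · intro i
      refine Fin.cases ?_ ?_ i
      · rw [Fin.cons_zero]
        exact hga
      · intro j
        rw [Fin.cons_succ]
        exact hgx j

/-- PROOF. If `s` is nonempty then `V` has `n` elements, `V = univ.val.map v`. For every `f ∈ s` choose
`x_f : Fin n → L` by `Lh_order`, so that `f = ∏ (X - C (x_f j))` and `(anti f) (x_f i) = v i`. The map
`f ↦ x_f` is injective; `PF_eval`, `bezout` with `PF_homog`, `PF_zero`. -/
theorem fibre_bound {n : ℕ} (hG : Good L n) (V : Multiset L) (s : Finset L[X])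
    (hs : ∀ f ∈ s, f.Monic ∧ f.natDegree = n ∧ cvO f = V) : s.card ≤ bF n := by
  classical
  rcases s.eq_empty_or_nonempty with hse | ⟨f0, hf0⟩
  · rw [hse]
    simp
  -- an ordering of `V`
  have hcard : ∀ f ∈ s, Multiset.card f.roots = n := by
    intro f hf
    obtain ⟨_, hd, _⟩ := hs f hf
    rw [← hd]
    exact (splits_iff_card_roots.1 (IsAlgClosed.splits f))
  have hVcard : Multiset.card V = n := by
    rw [← (hs f0 hf0).2.2, cvO, Multiset.card_map]
    exact hcard f0 hf0
  obtain ⟨v, hv⟩ : ∃ v : Fin n → L, V = Finset.univ.val.map v := by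
    obtain ⟨l, hl⟩ : ∃ l : List L, V = (l : Multiset L) := ⟨V.toList, (Multiset.coe_toList V).symm⟩
    have hll : l.length = n := by
      rw [← hVcard, hl, Multiset.coe_card]
    subst hll
    refine ⟨l.get, ?_⟩
    rw [hl, Fin.univ_val_map]
    simp
  have hex : ∀ f ∈ s, ∃ x : Fin n → L, f = ∏ j : Fin n, (X - C (x j)) ∧
      ∀ i, (anti f).eval (x i) = v i := by
    intro f hf
    obtain ⟨hm, hd, hcv⟩ := hs f hf
    obtain ⟨x, hx, hgx⟩ := Lh_order f.roots (fun y => (anti f).eval y) v (by
      rw [← hv, ← hcv]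
      rfl)
    refine ⟨x, ?_, hgx⟩
    have h1 : f = (f.roots.map fun a => X - C a).prod := by
      have h2 := C_leadingCoeff_mul_prod_multiset_X_sub_C (p := f) (by rw [hcard f hf, hd])
      rw [hm.leadingCoeff, C_1, one_mul] at h2
      exact h2.symm
    rw [← hx, Multiset.map_map] at h1
    exact h1
  choose! xf hxf hvf using hex
  have hinj : Set.InjOn xf s := by
    intro f hf g hg hfg
    rw [hxf f hf, hxf g hg, hfg]
  rw [← Finset.card_image_of_injOn hinj]
  refine bezout (PF L n) (by omega) PF_homog (PF_zero hG) v _ ?_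
  intro x hx i
  obtain ⟨f, hf, rfl⟩ := Finset.mem_image.1 hx
  rw [PF_eval, ← hxf f hf]
  exact hvf f hf i

end SBr
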