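import Pool.Agent.H.MP_cc3311_ag.A2
import Pool.Agent.H.MP_cc3311_ag.A4
import Pool.Agent.H.MP_cc3311_ag.M0

/-!
# MP_cc3311_ag, Li: multisets stable under Frobenius
-/

set_option autoImplicit false

namespace SBr

open Polynomial

variable {K : Type} [Field K] [Fintype K]

/-- The critical values are stable under Frobenius. Proof: `anti_map`, `map_frob_up`; the roots of
`up f` are stable under Frobenius (`Polynomial.roots_map` for the split polynomial `up f` and
`map_frob_up`), and `frob (eval x F) = eval (frob x) (F.map frob)`. -/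
theorem cv_map_frob (f : K[X]) : (cv f).map (frob K) = cv f := by
  have h1 : (up f).roots.map (frob K) = (up f).roots := by
    rw [← (IsAlgClosed.splits (up f)).roots_map (frob K), map_frob_up]
  have h2 : ∀ x : AlgebraicClosure K,
      frob K ((anti (up f)).eval x) = (anti (up f)).eval (frob K x) := by
    intro x
    rw [← eval_map_apply, anti_map, map_frob_up]
  unfold cv cvO
  rw [Multiset.map_map]
  conv_rhs => rw [← h1, Multiset.map_map]
  refine Multiset.map_congr rfl ?_
  intro x _
  exact h2 x

/-- The polynomial with the roots in `S` comes from `K`. -/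
theorem Li_lift {j : ℕ} {S : Finset (AlgebraicClosure K)} (hS : S.card = j)
    (hF : ∀ v ∈ S, frob K v ∈ S) :
    ∃ g : K[X], g.Monic ∧ g.natDegree = j ∧ up g = ∏ v ∈ S, (X - C v) := by
  classical
  have h1 : S.image (frob K) = S := by
    refine Finset.eq_of_subset_of_card_le ?_ ?_
    · intro x hx
      rw [Finset.mem_image] at hx
      obtain ⟨v, hv, rfl⟩ := hx
      exact hF v hv
    · rw [Finset.card_image_of_injective _ frob_injective]
  have h2 : (∏ v ∈ S, (X - C v) : (AlgebraicClosure K)[X]).map (frob K) =
      ∏ v ∈ S, (X - C v) := by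
    rw [Polynomial.map_prod]
    conv_rhs => rw [← h1]
    rw [Finset.prod_image (fun x _ y _ h => frob_injective h)]
    refine Finset.prod_congr rfl ?_
    intro v _
    rw [Polynomial.map_sub, map_X, map_C]
  obtain ⟨g, hg⟩ := up_of_map_frob h2
  refine ⟨g, ?_, ?_, hg⟩
  · rw [← up_monic, hg]
    exact monic_prod_of_monic _ _ (fun v _ => monic_X_sub_C v)
  · rw [← up_natDegree, hg, natDegree_prod_of_monic _ _ (fun v _ => monic_X_sub_C v)]
    simp [hS]

theorem Li_inj : Function.Injective
    (fun S : Finset (AlgebraicClosure K) => (∏ v ∈ S, (X - C v) : (AlgebraicClosure K)[X])) := by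
  intro S T h
  have h1 := congrArg Polynomial.roots h
  simp only [roots_prod_X_sub_C] at h1
  exact Finset.val_injective h1

/-- The number of finite sets of `j` elements stable under Frobenius is at most `q ^ j`.
PROOF. `S ↦ ∏ (X - C v)` is injective and its values are `up g` with `g` monic of degree `j`
(`up_of_map_frob`); `monic_ncard`. -/
theorem Li_sets (j : ℕ) :
    {S : Finset (AlgebraicClosure K) | S.card = j ∧ ∀ v ∈ S, frob K v ∈ S}.Finite ∧
    {S : Finset (AlgebraicClosure K) | S.card = j ∧ ∀ v ∈ S, frob K v ∈ S}.ncard ≤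
      Fintype.card K ^ j := by
  have hsub : (fun S : Finset (AlgebraicClosure K) =>
      (∏ v ∈ S, (X - C v) : (AlgebraicClosure K)[X])) ''
        {S : Finset (AlgebraicClosure K) | S.card = j ∧ ∀ v ∈ S, frob K v ∈ S} ⊆
      up '' {g : K[X] | g.Monic ∧ g.natDegree = j} := by
    rintro _ ⟨S, ⟨hS, hF⟩, rfl⟩
    obtain ⟨g, hg1, hg2, hg3⟩ := Li_lift hS hF
    exact ⟨g, ⟨hg1, hg2⟩, hg3⟩
  have hfin : {g : K[X] | g.Monic ∧ g.natDegree = j}.Finite :=
    (monic_finite K j).subset fun g hg => ⟨hg.1, le_of_eq hg.2⟩
  refine ⟨((hfin.image up).subset hsub).of_finite_image Li_inj.injOn, ?_⟩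
  rw [← Set.ncard_image_of_injective _ (Li_inj (K := K))]
  refine (Set.ncard_le_ncard hsub (hfin.image up)).trans ?_
  refine (Set.ncard_image_le hfin).trans ?_
  rw [monic_ncard]

/-- The multisets with `n` elements and support `S`, `S` with at most `n` elements. -/
theorem Li_fiber {α : Type} [DecidableEq α] (n : ℕ) (S : Finset α) (hS : S.card ≤ n) :
    {V : Multiset α | Multiset.card V = n ∧ V.toFinset = S}.Finite ∧
    {V : Multiset α | Multiset.card V = n ∧ V.toFinset = S}.ncard ≤ (n + 1) ^ n := by
  let Φ : Multiset α → (S → Fin (n + 1)) := fun V v => Fin.ofNat (n + 1) (V.count v.1)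
  have hinj : Set.InjOn Φ {V : Multiset α | Multiset.card V = n ∧ V.toFinset = S} := by
    rintro V ⟨hV1, hV2⟩ W ⟨hW1, hW2⟩ h
    ext a
    by_cases ha : a ∈ S
    · have h1 := congrFun h ⟨a, ha⟩
      have h2 := congrArg Fin.val h1
      simp only [Φ, Fin.val_ofNat] at h2
      have h3 : V.count a ≤ n := by
        rw [← hV1]
        exact Multiset.count_le_card a V
      have h4 : W.count a ≤ n := by
        rw [← hW1]
        exact Multiset.count_le_card a W
      rwa [Nat.mod_eq_of_lt (by omega), Nat.mod_eq_of_lt (by omega)] at h2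
    · have h1 : a ∉ V := by
        rw [← Multiset.mem_toFinset, hV2]
        exact ha
      have h2 : a ∉ W := by
        rw [← Multiset.mem_toFinset, hW2]
        exact ha
      rw [Multiset.count_eq_zero_of_notMem h1, Multiset.count_eq_zero_of_notMem h2]
  refine ⟨(Set.toFinite _).of_finite_image hinj, ?_⟩
  rw [← Set.ncard_image_of_injOn hinj]
  refine (Set.ncard_le_ncard (Set.subset_univ _) (Set.toFinite _)).trans ?_
  rw [Set.ncard_univ, Nat.card_eq_fintype_card, Fintype.card_fun, Fintype.card_fin,
    Fintype.card_coe]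
  exact Nat.pow_le_pow_right (by omega) hS

/-- PROOF. The support of such a multiset is stable under Frobenius, it has `j ≤ n - k` elements: at most
`(n + 1) q ^ (n - k)` supports. Given the support `S` the multiset is determined by the function of
multiplicities `S → {0, ..., n}`: at most `(n + 1) ^ n` multisets. -/
theorem Li_multisets {n k : ℕ} (hk : k ≤ n) :
    {V : Multiset (AlgebraicClosure K) | Multiset.card V = n ∧ V.map (frob K) = V ∧
      nd V + k ≤ n}.Finite ∧
    {V : Multiset (AlgebraicClosure K) | Multiset.card V = n ∧ V.map (frob K) = V ∧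
      nd V + k ≤ n}.ncard ≤ (n + 1) ^ (n + 1) * Fintype.card K ^ (n - k) := by
  classical
  have hq : 1 ≤ Fintype.card K := Fintype.card_pos
  -- the supports
  set U : Finset (Finset (AlgebraicClosure K)) :=
    (Finset.range (n - k + 1)).biUnion fun j => (Li_sets (K := K) j).1.toFinset with hU
  have hUc : U.card ≤ (n + 1) * Fintype.card K ^ (n - k) := by
    refine (Finset.card_biUnion_le_card_mul _ _ (Fintype.card K ^ (n - k)) ?_).trans ?_
    · intro j hj
      rw [Finset.mem_range] at hj
      rw [← Set.ncard_eq_toFinset_card _ (Li_sets (K := K) j).1]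
      exact (Li_sets (K := K) j).2.trans (Nat.pow_le_pow_right hq (by omega))
    · rw [Finset.card_range]
      exact Nat.mul_le_mul_right _ (by omega)
  have hUm : ∀ S ∈ U, S.card ≤ n := by
    intro S hS
    rw [hU, Finset.mem_biUnion] at hS
    obtain ⟨j, hj, hS⟩ := hS
    rw [Finset.mem_range] at hj
    rw [Set.Finite.mem_toFinset] at hS
    have := hS.1
    omega
  -- the multisets
  set T : Finset (Multiset (AlgebraicClosure K)) := U.attach.biUnion fun S =>
    (Li_fiber n S.1 (hUm S.1 S.2)).1.toFinset with hT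
  have hTc : T.card ≤ (n + 1) ^ (n + 1) * Fintype.card K ^ (n - k) := by
    refine (Finset.card_biUnion_le_card_mul _ _ ((n + 1) ^ n) ?_).trans ?_
    · intro S _
      rw [← Set.ncard_eq_toFinset_card _ (Li_fiber n S.1 (hUm S.1 S.2)).1]
      exact (Li_fiber n S.1 (hUm S.1 S.2)).2
    · rw [Finset.card_attach]
      refine (Nat.mul_le_mul_right _ hUc).trans (le_of_eq ?_)
      ring
  have hsub : {V : Multiset (AlgebraicClosure K) | Multiset.card V = n ∧ V.map (frob K) = V ∧
      nd V + k ≤ n} ⊆ (T : Set (Multiset (AlgebraicClosure K))) := by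
    rintro V ⟨hV1, hV2, hV3⟩
    have hnd : nd V = V.toFinset.card := by
      unfold nd
      rw [← Set.ncard_coe_finset]
      congr 1
      ext v
      simp
    have hmem : V.toFinset ∈ U := by
      rw [hU, Finset.mem_biUnion]
      refine ⟨V.toFinset.card, ?_, ?_⟩
      · rw [Finset.mem_range, ← hnd]
        omega
      · rw [Set.Finite.mem_toFinset]
        refine ⟨rfl, ?_⟩
        intro v hv
        rw [Multiset.mem_toFinset] at hv ⊢
        rw [← hV2]
        exact Multiset.mem_map_of_mem _ hv
    rw [Finset.mem_coe, hT, Finset.mem_biUnion]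
    refine ⟨⟨V.toFinset, hmem⟩, Finset.mem_attach _ _, ?_⟩
    rw [Set.Finite.mem_toFinset]
    exact ⟨hV1, rfl⟩
  refine ⟨T.finite_toSet.subset hsub, ?_⟩
  refine (Set.ncard_le_ncard hsub T.finite_toSet).trans ?_
  rw [Set.ncard_coe_finset]
  exact hTc

end SBr
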