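import Pool.Agent.H.MP_cc3311_ag.Lh
import Pool.Agent.H.MP_cc3311_ag.Li

/-!
# MP_cc3311_ag, Lj: few polynomials have few critical values
-/

set_option autoImplicit false

namespace SBr

open Polynomial

variable (K : Type) [Field K] [Fintype K]

theorem Mo_finite (n : ℕ) : (Mo K n).Finite :=
  (monic_finite (K := K) n).subset fun _ hf => ⟨hf.1, hf.2.le⟩

theorem Lj_cv_card {f : K[X]} : Multiset.card (cv f) = f.natDegree := by
  have h1 : Multiset.card (up f).roots = (up f).natDegree :=
    IsAlgClosed.card_roots_eq_natDegree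
  unfold cv cvO
  rw [Multiset.card_map, h1]
  exact up_natDegree f

omit [Fintype K] in
theorem Lj_good {n : ℕ} (hG : Good K n) : Good (AlgebraicClosure K) n := by
  intro i h1 h2 h0
  apply hG i h1 h2
  have h3 : algebraMap K (AlgebraicClosure K) (i : K) = 0 := by
    rw [map_natCast]
    exact h0
  exact (map_eq_zero _).1 h3

/-- PROOF. `f ↦ cv f` maps `Tl K n k` to the set of `Li_multisets`, and the fibres have at most `bF n`
elements (`fibre_bound`, `up_injective`). -/
theorem tail_bound {n k : ℕ} (hG : Good K n) (hk : k ≤ n) :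
    (Tl K n k).ncard ≤ cT n * Fintype.card K ^ (n - k) := by
  classical
  have hfin : (Tl K n k).Finite := (Mo_finite K n).subset fun f hf => hf.1
  obtain ⟨hTfin, hTcard⟩ := Li_multisets (K := K) hk
  set T : Set (Multiset (AlgebraicClosure K)) :=
    {V : Multiset (AlgebraicClosure K) | Multiset.card V = n ∧ V.map (frob K) = V ∧
      nd V + k ≤ n} with hT
  have hmem : ∀ f ∈ hfin.toFinset, cv f ∈ hTfin.toFinset := by
    intro f hf
    rw [Set.Finite.mem_toFinset] at hf ⊢
    refine ⟨?_, cv_map_frob f, hf.2⟩
    rw [Lj_cv_card K]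
    exact hf.1.2
  have h1 : (hfin.toFinset).card ≤ bF n * (hfin.toFinset.image cv).card := by
    apply Finset.card_le_mul_card_image
    intro V _
    have h2 : ((hfin.toFinset.filter fun f => cv f = V).image up).card ≤ bF n := by
      apply fibre_bound (Lj_good K hG) V
      intro g hg
      rw [Finset.mem_image] at hg
      obtain ⟨f, hf, rfl⟩ := hg
      rw [Finset.mem_filter, Set.Finite.mem_toFinset] at hf
      obtain ⟨hf1, hf2⟩ := hf
      exact ⟨up_monic.2 hf1.1.1, (up_natDegree f).trans hf1.1.2, hf2⟩
    rwa [Finset.card_image_of_injective _ up_injective] at h2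
  have h3 : (hfin.toFinset.image cv).card ≤ T.ncard := by
    rw [Set.ncard_eq_toFinset_card T hTfin]
    apply Finset.card_le_card
    intro V hV
    rw [Finset.mem_image] at hV
    obtain ⟨f, hf, rfl⟩ := hV
    exact hmem f hf
  rw [Set.ncard_eq_toFinset_card _ hfin]
  calc (hfin.toFinset).card ≤ bF n * (hfin.toFinset.image cv).card := h1
    _ ≤ bF n * ((n + 1) ^ (n + 1) * Fintype.card K ^ (n - k)) :=
        Nat.mul_le_mul_left _ (h3.trans hTcard)
    _ = cT n * Fintype.card K ^ (n - k) := by
        unfold cT
        ring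

end SBr
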