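import Pool.Agent.H.MP_cc3311_ag.B4
import Pool.Agent.H.MP_cc3311_ag.Lj

/-!
# MP_cc3311_ag, M1: simply branched means different critical values
-/

set_option autoImplicit false

namespace SBr

open Polynomial

theorem cvO_card {L : Type} [Field L] [IsAlgClosed L] (f : L[X]) :
    Multiset.card (cvO f) = f.natDegree := by
  unfold cvO
  rw [Multiset.card_map]
  exact splits_iff_card_roots.1 (IsAlgClosed.splits f)

/-- PROOF. If the map `x ↦ F x` on the multiset of the roots has no duplicates then the roots are
simple (a repeated root gives a repeated value) and the values at different roots are different;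
and conversely. A root is simple iff the derivative does not vanish there. Or use `simply_iff`. -/
theorem simply_iff_nodup {K : Type} [Field K] [Fintype K] {f : K[X]} {n : ℕ} (hG : Good K n)
    (hf : f ∈ Mo K n) : Simply (anti f) ↔ (cv f).Nodup := by
  obtain ⟨hm, hd⟩ := hf
  have hder : derivative (anti f) = f := derivative_anti hG hd.le
  have hup : (up f).Monic := up_monic.2 hm
  have hsep : Squarefree f ↔ (up f).roots.Nodup := by
    rw [nodup_roots_iff_of_splits hup.ne_zero (IsAlgClosed.splits _), up, separable_map,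
      PerfectField.separable_iff_squarefree]
  have hmem : ∀ x : AlgebraicClosure K, x ∈ (up f).roots ↔ aeval x f = 0 := by
    intro x
    rw [mem_roots hup.ne_zero, B4a_aeval]
    rfl
  unfold Simply
  rw [hder, ← B4a_sqf, hsep]
  constructor
  · rintro ⟨h1, h2⟩
    refine Multiset.Nodup.map_on (fun x hx y hy hxy => ?_) h1
    rw [hmem] at hx hy
    refine h2 x y hx hy ?_
    rw [B4a_aeval_anti, B4a_aeval_anti]
    exact hxy
  · intro h
    refine ⟨Multiset.Nodup.of_map _ h, fun x y hx hy hxy => ?_⟩
    refine Multiset.inj_on_of_nodup_map h x ((hmem x).2 hx) y ((hmem y).2 hy) ?_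
    rw [B4a_aeval_anti, B4a_aeval_anti] at hxy
    exact hxy

theorem N_eq (K : Type) [Field K] [Fintype K] {n : ℕ} (hG : Good K n) :
    N K n = {f | f ∈ Mo K n ∧ (cv f).Nodup}.ncard := by
  unfold N
  congr 1
  ext f
  simp only [Set.mem_ofPred_eq]
  constructor
  · rintro ⟨h1, h2, h3⟩
    have hf : f ∈ Mo K n := ⟨h1, h2⟩
    exact ⟨hf, (simply_iff_nodup hG hf).1 h3⟩
  · rintro ⟨hf, h3⟩
    exact ⟨hf.1, hf.2, (simply_iff_nodup hG hf).2 h3⟩

/-- Multiplicities are stable under Frobenius. -/
theorem cnt_frob {K : Type} [Field K] [Fintype K] (f : K[X]) (v : AlgebraicClosure K) :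
    cnt (frob K v) (cv f) = cnt v (cv f) := by
  classical
  have h1 : cnt (frob K v) ((cv f).map (frob K)) = cnt v (cv f) := by
    unfold cnt
    exact Multiset.count_map_eq_count' _ _ frob_injective v
  rw [cv_map_frob] at h1
  exact h1

theorem M1_sum_sub {α : Type} [DecidableEq α] (s : Multiset α) :
    nd s + ∑ v ∈ s.toFinset, (cnt v s - 1) = Multiset.card s := by
  have h0 : nd s = s.toFinset.card := by
    unfold nd
    rw [← Set.ncard_coe_finset]
    congr 1
    ext v
    simp
  have h1 : ∀ v, cnt v s = s.count v := by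
    intro v
    unfold cnt
    congr
  rw [h0, Finset.card_eq_sum_ones, ← Finset.sum_add_distrib, ← Multiset.toFinset_sum_count_eq s]
  refine Finset.sum_congr rfl fun v hv => ?_
  have h2 : 0 < s.count v := Multiset.count_pos.2 (Multiset.mem_toFinset.1 hv)
  rw [h1 v]
  omega

theorem M1_cnt_zero {α : Type} {v : α} {s : Multiset α} (h : v ∉ s) : cnt v s = 0 := by
  classical
  unfold cnt
  exact Multiset.count_eq_zero_of_notMem h

/-- The number of different elements and the multiplicities: if `S` is a finite set then
`nd s + ∑ v ∈ S, (cnt v s - 1) ≤ card s` (natural subtraction). -/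
theorem nd_add_le {α : Type} (s : Multiset α) (S : Finset α) :
    nd s + ∑ v ∈ S, (cnt v s - 1) ≤ Multiset.card s := by
  classical
  rw [← M1_sum_sub s]
  refine Nat.add_le_add_left ?_ _
  refine Finset.sum_le_sum_of_ne_zero fun v _ h => ?_
  by_contra hv
  rw [Multiset.mem_toFinset] at hv
  rw [M1_cnt_zero hv] at h
  exact h rfl

/-- Equality if `S` contains all elements of multiplicity at least 2. -/
theorem nd_add_eq {α : Type} (s : Multiset α) (S : Finset α) (hS : ∀ v, 2 ≤ cnt v s → v ∈ S) :
    nd s + ∑ v ∈ S, (cnt v s - 1) = Multiset.card s := by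
  classical
  refine le_antisymm (nd_add_le s S) ?_
  rw [← M1_sum_sub s]
  refine Nat.add_le_add_left ?_ _
  refine Finset.sum_le_sum_of_ne_zero fun v _ h => ?_
  refine hS v ?_
  omega

end SBr
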