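import Pool.Agent.H.MP_cc3311_ag.M1

/-!
# MP_cc3311_ag, M3: multiplicity of a critical value and roots of `F - v`
-/

set_option autoImplicit false

namespace SBr

open Polynomial

/-- `(n + 1) (F - v)`, a monic polynomial of degree `n + 1`. -/
noncomputable def GG {L : Type} [Field L] (n : ℕ) (f : L[X]) (v : L) : L[X] :=
  C ((n : L) + 1) * (anti f - C v)

theorem GG_mem {L : Type} [Field L] {n : ℕ} (hG : Good L n) {f : L[X]} (hf : f ∈ Mo L n) (v : L) :
    GG n f v ∈ Mo L (n + 1) := by
  have h1 := hG (n + 1) (by omega) (by omega)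
  rw [Nat.cast_add, Nat.cast_one] at h1
  obtain ⟨hm, hd⟩ := hf
  have hdeg := natDegree_anti hG hd hm.ne_zero
  have h2 : (anti f - C v).natDegree = n + 1 := by rw [natDegree_sub_C, hdeg]
  have h3 : (anti f - C v).leadingCoeff = 1 / ((n : L) + 1) := by
    rw [← leadingCoeff_anti hG hd hm, leadingCoeff, h2, leadingCoeff, hdeg, coeff_sub, coeff_C_succ,
      sub_zero]
  refine ⟨?_, ?_⟩
  · unfold GG
    rw [Monic, leadingCoeff_mul, leadingCoeff_C, h3, mul_one_div_cancel h1]
  · unfold GG
    rw [natDegree_C_mul h1, h2]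

theorem derivative_GG {L : Type} [Field L] {n : ℕ} (hG : Good L n) {f : L[X]} (hf : f ∈ Mo L n)
    (v : L) : derivative (GG n f v) = C ((n : L) + 1) * f := by
  unfold GG
  rw [derivative_C_mul, derivative_sub, derivative_C, sub_zero, derivative_anti hG hf.2.le]

theorem GG_up {K : Type} [Field K] (n : ℕ) (f : K[X]) (v : K) :
    up (GG n f v) = GG n (up f) (algebraMap K (AlgebraicClosure K) v) := by
  unfold GG up
  rw [Polynomial.map_mul, Polynomial.map_sub, map_C, map_C, anti_map, map_add, map_natCast, map_one]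

/-- `(f, v) ↦ (n + 1) (F - v)` is a bijection onto the monic polynomials of degree `n + 1`. -/
theorem GG_inj {L : Type} [Field L] {n : ℕ} (hG : Good L n) {f f' : L[X]} {v v' : L}
    (hf : f ∈ Mo L n) (hf' : f' ∈ Mo L n) (h : GG n f v = GG n f' v') : f = f' ∧ v = v' := by
  have h1 := hG (n + 1) (by omega) (by omega)
  rw [Nat.cast_add, Nat.cast_one] at h1
  have h2 : f = f' := by
    have h3 := congrArg derivative h
    rw [derivative_GG hG hf, derivative_GG hG hf'] at h3
    exact mul_left_cancel₀ (C_ne_zero.2 h1) h3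
  refine ⟨h2, ?_⟩
  subst h2
  unfold GG at h
  have h4 := mul_left_cancel₀ (C_ne_zero.2 h1) h
  have h5 := sub_right_injective h4
  exact C_injective h5

theorem GG_surj {L : Type} [Field L] {n : ℕ} (hG : Good L n) {G : L[X]} (h : G ∈ Mo L (n + 1)) :
    ∃ f ∈ Mo L n, ∃ v : L, GG n f v = G := by
  have h1 := hG (n + 1) (by omega) (by omega)
  rw [Nat.cast_add, Nat.cast_one] at h1
  obtain ⟨hm, hd⟩ := h
  have hc : (derivative G).coeff n = (n : L) + 1 := by
    rw [coeff_derivative, ← hd, coeff_natDegree, hm.leadingCoeff, one_mul]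
  have hdd : (derivative G).natDegree = n := by
    refine natDegree_eq_of_le_of_coeff_ne_zero ?_ (by rw [hc]; exact h1)
    have := natDegree_derivative_le G
    omega
  have h4 := anti_derivative hG hd.le
  refine ⟨C ((n : L) + 1)⁻¹ * derivative G, ⟨?_, ?_⟩, -(((n : L) + 1)⁻¹ * G.coeff 0), ?_⟩
  · rw [Monic, leadingCoeff_mul, leadingCoeff_C, leadingCoeff, hdd, hc, inv_mul_cancel₀ h1]
  · rw [natDegree_C_mul (inv_ne_zero h1), hdd]
  · unfold GG
    rw [anti_C_mul, h4, C_neg, C_mul, sub_neg_eq_add, mul_add, ← mul_assoc, ← mul_assoc, ← C_mul,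
      mul_inv_cancel₀ h1, C_1, one_mul, one_mul, sub_add_cancel]

/-- Roots of `F - v`. PROOF. `G = GG n f v` has `n + 1` roots with multiplicity. For a root `a` of `G` of
multiplicity `m` (at most `n + 1`, characteristic) the multiplicity in `G' = (n + 1) f` is `m - 1`. The
multiplicity of `v` in `cvO f` is the sum of the multiplicities in `f` of the roots `a` of `f` with
`F a = v`, that is, the sum of `m - 1` over the different roots `a` of `G`. -/
theorem cnt_add {L : Type} [Field L] [IsAlgClosed L] {n : ℕ} (hG : Good L n) {f : L[X]}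
    (hf : f ∈ Mo L n) (v : L) : cnt v (cvO f) + nd (GG n f v).roots = n + 1 := by
  classical
  have h1 := hG (n + 1) (by omega) (by omega)
  rw [Nat.cast_add, Nat.cast_one] at h1
  obtain ⟨hGm, hGd⟩ := GG_mem hG hf v
  have hcard : Multiset.card (GG n f v).roots = n + 1 := by
    rw [← hGd]
    exact splits_iff_card_roots.1 (IsAlgClosed.splits _)
  have hroot : ∀ a : L, a ∈ (GG n f v).roots ↔ (anti f).eval a = v := by
    intro a
    rw [mem_roots hGm.ne_zero, IsRoot.def]
    unfold GG
    rw [eval_mul, eval_C, eval_sub, eval_C, mul_eq_zero, sub_eq_zero]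
    simp [h1]
  have hmul : ∀ a ∈ (GG n f v).roots, f.roots.count a + 1 = (GG n f v).roots.count a := by
    intro a ha
    have hpos : 0 < (GG n f v).roots.count a := Multiset.count_pos.2 ha
    have hle : (GG n f v).roots.count a ≤ n + 1 := by
      rw [← hcard]
      exact Multiset.count_le_card _ _
    have hne : (((GG n f v).rootMultiplicity a : ℕ) : L) ≠ 0 := by
      rw [← count_roots]
      exact hG _ hpos hle
    have h5 := derivative_rootMultiplicity_of_root_of_mem_nonZeroDivisors
      ((mem_roots hGm.ne_zero).1 ha) (mem_nonZeroDivisors_of_ne_zero hne)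
    rw [derivative_GG hG hf, ← count_roots, ← count_roots, roots_C_mul _ h1] at h5
    omega
  have hc : cnt v (cvO f) = ∑ a ∈ (GG n f v).roots.toFinset, f.roots.count a := by
    unfold cnt cvO
    rw [Multiset.count_map, ← Multiset.sum_count_eq_card (s := (GG n f v).roots.toFinset)]
    · refine Finset.sum_congr rfl fun a ha => ?_
      rw [Multiset.mem_toFinset, hroot] at ha
      rw [Multiset.count_filter, if_pos ha.symm]
    · intro a ha
      rw [Multiset.mem_filter] at ha
      rw [Multiset.mem_toFinset, hroot]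
      exact ha.2.symm
  have hn : nd (GG n f v).roots = (GG n f v).roots.toFinset.card := by
    unfold nd
    rw [← Set.ncard_coe_finset]
    congr 1
    ext x
    simp
  rw [hc, hn, Finset.card_eq_sum_ones, ← Finset.sum_add_distrib, ← hcard,
    ← Multiset.toFinset_sum_count_eq]
  exact Finset.sum_congr rfl fun a ha => hmul a (Multiset.mem_toFinset.1 ha)

/-- The set of monic polynomials of degree `m` over `K` of excess at least two. -/
def E2 (K : Type) [Field K] (m : ℕ) : Set K[X] := {G | G ∈ Mo K m ∧ nd (up G).roots + 2 ≤ m}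

end SBr
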