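import Pool.Agent.H.MP_cc3311_ag.M5

/-!
# MP_cc3311_ag, M5u: excess exactly two
-/

set_option autoImplicit false

namespace SBr

open Polynomial

theorem M5u_sum {α : Type} [DecidableEq α] {s : Multiset α}
    (h : s.toFinset.card + 2 = Multiset.card s) :
    ∑ x ∈ s.toFinset, (s.count x - 1) = 2 := by
  have h1 : ∑ x ∈ s.toFinset, s.count x = Multiset.card s := Multiset.toFinset_sum_count_eq s
  have h2 : ∑ x ∈ s.toFinset, (s.count x - 1) + ∑ x ∈ s.toFinset, 1
      = ∑ x ∈ s.toFinset, s.count x := by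
    rw [← Finset.sum_add_distrib]
    refine Finset.sum_congr rfl fun x hx => ?_
    have := Multiset.count_pos.2 (Multiset.mem_toFinset.1 hx)
    omega
  rw [Finset.sum_const, smul_eq_mul, mul_one] at h2
  omega

theorem M5u_le {α : Type} [DecidableEq α] {s : Multiset α}
    (h : s.toFinset.card + 2 = Multiset.card s) (A : Finset α) :
    ∑ x ∈ A, (s.count x - 1) ≤ 2 := by
  rw [← M5u_sum h]
  calc ∑ x ∈ A, (s.count x - 1) ≤ ∑ x ∈ A ∪ s.toFinset, (s.count x - 1) :=
        Finset.sum_le_sum_of_subset Finset.subset_union_left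
    _ = ∑ x ∈ s.toFinset, (s.count x - 1) := by
        refine (Finset.sum_subset Finset.subset_union_right fun x _ hx => ?_).symm
        have : s.count x = 0 := by
          rw [Multiset.count_eq_zero]
          intro hc
          exact hx (Multiset.mem_toFinset.2 hc)
        omega

variable {L : Type} [Field L] [IsAlgClosed L]

/-- Excess exactly two: either one root of multiplicity 3 and the others simple, or two roots of
multiplicity 2 and the others simple. -/
theorem Ds_unique {G : L[X]} {m : ℕ} (hG : G ∈ Mo L m) (h : nd G.roots + 2 = m) :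
    ∃! D : L[X], D ∈ Ds L ∧ D ∣ G := by
  classical
  have hG0 : G ≠ 0 := hG.1.ne_zero
  have hc : Multiset.card G.roots = m := by
    rw [IsAlgClosed.card_roots_eq_natDegree, hG.2]
  have h' : G.roots.toFinset.card + 2 = Multiset.card G.roots := by
    rw [← M5_nd, h, hc]
  have hsum := M5u_sum h'
  have hle := M5u_le h'
  have hdvd : ∀ (a : L) (j : ℕ), (X - C a) ^ j ∣ G ↔ j ≤ G.roots.count a := by
    intro a j
    rw [count_roots, le_rootMultiplicity_iff hG0]
  have hcop : ∀ a b : L, a ≠ b → (((X - C a) * (X - C b)) ^ 2 ∣ G ↔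
      2 ≤ G.roots.count a ∧ 2 ≤ G.roots.count b) := by
    intro a b hab
    rw [mul_pow, ← hdvd, ← hdvd]
    constructor
    · intro hd
      exact ⟨(dvd_mul_right _ _).trans hd, (dvd_mul_left _ _).trans hd⟩
    · rintro ⟨h1, h2⟩
      exact IsCoprime.mul_dvd ((pairwise_coprime_X_sub_C
        (Function.injective_id) hab).pow) h1 h2
  have hsq : ∀ a b : L, Squarefree ((X - C a) * (X - C b)) → a ≠ b := by
    rintro a b hs rfl
    have := hs (X - C a) dvd_rfl
    exact not_isUnit_X_sub_C a this
  -- the two kinds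
  have key3 : ∀ a : L, (X - C a) ^ 3 ∣ G → ∀ x : L, x ≠ a → G.roots.count x ≤ 1 := by
    intro a ha x hx
    have h1 := (hdvd a 3).1 ha
    have h2 := hle {x, a}
    rw [Finset.sum_pair hx] at h2
    omega
  have key2 : ∀ a b : L, a ≠ b → ((X - C a) * (X - C b)) ^ 2 ∣ G →
      (∀ x : L, x ≠ a → x ≠ b → G.roots.count x ≤ 1) ∧ G.roots.count a ≤ 2 ∧
        G.roots.count b ≤ 2 := by
    intro a b hab hd
    obtain ⟨h1, h2⟩ := (hcop a b hab).1 hd
    have h3 := hle {a, b}
    rw [Finset.sum_pair hab] at h3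
    refine ⟨fun x hxa hxb => ?_, by omega, by omega⟩
    have h4 := hle {x, a, b}
    rw [Finset.sum_insert (by simp [hxa, hxb]), Finset.sum_pair hab] at h4
    omega
  -- existence
  have hex : ∃ D : L[X], D ∈ Ds L ∧ D ∣ G := by
    obtain ⟨x, hx, hx1⟩ : ∃ x ∈ G.roots.toFinset, 1 ≤ G.roots.count x - 1 := by
      by_contra hcon
      push Not at hcon
      have : ∑ x ∈ G.roots.toFinset, (G.roots.count x - 1) = 0 :=
        Finset.sum_eq_zero fun x hx => by
          have := hcon x hx
          omega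
      omega
    by_cases hx2 : 2 ≤ G.roots.count x - 1
    · exact ⟨(X - C x) ^ 3, Or.inl ⟨x, rfl⟩, (hdvd x 3).2 (by omega)⟩
    · obtain ⟨y, hy, hy1⟩ : ∃ y ∈ G.roots.toFinset.erase x, 1 ≤ G.roots.count y - 1 := by
        by_contra hcon
        push Not at hcon
        have h0 : ∑ y ∈ G.roots.toFinset.erase x, (G.roots.count y - 1) = 0 :=
          Finset.sum_eq_zero fun y hy => by
            have := hcon y hy
            omega
        have h1 := Finset.add_sum_erase G.roots.toFinset (fun y => G.roots.count y - 1) hx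
        omega
      have hyx : x ≠ y := (Finset.ne_of_mem_erase hy).symm
      refine ⟨((X - C x) * (X - C y)) ^ 2, Or.inr ⟨(X - C x) * (X - C y), ?_, ?_, ?_, rfl⟩,
        (hcop x y hyx).2 ⟨by omega, by omega⟩⟩
      · exact (monic_X_sub_C x).mul (monic_X_sub_C y)
      · rw [(monic_X_sub_C x).natDegree_mul (monic_X_sub_C y), natDegree_X_sub_C,
          natDegree_X_sub_C]
      · rw [squarefree_mul_iff]
        refine ⟨?_, irreducible_X_sub_C x |>.squarefree, irreducible_X_sub_C y |>.squarefree⟩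
        exact (pairwise_coprime_X_sub_C (Function.injective_id) hyx).isRelPrime
  obtain ⟨D, hD, hDG⟩ := hex
  refine ⟨D, ⟨hD, hDG⟩, ?_⟩
  rintro D' ⟨hD', hDG'⟩
  rcases hD with ⟨a, rfl⟩ | ⟨E, hE, hd, hs, rfl⟩ <;>
    rcases hD' with ⟨a', rfl⟩ | ⟨E', hE', hd', hs', rfl⟩
  · by_contra hne
    have haa : a' ≠ a := fun h0 => hne (by rw [h0])
    have h1 := key3 a hDG a' haa
    have h2 := (hdvd a' 3).1 hDG'
    omega
  · exfalso
    obtain ⟨b, c, rfl⟩ := M5_quad hE' hd'
    have hbc := hsq b c hs'
    obtain ⟨h1, h2⟩ := (hcop b c hbc).1 hDG'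
    by_cases hb : b = a
    · have := key3 a hDG c (fun h0 => hbc (hb.trans h0.symm))
      omega
    · have := key3 a hDG b hb
      omega
  · exfalso
    obtain ⟨b, c, rfl⟩ := M5_quad hE hd
    have hbc := hsq b c hs
    obtain ⟨h1, h2⟩ := (hcop b c hbc).1 hDG
    by_cases hb : b = a'
    · have := key3 a' hDG' c (fun h0 => hbc (hb.trans h0.symm))
      omega
    · have := key3 a' hDG' b hb
      omega
  · obtain ⟨b, c, rfl⟩ := M5_quad hE hd
    obtain ⟨b', c', rfl⟩ := M5_quad hE' hd'
    have hbc := hsq b c hs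
    have hbc' := hsq b' c' hs'
    obtain ⟨h1, -, -⟩ := key2 b c hbc hDG
    obtain ⟨h2, h3⟩ := (hcop b' c' hbc').1 hDG'
    have e1 : b' = b ∨ b' = c := by
      by_contra hcon
      push Not at hcon
      have := h1 b' hcon.1 hcon.2
      omega
    have e2 : c' = b ∨ c' = c := by
      by_contra hcon
      push Not at hcon
      have := h1 c' hcon.1 hcon.2
      omega
    rcases e1 with rfl | rfl <;> rcases e2 with rfl | rfl
    · exact absurd rfl hbc'
    · rfl
    · rw [mul_comm (X - C b')]
    · exact absurd rfl hbc'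

end SBr
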