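import Pool.Agent.H.MP_cc3311_ag.M2
import Pool.Agent.H.MP_cc3311_ag.M3
import Pool.Agent.H.MP_cc3311_ag.M5u

/-!
# MP_cc3311_ag, M6a1: pairs of multiple critical values in `K` and structures
-/

set_option autoImplicit false

namespace SBr

open Polynomial

variable (K : Type) [Field K] [Fintype K]

/-- A polynomial with two different values in `K` and structures over `K` dividing `F - v`. -/
def R2 (n : ℕ) : Set ((K[X] × K × K) × (K[X] × K[X])) :=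
  {x | x.1.1 ∈ Mo K n ∧ x.1.2.1 ≠ x.1.2.2 ∧ x.2.1 ∈ Ds K ∧ x.2.2 ∈ Ds K ∧
    x.2.1 ∣ GG n x.1.1 x.1.2.1 ∧ x.2.2 ∣ GG n x.1.1 x.1.2.2}

theorem M6a1_up {n : ℕ} {f : K[X]} (hf : f ∈ Mo K n) : up f ∈ Mo (AlgebraicClosure K) n :=
  ⟨up_monic.2 hf.1, by rw [up_natDegree]; exact hf.2⟩

theorem M6a1_cnt {n : ℕ} (hG : Good K n) {f : K[X]} (hf : f ∈ Mo K n) (v : K) :
    cnt (algebraMap K (AlgebraicClosure K) v) (cv f) + nd (up (GG n f v)).roots = n + 1 := by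
  rw [GG_up]
  exact cnt_add hG.up (M6a1_up K hf) _

theorem M6a1_Mo {n : ℕ} (hG : Good K n) {f : K[X]} (hf : f ∈ Mo K n) (v : K) :
    up (GG n f v) ∈ Mo (AlgebraicClosure K) (n + 1) :=
  M6a1_up K (GG_mem hG hf v)

/-- A structure over `K` means a multiple critical value. -/
theorem M6a1_Z1 {n : ℕ} (hG : Good K n) {f : K[X]} (hf : f ∈ Mo K n) {v : K} {D : K[X]}
    (hD : D ∈ Ds K) (h : D ∣ GG n f v) : v ∈ Z1 f := by
  have h1 := Ds_dvd (M6a1_Mo K hG hf v) (Ds_up.2 hD) (up_dvd.2 h)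
  have h2 := M6a1_cnt K hG hf v
  change 2 ≤ cnt (algebraMap K (AlgebraicClosure K) v) (cv f)
  omega

theorem M6a1_empty {n : ℕ} (hG : Good K n) {f : K[X]} (hf : f ∈ Mo K n) {v v' : K}
    (h : (v, v') ∉ Z2 f) : {y : K[X] × K[X] | ((f, v, v'), y) ∈ R2 K n} = ∅ := by
  rw [Set.eq_empty_iff_forall_notMem]
  rintro y ⟨_, h1, h2, h3, h4, h5⟩
  exact h ⟨h1, M6a1_Z1 K hG hf h2 h4, M6a1_Z1 K hG hf h3 h5⟩

/-- Multiplicity exactly two: the structure is unique. -/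
theorem M6a1_unique {n : ℕ} (hG : Good K n) {f : K[X]} (hf : f ∈ Mo K n) {v : K}
    (h : cnt (algebraMap K (AlgebraicClosure K) v) (cv f) = 2) :
    ∃! D : K[X], D ∈ Ds K ∧ D ∣ GG n f v := by
  have h1 := M6a1_cnt K hG hf v
  have h2 : nd (up (GG n f v)).roots + 2 = n + 1 := by omega
  obtain ⟨D, ⟨hD1, hD2⟩, hD3⟩ := Ds_unique (M6a1_Mo K hG hf v) h2
  have hD4 : D.map (frob K) = D := by
    refine hD3 _ ⟨Ds_map hD1, ?_⟩
    have h9 := Polynomial.map_dvd (frob K) hD2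
    rw [map_frob_up] at h9
    exact h9
  obtain ⟨g, rfl⟩ := up_of_map_frob hD4
  refine ⟨g, ⟨Ds_up.1 hD1, up_dvd.1 hD2⟩, ?_⟩
  rintro g' ⟨h3, h4⟩
  exact up_injective (hD3 _ ⟨Ds_up.2 h3, up_dvd.2 h4⟩)

/-- For `f ∉ Tl K n 3` and different `v, v' ∈ K`: both are multiple critical values iff there are
structures, and the structures are unique. PROOF. `cnt_add`: the excess of `GG n f v` is the
multiplicity of `v`; both multiplicities at least 2 and total excess of `cv f` at most 2 (`nd_add_le`)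
means both multiplicities are 2; `Ds_unique` over the closure, the unique structure is stable under
Frobenius (`Ds_map`), so it is defined over `K` (`up_of_map_frob`, `Ds_up`, `up_dvd`). Conversely
`Ds_dvd`. -/
theorem R2_fibre {n : ℕ} (hG : Good K n) {f : K[X]} (hf : f ∈ Mo K n) (h3 : f ∉ Tl K n 3)
    {v v' : K} (hv : v ≠ v') :
    ((v, v') ∈ Z2 f → {y : K[X] × K[X] | ((f, v, v'), y) ∈ R2 K n}.ncard = 1) ∧
    ((v, v') ∉ Z2 f → {y : K[X] × K[X] | ((f, v, v'), y) ∈ R2 K n} = ∅) := by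
  classical
  refine ⟨fun hz => ?_, fun hz => M6a1_empty K hG hf hz⟩
  obtain ⟨_, h1, h2⟩ := hz
  change 2 ≤ cnt (algebraMap K (AlgebraicClosure K) v) (cv f) at h1
  change 2 ≤ cnt (algebraMap K (AlgebraicClosure K) v') (cv f) at h2
  have hcard : Multiset.card (cv f) = n := by
    have := cvO_card (up f)
    rw [up_natDegree, hf.2] at this
    exact this
  have h5 : ¬ nd (cv f) + 3 ≤ n := fun h => h3 ⟨hf, h⟩
  have hne : algebraMap K (AlgebraicClosure K) v ≠ algebraMap K (AlgebraicClosure K) v' :=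
    fun h => hv ((algebraMap K (AlgebraicClosure K)).injective h)
  have h6 := nd_add_le (cv f) ({algebraMap K (AlgebraicClosure K) v,
    algebraMap K (AlgebraicClosure K) v'} : Finset (AlgebraicClosure K))
  rw [Finset.sum_pair hne, hcard] at h6
  have h7 : cnt (algebraMap K (AlgebraicClosure K) v) (cv f) = 2 := by omega
  have h8 : cnt (algebraMap K (AlgebraicClosure K) v') (cv f) = 2 := by omega
  obtain ⟨D, ⟨hD1, hD2⟩, hD3⟩ := M6a1_unique K hG hf h7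
  obtain ⟨D', ⟨hD1', hD2'⟩, hD3'⟩ := M6a1_unique K hG hf h8
  rw [Set.ncard_eq_one]
  refine ⟨(D, D'), ?_⟩
  ext y
  rw [Set.mem_singleton_iff]
  constructor
  · rintro ⟨_, _, hy1, hy2, hy3, hy4⟩
    exact Prod.ext (hD3 _ ⟨hy1, hy3⟩) (hD3' _ ⟨hy2, hy4⟩)
  · rintro rfl
    exact ⟨hf, hv, hD1, hD1', hD2, hD2'⟩

/-- The structures over `K` dividing `GG n f v`. -/
theorem M6a1_card {n : ℕ} (hG : Good K n) {f : K[X]} (hf : f ∈ Mo K n) (v : K) :
    {D : K[X] | D ∈ Ds K ∧ D ∣ GG n f v}.Finite ∧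
      {D : K[X] | D ∈ Ds K ∧ D ∣ GG n f v}.ncard ≤ 2 * (n + 1) ^ 2 := by
  obtain ⟨h1, h2⟩ := Ds_card (M6a1_Mo K hG hf v)
  have hmaps : ∀ D ∈ {D : K[X] | D ∈ Ds K ∧ D ∣ GG n f v},
      up D ∈ {D : (AlgebraicClosure K)[X] | D ∈ Ds (AlgebraicClosure K) ∧ D ∣ up (GG n f v)} := by
    rintro D ⟨h3, h4⟩
    exact ⟨Ds_up.2 h3, up_dvd.2 h4⟩
  have hinj : Set.InjOn up {D : K[X] | D ∈ Ds K ∧ D ∣ GG n f v} := up_injective.injOn
  refine ⟨Set.Finite.of_injOn hmaps hinj h1, ?_⟩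
  exact (Set.ncard_le_ncard_of_injOn up hmaps hinj h1).trans h2

/-- For all `f`: if there are structures then `(v, v') ∈ Z2 f`, and there are at most
`(2 (n + 1) ^ 2) ^ 2` pairs of structures (`Ds_card`). -/
theorem R2_fibre_le {n : ℕ} (hG : Good K n) {f : K[X]} (hf : f ∈ Mo K n) (v v' : K) :
    {y : K[X] × K[X] | ((f, v, v'), y) ∈ R2 K n}.Finite ∧
    {y : K[X] × K[X] | ((f, v, v'), y) ∈ R2 K n}.ncard ≤ 4 * (n + 1) ^ 4 ∧
    ((v, v') ∉ Z2 f → {y : K[X] × K[X] | ((f, v, v'), y) ∈ R2 K n} = ∅) := by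
  obtain ⟨h1, h2⟩ := M6a1_card K hG hf v
  obtain ⟨h1', h2'⟩ := M6a1_card K hG hf v'
  have hsub : {y : K[X] × K[X] | ((f, v, v'), y) ∈ R2 K n} ⊆
      {D : K[X] | D ∈ Ds K ∧ D ∣ GG n f v} ×ˢ {D : K[X] | D ∈ Ds K ∧ D ∣ GG n f v'} := by
    rintro y ⟨_, _, hy1, hy2, hy3, hy4⟩
    exact ⟨⟨hy1, hy3⟩, ⟨hy2, hy4⟩⟩
  have hfin := h1.prod h1'
  refine ⟨hfin.subset hsub, ?_, fun hz => M6a1_empty K hG hf hz⟩
  refine (Set.ncard_le_ncard hsub hfin).trans ?_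
  rw [Set.ncard_prod]
  refine (Nat.mul_le_mul h2 h2').trans (le_of_eq ?_)
  ring

end SBr
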