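import Pool.Agent.H.MP_cc3311_ag.M2
import Pool.Agent.H.MP_cc3311_ag.M3
import Pool.Agent.H.MP_cc3311_ag.M5u

/-!
# MP_cc3311_ag, M6b1: multiple critical values in the quadratic extension and structures
-/

set_option autoImplicit false

namespace SBr

open Polynomial

variable (K : Type) [Field K] [Fintype K]

/-- Structures over the quadratic extension. -/
def Dq : Set (AlgebraicClosure K)[X] :=
  {D | D ∈ Ds (AlgebraicClosure K) ∧ (D.map (frob K)).map (frob K) = D}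

/-- A polynomial with a value `v` in the quadratic extension, not in `K`, and a structure over the
quadratic extension dividing `F - v`. -/
def C2 (n : ℕ) : Set ((K[X] × AlgebraicClosure K) × (AlgebraicClosure K)[X]) :=
  {x | x.1.1 ∈ Mo K n ∧ frob K (frob K x.1.2) = x.1.2 ∧ frob K x.1.2 ≠ x.1.2 ∧ x.2 ∈ Dq K ∧
    x.2 ∣ GG n (up x.1.1) x.1.2}

theorem M6b1_map (n : ℕ) (f : K[X]) (v : AlgebraicClosure K) :
    (GG n (up f) v).map (frob K) = GG n (up f) (frob K v) := by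
  unfold GG
  rw [Polynomial.map_mul, Polynomial.map_sub, map_C, map_C, anti_map, map_frob_up, map_add,
    map_natCast, map_one]

theorem M6b1_up {n : ℕ} {f : K[X]} (hf : f ∈ Mo K n) : up f ∈ Mo (AlgebraicClosure K) n :=
  ⟨up_monic.2 hf.1, by rw [up_natDegree]; exact hf.2⟩

theorem M6b1_cnt {n : ℕ} (hG : Good K n) {f : K[X]} (hf : f ∈ Mo K n)
    (v : AlgebraicClosure K) : cnt v (cv f) + nd (GG n (up f) v).roots = n + 1 :=
  cnt_add hG.up (M6b1_up K hf) v

theorem M6b1_empty {n : ℕ} (hG : Good K n) {f : K[X]} (hf : f ∈ Mo K n)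
    {v : AlgebraicClosure K} (hv : v ∉ Zc f) :
    {y : (AlgebraicClosure K)[X] | ((f, v), y) ∈ C2 K n} = ∅ := by
  rw [Set.eq_empty_iff_forall_notMem]
  rintro y ⟨_, h1, h2, h3, h4⟩
  have h5 := Ds_dvd (GG_mem hG.up (M6b1_up K hf) v) h3.1 h4
  have h6 := M6b1_cnt K hG hf v
  exact hv ⟨h1, h2, by omega⟩

/-- For `f ∉ Tl K n 3`: `v` is a multiple critical value iff there is a structure, and it is unique.
PROOF. `v` and `frob v` are different and have the same multiplicity (`cnt_frob`), so the multiplicity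
is at most 2 (`nd_add_le`); `cnt_add`, `Ds_unique`; the unique structure is stable under the square of
Frobenius (`Ds_map`) because `GG n (up f) v` is. Conversely `Ds_dvd`. -/
theorem C2_fibre {n : ℕ} (hG : Good K n) {f : K[X]} (hf : f ∈ Mo K n) (h3 : f ∉ Tl K n 3)
    (v : AlgebraicClosure K) :
    (v ∈ Zc f → {y : (AlgebraicClosure K)[X] | ((f, v), y) ∈ C2 K n}.ncard = 1) ∧
    (v ∉ Zc f → {y : (AlgebraicClosure K)[X] | ((f, v), y) ∈ C2 K n} = ∅) := by
  classical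
  refine ⟨fun hv => ?_, fun hv => M6b1_empty K hG hf hv⟩
  obtain ⟨h1, h2, h4⟩ := hv
  have hcard : Multiset.card (cv f) = n := by
    have := cvO_card (up f)
    rw [up_natDegree, hf.2] at this
    exact this
  have h5 : ¬ nd (cv f) + 3 ≤ n := fun h => h3 ⟨hf, h⟩
  have h6 := nd_add_le (cv f) ({v, frob K v} : Finset (AlgebraicClosure K))
  rw [Finset.sum_pair h2.symm, cnt_frob, hcard] at h6
  have h7 := M6b1_cnt K hG hf v
  have h8 : nd (GG n (up f) v).roots + 2 = n + 1 := by omega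
  obtain ⟨D, ⟨hD1, hD2⟩, hD3⟩ := Ds_unique (GG_mem hG.up (M6b1_up K hf) v) h8
  have hD4 : (D.map (frob K)).map (frob K) = D := by
    refine hD3 _ ⟨Ds_map (Ds_map hD1), ?_⟩
    have h9 := Polynomial.map_dvd (frob K) (Polynomial.map_dvd (frob K) hD2)
    rw [M6b1_map, M6b1_map, h1] at h9
    exact h9
  rw [Set.ncard_eq_one]
  refine ⟨D, ?_⟩
  ext y
  rw [Set.mem_singleton_iff]
  constructor
  · rintro ⟨_, _, _, hy1, hy2⟩
    exact hD3 y ⟨hy1.1, hy2⟩
  · rintro rfl
    exact ⟨hf, h1, h2, ⟨hD1, hD4⟩, hD2⟩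

theorem C2_fibre_le {n : ℕ} (hG : Good K n) {f : K[X]} (hf : f ∈ Mo K n)
    (v : AlgebraicClosure K) :
    {y : (AlgebraicClosure K)[X] | ((f, v), y) ∈ C2 K n}.Finite ∧
    {y : (AlgebraicClosure K)[X] | ((f, v), y) ∈ C2 K n}.ncard ≤ 2 * (n + 1) ^ 2 ∧
    (v ∉ Zc f → {y : (AlgebraicClosure K)[X] | ((f, v), y) ∈ C2 K n} = ∅) := by
  obtain ⟨h1, h2⟩ := Ds_card (GG_mem hG.up (M6b1_up K hf) v)
  have hsub : {y : (AlgebraicClosure K)[X] | ((f, v), y) ∈ C2 K n} ⊆
      {D | D ∈ Ds (AlgebraicClosure K) ∧ D ∣ GG n (up f) v} := by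
    rintro y ⟨_, _, _, hy1, hy2⟩
    exact ⟨hy1.1, hy2⟩
  exact ⟨h1.subset hsub, (Set.ncard_le_ncard hsub h1).trans h2, fun hv => M6b1_empty K hG hf hv⟩

end SBr
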