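import Pool.Agent.H.MP_cc3311_ag.M10d
import Pool.Agent.H.MP_cc3311_ag.M3
import Pool.Agent.H.MP_cc3311_ag.M6a1
import Pool.Agent.H.MP_cc3311_ag.M6b1

/-!
# MP_cc3311_ag, M10a: few exceptional pairs
-/

set_option autoImplicit false

namespace SBr

open Polynomial

variable (K : Type) [Field K] [Fintype K]

omit [Fintype K] in
/-- A polynomial `Φ` of degree `e` with `4 ≤ e ≤ 6` is `λ (F - v)`, `F = anti f`, `f` monic of degree
`e - 1`, uniquely: `f = Φ' / (lead * e)`, `λ = lead * e`... -/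
theorem M10a_repr (hG : Good K 6) {Φ : K[X]} {e : ℕ} (he : Φ.natDegree = e + 1) (h1 : e ≤ 5) :
    ∃ f ∈ Mo K e, ∃ l v : K, l ≠ 0 ∧ Φ = C l * (anti f - C v) := by
  have hΦ : Φ ≠ 0 := by
    rintro rfl
    simp at he
  have ha : Φ.leadingCoeff ≠ 0 := leadingCoeff_ne_zero.2 hΦ
  have he1 : ((e : K) + 1) ≠ 0 := by
    have := hG (e + 1) (by omega) (by omega)
    rwa [Nat.cast_add, Nat.cast_one] at this
  set l : K := Φ.leadingCoeff * ((e : K) + 1) with hl
  have hl0 : l ≠ 0 := mul_ne_zero ha he1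
  have hde : (derivative Φ).coeff e = l := by
    rw [coeff_derivative, hl, leadingCoeff, he]
  have hdn : (derivative Φ).natDegree ≤ e := by
    have := natDegree_derivative_le Φ
    omega
  have hco : (C l⁻¹ * derivative Φ).coeff e = 1 := by
    rw [coeff_C_mul, hde, inv_mul_cancel₀ hl0]
  have hdn' : (C l⁻¹ * derivative Φ).natDegree ≤ e :=
    (natDegree_C_mul_le _ _).trans hdn
  have hmon : (C l⁻¹ * derivative Φ).Monic := monic_of_natDegree_le_of_coeff_eq_one e hdn' hco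
  have hdeg : (C l⁻¹ * derivative Φ).natDegree = e := by
    refine le_antisymm hdn' (le_natDegree_of_ne_zero ?_)
    rw [hco]
    exact one_ne_zero
  refine ⟨C l⁻¹ * derivative Φ, ⟨hmon, hdeg⟩, l, -(Φ.coeff 0) / l, hl0, ?_⟩
  rw [anti_C_mul, anti_derivative (hG.mono (by omega : e ≤ 6)) he.le]
  have e1 : (C l : K[X]) * C l⁻¹ = 1 := by
    rw [← C_mul, mul_inv_cancel₀ hl0, C_1]
  have e2 : (C l : K[X]) * C (-(Φ.coeff 0) / l) = - C (Φ.coeff 0) := by
    rw [← C_mul, ← C_neg]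
    congr 1
    field_simp
  rw [mul_sub, ← mul_assoc, e1, e2]
  ring

/-- A polynomial `Φ` of degree `e` with `4 ≤ e ≤ 6` is `λ (F - v)`, `F = anti f`, `f` monic of degree
`e - 1`, uniquely: `f = Φ' / (lead * e)`, `λ = lead * e`... -/
theorem Phi_repr (hG : Good K 6) {Φ : K[X]} {e : ℕ} (he : Φ.natDegree = e + 1) (h1 : e ≤ 5) :
    ∃ f ∈ Mo K e, ∃ l v : K, l ≠ 0 ∧ Φ = C l * (anti f - C v) :=
  M10a_repr K hG he h1

theorem M10a_biUnion {α β : Type} {T : Set α} (hT : T.Finite) {S : α → Set β} {b : ℕ}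
    (h : ∀ x ∈ T, (S x).Finite ∧ (S x).ncard ≤ b) :
    (⋃ x ∈ T, S x).Finite ∧ (⋃ x ∈ T, S x).ncard ≤ T.ncard * b := by
  classical
  induction T, hT using Set.Finite.induction_on with
  | empty => simp
  | @insert a s ha hs ih =>
    obtain ⟨i1, i2⟩ := ih fun x hx => h x (Set.mem_insert_of_mem _ hx)
    obtain ⟨j1, j2⟩ := h a (Set.mem_insert _ _)
    rw [Set.biUnion_insert]
    refine ⟨j1.union i1, ?_⟩
    rw [Set.ncard_insert_of_notMem ha hs]
    calc (S a ∪ ⋃ x ∈ s, S x).ncard ≤ (S a).ncard + (⋃ x ∈ s, S x).ncard :=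
          Set.ncard_union_le _ _
      _ ≤ b + s.ncard * b := Nat.add_le_add j2 i2
      _ = (s.ncard + 1) * b := by ring

/-- The pairs of structures which come from a polynomial of degree `e`. -/
def M10a_U (e : ℕ) : Set (K[X] × K[X]) :=
  ⋃ f ∈ Tl K e 2, ⋃ z ∈ Z2 f, {y | ((f, z.1, z.2), y) ∈ R2 K e}

theorem M10a_U_bound (hG : Good K 6) {e : ℕ} (h2 : 2 ≤ e) (h5 : e ≤ 5) : (M10a_U K e).Finite ∧
    (M10a_U K e).ncard ≤ cT e * Fintype.card K ^ 3 * (25 * 72 ^ 2) := by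
  have hGe : Good K e := hG.mono (by omega)
  have hfin : (Tl K e 2).Finite := (Mo_finite K e).subset fun f hf => hf.1
  have h := M10a_biUnion (T := Tl K e 2) hfin
    (S := fun f => ⋃ z ∈ Z2 f, {y | ((f, z.1, z.2), y) ∈ R2 K e}) (b := 25 * 72 ^ 2) ?_
  · refine ⟨h.1, h.2.trans (Nat.mul_le_mul_right _ ?_)⟩
    refine (tail_bound K hGe h2).trans (Nat.mul_le_mul_left _ ?_)
    exact Nat.pow_le_pow_right Fintype.card_pos (by omega)
  · intro f hf
    obtain ⟨-, z2, -, -, z5, -⟩ := Z_bounds hf.1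
    have h' := M10a_biUnion (T := Z2 f) z2
      (S := fun z => {y | ((f, z.1, z.2), y) ∈ R2 K e}) (b := 72 ^ 2) ?_
    · refine ⟨h'.1, h'.2.trans (Nat.mul_le_mul_right _ (z5.trans ?_))⟩
      calc e ^ 2 ≤ 5 ^ 2 := Nat.pow_le_pow_left h5 2
        _ = 25 := by norm_num
    · intro z _
      obtain ⟨r1, r2, -⟩ := R2_fibre_le K hGe hf.1 z.1 z.2
      refine ⟨r1, r2.trans ?_⟩
      calc 4 * (e + 1) ^ 4 ≤ 4 * 6 ^ 4 :=
            Nat.mul_le_mul_left _ (Nat.pow_le_pow_left (by omega) 4)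
        _ = 72 ^ 2 := by norm_num

omit [Fintype K] in
theorem M10a_ndvd_one {D : K[X]} (h : D ∈ squ K) : ¬ D ∣ 1 := by
  intro hd
  obtain ⟨E, hE, hE2, -, rfl⟩ := h
  have h1 := natDegree_eq_zero_of_isUnit (isUnit_of_dvd_one hd)
  rw [hE.natDegree_pow, hE2] at h1
  omega

theorem M10a_mem_Tl {e : ℕ} {f : K[X]} (hf : f ∈ Mo K e) {v v' : K} (h : (v, v') ∈ Z2 f) :
    f ∈ Tl K e 2 := by
  classical
  obtain ⟨h1, h2, h3⟩ := h
  have h1 : v ≠ v' := h1
  refine ⟨hf, ?_⟩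
  have h4 := nd_add_le (cv f) {algebraMap K (AlgebraicClosure K) v,
    algebraMap K (AlgebraicClosure K) v'}
  rw [Finset.sum_pair (fun h => h1 ((algebraMap K (AlgebraicClosure K)).injective h)),
    Lj_cv_card K, hf.2] at h4
  have h2' : 2 ≤ cnt (algebraMap K (AlgebraicClosure K) v) (cv f) := h2
  have h3' : 2 ≤ cnt (algebraMap K (AlgebraicClosure K) v') (cv f) := h3
  omega

theorem M10a_cover (hG : Good K 6) :
    XQ K ⊆ M10a_U K 3 ∪ (M10a_U K 4 ∪ M10a_U K 5) := by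
  rintro ⟨D, D'⟩ ⟨⟨hD, hD', hco⟩, Φ, hΦ6, hdvd, hdvd'⟩
  have hΦ0 : Φ ≠ 0 := by
    rintro rfl
    apply M10a_ndvd_one K hD'
    have : (0 - 1 : K[X]) = - 1 := by ring
    simp only [this] at hdvd'
    exact (dvd_neg).1 hdvd'
  have h4 : 4 ≤ Φ.natDegree := by
    have h'' : D.natDegree ≤ Φ.natDegree := natDegree_le_of_dvd hdvd hΦ0
    have h' : D.natDegree = 4 := (squ_mem K hD).2
    omega
  obtain ⟨e, he⟩ : ∃ e, Φ.natDegree = e + 1 := ⟨Φ.natDegree - 1, by omega⟩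
  obtain ⟨f, hf, l, v, hl, hΦ⟩ := Phi_repr K hG he (by omega)
  have he1 : ((e : K) + 1) ≠ 0 := by
    have := hG (e + 1) (by omega) (by omega)
    rwa [Nat.cast_add, Nat.cast_one] at this
  have hv : v ≠ v + 1 / l := by
    intro h
    have : (1 : K) / l = 0 := by
      have := congrArg (fun z => z - v) h
      simpa using this.symm
    exact (one_div_ne_zero hl) this
  have key1 : D ∣ GG e f v := by
    have : GG e f v = C (((e : K) + 1) * l⁻¹) * Φ := by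
      rw [hΦ, GG, C_mul, mul_assoc, ← mul_assoc (C l⁻¹), ← C_mul, inv_mul_cancel₀ hl, C_1,
        one_mul]
    rw [this]
    exact dvd_mul_of_dvd_right hdvd _
  have key2 : D' ∣ GG e f (v + 1 / l) := by
    have : GG e f (v + 1 / l) = C (((e : K) + 1) * l⁻¹) * (Φ - 1) := by
      have e1 : Φ - 1 = C l * (anti f - C (v + 1 / l)) := by
        rw [hΦ, C_add, mul_sub, mul_sub, mul_add, ← C_mul (a := l) (b := 1 / l),
          mul_one_div_cancel hl, C_1]
        ring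
      rw [e1, GG, C_mul, mul_assoc, ← mul_assoc (C l⁻¹), ← C_mul, inv_mul_cancel₀ hl, C_1,
        one_mul]
    rw [this]
    exact dvd_mul_of_dvd_right hdvd' _
  have hR : ((f, v, v + 1 / l), (D, D')) ∈ R2 K e :=
    ⟨hf, hv, Or.inr hD, Or.inr hD', key1, key2⟩
  have hZ : (v, v + 1 / l) ∈ Z2 f := by
    by_contra hn
    have h0 := (R2_fibre_le K (hG.mono (by omega)) hf v (v + 1 / l)).2.2 hn
    have : (D, D') ∈ {y : K[X] × K[X] | ((f, v, v + 1 / l), y) ∈ R2 K e} := hR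
    rw [h0] at this
    exact this
  have hU : (D, D') ∈ M10a_U K e := by
    unfold M10a_U
    rw [Set.mem_iUnion₂]
    refine ⟨f, M10a_mem_Tl K hf hZ, ?_⟩
    rw [Set.mem_iUnion₂]
    exact ⟨(v, v + 1 / l), hZ, hR⟩
  have h345 : e = 3 ∨ e = 4 ∨ e = 5 := by omega
  rcases h345 with rfl | rfl | rfl
  · exact Or.inl hU
  · exact Or.inr (Or.inl hU)
  · exact Or.inr (Or.inr hU)

/-- PROOF. Let `(D, D')` be exceptional with `Φ = l (F - v)`, `f` monic of degree `e` (`Phi_repr`;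
`4 ≤ deg Φ`, because `D ∣ Φ` and `Φ ≠ 0`). `v` and `v' = v + 1 / l` are different multiple critical values
of `f` (`cnt_add`, `Ds_dvd`), so `f ∈ Tl K e 2` (`nd_add_le`), which has at most `cT e q ^ (e - 2)`
elements (`tail_bound`), `e - 2 ≤ 3`. Given `f` there are at most `e ^ 2` pairs `(v, v')`, they determine
`l` and `Φ`, and `D`, `D'` are structures dividing `Φ`, `Φ - 1`: at most `(2 (e + 1) ^ 2) ^ 2` pairs
(`Ds_card`). -/
theorem XQ_bound (hG : Good K 6) : (XQ K).Finite ∧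
    (XQ K).ncard ≤ 3 * (cT 5 + cT 4 + cT 3) * 25 * 72 ^ 2 * Fintype.card K ^ 3 := by
  obtain ⟨f3, b3⟩ := M10a_U_bound K hG (e := 3) (by norm_num) (by norm_num)
  obtain ⟨f4, b4⟩ := M10a_U_bound K hG (e := 4) (by norm_num) (by norm_num)
  obtain ⟨f5, b5⟩ := M10a_U_bound K hG (e := 5) (by norm_num) (by norm_num)
  have hfin := f3.union (f4.union f5)
  refine ⟨hfin.subset (M10a_cover K hG), ?_⟩
  have h1 : (XQ K).ncard ≤ (M10a_U K 3).ncard + ((M10a_U K 4).ncard + (M10a_U K 5).ncard) :=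
    (Set.ncard_le_ncard (M10a_cover K hG) hfin).trans
      ((Set.ncard_union_le _ _).trans (Nat.add_le_add_left (Set.ncard_union_le _ _) _))
  generalize Fintype.card K ^ 3 = q at *
  generalize cT 5 = c5 at *
  generalize cT 4 = c4 at *
  generalize cT 3 = c3' at *
  calc (XQ K).ncard ≤ (M10a_U K 3).ncard + ((M10a_U K 4).ncard + (M10a_U K 5).ncard) := h1
    _ ≤ c3' * q * (25 * 72 ^ 2) + (c4 * q * (25 * 72 ^ 2) + c5 * q * (25 * 72 ^ 2)) :=
        Nat.add_le_add b3 (Nat.add_le_add b4 b5)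
    _ = 1 * ((c5 + c4 + c3') * 25 * 72 ^ 2 * q) := by ring
    _ ≤ 3 * ((c5 + c4 + c3') * 25 * 72 ^ 2 * q) := Nat.mul_le_mul_right _ (by norm_num)
    _ = 3 * (c5 + c4 + c3') * 25 * 72 ^ 2 * q := by ring

end SBr
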