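import Pool.Agent.H.MP_cc3311_ag.M10a

/-!
# MP_cc3311_ag, M10b: few exceptional structures over the quadratic extension
-/

set_option autoImplicit false

namespace SBr

open Polynomial

variable (K : Type) [Field K] [Fintype K]

variable {K} in
omit [Fintype K] in
/-- The identity behind the reduction to `GG`. -/
theorem M10b_eq {f : K[X]} {l v : K} (hl : l ≠ 0) (θ : AlgebraicClosure K) :
    up (C l * (anti f - C v)) - C θ =
      C (algebraMap K (AlgebraicClosure K) l) * (anti (up f) -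
        C (algebraMap K (AlgebraicClosure K) v + θ / algebraMap K (AlgebraicClosure K) l)) := by
  have hl' : algebraMap K (AlgebraicClosure K) l ≠ 0 := by
    rwa [Ne, map_eq_zero]
  have h1 : up (C l * (anti f - C v)) = C (algebraMap K (AlgebraicClosure K) l) *
      (anti (up f) - C (algebraMap K (AlgebraicClosure K) v)) := by
    unfold up
    rw [Polynomial.map_mul, Polynomial.map_sub, map_C, map_C, anti_map]
  have h2 : (C θ : (AlgebraicClosure K)[X]) = C (algebraMap K (AlgebraicClosure K) l) *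
      C (θ / algebraMap K (AlgebraicClosure K) l) := by
    rw [← C_mul, mul_div_cancel₀ _ hl']
  rw [h1, C_add]
  nth_rewrite 1 [h2]
  ring

variable {K} in
/-- A structure of degree 4 dividing a nonconstant polynomial minus `θ`. -/
theorem M10b_natDegree {Φ : K[X]} {θ : AlgebraicClosure K} (h2 : frob K θ ≠ θ)
    {D : (AlgebraicClosure K)[X]} (hD : D ∈ squ (AlgebraicClosure K)) (h : D ∣ up Φ - C θ) :
    4 ≤ Φ.natDegree := by
  obtain ⟨E, hE1, hE2, -, rfl⟩ := hD
  have h0 : up Φ - C θ ≠ 0 := by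
    intro h3
    have h4 : (up Φ).coeff 0 = θ := by
      rw [sub_eq_zero.1 h3, coeff_C_zero]
    apply h2
    rw [← h4]
    unfold up
    rw [coeff_map, frob_algebraMap]
  have h5 := natDegree_le_of_dvd h h0
  rw [hE1.natDegree_pow, hE2, natDegree_sub_C, up_natDegree] at h5
  omega

theorem M10b_mem {θ : AlgebraicClosure K} (hG : Good K 6) (h1 : frob K (frob K θ) = θ)
    (h2 : frob K θ ≠ θ) {D : (AlgebraicClosure K)[X]} (hD : D ∈ XP K θ) :
    ∃ e ∈ ({3, 4, 5} : Finset ℕ), ∃ f ∈ Mo K e, ∃ v : AlgebraicClosure K,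
      ((f, v), D) ∈ C2 K e := by
  obtain ⟨⟨hD1, hD2, hD3⟩, Φ, hΦ, hdvd⟩ := hD
  have h4 := M10b_natDegree h2 hD1 hdvd
  obtain ⟨e, he⟩ : ∃ e, Φ.natDegree = e + 1 := ⟨Φ.natDegree - 1, by omega⟩
  obtain ⟨f, hf, l, v, hl, rfl⟩ := Phi_repr K hG he (by omega)
  refine ⟨e, ?_, f, hf, algebraMap K (AlgebraicClosure K) v +
    θ / algebraMap K (AlgebraicClosure K) l, hf, ?_, ?_, ⟨Or.inr hD1, hD2⟩, ?_⟩
  · simp only [Finset.mem_insert, Finset.mem_singleton]
    omega
  · change frob K (frob K (algebraMap K (AlgebraicClosure K) v +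
      θ / algebraMap K (AlgebraicClosure K) l)) = _
    rw [map_add, map_add, map_div₀, map_div₀, frob_algebraMap, frob_algebraMap, frob_algebraMap,
      frob_algebraMap, h1]
  · change frob K (algebraMap K (AlgebraicClosure K) v +
      θ / algebraMap K (AlgebraicClosure K) l) ≠ _
    rw [map_add, map_div₀, frob_algebraMap, frob_algebraMap]
    intro h
    have hl' : algebraMap K (AlgebraicClosure K) l ≠ 0 := by
      rwa [Ne, map_eq_zero]
    exact h2 ((div_left_inj' hl').1 (add_left_cancel h))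
  · change D ∣ GG e (up f) (algebraMap K (AlgebraicClosure K) v +
      θ / algebraMap K (AlgebraicClosure K) l)
    rw [M10b_eq hl] at hdvd
    have hl' : IsUnit (C (algebraMap K (AlgebraicClosure K) l)) := by
      rw [isUnit_C, isUnit_iff_ne_zero, Ne, map_eq_zero]
      exact hl
    rw [hl'.dvd_mul_left] at hdvd
    unfold GG
    exact Dvd.dvd.mul_left hdvd _

/-- The size of a finite union of finite sets. -/
theorem M10b_union {α β : Type} {A : Set α} (hA : A.Finite) {T : α → Set β} {k : ℕ}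
    (hT : ∀ a ∈ A, (T a).Finite ∧ (T a).ncard ≤ k) :
    (⋃ a ∈ A, T a).Finite ∧ (⋃ a ∈ A, T a).ncard ≤ A.ncard * k := by
  revert hT
  refine Set.Finite.induction_on A hA ?_ ?_
  · intro _
    simp
  · intro a s ha hs ih hT
    obtain ⟨h1, h2⟩ := ih fun b hb => hT b (Set.mem_insert_of_mem _ hb)
    obtain ⟨h3, h4⟩ := hT a (Set.mem_insert _ _)
    rw [Set.biUnion_insert]
    refine ⟨h3.union h1, ?_⟩
    rw [Set.ncard_insert_of_notMem ha hs, add_mul, one_mul]
    exact (Set.ncard_union_le _ _).trans (by omega)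

/-- The union over the polynomials and their multiple critical values. -/
theorem M10b_step {e : ℕ} (h2e : 2 ≤ e) (hG : Good K e) :
    {D : (AlgebraicClosure K)[X] | ∃ f ∈ Mo K e, ∃ v : AlgebraicClosure K,
      ((f, v), D) ∈ C2 K e}.Finite ∧
    {D : (AlgebraicClosure K)[X] | ∃ f ∈ Mo K e, ∃ v : AlgebraicClosure K,
      ((f, v), D) ∈ C2 K e}.ncard ≤
      cT e * Fintype.card K ^ (e - 2) * (e * (2 * (e + 1) ^ 2)) := by
  have hTf : (Tl K e 2).Finite := (Mo_finite K e).subset fun f hf => hf.1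
  have hU : ∀ f ∈ Tl K e 2, (⋃ v ∈ Zc f, {y : (AlgebraicClosure K)[X] |
      ((f, v), y) ∈ C2 K e}).Finite ∧ (⋃ v ∈ Zc f, {y : (AlgebraicClosure K)[X] |
      ((f, v), y) ∈ C2 K e}).ncard ≤ e * (2 * (e + 1) ^ 2) := by
    intro f hf
    obtain ⟨-, -, hz1, -, -, hz2⟩ := Z_bounds hf.1
    obtain ⟨h1, h2⟩ := M10b_union hz1 (T := fun v => {y : (AlgebraicClosure K)[X] |
      ((f, v), y) ∈ C2 K e}) (k := 2 * (e + 1) ^ 2) fun v _ =>
        ⟨(C2_fibre_le K hG hf.1 v).1, (C2_fibre_le K hG hf.1 v).2.1⟩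
    exact ⟨h1, h2.trans (Nat.mul_le_mul_right _ hz2)⟩
  obtain ⟨h1, h2⟩ := M10b_union hTf hU
  have hsub : {D : (AlgebraicClosure K)[X] | ∃ f ∈ Mo K e, ∃ v : AlgebraicClosure K,
      ((f, v), D) ∈ C2 K e} ⊆ ⋃ f ∈ Tl K e 2, ⋃ v ∈ Zc f, {y : (AlgebraicClosure K)[X] |
        ((f, v), y) ∈ C2 K e} := by
    rintro D ⟨f, hf, v, hD⟩
    have hv : v ∈ Zc f := by
      by_contra hv
      have h3 := (C2_fibre_le K hG hf v).2.2 hv
      have h4 : D ∈ {y : (AlgebraicClosure K)[X] | ((f, v), y) ∈ C2 K e} := hD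
      rw [h3] at h4
      exact h4
    have hfT : f ∈ Tl K e 2 := by
      refine ⟨hf, ?_⟩
      classical
      obtain ⟨-, hv2, hv3⟩ := hv
      have h5 := nd_add_le (cv f) {frob K v, v}
      rw [Finset.sum_pair hv2, cnt_frob, Lj_cv_card K, hf.2] at h5
      omega
    simp only [Set.mem_iUnion]
    exact ⟨f, hfT, v, hv, hD⟩
  refine ⟨h1.subset hsub, (Set.ncard_le_ncard hsub h1).trans (h2.trans ?_)⟩
  exact Nat.mul_le_mul_right _ (tail_bound K hG h2e)

/-- The same with `v' = v + θ / l`, a multiple critical value of `f` in the quadratic extension; its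
conjugate is another one. -/
theorem XP_bound (hG : Good K 6) {θ : AlgebraicClosure K} (h1 : frob K (frob K θ) = θ)
    (h2 : frob K θ ≠ θ) : (XP K θ).Finite ∧
    (XP K θ).ncard ≤ 3 * (cT 5 + cT 4 + cT 3) * 25 * 72 ^ 2 * Fintype.card K ^ 3 := by
  obtain ⟨h3a, h3b⟩ := M10b_step K (e := 3) (by norm_num) (hG.mono (by norm_num))
  obtain ⟨h4a, h4b⟩ := M10b_step K (e := 4) (by norm_num) (hG.mono (by norm_num))
  obtain ⟨h5a, h5b⟩ := M10b_step K (e := 5) (by norm_num) (hG.mono (by norm_num))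
  set S : ℕ → Set (AlgebraicClosure K)[X] := fun e =>
    {D : (AlgebraicClosure K)[X] | ∃ f ∈ Mo K e, ∃ v : AlgebraicClosure K,
      ((f, v), D) ∈ C2 K e} with hS
  have hsub : XP K θ ⊆ S 3 ∪ S 4 ∪ S 5 := by
    intro D hD
    obtain ⟨e, he, hf⟩ := M10b_mem K hG h1 h2 hD
    simp only [Finset.mem_insert, Finset.mem_singleton] at he
    rcases he with rfl | rfl | rfl
    · exact Or.inl (Or.inl hf)
    · exact Or.inl (Or.inr hf)
    · exact Or.inr hf
  have hfin : (S 3 ∪ S 4 ∪ S 5).Finite := (h3a.union h4a).union h5a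
  refine ⟨hfin.subset hsub, (Set.ncard_le_ncard hsub hfin).trans ?_⟩
  have hc : (S 3 ∪ S 4 ∪ S 5).ncard ≤ (S 3).ncard + (S 4).ncard + (S 5).ncard :=
    (Set.ncard_union_le _ _).trans (Nat.add_le_add_right (Set.ncard_union_le _ _) _)
  have hq : 1 ≤ Fintype.card K := Fintype.card_pos
  have hq1 : Fintype.card K ^ (3 - 2) ≤ Fintype.card K ^ 3 := Nat.pow_le_pow_right hq (by norm_num)
  have hq2 : Fintype.card K ^ (4 - 2) ≤ Fintype.card K ^ 3 := Nat.pow_le_pow_right hq (by norm_num)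
  have hq3 : Fintype.card K ^ (5 - 2) ≤ Fintype.card K ^ 3 := Nat.pow_le_pow_right hq (by norm_num)
  have e3 : (S 3).ncard ≤ cT 3 * Fintype.card K ^ 3 * (3 * 25 * 72 ^ 2) :=
    h3b.trans (Nat.mul_le_mul (Nat.mul_le_mul_left _ hq1) (by norm_num))
  have e4 : (S 4).ncard ≤ cT 4 * Fintype.card K ^ 3 * (3 * 25 * 72 ^ 2) :=
    h4b.trans (Nat.mul_le_mul (Nat.mul_le_mul_left _ hq2) (by norm_num))
  have e5 : (S 5).ncard ≤ cT 5 * Fintype.card K ^ 3 * (3 * 25 * 72 ^ 2) :=
    h5b.trans (Nat.mul_le_mul (Nat.mul_le_mul_left _ hq3) (by norm_num))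
  calc (S 3 ∪ S 4 ∪ S 5).ncard ≤ (S 3).ncard + (S 4).ncard + (S 5).ncard := hc
    _ ≤ cT 3 * Fintype.card K ^ 3 * (3 * 25 * 72 ^ 2) +
        cT 4 * Fintype.card K ^ 3 * (3 * 25 * 72 ^ 2) +
        cT 5 * Fintype.card K ^ 3 * (3 * 25 * 72 ^ 2) :=
      Nat.add_le_add (Nat.add_le_add e3 e4) e5
    _ = 3 * (cT 5 + cT 4 + cT 3) * 25 * 72 ^ 2 * Fintype.card K ^ 3 := by ring

end SBr
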