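import Pool.Agent.H.MP_cc3311_ag.M7b
import Pool.Agent.H.MP_cc3311_ag.C0

/-!
# MP_cc3311_ag, M9b: the numbers of structures over the quadratic extension
-/

set_option autoImplicit false

namespace SBr

open Polynomial

variable (K : Type) [Field K] [Fintype K]

/-- Structures over the quadratic extension of a given type which are coprime to their conjugates. -/
def cq (A : Set (AlgebraicClosure K)[X]) : Set (AlgebraicClosure K)[X] :=
  {D | D ∈ A ∧ (D.map (frob K)).map (frob K) = D ∧ IsCoprime D (D.map (frob K))}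

omit [Fintype K] in
theorem M9b_coprime_linear {a b : AlgebraicClosure K} :
    IsCoprime (X - C a) (X - C b) ↔ a ≠ b := by
  constructor
  · rintro h rfl
    exact (irreducible_X_sub_C a).not_isUnit (isCoprime_self.1 h)
  · intro h
    exact isCoprime_X_sub_C_of_isUnit_sub (sub_ne_zero.2 h).isUnit

theorem M9b_K : {v : AlgebraicClosure K | frob K v = v}.ncard = Fintype.card K := by
  have h1 : {v : AlgebraicClosure K | frob K v = v} = Set.range (algebraMap K (AlgebraicClosure K)) := by
    ext v
    constructor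
    · intro h
      exact mem_of_frob h
    · rintro ⟨a, rfl⟩
      exact frob_algebraMap a
  rw [h1, ← Set.image_univ, Set.ncard_image_of_injective _ (algebraMap K (AlgebraicClosure K)).injective,
    Set.ncard_univ, Nat.card_eq_fintype_card]

omit [Fintype K] in
theorem M9b_cube {a b : AlgebraicClosure K} {k : ℕ} (hk : k ≠ 0) (h : (X - C a) ^ k = (X - C b) ^ k) :
    a = b := by
  have h1 : (X - C b : (AlgebraicClosure K)[X]).eval a ^ k = 0 := by
    rw [← eval_pow, ← h, eval_pow, eval_sub, eval_X, eval_C, sub_self, zero_pow hk]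
  have h2 := pow_eq_zero_iff hk |>.1 h1
  rw [eval_sub, eval_X, eval_C] at h2
  exact sub_eq_zero.1 h2

/-- `(X - a) ^ 3` with `a` in the quadratic extension, not in `K`; `quad_ncard`. -/
theorem cq3 : (cq K (cub (AlgebraicClosure K))).Finite ∧
    ((cq K (cub (AlgebraicClosure K))).ncard : ℤ) =
      (Fintype.card K : ℤ) ^ 2 - Fintype.card K := by
  obtain ⟨hf, hc⟩ := quad_ncard K
  have himg : cq K (cub (AlgebraicClosure K)) =
      (fun a : AlgebraicClosure K => (X - C a) ^ 3) '' ({v | frob K (frob K v) = v} \ {v | frob K v = v}) := by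
    ext D
    constructor
    · rintro ⟨⟨a, rfl⟩, h1, h2⟩
      rw [Polynomial.map_pow, Polynomial.map_sub, map_X, map_C, Polynomial.map_pow, Polynomial.map_sub,
        map_X, map_C] at h1
      rw [Polynomial.map_pow, Polynomial.map_sub, map_X, map_C] at h2
      refine ⟨a, ⟨M9b_cube K (by norm_num) h1, ?_⟩, rfl⟩
      intro h3
      rw [Set.mem_ofPred_eq] at h3
      rw [h3] at h2
      have h4 := (isCoprime_self.1 h2)
      exact (irreducible_X_sub_C a).not_isUnit (isUnit_pow_iff (by norm_num) |>.1 h4)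
    · rintro ⟨a, ⟨h1, h2⟩, rfl⟩
      rw [Set.mem_ofPred_eq] at h1 h2
      refine ⟨⟨a, rfl⟩, ?_, ?_⟩
      · simp only
        rw [Polynomial.map_pow, Polynomial.map_sub, map_X, map_C, Polynomial.map_pow, Polynomial.map_sub,
          map_X, map_C, h1]
      · simp only
        rw [Polynomial.map_pow, Polynomial.map_sub, map_X, map_C]
        exact ((M9b_coprime_linear K).2 (Ne.symm h2)).pow
  have hinj : Function.Injective (fun a : AlgebraicClosure K => (X - C a : (AlgebraicClosure K)[X]) ^ 3) :=
    fun a b h => M9b_cube K (by norm_num) h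
  have hsub : {v : AlgebraicClosure K | frob K v = v} ⊆ {v | frob K (frob K v) = v} := by
    intro v hv
    rw [Set.mem_ofPred_eq] at hv ⊢
    rw [hv, hv]
  rw [himg]
  refine ⟨(hf.subset Set.sdiff_subset).image _, ?_⟩
  rw [Set.ncard_image_of_injective _ hinj, Set.ncard_sdiff hsub (hf.subset hsub), hc, M9b_K,
    Nat.cast_sub]
  · push_cast; rfl
  · exact Nat.le_self_pow (by norm_num) _

/-- Monic quadratic polynomials over the quadratic extension. -/
def M9b_M : Set (AlgebraicClosure K)[X] :=
  {E | E.Monic ∧ E.natDegree = 2 ∧ (E.map (frob K)).map (frob K) = E}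

theorem M9b_M_card : (M9b_M K).Finite ∧ (M9b_M K).ncard = Fintype.card K ^ 4 := by
  obtain ⟨hf, hc⟩ := quad_ncard K
  set φ : AlgebraicClosure K × AlgebraicClosure K → (AlgebraicClosure K)[X] :=
    fun x => X ^ 2 + C x.1 * X + C x.2 with hφ
  have hcoeff0 : ∀ x, (φ x).coeff 0 = x.2 := by
    intro x; simp [hφ]
  have hcoeff1 : ∀ x, (φ x).coeff 1 = x.1 := by
    intro x; simp [hφ, coeff_X]
  have himg : M9b_M K = φ '' ({v | frob K (frob K v) = v} ×ˢ {v | frob K (frob K v) = v}) := by
    ext E
    constructor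
    · rintro ⟨h1, h2, h3⟩
      have h4 := h1.as_sum
      rw [h2, Finset.sum_range_succ, Finset.sum_range_succ, Finset.sum_range_zero, zero_add,
        pow_zero, mul_one, pow_one] at h4
      have hfix : ∀ i, frob K (frob K (E.coeff i)) = E.coeff i := by
        intro i
        rw [← coeff_map, ← coeff_map, h3]
      refine ⟨(E.coeff 1, E.coeff 0), ⟨hfix 1, hfix 0⟩, ?_⟩
      simp only [hφ]
      rw [eq_comm]
      calc E = X ^ 2 + (C (E.coeff 0) + C (E.coeff 1) * X) := h4
        _ = _ := by ring
    · rintro ⟨⟨b, c⟩, ⟨hb, hc⟩, rfl⟩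
      rw [Set.mem_ofPred_eq] at hb hc
      simp only [hφ]
      have hd : (C b * X + C c : (AlgebraicClosure K)[X]).degree < 2 := by
        refine lt_of_le_of_lt (degree_linear_le) ?_
        norm_num
      have e1 : (X ^ 2 + C b * X + C c : (AlgebraicClosure K)[X]) = X ^ 2 + (C b * X + C c) := by ring
      refine ⟨?_, ?_, ?_⟩
      · rw [e1]
        exact monic_X_pow_add hd
      · rw [e1]
        exact natDegree_eq_of_degree_eq_some (by
          rw [degree_add_eq_left_of_degree_lt (by rwa [degree_X_pow]), degree_X_pow])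
      · simp only [Polynomial.map_add, Polynomial.map_mul, Polynomial.map_pow, map_X, map_C]
        simp only at hb hc
        rw [hb, hc]
  have hinj : Function.Injective φ := by
    intro x y h
    refine Prod.ext ?_ ?_
    · rw [← hcoeff1 x, ← hcoeff1 y, h]
    · rw [← hcoeff0 x, ← hcoeff0 y, h]
  rw [himg]
  refine ⟨(hf.prod hf).image _, ?_⟩
  rw [Set.ncard_image_of_injective _ hinj, Set.ncard_prod, hc]
  ring

omit [Fintype K] in
theorem M9b_sq_inj {E F : (AlgebraicClosure K)[X]} (hE : E.Monic) (hF : F.Monic)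
    (h : E ^ 2 = F ^ 2) : E = F := by
  rcases sq_eq_sq_iff_eq_or_eq_neg.1 h with h1 | h1
  · exact h1
  · have h2 : E.leadingCoeff = - F.leadingCoeff := by rw [h1, leadingCoeff_neg]
    rw [hE.leadingCoeff, hF.leadingCoeff] at h2
    have h3 : (C (1 : AlgebraicClosure K)) = C (-1) := by rw [← h2]
    rw [h1]
    calc -F = C (-1) * F := by rw [C_neg, C_1, neg_one_mul]
      _ = C 1 * F := by rw [h3]
      _ = F := by rw [C_1, one_mul]

/-- The good ones. -/
def M9b_G : Set (AlgebraicClosure K)[X] :=
  {E | E ∈ M9b_M K ∧ Squarefree E ∧ IsCoprime E (E.map (frob K))}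

theorem M9b_image : cq K (squ (AlgebraicClosure K)) = (fun E => E ^ 2) '' M9b_G K := by
  ext D
  constructor
  · rintro ⟨⟨E, h1, h2, h3, rfl⟩, h4, h5⟩
    refine ⟨E, ⟨⟨h1, h2, ?_⟩, h3, ?_⟩, rfl⟩
    · rw [Polynomial.map_pow, Polynomial.map_pow] at h4
      exact M9b_sq_inj K ((h1.map _).map _) h1 h4
    · rw [Polynomial.map_pow] at h5
      exact (IsCoprime.pow_iff (by norm_num) (by norm_num)).1 h5
  · rintro ⟨E, ⟨⟨h1, h2, h3⟩, h4, h5⟩, rfl⟩
    refine ⟨⟨E, h1, h2, h4, rfl⟩, ?_, ?_⟩
    · simp only
      rw [Polynomial.map_pow, Polynomial.map_pow, h3]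
    · simp only
      rw [Polynomial.map_pow]
      exact h5.pow

omit [Fintype K] in
theorem M9b_split {E : (AlgebraicClosure K)[X]} (h1 : E.Monic) (h2 : E.natDegree = 2)
    {a : AlgebraicClosure K} (ha : E.IsRoot a) : ∃ b, E = (X - C a) * (X - C b) := by
  obtain ⟨Q, hQ⟩ := dvd_iff_isRoot.mpr ha
  have hm : Q.Monic := (monic_X_sub_C a).of_mul_monic_left (hQ ▸ h1)
  have hd : Q.natDegree = 1 := by
    have := congrArg natDegree hQ
    rw [(monic_X_sub_C a).natDegree_mul hm, natDegree_X_sub_C, h2] at this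
    omega
  refine ⟨- Q.coeff 0, ?_⟩
  rw [hQ]
  congr 1
  have := hm.as_sum
  rw [hd] at this
  rw [this]
  simp

/-- The bad ones are covered by three images. -/
theorem M9b_bad : M9b_M K \ M9b_G K ⊆
    ((fun a : AlgebraicClosure K => (X - C a) ^ 2) '' {v | frob K (frob K v) = v}) ∪
    ((fun x : AlgebraicClosure K × AlgebraicClosure K => (X - C x.1) * (X - C x.2)) ''
      ({v | frob K v = v} ×ˢ {v | frob K (frob K v) = v})) ∪
    ((fun a : AlgebraicClosure K => (X - C a) * (X - C (frob K a))) '' {v | frob K (frob K v) = v}) := by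
  rintro E ⟨⟨h1, h2, h3⟩, hbad⟩
  have hE0 : E ≠ 0 := h1.ne_zero
  have hmap : ∀ a b : AlgebraicClosure K, ((((X - C a) * (X - C b)).map (frob K)).map (frob K)) =
      (X - C (frob K (frob K a))) * (X - C (frob K (frob K b))) := by
    intro a b
    simp only [Polynomial.map_mul, Polynomial.map_sub, map_X, map_C]
  by_cases hs : Squarefree E
  · have hnc : ¬ IsCoprime E (E.map (frob K)) := by
      intro h
      exact hbad ⟨⟨h1, h2, h3⟩, hs, h⟩
    -- a common root
    have hroot : ∃ x, E.IsRoot x ∧ (E.map (frob K)).IsRoot x := by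
      by_contra hn
      push Not at hn
      apply hnc
      refine isCoprime_of_irreducible_dvd (fun h' => hE0 h'.1) fun z hz h5 h6 => ?_
      obtain ⟨x, hx⟩ := IsAlgClosed.exists_root z hz.degree_pos.ne'
      exact hn x (hx.dvd h5) (hx.dvd h6)
    obtain ⟨x, hx1, hx2⟩ := hroot
    obtain ⟨y, rfl⟩ := A2_frob_surjective x
    rw [A2_isRoot_frob] at hx2
    by_cases hxy : frob K y = y
    · -- the root y is in K
      left; right
      obtain ⟨b, hb⟩ := M9b_split K h1 h2 hx2
      refine ⟨(y, b), ⟨hxy, ?_⟩, hb.symm⟩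
      rw [Set.mem_ofPred_eq]
      have h5 := hmap y b
      rw [← hb, h3, hxy, hxy, hb] at h5
      have h6 := mul_left_cancel₀ (X_sub_C_ne_zero y) h5
      have h7 : (X - C b : (AlgebraicClosure K)[X]) ^ 1 = (X - C (frob K (frob K b))) ^ 1 := by
        rw [pow_one, pow_one, h6]
      exact (M9b_cube K (by norm_num) h7).symm
    · right
      obtain ⟨b, hb⟩ := M9b_split K h1 h2 hx2
      have hbx : frob K y = b := by
        have h5 : E.eval (frob K y) = 0 := hx1
        rw [hb, eval_mul, eval_sub, eval_sub, eval_X, eval_C, eval_C, mul_eq_zero] at h5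
        rcases h5 with h5 | h5
        · exact absurd (sub_eq_zero.1 h5) hxy
        · exact sub_eq_zero.1 h5
      rw [← hbx] at hb
      refine ⟨y, ?_, hb.symm⟩
      rw [Set.mem_ofPred_eq]
      have h5 := hmap y (frob K y)
      rw [← hb, h3] at h5
      have h6 : E.eval (frob K (frob K y)) = 0 := by
        rw [h5, eval_mul, eval_sub, eval_X, eval_C, sub_self, zero_mul]
      rw [hb, eval_mul, eval_sub, eval_sub, eval_X, eval_C, eval_C, mul_eq_zero] at h6
      rcases h6 with h6 | h6
      · exact sub_eq_zero.1 h6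
      · exact absurd (frob_injective (sub_eq_zero.1 h6)) hxy
  · left; left
    obtain ⟨x, hx⟩ := IsAlgClosed.exists_root E (by
      rw [degree_eq_natDegree hE0, h2]; norm_num)
    obtain ⟨b, hb⟩ := M9b_split K h1 h2 hx
    by_cases hxb : x = b
    · subst hxb
      have hsq : E = (X - C x) ^ 2 := by rw [hb]; ring
      refine ⟨x, ?_, hsq.symm⟩
      rw [Set.mem_ofPred_eq]
      have h5 := hmap x x
      rw [← hb, h3, hsq] at h5
      have h6 : (X - C x : (AlgebraicClosure K)[X]) ^ 2 = (X - C (frob K (frob K x))) ^ 2 := by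
        rw [h5]; ring
      exact (M9b_cube K (by norm_num) h6).symm
    · exfalso
      apply hs
      rw [hb]
      have hcop : IsCoprime (X - C x : (AlgebraicClosure K)[X]) (X - C b) :=
        (M9b_coprime_linear K).2 hxb
      exact (squarefree_mul_iff.2 ⟨hcop.isRelPrime, (irreducible_X_sub_C x).squarefree,
        (irreducible_X_sub_C b).squarefree⟩)

/-- There are `q ^ 4` monic polynomials `E` of degree 2 over the quadratic extension (`quad_ncard`, two
coefficients). Not squarefree: `q ^ 2` (`(X - a) ^ 2`). Not coprime to the conjugate: a root `x` of `E`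
is `frob y` with `y` a root of `E`. If `y = x` then `x ∈ K` and the other root is in the quadratic
extension: at most `q ^ 3`. If `y ≠ x` then `E = (X - y) (X - frob y)`, and as `E` is stable under the
square of Frobenius, `frob (frob y)` is `y` or `frob y`, so `y` is in the quadratic extension: at most
`q ^ 2`. -/
theorem cq4 : (cq K (squ (AlgebraicClosure K))).Finite ∧
    (Fintype.card K : ℤ) ^ 4 - 3 * (Fintype.card K : ℤ) ^ 3 ≤
      (cq K (squ (AlgebraicClosure K))).ncard ∧
    ((cq K (squ (AlgebraicClosure K))).ncard : ℤ) ≤ (Fintype.card K : ℤ) ^ 4 := by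
  obtain ⟨hf, hc⟩ := quad_ncard K
  obtain ⟨hMf, hMc⟩ := M9b_M_card K
  have hGM : M9b_G K ⊆ M9b_M K := fun E h => h.1
  have hGf : (M9b_G K).Finite := hMf.subset hGM
  have hinj : Set.InjOn (fun E : (AlgebraicClosure K)[X] => E ^ 2) (M9b_G K) := by
    intro E hE F hF h
    exact M9b_sq_inj K hE.1.1 hF.1.1 h
  have hcard : (cq K (squ (AlgebraicClosure K))).ncard = (M9b_G K).ncard := by
    rw [M9b_image, Set.ncard_image_of_injOn hinj]
  have hsub : {v : AlgebraicClosure K | frob K v = v} ⊆ {v | frob K (frob K v) = v} := by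
    intro v hv
    rw [Set.mem_ofPred_eq] at hv ⊢
    rw [hv, hv]
  have hKf : {v : AlgebraicClosure K | frob K v = v}.Finite := hf.subset hsub
  refine ⟨by rw [M9b_image]; exact hGf.image _, ?_, ?_⟩
  · rw [hcard]
    have h1 : (M9b_M K \ M9b_G K).ncard ≤ Fintype.card K ^ 2 + Fintype.card K ^ 3 + Fintype.card K ^ 2 := by
      refine (Set.ncard_le_ncard (M9b_bad K) (((hf.image _).union ((hKf.prod hf).image _)).union
        (hf.image _))).trans ?_
      refine (Set.ncard_union_le _ _).trans ?_
      refine Nat.add_le_add ((Set.ncard_union_le _ _).trans (Nat.add_le_add ?_ ?_)) ?_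
      · exact (Set.ncard_image_le hf).trans hc.le
      · refine (Set.ncard_image_le (hKf.prod hf)).trans ?_
        rw [Set.ncard_prod, hc, M9b_K]
        exact le_of_eq (by ring)
      · exact (Set.ncard_image_le hf).trans hc.le
    have h2 : (M9b_M K \ M9b_G K).ncard + (M9b_G K).ncard = (M9b_M K).ncard :=
      Set.ncard_sdiff_add_ncard_of_subset hGM hMf
    rw [hMc] at h2
    have h3 : Fintype.card K ^ 2 ≤ Fintype.card K ^ 3 :=
      Nat.pow_le_pow_right Fintype.card_pos (by norm_num)
    have h4 : Fintype.card K ^ 4 ≤ (M9b_G K).ncard + 3 * Fintype.card K ^ 3 := by omega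
    have h5 : (Fintype.card K : ℤ) ^ 4 ≤ ((M9b_G K).ncard : ℤ) + 3 * (Fintype.card K : ℤ) ^ 3 := by
      exact_mod_cast h4
    linarith
  · rw [hcard]
    have h1 : (M9b_G K).ncard ≤ Fintype.card K ^ 4 := by
      rw [← hMc]
      exact Set.ncard_le_ncard hGM hMf
    exact_mod_cast h1

end SBr
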