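import Pool.Agent.H.MP_cc3311_ag.M9a

/-!
# MP_cc3311_ag, M9c: coprime pairs of squares
-/

set_option autoImplicit false

namespace SBr

open Polynomial

variable (K : Type) [Field K] [Fintype K]

omit [Fintype K] in
/-- A monic polynomial of degree two with the root `a`. -/
theorem M9c_split {E : K[X]} (h1 : E.Monic) (h2 : E.natDegree = 2) {a : K} (ha : E.IsRoot a) :
    ∃ b : K, E = (X - C a) * (X - C b) := by
  obtain ⟨Q, hQ⟩ := dvd_iff_isRoot.mpr ha
  have hm : Q.Monic := (monic_X_sub_C a).of_mul_monic_left (hQ ▸ h1)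
  have hd : Q.natDegree = 1 := by
    have := congrArg natDegree hQ
    rw [(monic_X_sub_C a).natDegree_mul hm, natDegree_X_sub_C, h2] at this
    omega
  refine ⟨- Q.coeff 0, ?_⟩
  rw [hQ]
  congr 1
  have := hm.as_sum
  rw [hd] at this
  rw [this]
  simp

omit [Fintype K] in
theorem M9c_bad {E F : K[X]} (h1 : E.Monic) (h2 : E.natDegree = 2) (h3 : F.Monic)
    (h4 : F.natDegree = 2) (h : ¬ IsCoprime E F) :
    E = F ∨ ∃ a b c : K, E = (X - C a) * (X - C b) ∧ F = (X - C a) * (X - C c) := by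
  have hE0 : E ≠ 0 := h1.ne_zero
  have hp : ∃ p : K[X], Irreducible p ∧ p ∣ E ∧ p ∣ F := by
    by_contra hn
    push Not at hn
    exact h (isCoprime_of_irreducible_dvd (fun h' => hE0 h'.1) fun z hz h5 h6 => hn z hz h5 h6)
  obtain ⟨p, hp, hpE, hpF⟩ := hp
  have hd1 : 0 < p.natDegree := hp.natDegree_pos
  have hd2 : p.natDegree ≤ 2 := h2 ▸ natDegree_le_of_dvd hpE hE0
  rcases Nat.lt_or_ge p.natDegree 2 with hd | hd
  · right
    have hd : p.degree = 1 := by
      rw [degree_eq_natDegree hp.ne_zero]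
      have : p.natDegree = 1 := by omega
      rw [this]; rfl
    obtain ⟨a, ha⟩ := exists_root_of_degree_eq_one hd
    obtain ⟨b, hb⟩ := M9c_split K h1 h2 (ha.dvd hpE)
    obtain ⟨c, hc⟩ := M9c_split K h3 h4 (ha.dvd hpF)
    exact ⟨a, b, c, hb, hc⟩
  · left
    have hd : p.natDegree = 2 := le_antisymm hd2 hd
    have e1 : Associated p E := by
      refine associated_of_dvd_dvd hpE ?_
      obtain ⟨u, hu⟩ := hpE
      have hu0 : u ≠ 0 := fun h' => hE0 (by rw [hu, h', mul_zero])
      have : u.natDegree = 0 := by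
        have := congrArg natDegree hu
        rw [natDegree_mul hp.ne_zero hu0] at this
        omega
      have hunit : IsUnit u := by
        rw [isUnit_iff_degree_eq_zero, degree_eq_natDegree hu0, this]; rfl
      obtain ⟨v, rfl⟩ := hunit
      exact ⟨(v⁻¹ : (K[X])ˣ), by rw [hu, mul_assoc]; simp⟩
    have e2 : Associated p F := by
      refine associated_of_dvd_dvd hpF ?_
      obtain ⟨u, hu⟩ := hpF
      have hu0 : u ≠ 0 := fun h' => h3.ne_zero (by rw [hu, h', mul_zero])
      have : u.natDegree = 0 := by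
        have := congrArg natDegree hu
        rw [natDegree_mul hp.ne_zero hu0] at this
        omega
      have hunit : IsUnit u := by
        rw [isUnit_iff_degree_eq_zero, degree_eq_natDegree hu0, this]; rfl
      obtain ⟨v, rfl⟩ := hunit
      exact ⟨(v⁻¹ : (K[X])ˣ), by rw [hu, mul_assoc]; simp⟩
    exact eq_of_monic_of_associated h1 h3 (e1.symm.trans e2)

/-- There are `(q ^ 2 - q) ^ 2` pairs; not coprime are the pairs of equal polynomials (`q ^ 2 - q`) and
those with exactly one common root, which is in `K`: at most `q ^ 3` (the root and the two other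
roots). -/
theorem N44 : (Fintype.card K : ℤ) ^ 4 - 4 * (Fintype.card K : ℤ) ^ 3 ≤
      (cp K (squ K) (squ K)).ncard ∧
    ((cp K (squ K) (squ K)).ncard : ℤ) ≤ (Fintype.card K : ℤ) ^ 4 := by
  classical
  obtain ⟨hf, hc⟩ := squ_card K
  have hS : (squ K ×ˢ squ K).Finite := hf.prod hf
  have hSc : (squ K ×ˢ squ K).ncard = (squ K).ncard * (squ K).ncard := Set.ncard_prod
  set q : ℤ := (Fintype.card K : ℤ) with hq
  have hq1 : (1 : ℤ) ≤ q := by
    have : 0 < Fintype.card K := Fintype.card_pos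
    omega
  -- the bad pairs
  let I : Set (K[X] × K[X]) := (fun t : K × K × K =>
    (((X - C t.1) * (X - C t.2.1)) ^ 2, ((X - C t.1) * (X - C t.2.2)) ^ 2)) '' Set.univ
  let D : Set (K[X] × K[X]) := (fun d : K[X] => (d, d)) '' squ K
  have hI : (I.ncard : ℤ) ≤ q ^ 3 := by
    have h1 : I.ncard ≤ (Set.univ : Set (K × K × K)).ncard := Set.ncard_image_le Set.finite_univ
    rw [Set.ncard_univ, Nat.card_eq_fintype_card, Fintype.card_prod, Fintype.card_prod] at h1
    have h2 : (I.ncard : ℤ) ≤ ((Fintype.card K * (Fintype.card K * Fintype.card K) : ℕ) : ℤ) := by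
      exact_mod_cast h1
    push_cast at h2
    rw [← hq] at h2
    nlinarith [h2]
  have hD : (D.ncard : ℤ) ≤ q ^ 2 - q := by
    have h1 : D.ncard ≤ (squ K).ncard := Set.ncard_image_le hf
    rw [← hc]
    exact_mod_cast h1
  have hIf : I.Finite := Set.finite_univ.image _
  have hDf : D.Finite := hf.image _
  have hsub : squ K ×ˢ squ K ⊆ cp K (squ K) (squ K) ∪ (I ∪ D) := by
    rintro ⟨u, v⟩ ⟨hu, hv⟩
    by_cases hco : IsCoprime u v
    · exact Or.inl ⟨hu, hv, hco⟩
    · right
      obtain ⟨E, e1, e2, e3, rfl⟩ := hu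
      obtain ⟨F, f1, f2, f3, rfl⟩ := hv
      have hco' : ¬ IsCoprime E F := fun h' => hco h'.pow
      rcases M9c_bad K e1 e2 f1 f2 hco' with h' | ⟨a, b, c, rfl, rfl⟩
      · right
        subst h'
        exact ⟨E ^ 2, ⟨E, e1, e2, e3, rfl⟩, rfl⟩
      · left
        exact ⟨(a, b, c), trivial, rfl⟩
  have hcs : cp K (squ K) (squ K) ⊆ squ K ×ˢ squ K := fun x hx => ⟨hx.1, hx.2.1⟩
  have hcf : (cp K (squ K) (squ K)).Finite := hS.subset hcs
  have hle : (cp K (squ K) (squ K)).ncard ≤ (squ K).ncard * (squ K).ncard := by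
    rw [← hSc]
    exact Set.ncard_le_ncard hcs hS
  have hge : (squ K).ncard * (squ K).ncard ≤ (cp K (squ K) (squ K)).ncard + (I.ncard + D.ncard) := by
    rw [← hSc]
    refine (Set.ncard_le_ncard hsub (hcf.union (hIf.union hDf))).trans ?_
    refine (Set.ncard_union_le _ _).trans ?_
    gcongr
    exact Set.ncard_union_le _ _
  have hle' : ((cp K (squ K) (squ K)).ncard : ℤ) ≤ (q ^ 2 - q) * (q ^ 2 - q) := by
    rw [← hc]
    exact_mod_cast hle
  have hge' : (q ^ 2 - q) * (q ^ 2 - q) ≤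
      ((cp K (squ K) (squ K)).ncard : ℤ) + ((I.ncard : ℤ) + (D.ncard : ℤ)) := by
    rw [← hc]
    exact_mod_cast hge
  constructor
  · have : 0 ≤ q ^ 3 := by positivity
    nlinarith [hge', hI, hD]
  · have h0 : 0 ≤ q ^ 2 * (q - 1) := by
      have : 0 ≤ q - 1 := by omega
      positivity
    nlinarith [hle', h0, mul_nonneg (by omega : (0 : ℤ) ≤ q) h0, sq_nonneg q]

end SBr
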