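import Pool.Agent.H.MP_cc3311_ag.M8b
import Pool.Agent.H.MP_cc3311_ag.M9c
import Pool.Agent.H.MP_cc3311_ag.M9b

/-!
# MP_cc3311_ag, M10d: the exceptional structures for `n = 6`

For two coprime structures of degree 4 there is exactly one polynomial `Φ` of degree at most 7 with
`D ∣ Φ`, `D' ∣ Φ - 1`. There is a pair `(G, c)` (`G` monic of degree 7, `c ≠ 0`) iff `Φ` has degree 7.
-/

set_option autoImplicit false

namespace SBr

open Polynomial

variable (K : Type) [Field K] [Fintype K]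

/-- The exceptional pairs `(D, D')`, with `Φ` of degree less than 7. -/
def XQ : Set (K[X] × K[X]) :=
  {x | x ∈ cp K (squ K) (squ K) ∧ ∃ Φ : K[X], Φ.natDegree ≤ 6 ∧ x.1 ∣ Φ ∧ x.2 ∣ Φ - 1}

/-- The exceptional structures over the quadratic extension. -/
def XP (θ : AlgebraicClosure K) : Set (AlgebraicClosure K)[X] :=
  {D | D ∈ cq K (squ (AlgebraicClosure K)) ∧ ∃ Φ : K[X], Φ.natDegree ≤ 6 ∧ D ∣ up Φ - C θ}

/-- Not exceptional means exactly one pair. PROOF. By coprimality there is `Φ` of degree at most 7 with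
`D ∣ Φ`, `D' ∣ Φ - 1`. If its degree is less than 7 the pair is exceptional. Otherwise
`(G, c) = (Φ / lead, 1 / lead)` is a pair; `WQ_le_one`. -/
theorem WQ_one {x : K[X] × K[X]} (h : x ∈ cp K (squ K) (squ K)) (hx : x ∉ XQ K) :
    (WQ K 6 x.1 x.2).ncard = 1 := by
  obtain ⟨hD, hD', hcop⟩ := h
  have hDm := squ_mem K hD
  have hDm' := squ_mem K hD'
  obtain ⟨hfin, hle⟩ := WQ_le_one K (n := 6) hDm hDm' hcop (by norm_num)
  refine le_antisymm hle ?_
  rw [Nat.one_le_iff_ne_zero, ne_eq, Set.ncard_eq_zero hfin, ← ne_eq, ← Set.nonempty_iff_ne_empty]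
  -- the remainder
  have hcop' := hcop
  obtain ⟨u, v, huv⟩ := hcop'
  have hBm : (x.1 * x.2).Monic := hDm.1.mul hDm'.1
  have hBd : (x.1 * x.2).natDegree = 8 := by
    rw [hDm.1.natDegree_mul hDm'.1, hDm.2, hDm'.2]
  set R := (u * x.1) %ₘ (x.1 * x.2) with hR
  have hPR : x.1 * x.2 ∣ u * x.1 - R := by
    refine ⟨(u * x.1) /ₘ (x.1 * x.2), ?_⟩
    have := modByMonic_add_div (u * x.1) (x.1 * x.2)
    rw [hR]
    linear_combination -this
  have hr1 : x.1 ∣ R := by
    have h3 : x.1 ∣ u * x.1 - R := (dvd_mul_right _ _).trans hPR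
    have h4 := dvd_sub (dvd_mul_left x.1 u) h3
    have h5 : u * x.1 - (u * x.1 - R) = R := by ring
    rwa [h5] at h4
  have hr2 : x.2 ∣ R - 1 := by
    have h3 : x.2 ∣ u * x.1 - R := (dvd_mul_left _ _).trans hPR
    have h6 : x.2 ∣ u * x.1 - 1 := ⟨-v, by linear_combination huv⟩
    have h4 := dvd_sub h6 h3
    have h5 : u * x.1 - 1 - (u * x.1 - R) = R - 1 := by ring
    rwa [h5] at h4
  have hRd : R.natDegree < 8 := by
    have h3 := natDegree_modByMonic_lt (u * x.1) hBm (by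
      intro h4
      rw [h4, natDegree_one] at hBd
      omega)
    rw [hBd] at h3
    exact h3
  have hR7 : R.natDegree = 7 := by
    by_contra h7
    exact hx ⟨⟨hD, hD', hcop⟩, R, by omega, hr1, hr2⟩
  have hR0 : R ≠ 0 := by
    intro h0
    rw [h0, natDegree_zero] at hR7
    omega
  have hl : R.leadingCoeff ≠ 0 := leadingCoeff_ne_zero.2 hR0
  refine ⟨(C (R.leadingCoeff)⁻¹ * R, (R.leadingCoeff)⁻¹), ⟨?_, ?_⟩, inv_ne_zero hl, hr1.mul_left _, ?_⟩
  · simp only
    rw [mul_comm]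
    exact monic_mul_leadingCoeff_inv hR0
  · simp only
    rw [natDegree_C_mul (inv_ne_zero hl), hR7]
  · simp only
    have h3 : C (R.leadingCoeff)⁻¹ * R - C (R.leadingCoeff)⁻¹ = C (R.leadingCoeff)⁻¹ * (R - 1) := by ring
    rw [h3]
    exact hr2.mul_left _

/-- The same; `Φ` is defined over `K` because the conditions `D ∣ Φ - θ`, `D.map frob ∣ Φ - frob θ` are
stable under Frobenius. -/
theorem WP_one {θ : AlgebraicClosure K} (h1 : frob K (frob K θ) = θ)
    (h2 : frob K θ ≠ θ) {D : (AlgebraicClosure K)[X]}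
    (h : D ∈ cq K (squ (AlgebraicClosure K))) (hx : D ∉ XP K θ) :
    (WP K 6 θ D).ncard = 1 := by
  obtain ⟨hD, hDD, hcop⟩ := h
  have hDm : D ∈ Mo (AlgebraicClosure K) 4 := by
    obtain ⟨E, e1, e2, -, rfl⟩ := hD
    exact ⟨e1.pow 2, by rw [e1.natDegree_pow, e2]⟩
  obtain ⟨hfin, hle⟩ := WP_le_one K (n := 6) h1 h2 hDm hDD hcop (by norm_num)
  refine le_antisymm hle ?_
  rw [Nat.one_le_iff_ne_zero, ne_eq, Set.ncard_eq_zero hfin, ← ne_eq, ← Set.nonempty_iff_ne_empty]
  obtain ⟨B, hBm, hB⟩ := M8b_B K hDm hDD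
  obtain ⟨R, hRd, hR⟩ := M8b_rho K h1 hDD hcop hBm hB
  have hR7 : R.natDegree = 7 := by
    by_contra h7
    have h3 : R.natDegree < 8 := by
      by_cases hR0 : R = 0
      · rw [hR0, natDegree_zero]
        omega
      · have h4 := (natDegree_lt_iff_degree_lt hR0).2 hRd
        omega
    exact hx ⟨⟨hD, hDD, hcop⟩, R, by omega, hR⟩
  have hR0 : R ≠ 0 := by
    intro h0
    rw [h0, natDegree_zero] at hR7
    omega
  have hl : R.leadingCoeff ≠ 0 := leadingCoeff_ne_zero.2 hR0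
  refine ⟨(C (R.leadingCoeff)⁻¹ * R, (R.leadingCoeff)⁻¹), ⟨?_, ?_⟩, inv_ne_zero hl, ?_⟩
  · simp only
    rw [mul_comm]
    exact monic_mul_leadingCoeff_inv hR0
  · simp only
    rw [natDegree_C_mul (inv_ne_zero hl), hR7]
  · simp only
    have h3 : up (C (R.leadingCoeff)⁻¹ * R) - C (algebraMap K (AlgebraicClosure K) (R.leadingCoeff)⁻¹ * θ) =
        C (algebraMap K (AlgebraicClosure K) (R.leadingCoeff)⁻¹) * (up R - C θ) := by
      unfold up
      rw [Polynomial.map_mul, map_C, C_mul]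
      ring
    rw [h3]
    exact hR.mul_left _

end SBr
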