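import Pool.Agent.H.MP_cc3311_ag.M11a

/-!
# MP_cc3311_ag, M11c: the asymptotics of `P2`
-/

set_option autoImplicit false

namespace SBr

open Polynomial

theorem M11c_cub_mem {L : Type} [Field L] {D : L[X]} (h : D ∈ cub L) : D ∈ Mo L 3 := by
  obtain ⟨a, rfl⟩ := h
  refine ⟨(monic_X_sub_C a).pow 3, ?_⟩
  rw [(monic_X_sub_C a).natDegree_pow, natDegree_X_sub_C]

theorem M11c_squ_mem {L : Type} [Field L] {D : L[X]} (h : D ∈ squ L) : D ∈ Mo L 4 := by
  obtain ⟨E, hE, hd, -, rfl⟩ := h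
  refine ⟨hE.pow 2, ?_⟩
  rw [hE.natDegree_pow, hd]

theorem M11c_const {α : Type} {s : Set α} (hs : s.Finite) (f : α → ℕ) (c : ℤ)
    (h : ∀ x ∈ s, (f x : ℤ) = c) : ((∑ᶠ x ∈ s, f x : ℕ) : ℤ) = s.ncard * c := by
  classical
  rw [finsum_mem_eq_finite_toFinset_sum f hs, Set.ncard_eq_toFinset_card s hs, Nat.cast_sum,
    Finset.sum_congr rfl (fun x hx => h x (hs.mem_toFinset.1 hx)), Finset.sum_const, nsmul_eq_mul]

theorem M11c_le {α : Type} {s : Set α} (hs : s.Finite) (f : α → ℕ)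
    (h : ∀ x ∈ s, f x ≤ 1) : (∑ᶠ x ∈ s, f x : ℕ) ≤ s.ncard := by
  classical
  rw [finsum_mem_eq_finite_toFinset_sum f hs, Set.ncard_eq_toFinset_card s hs]
  calc ∑ x ∈ hs.toFinset, f x ≤ ∑ x ∈ hs.toFinset, 1 :=
        Finset.sum_le_sum (fun x hx => h x (hs.mem_toFinset.1 hx))
    _ = hs.toFinset.card := by simp

theorem M11c_ge {α : Type} {s t : Set α} (hs : s.Finite) (ht : t.Finite) (f : α → ℕ)
    (h : ∀ x ∈ s, x ∉ t → f x = 1) : s.ncard ≤ (∑ᶠ x ∈ s, f x : ℕ) + t.ncard := by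
  classical
  rw [finsum_mem_eq_finite_toFinset_sum f hs, Set.ncard_eq_toFinset_card s hs,
    Set.ncard_eq_toFinset_card t ht]
  have h1 : ∑ x ∈ hs.toFinset \ ht.toFinset, f x ≤ ∑ x ∈ hs.toFinset, f x :=
    Finset.sum_le_sum_of_subset Finset.sdiff_subset
  have h2 : ∑ x ∈ hs.toFinset \ ht.toFinset, f x = (hs.toFinset \ ht.toFinset).card := by
    rw [Finset.card_eq_sum_ones]
    refine Finset.sum_congr rfl fun x hx => ?_
    rw [Finset.mem_sdiff] at hx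
    exact h x (hs.mem_toFinset.1 hx.1) (fun hh => hx.2 (ht.mem_toFinset.2 hh))
  have h3 : hs.toFinset.card ≤ (hs.toFinset \ ht.toFinset).card + ht.toFinset.card := by
    exact Finset.card_le_card_sdiff_add_card (s := hs.toFinset) (t := ht.toFinset)
  omega

section

variable (K : Type) [Field K] [Fintype K]

theorem M11c_split (f : (AlgebraicClosure K)[X] → ℕ) :
    ∑ᶠ D ∈ cq K (Ds (AlgebraicClosure K)), f D =
      (∑ᶠ D ∈ cq K (cub (AlgebraicClosure K)), f D) +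
        ∑ᶠ D ∈ cq K (squ (AlgebraicClosure K)), f D := by
  have e : cq K (Ds (AlgebraicClosure K)) =
      cq K (cub (AlgebraicClosure K)) ∪ cq K (squ (AlgebraicClosure K)) := by
    ext D
    simp only [cq, Ds, Set.mem_ofPred_eq, Set.mem_union]
    tauto
  have e1 : Disjoint (cq K (cub (AlgebraicClosure K))) (cq K (squ (AlgebraicClosure K))) := by
    refine Set.disjoint_left.2 fun D h1 h2 => ?_
    have h3 := (M11c_cub_mem h1.1).2
    have h4 := (M11c_squ_mem h2.1).2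
    omega
  rw [e, finsum_mem_union e1 (cq3 K).1 (cq4 K).1]

theorem M11c_three (k : ℕ) {θ : AlgebraicClosure K}
    (h1 : frob K (frob K θ) = θ) (h2 : frob K θ ≠ θ) :
    ((∑ᶠ D ∈ cq K (cub (AlgebraicClosure K)), (WP K (k + 6) θ D).ncard : ℕ) : ℤ) =
      ((Fintype.card K : ℤ) ^ 2 - Fintype.card K) *
        (((Fintype.card K : ℤ) - 1) * (Fintype.card K : ℤ) ^ (k + 1)) := by
  rw [← (cq3 K).2]
  refine M11c_const (cq3 K).1 _ _ fun D hD => ?_
  have := (WP_coprime K (n := k + 6) h1 h2 (M11c_cub_mem hD.1) hD.2.1 hD.2.2 (by omega)).2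
  rw [this]
  congr 2

theorem M11c_four (j : ℕ) {θ : AlgebraicClosure K}
    (h1 : frob K (frob K θ) = θ) (h2 : frob K θ ≠ θ) :
    ((∑ᶠ D ∈ cq K (squ (AlgebraicClosure K)), (WP K (j + 7) θ D).ncard : ℕ) : ℤ) =
      (cq K (squ (AlgebraicClosure K))).ncard *
        (((Fintype.card K : ℤ) - 1) * (Fintype.card K : ℤ) ^ j) := by
  refine M11c_const (cq4 K).1 _ _ fun D hD => ?_
  have := (WP_coprime K (n := j + 7) h1 h2 (M11c_squ_mem hD.1) hD.2.1 hD.2.2 (by omega)).2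
  rw [this]
  congr 2

theorem M11c_six (hG : Good K 6) {θ : AlgebraicClosure K}
    (h1 : frob K (frob K θ) = θ) (h2 : frob K θ ≠ θ) :
    ((∑ᶠ D ∈ cq K (squ (AlgebraicClosure K)), (WP K 6 θ D).ncard : ℕ) : ℤ) ≤
      (cq K (squ (AlgebraicClosure K))).ncard ∧
    ((cq K (squ (AlgebraicClosure K))).ncard : ℤ) ≤
      ((∑ᶠ D ∈ cq K (squ (AlgebraicClosure K)), (WP K 6 θ D).ncard : ℕ) : ℤ) +
        ((3 * (cT 5 + cT 4 + cT 3) * 25 * 72 ^ 2 : ℕ) : ℤ) * (Fintype.card K : ℤ) ^ 3 := by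
  have hf := (cq4 K).1
  constructor
  · have := M11c_le hf (fun D => (WP K 6 θ D).ncard) fun D hD =>
      (WP_le_one K (n := 6) h1 h2 (M11c_squ_mem hD.1) hD.2.1 hD.2.2 (by norm_num)).2
    exact_mod_cast this
  · obtain ⟨h3, h4⟩ := XP_bound K hG h1 h2
    have h5 := M11c_ge hf h3 (fun D => (WP K 6 θ D).ncard) fun D hD hD' => WP_one K h1 h2 hD hD'
    have h6 := h5.trans (Nat.add_le_add_left h4 _)
    have h7 : ((cq K (squ (AlgebraicClosure K))).ncard : ℤ) ≤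
      ((∑ᶠ D ∈ cq K (squ (AlgebraicClosure K)), (WP K 6 θ D).ncard +
        3 * (cT 5 + cT 4 + cT 3) * 25 * 72 ^ 2 * Fintype.card K ^ 3 : ℕ) : ℤ) := by
      exact_mod_cast h6
    rw [Nat.cast_add, Nat.cast_mul _ (Fintype.card K ^ 3), Nat.cast_pow] at h7
    exact h7

end

/-- PROOF. `n ≥ 7`: `(q - 1) (|cq3| q ^ (n - 5) + |cq4| q ^ (n - 7))`. `n = 6`: the second type is
between `|cq4| - |XP|` and `|cq4|`. -/
theorem P2_asymp (n : ℕ) (hn : 6 ≤ n) : ∃ c : ℤ, ∀ (K : Type) [Field K] [Fintype K], Good K n →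
    ∀ θ : AlgebraicClosure K, frob K (frob K θ) = θ → frob K θ ≠ θ →
    |((P2 K n θ).ncard : ℤ) - 2 * (Fintype.card K : ℤ) ^ (n - 2)| ≤
      c * (Fintype.card K : ℤ) ^ (n - 3) := by
  refine ⟨100 + ((3 * (cT 5 + cT 4 + cT 3) * 25 * 72 ^ 2 : ℕ) : ℤ), ?_⟩
  intro K _ _ hG θ t1 t2
  obtain ⟨k, rfl⟩ : ∃ k, n = k + 6 := ⟨n - 6, by omega⟩
  rw [(P2_sum K (k + 6) t1 t2).2, M11c_split K]
  have h1 := M11c_three K k t1 t2
  obtain ⟨-, h4, h5⟩ := cq4 K
  have hq : (1 : ℤ) ≤ Fintype.card K := by exact_mod_cast Fintype.card_pos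
  rw [Nat.cast_add, h1, show k + 6 - 2 = k + 4 by omega, show k + 6 - 3 = k + 3 by omega]
  generalize hC : ((3 * (cT 5 + cT 4 + cT 3) * 25 * 72 ^ 2 : ℕ) : ℤ) = C
  have hC0 : 0 ≤ C := by rw [← hC]; exact Int.natCast_nonneg _
  generalize hN : ((cq K (squ (AlgebraicClosure K))).ncard : ℤ) = N at h4 h5
  rcases k with _ | j
  · obtain ⟨h6, h7⟩ := M11c_six K (by simpa using hG) t1 t2
    rw [hC, hN] at h7
    rw [hN] at h6
    generalize hS : ((∑ᶠ D ∈ cq K (squ (AlgebraicClosure K)), (WP K 6 θ D).ncard : ℕ) : ℤ) = S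
      at h6 h7
    generalize (Fintype.card K : ℤ) = q at *
    have a1 : q ^ 2 ≤ q ^ 3 := pow_le_pow_right₀ hq (by norm_num)
    have a2 : q ≤ q ^ 3 := le_self_pow₀ hq (by norm_num)
    have a3 : 0 ≤ q ^ 2 := by positivity
    have a4 : 0 ≤ q ^ 3 := a3.trans a1
    have a5 : 0 ≤ C * q ^ 3 := mul_nonneg hC0 a4
    rw [abs_le]
    simp only [zero_add, pow_one]
    constructor <;> nlinarith
  · have h6 := M11c_four K j t1 t2
    have h6' : ((∑ᶠ D ∈ cq K (squ (AlgebraicClosure K)), (WP K (j + 1 + 6) θ D).ncard : ℕ) : ℤ) =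
      N * (((Fintype.card K : ℤ) - 1) * (Fintype.card K : ℤ) ^ j) := by
      rw [← hN]; exact h6
    rw [h6']
    clear h6 h6' h1 hN
    generalize (Fintype.card K : ℤ) = q at *
    generalize hP : q ^ j = P
    have hP1 : 0 < P := by rw [← hP]; positivity
    have e1 : q ^ (j + 1 + 1) = P * q ^ 2 := by rw [← hP]; ring
    have e3 : q ^ (j + 1 + 4) = P * q ^ 5 := by rw [← hP]; ring
    have e4 : q ^ (j + 1 + 3) = P * q ^ 4 := by rw [← hP]; ring
    rw [e1, e3, e4]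
    have b0 : 0 ≤ (q - 1) * P := mul_nonneg (by linarith) hP1.le
    have b1 : (q ^ 4 - 3 * q ^ 3) * ((q - 1) * P) ≤ N * ((q - 1) * P) :=
      mul_le_mul_of_nonneg_right h4 b0
    have b2 : N * ((q - 1) * P) ≤ q ^ 4 * ((q - 1) * P) := mul_le_mul_of_nonneg_right h5 b0
    have a1 : P * q ^ 3 ≤ P * q ^ 4 :=
      mul_le_mul_of_nonneg_left (pow_le_pow_right₀ hq (by norm_num)) hP1.le
    have a2 : P * q ^ 2 ≤ P * q ^ 4 :=
      mul_le_mul_of_nonneg_left (pow_le_pow_right₀ hq (by norm_num)) hP1.le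
    have a3 : 0 ≤ P * q ^ 2 := by positivity
    have a4 : 0 ≤ P * q ^ 3 := by
      have : 0 ≤ q := by linarith
      positivity
    have a5 : 0 ≤ P * q ^ 4 := a3.trans a2
    have a6 : 0 ≤ C * (P * q ^ 4) := mul_nonneg hC0 a5
    rw [abs_le]
    constructor <;> nlinarith

end SBr
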