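import Pool.Agent.H.MP_cc3311_ag.M7a

/-!
# MP_cc3311_ag, M8a: the Chinese remainder theorem, structures over `K`
-/

set_option autoImplicit false

namespace SBr

open Polynomial

variable (K : Type) [Field K] [Fintype K]

omit [Fintype K] in
theorem M8a_bij {B : K[X]} {m N : ℕ} (ρ : K[X]) (hB : B ∈ Mo K m) (hm : m ≤ N) :
    Set.BijOn (fun H => B * H + ρ %ₘ B) (Mo K (N - m)) {G | G ∈ Mo K N ∧ B ∣ G - ρ} := by
  have hBm : B.Monic := hB.1
  have hBd : B.natDegree = m := hB.2
  have hr : (ρ %ₘ B).degree < B.degree := degree_modByMonic_lt ρ hBm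
  have hle : ∀ H : K[X], H.Monic → (ρ %ₘ B).degree < (B * H).degree := by
    intro H hH
    refine lt_of_lt_of_le hr ?_
    rw [degree_mul]
    have h0 : (0 : WithBot ℕ) ≤ H.degree := by
      rw [degree_eq_natDegree hH.ne_zero]
      exact_mod_cast Nat.zero_le _
    exact le_add_of_nonneg_right h0
  refine ⟨?_, ?_, ?_⟩
  · intro H hH
    have hHm : H.Monic := hH.1
    have hHd : H.natDegree = N - m := hH.2
    refine ⟨⟨?_, ?_⟩, ?_⟩
    · exact (hBm.mul hHm).add_of_left (hle H hHm)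
    · show (B * H + ρ %ₘ B).natDegree = N
      have h1 : (B * H + ρ %ₘ B).natDegree = (B * H).natDegree := by
        apply natDegree_eq_of_degree_eq
        exact degree_add_eq_left_of_degree_lt (hle H hHm)
      rw [h1, hBm.natDegree_mul hHm, hBd, hHd]
      omega
    · show B ∣ B * H + ρ %ₘ B - ρ
      have h1 : ρ %ₘ B + B * (ρ /ₘ B) = ρ := modByMonic_add_div ρ B
      refine ⟨H - ρ /ₘ B, ?_⟩
      linear_combination h1
  · intro H1 _ H2 _ h
    have h' : B * H1 + ρ %ₘ B = B * H2 + ρ %ₘ B := h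
    exact mul_left_cancel₀ hBm.ne_zero (add_right_cancel h')
  · rintro G ⟨⟨hG1, hG2⟩, H, hH⟩
    have h1 : ρ %ₘ B + B * (ρ /ₘ B) = ρ := modByMonic_add_div ρ B
    have h2 : G = B * (H + ρ /ₘ B) + ρ %ₘ B := by
      linear_combination hH - h1
    have hGB : (ρ %ₘ B).degree < G.degree := by
      refine lt_of_lt_of_le hr ?_
      rw [degree_eq_natDegree hBm.ne_zero, degree_eq_natDegree hG1.ne_zero, hBd, hG2]
      exact_mod_cast hm
    have h3 : (B * (H + ρ /ₘ B)).Monic := by
      have h4 : B * (H + ρ /ₘ B) = G + -(ρ %ₘ B) := by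
        linear_combination -h2
      rw [h4]
      apply hG1.add_of_left
      rw [degree_neg]
      exact hGB
    have h5 : (H + ρ /ₘ B).Monic := by
      exact hBm.of_mul_monic_left h3
    refine ⟨H + ρ /ₘ B, ⟨h5, ?_⟩, h2.symm⟩
    have h6 : G.natDegree = (B * (H + ρ /ₘ B)).natDegree := by
      apply natDegree_eq_of_degree_eq
      rw [h2]
      exact degree_add_eq_left_of_degree_lt (hle _ h5)
    rw [hG2, hBm.natDegree_mul h5, hBd] at h6
    omega

/-- `G = ρ % B + B H` with `H` monic of degree `N - m`. -/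
theorem cong_ncard {B ρ : K[X]} {m N : ℕ} (hB : B ∈ Mo K m) (hm : m ≤ N) :
    {G | G ∈ Mo K N ∧ B ∣ G - ρ}.ncard = Fintype.card K ^ (N - m) := by
  have h := M8a_bij K ρ hB hm
  rw [← h.image_eq, Set.ncard_image_of_injOn h.injOn]
  exact monic_ncard K (N - m)

/-- Given structures, the pairs `(G, c)`. -/
def WQ (n : ℕ) (D D' : K[X]) : Set (K[X] × K) :=
  {x | x.1 ∈ Mo K (n + 1) ∧ x.2 ≠ 0 ∧ D ∣ x.1 ∧ D' ∣ x.1 - C x.2}

/-- If `D` and `D'` are not coprime they have a common root in the closure, and `c = 0` there. -/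
theorem WQ_not_coprime (n : ℕ) {D D' : K[X]} (h : ¬ IsCoprime D D') : WQ K n D D' = ∅ := by
  classical
  ext x
  simp only [Set.mem_empty_iff_false, iff_false]
  rintro ⟨_, hc, h1, h2⟩
  apply h
  rw [← EuclideanDomain.gcd_isUnit_iff]
  have h3 : EuclideanDomain.gcd D D' ∣ C x.2 := by
    have h4 : C x.2 = x.1 - (x.1 - C x.2) := by ring
    rw [h4]
    exact dvd_sub ((EuclideanDomain.gcd_dvd_left D D').trans h1)
      ((EuclideanDomain.gcd_dvd_right D D').trans h2)
  exact isUnit_of_dvd_unit h3 (isUnit_C.2 (isUnit_iff_ne_zero.2 hc))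

/-- For every `c ≠ 0` there are `q ^ (n + 1 - m - m')` polynomials: by coprimality there is `ρ` with
`D ∣ ρ`, `D' ∣ ρ - c`, and the conditions are `D D' ∣ G - ρ`. -/
theorem WQ_coprime {n m m' : ℕ} {D D' : K[X]} (hD : D ∈ Mo K m) (hD' : D' ∈ Mo K m')
    (h : IsCoprime D D') (hm : m + m' ≤ n + 1) : (WQ K n D D').Finite ∧
      ((WQ K n D D').ncard : ℤ) =
        ((Fintype.card K : ℤ) - 1) * (Fintype.card K : ℤ) ^ (n + 1 - (m + m')) := by
  classical
  obtain ⟨u, v, huv⟩ := h
  have hB : D * D' ∈ Mo K (m + m') := by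
    refine ⟨hD.1.mul hD'.1, ?_⟩
    rw [hD.1.natDegree_mul hD'.1, hD.2, hD'.2]
  have hcop : IsCoprime D D' := ⟨u, v, huv⟩
  have key : ∀ (c : K) (G : K[X]), (D ∣ G ∧ D' ∣ G - C c) ↔ D * D' ∣ G - C c * (u * D) := by
    intro c G
    constructor
    · rintro ⟨h1, h2⟩
      apply hcop.mul_dvd
      · exact dvd_sub h1 (Dvd.intro_left (C c * u) (by ring))
      · have h3 : G - C c * (u * D) = (G - C c) + C c * v * D' := by
          linear_combination -(C c) * huv
        rw [h3]
        exact dvd_add h2 (Dvd.intro_left _ rfl)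
    · rintro h1
      constructor
      · have h2 : D ∣ G - C c * (u * D) := (Dvd.intro _ rfl).trans h1
        have h3 : G = (G - C c * (u * D)) + C c * u * D := by ring
        rw [h3]
        exact dvd_add h2 (Dvd.intro_left _ rfl)
      · have h2 : D' ∣ G - C c * (u * D) := (Dvd.intro_left _ rfl).trans h1
        have h3 : G - C c = (G - C c * (u * D)) - C c * v * D' := by
          linear_combination (C c) * huv
        rw [h3]
        exact dvd_sub h2 (Dvd.intro_left _ rfl)
  have himg : WQ K n D D' =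
      (fun x : K[X] × K => (D * D' * x.1 + (C x.2 * (u * D)) %ₘ (D * D'), x.2)) ''
        (Mo K (n + 1 - (m + m')) ×ˢ {c : K | c ≠ 0}) := by
    ext x
    constructor
    · rintro ⟨h1, h2, h3, h4⟩
      obtain ⟨H, hH, hH2⟩ := (M8a_bij K (C x.2 * (u * D)) hB hm).surjOn
        ⟨h1, (key x.2 x.1).1 ⟨h3, h4⟩⟩
      exact ⟨(H, x.2), ⟨hH, h2⟩, Prod.ext hH2 rfl⟩
    · rintro ⟨⟨H, c⟩, ⟨hH, hc⟩, rfl⟩
      have h1 := (M8a_bij K (C c * (u * D)) hB hm).mapsTo hH
      have h2 := (key c _).2 h1.2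
      exact ⟨h1.1, hc, h2.1, h2.2⟩
  have hinj : Set.InjOn
      (fun x : K[X] × K => (D * D' * x.1 + (C x.2 * (u * D)) %ₘ (D * D'), x.2))
        (Mo K (n + 1 - (m + m')) ×ˢ {c : K | c ≠ 0}) := by
    rintro ⟨H1, c1⟩ ⟨h1, _⟩ ⟨H2, c2⟩ ⟨h2, _⟩ h12
    have h3 : c1 = c2 := congrArg Prod.snd h12
    subst h3
    have h4 := congrArg Prod.fst h12
    exact Prod.ext ((M8a_bij K (C c1 * (u * D)) hB hm).injOn h1 h2 h4) rfl
  have hfinMo : (Mo K (n + 1 - (m + m'))).Finite := Mo_finite K _
  have hne : {c : K | c ≠ 0}.ncard = Fintype.card K - 1 := by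
    have h1 : {c : K | c ≠ 0} = ({0} : Set K)ᶜ := by
      ext c
      simp
    rw [h1, Set.ncard_compl, Set.ncard_singleton, Nat.card_eq_fintype_card]
  have hMo : (Mo K (n + 1 - (m + m'))).ncard = Fintype.card K ^ (n + 1 - (m + m')) :=
    monic_ncard K _
  constructor
  · rw [himg]
    exact (hfinMo.prod (Set.toFinite _)).image _
  · rw [himg, Set.ncard_image_of_injOn hinj, Set.ncard_prod, hne, hMo]
    have h1 : 1 ≤ Fintype.card K := Fintype.card_pos
    push_cast [Nat.cast_sub h1]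
    ring

/-- If `m + m' = n + 2` there is at most one pair: if `(G, c)`, `(G', c')` are two, then
`c' G - c G'` is divisible by `D` and by `D'` and has degree at most `n + 1`, so it vanishes. -/
theorem WQ_le_one {n m m' : ℕ} {D D' : K[X]} (hD : D ∈ Mo K m) (hD' : D' ∈ Mo K m')
    (h : IsCoprime D D') (hm : m + m' = n + 2) : (WQ K n D D').Finite ∧
      (WQ K n D D').ncard ≤ 1 := by
  have hsub : (WQ K n D D').Subsingleton := by
    rintro ⟨G, c⟩ ⟨hG, hc, h1, h2⟩ ⟨G', c'⟩ ⟨hG', hc', h1', h2'⟩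
    simp only at hG hc h1 h2 hG' hc' h1' h2'
    have h3 : D * D' ∣ C c' * G - C c * G' := by
      apply h.mul_dvd
      · exact dvd_sub (h1.mul_left _) (h1'.mul_left _)
      · have h4 : C c' * G - C c * G' = C c' * (G - C c) - C c * (G' - C c') := by
          ring
        rw [h4]
        exact dvd_sub (h2.mul_left _) (h2'.mul_left _)
    have hBd : (D * D').natDegree = n + 2 := by
      rw [hD.1.natDegree_mul hD'.1, hD.2, hD'.2, hm]
    have h5 : C c' * G - C c * G' = 0 := by
      by_contra h0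
      have h6 := natDegree_le_of_dvd h3 h0
      have h7 : (C c' * G - C c * G').natDegree ≤ n + 1 := by
        refine (natDegree_sub_le _ _).trans (max_le ?_ ?_)
        · exact (natDegree_C_mul_le _ _).trans hG.2.le
        · exact (natDegree_C_mul_le _ _).trans hG'.2.le
      omega
    have h6 : C c' * G = C c * G' := sub_eq_zero.1 h5
    have h7 : c' = c := by
      have h8 := congrArg leadingCoeff h6
      rw [leadingCoeff_mul, leadingCoeff_mul, leadingCoeff_C, leadingCoeff_C,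
        hG.1.leadingCoeff, hG'.1.leadingCoeff, mul_one, mul_one] at h8
      exact h8
    subst h7
    have h8 : G = G' := mul_left_cancel₀ (C_ne_zero.2 hc') h6
    rw [h8]
  refine ⟨hsub.finite, ?_⟩
  exact (Set.ncard_le_one hsub.finite).2 fun a ha b hb => hsub ha hb

end SBr
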