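import Pool.Agent.H.MP_cc3311_ag.M7b
import Pool.Agent.H.MP_cc3311_ag.M8a
import Pool.Agent.H.MP_cc3311_ag.F1

/-!
# MP_cc3311_ag, M8b: the Chinese remainder theorem, structures over the quadratic extension
-/

set_option autoImplicit false

namespace SBr

open Polynomial

variable (K : Type) [Field K] [Fintype K]

/-- Given a structure, the pairs `(G, c)`. -/
def WP (n : ℕ) (θ : AlgebraicClosure K) (D : (AlgebraicClosure K)[X]) : Set (K[X] × K) :=
  {x | x.1 ∈ Mo K (n + 1) ∧ x.2 ≠ 0 ∧ D ∣ up x.1 - C (algebraMap K (AlgebraicClosure K) x.2 * θ)}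

/-- Frobenius applied to the divisibility. -/
theorem M8b_frob_dvd {θ : AlgebraicClosure K} {D : (AlgebraicClosure K)[X]} {G : K[X]} {c : K}
    (h : D ∣ up G - C (algebraMap K (AlgebraicClosure K) c * θ)) :
    D.map (frob K) ∣ up G - C (algebraMap K (AlgebraicClosure K) c * frob K θ) := by
  have h1 := Polynomial.map_dvd (frob K) h
  rwa [Polynomial.map_sub, map_frob_up, map_C, map_mul, frob_algebraMap] at h1

/-- Let `x` be a common root of `D` and its conjugate. `G x = c θ`, and, applying Frobenius,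
`G x = c frob θ`. -/
theorem WP_not_coprime (n : ℕ) {θ : AlgebraicClosure K} (h2 : frob K θ ≠ θ)
    {D : (AlgebraicClosure K)[X]} (h : ¬ IsCoprime D (D.map (frob K))) : WP K n θ D = ∅ := by
  rw [Polynomial.isCoprime_iff_aeval_ne_zero_of_isAlgClosed (AlgebraicClosure K)
    (AlgebraicClosure K)] at h
  push Not at h
  obtain ⟨x, hx1, hx2⟩ := h
  rw [Set.eq_empty_iff_forall_notMem]
  rintro ⟨G, c⟩ ⟨-, hc, hd⟩
  have hd' := M8b_frob_dvd K hd
  have e1 : eval x (up G - C (algebraMap K (AlgebraicClosure K) c * θ)) = 0 := by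
    obtain ⟨q, hq⟩ := hd
    rw [hq, eval_mul]
    rw [coe_aeval_eq_eval] at hx1
    rw [hx1, zero_mul]
  have e2 : eval x (up G - C (algebraMap K (AlgebraicClosure K) c * frob K θ)) = 0 := by
    obtain ⟨q, hq⟩ := hd'
    rw [hq, eval_mul]
    rw [coe_aeval_eq_eval] at hx2
    rw [hx2, zero_mul]
  rw [eval_sub, eval_C] at e1 e2
  have h3 : algebraMap K (AlgebraicClosure K) c * (frob K θ - θ) = 0 := by
    linear_combination e1 - e2
  rcases mul_eq_zero.1 h3 with h4 | h4
  · exact hc ((map_eq_zero _).1 h4)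
  · exact h2 (sub_eq_zero.1 h4)

/-- The product of the two conjugates is defined over `K`. -/
theorem M8b_B {m : ℕ} {D : (AlgebraicClosure K)[X]} (hD : D ∈ Mo (AlgebraicClosure K) m)
    (hDD : (D.map (frob K)).map (frob K) = D) :
    ∃ B : K[X], B ∈ Mo K (2 * m) ∧ up B = D * D.map (frob K) := by
  obtain ⟨B, hB⟩ := up_of_map_frob (K := K) (P := D * D.map (frob K)) (by
    rw [Polynomial.map_mul, hDD, mul_comm])
  refine ⟨B, ⟨?_, ?_⟩, hB⟩
  · rw [← up_monic, hB]
    exact hD.1.mul (hD.1.map _)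
  · rw [← up_natDegree, hB, hD.1.natDegree_mul (hD.1.map _), natDegree_map, hD.2]
    omega

/-- A polynomial over `K` divisible by `D` is divisible by the product. -/
theorem M8b_dvd {D : (AlgebraicClosure K)[X]} (h : IsCoprime D (D.map (frob K))) {B G : K[X]}
    (hB : up B = D * D.map (frob K)) : D ∣ up G ↔ B ∣ G := by
  rw [← up_dvd (D := B) (G := G), hB]
  constructor
  · intro h1
    refine h.mul_dvd h1 ?_
    have h2 := Polynomial.map_dvd (frob K) h1
    rwa [map_frob_up] at h2
  · intro h1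
    exact (dvd_mul_right _ _).trans h1

/-- The remainder for `c = 1`. -/
theorem M8b_rho {m : ℕ} {θ : AlgebraicClosure K} (h1 : frob K (frob K θ) = θ)
    {D : (AlgebraicClosure K)[X]} (hDD : (D.map (frob K)).map (frob K) = D)
    (h : IsCoprime D (D.map (frob K))) {B : K[X]} (hBm : B ∈ Mo K (2 * m))
    (hB : up B = D * D.map (frob K)) :
    ∃ ρ : K[X], ρ.degree < (2 * m : ℕ) ∧ D ∣ up ρ - C θ := by
  obtain ⟨u, v, huv⟩ := h
  have hmon : (up B).Monic := up_monic.2 hBm.1
  set P : (AlgebraicClosure K)[X] := C θ * (v * D.map (frob K)) + C (frob K θ) * (u * D) with hP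
  have hd1 : D ∣ P - C θ := by
    refine ⟨C (frob K θ) * u - C θ * u, ?_⟩
    rw [hP]
    linear_combination (C θ) * huv
  have hd2 : D.map (frob K) ∣ P - C (frob K θ) := by
    refine ⟨C θ * v - C (frob K θ) * v, ?_⟩
    rw [hP]
    linear_combination (C (frob K θ)) * huv
  set R := P %ₘ up B with hR
  have hPR : up B ∣ P - R := by
    refine ⟨P /ₘ up B, ?_⟩
    have := modByMonic_add_div P (up B)
    rw [hR]
    linear_combination -this
  have hr1 : D ∣ R - C θ := by
    have h3 : D ∣ P - R := by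
      rw [hB] at hPR
      exact (dvd_mul_right _ _).trans hPR
    have h4 := dvd_sub hd1 h3
    have h5 : P - C θ - (P - R) = R - C θ := by ring
    rwa [h5] at h4
  have hr2 : D.map (frob K) ∣ R - C (frob K θ) := by
    have h3 : D.map (frob K) ∣ P - R := by
      rw [hB] at hPR
      exact (dvd_mul_left _ _).trans hPR
    have h4 := dvd_sub hd2 h3
    have h5 : P - C (frob K θ) - (P - R) = R - C (frob K θ) := by ring
    rwa [h5] at h4
  have hs2 : D.map (frob K) ∣ R.map (frob K) - C (frob K θ) := by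
    have h3 := Polynomial.map_dvd (frob K) hr1
    rwa [Polynomial.map_sub, map_C] at h3
  have hs1 : D ∣ R.map (frob K) - C θ := by
    have h3 := Polynomial.map_dvd (frob K) hr2
    rwa [Polynomial.map_sub, map_C, hDD, h1] at h3
  have ht1 : D ∣ R.map (frob K) - R := by
    have h4 := dvd_sub hs1 hr1
    have h5 : R.map (frob K) - C θ - (R - C θ) = R.map (frob K) - R := by ring
    rwa [h5] at h4
  have ht2 : D.map (frob K) ∣ R.map (frob K) - R := by
    have h4 := dvd_sub hs2 hr2
    have h5 : R.map (frob K) - C (frob K θ) - (R - C (frob K θ)) = R.map (frob K) - R := by ring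
    rwa [h5] at h4
  have hdeg : R.degree < (up B).degree := degree_modByMonic_lt _ hmon
  have hfix : R.map (frob K) = R := by
    have h3 : up B ∣ R.map (frob K) - R := by
      rw [hB]
      exact IsCoprime.mul_dvd ⟨u, v, huv⟩ ht1 ht2
    have h4 : (R.map (frob K) - R).degree < (up B).degree := by
      refine (degree_sub_le _ _).trans_lt (max_lt ?_ hdeg)
      rw [degree_map]
      exact hdeg
    exact sub_eq_zero.1 (eq_zero_of_dvd_of_degree_lt h3 h4)
  obtain ⟨ρ, hρ⟩ := up_of_map_frob hfix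
  refine ⟨ρ, ?_, ?_⟩
  · rw [← hρ] at hdeg
    unfold up at hdeg
    rw [degree_map, degree_map, degree_eq_natDegree hBm.1.ne_zero, hBm.2] at hdeg
    exact hdeg
  · rw [hρ]
    exact hr1

/-- `D * D.map frob = up B` with `B` monic of degree `2 m`. By coprimality there is `ρ` of degree less
than `2 m` with `D ∣ ρ - c θ`, `D.map frob ∣ ρ - c frob θ`; by uniqueness `ρ.map frob = ρ`, so
`ρ = up ρ'`, and the condition is `B ∣ G - ρ'`; `cong_ncard`. -/
theorem WP_coprime {n m : ℕ} {θ : AlgebraicClosure K} (h1 : frob K (frob K θ) = θ)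
    (h2 : frob K θ ≠ θ) {D : (AlgebraicClosure K)[X]} (hD : D ∈ Mo (AlgebraicClosure K) m)
    (hDD : (D.map (frob K)).map (frob K) = D)
    (h : IsCoprime D (D.map (frob K))) (hm : 2 * m ≤ n + 1) : (WP K n θ D).Finite ∧
      ((WP K n θ D).ncard : ℤ) =
        ((Fintype.card K : ℤ) - 1) * (Fintype.card K : ℤ) ^ (n + 1 - 2 * m) := by
  obtain ⟨B, hBm, hB⟩ := M8b_B K hD hDD
  obtain ⟨ρ, hρd, hρ⟩ := M8b_rho K h1 hDD h hBm hB
  have hcond : ∀ (G : K[X]) (c : K), D ∣ up G - C (algebraMap K (AlgebraicClosure K) c * θ) ↔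
      B ∣ G - C c * ρ := by
    intro G c
    rw [← M8b_dvd K h hB]
    have e1 : up (G - C c * ρ) = (up G - C (algebraMap K (AlgebraicClosure K) c * θ)) -
        C (algebraMap K (AlgebraicClosure K) c) * (up ρ - C θ) := by
      unfold up
      rw [Polynomial.map_sub, Polynomial.map_mul, map_C, C_mul]
      ring
    rw [e1]
    exact (dvd_sub_left (hρ.mul_left _)).symm
  have hdc : ∀ c : K, (C c * ρ).degree < (n + 1 : ℕ) := by
    intro c
    have h3 : (C c * ρ).degree ≤ ρ.degree := by
      rw [← smul_eq_C_mul]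
      exact degree_smul_le _ _
    refine h3.trans_lt (hρd.trans_le ?_)
    exact_mod_cast hm
  have hadd : ∀ (G : K[X]) (c : K), G ∈ Mo K (n + 1) → G + C c * ρ ∈ Mo K (n + 1) := by
    intro G c hG
    have h3 : (C c * ρ).degree < G.degree := by
      rw [degree_eq_natDegree hG.1.ne_zero, hG.2]
      exact hdc c
    refine ⟨hG.1.add_of_left h3, ?_⟩
    rw [natDegree_add_eq_left_of_degree_lt h3, hG.2]
  have hset : WP K n θ D = (fun x : K[X] × K => (x.1 + C x.2 * ρ, x.2)) ''
      ({G | G ∈ Mo K (n + 1) ∧ B ∣ G - 0} ×ˢ {c | c ≠ 0}) := by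
    ext ⟨G, c⟩
    constructor
    · rintro ⟨hG, hc, hd⟩
      refine ⟨(G - C c * ρ, c), ⟨⟨?_, ?_⟩, hc⟩, ?_⟩
      · have h3 := hadd G (-c) hG
        rwa [C_neg, neg_mul, ← sub_eq_add_neg] at h3
      · rw [sub_zero]
        exact (hcond G c).1 hd
      · simp only [sub_add_cancel]
    · rintro ⟨⟨G', c'⟩, ⟨⟨hG', hd'⟩, hc'⟩, heq⟩
      simp only [Prod.mk.injEq] at heq
      obtain ⟨rfl, rfl⟩ := heq
      refine ⟨hadd _ _ hG', hc', (hcond _ _).2 ?_⟩
      rw [sub_zero] at hd'
      rwa [add_sub_cancel_right]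
  have hinj : Function.Injective (fun x : K[X] × K => (x.1 + C x.2 * ρ, x.2)) := by
    rintro ⟨G, c⟩ ⟨G', c'⟩ heq
    simp only [Prod.mk.injEq] at heq
    obtain ⟨h3, rfl⟩ := heq
    rw [add_right_cancel h3]
  have hcn : {G | G ∈ Mo K (n + 1) ∧ B ∣ G - 0}.ncard = Fintype.card K ^ (n + 1 - 2 * m) :=
    cong_ncard K hBm hm
  have hfin1 : {G | G ∈ Mo K (n + 1) ∧ B ∣ G - 0}.Finite := by
    apply Set.finite_of_ncard_pos
    rw [hcn]
    exact pow_pos Fintype.card_pos _
  constructor
  · rw [hset]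
    exact (hfin1.prod (Set.toFinite _)).image _
  · rw [hset, Set.ncard_image_of_injective _ hinj, Set.ncard_prod, hcn]
    push_cast
    rw [F1_ne_card]
    ring

/-- If `2 m = n + 2` there is at most one pair: for two pairs `(G, c)`, `(G', c')` the polynomial
`c' G - c G'` is divisible by `D` and its conjugate and has degree at most `n + 1`. -/
theorem WP_le_one {n m : ℕ} {θ : AlgebraicClosure K} (h1 : frob K (frob K θ) = θ)
    (h2 : frob K θ ≠ θ) {D : (AlgebraicClosure K)[X]} (hD : D ∈ Mo (AlgebraicClosure K) m)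
    (hDD : (D.map (frob K)).map (frob K) = D)
    (h : IsCoprime D (D.map (frob K))) (hm : 2 * m = n + 2) : (WP K n θ D).Finite ∧
      (WP K n θ D).ncard ≤ 1 := by
  obtain ⟨B, hBm, hB⟩ := M8b_B K hD hDD
  have hsub : (WP K n θ D).Subsingleton := by
    rintro ⟨G, c⟩ ⟨hG, hc, hd⟩ ⟨G', c'⟩ ⟨hG', hc', hd'⟩
    simp only at hG hc hd hG' hc' hd'
    have h3 : D ∣ up (C c' * G - C c * G') := by
      have h4 := dvd_sub (hd.mul_left (C (algebraMap K (AlgebraicClosure K) c')))
        (hd'.mul_left (C (algebraMap K (AlgebraicClosure K) c)))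
      have e1 : up (C c' * G - C c * G') =
          C (algebraMap K (AlgebraicClosure K) c') *
            (up G - C (algebraMap K (AlgebraicClosure K) c * θ)) -
          C (algebraMap K (AlgebraicClosure K) c) *
            (up G' - C (algebraMap K (AlgebraicClosure K) c' * θ)) := by
        unfold up
        rw [Polynomial.map_sub, Polynomial.map_mul, Polynomial.map_mul, map_C, map_C, C_mul, C_mul]
        ring
      rw [e1]
      exact h4
    rw [M8b_dvd K h hB] at h3
    have hdeg : (C c' * G - C c * G').degree < B.degree := by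
      have hb : B.degree = ((n + 2 : ℕ) : WithBot ℕ) := by
        rw [degree_eq_natDegree hBm.1.ne_zero, hBm.2, hm]
      have hg : ∀ (a : K) (F : K[X]), F ∈ Mo K (n + 1) → (C a * F).degree < B.degree := by
        intro a F hF
        have h5 : (C a * F).degree ≤ F.degree := by
          rw [← smul_eq_C_mul]
          exact degree_smul_le _ _
        refine h5.trans_lt ?_
        rw [hb, degree_eq_natDegree hF.1.ne_zero, hF.2]
        exact_mod_cast Nat.lt_succ_self (n + 1)
      exact (degree_sub_le _ _).trans_lt (max_lt (hg _ _ hG) (hg _ _ hG'))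
    have h0 : C c' * G = C c * G' := sub_eq_zero.1 (eq_zero_of_dvd_of_degree_lt h3 hdeg)
    have hcc : c' = c := by
      have h5 := congrArg leadingCoeff h0
      rw [leadingCoeff_mul, leadingCoeff_mul, leadingCoeff_C, leadingCoeff_C,
        hG.1.leadingCoeff, hG'.1.leadingCoeff, mul_one, mul_one] at h5
      exact h5
    subst hcc
    have hGG : G = G' := mul_left_cancel₀ (C_ne_zero.2 hc) h0
    rw [hGG]
  exact ⟨hsub.finite, (Set.ncard_le_one hsub.finite).2 fun a ha b hb => hsub ha hb⟩

end SBr
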