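import Pool.Agent.H.MP_cc3311_ag.M0
import Pool.Agent.H.MP_cc3311_ag.A5
import Pool.Agent.H.MP_cc3311_ag.C0

/-!
# MP_cc3311_ag, M9a: the numbers of coprime pairs of structures over `K`
-/

set_option autoImplicit false

namespace SBr

open Polynomial

variable (K : Type) [Field K] [Fintype K]

omit [Fintype K] in
theorem M9a_cube_inj {a b : K} (h : ((X - C a) ^ 3 : K[X]) = (X - C b) ^ 3) : a = b := by
  have h1 := congrArg (eval a) h
  simp only [eval_pow, eval_sub, eval_X, eval_C, sub_self] at h1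
  have h2 : (a - b) ^ 3 = 0 := by
    rw [← h1]; ring
  exact sub_eq_zero.1 (pow_eq_zero_iff (by norm_num : (3 : ℕ) ≠ 0) |>.1 h2)

omit [Fintype K] in
theorem M9a_sq_inj {E F : K[X]} (hE : E.Monic) (hF : F.Monic) (h : E ^ 2 = F ^ 2) : E = F :=
  (sq_mul_unique K hE monic_one squarefree_one hF monic_one squarefree_one (by rw [h])).1

omit [Fintype K] in
theorem M9a_cub : cub K = Set.range fun a : K => ((X - C a) ^ 3 : K[X]) := by
  ext D
  constructor
  · rintro ⟨a, rfl⟩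
    exact ⟨a, rfl⟩
  · rintro ⟨a, rfl⟩
    exact ⟨a, rfl⟩

omit [Fintype K] in
theorem M9a_squ : squ K = (fun E : K[X] => E ^ 2) '' Sq K 2 := by
  ext D
  constructor
  · rintro ⟨E, h1, h2, h3, rfl⟩
    exact ⟨E, ⟨h1, h2, h3⟩, rfl⟩
  · rintro ⟨E, ⟨h1, h2, h3⟩, rfl⟩
    exact ⟨E, h1, h2, h3, rfl⟩

theorem M9a_Sq_finite (n : ℕ) : (Sq K n).Finite :=
  (A5_monic_eq_finite K n).subset fun _ h => ⟨h.1, h.2.1⟩

theorem cub_card : (cub K).Finite ∧ (cub K).ncard = Fintype.card K := by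
  rw [M9a_cub]
  refine ⟨Set.finite_range _, ?_⟩
  rw [← Set.image_univ, Set.ncard_image_of_injective _ fun a b h => M9a_cube_inj K h,
    Set.ncard_univ, Nat.card_eq_fintype_card]

/-- `E ↦ E ^ 2` is injective on monic polynomials; `sq_two`. -/
theorem squ_card : (squ K).Finite ∧
    ((squ K).ncard : ℤ) = (Fintype.card K : ℤ) ^ 2 - Fintype.card K := by
  rw [M9a_squ]
  refine ⟨(M9a_Sq_finite K 2).image _, ?_⟩
  rw [Set.InjOn.ncard_image fun E hE F hF h => M9a_sq_inj K hE.1 hF.1 h, sq_two]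

omit [Fintype K] in
theorem cub_mem {D : K[X]} (h : D ∈ cub K) : D ∈ Mo K 3 := by
  obtain ⟨a, rfl⟩ := h
  exact ⟨C0a_monic a 3, C0a_natDegree a 3⟩

omit [Fintype K] in
theorem squ_mem {D : K[X]} (h : D ∈ squ K) : D ∈ Mo K 4 := by
  obtain ⟨E, h1, h2, -, rfl⟩ := h
  exact ⟨h1.pow 2, by rw [h1.natDegree_pow, h2]⟩

/-- Coprime pairs of structures of given types. -/
def cp (A B : Set K[X]) : Set (K[X] × K[X]) := {x | x.1 ∈ A ∧ x.2 ∈ B ∧ IsCoprime x.1 x.2}

omit [Field K] in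
theorem M9a_off : (({x : K × K | x.1 ≠ x.2}).ncard : ℤ) =
    (Fintype.card K : ℤ) ^ 2 - Fintype.card K := by
  classical
  have h1 : {x : K × K | x.1 ≠ x.2} = ((Finset.univ : Finset K).offDiag : Set (K × K)) := by
    ext x
    simp
  rw [h1, Set.ncard_coe_finset, Finset.offDiag_card, Finset.card_univ,
    Nat.cast_sub (Nat.le_mul_self _)]
  push_cast
  ring

/-- Two different cubes. -/
theorem N33 : ((cp K (cub K) (cub K)).ncard : ℤ) =
    (Fintype.card K : ℤ) ^ 2 - Fintype.card K := by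
  have h1 : cp K (cub K) (cub K) =
      (fun x : K × K => (((X - C x.1) ^ 3 : K[X]), ((X - C x.2) ^ 3 : K[X]))) ''
        {x : K × K | x.1 ≠ x.2} := by
    ext D
    constructor
    · rintro ⟨⟨a, ha⟩, ⟨b, hb⟩, hc⟩
      refine ⟨(a, b), ?_, Prod.ext ha.symm hb.symm⟩
      rintro (rfl : a = b)
      rw [ha, hb] at hc
      have h2 := isUnit_of_dvd_unit (dvd_pow_self (X - C a) (by norm_num : (3 : ℕ) ≠ 0))
        (isCoprime_self.1 hc)
      exact not_isUnit_X_sub_C a h2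
    · rintro ⟨x, hx, rfl⟩
      refine ⟨⟨x.1, rfl⟩, ⟨x.2, rfl⟩, ?_⟩
      exact IsCoprime.pow (isCoprime_X_sub_C_of_isUnit_sub (sub_ne_zero.2 hx).isUnit)
  rw [h1, Set.ncard_image_of_injective, M9a_off]
  intro x y hxy
  exact Prod.ext (M9a_cube_inj K (congrArg Prod.fst hxy)) (M9a_cube_inj K (congrArg Prod.snd hxy))

omit [Fintype K] in
theorem M9a_cop (a : K) (E : K[X]) : IsCoprime ((X - C a) ^ 3) (E ^ 2) ↔ ¬ E.IsRoot a := by
  rw [IsCoprime.pow_iff (by norm_num) (by norm_num)]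
  constructor
  · intro h hr
    have h1 : (X - C a) ∣ E := dvd_iff_isRoot.2 hr
    exact not_isUnit_X_sub_C a (h.isUnit_of_dvd' dvd_rfl h1)
  · intro h
    exact ((irreducible_X_sub_C a).coprime_iff_not_dvd).2 fun hd => h (dvd_iff_isRoot.1 hd)

/-- Pairs (point, squarefree quadratic vanishing there). -/
theorem M9a_root : (({x : K × K[X] | x.2 ∈ Sq K 2 ∧ x.2.IsRoot x.1}).ncard : ℤ) =
    (Fintype.card K : ℤ) ^ 2 - Fintype.card K := by
  have h1 : {x : K × K[X] | x.2 ∈ Sq K 2 ∧ x.2.IsRoot x.1} =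
      (fun x : K × K => (x.1, (X - C x.1) * (X - C x.2))) '' {x : K × K | x.1 ≠ x.2} := by
    ext y
    constructor
    · rintro ⟨⟨hm, hd, hs⟩, hr⟩
      obtain ⟨Q, hQ⟩ := dvd_iff_isRoot.2 hr
      have hQm : Q.Monic := (monic_X_sub_C y.1).of_mul_monic_left (hQ ▸ hm)
      have hQd : Q.natDegree = 1 := by
        have h2 := hd
        rw [hQ, (monic_X_sub_C y.1).natDegree_mul hQm, natDegree_X_sub_C] at h2
        omega
      have hQ2 : Q = X - C (-Q.coeff 0) := by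
        have h3 := hQm.eq_X_add_C hQd
        rw [C_neg, sub_neg_eq_add]
        exact h3
      refine ⟨(y.1, -Q.coeff 0), ?_, Prod.ext rfl ?_⟩
      · intro (he : y.1 = -Q.coeff 0)
        rw [← he] at hQ2
        rw [hQ, hQ2] at hs
        exact not_isUnit_X_sub_C y.1 (hs _ dvd_rfl)
      · change (X - C y.1) * (X - C (-Q.coeff 0)) = y.2
        rw [← hQ2, ← hQ]
    · rintro ⟨x, hx, rfl⟩
      refine ⟨⟨(monic_X_sub_C _).mul (monic_X_sub_C _), ?_, ?_⟩, ?_⟩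
      · change ((X - C x.1) * (X - C x.2)).natDegree = 2
        rw [(monic_X_sub_C x.1).natDegree_mul (monic_X_sub_C x.2), natDegree_X_sub_C,
          natDegree_X_sub_C]
      · change Squarefree ((X - C x.1) * (X - C x.2))
        rw [squarefree_mul_iff]
        refine ⟨?_, (irreducible_X_sub_C _).squarefree, (irreducible_X_sub_C _).squarefree⟩
        exact (isCoprime_X_sub_C_of_isUnit_sub (sub_ne_zero.2 hx).isUnit).isRelPrime
      · change ((X - C x.1) * (X - C x.2)).IsRoot x.1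
        simp [IsRoot]
  rw [h1, Set.InjOn.ncard_image, M9a_off]
  intro x _ y _ hxy
  obtain ⟨h2, h3⟩ := Prod.mk.inj hxy
  rw [← h2] at h3
  have h4 := mul_left_cancel₀ (X_sub_C_ne_zero x.1) h3
  have h5 : C x.2 = C y.2 := sub_right_injective h4
  exact Prod.ext h2 (C_injective h5)

/-- Not coprime: `E` vanishes at `a`, `E = (X - a) (X - b)`, `b ≠ a`: `q (q - 1)` pairs. -/
theorem N34 : ((cp K (cub K) (squ K)).ncard : ℤ) =
    (Fintype.card K : ℤ) * ((Fintype.card K : ℤ) - 1) ^ 2 := by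
  have h1 : cp K (cub K) (squ K) =
      (fun x : K × K[X] => (((X - C x.1) ^ 3 : K[X]), x.2 ^ 2)) ''
        {x : K × K[X] | x.2 ∈ Sq K 2 ∧ ¬ x.2.IsRoot x.1} := by
    ext D
    constructor
    · rintro ⟨⟨a, ha⟩, ⟨E, e1, e2, e3, hb⟩, hc⟩
      refine ⟨(a, E), ⟨⟨e1, e2, e3⟩, ?_⟩, Prod.ext ha.symm hb.symm⟩
      rw [ha, hb] at hc
      exact (M9a_cop K a E).1 hc
    · rintro ⟨x, ⟨⟨e1, e2, e3⟩, hx⟩, rfl⟩
      exact ⟨⟨x.1, rfl⟩, ⟨x.2, e1, e2, e3, rfl⟩, (M9a_cop K x.1 x.2).2 hx⟩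
  rw [h1, Set.InjOn.ncard_image]
  · have hfin : ((Set.univ : Set K) ×ˢ Sq K 2).Finite := Set.finite_univ.prod (M9a_Sq_finite K 2)
    have hun : ((Set.univ : Set K) ×ˢ Sq K 2) =
        {x : K × K[X] | x.2 ∈ Sq K 2 ∧ ¬ x.2.IsRoot x.1} ∪
          {x : K × K[X] | x.2 ∈ Sq K 2 ∧ x.2.IsRoot x.1} := by
      ext x
      constructor
      · rintro ⟨-, hx⟩
        by_cases hr : x.2.IsRoot x.1
        · exact Or.inr ⟨hx, hr⟩
        · exact Or.inl ⟨hx, hr⟩
      · rintro (⟨hx, -⟩ | ⟨hx, -⟩)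
        · exact ⟨trivial, hx⟩
        · exact ⟨trivial, hx⟩
    have hdis : Disjoint {x : K × K[X] | x.2 ∈ Sq K 2 ∧ ¬ x.2.IsRoot x.1}
        {x : K × K[X] | x.2 ∈ Sq K 2 ∧ x.2.IsRoot x.1} := by
      rw [Set.disjoint_left]
      rintro x ⟨-, hx⟩ ⟨-, hx'⟩
      exact hx hx'
    have hcard := congrArg Set.ncard hun
    rw [Set.ncard_prod, Set.ncard_univ, Nat.card_eq_fintype_card,
      Set.ncard_union_eq hdis (hfin.subset (hun ▸ Set.subset_union_left))
        (hfin.subset (hun ▸ Set.subset_union_right))] at hcard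
    have h2 : ((Fintype.card K * (Sq K 2).ncard : ℕ) : ℤ) =
        (({x : K × K[X] | x.2 ∈ Sq K 2 ∧ ¬ x.2.IsRoot x.1}.ncard +
          {x : K × K[X] | x.2 ∈ Sq K 2 ∧ x.2.IsRoot x.1}.ncard : ℕ) : ℤ) := by
      exact_mod_cast hcard
    push_cast at h2
    rw [sq_two, M9a_root] at h2
    linear_combination -h2
  · rintro x ⟨hx, -⟩ y ⟨hy, -⟩ hxy
    exact Prod.ext (M9a_cube_inj K (congrArg Prod.fst hxy))
      (M9a_sq_inj K hx.1 hy.1 (congrArg Prod.snd hxy))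

theorem N43 : ((cp K (squ K) (cub K)).ncard : ℤ) =
    (Fintype.card K : ℤ) * ((Fintype.card K : ℤ) - 1) ^ 2 := by
  have h1 : cp K (squ K) (cub K) = Prod.swap '' cp K (cub K) (squ K) := by
    ext D
    constructor
    · rintro ⟨h1, h2, h3⟩
      exact ⟨(D.2, D.1), ⟨h2, h1, h3.symm⟩, rfl⟩
    · rintro ⟨x, ⟨h1, h2, h3⟩, rfl⟩
      exact ⟨h2, h1, h3.symm⟩
  rw [h1, Set.ncard_image_of_injective _ Prod.swap_injective, N34]

end SBr
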