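import Pool.Agent.H.MP_cc3311_ag.M10
import Pool.Agent.H.MP_cc3311_ag.M9a
import Pool.Agent.H.MP_cc3311_ag.M9b
import Pool.Agent.H.MP_cc3311_ag.M8a
import Pool.Agent.H.MP_cc3311_ag.M8b
import Pool.Agent.H.MP_cc3311_ag.Lj

/-!
# MP_cc3311_ag, M11a: fibres over the structures
-/

set_option autoImplicit false

namespace SBr

open Polynomial

theorem M11a_fib {α β : Type} (S : Set (α × β)) {B : Set β} (hB : B.Finite)
    (hS : ∀ x ∈ S, x.2 ∈ B) {A : Set α} (hA : A.Finite) (hSA : ∀ x ∈ S, x.1 ∈ A)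
    (F : β → Set α) (hF : ∀ b ∈ B, ∀ a, (a, b) ∈ S ↔ a ∈ F b) :
    S.Finite ∧ S.ncard = ∑ᶠ b ∈ B, (F b).ncard := by
  classical
  have hfin : S.Finite := (hA.prod hB).subset fun x hx => ⟨hSA x hx, hS x hx⟩
  refine ⟨hfin, ?_⟩
  rw [finsum_mem_eq_finite_toFinset_sum _ hB, Set.ncard_eq_toFinset_card S hfin,
    Finset.card_eq_sum_card_fiberwise (f := Prod.snd) (t := hB.toFinset)
      (fun x hx => by
        have h1 : x ∈ S := by simpa using hx
        simpa using hS x h1)]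
  refine Finset.sum_congr rfl fun b hb => ?_
  have hb' : b ∈ B := by simpa using hb
  rw [← Set.ncard_coe_finset, ← Set.ncard_image_of_injective (F b) (f := fun a => (a, b))
    (fun a a' h => by simpa using h)]
  congr 1
  ext x
  obtain ⟨a, b'⟩ := x
  simp only [Finset.coe_filter, Set.Finite.mem_toFinset, Set.mem_ofPred_eq, Set.mem_image,
    Prod.mk.injEq]
  constructor
  · rintro ⟨h1, rfl⟩
    exact ⟨a, (hF _ hb' a).1 h1, rfl, rfl⟩
  · rintro ⟨a', h1, rfl, rfl⟩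
    exact ⟨(hF _ hb' _).2 h1, rfl⟩

/-- The fibres of `Q2` over the pairs of structures: only coprime pairs contribute
(`WQ_not_coprime`). -/
theorem Q2_sum (K : Type) [Field K] [Fintype K] (n : ℕ) : (Q2 K n).Finite ∧
    (Q2 K n).ncard = ∑ᶠ x ∈ cp K (Ds K) (Ds K), (WQ K n x.1 x.2).ncard := by
  have hD : (Ds K).Finite := (cub_card K).1.union (squ_card K).1
  have hB : (cp K (Ds K) (Ds K)).Finite :=
    (hD.prod hD).subset fun x hx => ⟨hx.1, hx.2.1⟩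
  refine M11a_fib (Q2 K n) hB ?_ ((Mo_finite (K := K) (n + 1)).prod (Set.toFinite (Set.univ : Set K)))
    ?_ (fun x => WQ K n x.1 x.2) ?_
  · rintro ⟨a, b⟩ hx
    refine ⟨hx.2.2.1, hx.2.2.2.1, ?_⟩
    by_contra h
    have h1 := WQ_not_coprime K n h
    have h2 : a ∈ WQ K n b.1 b.2 := ⟨hx.1, hx.2.1, hx.2.2.2.2.1, hx.2.2.2.2.2⟩
    rw [h1] at h2
    exact h2
  · rintro ⟨a, b⟩ hx
    exact ⟨hx.1, Set.mem_univ _⟩
  · rintro b hb a
    constructor
    · intro hx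
      exact ⟨hx.1, hx.2.1, hx.2.2.2.2.1, hx.2.2.2.2.2⟩
    · intro hx
      exact ⟨hx.1, hx.2.1, hb.1, hb.2.1, hx.2.2.1, hx.2.2.2⟩

theorem P2_sum (K : Type) [Field K] [Fintype K] (n : ℕ) {θ : AlgebraicClosure K}
    (h1 : frob K (frob K θ) = θ) (h2 : frob K θ ≠ θ) : (P2 K n θ).Finite ∧
    (P2 K n θ).ncard = ∑ᶠ D ∈ cq K (Ds (AlgebraicClosure K)), (WP K n θ D).ncard := by
  have _ := h1
  have hB : (cq K (Ds (AlgebraicClosure K))).Finite := by
    refine ((cq3 K).1.union (cq4 K).1).subset ?_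
    rintro D ⟨hD, hD2, hD3⟩
    rcases hD with hD | hD
    · exact Or.inl ⟨hD, hD2, hD3⟩
    · exact Or.inr ⟨hD, hD2, hD3⟩
  refine M11a_fib (P2 K n θ) hB ?_
    ((Mo_finite (K := K) (n + 1)).prod (Set.toFinite (Set.univ : Set K)))
    ?_ (fun D => WP K n θ D) ?_
  · rintro ⟨a, D⟩ hx
    refine ⟨hx.2.2.1.1, hx.2.2.1.2, ?_⟩
    by_contra h
    have h3 := WP_not_coprime K n h2 h
    have h4 : a ∈ WP K n θ D := ⟨hx.1, hx.2.1, hx.2.2.2⟩
    rw [h3] at h4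
    exact h4
  · rintro ⟨a, D⟩ hx
    exact ⟨hx.1, Set.mem_univ _⟩
  · rintro D hD a
    constructor
    · intro hx
      exact ⟨hx.1, hx.2.1, hx.2.2.2⟩
    · intro hx
      exact ⟨hx.1, hx.2.1, ⟨hD.1, hD.2.1⟩, hx.2.2⟩

end SBr
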