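import Pool.Agent.H.MP_cc3311_ag.M11a

/-!
# MP_cc3311_ag, M11b: the asymptotics of `Q2`
-/

set_option autoImplicit false

namespace SBr

open Polynomial

theorem M11b_const {α : Type} {s : Set α} (hs : s.Finite) (f : α → ℕ) (c : ℤ)
    (h : ∀ x ∈ s, (f x : ℤ) = c) : ((∑ᶠ x ∈ s, f x : ℕ) : ℤ) = s.ncard * c := by
  classical
  rw [finsum_mem_eq_finite_toFinset_sum f hs, Set.ncard_eq_toFinset_card s hs, Nat.cast_sum,
    Finset.sum_congr rfl (fun x hx => h x (hs.mem_toFinset.1 hx)), Finset.sum_const, nsmul_eq_mul]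

theorem M11b_le {α : Type} {s : Set α} (hs : s.Finite) (f : α → ℕ)
    (h : ∀ x ∈ s, f x ≤ 1) : (∑ᶠ x ∈ s, f x : ℕ) ≤ s.ncard := by
  classical
  rw [finsum_mem_eq_finite_toFinset_sum f hs, Set.ncard_eq_toFinset_card s hs]
  calc ∑ x ∈ hs.toFinset, f x ≤ ∑ x ∈ hs.toFinset, 1 :=
        Finset.sum_le_sum (fun x hx => h x (hs.mem_toFinset.1 hx))
    _ = hs.toFinset.card := by simp

theorem M11b_ge {α : Type} {s t : Set α} (hs : s.Finite) (ht : t.Finite) (f : α → ℕ)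
    (h : ∀ x ∈ s, x ∉ t → f x = 1) : s.ncard ≤ (∑ᶠ x ∈ s, f x : ℕ) + t.ncard := by
  classical
  rw [finsum_mem_eq_finite_toFinset_sum f hs, Set.ncard_eq_toFinset_card s hs,
    Set.ncard_eq_toFinset_card t ht]
  have h1 : ∑ x ∈ hs.toFinset \ ht.toFinset, f x ≤ ∑ x ∈ hs.toFinset, f x :=
    Finset.sum_le_sum_of_subset Finset.sdiff_subset
  have h2 : ∑ x ∈ hs.toFinset \ ht.toFinset, f x = (hs.toFinset \ ht.toFinset).card := by
    rw [Finset.card_eq_sum_ones]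
    refine Finset.sum_congr rfl fun x hx => ?_
    rw [Finset.mem_sdiff] at hx
    exact h x (hs.mem_toFinset.1 hx.1) (fun hh => hx.2 (ht.mem_toFinset.2 hh))
  have h3 : hs.toFinset.card ≤ (hs.toFinset \ ht.toFinset).card + ht.toFinset.card := by
    exact Finset.card_le_card_sdiff_add_card (s := hs.toFinset) (t := ht.toFinset)
  omega

section

variable (K : Type) [Field K] [Fintype K]

theorem M11b_disj : Disjoint (cub K) (squ K) := by
  rw [Set.disjoint_left]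
  intro D h1 h2
  have h3 := (cub_mem K h1).2
  have h4 := (squ_mem K h2).2
  omega

omit [Fintype K] in
theorem M11b_cp_fin {A B : Set K[X]} (hA : A.Finite) (hB : B.Finite) : (cp K A B).Finite :=
  (hA.prod hB).subset fun _ hx => ⟨hx.1, hx.2.1⟩

/-- The four types. -/
theorem M11b_split (f : K[X] × K[X] → ℕ) :
    ∑ᶠ x ∈ cp K (Ds K) (Ds K), f x =
      ((∑ᶠ x ∈ cp K (cub K) (cub K), f x) + ∑ᶠ x ∈ cp K (cub K) (squ K), f x) +
      ((∑ᶠ x ∈ cp K (squ K) (cub K), f x) + ∑ᶠ x ∈ cp K (squ K) (squ K), f x) := by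
  have hA := (cub_card K).1
  have hB := (squ_card K).1
  have hd := Set.disjoint_left.1 (M11b_disj K)
  have e : cp K (Ds K) (Ds K) =
      (cp K (cub K) (cub K) ∪ cp K (cub K) (squ K)) ∪
      (cp K (squ K) (cub K) ∪ cp K (squ K) (squ K)) := by
    ext x
    simp only [cp, Ds, Set.mem_ofPred_eq, Set.mem_union]
    tauto
  have e1 : Disjoint (cp K (cub K) (cub K)) (cp K (cub K) (squ K)) :=
    Set.disjoint_left.2 fun x h1 h2 => hd h1.2.1 h2.2.1
  have e2 : Disjoint (cp K (squ K) (cub K)) (cp K (squ K) (squ K)) :=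
    Set.disjoint_left.2 fun x h1 h2 => hd h1.2.1 h2.2.1
  have e3 : Disjoint (cp K (cub K) (cub K) ∪ cp K (cub K) (squ K))
      (cp K (squ K) (cub K) ∪ cp K (squ K) (squ K)) := by
    refine Set.disjoint_left.2 fun x h1 h2 => ?_
    have h1' : x.1 ∈ cub K := h1.elim (fun h => h.1) (fun h => h.1)
    have h2' : x.1 ∈ squ K := h2.elim (fun h => h.1) (fun h => h.1)
    exact hd h1' h2'
  rw [e, finsum_mem_union e3
      ((M11b_cp_fin K hA hA).union (M11b_cp_fin K hA hB))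
      ((M11b_cp_fin K hB hA).union (M11b_cp_fin K hB hB)),
    finsum_mem_union e1 (M11b_cp_fin K hA hA) (M11b_cp_fin K hA hB),
    finsum_mem_union e2 (M11b_cp_fin K hB hA) (M11b_cp_fin K hB hB)]

/-- The three easy types. -/
theorem M11b_three (k : ℕ) :
    ((∑ᶠ x ∈ cp K (cub K) (cub K), (WQ K (k + 6) x.1 x.2).ncard : ℕ) : ℤ) =
      ((Fintype.card K : ℤ) ^ 2 - Fintype.card K) *
        (((Fintype.card K : ℤ) - 1) * (Fintype.card K : ℤ) ^ (k + 1)) ∧
    ((∑ᶠ x ∈ cp K (cub K) (squ K), (WQ K (k + 6) x.1 x.2).ncard : ℕ) : ℤ) =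
      (Fintype.card K : ℤ) * ((Fintype.card K : ℤ) - 1) ^ 2 *
        (((Fintype.card K : ℤ) - 1) * (Fintype.card K : ℤ) ^ k) ∧
    ((∑ᶠ x ∈ cp K (squ K) (cub K), (WQ K (k + 6) x.1 x.2).ncard : ℕ) : ℤ) =
      (Fintype.card K : ℤ) * ((Fintype.card K : ℤ) - 1) ^ 2 *
        (((Fintype.card K : ℤ) - 1) * (Fintype.card K : ℤ) ^ k) := by
  have hA := (cub_card K).1
  have hB := (squ_card K).1
  refine ⟨?_, ?_, ?_⟩
  · rw [← N33 K]
    refine M11b_const (M11b_cp_fin K hA hA) _ _ fun x hx => ?_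
    have := (WQ_coprime K (n := k + 6) (cub_mem K hx.1) (cub_mem K hx.2.1) hx.2.2
      (by omega)).2
    rw [this]
    congr 2
  · rw [← N34 K]
    refine M11b_const (M11b_cp_fin K hA hB) _ _ fun x hx => ?_
    have := (WQ_coprime K (n := k + 6) (cub_mem K hx.1) (squ_mem K hx.2.1) hx.2.2
      (by omega)).2
    rw [this]
    congr 2
  · rw [← N43 K]
    refine M11b_const (M11b_cp_fin K hB hA) _ _ fun x hx => ?_
    have := (WQ_coprime K (n := k + 6) (squ_mem K hx.1) (cub_mem K hx.2.1) hx.2.2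
      (by omega)).2
    rw [this]
    congr 2

theorem M11b_four (j : ℕ) :
    ((∑ᶠ x ∈ cp K (squ K) (squ K), (WQ K (j + 7) x.1 x.2).ncard : ℕ) : ℤ) =
      (cp K (squ K) (squ K)).ncard *
        (((Fintype.card K : ℤ) - 1) * (Fintype.card K : ℤ) ^ j) := by
  have hB := (squ_card K).1
  refine M11b_const (M11b_cp_fin K hB hB) _ _ fun x hx => ?_
  have := (WQ_coprime K (n := j + 7) (squ_mem K hx.1) (squ_mem K hx.2.1) hx.2.2
    (by omega)).2
  rw [this]
  congr 2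

theorem M11b_six (hG : Good K 6) :
    ((∑ᶠ x ∈ cp K (squ K) (squ K), (WQ K 6 x.1 x.2).ncard : ℕ) : ℤ) ≤
      (cp K (squ K) (squ K)).ncard ∧
    ((cp K (squ K) (squ K)).ncard : ℤ) ≤
      ((∑ᶠ x ∈ cp K (squ K) (squ K), (WQ K 6 x.1 x.2).ncard : ℕ) : ℤ) +
        ((3 * (cT 5 + cT 4 + cT 3) * 25 * 72 ^ 2 : ℕ) : ℤ) * (Fintype.card K : ℤ) ^ 3 := by
  have hB := (squ_card K).1
  have hf := M11b_cp_fin K hB hB
  constructor
  · have := M11b_le hf (fun x => (WQ K 6 x.1 x.2).ncard) fun x hx =>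
      (WQ_le_one K (n := 6) (squ_mem K hx.1) (squ_mem K hx.2.1) hx.2.2 (by norm_num)).2
    exact_mod_cast this
  · obtain ⟨h1, h2⟩ := XQ_bound K hG
    have h3 := M11b_ge hf h1 (fun x => (WQ K 6 x.1 x.2).ncard) fun x hx hx' => WQ_one K hx hx'
    have h4 := h3.trans (Nat.add_le_add_left h2 _)
    have h5 : ((cp K (squ K) (squ K)).ncard : ℤ) ≤
      ((∑ᶠ x ∈ cp K (squ K) (squ K), (WQ K 6 x.1 x.2).ncard +
        3 * (cT 5 + cT 4 + cT 3) * 25 * 72 ^ 2 * Fintype.card K ^ 3 : ℕ) : ℤ) := by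
      exact_mod_cast h4
    rw [Nat.cast_add, Nat.cast_mul _ (Fintype.card K ^ 3), Nat.cast_pow] at h5
    exact h5

end

/-- PROOF. `cp (Ds) (Ds)` is the disjoint union of the four types (degrees 3, 4).
`n ≥ 7`: by `WQ_coprime` the number is
`(q - 1) (N33 q ^ (n - 5) + (N34 + N43) q ^ (n - 6) + N44 q ^ (n - 7))`; use `N33`, `N34`, `N43`, `N44`.
`n = 6`: the first three types as before, and for the last `N44 - |XQ| ≤ (number) ≤ N44` (`WQ_one`,
`WQ_le_one`, `XQ_bound`). -/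
theorem Q2_asymp (n : ℕ) (hn : 6 ≤ n) : ∃ c : ℤ, ∀ (K : Type) [Field K] [Fintype K], Good K n →
    |((Q2 K n).ncard : ℤ) - 4 * (Fintype.card K : ℤ) ^ (n - 2)| ≤
      c * (Fintype.card K : ℤ) ^ (n - 3) := by
  refine ⟨100 + ((3 * (cT 5 + cT 4 + cT 3) * 25 * 72 ^ 2 : ℕ) : ℤ), ?_⟩
  intro K _ _ hG
  obtain ⟨k, rfl⟩ : ∃ k, n = k + 6 := ⟨n - 6, by omega⟩
  rw [(Q2_sum K (k + 6)).2, M11b_split K]
  obtain ⟨h1, h2, h3⟩ := M11b_three K k
  obtain ⟨h4, h5⟩ := N44 K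
  have hq : (1 : ℤ) ≤ Fintype.card K := by exact_mod_cast Fintype.card_pos
  rw [Nat.cast_add, Nat.cast_add, Nat.cast_add, h1, h2, h3,
    show k + 6 - 2 = k + 4 by omega, show k + 6 - 3 = k + 3 by omega]
  generalize hC : ((3 * (cT 5 + cT 4 + cT 3) * 25 * 72 ^ 2 : ℕ) : ℤ) = C
  have hC0 : 0 ≤ C := by rw [← hC]; exact Int.natCast_nonneg _
  generalize hN : ((cp K (squ K) (squ K)).ncard : ℤ) = N at h4 h5
  rcases k with _ | j
  · obtain ⟨h6, h7⟩ := M11b_six K (by simpa using hG)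
    rw [hC, hN] at h7
    rw [hN] at h6
    generalize hS : ((∑ᶠ x ∈ cp K (squ K) (squ K), (WQ K 6 x.1 x.2).ncard : ℕ) : ℤ) = S at h6 h7
    generalize (Fintype.card K : ℤ) = q at *
    have a1 : q ^ 2 ≤ q ^ 3 := pow_le_pow_right₀ hq (by norm_num)
    have a2 : q ≤ q ^ 3 := le_self_pow₀ hq (by norm_num)
    have a3 : 0 ≤ q ^ 2 := by positivity
    have a4 : 0 ≤ q ^ 3 := a3.trans a1
    have a5 : 0 ≤ C * q ^ 3 := mul_nonneg hC0 a4
    rw [abs_le]
    simp only [zero_add, pow_zero, pow_one, mul_one]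
    constructor <;> nlinarith
  · have h6 := M11b_four K j
    have h6' : ((∑ᶠ x ∈ cp K (squ K) (squ K), (WQ K (j + 1 + 6) x.1 x.2).ncard : ℕ) : ℤ) =
      N * (((Fintype.card K : ℤ) - 1) * (Fintype.card K : ℤ) ^ j) := by
      rw [← hN]; exact h6
    rw [h6']
    clear h6 h6' h1 h2 h3 hN
    generalize (Fintype.card K : ℤ) = q at *
    generalize hP : q ^ j = P
    have hP1 : 0 < P := by rw [← hP]; positivity
    have e1 : q ^ (j + 1 + 1) = P * q ^ 2 := by rw [← hP]; ring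
    have e2 : q ^ (j + 1) = P * q := by rw [← hP]; ring
    have e3 : q ^ (j + 1 + 4) = P * q ^ 5 := by rw [← hP]; ring
    have e4 : q ^ (j + 1 + 3) = P * q ^ 4 := by rw [← hP]; ring
    rw [e1, e2, e3, e4]
    have b0 : 0 ≤ (q - 1) * P := mul_nonneg (by linarith) hP1.le
    have b1 : (q ^ 4 - 4 * q ^ 3) * ((q - 1) * P) ≤ N * ((q - 1) * P) :=
      mul_le_mul_of_nonneg_right h4 b0
    have b2 : N * ((q - 1) * P) ≤ q ^ 4 * ((q - 1) * P) := mul_le_mul_of_nonneg_right h5 b0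
    have a1 : P * q ^ 3 ≤ P * q ^ 4 :=
      mul_le_mul_of_nonneg_left (pow_le_pow_right₀ hq (by norm_num)) hP1.le
    have a2 : P * q ^ 2 ≤ P * q ^ 4 :=
      mul_le_mul_of_nonneg_left (pow_le_pow_right₀ hq (by norm_num)) hP1.le
    have a3 : 0 ≤ P * q ^ 2 := by positivity
    have a4 : 0 ≤ P * q ^ 3 := by
      have : 0 ≤ q := by linarith
      positivity
    have a5 : 0 ≤ P * q ^ 4 := a3.trans a2
    have a6 : 0 ≤ C * (P * q ^ 4) := mul_nonneg hC0 a5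
    rw [abs_le]
    constructor <;> nlinarith

end SBr
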