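import Pool.Agent.H.MP_cc3311_ag.M2a
import Pool.Agent.H.MP_cc3311_ag.A4

/-!
# MP_cc3311_ag, M2: the sieve
-/

set_option autoImplicit false

namespace SBr

open Polynomial

/-- Fibre sum: the number of the pairs `(a, b)` with `a` in a finite set and `b ∈ Z a`. -/
theorem M2_fib {α β : Type} (M : Finset α) (Z : α → Set β) (hZ : ∀ a ∈ M, (Z a).Finite) :
    {x : α × β | x.1 ∈ M ∧ x.2 ∈ Z x.1}.ncard = ∑ a ∈ M, (Z a).ncard := by
  classical
  have key : ∀ M' : Finset α, M' ⊆ M →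
      {x : α × β | x.1 ∈ M' ∧ x.2 ∈ Z x.1}.Finite ∧
      {x : α × β | x.1 ∈ M' ∧ x.2 ∈ Z x.1}.ncard = ∑ a ∈ M', (Z a).ncard := by
    intro M'
    induction M' using Finset.induction_on with
    | empty =>
      intro _
      have h0 : {x : α × β | x.1 ∈ (∅ : Finset α) ∧ x.2 ∈ Z x.1} = ∅ := by
        ext x
        simp
      rw [h0]
      simp
    | insert a s ha ih =>
      intro hs
      obtain ⟨hf, hn⟩ := ih fun b hb => hs (Finset.mem_insert_of_mem hb)
      have haM : a ∈ M := hs (Finset.mem_insert_self a s)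
      have h1 : {x : α × β | x.1 ∈ insert a s ∧ x.2 ∈ Z x.1} =
          (fun b : β => (a, b)) '' Z a ∪ {x : α × β | x.1 ∈ s ∧ x.2 ∈ Z x.1} := by
        ext ⟨b, c⟩
        constructor
        · rintro ⟨hb, hc⟩
          rcases Finset.mem_insert.1 hb with hb | hb
          · left
            change b = a at hb
            subst hb
            exact ⟨c, hc, rfl⟩
          · right
            exact ⟨hb, hc⟩
        · rintro (⟨d, hd, hde⟩ | ⟨hb, hc⟩)
          · have h2 : a = b := congrArg Prod.fst hde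
            have h3 : d = c := congrArg Prod.snd hde
            subst h2
            subst h3
            exact ⟨Finset.mem_insert_self _ _, hd⟩
          · exact ⟨Finset.mem_insert_of_mem hb, hc⟩
      have hfa : ((fun b : β => (a, b)) '' Z a).Finite := (hZ a haM).image _
      have hdis : Disjoint ((fun b : β => (a, b)) '' Z a) {x : α × β | x.1 ∈ s ∧ x.2 ∈ Z x.1} := by
        rw [Set.disjoint_left]
        rintro x ⟨d, _, rfl⟩ ⟨h2, _⟩
        exact ha h2
      rw [h1]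
      refine ⟨hfa.union hf, ?_⟩
      rw [Set.ncard_union_eq hdis hfa hf, hn, Finset.sum_insert ha,
        Set.ncard_image_of_injective _ (Prod.mk_right_injective a)]
  exact (key M (Finset.Subset.refl M)).2

variable (K : Type) [Field K] [Fintype K]

def S1 (n : ℕ) : Set (K[X] × K) := {x | x.1 ∈ Mo K n ∧ x.2 ∈ Z1 x.1}

def R2p (n : ℕ) : Set (K[X] × K × K) := {x | x.1 ∈ Mo K n ∧ x.2 ∈ Z2 x.1}

def C2p (n : ℕ) : Set (K[X] × AlgebraicClosure K) := {x | x.1 ∈ Mo K n ∧ x.2 ∈ Zc x.1}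

/-- PROOF. Sum `2 [Nodup] - (2 - 2 |Z1 f| + |Z2 f| - |Zc f|)` over all `f ∈ Mo K n` (there are `q ^ n`,
`monic_ncard`). Outside `Tl K n 3` the summand is `0` (`sieve_good`, `sieve_bad`), in `Tl K n 3` it is at
most `2 + 2 n + n ^ 2 + n ≤ 4 (n + 1) ^ 2` in absolute value (`Z_bounds`). -/
theorem sieve {n : ℕ} (hG : Good K n) :
    |2 * (N K n : ℤ) - (2 * (Fintype.card K : ℤ) ^ n - 2 * ((S1 K n).ncard : ℤ) +
      (R2p K n).ncard - (C2p K n).ncard)| ≤ 4 * ((n : ℤ) + 1) ^ 2 * (Tl K n 3).ncard := by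
  classical
  have hfin : (Mo K n).Finite := (monic_finite K n).subset fun _ hf => ⟨hf.1, hf.2.le⟩
  obtain ⟨M, hM⟩ : ∃ M : Finset K[X], ∀ f, f ∈ M ↔ f ∈ Mo K n :=
    ⟨hfin.toFinset, fun f => hfin.mem_toFinset⟩
  have hcard : (M.card : ℤ) = (Fintype.card K : ℤ) ^ n := by
    have h1 : (M : Set K[X]) = {f : K[X] | f.Monic ∧ f.natDegree = n} := by
      ext f
      exact hM f
    have h2 := monic_ncard K n
    rw [← h1, Set.ncard_coe_finset] at h2
    rw [h2]
    push_cast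
    rfl
  have hN : (N K n : ℤ) = ∑ f ∈ M, if (cv f).Nodup then (1 : ℤ) else 0 := by
    rw [N_eq K hG, Finset.sum_boole]
    have h1 : {f | f ∈ Mo K n ∧ (cv f).Nodup} =
        ((M.filter fun f => (cv f).Nodup : Finset K[X]) : Set K[X]) := by
      ext f
      rw [Finset.coe_filter]
      change f ∈ Mo K n ∧ (cv f).Nodup ↔ f ∈ M ∧ (cv f).Nodup
      rw [hM]
    rw [h1, Set.ncard_coe_finset]
  have hS1 : ((S1 K n).ncard : ℤ) = ∑ f ∈ M, ((Z1 f).ncard : ℤ) := by
    have h1 : S1 K n = {x : K[X] × K | x.1 ∈ M ∧ x.2 ∈ Z1 x.1} := by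
      ext x
      change x.1 ∈ Mo K n ∧ _ ↔ x.1 ∈ M ∧ _
      rw [hM]
    rw [h1, M2_fib M Z1 fun f hf => (Z_bounds ((hM f).1 hf)).1]
    push_cast
    rfl
  have hS2 : ((R2p K n).ncard : ℤ) = ∑ f ∈ M, ((Z2 f).ncard : ℤ) := by
    have h1 : R2p K n = {x : K[X] × K × K | x.1 ∈ M ∧ x.2 ∈ Z2 x.1} := by
      ext x
      change x.1 ∈ Mo K n ∧ _ ↔ x.1 ∈ M ∧ _
      rw [hM]
    rw [h1, M2_fib M Z2 fun f hf => (Z_bounds ((hM f).1 hf)).2.1]
    push_cast
    rfl
  have hS3 : ((C2p K n).ncard : ℤ) = ∑ f ∈ M, ((Zc f).ncard : ℤ) := by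
    have h1 : C2p K n = {x : K[X] × AlgebraicClosure K | x.1 ∈ M ∧ x.2 ∈ Zc x.1} := by
      ext x
      change x.1 ∈ Mo K n ∧ _ ↔ x.1 ∈ M ∧ _
      rw [hM]
    rw [h1, M2_fib M Zc fun f hf => (Z_bounds ((hM f).1 hf)).2.2.1]
    push_cast
    rfl
  set g : K[X] → ℤ := fun f => 2 * (if (cv f).Nodup then (1 : ℤ) else 0) -
    (2 - 2 * ((Z1 f).ncard : ℤ) + (Z2 f).ncard - (Zc f).ncard) with hg
  have hsum : 2 * (N K n : ℤ) - (2 * (Fintype.card K : ℤ) ^ n - 2 * ((S1 K n).ncard : ℤ) +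
      (R2p K n).ncard - (C2p K n).ncard) = ∑ f ∈ M, g f := by
    rw [hN, hS1, hS2, hS3, ← hcard, hg, Finset.sum_sub_distrib, Finset.sum_sub_distrib,
      Finset.sum_add_distrib, Finset.sum_sub_distrib, ← Finset.mul_sum, ← Finset.mul_sum,
      Finset.sum_const, nsmul_eq_mul]
    ring
  have hg0 : ∀ f ∈ M, f ∉ Tl K n 3 → g f = 0 := by
    intro f hf h3
    have hf' := (hM f).1 hf
    by_cases h : (cv f).Nodup
    · obtain ⟨h1, h2, h4⟩ := sieve_good hf' h3 h
      simp only [hg]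
      rw [if_pos h, h1, h2, h4, Set.ncard_empty, Set.ncard_empty, Set.ncard_empty]
      norm_num
    · have h1 := sieve_bad hf' h3 h
      simp only [hg]
      rw [if_neg h]
      linarith
  have hgb : ∀ f ∈ M, |g f| ≤ 4 * ((n : ℤ) + 1) ^ 2 := by
    intro f hf
    have hf' := (hM f).1 hf
    obtain ⟨-, -, -, b1, b2, b3⟩ := Z_bounds hf'
    have c1 : ((Z1 f).ncard : ℤ) ≤ n := by exact_mod_cast b1
    have c2 : ((Z2 f).ncard : ℤ) ≤ (n : ℤ) ^ 2 := by exact_mod_cast b2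
    have c3 : ((Zc f).ncard : ℤ) ≤ n := by exact_mod_cast b3
    have d1 : (0 : ℤ) ≤ (Z1 f).ncard := Int.natCast_nonneg _
    have d2 : (0 : ℤ) ≤ (Z2 f).ncard := Int.natCast_nonneg _
    have d3 : (0 : ℤ) ≤ (Zc f).ncard := Int.natCast_nonneg _
    have d4 : (0 : ℤ) ≤ n := Int.natCast_nonneg _
    simp only [hg]
    rw [abs_le]
    split_ifs
    · constructor <;> nlinarith
    · constructor <;> nlinarith
  rw [hsum]
  have hTl : (M.filter fun f => f ∈ Tl K n 3).card ≤ (Tl K n 3).ncard := by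
    rw [← Set.ncard_coe_finset]
    refine Set.ncard_le_ncard ?_ (hfin.subset fun f hf => hf.1)
    intro f hf
    rw [Finset.coe_filter] at hf
    exact hf.2
  have h1 : ∑ f ∈ M, g f = ∑ f ∈ M.filter (fun f => f ∈ Tl K n 3), g f := by
    rw [Finset.sum_filter]
    refine Finset.sum_congr rfl fun f hf => ?_
    split_ifs with h
    · rfl
    · exact hg0 f hf h
  rw [h1]
  refine (Finset.abs_sum_le_sum_abs _ _).trans ?_
  refine (Finset.sum_le_card_nsmul _ _ (4 * ((n : ℤ) + 1) ^ 2) fun f hf =>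
    hgb f (Finset.mem_filter.1 hf).1).trans ?_
  rw [nsmul_eq_mul, mul_comm]
  refine mul_le_mul_of_nonneg_left ?_ (by positivity)
  exact_mod_cast hTl

end SBr
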