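import Pool.Agent.H.MP_cc3311_ag.M3
import Pool.Agent.H.MP_cc3311_ag.M2

/-!
# MP_cc3311_ag, M3b: the first sum of the sieve
-/

set_option autoImplicit false

namespace SBr

open Polynomial

/-- PROOF. The bijection `(f, v) ↦ GG n f v` (`GG_inj`, `GG_surj`), `GG_up`, `cnt_add`. -/
theorem S1_ncard (K : Type) [Field K] [Fintype K] {n : ℕ} (hG : Good K n) :
    (S1 K n).ncard = (E2 K (n + 1)).ncard := by
  have hGA : Good (AlgebraicClosure K) n := Lj_good K hG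
  have hup : ∀ f ∈ Mo K n, up f ∈ Mo (AlgebraicClosure K) n := by
    rintro f ⟨h1, h2⟩
    exact ⟨h1.map _, by rw [up_natDegree, h2]⟩
  have hiff : ∀ f ∈ Mo K n, ∀ v : K,
      (v ∈ Z1 f ↔ nd (up (GG n f v)).roots + 2 ≤ n + 1) := by
    intro f hf v
    have h1 := cnt_add hGA (hup f hf) (algebraMap K (AlgebraicClosure K) v)
    rw [GG_up]
    have h2 : v ∈ Z1 f ↔ 2 ≤ cnt (algebraMap K (AlgebraicClosure K) v) (cvO (up f)) := Iff.rfl
    rw [h2]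
    omega
  have himg : E2 K (n + 1) = (fun x : K[X] × K => GG n x.1 x.2) '' S1 K n := by
    ext G
    constructor
    · rintro ⟨h1, h2⟩
      obtain ⟨f, hf, v, rfl⟩ := GG_surj hG h1
      exact ⟨(f, v), ⟨hf, (hiff f hf v).2 h2⟩, rfl⟩
    · rintro ⟨⟨f, v⟩, ⟨hf, hv⟩, rfl⟩
      exact ⟨GG_mem hG hf v, (hiff f hf v).1 hv⟩
  rw [himg, Set.InjOn.ncard_image]
  rintro ⟨f, v⟩ ⟨hf, _⟩ ⟨f', v'⟩ ⟨hf', _⟩ h
  have h1 := GG_inj hG hf hf' h
  exact Prod.ext h1.1 h1.2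

end SBr
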