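import Pool.Agent.H.MP_cc3311_ag.M4b

/-!
# MP_cc3311_ag, M4: monic polynomials of excess at least two
-/

set_option autoImplicit false

namespace SBr

open Polynomial

variable (K : Type) [Field K] [Fintype K]

theorem M4_split {m : ℕ} (hm : 2 ≤ m) :
    (Mo K m).ncard = (Sq K m).ncard + (∑ a : K, (tt K a (m - 2)).ncard) + (E2 K m).ncard := by
  obtain ⟨j, rfl⟩ : ∃ j, m = j + 2 := ⟨m - 2, by omega⟩
  have hfin : (Mo K (j + 2)).Finite := by
    have : (Mo K (j + 2)).ncard = Fintype.card K ^ (j + 2) := monic_ncard K (j + 2)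
    exact Set.finite_of_ncard_pos (this ▸ pow_pos Fintype.card_pos _)
  have h0 : Sq K (j + 2) = {G | G ∈ Mo K (j + 2) ∧ nd (up G).roots = j + 2} := by
    ext G
    constructor
    · rintro ⟨h1, h2, h3⟩
      exact ⟨⟨h1, h2⟩, (excess_zero K ⟨h1, h2⟩).2 h3⟩
    · rintro ⟨h1, h2⟩
      exact ⟨h1.1, h1.2, (excess_zero K h1).1 h2⟩
  have h1 : (∑ a : K, (tt K a (j + 2 - 2)).ncard) =
      {G | G ∈ Mo K (j + 2) ∧ nd (up G).roots + 1 = j + 2}.ncard := by
    rw [excess_one_card K j, Nat.add_sub_cancel]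
  have hu : Mo K (j + 2) = (Sq K (j + 2) ∪ {G | G ∈ Mo K (j + 2) ∧ nd (up G).roots + 1 = j + 2}) ∪
      E2 K (j + 2) := by
    rw [h0]
    ext G
    constructor
    · intro hG
      have h2 : nd (up G).roots ≤ j + 2 := (M4b_nd_le _).trans (M4b_card hG).le
      rcases Nat.lt_or_ge (nd (up G).roots + 1) (j + 2) with h | h
      · exact Or.inr ⟨hG, by omega⟩
      · rcases h2.eq_or_lt with h3 | h3
        · exact Or.inl (Or.inl ⟨hG, h3⟩)
        · exact Or.inl (Or.inr ⟨hG, by omega⟩)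
    · rintro ((h | h) | h) <;> exact h.1
  have hd1 : Disjoint (Sq K (j + 2)) {G | G ∈ Mo K (j + 2) ∧ nd (up G).roots + 1 = j + 2} := by
    rw [h0, Set.disjoint_left]
    rintro G ⟨_, h⟩ ⟨_, h'⟩
    omega
  have hd2 : Disjoint (Sq K (j + 2) ∪ {G | G ∈ Mo K (j + 2) ∧ nd (up G).roots + 1 = j + 2})
      (E2 K (j + 2)) := by
    rw [h0, Set.disjoint_left]
    rintro G (⟨_, h⟩ | ⟨_, h⟩) ⟨_, h'⟩ <;> omega
  have hf1 : (Sq K (j + 2)).Finite := hfin.subset (by rw [h0]; exact fun G h => h.1)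
  have hf2 : {G | G ∈ Mo K (j + 2) ∧ nd (up G).roots + 1 = j + 2}.Finite :=
    hfin.subset fun G h => h.1
  have hf3 : (E2 K (j + 2)).Finite := hfin.subset fun G h => h.1
  rw [h1]
  conv_lhs => rw [hu]
  rw [Set.ncard_union_eq hd2 (hf1.union hf2) hf3, Set.ncard_union_eq hd1 hf1 hf2]

/-- `|E2| = q ^ m - s_m - (number of excess 1)`, with `s_m = q ^ m - q ^ (m - 1)`; `tt_bounds`. -/
theorem E2_bounds {m : ℕ} (hm : 6 ≤ m) :
    2 * (Fintype.card K : ℤ) ^ (m - 2) - 2 * (Fintype.card K : ℤ) ^ (m - 3) ≤ (E2 K m).ncard ∧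
    ((E2 K m).ncard : ℤ) ≤ 2 * (Fintype.card K : ℤ) ^ (m - 2) -
      2 * (Fintype.card K : ℤ) ^ (m - 3) + 2 * (Fintype.card K : ℤ) ^ (m - 4) := by
  obtain ⟨j, rfl⟩ : ∃ j, m = j + 6 := ⟨m - 6, by omega⟩
  have hs := M4_split K (m := j + 6) (by omega)
  have hq : (Mo K (j + 6)).ncard = Fintype.card K ^ (j + 6) := monic_ncard K (j + 6)
  have hsq := sq_gen K (n := j + 6) (by omega)
  rw [hq] at hs
  have hs' : ((Fintype.card K : ℤ)) ^ (j + 6) = ((Sq K (j + 6)).ncard : ℤ) +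
      (∑ a : K, ((tt K a (j + 6 - 2)).ncard : ℤ)) + ((E2 K (j + 6)).ncard : ℤ) := by
    exact_mod_cast hs
  have hb : ∀ a : K, _ := fun a => tt_bounds K a (j := j + 6 - 2) (by omega)
  have hlo := Finset.sum_le_sum fun a (_ : a ∈ (Finset.univ : Finset K)) => (hb a).1
  have hhi := Finset.sum_le_sum fun a (_ : a ∈ (Finset.univ : Finset K)) => (hb a).2
  simp only [Finset.sum_const, Finset.card_univ, nsmul_eq_mul] at hlo hhi
  have e1 : j + 6 - 1 = j + 5 := by omega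
  have e2 : j + 6 - 2 = j + 4 := by omega
  have e3 : j + 6 - 3 = j + 3 := by omega
  have e4 : j + 6 - 4 = j + 2 := by omega
  have e5 : j + 4 - 1 = j + 3 := by omega
  have e6 : j + 4 - 2 = j + 2 := by omega
  have e7 : j + 4 - 3 = j + 1 := by omega
  rw [e1] at hsq
  rw [e2] at hs'
  rw [e2, e5, e6] at hhi
  rw [e2, e5, e6, e7] at hlo
  rw [e2, e3, e4]
  set q : ℤ := (Fintype.card K : ℤ) with hqdef
  have p5 : q * q ^ (j + 4) = q ^ (j + 5) := by ring
  have p4 : q * q ^ (j + 3) = q ^ (j + 4) := by ring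
  have p3 : q * q ^ (j + 2) = q ^ (j + 3) := by ring
  have p2 : q * q ^ (j + 1) = q ^ (j + 2) := by ring
  constructor
  · nlinarith [hhi, hs', hsq, p5, p4, p3]
  · nlinarith [hlo, hs', hsq, p5, p4, p3, p2]

end SBr
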