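import Pool.Agent.H.MP_cc3311_ag.M6a1

/-!
# MP_cc3311_ag, M6a: comparison of `R2p` and `R2`
-/

set_option autoImplicit false

namespace SBr

open Polynomial

variable (K : Type) [Field K] [Fintype K]

/-- Counting a set of pairs by the fibres of the first projection. -/
theorem M6a_fib {α β : Type} (S : Finset α) (A : Set (α × β)) (hS : ∀ x ∈ A, x.1 ∈ S)
    (hfin : ∀ a ∈ S, {b | (a, b) ∈ A}.Finite) :
    A.ncard = ∑ a ∈ S, {b | (a, b) ∈ A}.ncard := by
  classical
  have hA : A.Finite := by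
    refine (S.finite_toSet.biUnion fun a ha => (hfin a ha).image fun b => (a, b)).subset ?_
    intro x hx
    simp only [Set.mem_iUnion, Set.mem_image]
    exact ⟨x.1, hS x hx, x.2, hx, rfl⟩
  rw [Set.ncard_eq_toFinset_card A hA,
    Finset.card_eq_sum_card_fiberwise (f := Prod.fst) (t := S)
      (fun x hx => hS x (hA.mem_toFinset.1 hx))]
  refine Finset.sum_congr rfl fun a ha => ?_
  have hinj : Function.Injective (fun b : β => (a, b)) := fun b b' h => (Prod.mk.inj h).2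
  rw [← Set.ncard_image_of_injective _ hinj, ← Set.ncard_coe_finset]
  congr 1
  ext x
  simp only [Finset.coe_filter, Set.Finite.mem_toFinset, Set.mem_image]
  constructor
  · rintro ⟨h1, h2⟩
    exact ⟨x.2, by rw [← h2]; exact h1, by rw [← h2]⟩
  · rintro ⟨b, hb, rfl⟩
    exact ⟨hb, rfl⟩

/-- Sum over `f` and `(v, v')`: the two numbers agree outside `Tl K n 3`, and for `f ∈ Tl K n 3` the
contributions are at most `n ^ 2` and `n ^ 2 * 4 (n + 1) ^ 4` (`Z_bounds`). -/
theorem R2_approx {n : ℕ} (hG : Good K n) :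
    |((R2p K n).ncard : ℤ) - (R2 K n).ncard| ≤ 4 * ((n : ℤ) + 1) ^ 6 * (Tl K n 3).ncard := by
  classical
  obtain ⟨S, hS⟩ : ∃ S : Finset K[X], ∀ f, f ∈ S ↔ f ∈ Mo K n :=
    ⟨(Mo_finite K n).toFinset, fun f => (Mo_finite K n).mem_toFinset⟩
  have hR2p : (R2p K n).ncard = ∑ f ∈ S, (Z2 f).ncard := by
    rw [M6a_fib S (R2p K n) (fun x hx => (hS _).2 hx.1) (fun f _ => Set.toFinite _)]
    refine Finset.sum_congr rfl fun f hf => ?_
    congr 1
    ext v
    exact ⟨fun h => h.2, fun h => ⟨(hS f).1 hf, h⟩⟩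
  have hR2 : (R2 K n).ncard = ∑ f ∈ S, ∑ v : K × K,
      {y : K[X] × K[X] | ((f, v), y) ∈ R2 K n}.ncard := by
    rw [M6a_fib (S ×ˢ Finset.univ) (R2 K n)
      (fun x hx => Finset.mem_product.2 ⟨(hS _).2 hx.1, Finset.mem_univ _⟩)
      (fun a ha => (R2_fibre_le K hG ((hS _).1 (Finset.mem_product.1 ha).1) a.2.1 a.2.2).1),
      Finset.sum_product]
  have hT : (Tl K n 3).ncard = (S.filter fun f => f ∈ Tl K n 3).card := by
    rw [← Set.ncard_coe_finset]
    congr 1
    ext f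
    simp only [Finset.coe_filter]
    exact ⟨fun h => ⟨(hS f).2 h.1, h⟩, fun h => h.2⟩
  have hZ : ∀ f : K[X], ((Z2 f).ncard : ℤ) = ∑ v : K × K, if v ∈ Z2 f then (1 : ℤ) else 0 := by
    intro f
    rw [Finset.sum_boole, Set.ncard_eq_toFinset_card' (Z2 f)]
    congr 2
    ext v
    simp
  have key : ∀ f ∈ S, |((Z2 f).ncard : ℤ) -
      ∑ v : K × K, ({y : K[X] × K[X] | ((f, v), y) ∈ R2 K n}.ncard : ℤ)| ≤
      if f ∈ Tl K n 3 then 4 * ((n : ℤ) + 1) ^ 6 else 0 := by
    intro f hf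
    have hf' := (hS f).1 hf
    rw [hZ, ← Finset.sum_sub_distrib]
    split_ifs with h3
    · have h1 : ∀ v : K × K, |(if v ∈ Z2 f then (1 : ℤ) else 0) -
          ({y : K[X] × K[X] | ((f, v), y) ∈ R2 K n}.ncard : ℤ)| ≤
          (if v ∈ Z2 f then (1 : ℤ) else 0) * (4 * ((n : ℤ) + 1) ^ 4) := by
        intro v
        obtain ⟨a1, a2, a3⟩ := R2_fibre_le K hG hf' v.1 v.2
        by_cases hv : v ∈ Z2 f
        · rw [if_pos hv, one_mul, abs_le]
          have a2' : (({y : K[X] × K[X] | ((f, v), y) ∈ R2 K n}.ncard : ℕ) : ℤ) ≤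
              4 * ((n : ℤ) + 1) ^ 4 := by exact_mod_cast a2
          have hpos : (1 : ℤ) ≤ 4 * ((n : ℤ) + 1) ^ 4 := by
            have : (1 : ℤ) ≤ ((n : ℤ) + 1) ^ 4 := one_le_pow₀ (by linarith [Int.natCast_nonneg n])
            linarith
          have h0 : (0 : ℤ) ≤ ({y : K[X] × K[X] | ((f, v), y) ∈ R2 K n}.ncard : ℕ) :=
            Int.natCast_nonneg _
          constructor <;> linarith
        · rw [if_neg hv, zero_mul]
          have : {y : K[X] × K[X] | ((f, v), y) ∈ R2 K n} = ∅ := a3 hv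
          rw [this, Set.ncard_empty]
          simp
      refine (Finset.abs_sum_le_sum_abs _ _).trans ((Finset.sum_le_sum fun v _ => h1 v).trans ?_)
      rw [← Finset.sum_mul, ← hZ]
      have h2 : ((Z2 f).ncard : ℤ) ≤ (n : ℤ) ^ 2 := by
        exact_mod_cast (Z_bounds hf').2.2.2.2.1
      have h4 : (0 : ℤ) ≤ 4 * ((n : ℤ) + 1) ^ 4 := by positivity
      calc ((Z2 f).ncard : ℤ) * (4 * ((n : ℤ) + 1) ^ 4) ≤ (n : ℤ) ^ 2 * (4 * ((n : ℤ) + 1) ^ 4) :=
            mul_le_mul_of_nonneg_right h2 h4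
        _ ≤ ((n : ℤ) + 1) ^ 2 * (4 * ((n : ℤ) + 1) ^ 4) := by
            refine mul_le_mul_of_nonneg_right ?_ h4
            exact pow_le_pow_left₀ (Int.natCast_nonneg n) (by linarith) 2
        _ = 4 * ((n : ℤ) + 1) ^ 6 := by ring
    · have h1 : ∀ v : K × K, (if v ∈ Z2 f then (1 : ℤ) else 0) -
          ({y : K[X] × K[X] | ((f, v), y) ∈ R2 K n}.ncard : ℤ) = 0 := by
        intro v
        obtain ⟨a1, a2, a3⟩ := R2_fibre_le K hG hf' v.1 v.2
        by_cases hv : v ∈ Z2 f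
        · have := (R2_fibre K hG hf' h3 (v := v.1) (v' := v.2) hv.1).1 hv
          rw [if_pos hv]
          have h2 : {y : K[X] × K[X] | ((f, v), y) ∈ R2 K n}.ncard = 1 := this
          rw [h2]
          norm_num
        · rw [if_neg hv]
          have : {y : K[X] × K[X] | ((f, v), y) ∈ R2 K n} = ∅ := a3 hv
          rw [this, Set.ncard_empty]
          simp
      rw [Finset.sum_congr rfl fun v _ => h1 v]
      simp
  rw [hR2p, hR2, hT]
  push_cast
  rw [← Finset.sum_sub_distrib]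
  refine (Finset.abs_sum_le_sum_abs _ _).trans ((Finset.sum_le_sum key).trans ?_)
  rw [Finset.sum_ite, Finset.sum_const_zero, add_zero, Finset.sum_const, nsmul_eq_mul, mul_comm]

end SBr
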