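import Pool.Agent.H.MP_cc3311_ag.M6b1
import Pool.Agent.H.MP_cc3311_ag.M6a

/-!
# MP_cc3311_ag, M6b: comparison of `C2p` and `C2`
-/

set_option autoImplicit false

namespace SBr

open Polynomial

variable (K : Type) [Field K] [Fintype K]

/-- Sum over `f` and `v`, as in `R2_approx` of M6a. -/
theorem C2_approx {n : ℕ} (hG : Good K n) :
    |((C2p K n).ncard : ℤ) - (C2 K n).ncard| ≤ 2 * ((n : ℤ) + 1) ^ 3 * (Tl K n 3).ncard := by
  classical
  obtain ⟨S, hS⟩ : ∃ S : Finset K[X], ∀ f, f ∈ S ↔ f ∈ Mo K n :=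
    ⟨(Mo_finite K n).toFinset, fun f => (Mo_finite K n).mem_toFinset⟩
  have hZfin : ∀ f ∈ S, (Zc f).Finite := fun f hf => (Z_bounds ((hS f).1 hf)).2.2.1
  obtain ⟨V, hV⟩ : ∃ V : Finset (AlgebraicClosure K), ∀ f ∈ S, ∀ v ∈ Zc f, v ∈ V := by
    have hfin : (⋃ f ∈ (S : Set K[X]), Zc f).Finite :=
      S.finite_toSet.biUnion fun f hf => hZfin f hf
    refine ⟨hfin.toFinset, fun f hf v hv => ?_⟩
    rw [Set.Finite.mem_toFinset]
    simp only [Set.mem_iUnion]
    exact ⟨f, hf, hv⟩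
  have hC2p : (C2p K n).ncard = ∑ f ∈ S, (Zc f).ncard := by
    have hsec : ∀ f ∈ S, {b | (f, b) ∈ C2p K n} = Zc f := by
      intro f hf
      ext v
      exact ⟨fun h => h.2, fun h => ⟨(hS f).1 hf, h⟩⟩
    rw [M6a_fib S (C2p K n) (fun x hx => (hS _).2 hx.1) (fun f hf => by
      rw [hsec f hf]; exact hZfin f hf)]
    exact Finset.sum_congr rfl fun f hf => by rw [hsec f hf]
  have hC2 : (C2 K n).ncard = ∑ f ∈ S, ∑ v ∈ V,
      {y : (AlgebraicClosure K)[X] | ((f, v), y) ∈ C2 K n}.ncard := by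
    rw [M6a_fib (S ×ˢ V) (C2 K n)
      (fun x hx => by
        have hf : x.1.1 ∈ Mo K n := hx.1
        refine Finset.mem_product.2 ⟨(hS _).2 hf, hV x.1.1 ((hS _).2 hf) x.1.2 ?_⟩
        by_contra hv
        have h1 := (C2_fibre_le K hG hf x.1.2).2.2 hv
        have h2 : x.2 ∈ {y : (AlgebraicClosure K)[X] | ((x.1.1, x.1.2), y) ∈ C2 K n} := hx
        rw [h1] at h2
        exact h2)
      (fun a ha => (C2_fibre_le K hG ((hS _).1 (Finset.mem_product.1 ha).1) a.2).1),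
      Finset.sum_product]
  have hT : (Tl K n 3).ncard = (S.filter fun f => f ∈ Tl K n 3).card := by
    rw [← Set.ncard_coe_finset]
    congr 1
    ext f
    simp only [Finset.coe_filter]
    exact ⟨fun h => ⟨(hS f).2 h.1, h⟩, fun h => h.2⟩
  have hZ : ∀ f ∈ S, ((Zc f).ncard : ℤ) = ∑ v ∈ V, if v ∈ Zc f then (1 : ℤ) else 0 := by
    intro f hf
    rw [Finset.sum_boole, ← Set.ncard_coe_finset]
    congr 2
    ext v
    simp only [Finset.coe_filter]
    exact ⟨fun h => ⟨hV f hf v h, h⟩, fun h => h.2⟩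
  have key : ∀ f ∈ S, |((Zc f).ncard : ℤ) -
      ∑ v ∈ V, ({y : (AlgebraicClosure K)[X] | ((f, v), y) ∈ C2 K n}.ncard : ℤ)| ≤
      if f ∈ Tl K n 3 then 2 * ((n : ℤ) + 1) ^ 3 else 0 := by
    intro f hf
    have hf' := (hS f).1 hf
    rw [hZ f hf, ← Finset.sum_sub_distrib]
    split_ifs with h3
    · have h1 : ∀ v ∈ V, |(if v ∈ Zc f then (1 : ℤ) else 0) -
          ({y : (AlgebraicClosure K)[X] | ((f, v), y) ∈ C2 K n}.ncard : ℤ)| ≤
          (if v ∈ Zc f then (1 : ℤ) else 0) * (2 * ((n : ℤ) + 1) ^ 2) := by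
        intro v _
        obtain ⟨a1, a2, a3⟩ := C2_fibre_le K hG hf' v
        by_cases hv : v ∈ Zc f
        · rw [if_pos hv, one_mul, abs_le]
          have a2' : (({y : (AlgebraicClosure K)[X] | ((f, v), y) ∈ C2 K n}.ncard : ℕ) : ℤ) ≤
              2 * ((n : ℤ) + 1) ^ 2 := by exact_mod_cast a2
          have hpos : (1 : ℤ) ≤ 2 * ((n : ℤ) + 1) ^ 2 := by
            have : (1 : ℤ) ≤ ((n : ℤ) + 1) ^ 2 := one_le_pow₀ (by linarith [Int.natCast_nonneg n])
            linarith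
          have h0 : (0 : ℤ) ≤ ({y : (AlgebraicClosure K)[X] | ((f, v), y) ∈ C2 K n}.ncard : ℕ) :=
            Int.natCast_nonneg _
          constructor <;> linarith
        · rw [if_neg hv, zero_mul]
          have : {y : (AlgebraicClosure K)[X] | ((f, v), y) ∈ C2 K n} = ∅ := a3 hv
          rw [this, Set.ncard_empty]
          simp
      refine (Finset.abs_sum_le_sum_abs _ _).trans ((Finset.sum_le_sum h1).trans ?_)
      rw [← Finset.sum_mul, ← hZ f hf]
      have h2 : ((Zc f).ncard : ℤ) ≤ (n : ℤ) := by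
        exact_mod_cast (Z_bounds hf').2.2.2.2.2
      have h4 : (0 : ℤ) ≤ 2 * ((n : ℤ) + 1) ^ 2 := by positivity
      calc ((Zc f).ncard : ℤ) * (2 * ((n : ℤ) + 1) ^ 2) ≤ (n : ℤ) * (2 * ((n : ℤ) + 1) ^ 2) :=
            mul_le_mul_of_nonneg_right h2 h4
        _ ≤ ((n : ℤ) + 1) * (2 * ((n : ℤ) + 1) ^ 2) :=
            mul_le_mul_of_nonneg_right (by linarith) h4
        _ = 2 * ((n : ℤ) + 1) ^ 3 := by ring
    · have h1 : ∀ v ∈ V, (if v ∈ Zc f then (1 : ℤ) else 0) -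
          ({y : (AlgebraicClosure K)[X] | ((f, v), y) ∈ C2 K n}.ncard : ℤ) = 0 := by
        intro v _
        obtain ⟨a1, a2, a3⟩ := C2_fibre_le K hG hf' v
        by_cases hv : v ∈ Zc f
        · have := (C2_fibre K hG hf' h3 v).1 hv
          rw [if_pos hv]
          have h2 : {y : (AlgebraicClosure K)[X] | ((f, v), y) ∈ C2 K n}.ncard = 1 := this
          rw [h2]
          norm_num
        · rw [if_neg hv]
          have : {y : (AlgebraicClosure K)[X] | ((f, v), y) ∈ C2 K n} = ∅ := a3 hv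
          rw [this, Set.ncard_empty]
          simp
      rw [Finset.sum_congr rfl h1]
      simp
  rw [hC2p, hC2, hT]
  push_cast
  rw [← Finset.sum_sub_distrib]
  refine (Finset.abs_sum_le_sum_abs _ _).trans ((Finset.sum_le_sum key).trans ?_)
  rw [Finset.sum_ite, Finset.sum_const_zero, add_zero, Finset.sum_const, nsmul_eq_mul, mul_comm]

end SBr
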