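import Pool.Agent.H.MP_cc3311_ag.M11
import Pool.Agent.H.MP_cc3311_ag.M6a
import Pool.Agent.H.MP_cc3311_ag.M6b
import Pool.Agent.H.MP_cc3311_ag.M3b
import Pool.Agent.H.MP_cc3311_ag.M4
import Pool.Agent.H.MP_cc3311_ag.G0

/-!
# MP_cc3311_ag, M12: the first three terms
-/

set_option autoImplicit false

namespace SBr

open Polynomial

theorem M12_roots {K : Type} [Field K] {P : K[X]} (hP : P ≠ 0) :
    {x : K | P.eval x = 0}.ncard ≤ P.natDegree := by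
  classical
  have h1 : {x : K | P.eval x = 0} = (P.roots.toFinset : Set K) := by
    ext x
    rw [Finset.mem_coe, Multiset.mem_toFinset, mem_roots hP]
    rfl
  rw [h1, Set.ncard_coe_finset]
  exact (Multiset.toFinset_card_le _).trans (card_roots' _)

theorem M12_c2 (K : Type) [Field K] : c2 K ≤ 2 := by
  have h0 : (X ^ 2 + C 1 : K[X]) ≠ 0 := (monic_X_pow_add_C (1 : K) two_ne_zero).ne_zero
  have h1 := M12_roots h0
  rw [natDegree_X_pow_add_C] at h1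
  have h2 : {x : K | x ^ 2 = -1} = {x : K | (X ^ 2 + C 1 : K[X]).eval x = 0} := by
    ext x
    change x ^ 2 = -1 ↔ (X ^ 2 + C 1 : K[X]).eval x = 0
    rw [eval_add, eval_pow, eval_X, eval_C, eq_neg_iff_add_eq_zero]
  unfold c2
  rw [h2]
  exact h1

theorem M12_c3 (K : Type) [Field K] : c3 K ≤ 3 := by
  have h0 : (X ^ 3 + C (-2) : K[X]) ≠ 0 := (monic_X_pow_add_C (-2 : K) three_ne_zero).ne_zero
  have h1 := M12_roots h0
  rw [natDegree_X_pow_add_C] at h1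
  have h2 : {x : K | x ^ 3 = 2} = {x : K | (X ^ 3 + C (-2) : K[X]).eval x = 0} := by
    ext x
    change x ^ 3 = 2 ↔ (X ^ 3 + C (-2) : K[X]).eval x = 0
    rw [eval_add, eval_pow, eval_X, eval_C, ← sub_eq_add_neg, sub_eq_zero]
  unfold c3
  rw [h2]
  exact h1

/-- `sieve`, `S1_ncard`, `E2_bounds`, `R2_approx`, `R2_eq_Q2`, `Q2_asymp`, `C2_approx`, `C2_eq_P2`,
`exists_theta`, `P2_asymp`, `tail_bound`. -/
theorem three_terms_large (n : ℕ) (hn : 6 ≤ n) : ∃ c : ℤ, ∀ (K : Type) [Field K] [Fintype K],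
    Good K n → |(N K n : ℤ) - ((Fintype.card K : ℤ) ^ n - 2 * (Fintype.card K : ℤ) ^ (n - 1) +
      3 * (Fintype.card K : ℤ) ^ (n - 2))| ≤ c * (Fintype.card K : ℤ) ^ (n - 3) := by
  obtain ⟨cQ, hcQ⟩ := Q2_asymp n hn
  obtain ⟨cP, hcP⟩ := P2_asymp n hn
  refine ⟨4 * ((n : ℤ) + 1) ^ 2 * cT n + 4 + 4 * ((n : ℤ) + 1) ^ 6 * cT n + cQ +
    2 * ((n : ℤ) + 1) ^ 3 * cT n + cP, ?_⟩
  intro K _ _ hG
  obtain ⟨θ, h1, h2⟩ := exists_theta K
  have hs := sieve K hG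
  have hS := S1_ncard K hG
  obtain ⟨hE1, hE2⟩ := E2_bounds K (m := n + 1) (by omega)
  have hR := R2_approx K hG
  have hRQ := R2_eq_Q2 K hG
  have hQ := hcQ K hG
  have hC := C2_approx K hG
  have hCP := C2_eq_P2 K hG h1 h2
  have hP := hcP K hG θ h1 h2
  have hT0 := tail_bound K hG (show 3 ≤ n by omega)
  have hT : ((Tl K n 3).ncard : ℤ) ≤ (cT n : ℤ) * (Fintype.card K : ℤ) ^ (n - 3) := by
    exact_mod_cast hT0
  rw [← hRQ] at hQ
  rw [← hCP] at hP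
  rw [← hS] at hE1 hE2
  have e1 : n + 1 - 2 = n - 1 := by omega
  have e2 : n + 1 - 3 = n - 2 := by omega
  have e3 : n + 1 - 4 = n - 3 := by omega
  rw [e1, e2] at hE1
  rw [e1, e2, e3] at hE2
  have k1 : 4 * ((n : ℤ) + 1) ^ 2 * (Tl K n 3).ncard ≤
      4 * ((n : ℤ) + 1) ^ 2 * ((cT n : ℤ) * (Fintype.card K : ℤ) ^ (n - 3)) :=
    mul_le_mul_of_nonneg_left hT (by positivity)
  have k2 : 4 * ((n : ℤ) + 1) ^ 6 * (Tl K n 3).ncard ≤
      4 * ((n : ℤ) + 1) ^ 6 * ((cT n : ℤ) * (Fintype.card K : ℤ) ^ (n - 3)) :=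
    mul_le_mul_of_nonneg_left hT (by positivity)
  have k3 : 2 * ((n : ℤ) + 1) ^ 3 * (Tl K n 3).ncard ≤
      2 * ((n : ℤ) + 1) ^ 3 * ((cT n : ℤ) * (Fintype.card K : ℤ) ^ (n - 3)) :=
    mul_le_mul_of_nonneg_left hT (by positivity)
  have ht : (0 : ℤ) ≤ (Fintype.card K : ℤ) ^ (n - 3) := by positivity
  obtain ⟨t, htdef⟩ : ∃ t : ℤ, t = (Fintype.card K : ℤ) ^ (n - 3) := ⟨_, rfl⟩
  rw [← htdef] at hE2 hQ hP k1 k2 k3 ht ⊢
  rw [abs_le] at hs hR hQ hC hP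
  obtain ⟨a1, a2⟩ := hs
  obtain ⟨b1, b2⟩ := hR
  obtain ⟨c1, c2⟩ := hQ
  obtain ⟨d1, d2⟩ := hC
  obtain ⟨g1, g2⟩ := hP
  have hx : |2 * ((N K n : ℤ) - ((Fintype.card K : ℤ) ^ n - 2 * (Fintype.card K : ℤ) ^ (n - 1) +
      3 * (Fintype.card K : ℤ) ^ (n - 2)))| ≤ (4 * ((n : ℤ) + 1) ^ 2 * cT n + 4 +
      4 * ((n : ℤ) + 1) ^ 6 * cT n + cQ + 2 * ((n : ℤ) + 1) ^ 3 * cT n + cP) * t := by
    rw [abs_le]
    constructor
    · linarith
    · linarith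
  rw [abs_mul, abs_two] at hx
  have h0 := abs_nonneg ((N K n : ℤ) - ((Fintype.card K : ℤ) ^ n -
    2 * (Fintype.card K : ℤ) ^ (n - 1) + 3 * (Fintype.card K : ℤ) ^ (n - 2)))
  linarith

/-- For `n = 4`, `n = 5` use `N_four`, `N_five` (`c2 K ≤ 2`, `c3 K ≤ 3`). -/
theorem three_terms (n : ℕ) (hn : 4 ≤ n) : ∃ c : ℤ, ∀ (K : Type) [Field K] [Fintype K],
    Good K n → |(N K n : ℤ) - ((Fintype.card K : ℤ) ^ n - 2 * (Fintype.card K : ℤ) ^ (n - 1) +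
      3 * (Fintype.card K : ℤ) ^ (n - 2))| ≤ c * (Fintype.card K : ℤ) ^ (n - 3) := by
  by_cases h6 : 6 ≤ n
  · exact three_terms_large n h6
  obtain rfl | rfl : n = 4 ∨ n = 5 := by omega
  · refine ⟨2, ?_⟩
    intro K _ _ hG
    rw [N_four K hG]
    have hq : (0 : ℤ) ≤ (Fintype.card K : ℤ) := by positivity
    have e : (Fintype.card K : ℤ) * (Fintype.card K - 1) *
        ((Fintype.card K : ℤ) ^ 2 - Fintype.card K + 2) - ((Fintype.card K : ℤ) ^ 4 -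
        2 * (Fintype.card K : ℤ) ^ (4 - 1) + 3 * (Fintype.card K : ℤ) ^ (4 - 2)) =
        -(2 * (Fintype.card K : ℤ)) := by
      norm_num
      ring
    rw [e, abs_neg, abs_of_nonneg (by linarith)]
    norm_num
  · refine ⟨14, ?_⟩
    intro K _ _ hG
    rw [N_five K hG]
    have hq : (1 : ℤ) ≤ (Fintype.card K : ℤ) := by
      exact_mod_cast Fintype.card_pos (α := K)
    have h2 : (c2 K : ℤ) ≤ 2 := by exact_mod_cast M12_c2 K
    have h3 : (c3 K : ℤ) ≤ 3 := by exact_mod_cast M12_c3 K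
    have h2' : (0 : ℤ) ≤ (c2 K : ℤ) := by positivity
    have h3' : (0 : ℤ) ≤ (c3 K : ℤ) := by positivity
    obtain ⟨q, hqd⟩ : ∃ q : ℤ, q = (Fintype.card K : ℤ) := ⟨_, rfl⟩
    obtain ⟨c, hcd⟩ : ∃ c : ℤ, c = (c2 K : ℤ) + c3 K := ⟨_, rfl⟩
    rw [← hqd] at hq ⊢
    have e : q * (q - 1) * (q ^ 3 - q ^ 2 + 2 * q - 7 - c2 K - c3 K) - (q ^ 5 -
        2 * q ^ (5 - 1) + 3 * q ^ (5 - 2)) = -((9 + c) * q ^ 2 - (7 + c) * q) := by
      rw [hcd]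
      norm_num
      ring
    have hc0 : 0 ≤ c := by linarith
    have hc5 : c ≤ 5 := by linarith
    have hq2 : q ≤ q ^ 2 := by nlinarith
    have hq0 : 0 ≤ q := by linarith
    have m1 : (7 + c) * q ≤ (9 + c) * q ^ 2 := by nlinarith [mul_nonneg hc0 hq0]
    have m2 : (9 + c) * q ^ 2 ≤ 14 * q ^ 2 := by nlinarith [sq_nonneg q]
    have m3 : 0 ≤ (7 + c) * q := by positivity
    rw [e, abs_neg, abs_of_nonneg (by linarith)]
    have e5 : (5 - 3 : ℕ) = 2 := rfl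
    rw [e5]
    linarith

end SBr
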