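import Pool.Agent.H.MP_cc3311_ag.M1

/-!
# MP_cc3311_ag, M2a: multiple critical values of one polynomial
-/

set_option autoImplicit false

namespace SBr

open Polynomial

variable {K : Type} [Field K] [Fintype K]

/-- Multiple critical values in `K`. -/
def Z1 (f : K[X]) : Set K := {v | 2 ≤ cnt (algebraMap K (AlgebraicClosure K) v) (cv f)}

/-- Pairs of different multiple critical values in `K`. -/
def Z2 (f : K[X]) : Set (K × K) := {x | x.1 ≠ x.2 ∧ x.1 ∈ Z1 f ∧ x.2 ∈ Z1 f}

/-- Multiple critical values in the quadratic extension, not in `K`. -/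
def Zc (f : K[X]) : Set (AlgebraicClosure K) :=
  {v | frob K (frob K v) = v ∧ frob K v ≠ v ∧ 2 ≤ cnt v (cv f)}

theorem M2a_card {n : ℕ} {f : K[X]} (hf : f ∈ Mo K n) : Multiset.card (cv f) = n := by
  unfold cv
  rw [cvO_card, up, natDegree_map]
  exact hf.2

/-- the set of multiple elements -/
theorem M2a_fin {α : Type} (s : Multiset α) : ∃ Z : Finset α, ∀ v, v ∈ Z ↔ 2 ≤ cnt v s := by
  classical
  refine ⟨s.toFinset.filter fun v => 2 ≤ cnt v s, fun v => ?_⟩
  rw [Finset.mem_filter, Multiset.mem_toFinset]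
  refine ⟨fun h => h.2, fun h => ⟨?_, h⟩⟩
  by_contra hv
  rw [M1_cnt_zero hv] at h
  omega

theorem M2a_le {α : Type} {s : Multiset α} {Z : Finset α} (hZ : ∀ v, v ∈ Z ↔ 2 ≤ cnt v s) :
    Z.card ≤ ∑ v ∈ Z, (cnt v s - 1) := by
  rw [Finset.card_eq_sum_ones]
  refine Finset.sum_le_sum fun v hv => ?_
  have := (hZ v).1 hv
  omega

/-- The number of multiple critical values is at most `n / 2`. -/
theorem Z_bounds {n : ℕ} {f : K[X]} (hf : f ∈ Mo K n) : (Z1 f).Finite ∧ (Z2 f).Finite ∧
    (Zc f).Finite ∧ (Z1 f).ncard ≤ n ∧ (Z2 f).ncard ≤ n ^ 2 ∧ (Zc f).ncard ≤ n := by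
  obtain ⟨Z, hZ⟩ := M2a_fin (cv f)
  have hc := M2a_card hf
  have h1 : Z.card ≤ n := by
    have h2 := nd_add_le (cv f) Z
    have h3 := M2a_le hZ
    omega
  have hZc : Zc f ⊆ (Z : Set (AlgebraicClosure K)) := fun v hv => (hZ v).2 hv.2.2
  have hn1 : (Z1 f).ncard ≤ n := by
    refine le_trans ?_ h1
    rw [← Set.ncard_coe_finset]
    refine Set.ncard_le_ncard_of_injOn (algebraMap K (AlgebraicClosure K)) (fun v hv => ?_)
      (fun a _ b _ hab => (algebraMap K (AlgebraicClosure K)).injective hab) Z.finite_toSet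
    exact (hZ _).2 hv
  refine ⟨Set.toFinite _, Set.toFinite _, Z.finite_toSet.subset hZc, hn1, ?_, ?_⟩
  · have h4 : Z2 f ⊆ Z1 f ×ˢ Z1 f := fun x hx => ⟨hx.2.1, hx.2.2⟩
    refine (Set.ncard_le_ncard h4 (Set.toFinite _)).trans ?_
    rw [Set.ncard_prod, sq]
    exact Nat.mul_le_mul hn1 hn1
  · refine (Set.ncard_le_ncard hZc Z.finite_toSet).trans ?_
    rw [Set.ncard_coe_finset]
    exact h1

/-- PROOF. Let `Z` be the set of the multiple critical values in the closure. It is stable under
Frobenius (`cnt_frob`) and has at most two elements (`nd_add_le`, not in `Tl K n 3`). If `Z` is empty,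
`1 = 1 - 0`; if `Z = {v}` then `v` is fixed by Frobenius, so in `K`; if `Z = {v, v'}` then either both are
fixed or they are exchanged. -/
theorem sieve_good {n : ℕ} {f : K[X]} (hf : f ∈ Mo K n) (h3 : f ∉ Tl K n 3)
    (h : (cv f).Nodup) : Z1 f = ∅ ∧ Z2 f = ∅ ∧ Zc f = ∅ := by
  classical
  have _ := hf
  have _ := h3
  have h1 : ∀ v, ¬ 2 ≤ cnt v (cv f) := by
    intro v hv
    have h2 := Multiset.nodup_iff_count_le_one.1 h v
    have h4 : cnt v (cv f) = (cv f).count v := by
      unfold cnt
      congr
    omega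
  refine ⟨Set.eq_empty_of_forall_notMem fun v hv => h1 _ hv,
    Set.eq_empty_of_forall_notMem fun x hx => h1 _ hx.2.1,
    Set.eq_empty_of_forall_notMem fun v hv => h1 _ hv.2.2⟩

theorem sieve_bad {n : ℕ} {f : K[X]} (hf : f ∈ Mo K n) (h3 : f ∉ Tl K n 3)
    (h : ¬ (cv f).Nodup) : (2 : ℤ) - 2 * (Z1 f).ncard + (Z2 f).ncard - (Zc f).ncard = 0 := by
  classical
  obtain ⟨Z, hZ⟩ := M2a_fin (cv f)
  have hc := M2a_card hf
  have hle : Z.card ≤ 2 := by
    have h2 := nd_add_eq (cv f) Z fun v hv => (hZ v).2 hv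
    have h4 := M2a_le hZ
    have h5 : ¬ nd (cv f) + 3 ≤ n := fun h5 => h3 ⟨hf, h5⟩
    omega
  have hne : Z.Nonempty := by
    by_contra hemp
    rw [Finset.not_nonempty_iff_eq_empty] at hemp
    apply h
    rw [Multiset.nodup_iff_count_le_one]
    intro v
    have h4 : cnt v (cv f) = (cv f).count v := by
      unfold cnt
      congr
    by_contra h5
    have h6 : v ∈ Z := (hZ v).2 (by omega)
    rw [hemp] at h6
    simp at h6
  have hfr : ∀ v, v ∈ Z → frob K v ∈ Z := fun v hv => (hZ _).2 (by rw [cnt_frob]; exact (hZ v).1 hv)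
  have hZ1 : ∀ a : K, a ∈ Z1 f ↔ algebraMap K (AlgebraicClosure K) a ∈ Z := fun a => (hZ _).symm
  have hinj : Function.Injective (algebraMap K (AlgebraicClosure K)) :=
    (algebraMap K (AlgebraicClosure K)).injective
  have hcases : Z.card = 1 ∨ Z.card = 2 := by
    have := Finset.card_pos.2 hne
    omega
  rcases hcases with h1 | h1
  · obtain ⟨v, rfl⟩ := Finset.card_eq_one.1 h1
    have hv : frob K v = v := Finset.mem_singleton.1 (hfr v (Finset.mem_singleton_self v))
    obtain ⟨a, rfl⟩ := mem_of_frob hv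
    have e1 : Z1 f = {a} := by
      ext b
      rw [hZ1, Finset.mem_singleton, Set.mem_singleton_iff]
      exact hinj.eq_iff
    have e2 : Z2 f = ∅ := by
      refine Set.eq_empty_of_forall_notMem fun x hx => hx.1 ?_
      have h4 := hx.2.1
      have h5 := hx.2.2
      rw [e1, Set.mem_singleton_iff] at h4 h5
      rw [h4, h5]
    have e3 : Zc f = ∅ := by
      refine Set.eq_empty_of_forall_notMem fun w hw => hw.2.1 ?_
      have h4 : w ∈ ({algebraMap K (AlgebraicClosure K) a} : Finset (AlgebraicClosure K)) :=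
        (hZ w).2 hw.2.2
      rw [Finset.mem_singleton] at h4
      rw [h4, hv]
    rw [e1, e2, e3, Set.ncard_singleton, Set.ncard_empty, Set.ncard_empty]
    norm_num
  · obtain ⟨v, w, hvw, rfl⟩ := Finset.card_eq_two.1 h1
    have hv := hfr v (Finset.mem_insert_self _ _)
    have hw := hfr w (Finset.mem_insert_of_mem (Finset.mem_singleton_self _))
    rw [Finset.mem_insert, Finset.mem_singleton] at hv hw
    rcases hv with hv | hv
    · have hw' : frob K w = w := by
        rcases hw with hw | hw
        · exact absurd (frob_injective (hv.trans hw.symm)) hvw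
        · exact hw
      obtain ⟨a, rfl⟩ := mem_of_frob hv
      obtain ⟨b, rfl⟩ := mem_of_frob hw'
      have hab : a ≠ b := fun h => hvw (by rw [h])
      have e1 : Z1 f = {a, b} := by
        ext c
        rw [hZ1, Finset.mem_insert, Finset.mem_singleton, hinj.eq_iff, hinj.eq_iff]
        rfl
      have e2 : Z2 f = {(a, b), (b, a)} := by
        ext x
        obtain ⟨x, y⟩ := x
        have : (x, y) ∈ Z2 f ↔ x ≠ y ∧ x ∈ Z1 f ∧ y ∈ Z1 f := Iff.rfl
        rw [this, e1]
        simp only [Set.mem_insert_iff, Set.mem_singleton_iff, Prod.mk.injEq]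
        constructor
        · rintro ⟨h4, h5 | h5, h6 | h6⟩
          · exact absurd (h5.trans h6.symm) h4
          · exact Or.inl ⟨h5, h6⟩
          · exact Or.inr ⟨h5, h6⟩
          · exact absurd (h5.trans h6.symm) h4
        · rintro (⟨h4, h5⟩ | ⟨h4, h5⟩)
          · rw [h4, h5]
            exact ⟨hab, Or.inl rfl, Or.inr rfl⟩
          · rw [h4, h5]
            exact ⟨hab.symm, Or.inr rfl, Or.inl rfl⟩
      have e3 : Zc f = ∅ := by
        refine Set.eq_empty_of_forall_notMem fun u hu => hu.2.1 ?_
        have h4 := (hZ u).2 hu.2.2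
        rw [Finset.mem_insert, Finset.mem_singleton] at h4
        rcases h4 with h4 | h4
        · rw [h4, hv]
        · rw [h4, hw']
      rw [e1, e2, e3, Set.ncard_pair hab, Set.ncard_empty, Set.ncard_pair (by
        intro h4
        exact hab (Prod.mk.inj h4).1)]
      norm_num
    · have hw' : frob K w = v := by
        rcases hw with hw | hw
        · exact hw
        · exact absurd (frob_injective (hv.trans hw.symm)) hvw
      have e1 : Z1 f = ∅ := by
        refine Set.eq_empty_of_forall_notMem fun a ha => ?_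
        rw [hZ1, Finset.mem_insert, Finset.mem_singleton] at ha
        have h4 := frob_algebraMap a
        rcases ha with ha | ha
        · rw [ha, hv] at h4
          exact hvw h4.symm
        · rw [ha, hw'] at h4
          exact hvw h4
      have e2 : Z2 f = ∅ := by
        refine Set.eq_empty_of_forall_notMem fun x hx => ?_
        have h4 := hx.2.1
        rw [e1] at h4
        exact h4
      have e3 : Zc f = {v, w} := by
        ext u
        rw [Set.mem_insert_iff, Set.mem_singleton_iff]
        constructor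
        · intro hu
          have h4 := (hZ u).2 hu.2.2
          rw [Finset.mem_insert, Finset.mem_singleton] at h4
          exact h4
        · rintro (rfl | rfl)
          · refine ⟨by rw [hv, hw'], by rw [hv]; exact hvw.symm, (hZ _).1 (Finset.mem_insert_self _ _)⟩
          · refine ⟨by rw [hw', hv], by rw [hw']; exact hvw,
              (hZ _).1 (Finset.mem_insert_of_mem (Finset.mem_singleton_self _))⟩
      rw [e1, e2, e3, Set.ncard_pair hvw, Set.ncard_empty, Set.ncard_empty]
      norm_num

end SBr
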