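import Pool.Agent.H.MP_cc3311_ag.A5
import Pool.Agent.H.MP_cc3311_ag.M3

/-!
# MP_cc3311_ag, M4a: squarefree polynomials not vanishing at a point
-/

set_option autoImplicit false

namespace SBr

open Polynomial

variable (K : Type) [Field K] [Fintype K]

/-- Proof: `sq_rec`, strong induction. -/
theorem sq_gen {n : ℕ} (hn : 2 ≤ n) :
    ((Sq K n).ncard : ℤ) = (Fintype.card K : ℤ) ^ n - (Fintype.card K : ℤ) ^ (n - 1) := by
  obtain ⟨m, rfl⟩ : ∃ m, n = m + 2 := ⟨n - 2, by omega⟩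
  have h1 := sq_rec K (m + 2)
  have h2 := sq_rec K m
  have e1 : (m + 2) / 2 + 1 = (m / 2 + 1) + 1 := by omega
  rw [e1, Finset.sum_range_succ'] at h1
  have e2 : ∑ j ∈ Finset.range (m / 2 + 1),
      Fintype.card K ^ (j + 1) * (Sq K (m + 2 - 2 * (j + 1))).ncard =
      Fintype.card K * Fintype.card K ^ m := by
    rw [h2, Finset.mul_sum]
    refine Finset.sum_congr rfl fun j _ => ?_
    have e3 : m + 2 - 2 * (j + 1) = m - 2 * j := by omega
    rw [e3]
    ring
  rw [e2] at h1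
  simp only [pow_zero, one_mul, mul_zero, Nat.sub_zero] at h1
  have e4 : m + 2 - 1 = m + 1 := by omega
  rw [e4]
  have h3 : ((Fintype.card K ^ (m + 2) : ℕ) : ℤ) =
      ((Fintype.card K * Fintype.card K ^ m + (Sq K (m + 2)).ncard : ℕ) : ℤ) := by
    exact_mod_cast h1
  push_cast at h3
  rw [h3]
  ring

/-- Squarefree monic polynomials of degree `j` not vanishing at `a`. -/
def tt (a : K) (j : ℕ) : Set K[X] := {S | S ∈ Sq K j ∧ S.eval a ≠ 0}

theorem M4a_fin (j : ℕ) : (Sq K j).Finite :=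
  (A5_monic_eq_finite K j).subset fun _ hf => ⟨hf.1, hf.2.1⟩

theorem M4a_tt_fin (a : K) (j : ℕ) : (tt K a j).Finite :=
  (M4a_fin K j).subset fun _ hf => hf.1

/-- A squarefree polynomial vanishing at `a` is `(X - a) S` with `S` squarefree, `S a ≠ 0`. -/
theorem tt_rec (a : K) (j : ℕ) :
    (Sq K (j + 1)).ncard = (tt K a (j + 1)).ncard + (tt K a j).ncard := by
  classical
  have hinj : Function.Injective (fun S : K[X] => (X - C a) * S) :=
    mul_right_injective₀ (X_sub_C_ne_zero a)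
  rw [← Set.ncard_image_of_injective (tt K a j) hinj,
    ← Set.ncard_union_eq ?_ (M4a_tt_fin K a (j + 1)) ((M4a_tt_fin K a j).image _)]
  · congr 1
    ext f
    constructor
    · rintro ⟨hm, hd, hs⟩
      by_cases h0 : f.eval a = 0
      · right
        obtain ⟨S, rfl⟩ := dvd_iff_isRoot.2 h0
        have hSm : S.Monic := (monic_X_sub_C a).of_mul_monic_left hm
        refine ⟨S, ⟨⟨hSm, ?_, hs.of_mul_right⟩, ?_⟩, rfl⟩
        · rw [(monic_X_sub_C a).natDegree_mul hSm, natDegree_X_sub_C] at hd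
          omega
        · intro h1
          obtain ⟨T, rfl⟩ := dvd_iff_isRoot.2 h1
          have h2 := hs (X - C a) ⟨T, by ring⟩
          exact (irreducible_X_sub_C a).not_isUnit h2
      · left
        exact ⟨⟨hm, hd, hs⟩, h0⟩
    · rintro (h | ⟨S, ⟨⟨hm, hd, hs⟩, h0⟩, rfl⟩)
      · exact h.1
      · refine ⟨(monic_X_sub_C a).mul hm, ?_, ?_⟩
        · rw [(monic_X_sub_C a).natDegree_mul hm, natDegree_X_sub_C, hd]
          omega
        · rw [squarefree_mul_iff]
          refine ⟨?_, (irreducible_X_sub_C a).squarefree, hs⟩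
          refine ((irreducible_X_sub_C a).coprime_iff_not_dvd.2 ?_).isRelPrime
          intro h1
          exact h0 (dvd_iff_isRoot.1 h1)
  · rw [Set.disjoint_left]
    rintro f ⟨-, h0⟩ ⟨S, -, rfl⟩
    apply h0
    simp

theorem M4a_le (a : K) (j : ℕ) : (tt K a j).ncard ≤ Fintype.card K ^ j := by
  rw [← monic_ncard]
  exact Set.ncard_le_ncard (fun _ hf => ⟨hf.1.1, hf.1.2.1⟩) (A5_monic_eq_finite K j)

/-- Proof: `tt_rec` three times, `sq_gen`, and `0 ≤ |tt K a (j - 3)| ≤ q ^ (j - 3)`: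
`t_j = s_j - s_(j-1) + s_(j-2) - t_(j-3)`, where `s_(j-2) = q ^ (j-2) - q ^ (j-3)` needs `j ≥ 4`. -/
theorem tt_bounds (a : K) {j : ℕ} (hj : 4 ≤ j) :
    (Fintype.card K : ℤ) ^ j - 2 * (Fintype.card K : ℤ) ^ (j - 1) +
      2 * (Fintype.card K : ℤ) ^ (j - 2) - 2 * (Fintype.card K : ℤ) ^ (j - 3) ≤ (tt K a j).ncard ∧
    ((tt K a j).ncard : ℤ) ≤ (Fintype.card K : ℤ) ^ j - 2 * (Fintype.card K : ℤ) ^ (j - 1) +
      2 * (Fintype.card K : ℤ) ^ (j - 2) := by
  obtain ⟨m, rfl⟩ : ∃ m, j = m + 3 := ⟨j - 3, by omega⟩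
  have r1 := tt_rec K a (m + 2)
  have r2 := tt_rec K a (m + 1)
  have r3 := tt_rec K a m
  have s1 := sq_gen K (n := m + 3) (by omega)
  have s2 := sq_gen K (n := m + 2) (by omega)
  have s3 := sq_gen K (n := m + 1) (by omega)
  have hle := M4a_le K a m
  have e1 : m + 3 - 1 = m + 2 := by omega
  have e2 : m + 3 - 2 = m + 1 := by omega
  have e3 : m + 3 - 3 = m := by omega
  have e4 : m + 2 - 1 = m + 1 := by omega
  have e5 : m + 1 - 1 = m := by omega
  rw [e1] at s1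
  rw [e4] at s2
  rw [e5] at s3
  rw [e1, e2, e3]
  have r1' : ((Sq K (m + 3)).ncard : ℤ) = (tt K a (m + 3)).ncard + (tt K a (m + 2)).ncard := by
    exact_mod_cast r1
  have r2' : ((Sq K (m + 2)).ncard : ℤ) = (tt K a (m + 2)).ncard + (tt K a (m + 1)).ncard := by
    exact_mod_cast r2
  have r3' : ((Sq K (m + 1)).ncard : ℤ) = (tt K a (m + 1)).ncard + (tt K a m).ncard := by
    exact_mod_cast r3
  have hle' : ((tt K a m).ncard : ℤ) ≤ (Fintype.card K : ℤ) ^ m := by exact_mod_cast hle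
  have h0 : (0 : ℤ) ≤ (tt K a m).ncard := Int.natCast_nonneg _
  have hq : (0 : ℤ) ≤ (Fintype.card K : ℤ) ^ m := by positivity
  constructor
  · linarith
  · linarith

end SBr
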