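import Pool.Agent.H.MP_cc3311_ag.M4a

/-!
# MP_cc3311_ag, M4b: excess zero and one
-/

set_option autoImplicit false

namespace SBr

open Polynomial

theorem M4b_nd {α : Type} [DecidableEq α] (s : Multiset α) : nd s = s.toFinset.card := by
  unfold nd
  rw [← Set.ncard_coe_finset]
  congr 1
  ext v
  simp

theorem M4b_nd_le {α : Type} (s : Multiset α) : nd s ≤ Multiset.card s := by
  classical
  rw [M4b_nd]
  exact s.toFinset_card_le

theorem M4b_nd_eq {α : Type} (s : Multiset α) : nd s = Multiset.card s ↔ s.Nodup := by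
  classical
  rw [M4b_nd]
  exact Multiset.toFinset_card_eq_card_iff_nodup

theorem M4b_nd_ssadd {α : Type} (s t : Multiset α) : nd (s + s + t) ≤ nd s + nd t := by
  classical
  rw [M4b_nd, M4b_nd, M4b_nd, Multiset.toFinset_add, Multiset.toFinset_add, Finset.union_self]
  exact Finset.card_union_le _ _

open Classical in
theorem M4b_nd_two {α : Type} (a : α) (t : Multiset α) :
    nd ({a} + {a} + t) = nd t + if a ∈ t then 0 else 1 := by
  rw [M4b_nd, M4b_nd, Multiset.toFinset_add, Multiset.toFinset_add, Finset.union_self,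
    Multiset.toFinset_singleton]
  split_ifs with h
  · rw [Finset.union_eq_right.2 (by simpa using h), Nat.add_zero]
  · rw [Finset.card_union_of_disjoint (by simpa using h), Finset.card_singleton, Nat.add_comm]

variable (K : Type) [Field K] [Fintype K]

variable {K} in
theorem M4b_card {m : ℕ} {G : K[X]} (hG : G ∈ Mo K m) : Multiset.card (up G).roots = m := by
  rw [splits_iff_card_roots.1 (IsAlgClosed.splits (up G)), up, natDegree_map]
  exact hG.2

/-- Excess 0 is squarefree. -/
theorem excess_zero {m : ℕ} {G : K[X]} (hG : G ∈ Mo K m) : nd (up G).roots = m ↔ Squarefree G := by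
  have hup : (up G).Monic := up_monic.2 hG.1
  have hsep : Squarefree G ↔ (up G).roots.Nodup := by
    rw [nodup_roots_iff_of_splits hup.ne_zero (IsAlgClosed.splits _), up, separable_map,
      PerfectField.separable_iff_squarefree]
  rw [hsep, ← M4b_nd_eq, M4b_card hG]

variable {K} in
theorem M4b_roots (a : K) {S : K[X]} (hS : S ≠ 0) :
    (up ((X - C a) ^ 2 * S)).roots = {algebraMap K (AlgebraicClosure K) a} +
      {algebraMap K (AlgebraicClosure K) a} + (up S).roots := by
  have h0 : up S ≠ 0 := by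
    unfold up
    rwa [Ne, Polynomial.map_eq_zero]
  have h1 : (X - C (algebraMap K (AlgebraicClosure K) a)) ≠ 0 := X_sub_C_ne_zero _
  have h2 : up ((X - C a) ^ 2 * S) = (X - C (algebraMap K (AlgebraicClosure K) a)) *
      (X - C (algebraMap K (AlgebraicClosure K) a)) * up S := by
    unfold up
    rw [Polynomial.map_mul, Polynomial.map_pow, Polynomial.map_sub, map_X, map_C, pow_two]
  rw [h2, roots_mul (mul_ne_zero (mul_ne_zero h1 h1) h0), roots_mul (mul_ne_zero h1 h1),
    roots_X_sub_C]

variable {K} in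
theorem M4b_mem (a : K) {S : K[X]} (hS : S ≠ 0) :
    algebraMap K (AlgebraicClosure K) a ∈ (up S).roots ↔ S.eval a = 0 := by
  have h0 : up S ≠ 0 := by
    unfold up
    rwa [Ne, Polynomial.map_eq_zero]
  rw [mem_roots h0, IsRoot.def, up, eval_map, eval₂_at_apply, map_eq_zero]

/-- Excess 1 means `G = (X - a) ^ 2 S` with `S` squarefree and not vanishing at `a ∈ K` (the only
multiple root is stable under Frobenius). -/
theorem excess_one {m : ℕ} {G : K[X]} (hG : G ∈ Mo K (m + 2)) : nd (up G).roots + 1 = m + 2 ↔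
    ∃ a : K, ∃ S ∈ tt K a m, G = (X - C a) ^ 2 * S := by
  constructor
  · intro h
    have hns : ¬ Squarefree G := fun hs => by
      have := (excess_zero K hG).2 hs
      omega
    unfold Squarefree at hns
    push Not at hns
    obtain ⟨p, ⟨q, hq⟩, hu⟩ := hns
    have hG0 : G ≠ 0 := hG.1.ne_zero
    have hp0 : p ≠ 0 := fun h0 => hG0 (by rw [hq, h0]; ring)
    have hq0 : q ≠ 0 := fun h0 => hG0 (by rw [hq, h0]; ring)
    have hup0 : up p ≠ 0 := by unfold up; rwa [Ne, Polynomial.map_eq_zero]
    have huq0 : up q ≠ 0 := by unfold up; rwa [Ne, Polynomial.map_eq_zero]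
    have hr : (up G).roots = (up p).roots + (up p).roots + (up q).roots := by
      have : up G = up p * up p * up q := by
        rw [hq]; unfold up; rw [Polynomial.map_mul, Polynomial.map_mul]
      rw [this, roots_mul (mul_ne_zero (mul_ne_zero hup0 hup0) huq0), roots_mul
        (mul_ne_zero hup0 hup0)]
    have hc := M4b_card hG
    rw [hr, Multiset.card_add, Multiset.card_add] at hc
    have h1 := M4b_nd_ssadd (up p).roots (up q).roots
    have h2 := M4b_nd_le (up p).roots
    have h3 := M4b_nd_le (up q).roots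
    rw [← hr] at h1
    have h4 : Multiset.card (up p).roots = p.natDegree := by
      rw [splits_iff_card_roots.1 (IsAlgClosed.splits (up p)), up, natDegree_map]
    have h5 : p.natDegree ≠ 0 := fun h => by
      rw [natDegree_eq_zero] at h
      obtain ⟨c, rfl⟩ := h
      exact hu (isUnit_C.mpr (isUnit_iff_ne_zero.mpr fun h => hp0 (by rw [h, C_0])))
    have h6 : p.degree = 1 := by
      rw [degree_eq_natDegree hp0, show p.natDegree = 1 by omega, Nat.cast_one]
    obtain ⟨a, ha⟩ := exists_root_of_degree_eq_one h6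
    have h7 : (X - C a) ^ 2 ∣ G := by
      rw [pow_two, hq]
      exact (mul_dvd_mul (dvd_iff_isRoot.2 ha) (dvd_iff_isRoot.2 ha)).trans (dvd_mul_right _ _)
    obtain ⟨S, hS⟩ := h7
    have hS0 : S ≠ 0 := fun h0 => hG0 (by rw [hS, h0, mul_zero])
    have hSm : S.Monic := by
      have := hG.1
      rw [hS] at this
      exact ((monic_X_sub_C a).pow 2).of_mul_monic_left this
    have hSd : S.natDegree = m := by
      have := hG.2
      rw [hS, ((monic_X_sub_C a).pow 2).natDegree_mul hSm, natDegree_pow, natDegree_X_sub_C] at this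
      omega
    have hSM : S ∈ Mo K m := ⟨hSm, hSd⟩
    have h8 := M4b_nd_two (algebraMap K (AlgebraicClosure K) a) (up S).roots
    rw [← M4b_roots a hS0, ← hS] at h8
    have h9 := M4b_nd_le (up S).roots
    rw [M4b_card hSM] at h9
    split_ifs at h8 with h10
    · omega
    · refine ⟨a, S, ⟨⟨hSm, hSd, (excess_zero K hSM).1 (by omega)⟩, ?_⟩, hS⟩
      rwa [M4b_mem a hS0] at h10
  · rintro ⟨a, S, ⟨⟨hSm, hSd, hSq⟩, ha⟩, rfl⟩
    have hSM : S ∈ Mo K m := ⟨hSm, hSd⟩
    rw [M4b_roots a hSm.ne_zero, M4b_nd_two, if_neg, (excess_zero K hSM).2 hSq]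
    rwa [M4b_mem a hSm.ne_zero]

variable {K} in
theorem M4b_inj {a a' : K} {m : ℕ} {S S' : K[X]} (hS : S ∈ tt K a m) (hS' : S' ∈ tt K a' m)
    (h : (X - C a) ^ 2 * S = (X - C a') ^ 2 * S') : a = a' ∧ S = S' := by
  have e : a = a' := by
    by_contra hne
    have h1 : (X - C a) ^ 2 ∣ (X - C a') ^ 2 * S' := ⟨S, h.symm⟩
    have h2 : IsCoprime ((X - C a) ^ 2) ((X - C a') ^ 2) :=
      (isCoprime_X_sub_C_of_isUnit_sub (sub_ne_zero.2 hne).isUnit).pow
    have h3 : (X - C a) ^ 2 ∣ S' := h2.dvd_of_dvd_mul_left h1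
    rw [pow_two] at h3
    exact not_isUnit_X_sub_C a (hS'.1.2.2 _ h3)
  subst e
  exact ⟨rfl, mul_left_cancel₀ (pow_ne_zero 2 (X_sub_C_ne_zero a)) h⟩

/-- `(a, S) ↦ (X - a) ^ 2 S` is injective: `a` is the only multiple root. -/
theorem excess_one_card (m : ℕ) : {G | G ∈ Mo K (m + 2) ∧ nd (up G).roots + 1 = m + 2}.ncard =
    ∑ a : K, (tt K a m).ncard := by
  classical
  have hfin : ∀ a : K, (tt K a m).Finite := fun a => M4a_tt_fin K a m
  have e1 : {G | G ∈ Mo K (m + 2) ∧ nd (up G).roots + 1 = m + 2} =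
      ((Finset.univ.sigma fun a : K => (hfin a).toFinset).image
        fun x : (_ : K) × K[X] => (X - C x.1) ^ 2 * x.2 : Finset K[X]) := by
    ext G
    simp only [Set.mem_ofPred_eq, Finset.coe_image, Set.mem_image, Finset.mem_coe,
      Finset.mem_sigma, Finset.mem_univ, true_and, Set.Finite.mem_toFinset]
    constructor
    · rintro ⟨hG, h⟩
      obtain ⟨a, S, hS, e⟩ := (excess_one K hG).1 h
      exact ⟨⟨a, S⟩, hS, e.symm⟩
    · rintro ⟨⟨a, S⟩, hS, rfl⟩
      have hG : (X - C a) ^ 2 * S ∈ Mo K (m + 2) := by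
        refine ⟨((monic_X_sub_C a).pow 2).mul hS.1.1, ?_⟩
        rw [((monic_X_sub_C a).pow 2).natDegree_mul hS.1.1, natDegree_pow, natDegree_X_sub_C,
          hS.1.2.1]
        omega
      exact ⟨hG, (excess_one K hG).2 ⟨a, S, hS, rfl⟩⟩
  rw [e1, Set.ncard_coe_finset, Finset.card_image_of_injOn, Finset.card_sigma]
  · exact Finset.sum_congr rfl fun a _ => (Set.ncard_eq_toFinset_card _ (hfin a)).symm
  · rintro ⟨a, S⟩ h ⟨a', S'⟩ h' e
    simp only [Finset.mem_coe, Finset.mem_sigma, Finset.mem_univ, true_and,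
      Set.Finite.mem_toFinset] at h h'
    obtain ⟨e1, e2⟩ := M4b_inj h h' e
    subst e1
    subst e2
    rfl

end SBr
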