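import Pool.Agent.H.MP_cc3311_ag.A2
import Pool.Agent.H.MP_cc3311_ag.M0

/-!
# MP_cc3311_ag, M5: the structures of excess two dividing a polynomial
-/

set_option autoImplicit false

namespace SBr

open Polynomial

theorem M5_nd {α : Type} [DecidableEq α] (s : Multiset α) : nd s = s.toFinset.card := by
  unfold nd
  rw [← Set.ncard_coe_finset]
  congr 1
  ext x
  simp only [Set.mem_setOf_eq, Finset.mem_coe, Multiset.mem_toFinset]

theorem M5_nd_le {α : Type} (s : Multiset α) : nd s ≤ Multiset.card s := by
  classical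
  rw [M5_nd]
  exact Multiset.toFinset_card_le s

theorem M5_nd_add {α : Type} {s t : Multiset α} (h : t ≤ s) :
    nd s + Multiset.card t ≤ nd t + Multiset.card s := by
  classical
  obtain ⟨r, rfl⟩ := Multiset.le_iff_exists_add.1 h
  rw [M5_nd, M5_nd, Multiset.toFinset_add, Multiset.card_add]
  have h1 := Finset.card_union_le t.toFinset r.toFinset
  have h2 := Multiset.toFinset_card_le r
  omega

theorem M5_quad {L : Type} [Field L] [IsAlgClosed L] {E : L[X]} (hE : E.Monic)
    (hd : E.natDegree = 2) : ∃ a b : L, E = (X - C a) * (X - C b) := by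
  have hc : Multiset.card E.roots = E.natDegree := IsAlgClosed.card_roots_eq_natDegree
  have hp := prod_multiset_X_sub_C_of_monic_of_roots_card_eq hE hc
  rw [hd] at hc
  obtain ⟨a, b, hab⟩ := Multiset.card_eq_two.1 hc
  refine ⟨a, b, ?_⟩
  rw [← hp, hab]
  simp

theorem M5_sq_inj {L : Type} [Field L] {E E' : L[X]} (hE : E.Monic) (hE' : E'.Monic)
    (hd : E.natDegree = 2) (hd' : E'.natDegree = 2) (h : E ^ 2 = E' ^ 2) : E = E' := by
  have h1 : (E - E') * (E + E') = 0 := by
    linear_combination h
  rcases mul_eq_zero.1 h1 with h2 | h2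
  · exact sub_eq_zero.1 h2
  · have h3 : (E + E').coeff 2 = 2 := by
      have e1 : E.coeff 2 = 1 := by
        have := hE.coeff_natDegree
        rwa [hd] at this
      have e2 : E'.coeff 2 = 1 := by
        have := hE'.coeff_natDegree
        rwa [hd'] at this
      rw [coeff_add, e1, e2]
      norm_num
    rw [h2, coeff_zero] at h3
    have h4 : (2 : L[X]) = 0 := by
      rw [← map_ofNat (C : L →+* L[X]) 2, ← h3, C_0]
    linear_combination h2 - E' * h4

section

variable {L : Type} [Field L] [IsAlgClosed L]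

/-- A cube of a linear polynomial or the square of a squarefree quadratic polynomial dividing `G`
means excess at least two. -/
theorem Ds_dvd {G D : L[X]} {m : ℕ} (hG : G ∈ Mo L m) (hD : D ∈ Ds L) (h : D ∣ G) :
    nd G.roots + 2 ≤ m := by
  have hr : D.roots ≤ G.roots := roots.le_of_dvd hG.1.ne_zero h
  have hc : Multiset.card G.roots = m := by
    rw [IsAlgClosed.card_roots_eq_natDegree, hG.2]
  have h1 := M5_nd_add hr
  have h2 : nd D.roots + 2 ≤ Multiset.card D.roots := by
    rcases hD with ⟨a, rfl⟩ | ⟨E, hE, hd, -, rfl⟩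
    · classical
      rw [roots_pow, roots_X_sub_C, M5_nd]
      have : (3 • ({a} : Multiset L)).toFinset = {a} := by
        ext x
        simp
      rw [this]
      simp
    · classical
      have hcE : Multiset.card E.roots = 2 := by
        rw [IsAlgClosed.card_roots_eq_natDegree, hd]
      rw [roots_pow, M5_nd]
      have : (2 • E.roots).toFinset = E.roots.toFinset := by
        ext x
        simp
      rw [this, Multiset.card_nsmul, hcE]
      have := Multiset.toFinset_card_le E.roots
      rw [hcE] at this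
      omega
  omega

/-- At most `m` cubes and `m ^ 2` squares. -/
theorem Ds_card {G : L[X]} {m : ℕ} (hG : G ∈ Mo L m) :
    {D : L[X] | D ∈ Ds L ∧ D ∣ G}.Finite ∧ {D : L[X] | D ∈ Ds L ∧ D ∣ G}.ncard ≤ 2 * m ^ 2 := by
  classical
  let R := G.roots.toFinset
  have hR : R.card ≤ m := by
    have h1 := Multiset.toFinset_card_le G.roots
    rw [IsAlgClosed.card_roots_eq_natDegree, hG.2] at h1
    exact h1
  let A : Finset L[X] := R.image fun a => (X - C a) ^ 3
  let B : Finset L[X] := (R ×ˢ R).image fun x => ((X - C x.1) * (X - C x.2)) ^ 2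
  have hmem : ∀ a : L, (X - C a) ∣ G → a ∈ R := by
    intro a ha
    rw [Multiset.mem_toFinset, mem_roots hG.1.ne_zero]
    exact dvd_iff_isRoot.1 ha
  have hsub : {D : L[X] | D ∈ Ds L ∧ D ∣ G} ⊆ ((A ∪ B : Finset L[X]) : Set L[X]) := by
    rintro D ⟨hD, hdvd⟩
    rw [Finset.mem_coe, Finset.mem_union]
    rcases hD with ⟨a, rfl⟩ | ⟨E, hE, hd, -, rfl⟩
    · left
      exact Finset.mem_image.2 ⟨a, hmem a ((dvd_pow_self _ (by norm_num)).trans hdvd), rfl⟩
    · right
      obtain ⟨a, b, rfl⟩ := M5_quad hE hd
      have h1 : (X - C a) * (X - C b) ∣ G := (dvd_pow_self _ (by norm_num)).trans hdvd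
      refine Finset.mem_image.2 ⟨(a, b), Finset.mem_product.2 ⟨hmem a ?_, hmem b ?_⟩, rfl⟩
      · exact (dvd_mul_right _ _).trans h1
      · exact (dvd_mul_left _ _).trans h1
  refine ⟨(A ∪ B).finite_toSet.subset hsub, ?_⟩
  calc {D : L[X] | D ∈ Ds L ∧ D ∣ G}.ncard ≤ ((A ∪ B : Finset L[X]) : Set L[X]).ncard :=
        Set.ncard_le_ncard hsub (A ∪ B).finite_toSet
    _ = (A ∪ B).card := Set.ncard_coe_finset _
    _ ≤ A.card + B.card := Finset.card_union_le _ _
    _ ≤ R.card + R.card * R.card := by
        refine Nat.add_le_add Finset.card_image_le ?_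
        refine Finset.card_image_le.trans ?_
        rw [Finset.card_product]
    _ ≤ m + m * m := Nat.add_le_add hR (Nat.mul_le_mul hR hR)
    _ ≤ 2 * m ^ 2 := by
        have : m ≤ m * m := Nat.le_mul_self m
        nlinarith

end

variable {K : Type} [Field K] [Fintype K]

theorem Ds_up {D : K[X]} : up D ∈ Ds (AlgebraicClosure K) ↔ D ∈ Ds K := by
  constructor
  · rintro (⟨a, ha⟩ | ⟨E, hE, hd, hsq, hEq⟩)
    · left
      have h1 : ((X - C a) ^ 3 : (AlgebraicClosure K)[X]) = (X - C (frob K a)) ^ 3 := by
        have h2 := map_frob_up D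
        rw [ha] at h2
        rw [Polynomial.map_pow, Polynomial.map_sub, map_X, map_C] at h2
        exact h2.symm
      have h3 : frob K a = a := by
        have h4 := congrArg (eval a) h1
        simp only [eval_pow, eval_sub, eval_X, eval_C, sub_self] at h4
        have h5 : (a - frob K a) ^ 3 = 0 := by
          rw [← h4]
          norm_num
        have h6 := pow_eq_zero_iff (by norm_num) |>.1 h5
        exact (sub_eq_zero.1 h6).symm
      obtain ⟨a0, rfl⟩ := mem_of_frob h3
      refine ⟨a0, up_injective ?_⟩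
      rw [ha]
      unfold up
      rw [Polynomial.map_pow, Polynomial.map_sub, map_X, map_C]
    · right
      have h1 : E.map (frob K) = E := by
        apply M5_sq_inj (hE.map _) hE (by rw [natDegree_map, hd]) hd
        have h2 := map_frob_up D
        rw [hEq, Polynomial.map_pow] at h2
        exact h2
      obtain ⟨g, rfl⟩ := up_of_map_frob h1
      refine ⟨g, up_monic.1 hE, ?_, up_squarefree.1 hsq, up_injective ?_⟩
      · rw [← up_natDegree, hd]
      · rw [hEq]
        unfold up
        rw [Polynomial.map_pow]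
  · rintro (⟨a, rfl⟩ | ⟨E, hE, hd, hsq, rfl⟩)
    · left
      refine ⟨algebraMap K (AlgebraicClosure K) a, ?_⟩
      unfold up
      rw [Polynomial.map_pow, Polynomial.map_sub, map_X, map_C]
    · right
      refine ⟨up E, up_monic.2 hE, ?_, up_squarefree.2 hsq, ?_⟩
      · rw [up_natDegree, hd]
      · unfold up
        rw [Polynomial.map_pow]

/-- Frobenius acts on the structures. -/
theorem Ds_map {D : (AlgebraicClosure K)[X]} (h : D ∈ Ds (AlgebraicClosure K)) :
    D.map (frob K) ∈ Ds (AlgebraicClosure K) := by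
  rcases h with ⟨a, rfl⟩ | ⟨E, hE, hd, hsq, rfl⟩
  · left
    refine ⟨frob K a, ?_⟩
    rw [Polynomial.map_pow, Polynomial.map_sub, map_X, map_C]
  · right
    refine ⟨E.map (frob K), hE.map _, ?_, ?_, ?_⟩
    · rw [natDegree_map, hd]
    · rw [← PerfectField.separable_iff_squarefree] at hsq ⊢
      exact (separable_map _).2 hsq
    · rw [Polynomial.map_pow]

/-- Divisibility over `K` and over the closure. -/
theorem up_dvd {D G : K[X]} : up D ∣ up G ↔ D ∣ G := by
  unfold up
  exact map_dvd_map' _

end SBr
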