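import Pool.Agent.H.MP_cc3311_ag.M6a1

/-!
# MP_cc3311_ag, M7a: the set `R2` in terms of the pairs (polynomial, difference of the values)
-/

set_option autoImplicit false

namespace SBr

open Polynomial

variable (K : Type) [Field K] [Fintype K]

/-- Pairs `(G, c)`, `c ≠ 0`, and structures dividing `G` and `G - c`. -/
def Q2 (n : ℕ) : Set ((K[X] × K) × (K[X] × K[X])) :=
  {x | x.1.1 ∈ Mo K (n + 1) ∧ x.1.2 ≠ 0 ∧ x.2.1 ∈ Ds K ∧ x.2.2 ∈ Ds K ∧ x.2.1 ∣ x.1.1 ∧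
    x.2.2 ∣ x.1.1 - C x.1.2}

theorem M7a_GG_sub {L : Type} [Field L] (n : ℕ) (f : L[X]) (v v' : L) :
    GG n f v - C (((n : L) + 1) * (v' - v)) = GG n f v' := by
  unfold GG
  rw [C_mul, C_sub]
  ring

/-- `((f, v, v'), D, D') ↦ ((GG n f v, (n + 1) (v' - v)), D, D')`. -/
theorem R2_eq_Q2 {n : ℕ} (hG : Good K n) : (R2 K n).ncard = (Q2 K n).ncard := by
  have hn : ((n : K) + 1) ≠ 0 := by
    have := hG (n + 1) (by omega) (by omega)
    push_cast at this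
    exact this
  have himg : Q2 K n = (fun x : (K[X] × K × K) × (K[X] × K[X]) =>
      ((GG n x.1.1 x.1.2.1, ((n : K) + 1) * (x.1.2.2 - x.1.2.1)), x.2)) '' R2 K n := by
    ext ⟨⟨G, c⟩, D, D'⟩
    simp only [Q2, R2, Set.mem_setOf_eq, Set.mem_image, Prod.exists, Prod.mk.injEq]
    constructor
    · rintro ⟨hGm, hc, hD, hD', h1, h2⟩
      obtain ⟨f, hf, v, hfv⟩ := GG_surj hG hGm
      have hc' : ((n : K) + 1) * ((v + c / ((n : K) + 1)) - v) = c := by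
        field_simp
        ring
      refine ⟨f, v, v + c / ((n : K) + 1), D, D', ⟨hf, ?_, hD, hD', ?_, ?_⟩, ⟨hfv, hc'⟩, rfl, rfl⟩
      · intro h
        apply hc
        rw [← hc', ← h]
        ring
      · rw [hfv]; exact h1
      · rw [← M7a_GG_sub n f v, hfv, hc']; exact h2
    · rintro ⟨f, v, v', E, E', ⟨hf, hv, hE, hE', h1, h2⟩, ⟨h3, h4⟩, h5, h6⟩
      subst h3; subst h4; subst h5; subst h6
      refine ⟨GG_mem hG hf v, mul_ne_zero hn (sub_ne_zero.mpr (Ne.symm hv)), hE, hE', h1, ?_⟩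
      rw [M7a_GG_sub]; exact h2
  rw [himg, Set.ncard_image_of_injOn]
  rintro ⟨⟨f, v, v'⟩, E⟩ hx ⟨⟨g, w, w'⟩, E2⟩ hy h
  simp only [Prod.mk.injEq] at h
  obtain ⟨⟨h1, h2⟩, h3⟩ := h
  obtain ⟨hfg, hvw⟩ := GG_inj hG hx.1 hy.1 h1
  dsimp only at hfg hvw
  subst hfg; subst hvw
  have h4 := mul_left_cancel₀ hn h2
  have h5 : v' = w' := by linear_combination h4
  rw [h5, h3]

end SBr
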