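import Pool.Agent.H.MP_cc3311_ag.A4
import Pool.Agent.H.MP_cc3311_ag.A2

/-!
# MP_cc3311_ag, M7t: the quadratic extension
-/

set_option autoImplicit false

namespace SBr

open Polynomial

variable (K : Type) [Field K] [Fintype K]

theorem M7t_frob2 (v : AlgebraicClosure K) :
    frob K (frob K v) = v ^ (Fintype.card K ^ 2) := by
  rw [frob_apply, frob_apply, ← pow_mul, sq]

theorem M7t_ne : (X ^ (Fintype.card K ^ 2) - X : (AlgebraicClosure K)[X]) ≠ 0 :=
  FiniteField.X_pow_card_sub_X_ne_zero _ (Nat.one_lt_pow two_ne_zero Fintype.one_lt_card)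

theorem M7t_set [DecidableEq (AlgebraicClosure K)] :
    {v : AlgebraicClosure K | frob K (frob K v) = v} =
    ((X ^ (Fintype.card K ^ 2) - X : (AlgebraicClosure K)[X]).roots.toFinset :
      Set (AlgebraicClosure K)) := by
  ext v
  rw [Set.mem_setOf_eq, Finset.mem_coe, Multiset.mem_toFinset, mem_roots (M7t_ne K), IsRoot.def,
    eval_sub, eval_pow, eval_X, M7t_frob2, sub_eq_zero]

theorem M7t_card [DecidableEq (AlgebraicClosure K)] :
    (X ^ (Fintype.card K ^ 2) - X : (AlgebraicClosure K)[X]).roots.toFinset.card =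
      Fintype.card K ^ 2 := by
  obtain ⟨p, hp⟩ := CharP.exists K
  haveI : CharP (AlgebraicClosure K) p := charP_of_injective_algebraMap
    (algebraMap K (AlgebraicClosure K)).injective p
  have hdvd : p ∣ Fintype.card K ^ 2 := by
    have h1 : p ∣ Fintype.card K := by
      rw [← CharP.cast_eq_zero_iff K p]
      exact FiniteField.cast_card_eq_zero K
    exact h1.trans (dvd_pow_self _ two_ne_zero)
  have hsep : (X ^ (Fintype.card K ^ 2) - X : (AlgebraicClosure K)[X]).Separable :=
    galois_poly_separable p _ hdvd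
  rw [Multiset.toFinset_card_of_nodup (nodup_roots hsep)]
  have h2 := (IsAlgClosed.splits
    (X ^ (Fintype.card K ^ 2) - X : (AlgebraicClosure K)[X])).natDegree_eq_card_roots
  rw [← h2]
  exact FiniteField.X_pow_card_sub_X_natDegree_eq _
    (Nat.one_lt_pow two_ne_zero Fintype.one_lt_card)

/-- The number of elements of the quadratic extension. -/
theorem quad_ncard : {v : AlgebraicClosure K | frob K (frob K v) = v}.Finite ∧
    {v : AlgebraicClosure K | frob K (frob K v) = v}.ncard = Fintype.card K ^ 2 := by
  classical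
  rw [M7t_set K]
  refine ⟨Finset.finite_toSet _, ?_⟩
  rw [Set.ncard_coe_finset, M7t_card K]

/-- A generator of the quadratic extension. Proof: `X ^ (q ^ 2) - X` is separable, it has `q ^ 2 > q`
roots in the closure. -/
theorem exists_theta : ∃ θ : AlgebraicClosure K, frob K (frob K θ) = θ ∧ frob K θ ≠ θ := by
  classical
  by_contra hcon
  push Not at hcon
  obtain ⟨hfin, hcard⟩ := quad_ncard K
  have hsub : {v : AlgebraicClosure K | frob K (frob K v) = v} ⊆
      ((Finset.univ.image (algebraMap K (AlgebraicClosure K)) : Finset _) :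
        Set (AlgebraicClosure K)) := by
    intro v hv
    obtain ⟨a, ha⟩ := mem_of_frob (hcon v hv)
    rw [Finset.mem_coe, Finset.mem_image]
    exact ⟨a, Finset.mem_univ _, ha⟩
  have h1 := Set.ncard_le_ncard hsub (Finset.finite_toSet _)
  rw [Set.ncard_coe_finset, hcard,
    Finset.card_image_of_injective _ (algebraMap K (AlgebraicClosure K)).injective,
    Finset.card_univ] at h1
  have hq : 1 < Fintype.card K := Fintype.one_lt_card
  nlinarith

/-- `v = a + b θ` with `b = (v - frob v) / (θ - frob θ)`. -/
theorem theta_repr {θ : AlgebraicClosure K} (h1 : frob K (frob K θ) = θ) (h2 : frob K θ ≠ θ)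
    {v : AlgebraicClosure K} (hv : frob K (frob K v) = v) : ∃ a b : K,
      v = algebraMap K (AlgebraicClosure K) a + algebraMap K (AlgebraicClosure K) b * θ := by
  have hne : θ - frob K θ ≠ 0 := sub_ne_zero.2 (Ne.symm h2)
  have hne' : frob K θ - θ ≠ 0 := sub_ne_zero.2 h2
  obtain ⟨b, hb⟩ := mem_of_frob (K := K) (x := (v - frob K v) / (θ - frob K θ)) (by
    rw [map_div₀, map_sub, map_sub, h1, hv, div_eq_div_iff hne' hne]
    ring)
  obtain ⟨a, ha⟩ := mem_of_frob (K := K)
    (x := v - algebraMap K (AlgebraicClosure K) b * θ) (by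
    rw [map_sub, map_mul, frob_algebraMap, hb]
    field_simp
    ring)
  exact ⟨a, b, by rw [ha]; ring⟩

theorem theta_unique {θ : AlgebraicClosure K} (h2 : frob K θ ≠ θ) {a b a' b' : K}
    (h : algebraMap K (AlgebraicClosure K) a + algebraMap K (AlgebraicClosure K) b * θ =
      algebraMap K (AlgebraicClosure K) a' + algebraMap K (AlgebraicClosure K) b' * θ) :
    a = a' ∧ b = b' := by
  have hinj := (algebraMap K (AlgebraicClosure K)).injective
  have hf := congrArg (frob K) h
  simp only [map_add, map_mul, frob_algebraMap] at hf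
  have hne : θ - frob K θ ≠ 0 := sub_ne_zero.2 (Ne.symm h2)
  have hb : algebraMap K (AlgebraicClosure K) b = algebraMap K (AlgebraicClosure K) b' := by
    have h3 : (algebraMap K (AlgebraicClosure K) b - algebraMap K (AlgebraicClosure K) b') *
        (θ - frob K θ) = 0 := by
      linear_combination h - hf
    rcases mul_eq_zero.1 h3 with h4 | h4
    · exact sub_eq_zero.1 h4
    · exact absurd h4 hne
  have ha : algebraMap K (AlgebraicClosure K) a = algebraMap K (AlgebraicClosure K) a' := by
    rw [hb] at h
    exact add_right_cancel h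
  exact ⟨hinj ha, hinj hb⟩

end SBr
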