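import Pool.Agent.H.MP_cc3311_ag.M6b1
import Pool.Agent.H.MP_cc3311_ag.M7t

/-!
# MP_cc3311_ag, M7b: the set `C2` in terms of pairs
-/

set_option autoImplicit false

namespace SBr

open Polynomial

variable (K : Type) [Field K] [Fintype K]

/-- Pairs `(G, c)`, `c ≠ 0`, and a structure over the quadratic extension dividing `G - c θ`. -/
def P2 (n : ℕ) (θ : AlgebraicClosure K) : Set ((K[X] × K) × (AlgebraicClosure K)[X]) :=
  {x | x.1.1 ∈ Mo K (n + 1) ∧ x.1.2 ≠ 0 ∧ x.2 ∈ Dq K ∧
    x.2 ∣ up x.1.1 - C (algebraMap K (AlgebraicClosure K) x.1.2 * θ)}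

theorem M7b_GG {n : ℕ} (f : K[X]) (a b : K) (θ : AlgebraicClosure K) :
    GG n (up f) (algebraMap K (AlgebraicClosure K) a + algebraMap K (AlgebraicClosure K) b * θ) =
      up (GG n f a) - C (algebraMap K (AlgebraicClosure K) (((n : K) + 1) * b) * θ) := by
  have h1 : algebraMap K (AlgebraicClosure K) (((n : K) + 1) * b) =
      ((n : AlgebraicClosure K) + 1) * algebraMap K (AlgebraicClosure K) b := by
    rw [map_mul, map_add, map_natCast, map_one]
  rw [GG_up, h1]
  unfold GG
  rw [C_add (a := algebraMap K (AlgebraicClosure K) a), C_mul, C_mul, C_mul]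
  ring

theorem M7b_frob {θ : AlgebraicClosure K} (h2 : frob K θ ≠ θ) (a b : K) :
    frob K (algebraMap K (AlgebraicClosure K) a + algebraMap K (AlgebraicClosure K) b * θ) ≠
      algebraMap K (AlgebraicClosure K) a + algebraMap K (AlgebraicClosure K) b * θ ↔ b ≠ 0 := by
  rw [map_add, map_mul, frob_algebraMap, frob_algebraMap]
  constructor
  · rintro h rfl
    apply h
    rw [map_zero, zero_mul, zero_mul]
  · intro hb h
    have h3 := add_left_cancel h
    exact h2 (mul_left_cancel₀ ((_root_.map_ne_zero _).2 hb) h3)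

/-- `v = a + b θ`: `((f, v), D) ↦ ((GG n f a, (n + 1) b), D)`;
`GG n (up f) v = up (GG n f a) - C ((n + 1) b θ)`. -/
theorem C2_eq_P2 {n : ℕ} (hG : Good K n) {θ : AlgebraicClosure K} (h1 : frob K (frob K θ) = θ)
    (h2 : frob K θ ≠ θ) : (C2 K n).ncard = (P2 K n θ).ncard := by
  have hn1 : ((n : K) + 1) ≠ 0 := by
    have := hG (n + 1) (by omega) le_rfl
    push_cast at this
    exact this
  have hex : ∀ x : (K[X] × AlgebraicClosure K) × (AlgebraicClosure K)[X], x ∈ C2 K n →
      ∃ ab : K × K, x.1.2 = algebraMap K (AlgebraicClosure K) ab.1 +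
        algebraMap K (AlgebraicClosure K) ab.2 * θ := by
    intro x hx
    obtain ⟨a, b, h⟩ := theta_repr K h1 h2 hx.2.1
    exact ⟨(a, b), h⟩
  choose g hg using hex
  refine Set.ncard_congr
    (fun x hx => ((GG n x.1.1 (g x hx).1, ((n : K) + 1) * (g x hx).2), x.2)) ?_ ?_ ?_
  · intro x hx
    have hx' := hx
    obtain ⟨hf, hv, hv', hD, hdvd⟩ := hx'
    have h3 := hg x hx
    refine ⟨GG_mem hG hf _, ?_, hD, ?_⟩
    · refine mul_ne_zero hn1 ?_
      rw [h3] at hv'
      exact (M7b_frob K h2 _ _).1 hv'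
    · have h4 := M7b_GG K (n := n) x.1.1 (g x hx).1 (g x hx).2 θ
      rw [← h3] at h4
      rw [← h4]
      exact hdvd
  · intro x y hx hy hxy
    have e1 := congrArg (fun z => z.1.1) hxy
    have e2 := congrArg (fun z => z.1.2) hxy
    have e3 := congrArg (fun z => z.2) hxy
    simp only at e1 e2 e3
    obtain ⟨e4, e5⟩ := GG_inj hG hx.1 hy.1 e1
    have e6 := mul_left_cancel₀ hn1 e2
    have e7 : x.1.2 = y.1.2 := by rw [hg x hx, hg y hy, e5, e6]
    exact Prod.ext (Prod.ext e4 e7) e3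
  · rintro ⟨⟨G, c⟩, D⟩ ⟨hGm, hc, hD, hdvd⟩
    obtain ⟨f, hf, a, hfa⟩ := GG_surj hG hGm
    simp only at hGm hc hD hdvd hfa
    have hc' : ((n : K) + 1) * (c / ((n : K) + 1)) = c := mul_div_cancel₀ _ hn1
    have hb : c / ((n : K) + 1) ≠ 0 := div_ne_zero hc hn1
    have hx : ((f, algebraMap K (AlgebraicClosure K) a +
        algebraMap K (AlgebraicClosure K) (c / ((n : K) + 1)) * θ), D) ∈ C2 K n := by
      refine ⟨hf, ?_, (M7b_frob K h2 _ _).2 hb, hD, ?_⟩
      · simp only
        rw [map_add, map_mul, map_add, map_mul, frob_algebraMap, frob_algebraMap,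
          frob_algebraMap, frob_algebraMap, h1]
      · simp only
        rw [M7b_GG, hfa, hc']
        exact hdvd
    refine ⟨_, hx, ?_⟩
    have h3 := hg _ hx
    simp only at h3
    obtain ⟨e1, e2⟩ := theta_unique K h2 h3
    simp only
    rw [← e1, ← e2, hfa, hc']

end SBr
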