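import Mathlib

/-!
# MP_cc3311_ag, R0: structures (finite sets of triples), definitions

A triple `(x, v, m)` stands for a critical point `x` with critical value `v` of multiplicity
`m - 1 ≥ 1`.
-/

set_option autoImplicit false

namespace SBr

variable {L : Type}

/-- The total multiplicity of the critical points with value `v`. -/
noncomputable def ex (s : Finset (L × L × ℕ)) (v : L) : ℕ := by
  classical exact ∑ a ∈ s.filter (fun a => a.2.1 = v), (a.2.2 - 1)

/-- The values. -/
noncomputable def vals (s : Finset (L × L × ℕ)) : Finset L := by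
  classical exact s.image fun a => a.2.1

/-- The triples are determined by their first components. -/
def Fn (s : Finset (L × L × ℕ)) : Prop := ∀ a ∈ s, ∀ b ∈ s, a.1 = b.1 → a = b

def Ge2 (s : Finset (L × L × ℕ)) : Prop := ∀ a ∈ s, 2 ≤ a.2.2

/-- The degree. -/
def dg (s : Finset (L × L × ℕ)) : ℕ := ∑ a ∈ s, a.2.2

/-- The codimension. -/
noncomputable def cod (s : Finset (L × L × ℕ)) : ℕ := ∑ v ∈ vals s, (ex s v - 1)

/-- The order: the same points and values, multiplicities at most as large. -/
def Le (s t : Finset (L × L × ℕ)) : Prop :=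
  ∀ a ∈ s, ∃ b ∈ t, b.1 = a.1 ∧ b.2.1 = a.2.1 ∧ a.2.2 ≤ b.2.2

/-- Stable under `φ`. -/
def Stb (φ : L → L) (s : Finset (L × L × ℕ)) : Prop := ∀ a ∈ s, (φ a.1, φ a.2.1, a.2.2) ∈ s

/-- Structures: every value is a multiple critical value. -/
def Val (φ : L → L) (s : Finset (L × L × ℕ)) : Prop :=
  Fn s ∧ Ge2 s ∧ Stb φ s ∧ ∀ a ∈ s, 2 ≤ ex s a.2.1

/-- Complete critical data of degree `n`. -/
def Crt (φ : L → L) (n : ℕ) (c : Finset (L × L × ℕ)) : Prop :=
  Fn c ∧ Ge2 c ∧ Stb φ c ∧ ∑ a ∈ c, (a.2.2 - 1) = n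

/-- The part of the multiple critical values. -/
noncomputable def smax (c : Finset (L × L × ℕ)) : Finset (L × L × ℕ) := by
  classical exact c.filter fun a => 2 ≤ ex c a.2.1

/-- The structures below `t`. -/
def Dn (φ : L → L) (t : Finset (L × L × ℕ)) : Set (Finset (L × L × ℕ)) := {s | Val φ s ∧ Le s t}

/-- `1` for the empty structure, `0` for all others. -/
noncomputable def bt (t : Finset (L × L × ℕ)) : ℤ := by
  classical exact if t = ∅ then 1 else 0

/-- Constants. -/
def bB (n : ℕ) : ℕ := (n + 2) ^ n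

def bR (n : ℕ) : ℕ := bB n * (bB n).factorial + 1

end SBr
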