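import Pool.Agent.H.MP_cc3311_ag.R0

/-!
# MP_cc3311_ag, R1: the order on the structures
-/

set_option autoImplicit false

namespace SBr

variable {L : Type} {φ : L → L}

theorem Le.rfl' (s : Finset (L × L × ℕ)) : Le s s :=
  fun a ha => ⟨a, ha, rfl, rfl, le_rfl⟩

theorem Le.trans' {s t u : Finset (L × L × ℕ)} (h1 : Le s t) (h2 : Le t u) : Le s u := by
  intro a ha
  obtain ⟨b, hb, e1, e2, e3⟩ := h1 a ha
  obtain ⟨c, hc, f1, f2, f3⟩ := h2 b hb
  exact ⟨c, hc, f1.trans e1, f2.trans e2, e3.trans f3⟩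

theorem val_empty : Val φ (∅ : Finset (L × L × ℕ)) := by
  refine ⟨?_, ?_, ?_, ?_⟩
  · intro a ha
    simp at ha
  · intro a ha
    simp at ha
  · intro a ha
    simp at ha
  · intro a ha
    simp at ha

theorem le_empty {s : Finset (L × L × ℕ)} (h : Le s ∅) : s = ∅ := by
  rw [Finset.eq_empty_iff_forall_notMem]
  intro a ha
  obtain ⟨b, hb, -⟩ := h a ha
  simp at hb

/-- If `s ≤ t`, both determined by the first components, then `s = t` or the degree of `s` is smaller.
PROOF. `a ↦ b` (the triple of `t` over the same point) is an injection `s → t` which does not decrease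
the third component; all third components of `t` are positive. -/
theorem dg_lt {s t : Finset (L × L × ℕ)} (hs : Fn s) (ht : Fn t) (ht2 : Ge2 t) (h : Le s t)
    (hne : s ≠ t) : dg s < dg t := by
  classical
  choose! g hg1 hg2 hg3 hg4 using h
  have hinj : ∀ a ∈ s, ∀ b ∈ s, g a = g b → a = b := by
    intro a ha b hb hab
    apply hs a ha b hb
    rw [← hg2 a ha, ← hg2 b hb, hab]
  have hsub : s.image g ⊆ t := by
    intro x hx
    obtain ⟨a, ha, rfl⟩ := Finset.mem_image.1 hx
    exact hg1 a ha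
  have e1 : ∑ b ∈ s.image g, b.2.2 = ∑ a ∈ s, (g a).2.2 := Finset.sum_image hinj
  have e2 : ∑ a ∈ s, a.2.2 ≤ ∑ a ∈ s, (g a).2.2 := Finset.sum_le_sum hg4
  have e3 : ∑ b ∈ s.image g, b.2.2 ≤ ∑ b ∈ t, b.2.2 := Finset.sum_le_sum_of_subset hsub
  unfold dg
  by_contra hcon
  push Not at hcon
  have e4 : ∑ b ∈ s.image g, b.2.2 = ∑ b ∈ t, b.2.2 := by omega
  have e5 : ∑ a ∈ s, a.2.2 = ∑ a ∈ s, (g a).2.2 := by omega
  have e6 : ∀ a ∈ s, a.2.2 = (g a).2.2 := (Finset.sum_eq_sum_iff_of_le hg4).1 e5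
  have e7 : s.image g = t := by
    by_contra hne2
    obtain ⟨b, hb, hb2⟩ := Finset.exists_of_ssubset (Finset.ssubset_iff_subset_ne.2 ⟨hsub, hne2⟩)
    have : ∑ b ∈ s.image g, b.2.2 < ∑ b ∈ t, b.2.2 := by
      apply Finset.sum_lt_sum_of_subset hsub hb hb2
      · have := ht2 b hb
        omega
      · intro j _ _
        exact Nat.zero_le _
    omega
  have e8 : ∀ a ∈ s, g a = a := by
    intro a ha
    have h1 := hg2 a ha
    have h2 := hg3 a ha
    have h3 := e6 a ha
    exact Prod.ext h1 (Prod.ext h2 h3.symm)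
  apply hne
  rw [← e7]
  ext x
  rw [Finset.mem_image]
  constructor
  · intro hx
    exact ⟨x, hx, e8 x hx⟩
  · rintro ⟨a, ha, rfl⟩
    rw [e8 a ha]
    exact ha

theorem R1_gen {t : Finset (L × L × ℕ)} (ht : Fn t) (M : ℕ) (hM : ∀ b ∈ t, b.2.2 ≤ M) :
    (Dn φ t).Finite ∧ (Dn φ t).ncard ≤ (M + 1) ^ t.card := by
  classical
  let g : Finset (L × L × ℕ) → (t → Fin (M + 1)) := fun s b =>
    if h : ∃ a ∈ s, a.1 = b.1.1 ∧ a.2.2 ≤ M then ⟨h.choose.2.2, by
      have := h.choose_spec.2.2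
      omega⟩ else 0
  have key : ∀ s ∈ Dn φ t, ∀ s' ∈ Dn φ t, g s = g s' → s ⊆ s' := by
    intro s hs s' hs' hg a ha
    obtain ⟨⟨hs1, hs2, -, -⟩, hs5⟩ := hs
    obtain ⟨⟨hs1', hs2', -, -⟩, hs5'⟩ := hs'
    obtain ⟨b, hb, e1, e2, e3⟩ := hs5 a ha
    have hbM := hM b hb
    have hex : ∃ a ∈ s, a.1 = b.1 ∧ a.2.2 ≤ M := ⟨a, ha, e1.symm, e3.trans hbM⟩
    have h1 := congrFun hg ⟨b, hb⟩
    have h2 : ((g s ⟨b, hb⟩ : Fin (M + 1)) : ℕ) = a.2.2 := by
      have h3 : g s ⟨b, hb⟩ = ⟨hex.choose.2.2, by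
        have := hex.choose_spec.2.2
        omega⟩ := by
        simp only [g]
        rw [dif_pos hex]
      rw [h3]
      have h4 := hex.choose_spec
      have h5 : hex.choose = a := hs1 _ h4.1 a ha (h4.2.1.trans e1)
      show hex.choose.2.2 = a.2.2
      rw [h5]
    have ha2 := hs2 a ha
    by_cases hex' : ∃ a ∈ s', a.1 = b.1 ∧ a.2.2 ≤ M
    · have h3 : g s' ⟨b, hb⟩ = ⟨hex'.choose.2.2, by
        have := hex'.choose_spec.2.2
        omega⟩ := by
        simp only [g]
        rw [dif_pos hex']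
      have h4 := hex'.choose_spec
      have h5 : hex'.choose.2.2 = a.2.2 := by
        rw [← h2, h1, h3]
      obtain ⟨b', hb', f1, f2, f3⟩ := hs5' _ h4.1
      have h6 : b' = b := ht b' hb' b hb (f1.trans h4.2.1)
      have h7 : hex'.choose = a := by
        refine Prod.ext (h4.2.1.trans e1) (Prod.ext ?_ h5)
        rw [← f2, h6, e2]
      rw [← h7]
      exact h4.1
    · exfalso
      have h3 : g s' ⟨b, hb⟩ = 0 := by
        simp only [g]
        rw [dif_neg hex']
      rw [h1, h3] at h2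
      simp at h2
      omega
  have hinj : Set.InjOn g (Dn φ t) := by
    intro s hs s' hs' hg
    exact Finset.Subset.antisymm (key s hs s' hs' hg) (key s' hs' s hs hg.symm)
  refine ⟨Set.Finite.of_finite_image (Set.toFinite _) hinj, ?_⟩
  have h1 := Set.ncard_le_ncard_of_injOn g (s := Dn φ t) (t := Set.univ) (fun a _ => Set.mem_univ _)
    hinj (Set.toFinite _)
  refine h1.trans ?_
  rw [Set.ncard_univ, Nat.card_eq_fintype_card]
  simp

/-- The structures below complete critical data: they are determined by the function which maps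
`b ∈ c` to the third component of the triple over the same point (`0` if there is none); `c` has at
most `n` elements and the third components are at most `n + 1`. -/
theorem Dn_finite {n : ℕ} {c : Finset (L × L × ℕ)} (hc : Crt φ n c) :
    (Dn φ c).Finite ∧ (Dn φ c).ncard ≤ bB n := by
  obtain ⟨h1, h2, -, h4⟩ := hc
  have hM : ∀ b ∈ c, b.2.2 ≤ n + 1 := by
    intro b hb
    have h5 : b.2.2 - 1 ≤ ∑ a ∈ c, (a.2.2 - 1) :=
      Finset.single_le_sum (f := fun a : L × L × ℕ => a.2.2 - 1) (fun _ _ => Nat.zero_le _) hb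
    omega
  have hcard : c.card ≤ n := by
    rw [← h4, Finset.card_eq_sum_ones]
    apply Finset.sum_le_sum
    intro a ha
    have := h2 a ha
    omega
  obtain ⟨h6, h7⟩ := R1_gen (φ := φ) h1 (n + 1) hM
  refine ⟨h6, h7.trans ?_⟩
  unfold bB
  exact Nat.pow_le_pow_right (by omega) hcard

/-- Finiteness for every structure (or any `t` determined by the first components). -/
theorem Dn_finite' {t : Finset (L × L × ℕ)} (ht : Fn t) : (Dn φ t).Finite := by
  refine (R1_gen (φ := φ) ht (∑ b ∈ t, b.2.2) ?_).1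
  intro b hb
  exact Finset.single_le_sum (f := fun a : L × L × ℕ => a.2.2) (fun _ _ => Nat.zero_le _) hb

end SBr
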