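import Pool.Agent.H.MP_cc3311_ag.R8

/-!
# MP_cc3311_ag, R8b: the number of pairs with a given structure
-/

set_option autoImplicit false

namespace SBr

open Polynomial

variable (K : Type) [Field K] [Fintype K]

/-- All pairs: `P` monic of degree `n`, `α` of degree less than `n`. -/
def Pr (n : ℕ) : Set (K[X] × K[X]) := {x | x.1 ∈ Mo K n ∧ x.2.degree < n}

theorem R8b_degreeLT_ncard (n : ℕ) :
    {α : K[X] | α.degree < n}.Finite ∧
      {α : K[X] | α.degree < n}.ncard = Fintype.card K ^ n := by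
  have h1 : {α : K[X] | α.degree < n} = ((degreeLT K n : Submodule K K[X]) : Set K[X]) := by
    ext α
    simp only [Set.mem_ofPred_eq, SetLike.mem_coe, mem_degreeLT]
  rw [h1]
  refine ⟨A4_degreeLT_finite K n, ?_⟩
  have h4 : ((degreeLT K n : Submodule K K[X]) : Set K[X]).ncard = Nat.card (degreeLT K n) := rfl
  rw [h4, Nat.card_congr (degreeLTEquiv K n).toEquiv, Nat.card_eq_fintype_card, Fintype.card_fun,
    Fintype.card_fin]

theorem R8b_Mo (n : ℕ) : (Mo K n).Finite ∧ (Mo K n).ncard = Fintype.card K ^ n := by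
  refine ⟨(monic_finite K n).subset ?_, monic_ncard K n⟩
  rintro f ⟨hf, hd⟩
  exact ⟨hf, hd.le⟩

theorem Pr_card (n : ℕ) : (Pr K n).Finite ∧ (Pr K n).ncard = Fintype.card K ^ (2 * n) := by
  have h : Pr K n = Mo K n ×ˢ {α : K[X] | α.degree < n} := by
    ext x
    simp only [Pr, Set.mem_ofPred_eq, Set.mem_prod]
  rw [h]
  refine ⟨(R8b_Mo K n).1.prod (R8b_degreeLT_ncard K n).1, ?_⟩
  rw [Set.ncard_prod, (R8b_Mo K n).2, (R8b_degreeLT_ncard K n).2, ← pow_add, two_mul]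

variable {K} in
omit [Fintype K] in
theorem R8b_natDegree {s : Finset (AlgebraicClosure K × AlgebraicClosure K × ℕ)} (e : ℕ → ℕ)
    {B : K[X]} (hB : up B = ∏ a ∈ s, (X - C a.1) ^ e a.2.2) :
    B.natDegree = ∑ a ∈ s, e a.2.2 := by
  have h1 : (up B).natDegree = B.natDegree := by
    rw [up]
    exact natDegree_map _
  rw [← h1, hB, natDegree_prod_of_monic _ _ fun a _ => (monic_X_sub_C a.1).pow _]
  refine Finset.sum_congr rfl fun a _ => ?_
  rw [natDegree_pow, natDegree_X_sub_C, mul_one]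

theorem R8b_sum {L : Type} {s : Finset (L × L × ℕ)} (hs : Ge2 s) :
    ∑ a ∈ s, (a.2.2 - 1) + s.card = dg s := by
  rw [dg, Finset.card_eq_sum_ones, ← Finset.sum_add_distrib]
  refine Finset.sum_congr rfl fun a ha => ?_
  have := hs a ha
  omega

/-- THE COUNT for the pairs. PROOF. `∏ (X - x) ^ (m - 1) ∣ P`: `q ^ (n - dg s + |s|)` polynomials;
`α ≡ ρ` modulo `∏ (X - x)`: `q ^ (n - |s|)` polynomials; `2 |s| ≤ dg s` (`card_le`), and
`dg s - |s| ≤ n` (if `s` is empty it is zero). -/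
theorem countP {n : ℕ} (hn : 1 ≤ n) {s : Finset (AlgebraicClosure K × AlgebraicClosure K × ℕ)}
    (hs : Val (frob K) s) (hd : dg s ≤ n + 1) :
    {x | x ∈ Pr K n ∧ Le s (crP x.1 x.2)}.ncard * Fintype.card K ^ dg s =
      Fintype.card K ^ (2 * n) := by
  obtain ⟨hf, h2, hst, -⟩ := hs
  obtain ⟨B₁, hB₁m, hB₁⟩ := prod_down hst (fun m => m - 1)
  obtain ⟨B₂, hB₂m, hB₂⟩ := prod_down hst (fun _ => 1)
  obtain ⟨ρ, hρ⟩ := R8_crt hf hst (fun _ => 1)
  have hd₁ := R8b_natDegree (fun m => m - 1) hB₁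
  have hd₂ := R8b_natDegree (fun _ => 1) hB₂
  simp only [Finset.sum_const, smul_eq_mul, mul_one] at hd₂
  have hsum := R8b_sum h2
  have hcard := card_le h2
  have hm₁ : ∑ a ∈ s, (a.2.2 - 1) ≤ n := by
    rcases s.eq_empty_or_nonempty with rfl | hne
    · simp
    · have := hne.card_pos
      omega
  have hm₂ : s.card ≤ n := by omega
  have hA := R8_cong (ρ := 0) (B := B₁) (m := ∑ a ∈ s, (a.2.2 - 1)) (N := n) ⟨hB₁m, hd₁⟩ hm₁
  have hB := R8_cong' (ρ := ρ) (B := B₂) (m := s.card) (N := n) ⟨hB₂m, hd₂⟩ hm₂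
  have key : {x : K[X] × K[X] | x ∈ Pr K n ∧ Le s (crP x.1 x.2)} =
      {G | G ∈ Mo K n ∧ B₁ ∣ G - 0} ×ˢ {G : K[X] | G.degree < n ∧ B₂ ∣ G - ρ} := by
    ext ⟨P, α⟩
    simp only [Pr, Set.mem_ofPred_eq, Set.mem_prod, sub_zero]
    have h3 : P ∈ Mo K n → (Le s (crP P α) ↔ B₁ ∣ P ∧ B₂ ∣ α - ρ) := by
      intro hP
      rw [Le_crP hP.1.ne_zero α h2, R8_dvd hf (fun m => m - 1) hB₁,
        R8_dvd hf (fun _ => 1) hB₂, ← forall₂_and]
      refine forall₂_congr fun a ha => and_congr_right fun _ => ?_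
      have h4 := hρ a ha
      rw [pow_one, dvd_iff_isRoot, IsRoot, eval_sub, eval_C, sub_eq_zero] at h4
      have h5 : up (α - ρ) = up α - up ρ := by
        simp only [up, Polynomial.map_sub]
      rw [pow_one, dvd_iff_isRoot, IsRoot, h5, eval_sub, sub_eq_zero, h4]
    constructor
    · rintro ⟨⟨h4, h5⟩, h6⟩
      exact ⟨⟨h4, ((h3 h4).1 h6).1⟩, h5, ((h3 h4).1 h6).2⟩
    · rintro ⟨⟨h4, h5⟩, h6, h7⟩
      exact ⟨⟨h4, h6⟩, (h3 h4).2 ⟨h5, h7⟩⟩
  rw [key, Set.ncard_prod, hA, hB, ← pow_add, ← pow_add]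
  congr 1
  omega

end SBr
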