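import Pool.Agent.H.MP_cc3311_ag.R8a
import Pool.Agent.H.MP_cc3311_ag.R8b

/-!
# MP_cc3311_ag, R9: the tails
-/

set_option autoImplicit false

namespace SBr

open Polynomial

variable (K : Type) [Field K] [Fintype K]

theorem R9_nd_map {α β : Type} (s : Multiset α) {φ : α → β} (hφ : Function.Injective φ) :
    nd (s.map φ) = nd s := by
  unfold nd
  rw [← Set.ncard_image_of_injective {v | v ∈ s} hφ]
  congr 1
  ext v
  simp

/-- The numbers of critical values of `G` and of `f = G' / (n + 1)` are equal: `anti f` and `G / (n + 1)`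
differ by a constant. -/
theorem vals_crG {n : ℕ} (hG : Good K n) {G : K[X]} (h : G ∈ Mo K (n + 1)) :
    (vals (crG n G)).card = nd (cv (C (1 / ((n : K) + 1)) * derivative G)) := by
  have h1 := hG (n + 1) (by omega) (by omega)
  rw [Nat.cast_add, Nat.cast_one] at h1
  have h2 := crG_mem hG h
  unfold crG
  rw [vals_crP h2.1.ne_zero]
  have h3 : anti (C (1 / ((n : K) + 1)) * derivative G) =
      C (1 / ((n : K) + 1)) * (G - C (G.coeff 0)) := by
    rw [anti_C_mul, anti_derivative hG h.2.le]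
  have h4 : ∀ x : AlgebraicClosure K,
      (anti (up (C (1 / ((n : K) + 1)) * derivative G))).eval x =
        algebraMap K (AlgebraicClosure K) (1 / ((n : K) + 1)) *
          ((up G).eval x - algebraMap K (AlgebraicClosure K) (G.coeff 0)) := by
    intro x
    have h5 : anti (up (C (1 / ((n : K) + 1)) * derivative G)) =
        up (anti (C (1 / ((n : K) + 1)) * derivative G)) := by
      unfold up
      rw [anti_map]
    rw [h5, h3]
    unfold up
    rw [Polynomial.map_mul, map_C, Polynomial.map_sub, map_C, eval_mul, eval_C, eval_sub, eval_C]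
  have h6 : algebraMap K (AlgebraicClosure K) (1 / ((n : K) + 1)) ≠ 0 := by
    rw [Ne, map_eq_zero]
    exact one_div_ne_zero h1
  unfold cv cvO
  rw [Multiset.map_congr rfl fun x _ => h4 x]
  have h7 : ((up (C (1 / ((n : K) + 1)) * derivative G)).roots.map fun x =>
      algebraMap K (AlgebraicClosure K) (1 / ((n : K) + 1)) *
          ((up G).eval x - algebraMap K (AlgebraicClosure K) (G.coeff 0))) =
      ((up (C (1 / ((n : K) + 1)) * derivative G)).roots.map fun x => (up G).eval x).map
        (fun y => algebraMap K (AlgebraicClosure K) (1 / ((n : K) + 1)) *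
          (y - algebraMap K (AlgebraicClosure K) (G.coeff 0))) := by
    rw [Multiset.map_map]
    rfl
  rw [h7]
  refine (R9_nd_map _ ?_).symm
  intro y y' hy
  have h8 := mul_left_cancel₀ h6 hy
  exact sub_left_injective h8

theorem R9_count {n : ℕ} (hG : Good K n) (p : ℕ → Prop) :
    {G | G ∈ Mo K (n + 1) ∧ p (vals (crG n G)).card}.ncard =
      {f | f ∈ Mo K n ∧ p (nd (cv f))}.ncard * Fintype.card K := by
  have h1 := hG (n + 1) (by omega) (by omega)
  rw [Nat.cast_add, Nat.cast_one] at h1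
  have hf : ∀ f ∈ Mo K n, ∀ v : K, C (1 / ((n : K) + 1)) * derivative (GG n f v) = f := by
    intro f hf v
    rw [derivative_GG hG hf, ← mul_assoc, ← C_mul, one_div, inv_mul_cancel₀ h1, C_1, one_mul]
  have h2 : {G | G ∈ Mo K (n + 1) ∧ p (vals (crG n G)).card} =
      (fun x : K[X] × K => GG n x.1 x.2) ''
        ({f | f ∈ Mo K n ∧ p (nd (cv f))} ×ˢ (Set.univ : Set K)) := by
    ext G
    constructor
    · rintro ⟨h3, h4⟩
      obtain ⟨f, hf1, v, rfl⟩ := GG_surj hG h3
      refine ⟨(f, v), ⟨⟨hf1, ?_⟩, Set.mem_univ _⟩, rfl⟩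
      rw [vals_crG K hG h3, hf f hf1 v] at h4
      exact h4
    · rintro ⟨⟨f, v⟩, ⟨⟨hf1, hf2⟩, -⟩, rfl⟩
      have h3 := GG_mem hG hf1 v
      refine ⟨h3, ?_⟩
      show p (vals (crG n (GG n f v))).card
      rw [vals_crG K hG h3, hf f hf1 v]
      exact hf2
  rw [h2, Set.InjOn.ncard_image, Set.ncard_prod, Set.ncard_univ, Nat.card_eq_fintype_card]
  rintro ⟨f, v⟩ hx ⟨f', v'⟩ hx' hxx
  obtain ⟨h3, h4⟩ := GG_inj hG hx.1.1 hx'.1.1 hxx
  exact Prod.ext h3 h4

/-- `G ↦ (G' / (n + 1), G 0)` is a bijection; `tail_bound`. -/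
theorem tailG {n k : ℕ} (hG : Good K n) (hk : k ≤ n) :
    {G | G ∈ Mo K (n + 1) ∧ (vals (crG n G)).card + k ≤ n}.ncard ≤
      cT n * Fintype.card K ^ (n + 1 - k) := by
  rw [R9_count K hG (fun m => m + k ≤ n)]
  have h1 := tail_bound K hG hk
  have h2 : n + 1 - k = (n - k) + 1 := by omega
  rw [h2, pow_succ, ← mul_assoc]
  exact Nat.mul_le_mul_right _ h1

/-- The good objects. `G ↦ (G' / (n + 1), G 0)`, `N_eq`. -/
theorem goodG {n : ℕ} (hG : Good K n) :
    {G | G ∈ Mo K (n + 1) ∧ (vals (crG n G)).card = n}.ncard = Fintype.card K * N K n := by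
  classical
  rw [R9_count K hG (fun m => m = n), N_eq K hG, mul_comm]
  congr 2
  ext f
  simp only [Set.mem_ofPred_eq]
  refine and_congr_right fun hf => ?_
  have h1 : Multiset.card (cv f) = n := by
    rw [Lj_cv_card K]
    exact hf.2
  have h2 : nd (cv f) = (cv f).toFinset.card := by
    unfold nd
    rw [← Set.ncard_coe_finset]
    congr 1
    ext v
    simp
  rw [h2, ← h1, Multiset.toFinset_card_eq_card_iff_nodup]

end SBr
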