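import Pool.Agent.H.MP_cc3311_ag.R8b
import Pool.Agent.H.MP_cc3311_ag.Li

/-!
# MP_cc3311_ag, R9b: the tail for the pairs
-/

set_option autoImplicit false

namespace SBr

open Polynomial

variable (K : Type) [Field K] [Fintype K]

def cP (n : ℕ) : ℕ := (n + 1) ^ (3 * n + 3)

/-- The multiset of values is stable under Frobenius. -/
theorem R9b_stable (P α : K[X]) : ((up P).roots.map fun x => (up α).eval x).map (frob K) =
    (up P).roots.map fun x => (up α).eval x := by
  have h1 : (up P).roots.map (frob K) = (up P).roots := by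
    rw [← (IsAlgClosed.splits (up P)).roots_map (frob K), map_frob_up]
  have h2 : ∀ x : AlgebraicClosure K,
      frob K ((up α).eval x) = (up α).eval (frob K x) := by
    intro x
    rw [← eval_map_apply, map_frob_up]
  rw [Multiset.map_map]
  conv_rhs => rw [← h1, Multiset.map_map]
  refine Multiset.map_congr rfl ?_
  intro x _
  exact h2 x

variable {K}

theorem R9b_card {P : K[X]} {n : ℕ} (hP : P ∈ Mo K n) : Multiset.card (up P).roots = n := by
  rw [splits_iff_card_roots.1 (IsAlgClosed.splits (up P)), up_natDegree]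
  exact hP.2

theorem R9b_eq_of_roots {P Q : K[X]} {n : ℕ} (hP : P ∈ Mo K n) (hQ : Q ∈ Mo K n)
    (h : (up P).roots = (up Q).roots) : P = Q := by
  apply up_injective
  have h1 := (IsAlgClosed.splits (up P)).eq_prod_roots_of_monic (up_monic.2 hP.1)
  have h2 := (IsAlgClosed.splits (up Q)).eq_prod_roots_of_monic (up_monic.2 hQ.1)
  rw [h1, h2, h]

/-- The number of `α` with given values at the points of a stable set. -/
theorem R9b_alpha {n r : ℕ} {S : Finset (AlgebraicClosure K)} (hr : S.card = r) (hn : r ≤ n)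
    (hF : ∀ v ∈ S, frob K v ∈ S) (α₀ : K[X]) :
    {α : K[X] | α.degree < n ∧ ∀ y ∈ S, (up α).eval y = (up α₀).eval y}.Finite ∧
    {α : K[X] | α.degree < n ∧ ∀ y ∈ S, (up α).eval y = (up α₀).eval y}.ncard ≤
      Fintype.card K ^ (n - r) := by
  classical
  obtain ⟨B, hB1, hB2, hB3⟩ := Li_lift hr hF
  have hfin : {G : K[X] | G.degree < n ∧ B ∣ G - α₀}.Finite := by
    refine (A4_degreeLT_finite K n).subset ?_
    rintro G ⟨hG, -⟩
    rw [SetLike.mem_coe, mem_degreeLT]
    exact hG
  have hsub : {α : K[X] | α.degree < n ∧ ∀ y ∈ S, (up α).eval y = (up α₀).eval y} ⊆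
      {G : K[X] | G.degree < n ∧ B ∣ G - α₀} := by
    rintro α ⟨h1, h2⟩
    refine ⟨h1, ?_⟩
    have h3 : up B ∣ up α - up α₀ := by
      rw [hB3]
      refine Finset.prod_dvd_of_coprime ?_ ?_
      · intro x _ y _ hxy
        exact (pairwise_coprime_X_sub_C (Function.injective_id) hxy)
      · intro y hy
        rw [dvd_iff_isRoot, IsRoot, eval_sub, h2 y hy, sub_self]
    have h4 : up (α - α₀) = up α - up α₀ := by
      unfold up
      rw [Polynomial.map_sub]
    rw [← h4] at h3
    exact (Polynomial.map_dvd_map' _).1 h3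
  refine ⟨hfin.subset hsub, (Set.ncard_le_ncard hsub hfin).trans ?_⟩
  rw [R8_cong' (⟨hB1, hB2⟩ : B ∈ Mo K r) hn]

/-- The pairs with a given set of roots of `P`. -/
theorem R9b_set {n r : ℕ} (V : Multiset (AlgebraicClosure K)) {S : Finset (AlgebraicClosure K)}
    (hr : S.card = r) (hn : r ≤ n) (hF : ∀ v ∈ S, frob K v ∈ S) (A : Finset (K[X] × K[X]))
    (hA : ∀ x ∈ A, x ∈ Pr K n ∧ ((up x.1).roots.map fun y => (up x.2).eval y) = V ∧
      ∀ y, y ∈ (up x.1).roots ↔ y ∈ S) :
    A.card ≤ (n + 1) ^ (2 * n) * Fintype.card K ^ (n - r) := by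
  classical
  by_cases hV : Multiset.card V = n
  swap
  · have h1 : A = ∅ := by
      rw [Finset.eq_empty_iff_forall_notMem]
      intro x hx
      apply hV
      obtain ⟨h1, h2, -⟩ := hA x hx
      rw [← h2, Multiset.card_map]
      exact R9b_card h1.1
    rw [h1, Finset.card_empty]
    exact Nat.zero_le _
  set T1 : Finset (Multiset (AlgebraicClosure K)) := (Li_fiber n S (hr ▸ hn)).1.toFinset with hT1
  set T2 : Finset (S → AlgebraicClosure K) := Fintype.piFinset fun _ => V.toFinset with hT2
  have hc1 : T1.card ≤ (n + 1) ^ n := by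
    rw [hT1, ← Set.ncard_eq_toFinset_card _ (Li_fiber n S (hr ▸ hn)).1]
    exact (Li_fiber n S (hr ▸ hn)).2
  have hc2 : T2.card ≤ (n + 1) ^ n := by
    rw [hT2, Fintype.card_piFinset, Finset.prod_const, Finset.card_univ, Fintype.card_coe, hr]
    have h1 : V.toFinset.card ≤ n + 1 := by
      have := Multiset.toFinset_card_le V
      omega
    exact (Nat.pow_le_pow_left h1 r).trans (Nat.pow_le_pow_right (by omega) hn)
  have hmain : A.card ≤ Fintype.card K ^ (n - r) * (T1 ×ˢ T2).card := by
    refine Finset.card_le_mul_card_image_of_maps_to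
      (f := fun x : K[X] × K[X] => ((up x.1).roots, fun y : S => (up x.2).eval (y : AlgebraicClosure K)))
      ?_ _ ?_
    · intro x hx
      obtain ⟨h1, h2, h3⟩ := hA x hx
      rw [Finset.mem_product]
      refine ⟨?_, ?_⟩
      · rw [hT1, Set.Finite.mem_toFinset]
        refine ⟨R9b_card h1.1, ?_⟩
        ext y
        rw [Multiset.mem_toFinset]
        exact h3 y
      · rw [hT2, Fintype.mem_piFinset]
        intro y
        rw [Multiset.mem_toFinset, ← h2, Multiset.mem_map]
        exact ⟨y, (h3 y).2 y.2, rfl⟩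
    · rintro ⟨R, φ⟩ -
      rcases Finset.eq_empty_or_nonempty
        (A.filter fun x => ((up x.1).roots, fun y : S => (up x.2).eval (y : AlgebraicClosure K)) =
          (R, φ)) with he | ⟨x₀, hx₀⟩
      · rw [he, Finset.card_empty]
        exact Nat.zero_le _
      · rw [Finset.mem_filter] at hx₀
        obtain ⟨hx₀, h0⟩ := hx₀
        obtain ⟨h01, h02⟩ := Prod.ext_iff.1 h0
        obtain ⟨hfin, hcard⟩ := R9b_alpha hr hn hF x₀.2
        refine le_trans ?_ hcard
        rw [Set.ncard_eq_toFinset_card _ hfin]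
        refine Finset.card_le_card_of_injOn (fun x => x.2) ?_ ?_
        · intro x hx
          rw [Finset.mem_coe, Finset.mem_filter] at hx
          obtain ⟨hx, h1⟩ := hx
          obtain ⟨h11, h12⟩ := Prod.ext_iff.1 h1
          rw [Finset.mem_coe, Set.Finite.mem_toFinset]
          refine ⟨(hA x hx).1.2, fun y hy => ?_⟩
          have h3 := congrFun (h12.trans h02.symm) ⟨y, hy⟩
          exact h3
        · intro x hx z hz hxz
          rw [Finset.mem_coe, Finset.mem_filter] at hx hz
          have h1 := (Prod.ext_iff.1 hx.2).1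
          have h2 := (Prod.ext_iff.1 hz.2).1
          refine Prod.ext ?_ hxz
          exact R9b_eq_of_roots (hA x hx.1).1.1 (hA z hz.1).1.1 (h1.trans h2.symm)
  refine hmain.trans ?_
  rw [Finset.card_product, mul_comm]
  refine Nat.mul_le_mul_right _ ?_
  refine (Nat.mul_le_mul hc1 hc2).trans (le_of_eq ?_)
  rw [← pow_add]
  congr 1
  omega

variable (K)

/-- The pairs with a given multiset `V` of values. PROOF. Let `r` be the number of different roots of
`P`. There are at most `q ^ r` possible sets `X` of roots (`Li_sets`), then at most `(n + 1) ^ r`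
multiplicities, at most `n ^ r` functions `X → V`, and then at most `q ^ (n - r)` polynomials `α` of degree
less than `n` with these values (the difference of two is divisible by `∏ (X - x)`, which is defined
over `K`). Sum over `r ≤ n`. -/
theorem R9b_fibre {n : ℕ} (V : Multiset (AlgebraicClosure K)) :
    {x | x ∈ Pr K n ∧ ((up x.1).roots.map fun y => (up x.2).eval y) = V}.ncard ≤
      (n + 1) ^ (2 * n + 1) * Fintype.card K ^ n := by
  classical
  have hfin : {x | x ∈ Pr K n ∧ ((up x.1).roots.map fun y => (up x.2).eval y) = V}.Finite :=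
    (Pr_card K n).1.subset fun x hx => hx.1
  rw [Set.ncard_eq_toFinset_card _ hfin]
  set A := hfin.toFinset with hA
  have hmem : ∀ x ∈ A, x ∈ Pr K n ∧ ((up x.1).roots.map fun y => (up x.2).eval y) = V := by
    intro x hx
    rw [hA, Set.Finite.mem_toFinset] at hx
    exact hx
  have hstab : ∀ P : K[X], ∀ v ∈ (up P).roots.toFinset, frob K v ∈ (up P).roots.toFinset := by
    intro P v hv
    rw [Multiset.mem_toFinset] at hv ⊢
    have h1 : (up P).roots.map (frob K) = (up P).roots := by
      rw [← (IsAlgClosed.splits (up P)).roots_map (frob K), map_frob_up]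
    rw [← h1]
    exact Multiset.mem_map_of_mem _ hv
  have hle : ∀ x ∈ A, (up x.1).roots.toFinset.card ∈ Finset.range (n + 1) := by
    intro x hx
    rw [Finset.mem_range]
    have h1 := Multiset.toFinset_card_le (up x.1).roots
    rw [R9b_card (hmem x hx).1.1] at h1
    omega
  rw [Finset.card_eq_sum_card_fiberwise (f := fun x : K[X] × K[X] => (up x.1).roots.toFinset.card)
    (t := Finset.range (n + 1)) hle]
  have hr : ∀ r ∈ Finset.range (n + 1),
      (A.filter fun x => (up x.1).roots.toFinset.card = r).card ≤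
        (n + 1) ^ (2 * n) * Fintype.card K ^ n := by
    intro r hr
    rw [Finset.mem_range] at hr
    have h1 : (A.filter fun x => (up x.1).roots.toFinset.card = r).card ≤
        ((n + 1) ^ (2 * n) * Fintype.card K ^ (n - r)) * (Li_sets (K := K) r).1.toFinset.card := by
      refine Finset.card_le_mul_card_image_of_maps_to
        (f := fun x : K[X] × K[X] => (up x.1).roots.toFinset) ?_ _ ?_
      · intro x hx
        rw [Finset.mem_filter] at hx
        rw [Set.Finite.mem_toFinset]
        exact ⟨hx.2, hstab x.1⟩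
      · intro S hS
        rw [Set.Finite.mem_toFinset] at hS
        refine R9b_set V hS.1 (by omega) hS.2 _ ?_
        intro x hx
        rw [Finset.mem_filter, Finset.mem_filter] at hx
        refine ⟨(hmem x hx.1.1).1, (hmem x hx.1.1).2, fun y => ?_⟩
        rw [← hx.2, Multiset.mem_toFinset]
    refine h1.trans ?_
    have h2 : (Li_sets (K := K) r).1.toFinset.card ≤ Fintype.card K ^ r := by
      rw [← Set.ncard_eq_toFinset_card _ (Li_sets (K := K) r).1]
      exact (Li_sets (K := K) r).2
    refine (Nat.mul_le_mul_left _ h2).trans (le_of_eq ?_)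
    rw [mul_assoc, ← pow_add]
    congr 2
    omega
  refine (Finset.sum_le_sum hr).trans (le_of_eq ?_)
  rw [Finset.sum_const, Finset.card_range, smul_eq_mul, ← mul_assoc, pow_succ]
  ring

/-- `Li_multisets`, `R9b_fibre`, `vals_crP`. -/
theorem tailP {n k : ℕ} (hk : k ≤ n) :
    {x | x ∈ Pr K n ∧ (vals (crP x.1 x.2)).card + k ≤ n}.ncard ≤
      cP n * Fintype.card K ^ (2 * n - k) := by
  classical
  have hfin : {x | x ∈ Pr K n ∧ (vals (crP x.1 x.2)).card + k ≤ n}.Finite :=
    (Pr_card K n).1.subset fun x hx => hx.1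
  rw [Set.ncard_eq_toFinset_card _ hfin]
  obtain ⟨hM, hMc⟩ := Li_multisets (K := K) hk
  have h1 : hfin.toFinset.card ≤
      ((n + 1) ^ (2 * n + 1) * Fintype.card K ^ n) * hM.toFinset.card := by
    refine Finset.card_le_mul_card_image_of_maps_to
      (f := fun x : K[X] × K[X] => (up x.1).roots.map fun y => (up x.2).eval y) ?_ _ ?_
    · intro x hx
      rw [Set.Finite.mem_toFinset] at hx ⊢
      obtain ⟨hx1, hx2⟩ := hx
      refine ⟨?_, R9b_stable K _ _, ?_⟩
      · rw [Multiset.card_map]
        exact R9b_card hx1.1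
      · rw [← vals_crP hx1.1.1.ne_zero]
        exact hx2
    · intro V _
      refine le_trans ?_ (R9b_fibre K V)
      have hfin2 : {x | x ∈ Pr K n ∧ ((up x.1).roots.map fun y => (up x.2).eval y) = V}.Finite :=
        (Pr_card K n).1.subset fun x hx => hx.1
      rw [Set.ncard_eq_toFinset_card _ hfin2]
      refine Finset.card_le_card ?_
      intro x hx
      rw [Finset.mem_filter, Set.Finite.mem_toFinset] at hx
      rw [Set.Finite.mem_toFinset]
      exact ⟨hx.1.1, hx.2⟩
  rw [← Set.ncard_eq_toFinset_card _ hM] at h1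
  refine h1.trans ((Nat.mul_le_mul_left _ hMc).trans ?_)
  have h2 : Fintype.card K ^ n * Fintype.card K ^ (n - k) = Fintype.card K ^ (2 * n - k) := by
    rw [← pow_add]
    congr 1
    omega
  have h3 : (n + 1) ^ (2 * n + 1) * (n + 1) ^ (n + 1) ≤ cP n := by
    unfold cP
    rw [← pow_add]
    exact Nat.pow_le_pow_right (by omega) (by omega)
  calc (n + 1) ^ (2 * n + 1) * Fintype.card K ^ n *
        ((n + 1) ^ (n + 1) * Fintype.card K ^ (n - k))
      = ((n + 1) ^ (2 * n + 1) * (n + 1) ^ (n + 1)) *
        (Fintype.card K ^ n * Fintype.card K ^ (n - k)) := by ring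
    _ ≤ cP n * Fintype.card K ^ (2 * n - k) := by
      rw [h2]
      exact Nat.mul_le_mul_right _ h3

end SBr
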