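import Pool.Agent.H.MP_cc3311_ag.R6
import Pool.Agent.H.MP_cc3311_ag.R9
import Pool.Agent.H.MP_cc3311_ag.R9b

/-!
# MP_cc3311_ag, R10: the comparison theorem
-/

set_option autoImplicit false

namespace SBr

open Polynomial

variable (K : Type) [Field K] [Fintype K]

/-- The pairs `(P, α)`: `P` monic squarefree of degree `n`, `α` of degree less than `n` with different
values at the roots of `P` in the algebraic closure. -/
def CC (n : ℕ) : Set (K[X] × K[X]) :=
  {x | x.1 ∈ Sq K n ∧ x.2.degree < n ∧ ∀ y z : AlgebraicClosure K, (up x.1).IsRoot y →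
    (up x.1).IsRoot z → (up x.2).eval y = (up x.2).eval z → y = z}

/-- The good pairs are the elements of `CC`. -/
theorem goodP (n : ℕ) : {x | x ∈ Pr K n ∧ (vals (crP x.1 x.2)).card = n} = CC K n := by
  classical
  have hnd : ∀ s : Multiset (AlgebraicClosure K), nd s = Multiset.card s ↔ s.Nodup := by
    intro s
    have h0 : nd s = s.toFinset.card := by
      unfold nd
      rw [← Set.ncard_coe_finset]
      congr 1
      ext v
      simp
    rw [h0, Multiset.toFinset_card_eq_card_iff_nodup]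
  ext ⟨P, α⟩
  simp only [Set.mem_ofPred_eq, Pr, CC, Sq, Mo]
  have hcard : P.Monic → P.natDegree = n →
      Multiset.card ((up P).roots.map fun x => (up α).eval x) = n := by
    intro hm hd
    rw [Multiset.card_map, splits_iff_card_roots.1 (IsAlgClosed.splits (up P)), up_natDegree, hd]
  have hsep : P.Monic → (Squarefree P ↔ (up P).roots.Nodup) := by
    intro hm
    rw [nodup_roots_iff_of_splits (up_monic.2 hm).ne_zero (IsAlgClosed.splits _), up,
      separable_map, PerfectField.separable_iff_squarefree]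
  constructor
  · rintro ⟨⟨⟨hm, hd⟩, ha⟩, hc⟩
    rw [vals_crP hm.ne_zero, ← hcard hm hd, hnd] at hc
    refine ⟨⟨hm, hd, ?_⟩, ha, ?_⟩
    · rw [hsep hm]
      exact Multiset.Nodup.of_map _ hc
    · intro y z hy hz h
      exact Multiset.inj_on_of_nodup_map hc y ((mem_roots (up_monic.2 hm).ne_zero).2 hy) z
        ((mem_roots (up_monic.2 hm).ne_zero).2 hz) h
  · rintro ⟨⟨hm, hd, hs⟩, ha, hi⟩
    refine ⟨⟨⟨hm, hd⟩, ha⟩, ?_⟩
    rw [vals_crP hm.ne_zero, ← hcard hm hd, hnd]
    refine Multiset.Nodup.map_on (fun y hy z hz h => ?_) ((hsep hm).1 hs)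
    exact hi y z ((mem_roots (up_monic.2 hm).ne_zero).1 hy)
      ((mem_roots (up_monic.2 hm).ne_zero).1 hz) h

/-- PROOF. `compare` with `L` the algebraic closure, `φ = frob K`, the polynomials `G` of degree `n + 1`
(`crG`) and the pairs (`crP`). If `cod s ≤ k` then `dg s ≤ 4 k ≤ n + 1` (`dg_le`); `countG`, `countP`;
the tails with `k + 1 ≤ n` (`tailG`, `tailP`); `goodG`, `goodP`, `Pr_card`, `monic_ncard`. -/
theorem comparison {n k : ℕ} (hG : Good K n) (hn : 1 ≤ n) (hk : 4 * k ≤ n + 1) :
    |(Fintype.card K : ℤ) ^ n * (N K n : ℤ) - ((CC K n).ncard : ℤ)| *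
      (Fintype.card K : ℤ) ^ (k + 1) ≤
      (bR n : ℤ) * (cT n + cP n) * (Fintype.card K : ℤ) ^ (2 * n) := by
  classical
  have hq : 1 ≤ Fintype.card K := Fintype.card_pos
  have hfM : (Mo K (n + 1)).Finite :=
    (monic_finite K (n + 1)).subset fun f hf => ⟨hf.1, hf.2.le⟩
  obtain ⟨hfP, hcP⟩ := Pr_card K n
  have hcM : (Mo K (n + 1)).ncard = Fintype.card K ^ (n + 1) := monic_ncard K (n + 1)
  have hT : hfM.toFinset.card = Fintype.card K ^ (n + 1) := by
    rw [← Set.ncard_eq_toFinset_card _ hfM, hcM]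
  have hT' : hfP.toFinset.card = Fintype.card K ^ (2 * n) := by
    rw [← Set.ncard_eq_toFinset_card _ hfP, hcP]
  have hfl : ∀ (p : K[X] → Prop) [DecidablePred p], (hfM.toFinset.filter p).card =
      {G | G ∈ Mo K (n + 1) ∧ p G}.ncard := by
    intro p _
    rw [← Set.ncard_coe_finset]
    congr 1
    ext G
    simp
  have hfl' : ∀ (p : K[X] × K[X] → Prop) [DecidablePred p], (hfP.toFinset.filter p).card =
      {x | x ∈ Pr K n ∧ p x}.ncard := by
    intro p _
    rw [← Set.ncard_coe_finset]
    congr 1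
    ext x
    simp
  have key := compare (L := AlgebraicClosure K) (φ := frob K) (n := n) frob_injective (k := k) hq
    hfM.toFinset hfP.toFinset (crG n) (fun x => crP x.1 x.2)
    (fun G hGm => crP_crt (crG_mem hG ((Set.Finite.mem_toFinset hfM).1 hGm)) G)
    (fun x hx => crP_crt ((Set.Finite.mem_toFinset hfP).1 hx).1 x.2)
    (fun s hs hk' => by
      have h1 := dg_le hs
      rw [hfl, hT]
      exact countG hG hs (by omega))
    (fun s hs hk' => by
      have h1 := dg_le hs
      rw [hfl', hT']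
      exact countP K hn hs (by omega))
    (cT n) (cP n)
    (by
      rw [hfl, hT]
      rcases Nat.lt_or_ge n (k + 1) with h | h
      · have h0 : {G | G ∈ Mo K (n + 1) ∧ (vals (crG n G)).card + k + 1 ≤ n} = ∅ := by
          rw [Set.eq_empty_iff_forall_notMem]
          rintro G ⟨-, hGG⟩
          omega
        rw [h0, Set.ncard_empty, zero_mul]
        exact Nat.zero_le _
      · have h1 := tailG K hG h
        have h2 : {G | G ∈ Mo K (n + 1) ∧ (vals (crG n G)).card + k + 1 ≤ n} =
            {G | G ∈ Mo K (n + 1) ∧ (vals (crG n G)).card + (k + 1) ≤ n} := rfl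
        rw [h2]
        refine (Nat.mul_le_mul_right _ h1).trans (le_of_eq ?_)
        rw [mul_assoc, ← pow_add]
        congr 2
        omega)
    (by
      rw [hfl', hT']
      rcases Nat.lt_or_ge n (k + 1) with h | h
      · have h0 : {x | x ∈ Pr K n ∧ (vals (crP x.1 x.2)).card + k + 1 ≤ n} = ∅ := by
          rw [Set.eq_empty_iff_forall_notMem]
          rintro G ⟨-, hGG⟩
          omega
        rw [h0, Set.ncard_empty, zero_mul]
        exact Nat.zero_le _
      · have h1 := tailP K h
        have h2 : {x | x ∈ Pr K n ∧ (vals (crP x.1 x.2)).card + k + 1 ≤ n} =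
            {x | x ∈ Pr K n ∧ (vals (crP x.1 x.2)).card + (k + 1) ≤ n} := rfl
        rw [h2]
        refine (Nat.mul_le_mul_right _ h1).trans (le_of_eq ?_)
        rw [mul_assoc, ← pow_add]
        congr 2
        omega)
  rw [hfl, hfl', goodG K hG, goodP, hT, hT'] at key
  have hq0 : (0 : ℤ) < (Fintype.card K : ℤ) ^ (n + 1) := by
    have : (0 : ℤ) < (Fintype.card K : ℤ) := by exact_mod_cast hq
    positivity
  refine le_of_mul_le_mul_left ?_ hq0
  have h3 : (Fintype.card K : ℤ) ^ (n + 1) * (|(Fintype.card K : ℤ) ^ n * (N K n : ℤ) -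
      ((CC K n).ncard : ℤ)| * (Fintype.card K : ℤ) ^ (k + 1)) =
      |((Fintype.card K * N K n : ℕ) : ℤ) * ((Fintype.card K ^ (2 * n) : ℕ) : ℤ) -
      ((CC K n).ncard : ℤ) * ((Fintype.card K ^ (n + 1) : ℕ) : ℤ)| *
      (Fintype.card K : ℤ) ^ (k + 1) := by
    rw [← mul_assoc, ← abs_of_pos hq0, ← abs_mul]
    congr 2
    push_cast
    ring
  rw [h3]
  refine key.trans (le_of_eq ?_)
  push_cast
  ring

end SBr
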