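import Pool.Agent.H.MP_cc3311_ag.R1

/-!
# MP_cc3311_ag, R2: degree and codimension
-/

set_option autoImplicit false

namespace SBr

variable {L : Type} {φ : L → L}

/-- `∑ (m - 1)` over all triples is `∑ ex` over the values. -/
theorem sum_ex (s : Finset (L × L × ℕ)) : ∑ v ∈ vals s, ex s v = ∑ a ∈ s, (a.2.2 - 1) := by
  classical
  unfold vals ex
  apply Finset.sum_fiberwise_of_maps_to
  intro a ha
  exact Finset.mem_image_of_mem _ ha

/-- For every value: `∑ m ≤ 2 ∑ (m - 1) = 2 ex ≤ 4 (ex - 1)`. -/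
theorem dg_le {s : Finset (L × L × ℕ)} (hs : Val φ s) : dg s ≤ 4 * cod s := by
  classical
  obtain ⟨h1, h2, h3, h4⟩ := hs
  have e1 : dg s ≤ ∑ a ∈ s, 2 * (a.2.2 - 1) := by
    unfold dg
    apply Finset.sum_le_sum
    intro a ha
    have := h2 a ha
    omega
  have e2 : ∑ a ∈ s, 2 * (a.2.2 - 1) = 2 * ∑ v ∈ vals s, ex s v := by
    rw [sum_ex, Finset.mul_sum]
  have e3 : ∑ v ∈ vals s, ex s v ≤ ∑ v ∈ vals s, 2 * (ex s v - 1) := by
    apply Finset.sum_le_sum
    intro v hv
    have hv' : ∃ a ∈ s, a.2.1 = v := by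
      unfold vals at hv
      exact Finset.mem_image.1 hv
    obtain ⟨a, ha, rfl⟩ := hv'
    have := h4 a ha
    omega
  have e4 : ∑ v ∈ vals s, 2 * (ex s v - 1) = 2 * cod s := by
    unfold cod
    rw [Finset.mul_sum]
  omega

/-- `ex` is monotone. -/
theorem R2_ex_mono {s t : Finset (L × L × ℕ)} (hs : Fn s) (h : Le s t) (v : L) :
    ex s v ≤ ex t v := by
  classical
  choose! b hb using h
  have hinj : Set.InjOn b (s.filter (fun a => a.2.1 = v) : Finset (L × L × ℕ)) := by
    intro a ha a' ha' haa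
    have ha1 := (Finset.mem_filter.1 (Finset.mem_coe.1 ha)).1
    have ha2 := (Finset.mem_filter.1 (Finset.mem_coe.1 ha')).1
    apply hs a ha1 a' ha2
    rw [← (hb a ha1).2.1, ← (hb a' ha2).2.1, haa]
  unfold ex
  calc ∑ a ∈ s.filter (fun a => a.2.1 = v), (a.2.2 - 1)
      ≤ ∑ a ∈ s.filter (fun a => a.2.1 = v), ((b a).2.2 - 1) := by
        apply Finset.sum_le_sum
        intro a ha
        have := (hb a (Finset.mem_filter.1 ha).1).2.2.2
        omega
    _ = ∑ c ∈ (s.filter (fun a => a.2.1 = v)).image b, (c.2.2 - 1) := by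
        rw [Finset.sum_image hinj]
    _ ≤ ∑ c ∈ t.filter (fun a => a.2.1 = v), (c.2.2 - 1) := by
        apply Finset.sum_le_sum_of_subset
        intro c hc
        obtain ⟨a, ha, rfl⟩ := Finset.mem_image.1 hc
        obtain ⟨ha1, ha2⟩ := Finset.mem_filter.1 ha
        obtain ⟨hb1, hb2, hb3, hb4⟩ := hb a ha1
        exact Finset.mem_filter.2 ⟨hb1, by rw [hb3, ha2]⟩

/-- The values of `s` are values of `t`, `ex s v ≤ ex t v`, and the other values of `t` contribute
nonnegative terms. -/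
theorem cod_mono {s t : Finset (L × L × ℕ)} (hs : Fn s) (ht : Fn t) (h : Le s t) :
    cod s ≤ cod t := by
  classical
  unfold cod
  calc ∑ v ∈ vals s, (ex s v - 1) ≤ ∑ v ∈ vals s, (ex t v - 1) := by
        apply Finset.sum_le_sum
        intro v hv
        have := R2_ex_mono hs h v
        omega
    _ ≤ ∑ v ∈ vals t, (ex t v - 1) := by
        apply Finset.sum_le_sum_of_subset
        intro v hv
        unfold vals at hv ⊢
        obtain ⟨a, ha, rfl⟩ := Finset.mem_image.1 hv
        obtain ⟨b, hb1, hb2, hb3, hb4⟩ := h a ha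
        exact Finset.mem_image.2 ⟨b, hb1, hb3⟩

/-- `2 |s| ≤ dg s`. -/
theorem card_le {s : Finset (L × L × ℕ)} (hs : Ge2 s) : 2 * s.card ≤ dg s := by
  unfold dg
  have := Finset.card_nsmul_le_sum s (fun a => a.2.2) 2 (fun a ha => hs a ha)
  rw [smul_eq_mul] at this
  omega

end SBr
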