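import Pool.Agent.H.MP_cc3311_ag.R2

/-!
# MP_cc3311_ag, R3: the maximal structure of complete critical data
-/

set_option autoImplicit false

namespace SBr

variable {L : Type} {φ : L → L} {n : ℕ} {c : Finset (L × L × ℕ)}

/-- The map `(x, v, m) ↦ (φ x, φ v, m)` is a bijection of `c`. -/
theorem ex_phi (hφ : Function.Injective φ) (hc : Stb φ c) (v : L) : ex c (φ v) = ex c v := by
  classical
  let F : L × L × ℕ → L × L × ℕ := fun a => (φ a.1, φ a.2.1, a.2.2)
  have hF : Function.Injective F := by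
    rintro ⟨a, b, m⟩ ⟨a', b', m'⟩ h
    simp only [F, Prod.mk.injEq] at h
    obtain ⟨h1, h2, h3⟩ := h
    rw [hφ h1, hφ h2, h3]
  have himg : c.image F = c := by
    apply Finset.eq_of_subset_of_card_le
    · intro b hb
      rw [Finset.mem_image] at hb
      obtain ⟨a, ha, rfl⟩ := hb
      exact hc a ha
    · rw [Finset.card_image_of_injective _ hF]
  have h1 : ex c (φ v) = ∑ a ∈ (c.image F).filter (fun a => a.2.1 = φ v), (a.2.2 - 1) := by
    rw [himg]
    unfold ex
    congr!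
  have h2 : ex c v = ∑ a ∈ c.filter (fun a => a.2.1 = v), (a.2.2 - 1) := by
    unfold ex
    congr!
  rw [h1, h2, Finset.filter_image, Finset.sum_image (fun _ _ _ _ h => hF h)]
  apply Finset.sum_congr
  · apply Finset.filter_congr
    intro a _
    exact ⟨fun h => hφ h, fun h => congrArg φ h⟩
  · intro a _
    rfl

theorem R3_mem_smax {a : L × L × ℕ} : a ∈ smax c ↔ a ∈ c ∧ 2 ≤ ex c a.2.1 := by
  classical
  unfold smax
  rw [Finset.mem_filter]

theorem R3_mem_vals {s : Finset (L × L × ℕ)} {v : L} : v ∈ vals s ↔ ∃ a ∈ s, a.2.1 = v := by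
  classical
  unfold vals
  rw [Finset.mem_image]

theorem R3_ex_eq (s : Finset (L × L × ℕ)) (v : L) [DecidablePred fun a : L × L × ℕ => a.2.1 = v] :
    ex s v = ∑ a ∈ s.filter (fun a => a.2.1 = v), (a.2.2 - 1) := by
  unfold ex
  congr!

theorem ex_smax (v : L) (hv : 2 ≤ ex c v) : ex (smax c) v = ex c v := by
  classical
  rw [R3_ex_eq (smax c) v, R3_ex_eq c v]
  apply Finset.sum_congr
  · ext a
    rw [Finset.mem_filter, Finset.mem_filter, R3_mem_smax]
    constructor
    · rintro ⟨⟨h1, _⟩, h2⟩; exact ⟨h1, h2⟩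
    · rintro ⟨h1, h2⟩; exact ⟨⟨h1, by rw [h2]; exact hv⟩, h2⟩
  · intro a _
    rfl

theorem smax_val (hφ : Function.Injective φ) (hc : Crt φ n c) : Val φ (smax c) := by
  obtain ⟨h1, h2, h3, _⟩ := hc
  refine ⟨?_, ?_, ?_, ?_⟩
  · intro a ha b hb hab
    exact h1 a (R3_mem_smax.1 ha).1 b (R3_mem_smax.1 hb).1 hab
  · intro a ha
    exact h2 a (R3_mem_smax.1 ha).1
  · intro a ha
    rw [R3_mem_smax] at ha ⊢
    refine ⟨h3 a ha.1, ?_⟩
    rw [ex_phi hφ h3]
    exact ha.2
  · intro a ha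
    rw [R3_mem_smax] at ha
    rw [ex_smax _ ha.2]
    exact ha.2

/-- The total multiplicities are monotone. -/
theorem R3_ex_mono {s t : Finset (L × L × ℕ)} (hs : Fn s) (h : Le s t) (v : L) :
    ex s v ≤ ex t v := by
  classical
  choose! g hg using h
  rw [R3_ex_eq s v, R3_ex_eq t v]
  have hinj : Set.InjOn g (s.filter (fun a => a.2.1 = v) : Set (L × L × ℕ)) := by
    intro a ha b hb hab
    rw [Finset.mem_coe, Finset.mem_filter] at ha hb
    apply hs a ha.1 b hb.1
    rw [← (hg a ha.1).2.1, ← (hg b hb.1).2.1, hab]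
  calc ∑ a ∈ s.filter (fun a => a.2.1 = v), (a.2.2 - 1)
      ≤ ∑ a ∈ s.filter (fun a => a.2.1 = v), ((g a).2.2 - 1) := by
        apply Finset.sum_le_sum
        intro a ha
        rw [Finset.mem_filter] at ha
        have := (hg a ha.1).2.2.2
        omega
    _ = ∑ b ∈ (s.filter (fun a => a.2.1 = v)).image g, (b.2.2 - 1) := by
        rw [Finset.sum_image hinj]
    _ ≤ ∑ a ∈ t.filter (fun a => a.2.1 = v), (a.2.2 - 1) := by
        apply Finset.sum_le_sum_of_subset
        intro b hb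
        rw [Finset.mem_image] at hb
        obtain ⟨a, ha, rfl⟩ := hb
        rw [Finset.mem_filter] at ha ⊢
        exact ⟨(hg a ha.1).1, by rw [(hg a ha.1).2.2.1]; exact ha.2⟩

/-- For `a ∈ s` the triple `b` of `c` over the same point has `ex c v ≥ ex s v ≥ 2`. -/
theorem le_smax_iff (hc : Crt φ n c) {s : Finset (L × L × ℕ)} (hs : Val φ s) :
    Le s c ↔ Le s (smax c) := by
  constructor
  · intro h a ha
    obtain ⟨b, hb, h1, h2, h3⟩ := h a ha
    refine ⟨b, R3_mem_smax.2 ⟨hb, ?_⟩, h1, h2, h3⟩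
    rw [h2]
    exact (hs.2.2.2 a ha).trans (R3_ex_mono hs.1 h _)
  · intro h a ha
    obtain ⟨b, hb, h1, h2, h3⟩ := h a ha
    exact ⟨b, (R3_mem_smax.1 hb).1, h1, h2, h3⟩

theorem R3_ex_pos (h2 : Ge2 c) {v : L} (hv : v ∈ vals c) : 1 ≤ ex c v := by
  classical
  rw [R3_mem_vals] at hv
  obtain ⟨a, ha, hav⟩ := hv
  rw [R3_ex_eq c v]
  have h1 : a.2.2 - 1 ≤ ∑ a ∈ c.filter (fun a => a.2.1 = v), (a.2.2 - 1) :=
    Finset.single_le_sum (f := fun a : L × L × ℕ => a.2.2 - 1) (fun _ _ => Nat.zero_le _)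
      (Finset.mem_filter.2 ⟨ha, hav⟩)
  have := h2 a ha
  omega

theorem R3_vals_smax [DecidablePred fun v : L => 2 ≤ ex c v] :
    vals (smax c) = (vals c).filter fun v => 2 ≤ ex c v := by
  ext v
  rw [Finset.mem_filter, R3_mem_vals, R3_mem_vals]
  constructor
  · rintro ⟨a, ha, rfl⟩
    rw [R3_mem_smax] at ha
    exact ⟨⟨a, ha.1, rfl⟩, ha.2⟩
  · rintro ⟨⟨a, ha, rfl⟩, h⟩
    exact ⟨a, R3_mem_smax.2 ⟨ha, h⟩, rfl⟩

/-- `n = ∑ ex c v` over the values `v` of `c`, and the values of `smax c` are those with `ex ≥ 2`. -/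
theorem cod_smax (hc : Crt φ n c) : cod (smax c) + (vals c).card = n := by
  classical
  obtain ⟨_, h2, _, h4⟩ := hc
  have h5 : cod (smax c) = ∑ v ∈ vals c, (ex c v - 1) := by
    unfold cod
    rw [R3_vals_smax, Finset.sum_filter]
    apply Finset.sum_congr rfl
    intro v _
    by_cases h : 2 ≤ ex c v
    · rw [if_pos h, ex_smax v h]
    · rw [if_neg h]
      omega
  rw [h5, ← h4, ← sum_ex, Finset.card_eq_sum_ones, ← Finset.sum_add_distrib]
  apply Finset.sum_congr rfl
  intro v hv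
  have := R3_ex_pos h2 hv
  omega

theorem smax_empty (hc : Crt φ n c) : smax c = ∅ ↔ (vals c).card = n := by
  classical
  have h := cod_smax hc
  constructor
  · intro h1
    have h2 : cod (smax c) = 0 := by
      rw [h1]
      unfold cod vals
      simp
    omega
  · intro h1
    have h2 : cod (smax c) = 0 := by omega
    unfold cod at h2
    rw [Finset.sum_eq_zero_iff] at h2
    rw [Finset.eq_empty_iff_forall_notMem]
    intro a ha
    have h3 := h2 a.2.1 (R3_mem_vals.2 ⟨a, ha, rfl⟩)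
    have h4 := (R3_mem_smax.1 ha).2
    rw [ex_smax _ h4] at h3
    omega

end SBr
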