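import Pool.Agent.H.MP_cc3311_ag.R1

/-!
# MP_cc3311_ag, R4: the weights (a Moebius function)
-/

set_option autoImplicit false

namespace SBr

variable {L : Type}

open Finset in
/-- PROOF. Recursion on the degree: `w t = [t = ∅] - ∑ w s` over the `s ∈ Dn φ t`, `s ≠ t`, which have
smaller degree (`dg_lt`). The bound by induction on the degree: if `s ∈ Dn φ t`, `s ≠ t`, then
`Dn φ s ⊂ Dn φ t` is a proper subset, so with `b = |Dn φ t|` we get
`|w t| ≤ (b - 1) (b - 1)! ≤ b!` for `t ≠ ∅`, and `|w ∅| = 1`. -/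
theorem exists_weight (φ : L → L) : ∃ w : Finset (L × L × ℕ) → ℤ, ∀ t, Val φ t →
    ∑ᶠ s ∈ Dn φ t, w s = bt t ∧
      |w t| ≤ (((Dn φ t).ncard.factorial : ℕ) : ℤ) := by
  classical
  set W : Finset (L × L × ℕ) → ℤ := (measure (dg (L := L))).wf.fix
    (fun t ih => bt t - ∑ᶠ s ∈ Dn φ t \ {t}, if h : dg s < dg t then ih s h else 0) with hW
  have hWeq : ∀ t, W t = bt t - ∑ᶠ s ∈ Dn φ t \ {t}, if dg s < dg t then W s else 0 := by
    intro t
    rw [hW, WellFounded.fix_eq]
    rfl
  have hlt : ∀ t, Val φ t → ∀ s ∈ Dn φ t \ {t}, dg s < dg t := by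
    intro t ht s hs
    exact dg_lt hs.1.1.1 ht.1 ht.2.1 hs.1.2 hs.2
  have hfin : ∀ t, Val φ t → (Dn φ t).Finite := fun t ht => Dn_finite' ht.1
  have hWt : ∀ t, Val φ t → W t = bt t - ∑ᶠ s ∈ Dn φ t \ {t}, W s := by
    intro t ht
    rw [hWeq t]
    congr 1
    refine finsum_mem_congr rfl fun s hs => ?_
    rw [if_pos (hlt t ht s hs)]
  have hself : ∀ t, Val φ t → t ∈ Dn φ t := fun t ht => ⟨ht, Le.rfl' t⟩
  have hsum : ∀ t, Val φ t → ∑ᶠ s ∈ Dn φ t, W s = bt t := by
    intro t ht
    have h1 : Dn φ t = insert t (Dn φ t \ {t}) := by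
      rw [Set.insert_sdiff_singleton, Set.insert_eq_of_mem (hself t ht)]
    have h2 : t ∉ Dn φ t \ {t} := fun h => h.2 rfl
    rw [h1, finsum_mem_insert W h2 ((hfin t ht).subset Set.sdiff_subset), hWt t ht]
    ring
  refine ⟨W, fun t ht => ⟨hsum t ht, ?_⟩⟩
  -- the bound
  have key : ∀ n : ℕ, ∀ t, Val φ t → dg t < n →
      |W t| ≤ (((Dn φ t).ncard.factorial : ℕ) : ℤ) := by
    intro n
    induction n with
    | zero => intro t _ h; omega
    | succ n ih =>
      intro t ht hn
      by_cases h0 : t = ∅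
      · subst h0
        have h1 : Dn φ (∅ : Finset (L × L × ℕ)) \ {∅} = ∅ := by
          rw [Set.eq_empty_iff_forall_notMem]
          intro s hs
          exact hs.2 (le_empty hs.1.2)
        rw [hWt ∅ ht, h1, finsum_mem_empty, sub_zero]
        have h2 : bt (∅ : Finset (L × L × ℕ)) = 1 := by simp [bt]
        rw [h2, abs_one]
        exact_mod_cast Nat.factorial_pos _
      · have hbt : bt t = 0 := by simp [bt, h0]
        have hf : (Dn φ t \ {t}).Finite := (hfin t ht).subset Set.sdiff_subset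
        rw [hWt t ht, hbt, zero_sub, abs_neg, finsum_mem_eq_finite_toFinset_sum W hf]
        have hcard : (Dn φ t \ {t}).ncard = (Dn φ t).ncard - 1 :=
          Set.ncard_sdiff_singleton_of_mem (hself t ht)
        have hpos : 0 < (Dn φ t).ncard :=
          (Set.ncard_pos (hfin t ht)).2 ⟨t, hself t ht⟩
        have hb : ∀ s ∈ hf.toFinset,
            |W s| ≤ (((((Dn φ t).ncard - 1).factorial : ℕ)) : ℤ) := by
          intro s hs
          rw [Set.Finite.mem_toFinset] at hs
          have hsv : Val φ s := hs.1.1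
          have hd := hlt t ht s hs
          refine (ih s hsv (by omega)).trans ?_
          have hsub : Dn φ s ⊆ Dn φ t \ {t} := by
            intro u hu
            refine ⟨⟨hu.1, hu.2.trans' hs.1.2⟩, ?_⟩
            intro hut
            rw [Set.mem_singleton_iff] at hut
            subst hut
            have h3 : dg u ≤ dg s := by
              by_cases hus : u = s
              · rw [hus]
              · exact (dg_lt hu.1.1 hsv.1 hsv.2.1 hu.2 hus).le
            omega
          have h4 : (Dn φ s).ncard ≤ (Dn φ t).ncard - 1 := by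
            rw [← hcard]
            exact Set.ncard_le_ncard hsub hf
          exact_mod_cast Nat.factorial_le h4
        calc |∑ s ∈ hf.toFinset, W s| ≤ ∑ s ∈ hf.toFinset, |W s| := abs_sum_le_sum_abs _ _
          _ ≤ ∑ s ∈ hf.toFinset, (((((Dn φ t).ncard - 1).factorial : ℕ)) : ℤ) :=
              Finset.sum_le_sum hb
          _ = (((Dn φ t).ncard - 1 : ℕ) : ℤ) * (((((Dn φ t).ncard - 1).factorial : ℕ)) : ℤ) := by
              rw [Finset.sum_const, nsmul_eq_mul, ← Set.ncard_eq_toFinset_card _ hf, hcard]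
          _ ≤ (((Dn φ t).ncard.factorial : ℕ) : ℤ) := by
              obtain ⟨b, hb'⟩ : ∃ b, (Dn φ t).ncard = b + 1 := ⟨(Dn φ t).ncard - 1, by omega⟩
              rw [hb', Nat.add_sub_cancel, Nat.factorial_succ]
              have : b * b.factorial ≤ (b + 1) * b.factorial :=
                Nat.mul_le_mul_right _ (Nat.le_succ b)
              exact_mod_cast this
  exact key (dg t + 1) t ht (Nat.lt_succ_self _)

end SBr
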