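import Pool.Agent.H.MP_cc3311_ag.R3
import Pool.Agent.H.MP_cc3311_ag.R4

/-!
# MP_cc3311_ag, R5: one family of objects
-/

set_option autoImplicit false

namespace SBr

variable {L : Type} {φ : L → L} {n : ℕ}

/-- The truncated sum over the structures of one object. PROOF. If the object is not in the tail
then all structures below `c` have codimension at most `k` (`le_smax_iff`, `cod_mono`, `cod_smax`), and
`Dn φ c = Dn φ (smax c)`; use the property of `w` for `smax c` and `smax_empty`. -/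
theorem sum_not_tail (hφ : Function.Injective φ) {w : Finset (L × L × ℕ) → ℤ}
    (hw : ∀ t, Val φ t → ∑ᶠ s ∈ Dn φ t, w s = bt t ∧
      |w t| ≤ (((Dn φ t).ncard.factorial : ℕ) : ℤ))
    {c : Finset (L × L × ℕ)} (hc : Crt φ n c) {k : ℕ} (hk : n ≤ (vals c).card + k) :
    ∑ᶠ s ∈ {s | s ∈ Dn φ c ∧ cod s ≤ k}, w s = if (vals c).card = n then 1 else 0 := by
  have hv := smax_val hφ hc
  have hcod : cod (smax c) ≤ k := by
    have := cod_smax hc
    omega
  have hset : {s | s ∈ Dn φ c ∧ cod s ≤ k} = Dn φ (smax c) := by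
    ext s
    constructor
    · rintro ⟨⟨h1, h2⟩, _⟩
      exact ⟨h1, (le_smax_iff hc h1).1 h2⟩
    · rintro ⟨h1, h2⟩
      exact ⟨⟨h1, (le_smax_iff hc h1).2 h2⟩, le_trans (cod_mono h1.1 hv.1 h2) hcod⟩
  rw [hset, (hw _ hv).1, bt]
  by_cases h : (vals c).card = n
  · rw [if_pos h, if_pos ((smax_empty hc).2 h)]
  · rw [if_neg h, if_neg (fun e => h ((smax_empty hc).1 e))]

/-- At most `bB n` terms, each at most `(bB n)!` (`Dn_finite`, and `Dn φ s ⊆ Dn φ c`). -/
theorem sum_le {w : Finset (L × L × ℕ) → ℤ}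
    (hw : ∀ t, Val φ t → ∑ᶠ s ∈ Dn φ t, w s = bt t ∧
      |w t| ≤ (((Dn φ t).ncard.factorial : ℕ) : ℤ))
    {c : Finset (L × L × ℕ)} (hc : Crt φ n c) (k : ℕ) :
    |∑ᶠ s ∈ {s | s ∈ Dn φ c ∧ cod s ≤ k}, w s| ≤ ((bB n * (bB n).factorial : ℕ) : ℤ) := by
  obtain ⟨hfin, hcard⟩ := Dn_finite hc
  have hfin' : {s | s ∈ Dn φ c ∧ cod s ≤ k}.Finite := hfin.subset fun s hs => hs.1
  have hcard' : hfin'.toFinset.card ≤ bB n := by
    rw [← Set.ncard_eq_toFinset_card _ hfin']
    exact le_trans (Set.ncard_le_ncard (fun s hs => hs.1) hfin) hcard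
  rw [finsum_mem_eq_finite_toFinset_sum _ hfin']
  refine le_trans (Finset.abs_sum_le_sum_abs _ _) ?_
  refine le_trans (Finset.sum_le_card_nsmul _ _ (((bB n).factorial : ℕ) : ℤ) ?_) ?_
  · intro s hs
    rw [Set.Finite.mem_toFinset] at hs
    refine le_trans (hw s hs.1.1).2 ?_
    have hsub : Dn φ s ⊆ Dn φ c := fun u hu => ⟨hu.1, Le.trans' hu.2 hs.1.2⟩
    exact_mod_cast Nat.factorial_le (le_trans (Set.ncard_le_ncard hsub hfin) hcard)
  · rw [nsmul_eq_mul]
    have : (hfin'.toFinset.card : ℤ) ≤ (bB n : ℕ) := by exact_mod_cast hcard'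
    push_cast
    exact mul_le_mul_of_nonneg_right (by exact_mod_cast hcard') (by positivity)

open Classical in
/-- THE ESTIMATE FOR ONE FAMILY.
PROOF. Every structure `s` of codimension at most `k` is below some object (`hA`; if `T` is empty the
claim is trivial), so there are finitely many. Exchange the sums:
`∑ over o ∈ T of ∑ over the s below c o of w s = ∑ w s * #{o : s below c o} = |T| W`. The left side
differs from the number of the good objects only by the contributions of the tail, each at most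
`bR n` in absolute value (`sum_not_tail`, `sum_le`). -/
theorem family (hφ : Function.Injective φ) {w : Finset (L × L × ℕ) → ℤ}
    (hw : ∀ t, Val φ t → ∑ᶠ s ∈ Dn φ t, w s = bt t ∧
      |w t| ≤ (((Dn φ t).ncard.factorial : ℕ) : ℤ))
    {k q : ℕ} (hq : 1 ≤ q) {O : Type} (T : Finset O) (c : O → Finset (L × L × ℕ))
    (hc : ∀ o ∈ T, Crt φ n (c o))
    (hA : ∀ s, Val φ s → cod s ≤ k → (T.filter fun o => Le s (c o)).card * q ^ dg s = T.card)
    (C : ℕ) (hB : (T.filter fun o => (vals (c o)).card + k + 1 ≤ n).card * q ^ (k + 1) ≤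
      C * T.card) :
    |((T.filter fun o => (vals (c o)).card = n).card : ℚ) -
      T.card * ∑ᶠ s ∈ {s | Val φ s ∧ cod s ≤ k}, (w s : ℚ) / (q : ℚ) ^ dg s| * (q : ℚ) ^ (k + 1) ≤
      (bR n : ℚ) * C * T.card := by
  have hq0 : (q : ℚ) ≠ 0 := by
    have : (0 : ℚ) < q := by exact_mod_cast hq
    exact this.ne'
  rcases Finset.eq_empty_or_nonempty T with rfl | hT
  · simp
  have hTpos : 0 < T.card := Finset.card_pos.2 hT
  -- finiteness
  have hfin : {s | Val φ s ∧ cod s ≤ k}.Finite := by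
    refine Set.Finite.subset (T.finite_toSet.biUnion fun o ho => (Dn_finite (hc o ho)).1) ?_
    rintro s ⟨hs, hk⟩
    have h1 := hA s hs hk
    have h2 : (T.filter fun o => Le s (c o)).Nonempty := by
      rw [← Finset.card_pos]
      by_contra h
      have h0 : (T.filter fun o => Le s (c o)).card = 0 := by omega
      rw [h0, zero_mul] at h1
      omega
    obtain ⟨o, ho⟩ := h2
    rw [Finset.mem_filter] at ho
    exact Set.mem_biUnion (Finset.mem_coe.2 ho.1) ⟨hs, ho.2⟩
  -- the exchange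
  have key : (T.card : ℚ) * ∑ᶠ s ∈ {s | Val φ s ∧ cod s ≤ k}, (w s : ℚ) / (q : ℚ) ^ dg s =
      ∑ o ∈ T, ((∑ᶠ s ∈ {s | s ∈ Dn φ (c o) ∧ cod s ≤ k}, w s : ℤ) : ℚ) := by
    rw [finsum_mem_eq_finite_toFinset_sum _ hfin, Finset.mul_sum]
    have h1 : ∀ o ∈ T, ((∑ᶠ s ∈ {s | s ∈ Dn φ (c o) ∧ cod s ≤ k}, w s : ℤ) : ℚ) =
        ∑ s ∈ hfin.toFinset, if Le s (c o) then (w s : ℚ) else 0 := by
      intro o ho
      have hfin' : {s | s ∈ Dn φ (c o) ∧ cod s ≤ k}.Finite :=
        (Dn_finite (hc o ho)).1.subset fun s hs => hs.1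
      rw [finsum_mem_eq_finite_toFinset_sum _ hfin', ← Finset.sum_filter]
      have h2 : hfin'.toFinset = hfin.toFinset.filter fun s => Le s (c o) := by
        ext s
        rw [Finset.mem_filter, Set.Finite.mem_toFinset, Set.Finite.mem_toFinset]
        constructor
        · rintro ⟨⟨h1, h2⟩, h3⟩
          exact ⟨⟨h1, h3⟩, h2⟩
        · rintro ⟨⟨h1, h3⟩, h2⟩
          exact ⟨⟨h1, h2⟩, h3⟩
      rw [h2]
      push_cast
      rfl
    rw [Finset.sum_congr rfl h1, Finset.sum_comm]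
    refine Finset.sum_congr rfl fun s hs => ?_
    rw [Set.Finite.mem_toFinset] at hs
    have h3 := hA s hs.1 hs.2
    rw [← Finset.sum_filter, Finset.sum_const, nsmul_eq_mul, ← h3]
    push_cast
    field_simp
  -- the number of the good objects
  have hgood : ((T.filter fun o => (vals (c o)).card = n).card : ℚ) =
      ∑ o ∈ T, if (vals (c o)).card = n then (1 : ℚ) else 0 := by
    rw [Finset.sum_ite, Finset.sum_const_zero, add_zero, Finset.sum_const, nsmul_eq_mul, mul_one]
  have hdiff : |((T.filter fun o => (vals (c o)).card = n).card : ℚ) -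
      T.card * ∑ᶠ s ∈ {s | Val φ s ∧ cod s ≤ k}, (w s : ℚ) / (q : ℚ) ^ dg s| ≤
      (bR n : ℚ) * (T.filter fun o => (vals (c o)).card + k + 1 ≤ n).card := by
    rw [key, hgood, ← Finset.sum_sub_distrib]
    refine le_trans (Finset.abs_sum_le_sum_abs _ _) ?_
    have h4 : ∀ o ∈ T, |(if (vals (c o)).card = n then (1 : ℚ) else 0) -
        ((∑ᶠ s ∈ {s | s ∈ Dn φ (c o) ∧ cod s ≤ k}, w s : ℤ) : ℚ)| ≤
        if (vals (c o)).card + k + 1 ≤ n then (bR n : ℚ) else 0 := by
      intro o ho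
      by_cases h : (vals (c o)).card + k + 1 ≤ n
      · rw [if_pos h]
        have h5 := sum_le hw (hc o ho) k
        have h6 : |((∑ᶠ s ∈ {s | s ∈ Dn φ (c o) ∧ cod s ≤ k}, w s : ℤ) : ℚ)| ≤
            (bB n * (bB n).factorial : ℕ) := by exact_mod_cast h5
        refine le_trans (abs_sub _ _) ?_
        have h7 : |(if (vals (c o)).card = n then (1 : ℚ) else 0)| ≤ 1 := by
          split_ifs <;> simp
        have h8 : (bR n : ℚ) = (bB n * (bB n).factorial : ℕ) + 1 := by
          rw [bR]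
          push_cast
          ring
        rw [h8]
        linarith
      · rw [if_neg h, sum_not_tail hφ hw (hc o ho) (by omega)]
        split_ifs <;> simp
    refine le_trans (Finset.sum_le_sum h4) ?_
    rw [Finset.sum_ite, Finset.sum_const_zero, add_zero, Finset.sum_const, nsmul_eq_mul, mul_comm]
  have hqp : (0 : ℚ) < (q : ℚ) ^ (k + 1) := by positivity
  refine le_trans (mul_le_mul_of_nonneg_right hdiff hqp.le) ?_
  have hB' : ((T.filter fun o => (vals (c o)).card + k + 1 ≤ n).card : ℚ) * (q : ℚ) ^ (k + 1) ≤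
      C * T.card := by exact_mod_cast hB
  have hb : (0 : ℚ) ≤ bR n := by positivity
  calc (bR n : ℚ) * (T.filter fun o => (vals (c o)).card + k + 1 ≤ n).card * (q : ℚ) ^ (k + 1)
      = (bR n : ℚ) * ((T.filter fun o => (vals (c o)).card + k + 1 ≤ n).card *
        (q : ℚ) ^ (k + 1)) := by ring
    _ ≤ (bR n : ℚ) * (C * T.card) := mul_le_mul_of_nonneg_left hB' hb
    _ = (bR n : ℚ) * C * T.card := by ring

end SBr
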