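import Pool.Agent.H.MP_cc3311_ag.R5

/-!
# MP_cc3311_ag, R6: comparison of two families
-/

set_option autoImplicit false

namespace SBr

variable {L : Type} {φ : L → L} {n : ℕ}

/-- The elementary inequality behind the comparison. -/
theorem R6_aux (g g' t t' W Q b c c' : ℚ) (ht : 0 ≤ t) (ht' : 0 ≤ t') (hQ : 0 ≤ Q)
    (h : |g - t * W| * Q ≤ b * c * t) (h' : |g' - t' * W| * Q ≤ b * c' * t') :
    |g * t' - g' * t| * Q ≤ b * (c + c') * (t * t') := by
  have e : g * t' - g' * t = (g - t * W) * t' - (g' - t' * W) * t := by ring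
  rw [e]
  calc |(g - t * W) * t' - (g' - t' * W) * t| * Q
      ≤ (|(g - t * W) * t'| + |(g' - t' * W) * t|) * Q :=
        mul_le_mul_of_nonneg_right (abs_sub _ _) hQ
    _ = (|g - t * W| * Q) * t' + (|g' - t' * W| * Q) * t := by
        rw [abs_mul, abs_mul, abs_of_nonneg ht, abs_of_nonneg ht']; ring
    _ ≤ (b * c * t) * t' + (b * c' * t') * t :=
        add_le_add (mul_le_mul_of_nonneg_right h ht') (mul_le_mul_of_nonneg_right h' ht)
    _ = b * (c + c') * (t * t') := by ring

open Classical in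
/-- PROOF. `exists_weight`, and `family` for both families with the same `W`; if one of them is empty
the left side is zero. -/
theorem compare (hφ : Function.Injective φ) {k q : ℕ} (hq : 1 ≤ q) {O O' : Type}
    (T : Finset O) (T' : Finset O') (c : O → Finset (L × L × ℕ)) (c' : O' → Finset (L × L × ℕ))
    (hc : ∀ o ∈ T, Crt φ n (c o)) (hc' : ∀ o ∈ T', Crt φ n (c' o))
    (hA : ∀ s, Val φ s → cod s ≤ k → (T.filter fun o => Le s (c o)).card * q ^ dg s = T.card)
    (hA' : ∀ s, Val φ s → cod s ≤ k →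
      (T'.filter fun o => Le s (c' o)).card * q ^ dg s = T'.card)
    (C C' : ℕ) (hB : (T.filter fun o => (vals (c o)).card + k + 1 ≤ n).card * q ^ (k + 1) ≤
      C * T.card)
    (hB' : (T'.filter fun o => (vals (c' o)).card + k + 1 ≤ n).card * q ^ (k + 1) ≤
      C' * T'.card) :
    |((T.filter fun o => (vals (c o)).card = n).card : ℤ) * T'.card -
      (T'.filter fun o => (vals (c' o)).card = n).card * T.card| * (q : ℤ) ^ (k + 1) ≤
      (bR n : ℤ) * (C + C') * (T.card * T'.card) := by
  obtain ⟨w, hw⟩ := exists_weight φ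
  have h1 := family hφ hw hq T c hc hA C hB
  have h2 := family hφ hw hq T' c' hc' hA' C' hB'
  have h3 := R6_aux _ _ _ _ _ _ _ _ _ (Nat.cast_nonneg _) (Nat.cast_nonneg _)
    (pow_nonneg (Nat.cast_nonneg q) (k + 1)) h1 h2
  exact_mod_cast h3

end SBr
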