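import Pool.Agent.H.MP_cc3311_ag.A2
import Pool.Agent.H.MP_cc3311_ag.M0
import Pool.Agent.H.MP_cc3311_ag.R3

/-!
# MP_cc3311_ag, R7: the critical data of a pair (polynomial, function on its roots)
-/

set_option autoImplicit false

namespace SBr

open Polynomial

variable {K : Type} [Field K] [Fintype K]

/-- The triples (root of `P`, value of `α`, multiplicity of the root plus one). -/
noncomputable def crP (P α : K[X]) : Finset (AlgebraicClosure K × AlgebraicClosure K × ℕ) := by
  classical
  exact (up P).roots.toFinset.image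
    (fun x => (x, (up α).eval x, (up P).rootMultiplicity x + 1))

theorem mem_crP {P : K[X]} (hP : P ≠ 0) (α : K[X])
    (a : AlgebraicClosure K × AlgebraicClosure K × ℕ) : a ∈ crP P α ↔
      (up P).IsRoot a.1 ∧ a.2.1 = (up α).eval a.1 ∧ a.2.2 = (up P).rootMultiplicity a.1 + 1 := by
  classical
  have hu : up P ≠ 0 := by
    intro h
    exact hP (up_injective (h.trans (by unfold up; rw [Polynomial.map_zero])))
  unfold crP
  rw [Finset.mem_image]
  constructor
  · rintro ⟨x, hx, rfl⟩
    rw [Multiset.mem_toFinset, mem_roots hu] at hx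
    exact ⟨hx, rfl, rfl⟩
  · rintro ⟨h1, h2, h3⟩
    refine ⟨a.1, ?_, ?_⟩
    · rw [Multiset.mem_toFinset, mem_roots hu]
      exact h1
    · rw [← h2, ← h3]

/-- The sum of the multiplicities is the degree; stability: `map_frob_up`, `eval` and `rootMultiplicity`
under `Polynomial.map` by an injective homomorphism. -/
theorem crP_crt {P : K[X]} {n : ℕ} (hP : P ∈ Mo K n) (α : K[X]) :
    Crt (frob K) n (crP P α) := by
  classical
  obtain ⟨hm, hd⟩ := hP
  have hP0 : P ≠ 0 := hm.ne_zero
  have hu : up P ≠ 0 := (up_monic.2 hm).ne_zero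
  refine ⟨?_, ?_, ?_, ?_⟩
  · intro a ha b hb hab
    rw [mem_crP hP0] at ha hb
    obtain ⟨-, h1, h2⟩ := ha
    obtain ⟨-, h3, h4⟩ := hb
    refine Prod.ext hab (Prod.ext ?_ ?_)
    · rw [h1, h3, hab]
    · rw [h2, h4, hab]
  · intro a ha
    rw [mem_crP hP0] at ha
    obtain ⟨h0, -, h2⟩ := ha
    have h3 := (rootMultiplicity_pos hu).2 h0
    omega
  · intro a ha
    rw [mem_crP hP0] at ha ⊢
    obtain ⟨h0, h1, h2⟩ := ha
    refine ⟨?_, ?_, ?_⟩
    · have h3 := (A2_isRoot_frob (up P) a.1).2 h0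
      rw [map_frob_up] at h3
      exact h3
    · have h3 : ((up α).map (frob K)).eval (frob K a.1) = frob K ((up α).eval a.1) :=
        eval_map_apply (frob K) a.1
      rw [map_frob_up] at h3
      show frob K a.2.1 = _
      rw [h1, ← h3]
    · have h3 := eq_rootMultiplicity_map (p := up P) (f := frob K) frob_injective a.1
      rw [map_frob_up] at h3
      show a.2.2 = _
      rw [h2, h3]
  · have h1 : ∑ a ∈ crP P α, (a.2.2 - 1)
        = ∑ x ∈ (up P).roots.toFinset, ((up P).rootMultiplicity x + 1 - 1) := by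
      unfold crP
      rw [Finset.sum_image]
      intro x _ y _ hxy
      exact (Prod.mk.inj hxy).1
    rw [h1, ← hd, ← up_natDegree P, ← splits_iff_card_roots.1 (IsAlgClosed.splits (up P)),
      ← Multiset.toFinset_sum_count_eq]
    refine Finset.sum_congr rfl fun x _ => ?_
    rw [count_roots]
    omega

/-- Structures below the critical data: `m - 1 ≤ rootMultiplicity` iff `(X - x) ^ (m - 1) ∣ P`. -/
theorem Le_crP {P : K[X]} (hP : P ≠ 0) (α : K[X])
    {s : Finset (AlgebraicClosure K × AlgebraicClosure K × ℕ)} (hs : Ge2 s) :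
    Le s (crP P α) ↔ ∀ a ∈ s, (X - C a.1) ^ (a.2.2 - 1) ∣ up P ∧ (up α).eval a.1 = a.2.1 := by
  have hu : up P ≠ 0 := by
    intro h
    exact hP (up_injective (h.trans (by unfold up; rw [Polynomial.map_zero])))
  unfold Le
  refine forall₂_congr fun a ha => ?_
  have h2 := hs a ha
  constructor
  · rintro ⟨b, hb, h3, h4, h5⟩
    rw [mem_crP hP] at hb
    obtain ⟨h6, h7, h8⟩ := hb
    rw [h3] at h6 h7 h8
    refine ⟨?_, ?_⟩
    · rw [← le_rootMultiplicity_iff hu]
      omega
    · rw [← h7, h4]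
  · rintro ⟨h3, h4⟩
    rw [← le_rootMultiplicity_iff hu] at h3
    refine ⟨(a.1, (up α).eval a.1, (up P).rootMultiplicity a.1 + 1), ?_, rfl, h4, ?_⟩
    · rw [mem_crP hP]
      refine ⟨(rootMultiplicity_pos hu).1 ?_, rfl, rfl⟩
      show 0 < (up P).rootMultiplicity a.1
      omega
    · show a.2.2 ≤ (up P).rootMultiplicity a.1 + 1
      omega

theorem vals_crP {P : K[X]} (hP : P ≠ 0) (α : K[X]) :
    (vals (crP P α)).card = nd ((up P).roots.map fun x => (up α).eval x) := by
  classical
  have hu : up P ≠ 0 := by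
    intro h
    exact hP (up_injective (h.trans (by unfold up; rw [Polynomial.map_zero])))
  unfold nd
  rw [← Set.ncard_coe_finset]
  congr 1
  ext v
  unfold vals
  rw [Finset.mem_coe, Finset.mem_image]
  show _ ↔ v ∈ (up P).roots.map fun x => (up α).eval x
  rw [Multiset.mem_map]
  constructor
  · rintro ⟨a, ha, rfl⟩
    rw [mem_crP hP] at ha
    exact ⟨a.1, (mem_roots hu).2 ha.1, ha.2.1.symm⟩
  · rintro ⟨x, hx, rfl⟩
    refine ⟨(x, (up α).eval x, (up P).rootMultiplicity x + 1), ?_, rfl⟩
    rw [mem_crP hP]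
    exact ⟨(mem_roots hu).1 hx, rfl, rfl⟩

end SBr
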