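import Pool.Agent.H.MP_cc3311_ag.R7
import Pool.Agent.H.MP_cc3311_ag.A4

/-!
# MP_cc3311_ag, R8: congruences stable under Frobenius
-/

set_option autoImplicit false

namespace SBr

open Polynomial

variable {K : Type} [Field K] [Fintype K]

/-- The action of Frobenius on triples. -/
noncomputable def R8_act (K : Type) [Field K] [Fintype K]
    (a : AlgebraicClosure K × AlgebraicClosure K × ℕ) :
    AlgebraicClosure K × AlgebraicClosure K × ℕ := (frob K a.1, frob K a.2.1, a.2.2)

theorem R8_act_inj : Function.Injective (R8_act K) := by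
  rintro ⟨a1, a2, a3⟩ ⟨b1, b2, b3⟩ h
  simp only [R8_act, Prod.mk.injEq] at h
  rw [frob_injective h.1, frob_injective h.2.1, h.2.2]

theorem R8_surj {s : Finset (AlgebraicClosure K × AlgebraicClosure K × ℕ)}
    (hs : Stb (frob K) s) {b : AlgebraicClosure K × AlgebraicClosure K × ℕ} (hb : b ∈ s) :
    ∃ a ∈ s, R8_act K a = b := by
  classical
  have h1 : s.image (R8_act K) ⊆ s := by
    intro x hx
    obtain ⟨a, ha, rfl⟩ := Finset.mem_image.1 hx
    exact hs a ha
  have h2 : s.image (R8_act K) = s :=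
    Finset.eq_of_subset_of_card_le h1 (by rw [Finset.card_image_of_injective _ R8_act_inj])
  rw [← h2] at hb
  obtain ⟨a, ha, h⟩ := Finset.mem_image.1 hb
  exact ⟨a, ha, h⟩

/-- The product is fixed. -/
theorem R8_map {s : Finset (AlgebraicClosure K × AlgebraicClosure K × ℕ)}
    (hs : Stb (frob K) s) (e : ℕ → ℕ) :
    (∏ a ∈ s, (X - C a.1) ^ e a.2.2).map (frob K) = ∏ a ∈ s, (X - C a.1) ^ e a.2.2 := by
  rw [Polynomial.map_prod]
  refine Finset.prod_bij (fun a _ => R8_act K a) (fun a ha => hs a ha)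
    (fun a _ b _ h => R8_act_inj h) (fun b hb => ?_) (fun a _ => ?_)
  · obtain ⟨a, ha, h⟩ := R8_surj hs hb
    exact ⟨a, ha, h⟩
  · simp [R8_act, Polynomial.map_pow]

/-- The polynomial `∏ (X - x) ^ (e m)` of a stable set is defined over `K`. -/
theorem prod_down {s : Finset (AlgebraicClosure K × AlgebraicClosure K × ℕ)}
    (hs : Stb (frob K) s) (e : ℕ → ℕ) :
    ∃ B : K[X], B.Monic ∧ up B = ∏ a ∈ s, (X - C a.1) ^ e a.2.2 := by
  obtain ⟨B, hB⟩ := up_of_map_frob (R8_map hs e)
  refine ⟨B, ?_, hB⟩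
  rw [← up_monic, hB]
  exact monic_prod_of_monic _ _ fun a _ => (monic_X_sub_C _).pow _

/-- The number of monic polynomials of degree `N` divisible by `B`, or congruent to `ρ` modulo `B`. -/
theorem R8_cong {B ρ : K[X]} {m N : ℕ} (hB : B ∈ Mo K m) (hm : m ≤ N) :
    {G | G ∈ Mo K N ∧ B ∣ G - ρ}.ncard = Fintype.card K ^ (N - m) := by
  obtain ⟨hBm, hBd⟩ := hB
  set ρ0 := ρ %ₘ B with hρ0
  have hdeg : ρ0.degree < (m : WithBot ℕ) := by
    have := degree_modByMonic_lt ρ hBm
    rwa [degree_eq_natDegree hBm.ne_zero, hBd] at this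
  have hdvd : B ∣ ρ - ρ0 := ⟨ρ /ₘ B, by rw [hρ0]; linear_combination -modByMonic_add_div ρ B⟩
  have himg : {G | G ∈ Mo K N ∧ B ∣ G - ρ} = (fun Q => B * Q + ρ0) '' (Mo K (N - m)) := by
    ext G
    simp only [Set.mem_ofPred_eq, Set.mem_image]
    constructor
    · rintro ⟨⟨hG, hGd⟩, hd⟩
      have h1 : B ∣ G - ρ0 := by
        have := dvd_add hd hdvd
        rwa [sub_add_sub_cancel] at this
      obtain ⟨Q, hQ⟩ := h1
      have hlt : ρ0.degree < G.degree := by
        rw [degree_eq_natDegree hG.ne_zero, hGd]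
        exact lt_of_lt_of_le hdeg (by exact_mod_cast hm)
      have hGm : (B * Q).Monic := by
        rw [← hQ]; exact hG.sub_of_left hlt
      have hQm : Q.Monic := hBm.of_mul_monic_left hGm
      refine ⟨Q, ⟨hQm, ?_⟩, by rw [← hQ]; ring⟩
      have h2 : (G - ρ0).natDegree = N := by
        rw [← hGd]
        exact natDegree_eq_natDegree (degree_sub_eq_left_of_degree_lt hlt)
      rw [hQ, hBm.natDegree_mul hQm, hBd] at h2
      omega
    · rintro ⟨Q, ⟨hQm, hQd⟩, rfl⟩
      have h1 : (B * Q).natDegree = N := by rw [hBm.natDegree_mul hQm, hBd, hQd]; omega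
      have h2 : (B * Q).Monic := hBm.mul hQm
      have hlt : ρ0.degree < (B * Q).degree := by
        rw [degree_eq_natDegree h2.ne_zero, h1]
        exact lt_of_lt_of_le hdeg (by exact_mod_cast hm)
      refine ⟨⟨h2.add_of_left hlt, ?_⟩, ?_⟩
      · rw [← h1]
        exact natDegree_eq_natDegree (degree_add_eq_left_of_degree_lt hlt)
      · have h3 : B * Q + ρ0 - ρ = B * Q - (ρ - ρ0) := by ring
        rw [h3]
        exact dvd_sub (dvd_mul_right _ _) hdvd
  rw [himg, Set.ncard_image_of_injective]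
  · exact monic_ncard K (N - m)
  · intro Q Q' h
    simp only [add_left_inj] at h
    exact mul_left_cancel₀ hBm.ne_zero h

/-- The same for the polynomials of degree less than `N`. -/
theorem R8_cong' {B ρ : K[X]} {m N : ℕ} (hB : B ∈ Mo K m) (hm : m ≤ N) :
    {G : K[X] | G.degree < N ∧ B ∣ G - ρ}.ncard = Fintype.card K ^ (N - m) := by
  obtain ⟨hBm, hBd⟩ := hB
  set ρ0 := ρ %ₘ B with hρ0
  have hdeg : ρ0.degree < (m : WithBot ℕ) := by
    have := degree_modByMonic_lt ρ hBm
    rwa [degree_eq_natDegree hBm.ne_zero, hBd] at this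
  have hdegN : ρ0.degree < (N : WithBot ℕ) := lt_of_lt_of_le hdeg (by exact_mod_cast hm)
  have hdvd : B ∣ ρ - ρ0 := ⟨ρ /ₘ B, by rw [hρ0]; linear_combination -modByMonic_add_div ρ B⟩
  have hdB : B.degree = (m : WithBot ℕ) := by rw [degree_eq_natDegree hBm.ne_zero, hBd]
  have hmul : ∀ Q : K[X], (B * Q).degree < (N : WithBot ℕ) ↔
      Q.degree < ((N - m : ℕ) : WithBot ℕ) := by
    intro Q
    by_cases hQ : Q = 0
    · rw [hQ, mul_zero, degree_zero]
      exact iff_of_true (WithBot.bot_lt_coe _) (WithBot.bot_lt_coe _)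
    · rw [degree_mul, hdB, degree_eq_natDegree hQ]
      constructor
      · intro h
        have : m + Q.natDegree < N := by exact_mod_cast h
        have : Q.natDegree < N - m := by omega
        exact_mod_cast this
      · intro h
        have : Q.natDegree < N - m := by exact_mod_cast h
        have : m + Q.natDegree < N := by omega
        exact_mod_cast this
  have himg : {G : K[X] | G.degree < N ∧ B ∣ G - ρ} =
      (fun Q => B * Q + ρ0) '' ((degreeLT K (N - m) : Submodule K K[X]) : Set K[X]) := by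
    ext G
    simp only [Set.mem_ofPred_eq, Set.mem_image, SetLike.mem_coe, mem_degreeLT]
    constructor
    · rintro ⟨hG, hd⟩
      have h1 : B ∣ G - ρ0 := by
        have := dvd_add hd hdvd
        rwa [sub_add_sub_cancel] at this
      obtain ⟨Q, hQ⟩ := h1
      refine ⟨Q, ?_, by rw [← hQ]; ring⟩
      rw [← hmul, ← hQ]
      exact lt_of_le_of_lt (degree_sub_le _ _) (max_lt hG hdegN)
    · rintro ⟨Q, hQ, rfl⟩
      refine ⟨lt_of_le_of_lt (degree_add_le _ _) (max_lt ((hmul Q).2 hQ) hdegN), ?_⟩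
      have h3 : B * Q + ρ0 - ρ = B * Q - (ρ - ρ0) := by ring
      rw [h3]
      exact dvd_sub (dvd_mul_right _ _) hdvd
  rw [himg, Set.ncard_image_of_injective]
  · have h4 : ((degreeLT K (N - m) : Submodule K K[X]) : Set K[X]).ncard =
        Nat.card (degreeLT K (N - m)) := rfl
    rw [h4, Nat.card_congr (degreeLTEquiv K (N - m)).toEquiv, Nat.card_eq_fintype_card,
      Fintype.card_fun, Fintype.card_fin]
  · intro Q Q' h
    simp only [add_left_inj] at h
    exact mul_left_cancel₀ hBm.ne_zero h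

theorem R8_coprime {s : Finset (AlgebraicClosure K × AlgebraicClosure K × ℕ)} (hf : Fn s)
    (e : ℕ → ℕ) : (s : Set (AlgebraicClosure K × AlgebraicClosure K × ℕ)).Pairwise
      fun a b => IsCoprime ((X - C a.1 : (AlgebraicClosure K)[X]) ^ e a.2.2)
        ((X - C b.1) ^ e b.2.2) := by
  intro a ha b hb hab
  have h1 : a.1 ≠ b.1 := fun h => hab (hf a ha b hb h)
  exact (isCoprime_X_sub_C_of_isUnit_sub (sub_ne_zero.2 h1).isUnit).pow

/-- Products of pairwise coprime divisors. -/
theorem R8_dvd {s : Finset (AlgebraicClosure K × AlgebraicClosure K × ℕ)} (hf : Fn s)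
    (e : ℕ → ℕ) {B : K[X]} (hB : up B = ∏ a ∈ s, (X - C a.1) ^ e a.2.2) (G : K[X]) :
    B ∣ G ↔ ∀ a ∈ s, (X - C a.1) ^ e a.2.2 ∣ up G := by
  have h1 : B ∣ G ↔ up B ∣ up G := (Polynomial.map_dvd_map' _).symm
  rw [h1, hB]
  constructor
  · intro h a ha
    exact (Finset.dvd_prod_of_mem _ ha).trans h
  · intro h
    exact Finset.prod_dvd_of_coprime (R8_coprime hf e) h

/-- Chinese remainder theorem with descent: there is `ρ` over `K` with
`(X - x) ^ (e m) ∣ ρ - v` for all `(x, v, m)`. PROOF. Over the closure the moduli are pairwise coprime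
(`Fn s`), take the solution `ρ` of degree less than the degree of the product `B`; `ρ.map frob` is
another solution (`Stb`), so it is equal to `ρ`; `up_of_map_frob`. -/
theorem R8_crt {s : Finset (AlgebraicClosure K × AlgebraicClosure K × ℕ)} (hf : Fn s)
    (hs : Stb (frob K) s) (e : ℕ → ℕ) :
    ∃ ρ : K[X], ∀ a ∈ s, (X - C a.1) ^ e a.2.2 ∣ up ρ - C a.2.1 := by
  classical
  set B : (AlgebraicClosure K)[X] := ∏ a ∈ s, (X - C a.1) ^ e a.2.2 with hB
  have hBm : B.Monic := monic_prod_of_monic _ _ fun a _ => (monic_X_sub_C _).pow _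
  obtain ⟨y, hy⟩ := IsDedekindDomain.exists_forall_sub_mem_ideal (s := s)
    (fun a => Ideal.span {(X - C a.1 : (AlgebraicClosure K)[X])}) (fun a => e a.2.2)
    (fun a _ => by
      rw [Ideal.prime_iff_isPrime (by
        rw [Ne, Ideal.span_singleton_eq_bot]; exact X_sub_C_ne_zero _)]
      exact (Ideal.span_singleton_prime (X_sub_C_ne_zero _)).2 (prime_X_sub_C _))
    (fun a ha b hb hab h => by
      apply hab
      apply hf a ha b hb
      rw [Ideal.span_singleton_eq_span_singleton] at h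
      have h1 := eq_of_monic_of_associated (monic_X_sub_C _) (monic_X_sub_C _) h
      exact C_injective (sub_right_injective h1))
    (fun a => C a.1.2.1)
  have hy' : ∀ a ∈ s, (X - C a.1) ^ e a.2.2 ∣ y - C a.2.1 := by
    intro a ha
    have := hy a ha
    rwa [Ideal.span_singleton_pow, Ideal.mem_span_singleton] at this
  set z := y %ₘ B with hz
  have hyz : B ∣ y - z := ⟨y /ₘ B, by rw [hz]; linear_combination -modByMonic_add_div y B⟩
  have hz' : ∀ a ∈ s, (X - C a.1) ^ e a.2.2 ∣ z - C a.2.1 := by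
    intro a ha
    have h1 := (Finset.dvd_prod_of_mem (fun a : AlgebraicClosure K × AlgebraicClosure K × ℕ =>
      (X - C a.1 : (AlgebraicClosure K)[X]) ^ e a.2.2) ha).trans hyz
    have h2 := dvd_sub (hy' a ha) h1
    have h3 : y - C a.2.1 - (y - z) = z - C a.2.1 := by ring
    rwa [h3] at h2
  have hfix : z.map (frob K) = z := by
    have h1 : B ∣ z.map (frob K) - z := by
      refine Finset.prod_dvd_of_coprime (R8_coprime hf e) ?_
      intro b hb
      obtain ⟨a, ha, rfl⟩ := R8_surj hs hb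
      have h2 := Polynomial.map_dvd (frob K) (hz' a ha)
      simp only [Polynomial.map_pow, Polynomial.map_sub, Polynomial.map_X, Polynomial.map_C] at h2
      have h3 := hz' _ hb
      simp only [R8_act] at h3 ⊢
      have h4 := dvd_sub h2 h3
      rwa [sub_sub_sub_cancel_right] at h4
    have h2 : (z.map (frob K) - z).degree < B.degree := by
      refine lt_of_le_of_lt (degree_sub_le _ _) (max_lt ?_ (degree_modByMonic_lt y hBm))
      rw [degree_map]
      exact degree_modByMonic_lt y hBm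
    exact sub_eq_zero.1 (eq_zero_of_dvd_of_degree_lt h1 h2)
  obtain ⟨ρ, hρ⟩ := up_of_map_frob hfix
  exact ⟨ρ, fun a ha => by rw [hρ]; exact hz' a ha⟩

end SBr
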