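import Pool.Agent.H.MP_cc3311_ag.R8
import Pool.Agent.H.MP_cc3311_ag.M3

/-!
# MP_cc3311_ag, R8a: the number of polynomials with a given structure
-/

set_option autoImplicit false

namespace SBr

open Polynomial

variable {K : Type} [Field K] [Fintype K]

/-- For a monic `G` of degree `n + 1`: the polynomial `f = G' / (n + 1)` and `G` itself as the function on
its roots. -/
noncomputable def crG (n : ℕ) (G : K[X]) :
    Finset (AlgebraicClosure K × AlgebraicClosure K × ℕ) :=
  crP (C (1 / ((n : K) + 1)) * derivative G) G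

theorem crG_mem {n : ℕ} (hG : Good K n) {G : K[X]} (h : G ∈ Mo K (n + 1)) :
    C (1 / ((n : K) + 1)) * derivative G ∈ Mo K n := by
  have h1 := hG (n + 1) (by omega) (by omega)
  rw [Nat.cast_add, Nat.cast_one] at h1
  obtain ⟨hm, hd⟩ := h
  have hc : (derivative G).coeff n = (n : K) + 1 := by
    rw [coeff_derivative, ← hd, coeff_natDegree, hm.leadingCoeff, one_mul]
  have hdd : (derivative G).natDegree = n := by
    refine natDegree_eq_of_le_of_coeff_ne_zero ?_ (by rw [hc]; exact h1)
    have := natDegree_derivative_le G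
    omega
  refine ⟨?_, ?_⟩
  · rw [Monic, leadingCoeff_mul, leadingCoeff_C, leadingCoeff, hdd, hc, one_div_mul_cancel h1]
  · rw [natDegree_C_mul (one_div_ne_zero h1), hdd]

/-- The equivalence at one point. -/
theorem R8a_point {n : ℕ} (hG : Good K n) {G : K[X]} (h : G ∈ Mo K (n + 1))
    (x v : AlgebraicClosure K) {m : ℕ} (hm : 2 ≤ m) :
    ((X - C x) ^ (m - 1) ∣ up (C (1 / ((n : K) + 1)) * derivative G) ∧ (up G).eval x = v) ↔
      (X - C x) ^ m ∣ up G - C v := by
  have h1 := hG (n + 1) (by omega) (by omega)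
  rw [Nat.cast_add, Nat.cast_one] at h1
  obtain ⟨hmo, hd⟩ := h
  have hup : up (C (1 / ((n : K) + 1)) * derivative G) =
      C (algebraMap K (AlgebraicClosure K) (1 / ((n : K) + 1))) *
        derivative (up G - C v) := by
    unfold up
    rw [Polynomial.map_mul, map_C, derivative_sub, derivative_C, sub_zero, derivative_map]
  have hunit : IsUnit (C (algebraMap K (AlgebraicClosure K) (1 / ((n : K) + 1)))) := by
    rw [isUnit_C]
    refine IsUnit.mk0 _ ?_
    rw [Ne, map_eq_zero]
    exact one_div_ne_zero h1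
  rw [hup, hunit.dvd_mul_left]
  have hdH : (up G - C v).natDegree = n + 1 := by
    rw [natDegree_sub_C, up_natDegree, hd]
  have hH0 : up G - C v ≠ 0 := by
    intro h0
    rw [h0, natDegree_zero] at hdH
    omega
  constructor
  · rintro ⟨hdv, he⟩
    have hroot : (up G - C v).IsRoot x := by
      rw [IsRoot.def, eval_sub, eval_C, he, sub_self]
    have hpos : 0 < (up G - C v).rootMultiplicity x := (rootMultiplicity_pos hH0).2 hroot
    have hle : (up G - C v).rootMultiplicity x ≤ n + 1 := by
      classical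
      rw [← hdH, ← count_roots]
      exact (Multiset.count_le_card _ _).trans (card_roots' _)
    have hne : (((up G - C v).rootMultiplicity x : ℕ) : AlgebraicClosure K) ≠ 0 :=
      hG.up _ hpos hle
    have h5 := derivative_rootMultiplicity_of_root_of_mem_nonZeroDivisors hroot
      (mem_nonZeroDivisors_of_ne_zero hne)
    have hD0 : derivative (up G - C v) ≠ 0 := by
      intro h0
      have h6 := congrArg (fun p => coeff p n) h0
      simp only [coeff_zero] at h6
      rw [coeff_derivative, coeff_sub, coeff_C_succ, sub_zero] at h6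
      have h7 : (up G).coeff (n + 1) = 1 := by
        have h8 : (up G).Monic := up_monic.2 hmo
        rw [← hd, ← up_natDegree G]
        exact h8.coeff_natDegree
      rw [h7, one_mul] at h6
      have h9 := hG.up (n + 1) (by omega) (by omega)
      rw [Nat.cast_add, Nat.cast_one] at h9
      exact h9 h6
    have h10 := (le_rootMultiplicity_iff hD0).2 hdv
    rw [h5] at h10
    exact (le_rootMultiplicity_iff hH0).1 (by omega)
  · intro hdv
    refine ⟨pow_sub_one_dvd_derivative_of_pow_dvd hdv, ?_⟩
    have h2 : (X - C x) ∣ up G - C v := (dvd_pow_self _ (by omega)).trans hdv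
    rw [dvd_iff_isRoot, IsRoot.def, eval_sub, eval_C, sub_eq_zero] at h2
    exact h2

/-- `(X - x) ^ (m - 1) ∣ G'` and `G x = v` iff `(X - x) ^ m ∣ G - v`, for `2 ≤ m`, if `m ≤ n + 1`
(characteristic); for `m > n + 1` both sides are false. -/
theorem Le_crG {n : ℕ} (hG : Good K n) {G : K[X]} (h : G ∈ Mo K (n + 1))
    {s : Finset (AlgebraicClosure K × AlgebraicClosure K × ℕ)} (hs : Ge2 s) :
    Le s (crG n G) ↔ ∀ a ∈ s, (X - C a.1) ^ a.2.2 ∣ up G - C a.2.1 := by
  have h0 : C (1 / ((n : K) + 1)) * derivative G ≠ 0 := (crG_mem hG h).1.ne_zero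
  rw [crG, Le_crP h0 G hs]
  exact forall₂_congr fun a ha => R8a_point hG h a.1 a.2.1 (hs a ha)

/-- THE COUNT for the polynomials. Proof: `R8_crt`, `prod_down`, `R8_dvd`, `R8_cong` with
`B = ∏ (X - x) ^ m` of degree `dg s`. -/
theorem countG {n : ℕ} (hG : Good K n) {s : Finset (AlgebraicClosure K × AlgebraicClosure K × ℕ)}
    (hs : Val (frob K) s) (hd : dg s ≤ n + 1) :
    {G | G ∈ Mo K (n + 1) ∧ Le s (crG n G)}.ncard * Fintype.card K ^ dg s =
      Fintype.card K ^ (n + 1) := by
  obtain ⟨hf, h2, hst, _⟩ := hs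
  obtain ⟨B, hBm, hB⟩ := prod_down hst (fun m => m)
  obtain ⟨ρ, hρ⟩ := R8_crt hf hst (fun m => m)
  have hBd : B.natDegree = dg s := by
    rw [← up_natDegree B, hB, natDegree_prod_of_monic _ _ fun a _ => (monic_X_sub_C a.1).pow _, dg]
    refine Finset.sum_congr rfl fun a _ => ?_
    rw [(monic_X_sub_C a.1).natDegree_pow, natDegree_X_sub_C, mul_one]
  have hset : {G | G ∈ Mo K (n + 1) ∧ Le s (crG n G)} = {G | G ∈ Mo K (n + 1) ∧ B ∣ G - ρ} := by
    ext G
    simp only [Set.mem_ofPred_eq]
    refine and_congr_right fun hGm => ?_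
    rw [Le_crG hG hGm h2, R8_dvd hf (fun m => m) hB (G - ρ)]
    refine forall₂_congr fun a ha => ?_
    have h3 : up (G - ρ) = (up G - C a.2.1) - (up ρ - C a.2.1) := by
      unfold up
      rw [Polynomial.map_sub]
      ring
    rw [h3]
    exact (dvd_sub_left (hρ a ha)).symm
  rw [hset, R8_cong (m := dg s) ⟨hBm, hBd⟩ hd, ← pow_add, Nat.sub_add_cancel hd]

end SBr
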