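import Pool.Agent.H.MP_cc3311_ag.A2
import Pool.Agent.H.MP_cc3311_ag.A4
import Pool.Agent.H.MP_cc3311_ag.M0

/-!
# MP_cc3311_ag, S0: irreducible factors, definitions
-/

set_option autoImplicit false

namespace SBr

open Polynomial

/-- Monic irreducible polynomials of degree `d`. -/
def Ir (K : Type) [Field K] (d : ℕ) : Set K[X] := {P | P.Monic ∧ Irreducible P ∧ P.natDegree = d}

/-- Their number. -/
noncomputable def nI (K : Type) [Field K] (d : ℕ) : ℕ := (Ir K d).ncard

/-- The number of different monic irreducible factors of degree `d`. -/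
noncomputable def ty {K : Type} [Field K] (P : K[X]) (d : ℕ) : ℕ := {Q | Q ∈ Ir K d ∧ Q ∣ P}.ncard

/-- The polynomials of degree less than the degree of `P` with different values at the roots of `P`. -/
def AA {K : Type} [Field K] (P : K[X]) : Set K[X] :=
  {α | α.degree < P.natDegree ∧ ∀ y z : AlgebraicClosure K, (up P).IsRoot y →
    (up P).IsRoot z → (up α).eval y = (up α).eval z → y = z}

/-- The number of monic irreducible polynomials of degree `d` over a field with `q` elements, as a
formula. -/
noncomputable def neck (q d : ℕ) : ℕ :=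
  ((∑ e ∈ d.divisors, ArithmeticFunction.moebius (d / e) * (q : ℤ) ^ e) / (d : ℤ)).toNat

/-- The explicit polynomial function `c_n(q)`. -/
noncomputable def cform (n q : ℕ) : ℕ :=
  ∑ p : Nat.Partition n, ∏ d ∈ p.parts.toFinset, (neck q d).choose (p.parts.count d) *
    (neck q d).descFactorial (p.parts.count d) * d ^ (p.parts.count d)

end SBr
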