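import Pool.Agent.H.MP_cc3311_ag.S0

/-!
# MP_cc3311_ag, S1: the roots of irreducible polynomials are Frobenius orbits
-/

set_option autoImplicit false

namespace SBr

open Polynomial

variable {K : Type} [Field K] [Fintype K]

theorem S1_root_iff (f : K[X]) (y : AlgebraicClosure K) : (up f).IsRoot y ↔ aeval y f = 0 := by
  rw [IsRoot.def, up, eval_map, aeval_def]

/-- Different monic irreducible polynomials have no common root. -/
theorem Ir_root {d e : ℕ} {Q R : K[X]} (hQ : Q ∈ Ir K d) (hR : R ∈ Ir K e)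
    {y : AlgebraicClosure K} (h : (up Q).IsRoot y) (h' : (up R).IsRoot y) : Q = R := by
  rw [S1_root_iff] at h h'
  rw [minpoly.eq_of_irreducible_of_monic hQ.2.1 h hQ.1,
    minpoly.eq_of_irreducible_of_monic hR.2.1 h' hR.1]

/-- Every element of the closure is a root of a monic irreducible polynomial over `K`. -/
theorem Ir_exists (v : AlgebraicClosure K) : ∃ d, ∃ R ∈ Ir K d, (up R).IsRoot v := by
  have hi : IsIntegral K v := Algebra.IsIntegral.isIntegral v
  refine ⟨(minpoly K v).natDegree, minpoly K v, ⟨minpoly.monic hi, minpoly.irreducible hi, rfl⟩, ?_⟩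
  rw [S1_root_iff]
  exact minpoly.aeval K v

theorem S1_exists_root {d : ℕ} {Q : K[X]} (hQ : Q ∈ Ir K d) :
    ∃ y : AlgebraicClosure K, (up Q).IsRoot y := by
  refine IsAlgClosed.exists_root (up Q) ?_
  have h1 : 0 < Q.natDegree := hQ.2.1.natDegree_pos
  rw [up, degree_map]
  exact (natDegree_pos_iff_degree_pos.1 h1).ne'

theorem S1_iter_root {Q : K[X]} {y : AlgebraicClosure K} (hy : (up Q).IsRoot y) (i : ℕ) :
    (up Q).IsRoot ((frob K)^[i] y) := by
  induction i with
  | zero => exact hy
  | succ i ih =>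
    rw [Function.iterate_succ_apply']
    have h := (A2_isRoot_frob (up Q) ((frob K)^[i] y)).2 ih
    rwa [map_frob_up] at h

theorem S1_period {d : ℕ} {Q : K[X]} (hQ : Q ∈ Ir K d) {y : AlgebraicClosure K}
    (hy : (up Q).IsRoot y) {k : ℕ} (hk : 0 < k) (h : (frob K)^[k] y = y) : d ≤ k := by
  set P : (AlgebraicClosure K)[X] := ∏ i ∈ Finset.range k, (X - C ((frob K)^[i] y)) with hP
  have h1 : P.map (frob K) = P := by
    rw [hP, Polynomial.map_prod]
    have h2 : ∀ i ∈ Finset.range k, (X - C ((frob K)^[i] y)).map (frob K) =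
        X - C ((frob K)^[i + 1] y) := by
      intro i _
      rw [Polynomial.map_sub, map_X, map_C, Function.iterate_succ_apply']
    rw [Finset.prod_congr rfl h2]
    obtain ⟨m, rfl⟩ : ∃ m, k = m + 1 := ⟨k - 1, by omega⟩
    rw [Finset.prod_range_succ, h, Finset.prod_range_succ' (fun i => X - C ((frob K)^[i] y)) m]
    rfl
  obtain ⟨g, hg⟩ := up_of_map_frob h1
  have hPm : P.Monic := monic_prod_of_monic _ _ fun i _ => monic_X_sub_C _
  have hPd : P.natDegree = k := by
    rw [hP, natDegree_prod_of_monic _ _ fun i _ => monic_X_sub_C _]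
    simp
  have hgm : g.Monic := by
    rw [← up_monic, hg]
    exact hPm
  have hgd : g.natDegree = k := by
    rw [← up_natDegree, hg]
    exact hPd
  have hgy : aeval y g = 0 := by
    rw [← S1_root_iff, hg, IsRoot.def, hP, eval_prod]
    refine Finset.prod_eq_zero (Finset.mem_range.2 hk) ?_
    simp
  have hdvd : Q ∣ g := by
    rw [S1_root_iff] at hy
    rw [minpoly.eq_of_irreducible_of_monic hQ.2.1 hy hQ.1]
    exact minpoly.dvd K y hgy
  have := natDegree_le_of_dvd hdvd hgm.ne_zero
  rw [hQ.2.2, hgd] at this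
  exact this

/-- The set of the roots of an irreducible polynomial is one Frobenius orbit with `d` elements. -/
theorem Ir_orbit {d : ℕ} {Q : K[X]} (hQ : Q ∈ Ir K d) {y : AlgebraicClosure K}
    (hy : (up Q).IsRoot y) : Set.BijOn (fun i : ℕ => (frob K)^[i] y) (Set.Iio d)
      {z | (up Q).IsRoot z} := by
  classical
  have hmaps : Set.MapsTo (fun i : ℕ => (frob K)^[i] y) (Set.Iio d) {z | (up Q).IsRoot z} :=
    fun i _ => S1_iter_root hy i
  have hinj : Set.InjOn (fun i : ℕ => (frob K)^[i] y) (Set.Iio d) := by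
    have key : ∀ i j : ℕ, i < j → j < d → (frob K)^[i] y = (frob K)^[j] y → False := by
      intro i j hij hj h
      have h1 : (frob K)^[i] y = (frob K)^[i] ((frob K)^[j - i] y) := by
        rw [← Function.iterate_add_apply, Nat.add_sub_cancel' hij.le]
        exact h
      have h2 := (Function.Injective.iterate frob_injective i) h1
      have h3 := S1_period hQ hy (Nat.sub_pos_of_lt hij) h2.symm
      omega
    intro i hi j hj h
    rcases lt_trichotomy i j with h1 | h1 | h1
    · exact (key i j h1 hj h).elim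
    · exact h1
    · exact (key j i h1 hi h.symm).elim
  refine ⟨hmaps, hinj, ?_⟩
  have hfin : {z | (up Q).IsRoot z}.Finite := by
    have := (up Q).roots.toFinset.finite_toSet
    refine this.subset ?_
    intro z hz
    rw [Finset.mem_coe, Multiset.mem_toFinset, mem_roots (up_monic.2 hQ.1).ne_zero]
    exact hz
  have hcard : {z | (up Q).IsRoot z}.ncard ≤ d := by
    have h1 : {z | (up Q).IsRoot z} ⊆ ((up Q).roots.toFinset : Set (AlgebraicClosure K)) := by
      intro z hz
      rw [Finset.mem_coe, Multiset.mem_toFinset, mem_roots (up_monic.2 hQ.1).ne_zero]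
      exact hz
    have h2 := Set.ncard_le_ncard h1 (Finset.finite_toSet _)
    rw [Set.ncard_coe_finset] at h2
    have h3 := (Multiset.toFinset_card_le (up Q).roots).trans (card_roots' (up Q))
    rw [up_natDegree, hQ.2.2] at h3
    exact h2.trans h3
  have himg : ((fun i : ℕ => (frob K)^[i] y) '' Set.Iio d) = {z | (up Q).IsRoot z} := by
    refine Set.eq_of_subset_of_ncard_le hmaps.image_subset ?_ hfin
    rw [Set.ncard_image_of_injOn hinj, Set.ncard_Iio_nat]
    exact hcard
  intro z hz
  rw [← himg] at hz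
  exact hz

theorem eval_frob (α : K[X]) (y : AlgebraicClosure K) :
    (up α).eval (frob K y) = frob K ((up α).eval y) := by
  rw [← eval_map_apply, map_frob_up]

theorem S1_eval_iter (α : K[X]) (y : AlgebraicClosure K) (i : ℕ) :
    (up α).eval ((frob K)^[i] y) = (frob K)^[i] ((up α).eval y) := by
  induction i with
  | zero => rfl
  | succ i ih => rw [Function.iterate_succ_apply', Function.iterate_succ_apply', eval_frob, ih]

theorem S1_ncard {d : ℕ} {Q : K[X]} (hQ : Q ∈ Ir K d) : {z | (up Q).IsRoot z}.ncard = d := by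
  obtain ⟨y, hy⟩ := S1_exists_root hQ
  rw [← (Ir_orbit hQ hy).image_eq, Set.ncard_image_of_injOn (Ir_orbit hQ hy).injOn,
    Set.ncard_Iio_nat]

theorem S1_iter_deg {d : ℕ} {R : K[X]} (hR : R ∈ Ir K d) {v : AlgebraicClosure K}
    (hv : (up R).IsRoot v) : (frob K)^[d] v = v := by
  obtain ⟨i, hi, h⟩ := (Ir_orbit hR hv).surjOn (S1_iter_root hv d)
  have hi' : i < d := hi
  simp only at h
  have h1 : (frob K)^[i] v = (frob K)^[i] ((frob K)^[d - i] v) := by
    rw [← Function.iterate_add_apply, Nat.add_sub_cancel' hi'.le]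
    exact h
  have h2 := (Function.Injective.iterate frob_injective i) h1
  have h3 := S1_period hR hv (Nat.sub_pos_of_lt hi') h2.symm
  have h4 : i = 0 := by omega
  subst h4
  exact h.symm

theorem S1_iter_pow (x : AlgebraicClosure K) (i : ℕ) :
    (frob K)^[i] x = x ^ Fintype.card K ^ i := by
  induction i with
  | zero => simp
  | succ i ih => rw [Function.iterate_succ_apply', ih, frob_apply, ← pow_mul, ← pow_succ]

theorem S1_eval_inj {d : ℕ} {Q : K[X]} (hQ : Q ∈ Ir K d) {y : AlgebraicClosure K}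
    (hy : (up Q).IsRoot y) {α β : K[X]} (hα : α.degree < d) (hβ : β.degree < d)
    (h : (up α).eval y = (up β).eval y) : α = β := by
  have h1 : aeval y (α - β) = 0 := by
    rw [← S1_root_iff, IsRoot.def, up, Polynomial.map_sub, eval_sub]
    exact sub_eq_zero.2 h
  have h2 : Q ∣ α - β := by
    rw [S1_root_iff] at hy
    rw [minpoly.eq_of_irreducible_of_monic hQ.2.1 hy hQ.1]
    exact minpoly.dvd K y h1
  have h3 : (α - β).degree < Q.degree := by
    rw [degree_eq_natDegree hQ.1.ne_zero, hQ.2.2]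
    exact (degree_sub_le α β).trans_lt (max_lt hα hβ)
  exact sub_eq_zero.1 (eq_zero_of_dvd_of_degree_lt h2 h3)

theorem S1_eval_surj {d : ℕ} {Q : K[X]} (hQ : Q ∈ Ir K d) {y : AlgebraicClosure K}
    (hy : (up Q).IsRoot y) {v : AlgebraicClosure K} (hv : (frob K)^[d] v = v) :
    ∃ α : K[X], α.degree < d ∧ (up α).eval y = v := by
  classical
  have hd : 0 < d := by
    have := hQ.2.1.natDegree_pos
    rwa [hQ.2.2] at this
  have hq : 1 < Fintype.card K := Fintype.one_lt_card
  have hqd : 1 < Fintype.card K ^ d := Nat.one_lt_pow hd.ne' hq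
  -- the target
  set T : Finset (AlgebraicClosure K) :=
    (X ^ Fintype.card K ^ d - X : (AlgebraicClosure K)[X]).roots.toFinset with hT
  have hne : (X ^ Fintype.card K ^ d - X : (AlgebraicClosure K)[X]) ≠ 0 :=
    FiniteField.X_pow_card_sub_X_ne_zero _ hqd
  have hTmem : ∀ x, x ∈ T ↔ (frob K)^[d] x = x := by
    intro x
    rw [hT, Multiset.mem_toFinset, mem_roots hne, IsRoot.def, eval_sub, eval_pow, eval_X,
      S1_iter_pow, sub_eq_zero]
  have hTcard : T.card ≤ Fintype.card K ^ d := by
    have h1 := (Multiset.toFinset_card_le _).trans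
      (card_roots' (X ^ Fintype.card K ^ d - X : (AlgebraicClosure K)[X]))
    rwa [FiniteField.X_pow_card_sub_X_natDegree_eq _ hqd] at h1
  -- the source
  haveI : Fintype (degreeLT K d) := Fintype.ofEquiv _ (degreeLTEquiv K d).toEquiv.symm
  have hS : Fintype.card (degreeLT K d) = Fintype.card K ^ d := by
    rw [Fintype.card_congr (degreeLTEquiv K d).toEquiv]
    simp
  let ev : degreeLT K d → AlgebraicClosure K := fun α => (up (α : K[X])).eval y
  have hev : Function.Injective ev := by
    intro α β h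
    exact Subtype.ext (S1_eval_inj hQ hy (mem_degreeLT.1 α.2) (mem_degreeLT.1 β.2) h)
  have himg : Finset.univ.image ev = T := by
    refine Finset.eq_of_subset_of_card_le ?_ ?_
    · intro x hx
      obtain ⟨α, -, rfl⟩ := Finset.mem_image.1 hx
      rw [hTmem]
      show (frob K)^[d] ((up (α : K[X])).eval y) = (up (α : K[X])).eval y
      rw [← S1_eval_iter, S1_iter_deg hQ hy]
    · rw [Finset.card_image_of_injective _ hev, Finset.card_univ, hS]
      exact hTcard
  have hvT : v ∈ Finset.univ.image ev := by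
    rw [himg, hTmem]
    exact hv
  obtain ⟨α, -, hα⟩ := Finset.mem_image.1 hvT
  exact ⟨α, mem_degreeLT.1 α.2, hα⟩

/-- Injective on the roots of `Q`: the image is the set of the roots of an irreducible polynomial of
the same degree. PROOF. Let `R` be the minimal polynomial of `α y`; its roots are the Frobenius orbit of
`α y`, which is the image of the orbit of `y`. -/
theorem S1_image {d : ℕ} {Q : K[X]} (hQ : Q ∈ Ir K d) {α : K[X]}
    (h : ∀ y z : AlgebraicClosure K, (up Q).IsRoot y → (up Q).IsRoot z →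
      (up α).eval y = (up α).eval z → y = z) :
    ∃ R ∈ Ir K d, ∀ y, (up Q).IsRoot y → (up R).IsRoot ((up α).eval y) := by
  obtain ⟨y, hy⟩ := S1_exists_root hQ
  obtain ⟨e, R, hR, hv⟩ := Ir_exists (K := K) ((up α).eval y)
  have hmap : ∀ z, (up Q).IsRoot z → (up R).IsRoot ((up α).eval z) := by
    intro z hz
    obtain ⟨i, hi, rfl⟩ := (Ir_orbit hQ hy).surjOn hz
    simp only
    rw [S1_eval_iter]
    exact S1_iter_root hv i
  have hbij : Set.BijOn (fun z => (up α).eval z) {z | (up Q).IsRoot z} {z | (up R).IsRoot z} := by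
    refine ⟨fun z hz => hmap z hz, fun z hz w hw hzw => h z w hz hw hzw, ?_⟩
    intro w hw
    obtain ⟨i, hi, rfl⟩ := (Ir_orbit hR hv).surjOn hw
    exact ⟨(frob K)^[i] y, S1_iter_root hy i, S1_eval_iter α y i⟩
  have hde : d = e := by
    rw [← S1_ncard hQ, ← S1_ncard hR]
    rw [← hbij.image_eq, Set.ncard_image_of_injOn hbij.injOn]
  subst hde
  exact ⟨R, hR, hmap⟩

/-- Conversely. -/
theorem S1_inj {d : ℕ} {Q R : K[X]} (hQ : Q ∈ Ir K d) (hR : R ∈ Ir K d) {α : K[X]}
    (h : ∀ y, (up Q).IsRoot y → (up R).IsRoot ((up α).eval y)) :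
    (∀ y z : AlgebraicClosure K, (up Q).IsRoot y → (up Q).IsRoot z →
      (up α).eval y = (up α).eval z → y = z) ∧
    ∀ v, (up R).IsRoot v → ∃ y, (up Q).IsRoot y ∧ (up α).eval y = v := by
  obtain ⟨y₀, hy₀⟩ := S1_exists_root hQ
  have hv₀ := h y₀ hy₀
  refine ⟨?_, ?_⟩
  · intro y z hy hz hyz
    obtain ⟨i, hi, rfl⟩ := (Ir_orbit hQ hy₀).surjOn hy
    obtain ⟨j, hj, rfl⟩ := (Ir_orbit hQ hy₀).surjOn hz
    simp only at hyz ⊢
    rw [S1_eval_iter, S1_eval_iter] at hyz
    rw [(Ir_orbit hR hv₀).injOn hi hj hyz]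
  · intro v hv
    obtain ⟨i, hi, rfl⟩ := (Ir_orbit hR hv₀).surjOn hv
    exact ⟨(frob K)^[i] y₀, S1_iter_root hy₀ i, S1_eval_iter α y₀ i⟩

/-- `α` is determined by the image of one root `y` of `Q`, which can be any of the `d` roots of `R` (the
field `K(y)` has `q ^ d` elements and consists of the values `α y`). -/
theorem S1_count {d : ℕ} {Q R : K[X]} (hQ : Q ∈ Ir K d) (hR : R ∈ Ir K d) :
    {α : K[X] | α.degree < d ∧ ∀ y, (up Q).IsRoot y → (up R).IsRoot ((up α).eval y)}.ncard = d := by
  obtain ⟨y, hy⟩ := S1_exists_root hQ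
  have hbij : Set.BijOn (fun α : K[X] => (up α).eval y)
      {α : K[X] | α.degree < d ∧ ∀ y, (up Q).IsRoot y → (up R).IsRoot ((up α).eval y)}
      {z | (up R).IsRoot z} := by
    refine ⟨fun α hα => hα.2 y hy, ?_, ?_⟩
    · intro α hα β hβ hab
      exact S1_eval_inj hQ hy hα.1 hβ.1 hab
    · intro v hv
      obtain ⟨α, hα, hαv⟩ := S1_eval_surj hQ hy (S1_iter_deg hR hv)
      refine ⟨α, ⟨hα, ?_⟩, hαv⟩
      intro z hz
      obtain ⟨i, hi, rfl⟩ := (Ir_orbit hQ hy).surjOn hz
      simp only
      rw [S1_eval_iter, hαv]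
      exact S1_iter_root hv i
  rw [← Set.ncard_image_of_injOn hbij.injOn, hbij.image_eq, S1_ncard hR]

end SBr
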