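import Pool.Agent.H.MP_cc3311_ag.S1

/-!
# MP_cc3311_ag, S2: one more irreducible factor
-/

set_option autoImplicit false

namespace SBr

open Polynomial

variable {K : Type} [Field K] [Fintype K]

theorem AA_finite (P : K[X]) : (AA P).Finite := by
  refine (A4_degreeLT_finite K P.natDegree).subset ?_
  intro α hα
  rw [SetLike.mem_coe, mem_degreeLT]
  exact hα.1

theorem AA_one : (AA (1 : K[X])).ncard = 1 := by
  have h : AA (1 : K[X]) = {0} := by
    ext α
    rw [Set.mem_singleton_iff]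
    constructor
    · rintro ⟨h1, -⟩
      rw [natDegree_one] at h1
      by_contra h0
      rw [degree_eq_natDegree h0] at h1
      have h2 : α.natDegree < 0 := by exact_mod_cast h1
      omega
    · rintro rfl
      refine ⟨?_, ?_⟩
      · rw [degree_zero]
        exact WithBot.bot_lt_coe _
      · intro y z hy
        rw [up, Polynomial.map_one, IsRoot.def, eval_one] at hy
        exact (one_ne_zero hy).elim
  rw [h, Set.ncard_singleton]

theorem ty_one (d : ℕ) : ty (1 : K[X]) d = 0 := by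
  have h : {Q : K[X] | Q ∈ Ir K d ∧ Q ∣ 1} = ∅ := by
    ext Q
    constructor
    · rintro ⟨h1, h2⟩
      exact (h1.2.1.not_isUnit (isUnit_of_dvd_one h2)).elim
    · intro h
      exact h.elim
  rw [ty, h, Set.ncard_empty]

theorem Ir_finite (d : ℕ) : (Ir K d).Finite :=
  (monic_finite K d).subset fun _ hf => ⟨hf.1, hf.2.2.le⟩

theorem S2_dvd_eq {d e : ℕ} {Q R : K[X]} (hQ : Q ∈ Ir K d) (hR : R ∈ Ir K e) (h : R ∣ Q) :
    R = Q := by
  have h1 : Associated R Q := hR.2.1.associated_of_dvd hQ.2.1 h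
  exact eq_of_monic_of_associated hR.1 hQ.1 h1

/-- The factors of `P * Q`. -/
theorem ty_mul {P Q : K[X]} {d : ℕ} (hP : P.Monic) (hQ : Q ∈ Ir K d) (hn : ¬ Q ∣ P) (e : ℕ) :
    ty (P * Q) e = ty P e + if e = d then 1 else 0 := by
  have hfin : {R : K[X] | R ∈ Ir K e ∧ R ∣ P}.Finite := (Ir_finite e).subset fun R hR => hR.1
  have hpr : ∀ R : K[X], R ∈ Ir K e → R ∣ P * Q → R ∣ P ∨ R = Q := by
    intro R hR h
    rcases hR.2.1.prime.dvd_or_dvd h with h1 | h1
    · exact Or.inl h1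
    · exact Or.inr (S2_dvd_eq hQ hR h1)
  by_cases he : e = d
  · subst he
    have h : {R : K[X] | R ∈ Ir K e ∧ R ∣ P * Q} = insert Q {R : K[X] | R ∈ Ir K e ∧ R ∣ P} := by
      ext R
      constructor
      · rintro ⟨h1, h2⟩
        rcases hpr R h1 h2 with h3 | h3
        · exact Or.inr ⟨h1, h3⟩
        · exact Or.inl h3
      · rintro (h1 | h1)
        · rw [h1]
          exact ⟨hQ, dvd_mul_left _ _⟩
        · exact ⟨h1.1, h1.2.mul_right _⟩
    rw [ty, ty, h, Set.ncard_insert_of_notMem (fun h1 => hn h1.2) hfin, if_pos rfl]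
  · have h : {R : K[X] | R ∈ Ir K e ∧ R ∣ P * Q} = {R : K[X] | R ∈ Ir K e ∧ R ∣ P} := by
      ext R
      constructor
      · rintro ⟨h1, h2⟩
        rcases hpr R h1 h2 with h3 | h3
        · exact ⟨h1, h3⟩
        · refine (he ?_).elim
          rw [← h1.2.2, h3, hQ.2.2]
      · rintro h1
        exact ⟨h1.1, h1.2.mul_right _⟩
    rw [ty, ty, h, if_neg he, add_zero]

/-- Counting by fibres. -/
theorem S2_fibers {α β : Type} (A : Set α) (B : Set β) (r : α → β → Prop) (m : ℕ)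
    (hA : A.Finite) (hB : B.Finite) (h1 : ∀ b ∈ B, {a | a ∈ A ∧ r a b}.ncard = m)
    (h2 : ∀ a ∈ A, ∃ b ∈ B, r a b ∧ ∀ b' ∈ B, r a b' → b' = b) : A.ncard = B.ncard * m := by
  classical
  have h := Finset.sum_card_bipartiteAbove_eq_sum_card_bipartiteBelow (s := hA.toFinset)
    (t := hB.toFinset) r
  have e1 : ∀ a ∈ hA.toFinset, (Finset.bipartiteAbove r hB.toFinset a).card = 1 := by
    intro a ha
    rw [Set.Finite.mem_toFinset] at ha
    obtain ⟨b, hb, hab, hu⟩ := h2 a ha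
    rw [Finset.card_eq_one]
    refine ⟨b, ?_⟩
    ext b'
    rw [Finset.mem_bipartiteAbove, Set.Finite.mem_toFinset, Finset.mem_singleton]
    constructor
    · rintro ⟨h3, h4⟩
      exact hu b' h3 h4
    · rintro rfl
      exact ⟨hb, hab⟩
  have e2 : ∀ b ∈ hB.toFinset, (Finset.bipartiteBelow r hA.toFinset b).card = m := by
    intro b hb
    rw [Set.Finite.mem_toFinset] at hb
    rw [← h1 b hb, ← Set.ncard_coe_finset]
    congr 1
    ext a
    rw [Finset.mem_coe, Finset.mem_bipartiteBelow, Set.Finite.mem_toFinset]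
    rfl
  rw [Finset.sum_congr rfl e1, Finset.sum_congr rfl e2, Finset.sum_const, Finset.sum_const,
    smul_eq_mul, smul_eq_mul, mul_one] at h
  rw [Set.ncard_eq_toFinset_card A hA, Set.ncard_eq_toFinset_card B hB]
  exact h

/-- Counting by a correspondence. -/
theorem S2_corr {α β : Type} (A : Set α) (B : Set β) (r : α → β → Prop)
    (hA : A.Finite) (hB : B.Finite) (h1 : ∀ b ∈ B, ∃ a ∈ A, r a b)
    (h2 : ∀ a ∈ A, ∃ b ∈ B, r a b)
    (h3 : ∀ a ∈ A, ∀ b ∈ B, ∀ b' ∈ B, r a b → r a b' → b' = b)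
    (h4 : ∀ b ∈ B, ∀ a ∈ A, ∀ a' ∈ A, r a b → r a' b → a' = a) : A.ncard = B.ncard := by
  have h := S2_fibers A B r 1 hA hB ?_ ?_
  · rw [h, mul_one]
  · intro b hb
    obtain ⟨a, ha, hab⟩ := h1 b hb
    rw [Set.ncard_eq_one]
    refine ⟨a, ?_⟩
    ext a'
    rw [Set.mem_singleton_iff]
    constructor
    · rintro ⟨h5, h6⟩
      exact h4 b hb a ha a' h5 hab h6
    · rintro rfl
      exact ⟨ha, hab⟩
  · intro a ha
    obtain ⟨b, hb, hab⟩ := h2 a ha
    exact ⟨b, hb, hab, fun b' hb' h5 => h3 a ha b hb b' hb' hab h5⟩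

theorem S2_root_dvd {P Q : K[X]} (h : Q ∣ P) {y : AlgebraicClosure K} (hy : (up Q).IsRoot y) :
    (up P).IsRoot y := by
  obtain ⟨R, rfl⟩ := h
  rw [up, Polynomial.map_mul, IsRoot.def, eval_mul]
  rw [IsRoot.def] at hy
  have h1 : eval y (Q.map (algebraMap K (AlgebraicClosure K))) = 0 := hy
  rw [h1, zero_mul]

theorem S2_dvd_root {P Q : K[X]} {d : ℕ} (hQ : Q ∈ Ir K d) {y : AlgebraicClosure K}
    (hy : (up Q).IsRoot y) (h : (up P).IsRoot y) : Q ∣ P := by
  rw [S1_root_iff] at hy h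
  rw [minpoly.eq_of_irreducible_of_monic hQ.2.1 hy hQ.1]
  exact minpoly.dvd K y h

theorem S2_root_mul {P Q : K[X]} (y : AlgebraicClosure K) :
    (up (P * Q)).IsRoot y ↔ (up P).IsRoot y ∨ (up Q).IsRoot y := by
  rw [S1_root_iff, S1_root_iff, S1_root_iff, map_mul, mul_eq_zero]

theorem S2_eval_mod {P α : K[X]} (hP : P.Monic) {y : AlgebraicClosure K}
    (hy : (up P).IsRoot y) : (up (α %ₘ P)).eval y = (up α).eval y := by
  rw [S1_root_iff] at hy
  have h1 : ∀ f : K[X], (up f).eval y = aeval y f := by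
    intro f
    rw [up, eval_map, aeval_def]
  rw [h1, h1]
  conv_rhs => rw [← modByMonic_add_div α P]
  rw [map_add, map_mul, hy, zero_mul, add_zero]

/-- The irreducible polynomials the roots of which are values of `α` at roots of `P`. -/
def S2_S (P α : K[X]) (d : ℕ) : Set K[X] :=
  {R | R ∈ Ir K d ∧ ∃ y, (up P).IsRoot y ∧ (up R).IsRoot ((up α).eval y)}

theorem S2_S_ncard {P α : K[X]} (d : ℕ) (hα : α ∈ AA P) : (S2_S P α d).ncard = ty P d := by
  symm
  refine S2_corr {Q | Q ∈ Ir K d ∧ Q ∣ P} (S2_S P α d)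
    (fun Q R => ∃ y, (up Q).IsRoot y ∧ (up R).IsRoot ((up α).eval y))
    ((Ir_finite d).subset fun Q hQ => hQ.1) ((Ir_finite d).subset fun Q hQ => hQ.1) ?_ ?_ ?_ ?_
  · rintro R ⟨hR, y, hy, hy'⟩
    obtain ⟨e, Q, hQ, hQy⟩ := Ir_exists (K := K) y
    have hQP : Q ∣ P := S2_dvd_root hQ hQy hy
    obtain ⟨R', hR', h⟩ := S1_image hQ (α := α) fun a b ha hb hab =>
      hα.2 a b (S2_root_dvd hQP ha) (S2_root_dvd hQP hb) hab
    have h1 : R' = R := Ir_root hR' hR (h y hQy) hy'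
    have h2 : e = d := by rw [← hR'.2.2, h1, hR.2.2]
    subst h2
    exact ⟨Q, ⟨hQ, hQP⟩, y, hQy, hy'⟩
  · rintro Q ⟨hQ, hQP⟩
    obtain ⟨R, hR, h⟩ := S1_image hQ (α := α) fun a b ha hb hab =>
      hα.2 a b (S2_root_dvd hQP ha) (S2_root_dvd hQP hb) hab
    obtain ⟨y, hy⟩ := S1_exists_root hQ
    exact ⟨R, ⟨hR, y, S2_root_dvd hQP hy, h y hy⟩, y, hy, h y hy⟩
  · rintro Q ⟨hQ, hQP⟩ R ⟨hR, -⟩ R' ⟨hR', -⟩ ⟨y, hy, hy'⟩ ⟨z, hz, hz'⟩
    obtain ⟨R'', hR'', h⟩ := S1_image hQ (α := α) fun a b ha hb hab =>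
      hα.2 a b (S2_root_dvd hQP ha) (S2_root_dvd hQP hb) hab
    have h1 : R'' = R := Ir_root hR'' hR (h y hy) hy'
    have h2 : R'' = R' := Ir_root hR'' hR' (h z hz) hz'
    rw [← h1, ← h2]
  · rintro R ⟨hR, -⟩ Q ⟨hQ, hQP⟩ Q' ⟨hQ', hQP'⟩ ⟨y, hy, hy'⟩ ⟨z, hz, hz'⟩
    obtain ⟨R'', hR'', h⟩ := S1_image hQ (α := α) fun a b ha hb hab =>
      hα.2 a b (S2_root_dvd hQP ha) (S2_root_dvd hQP hb) hab
    have h1 : R'' = R := Ir_root hR'' hR (h y hy) hy'
    subst h1
    obtain ⟨w, hw, hw'⟩ := (S1_inj hQ hR'' h).2 _ hz'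
    have h3 : w = z := hα.2 w z (S2_root_dvd hQP hw) (S2_root_dvd hQP' hz) hw'
    subst h3
    exact Ir_root hQ' hQ hz hw

/-- The second components. -/
def S2_C (P Q α : K[X]) (d : ℕ) : Set K[X] :=
  {β | β.degree < d ∧ (∀ y z : AlgebraicClosure K, (up Q).IsRoot y → (up Q).IsRoot z →
    (up β).eval y = (up β).eval z → y = z) ∧
    ∀ y z : AlgebraicClosure K, (up P).IsRoot y → (up Q).IsRoot z →
      (up α).eval y ≠ (up β).eval z}

theorem S2_C_ncard {P Q α : K[X]} {d : ℕ} (hα : α ∈ AA P) (hQ : Q ∈ Ir K d) :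
    (S2_C P Q α d).ncard = d * (nI K d - ty P d) := by
  have hfin : ∀ n : ℕ, {β : K[X] | β.degree < n}.Finite := by
    intro n
    refine (A4_degreeLT_finite K n).subset ?_
    intro α hα
    rw [SetLike.mem_coe, mem_degreeLT]
    exact hα
  have hsub : S2_S P α d ⊆ Ir K d := fun R hR => hR.1
  have h := S2_fibers (S2_C P Q α d) (Ir K d \ S2_S P α d)
    (fun β R => ∀ y, (up Q).IsRoot y → (up R).IsRoot ((up β).eval y)) d
    ((hfin d).subset fun β hβ => hβ.1) ((Ir_finite d).subset Set.sdiff_subset) ?_ ?_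
  · rw [h, Set.ncard_sdiff hsub ((Ir_finite d).subset hsub), S2_S_ncard d hα, mul_comm, nI]
  · rintro R ⟨hR, hRS⟩
    refine Eq.trans ?_ (S1_count hQ hR)
    congr 1
    ext β
    constructor
    · rintro ⟨h1, h2⟩
      exact ⟨h1.1, h2⟩
    · rintro ⟨h1, h2⟩
      refine ⟨⟨h1, (S1_inj hQ hR h2).1, ?_⟩, h2⟩
      intro y z hy hz hyz
      refine hRS ⟨hR, y, hy, ?_⟩
      rw [hyz]
      exact h2 z hz
  · rintro β ⟨h1, h2, h3⟩
    obtain ⟨R, hR, h⟩ := S1_image hQ h2
    refine ⟨R, ⟨hR, ?_⟩, h, ?_⟩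
    · rintro ⟨-, y, hy, hy'⟩
      obtain ⟨z, hz, hz'⟩ := (S1_inj hQ hR h).2 _ hy'
      exact h3 y z hy hz hz'.symm
    · rintro R' ⟨hR', -⟩ h'
      obtain ⟨y, hy⟩ := S1_exists_root hQ
      exact Ir_root hR' hR (h' y hy) (h y hy)

/-- PROOF. By the Chinese remainder theorem `α ↦ (α % P, α % Q)` is a bijection from the polynomials of
degree less than `deg P + d` to the pairs. `α` is in `AA (P * Q)` iff `α₁ = α % P` is in `AA P`,
`α₂ = α % Q` is injective on the roots of `Q`, and no value of `α₂` at a root of `Q` is a value of `α₁` at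
a root of `P`. By `S1_image`, `S1_inj` the map `α₂` corresponds to a polynomial `R ∈ Ir K d`; the
values of `α₁` at the roots of `P` are the roots of different irreducible polynomials, one for every
irreducible factor of `P`, of the same degree; the condition is that `R` is not one of the `ty P d` ones
of degree `d`. For every such `R` there are `d` maps (`S1_count`). -/
theorem AA_mul {P Q : K[X]} {d : ℕ} (hP : P.Monic) (hs : Squarefree P) (hQ : Q ∈ Ir K d)
    (hn : ¬ Q ∣ P) : (AA (P * Q)).ncard = (AA P).ncard * (d * (nI K d - ty P d)) := by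
  have hcop : IsCoprime P Q := ((hQ.2.1.coprime_iff_not_dvd).2 hn).symm
  have hPQ : (P * Q).Monic := hP.mul hQ.1
  have hdeg : (P * Q).natDegree = P.natDegree + d := by
    rw [hP.natDegree_mul hQ.1, hQ.2.2]
  have hPd : P.degree = P.natDegree := degree_eq_natDegree hP.ne_zero
  have hQd : Q.degree = d := by rw [degree_eq_natDegree hQ.1.ne_zero, hQ.2.2]
  have hmodP : ∀ α : K[X], (α %ₘ P).degree < P.natDegree := by
    intro α
    rw [← hPd]
    exact degree_modByMonic_lt α hP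
  have hmodQ : ∀ α : K[X], (α %ₘ Q).degree < d := by
    intro α
    rw [← hQd]
    exact degree_modByMonic_lt α hQ.1
  refine S2_fibers (AA (P * Q)) (AA P) (fun α β => α %ₘ P = β) _ (AA_finite _) (AA_finite _) ?_ ?_
  · intro α₁ hα₁
    rw [← S2_C_ncard hα₁ hQ]
    have hfinC : (S2_C P Q α₁ d).Finite := by
      refine (A4_degreeLT_finite K d).subset ?_
      intro β hβ
      rw [SetLike.mem_coe, mem_degreeLT]
      exact hβ.1
    refine S2_corr _ _ (fun α β => α %ₘ Q = β) ((AA_finite (P * Q)).subset fun a ha => ha.1) hfinC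
      ?_ ?_ ?_ ?_
    · rintro β ⟨hβ1, hβ2, hβ3⟩
      obtain ⟨u, v, huv⟩ := hcop
      set γ : K[X] := α₁ * (v * Q) + β * (u * P) with hγ
      have hγPQ : P * Q ∣ γ %ₘ (P * Q) - γ := by
        rw [modByMonic_eq_sub_mul_div]
        refine ⟨-(γ /ₘ (P * Q)), ?_⟩
        ring
      have hmP : (γ %ₘ (P * Q)) %ₘ P = α₁ := by
        have h1 : (γ %ₘ (P * Q)) %ₘ P = α₁ %ₘ P := by
          refine modByMonic_eq_of_dvd_sub hP ?_
          have h2 : P ∣ γ %ₘ (P * Q) - γ := (dvd_mul_right P Q).trans hγPQ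
          have h3 : P ∣ γ - α₁ := by
            refine ⟨β * u - α₁ * u, ?_⟩
            rw [hγ]
            linear_combination α₁ * huv
          have h4 := dvd_add h2 h3
          rwa [sub_add_sub_cancel] at h4
        rw [h1, modByMonic_eq_self_iff hP, hPd]
        exact hα₁.1
      have hmQ : (γ %ₘ (P * Q)) %ₘ Q = β := by
        have h1 : (γ %ₘ (P * Q)) %ₘ Q = β %ₘ Q := by
          refine modByMonic_eq_of_dvd_sub hQ.1 ?_
          have h2 : Q ∣ γ %ₘ (P * Q) - γ := (dvd_mul_left Q P).trans hγPQ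
          have h3 : Q ∣ γ - β := by
            refine ⟨α₁ * v - β * v, ?_⟩
            rw [hγ]
            linear_combination β * huv
          have h4 := dvd_add h2 h3
          rwa [sub_add_sub_cancel] at h4
        rw [h1, modByMonic_eq_self_iff hQ.1, hQd]
        exact hβ1
      have evP : ∀ y, (up P).IsRoot y → (up (γ %ₘ (P * Q))).eval y = (up α₁).eval y := by
        intro y hy
        rw [← S2_eval_mod hP hy, hmP]
      have evQ : ∀ y, (up Q).IsRoot y → (up (γ %ₘ (P * Q))).eval y = (up β).eval y := by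
        intro y hy
        rw [← S2_eval_mod hQ.1 hy, hmQ]
      refine ⟨γ %ₘ (P * Q), ⟨⟨?_, ?_⟩, hmP⟩, hmQ⟩
      · rw [← degree_eq_natDegree hPQ.ne_zero]
        exact degree_modByMonic_lt _ hPQ
      · intro y z hy hz hyz
        rw [S2_root_mul] at hy hz
        rcases hy with hy | hy <;> rcases hz with hz | hz
        · rw [evP y hy, evP z hz] at hyz
          exact hα₁.2 y z hy hz hyz
        · rw [evP y hy, evQ z hz] at hyz
          exact (hβ3 y z hy hz hyz).elim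
        · rw [evQ y hy, evP z hz] at hyz
          exact (hβ3 z y hz hy hyz.symm).elim
        · rw [evQ y hy, evQ z hz] at hyz
          exact hβ2 y z hy hz hyz
    · rintro α ⟨⟨h1, h2⟩, h3⟩
      refine ⟨α %ₘ Q, ⟨hmodQ α, ?_, ?_⟩, rfl⟩
      · intro y z hy hz hyz
        rw [S2_eval_mod hQ.1 hy, S2_eval_mod hQ.1 hz] at hyz
        exact h2 y z ((S2_root_mul y).2 (Or.inr hy)) ((S2_root_mul z).2 (Or.inr hz)) hyz
      · intro y z hy hz hyz
        rw [← h3, S2_eval_mod hP hy, S2_eval_mod hQ.1 hz] at hyz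
        have h4 := h2 y z ((S2_root_mul y).2 (Or.inl hy)) ((S2_root_mul z).2 (Or.inr hz)) hyz
        subst h4
        exact hn (S2_dvd_root hQ hz hy)
    · rintro α _ β _ β' _ h1 h2
      rw [← h1, ← h2]
    · rintro β _ α ⟨hα, hαP⟩ α' ⟨hα', hαP'⟩ h1 h2
      have e1 : P ∣ α' - α := by
        rw [← modByMonic_eq_zero_iff_dvd hP, sub_modByMonic, hαP, hαP', sub_self]
      have e2 : Q ∣ α' - α := by
        rw [← modByMonic_eq_zero_iff_dvd hQ.1, sub_modByMonic, h1, h2, sub_self]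
      have e3 : P * Q ∣ α' - α := hcop.mul_dvd e1 e2
      have e4 : (α' - α).degree < (P * Q).degree := by
        rw [degree_eq_natDegree hPQ.ne_zero]
        exact (degree_sub_le _ _).trans_lt (max_lt hα'.1 hα.1)
      exact sub_eq_zero.1 (eq_zero_of_dvd_of_degree_lt e3 e4)
  · rintro α ⟨h1, h2⟩
    refine ⟨α %ₘ P, ⟨hmodP α, ?_⟩, rfl, fun b _ hb => hb.symm⟩
    intro y z hy hz hyz
    rw [S2_eval_mod hP hy, S2_eval_mod hP hz] at hyz
    exact h2 y z ((S2_root_mul y).2 (Or.inl hy)) ((S2_root_mul z).2 (Or.inl hz)) hyz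

end SBr
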