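import Pool.Agent.H.MP_cc3311_ag.S2

/-!
# MP_cc3311_ag, S3: the number of injective functions on the roots of a polynomial
-/

set_option autoImplicit false

namespace SBr

open Polynomial

variable {K : Type} [Field K] [Fintype K]

omit [Fintype K] in
/-- A squarefree monic polynomial of positive degree has a monic irreducible factor. -/
theorem S3_split {P : K[X]} {n : ℕ} (hP : P ∈ Sq K n) (hn : n ≠ 0) :
    ∃ (Q P' : K[X]) (d : ℕ), 1 ≤ d ∧ d ≤ n ∧ Q ∈ Ir K d ∧ P' ∈ Sq K (n - d) ∧ ¬ Q ∣ P' ∧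
      P = P' * Q := by
  obtain ⟨hm, hd, hs⟩ := hP
  have hu : ¬ IsUnit P := fun h => hn (by rw [← hd]; exact natDegree_eq_zero_of_isUnit h)
  obtain ⟨Q, hQm, hQi, P', hPQ⟩ := exists_monic_irreducible_factor P hu
  have hP'm : P'.Monic := by
    rw [hPQ] at hm
    exact Monic.of_mul_monic_left hQm hm
  have hdeg : Q.natDegree + P'.natDegree = n := by
    rw [← hd, hPQ, hQm.natDegree_mul hP'm]
  have hQd : 1 ≤ Q.natDegree := hQi.natDegree_pos
  refine ⟨Q, P', Q.natDegree, hQd, by omega, ⟨hQm, hQi, rfl⟩, ⟨hP'm, by omega, ?_⟩, ?_, ?_⟩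
  · rw [hPQ] at hs
    exact hs.of_mul_right
  · rintro ⟨R, hR⟩
    have h1 : IsUnit Q := hs Q ⟨R, by rw [hPQ, hR, mul_assoc]⟩
    exact hQi.not_isUnit h1
  · rw [hPQ, mul_comm]

theorem S3_card (n : ℕ) : ∀ (P : K[X]), P ∈ Sq K n → ∀ m : ℕ, n ≤ m → (AA P).ncard =
    ∏ d ∈ Finset.Icc 1 m, (nI K d).descFactorial (ty P d) * d ^ ty P d := by
  induction n using Nat.strong_induction_on with
  | _ n ih =>
    intro P hP m hm
    by_cases hn : n = 0
    · have h1 : P = 1 := eq_one_of_monic_natDegree_zero hP.1 (by rw [hP.2.1, hn])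
      rw [h1, AA_one]
      symm
      refine Finset.prod_eq_one fun d _ => ?_
      rw [ty_one, Nat.descFactorial_zero, pow_zero, one_mul]
    · obtain ⟨Q, P', d, hd1, hdn, hQ, hP', hQP, rfl⟩ := S3_split hP hn
      rw [AA_mul hP'.1 hP'.2.2 hQ hQP, ih (n - d) (by omega) P' hP' m (by omega)]
      have hdm : d ∈ Finset.Icc 1 m := Finset.mem_Icc.2 ⟨hd1, by omega⟩
      rw [← Finset.mul_prod_erase _ _ hdm, ← Finset.mul_prod_erase _ _ hdm]
      have h2 : ∏ e ∈ (Finset.Icc 1 m).erase d,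
          (nI K e).descFactorial (ty (P' * Q) e) * e ^ ty (P' * Q) e =
          ∏ e ∈ (Finset.Icc 1 m).erase d, (nI K e).descFactorial (ty P' e) * e ^ ty P' e := by
        refine Finset.prod_congr rfl fun e he => ?_
        rw [ty_mul hP'.1 hQ hQP e, if_neg (Finset.ne_of_mem_erase he), add_zero]
      rw [h2, ty_mul hP'.1 hQ hQP d, if_pos rfl, Nat.descFactorial_succ, pow_succ]
      ring

/-- Induction on the degree: a squarefree monic polynomial of positive degree is `P * Q` with `Q`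
monic irreducible not dividing `P`; `AA_mul`, `ty_mul`, `Nat.descFactorial_succ`. -/
theorem AA_card {P : K[X]} {n : ℕ} (hP : P ∈ Sq K n) : (AA P).ncard =
    ∏ d ∈ Finset.Icc 1 n, (nI K d).descFactorial (ty P d) * d ^ ty P d :=
  S3_card n P hP n le_rfl

theorem S3_sum (n : ℕ) : ∀ (P : K[X]), P ∈ Sq K n → ∀ m : ℕ, n ≤ m →
    ∑ d ∈ Finset.Icc 1 m, d * ty P d = n := by
  induction n using Nat.strong_induction_on with
  | _ n ih =>
    intro P hP m hm
    by_cases hn : n = 0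
    · have h1 : P = 1 := eq_one_of_monic_natDegree_zero hP.1 (by rw [hP.2.1, hn])
      rw [h1, hn]
      refine Finset.sum_eq_zero fun d _ => ?_
      rw [ty_one, mul_zero]
    · obtain ⟨Q, P', d, hd1, hdn, hQ, hP', hQP, rfl⟩ := S3_split hP hn
      have h3 := ih (n - d) (by omega) P' hP' m (by omega)
      have hdm : d ∈ Finset.Icc 1 m := Finset.mem_Icc.2 ⟨hd1, by omega⟩
      rw [← Finset.add_sum_erase _ _ hdm] at h3 ⊢
      have h2 : ∑ e ∈ (Finset.Icc 1 m).erase d, e * ty (P' * Q) e =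
          ∑ e ∈ (Finset.Icc 1 m).erase d, e * ty P' e := by
        refine Finset.sum_congr rfl fun e he => ?_
        rw [ty_mul hP'.1 hQ hQP e, if_neg (Finset.ne_of_mem_erase he), add_zero]
      rw [h2, ty_mul hP'.1 hQ hQP d, if_pos rfl, mul_add, mul_one]
      omega

/-- `∑ d * ty P d = n`. -/
theorem sum_ty {P : K[X]} {n : ℕ} (hP : P ∈ Sq K n) :
    ∑ d ∈ Finset.Icc 1 n, d * ty P d = n :=
  S3_sum n P hP n le_rfl

end SBr
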