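import Pool.Agent.H.MP_cc3311_ag.S3

/-!
# MP_cc3311_ag, S4: squarefree polynomials by type
-/

set_option autoImplicit false

namespace SBr

open Polynomial

variable (K : Type) [Field K] [Fintype K]

theorem S4_eq {F : Type} [Field F] {P Q : F[X]} (hP : P.Monic) (hQ : Q.Monic) (hi : Irreducible P)
    (hj : Irreducible Q) (h : P ∣ Q) : P = Q :=
  Polynomial.eq_of_monic_of_associated hP hQ (hi.associated_of_dvd hj h)

theorem S4_dvd {F : Type} [Field F] {P P' : F[X]} (hs : Squarefree P) (hP' : P' ≠ 0)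
    (h : ∀ Q : F[X], Q.Monic → Irreducible Q → Q ∣ P → Q ∣ P') : P ∣ P' := by
  classical
  have hP : P ≠ 0 := hs.ne_zero
  rw [UniqueFactorizationMonoid.dvd_iff_normalizedFactors_le_normalizedFactors hP hP']
  rw [Multiset.le_iff_subset
    ((UniqueFactorizationMonoid.squarefree_iff_nodup_normalizedFactors hP).1 hs)]
  intro Q hQ
  rw [UniqueFactorizationMonoid.mem_normalizedFactors_iff' hP] at hQ
  rw [UniqueFactorizationMonoid.mem_normalizedFactors_iff' hP']
  refine ⟨hQ.1, hQ.2.1, h Q ?_ hQ.1 hQ.2.2⟩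
  rw [← hQ.2.1]
  exact Polynomial.monic_normalize hQ.1.ne_zero

theorem S4_prod {F : Type} [Field F] {U : Finset F[X]} (hU : ∀ R ∈ U, R.Monic ∧ Irreducible R)
    {Q : F[X]} (hQ : Q.Monic) (hQ' : Irreducible Q) : Q ∣ ∏ R ∈ U, R ↔ Q ∈ U := by
  constructor
  · intro h
    obtain ⟨R, hR, h1⟩ := (hQ'.prime.dvd_finsetProd_iff _).1 h
    rwa [S4_eq hQ (hU R hR).1 hQ' (hU R hR).2 h1]
  · intro h
    exact Finset.dvd_prod_of_mem (fun R => R) h

theorem S4_sqf {F : Type} [Field F] {U : Finset F[X]} (hU : ∀ R ∈ U, R.Monic ∧ Irreducible R) :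
    Squarefree (∏ R ∈ U, R) := by
  apply Finset.squarefree_prod_of_pairwise_isCoprime
  · intro R hR S hS hne
    have h1 : IsCoprime R S := by
      apply (hU R hR).2.coprime_iff_not_dvd.2
      intro h
      exact hne (S4_eq (hU R hR).1 (hU S hS).1 (hU R hR).2 (hU S hS).2 h)
    exact h1.isRelPrime
  · intro R hR
    exact (hU R hR).2.squarefree

/-- The number of squarefree monic polynomials of degree `n` of a given type.
PROOF. `P ↦ (for every d the set of the irreducible factors of degree d)` is a bijection onto the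
families of subsets of `Ir K d` with `m d` elements, `d ∈ Icc 1 n` (unique factorisation; the inverse is
the product). -/
theorem type_card {n : ℕ} (m : ℕ → ℕ) (hm : ∑ d ∈ Finset.Icc 1 n, d * m d = n) :
    {P | P ∈ Sq K n ∧ ∀ d ∈ Finset.Icc 1 n, ty P d = m d}.ncard =
      ∏ d ∈ Finset.Icc 1 n, (nI K d).choose (m d) := by
  classical
  have hfin : ∀ d, (Ir K d).Finite := fun d => Ir_finite d
  set I : ℕ → Finset K[X] := fun d => (hfin d).toFinset with hI
  have hmem : ∀ d (Q : K[X]), Q ∈ I d ↔ Q.Monic ∧ Irreducible Q ∧ Q.natDegree = d := by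
    intro d Q
    simp [hI, Ir]
  have hcard : ∀ d, (I d).card = nI K d := by
    intro d
    rw [nI, Set.ncard_eq_toFinset_card _ (hfin d)]
  have hty : ∀ (P : K[X]) d, ((I d).filter (fun Q => Q ∣ P)).card = ty P d := by
    intro P d
    rw [ty, ← Set.ncard_coe_finset]
    congr 1
    ext Q
    simp [hI]
  have hT : ∏ d ∈ Finset.Icc 1 n, (nI K d).choose (m d) =
      (Finset.pi (Finset.Icc 1 n) (fun d => (I d).powersetCard (m d))).card := by
    rw [Finset.card_pi]
    apply Finset.prod_congr rfl
    intro d _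
    rw [Finset.card_powersetCard, hcard]
  rw [hT, ← Set.ncard_coe_finset]
  apply Set.ncard_congr (fun P _ => fun d _ => (I d).filter (fun Q => Q ∣ P))
  · intro P hP
    simp only [Finset.mem_coe, Finset.mem_pi, Finset.mem_powersetCard]
    intro d hd
    exact ⟨Finset.filter_subset _ _, by rw [hty]; exact hP.2 d hd⟩
  · have key : ∀ P P' : K[X], P ∈ Sq K n → P' ∈ Sq K n →
        (fun d (_ : d ∈ Finset.Icc 1 n) => (I d).filter (fun Q => Q ∣ P)) =
        (fun d (_ : d ∈ Finset.Icc 1 n) => (I d).filter (fun Q => Q ∣ P')) → P ∣ P' := by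
      intro P P' hP hP' h
      apply S4_dvd hP.2.2 hP'.1.ne_zero
      intro Q hQ hi hd
      have h1 : Q.natDegree ∈ Finset.Icc 1 n := by
        rw [Finset.mem_Icc]
        refine ⟨hi.natDegree_pos, ?_⟩
        rw [← hP.2.1]
        exact Polynomial.natDegree_le_of_dvd hd hP.1.ne_zero
      have h2 := congrFun (congrFun h Q.natDegree) h1
      have h3 : Q ∈ (I Q.natDegree).filter (fun Q => Q ∣ P) := by
        rw [Finset.mem_filter, hmem]
        exact ⟨⟨hQ, hi, rfl⟩, hd⟩
      rw [h2, Finset.mem_filter] at h3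
      exact h3.2
    intro P P' hP hP' h
    exact Polynomial.eq_of_monic_of_associated hP.1.1 hP'.1.1
      (associated_of_dvd_dvd (key P P' hP.1 hP'.1 h) (key P' P hP'.1 hP.1 h.symm))
  · intro f hf
    simp only [Finset.mem_coe, Finset.mem_pi, Finset.mem_powersetCard] at hf
    set U : Finset K[X] := (Finset.Icc 1 n).attach.biUnion (fun d => f d.1 d.2) with hU
    have hU1 : ∀ R ∈ U, R.Monic ∧ Irreducible R := by
      intro R hR
      rw [hU, Finset.mem_biUnion] at hR
      obtain ⟨d, _, hd⟩ := hR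
      have := (hf d.1 d.2).1 hd
      rw [hmem] at this
      exact ⟨this.1, this.2.1⟩
    have hU2 : ∀ R : K[X], ∀ d (hd : d ∈ Finset.Icc 1 n), R ∈ I d → (R ∈ U ↔ R ∈ f d hd) := by
      intro R d hd hR
      constructor
      · intro h
        rw [hU, Finset.mem_biUnion] at h
        obtain ⟨e, _, he⟩ := h
        have h1 := (hf e.1 e.2).1 he
        rw [hmem] at h1 hR
        have h2 : e.1 = d := by rw [← h1.2.2, hR.2.2]
        obtain ⟨e, he'⟩ := e
        simp only at h2 he
        subst h2
        exact he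
      · intro h
        rw [hU, Finset.mem_biUnion]
        exact ⟨⟨d, hd⟩, Finset.mem_attach _ _, h⟩
    have hdeg : (∏ R ∈ U, R).natDegree = n := by
      rw [Polynomial.natDegree_prod_of_monic _ _ (fun R hR => (hU1 R hR).1), hU,
        Finset.sum_biUnion]
      · have h1 : ∀ d ∈ (Finset.Icc 1 n).attach, ∑ R ∈ f d.1 d.2, R.natDegree = d.1 * m d.1 := by
          intro d _
          have h2 : ∀ R ∈ f d.1 d.2, R.natDegree = d.1 := by
            intro R hR
            have := (hf d.1 d.2).1 hR
            rw [hmem] at this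
            exact this.2.2
          rw [Finset.sum_congr rfl h2, Finset.sum_const, (hf d.1 d.2).2, smul_eq_mul, mul_comm]
        rw [Finset.sum_congr rfl h1, Finset.sum_attach (Finset.Icc 1 n) (fun d => d * m d), hm]
      · intro d _ e _ hde
        simp only [Function.onFun]
        rw [Finset.disjoint_left]
        intro R hR hR'
        have h1 := (hf d.1 d.2).1 hR
        have h2 := (hf e.1 e.2).1 hR'
        rw [hmem] at h1 h2
        apply hde
        apply Subtype.ext
        rw [← h1.2.2, h2.2.2]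
    have hfil : ∀ d (hd : d ∈ Finset.Icc 1 n),
        (I d).filter (fun Q => Q ∣ ∏ R ∈ U, R) = f d hd := by
      intro d hd
      ext Q
      rw [Finset.mem_filter]
      constructor
      · rintro ⟨h1, h2⟩
        have h3 := (hmem d Q).1 h1
        rw [S4_prod hU1 h3.1 h3.2.1] at h2
        exact (hU2 Q d hd h1).1 h2
      · intro h
        have h1 := (hf d hd).1 h
        have h3 := (hmem d Q).1 h1
        refine ⟨h1, ?_⟩
        rw [S4_prod hU1 h3.1 h3.2.1]
        exact (hU2 Q d hd h1).2 h
    refine ⟨∏ R ∈ U, R, ⟨⟨Polynomial.monic_prod_of_monic _ _ (fun R hR => (hU1 R hR).1), hdeg,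
      S4_sqf hU1⟩, ?_⟩, ?_⟩
    · intro d hd
      rw [← hty, hfil d hd]
      exact (hf d hd).2
    · funext d hd
      exact hfil d hd

theorem S4_mem {n : ℕ} (p : Nat.Partition n) {d : ℕ} (hd : d ∈ p.parts) : d ∈ Finset.Icc 1 n := by
  rw [Finset.mem_Icc]
  refine ⟨p.parts_pos hd, ?_⟩
  have := Multiset.single_le_sum (fun x _ => Nat.zero_le x) d hd
  rwa [p.parts_sum] at this

/-- Functions `m` on `Icc 1 n` with `∑ d * m d = n` correspond to partitions: `m d = p.parts.count d`. -/
theorem exists_partition {n : ℕ} (m : ℕ → ℕ) (hm : ∑ d ∈ Finset.Icc 1 n, d * m d = n) :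
    ∃! p : Nat.Partition n, ∀ d ∈ Finset.Icc 1 n, p.parts.count d = m d := by
  classical
  set s : Multiset ℕ := ∑ d ∈ Finset.Icc 1 n, Multiset.replicate (m d) d with hs
  have hcount : ∀ d ∈ Finset.Icc 1 n, s.count d = m d := by
    intro d hd
    rw [hs, Multiset.count_sum', Finset.sum_eq_single d]
    · rw [Multiset.count_replicate_self]
    · intro e _ he
      rw [Multiset.count_replicate, if_neg he]
    · intro h
      exact absurd hd h
  have hsum : s.sum = n := by
    rw [hs, Multiset.sum_sum]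
    refine Eq.trans ?_ hm
    apply Finset.sum_congr rfl
    intro d _
    rw [Multiset.sum_replicate, smul_eq_mul, mul_comm]
  have hpos : ∀ {i : ℕ}, i ∈ s → 0 < i := by
    intro i hi
    rw [hs, Multiset.mem_sum] at hi
    obtain ⟨d, hd, h⟩ := hi
    rw [Multiset.eq_of_mem_replicate h]
    exact (Finset.mem_Icc.1 hd).1
  refine ⟨⟨s, hpos, hsum⟩, hcount, ?_⟩
  intro q hq
  apply Nat.Partition.ext
  ext d
  by_cases hd : d ∈ Finset.Icc 1 n
  · rw [hq d hd]
    exact (hcount d hd).symm
  · rw [Multiset.count_eq_zero_of_notMem (fun h => hd (S4_mem q h))]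
    rw [Multiset.count_eq_zero_of_notMem (fun h => hd (S4_mem (⟨s, hpos, hsum⟩ : Nat.Partition n) h))]

theorem sum_count {n : ℕ} (p : Nat.Partition n) :
    ∑ d ∈ Finset.Icc 1 n, d * p.parts.count d = n := by
  classical
  have h := Finset.sum_multiset_count p.parts
  rw [p.parts_sum] at h
  have h2 : ∑ d ∈ p.parts.toFinset, Multiset.count d p.parts • d =
      ∑ d ∈ Finset.Icc 1 n, d * p.parts.count d := by
    rw [← Finset.sum_subset (f := fun d => d * p.parts.count d) (s₁ := p.parts.toFinset)
      (s₂ := Finset.Icc 1 n)]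
    · apply Finset.sum_congr rfl
      intro d _
      rw [smul_eq_mul, mul_comm]
    · intro d hd
      exact S4_mem p (Multiset.mem_toFinset.1 hd)
    · intro d _ hd
      rw [Multiset.count_eq_zero_of_notMem (fun h => hd (Multiset.mem_toFinset.2 h)), mul_zero]
  rw [← h2]
  exact h.symm

end SBr
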