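import Pool.Agent.H.MP_cc3311_ag.S0

/-!
# MP_cc3311_ag, S5: the number of monic irreducible polynomials
-/

set_option autoImplicit false

namespace SBr

open Polynomial

variable (K : Type) [Field K] [Fintype K]

open UniqueFactorizationMonoid in
/-- Gauss. PROOF. `X ^ (q ^ n) - X` is squarefree and its monic irreducible factors are the monic
irreducible polynomials of degree dividing `n`; compare degrees. -/
theorem gauss {n : ℕ} (hn : 1 ≤ n) : ∑ d ∈ n.divisors, d * nI K d = Fintype.card K ^ n := by
  classical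
  have hn0 : n ≠ 0 := by omega
  set q := Fintype.card K with hq
  have hq1 : 1 < q := Fintype.one_lt_card
  set F : K[X] := X ^ q ^ n - X with hF
  have hF0 : F ≠ 0 := FiniteField.X_pow_card_pow_sub_X_ne_zero K hn0 hq1
  have hdeg : F.natDegree = q ^ n := FiniteField.X_pow_card_pow_sub_X_natDegree_eq K hn0 hq1
  obtain ⟨p, hp⟩ := CharP.exists K
  have hpq : p ∣ q := by
    have : ((q : ℕ) : K) = 0 := by rw [hq]; exact FiniteField.cast_card_eq_zero K
    exact (CharP.cast_eq_zero_iff K p q).1 this
  have hsep : F.Separable := galois_poly_separable p _ (dvd_pow hpq hn0)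
  have hsq : Squarefree F := hsep.squarefree
  have hnd : (normalizedFactors F).Nodup := (squarefree_iff_nodup_normalizedFactors hF0).1 hsq
  set T := (normalizedFactors F).toFinset with hT
  have hmem : ∀ P : K[X], P ∈ T ↔ Irreducible P ∧ P.Monic ∧ P.natDegree ∣ n := by
    intro P
    rw [hT, Multiset.mem_toFinset, Polynomial.mem_normalizedFactors_iff hF0]
    constructor
    · rintro ⟨a, b, c⟩
      refine ⟨a, b, ?_⟩
      rw [a.natDegree_dvd_iff_dvd_X_pow_card_pow_sub_X, Nat.card_eq_fintype_card]
      exact c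
    · rintro ⟨a, b, c⟩
      refine ⟨a, b, ?_⟩
      rw [a.natDegree_dvd_iff_dvd_X_pow_card_pow_sub_X, Nat.card_eq_fintype_card] at c
      exact c
  have hsum : ∑ P ∈ T, P.natDegree = q ^ n := by
    have h1 : F.natDegree = ((normalizedFactors F).map natDegree).sum := by
      have h2 := prod_normalizedFactors hF0
      have h3 : (normalizedFactors F).prod.natDegree = F.natDegree :=
        natDegree_eq_of_degree_eq (degree_eq_degree_of_associated h2)
      rw [← h3, natDegree_multiset_prod]
      exact zero_notMem_normalizedFactors F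
    rw [← hdeg, h1, Finset.sum, hT, Multiset.toFinset_val, hnd.dedup]
  have hfib : ∑ P ∈ T, P.natDegree = ∑ d ∈ n.divisors, ∑ P ∈ T with P.natDegree = d, P.natDegree := by
    rw [Finset.sum_fiberwise_of_maps_to]
    intro P hP
    rw [Nat.mem_divisors]
    exact ⟨((hmem P).1 hP).2.2, hn0⟩
  rw [← hsum, hfib]
  apply Finset.sum_congr rfl
  intro d hd
  have h4 : ∑ P ∈ T with P.natDegree = d, P.natDegree = ∑ P ∈ T with P.natDegree = d, d :=
    Finset.sum_congr rfl (fun P hP => (Finset.mem_filter.1 hP).2)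
  rw [h4, Finset.sum_const, smul_eq_mul, mul_comm]
  congr 1
  unfold nI
  rw [← Set.ncard_coe_finset]
  congr 1
  ext P
  simp only [Ir, Set.mem_setOf_eq, Finset.coe_filter, hmem]
  constructor
  · rintro ⟨a, b, c⟩
    exact ⟨⟨b, a, by rw [c]; exact (Nat.mem_divisors.1 hd).1⟩, c⟩
  · rintro ⟨⟨a, b, _⟩, d⟩
    exact ⟨b, a, d⟩

/-- Moebius inversion (`ArithmeticFunction.sum_eq_iff_sum_mul_moebius_eq` or similar). -/
theorem nI_eq {d : ℕ} (hd : 1 ≤ d) : nI K d = neck (Fintype.card K) d := by
  classical
  have h := (ArithmeticFunction.sum_eq_iff_sum_mul_moebius_eq (R := ℤ)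
    (f := fun d => ((d * nI K d : ℕ) : ℤ)) (g := fun n => ((Fintype.card K ^ n : ℕ) : ℤ))).1
    (fun n hn => by rw [← gauss K hn]; push_cast; rfl) d hd
  have h2 : ∑ e ∈ d.divisors, ArithmeticFunction.moebius (d / e) * ((Fintype.card K : ℕ) : ℤ) ^ e
      = (d : ℤ) * (nI K d : ℤ) := by
    have h3 := Nat.sum_divisorsAntidiagonal' (n := d)
      (f := fun a b => ArithmeticFunction.moebius a * ((Fintype.card K : ℕ) : ℤ) ^ b)
    rw [← h3]
    push_cast at h
    simpa using h
  unfold neck
  rw [h2, Int.mul_ediv_cancel_left _ (by positivity)]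
  simp

end SBr
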