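import Pool.Agent.H.MP_cc3311_ag.S4
import Pool.Agent.H.MP_cc3311_ag.S5
import Pool.Agent.H.MP_cc3311_ag.R10

/-!
# MP_cc3311_ag, S6: the explicit formula for the number of pairs
-/

set_option autoImplicit false

namespace SBr

open Polynomial

variable (K : Type) [Field K] [Fintype K]

theorem S6_mul (P : K[X]) (Q : K[X]) (n : ℕ) : (P, Q) ∈ CC K n ↔ P ∈ Sq K n ∧ Q ∈ AA P := by
  constructor
  · rintro ⟨h1, h2, h3⟩
    refine ⟨h1, ?_, h3⟩
    show Q.degree < (P.natDegree : WithBot ℕ)
    rw [show P.natDegree = n from h1.2.1]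
    exact h2
  · rintro ⟨h1, h2, h3⟩
    refine ⟨h1, ?_, h3⟩
    show Q.degree < (n : WithBot ℕ)
    have h4 : P.natDegree = n := h1.2.1
    rw [← h4]
    exact h2

/-- PROOF. `CC K n` is fibred over `Sq K n` with fibres `AA P`; sort the `P` by their types
(`AA_card`, `type_card`, `exists_partition`, `sum_ty`, `sum_count`), `nI_eq`. -/
theorem CC_card {n : ℕ} (hn : 1 ≤ n) : (CC K n).ncard = cform n (Fintype.card K) := by
  classical
  have hfin : (Sq K n).Finite := by
    apply Set.Finite.subset (Mo_finite K n)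
    intro P hP
    exact ⟨hP.1, hP.2.1⟩
  set S : Finset K[X] := hfin.toFinset with hS
  have hSm : ∀ P, P ∈ S ↔ P ∈ Sq K n := fun P => by simp [hS]
  -- the fibres
  have h1 : (CC K n).ncard = ∑ P ∈ S, (AA P).ncard := by
    have h2 : CC K n = ((S.sigma (fun P => (AA_finite P).toFinset)).image
        (fun x : (_ : K[X]) × K[X] => (x.1, x.2)) : Finset (K[X] × K[X])) := by
      ext ⟨P, Q⟩
      rw [S6_mul]
      simp only [Finset.coe_image, Set.mem_image, Finset.mem_coe, Finset.mem_sigma, hSm,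
        Set.Finite.mem_toFinset, Prod.mk.injEq]
      constructor
      · rintro ⟨h, h'⟩
        exact ⟨⟨P, Q⟩, ⟨h, h'⟩, rfl, rfl⟩
      · rintro ⟨⟨P', Q'⟩, ⟨h, h'⟩, h3, h4⟩
        simp only at h3 h4 h h'
        subst h3 h4
        exact ⟨h, h'⟩
    rw [h2, Set.ncard_coe_finset, Finset.card_image_of_injective, Finset.card_sigma]
    · apply Finset.sum_congr rfl
      intro P _
      rw [Set.ncard_eq_toFinset_card _ (AA_finite P)]
    · rintro ⟨P, Q⟩ ⟨P', Q'⟩ h
      simp only [Prod.mk.injEq] at h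
      obtain ⟨h3, h4⟩ := h
      subst h3 h4
      rfl
  rw [h1]
  have h2 : ∀ P ∈ Sq K n, ∃ p : Nat.Partition n, ∀ d ∈ Finset.Icc 1 n,
      p.parts.count d = ty P d := by
    intro P hP
    exact (exists_partition (ty P) (sum_ty hP)).exists
  choose! g hg using h2
  rw [← Finset.sum_fiberwise S g, cform]
  apply Finset.sum_congr rfl
  intro p _
  have h3 : ∀ P ∈ S.filter (fun P => g P = p), (AA P).ncard = ∏ d ∈ Finset.Icc 1 n,
      (nI K d).descFactorial (p.parts.count d) * d ^ (p.parts.count d) := by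
    intro P hP
    rw [Finset.mem_filter, hSm] at hP
    rw [AA_card hP.1]
    apply Finset.prod_congr rfl
    intro d hd
    have := hg P hP.1 d hd
    rw [hP.2] at this
    rw [this]
  rw [Finset.sum_congr rfl h3, Finset.sum_const, smul_eq_mul]
  have h4 : (S.filter (fun P => g P = p)).card =
      ∏ d ∈ Finset.Icc 1 n, (nI K d).choose (p.parts.count d) := by
    rw [← type_card K (fun d => p.parts.count d) (sum_count p), ← Set.ncard_coe_finset]
    congr 1
    ext P
    simp only [Finset.coe_filter, Set.mem_setOf_eq, hSm]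
    constructor
    · rintro ⟨h, h'⟩
      refine ⟨h, ?_⟩
      intro d hd
      rw [← hg P h d hd, h']
    · rintro ⟨h, h'⟩
      refine ⟨h, ?_⟩
      exact (exists_partition (ty P) (sum_ty h)).unique (hg P h) (fun d hd => (h' d hd).symm)
  rw [h4, ← Finset.prod_mul_distrib]
  rw [← Finset.prod_subset (s₁ := p.parts.toFinset) (s₂ := Finset.Icc 1 n)]
  · apply Finset.prod_congr rfl
    intro d hd
    have hd1 := S4_mem p (Multiset.mem_toFinset.1 hd)
    rw [nI_eq K (Finset.mem_Icc.1 hd1).1, mul_assoc]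
  · intro d hd
    exact S4_mem p (Multiset.mem_toFinset.1 hd)
  · intro d _ hd
    rw [Multiset.count_eq_zero_of_notMem (fun h => hd (Multiset.mem_toFinset.2 h))]
    simp

end SBr
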