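import Pool.Agent.H.MP_cc3311_ag.S6

/-!
# MP_cc3311_ag, T1: the asymptotic formula for all `n`
-/

set_option autoImplicit false

namespace SBr

open Polynomial

/-- `comparison` with `k = (n + 1) / 4`, `CC_card`. -/
theorem asymptotic (n : ℕ) (hn : 1 ≤ n) : ∃ c : ℕ, ∀ (K : Type) [Field K] [Fintype K],
    n + 1 < ringChar K →
    |(Fintype.card K : ℝ) ^ n * (N K n : ℝ) - (cform n (Fintype.card K) : ℝ)| ≤
      c * (Fintype.card K : ℝ) ^ (2 * n - 1 - (n + 1) / 4) := by
  refine ⟨bR n * (cT n + cP n), fun K _ _ hK => ?_⟩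
  have h1 := comparison K (good_of_ringChar hK) hn
    (show 4 * ((n + 1) / 4) ≤ n + 1 from Nat.mul_div_le _ _)
  rw [CC_card K hn] at h1
  have hq : (0 : ℤ) < (Fintype.card K : ℤ) := by exact_mod_cast Fintype.card_pos
  have h2 : (Fintype.card K : ℤ) ^ (2 * n) =
      (Fintype.card K : ℤ) ^ (2 * n - 1 - (n + 1) / 4) * (Fintype.card K : ℤ) ^ ((n + 1) / 4 + 1) := by
    rw [← pow_add]
    congr 1
    omega
  rw [h2, ← mul_assoc] at h1
  have h3 := le_of_mul_le_mul_right h1 (pow_pos hq _)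
  exact_mod_cast h3

end SBr
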